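import Mathlib

/-!
# The definitions used in the statement of the result for MP_2059f1_ag

Complex quasi-projective varieties with their analytic topology, regular maps, rational singular
cohomology, rationally elliptic spaces, mixed Hodge structures, functorial mixed Hodge structures on
the cohomology of all quasi-projective varieties.
-/

set_option autoImplicit false

open scoped LinearAlgebra.Projectivization TensorProduct Topology
open CategoryTheory AlgebraicTopology

namespace Run7.h592.St

noncomputable section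

/-! ## Varieties -/

/-- The complex projective space with homogeneous coordinates indexed by `ι`. -/
def PSpace (ι : Type) : Type := ℙ ℂ (ι → ℂ)

/-- The point with homogeneous coordinates `v`. -/
def point {ι : Type} (v : ι → ℂ) (h : v ≠ 0) : PSpace ι := Projectivization.mk ℂ v h

/-- A choice of homogeneous coordinates of the point `p`. -/
def PSpace.coord {ι : Type} (p : PSpace ι) : ι → ℂ := Projectivization.rep p

/-- The analytic topology of projective space: the quotient topology from `ℂ^ι ∖ 0`. -/
instance topPSpace (ι : Type) : TopologicalSpace (PSpace ι) :=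
  TopologicalSpace.coinduced (fun v : {v : ι → ℂ // v ≠ 0} => point v.1 v.2)
    instTopologicalSpaceSubtype

/-- The homogeneous polynomial `f` vanishes at the point `p` of projective space. -/
def Van {ι : Type} (f : MvPolynomial ι ℂ) (p : PSpace ι) : Prop :=
  MvPolynomial.eval p.coord f = 0

/-- The polynomial is homogeneous (of some degree). -/
def IsHomog {ι : Type} (f : MvPolynomial ι ℂ) : Prop := ∃ d : ℕ, f.IsHomogeneous d

/-- `Z` is a quasi-projective subset of projective space: it is the set of the common zeros of the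
homogeneous polynomials in a set `S` at which some homogeneous polynomial of a set `T` is
nonzero. -/
def IsQuasiProjective {ι : Type} (Z : Set (PSpace ι)) : Prop :=
  ∃ S T : Set (MvPolynomial ι ℂ), (∀ f ∈ S, IsHomog f) ∧ (∀ g ∈ T, IsHomog g) ∧
    ∀ p, p ∈ Z ↔ (∀ f ∈ S, Van f p) ∧ ∃ g ∈ T, ¬ Van g p

/-- A complex quasi-projective variety: a quasi-projective subset of a projective space. -/
structure Var where
  /-- the index set of the homogeneous coordinates -/
  idx : Type
  isFinite : Finite idx
  /-- the set of the points -/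
  pts : Set (PSpace idx)
  isQP : IsQuasiProjective pts

/-- The points of the variety `V`. -/
def Var.Sp (V : Var) : Type := {p : PSpace V.idx // p ∈ V.pts}

/-- The point of projective space. -/
def Var.Sp.pt {V : Var} (p : V.Sp) : PSpace V.idx := p.1

/-- The analytic topology of a quasi-projective variety: the subspace topology. -/
instance topSp (V : Var) : TopologicalSpace V.Sp :=
  TopologicalSpace.induced Var.Sp.pt (topPSpace V.idx)

/-- The variety is irreducible: it is nonempty, and if the product of two homogeneous polynomials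
vanishes on it, one of them vanishes on it. -/
def IsIrreducible (V : Var) : Prop :=
  V.pts.Nonempty ∧ ∀ f g : MvPolynomial V.idx ℂ, IsHomog f → IsHomog g →
    (∀ p ∈ V.pts, Van f p ∨ Van g p) → (∀ p ∈ V.pts, Van f p) ∨ ∀ p ∈ V.pts, Van g p

/-- The variety is projective: a closed algebraic subset of projective space. -/
def IsProjective (V : Var) : Prop :=
  ∃ S : Set (MvPolynomial V.idx ℂ), (∀ f ∈ S, IsHomog f) ∧ ∀ p, p ∈ V.pts ↔ ∀ f ∈ S, Van f p

/-- The gradient of the polynomial `f` at (the chosen coordinates of) `p`. -/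
def grad {ι : Type} (f : MvPolynomial ι ℂ) (p : PSpace ι) : ι → ℂ :=
  fun i => MvPolynomial.eval p.coord (MvPolynomial.pderiv i f)

/-- The variety is smooth (Jacobian criterion): near each of its points `p` it is the zero set of
finitely many homogeneous polynomials whose gradients at `p` are linearly independent. -/
def IsSmooth (V : Var) : Prop :=
  ∀ p ∈ V.pts, ∃ (c : ℕ) (F : Fin c → MvPolynomial V.idx ℂ), (∀ j, IsHomog (F j)) ∧
    LinearIndependent ℂ (fun j => grad (F j) p) ∧
    ∃ U ∈ 𝓝 p, ∀ q ∈ U, q ∈ V.pts ↔ ∀ j, Van (F j) q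

/-- The values of the polynomials `F i` at (the chosen coordinates of) `p`. -/
def evalAt {ι κ : Type} (F : κ → MvPolynomial ι ℂ) (p : PSpace ι) : κ → ℂ :=
  fun i => MvPolynomial.eval p.coord (F i)

/-- The map `f` between quasi-projective varieties is regular: for every point `p` there are
homogeneous polynomials `F i` of the same degree, not all zero at `p`, that give the homogeneous
coordinates of `f q` for all points `q` at which they are not all zero. -/
def IsRegular {V V' : Var} (f : V.Sp → V'.Sp) : Prop :=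
  ∀ p : V.Sp, ∃ (d : ℕ) (F : V'.idx → MvPolynomial V.idx ℂ), (∀ i, (F i).IsHomogeneous d) ∧
    evalAt F p.pt ≠ 0 ∧
    ∀ (q : V.Sp) (h : evalAt F q.pt ≠ 0), (f q).pt = point (evalAt F q.pt) h

/-- A regular map between quasi-projective varieties. -/
structure Mor (V V' : Var) where
  /-- the map of the analytic spaces -/
  toMap : C(V.Sp, V'.Sp)
  isReg : IsRegular toMap

/-! ## Homology, cohomology, rationally elliptic spaces -/

/-- Rational singular homology (Mathlib). -/
def Hlg (X : Type) [TopologicalSpace X] (k : ℕ) : ModuleCat.{0} ℚ :=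
  ((singularHomologyFunctor (ModuleCat.{0} ℚ) k).obj (ModuleCat.of ℚ ℚ)).obj (TopCat.of X)

/-- The map induced on rational singular homology. -/
def hlgMap {X Y : Type} [TopologicalSpace X] [TopologicalSpace Y] (f : C(X, Y)) (k : ℕ) :
    Hlg X k ⟶ Hlg Y k :=
  ((singularHomologyFunctor (ModuleCat.{0} ℚ) k).obj (ModuleCat.of ℚ ℚ)).map (TopCat.ofHom f)

/-- Rational singular cohomology, as the dual space of rational homology. -/
def Coh (X : Type) [TopologicalSpace X] (k : ℕ) : ModuleCat.{0} ℚ :=
  ModuleCat.of ℚ (Module.Dual ℚ (Hlg X k))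

/-- The map induced on rational cohomology. -/
def cohMap {X Y : Type} [TopologicalSpace X] [TopologicalSpace Y] (f : C(X, Y)) (k : ℕ) :
    Coh Y k →ₗ[ℚ] Coh X k := (hlgMap f k).hom.dualMap

/-- `π_{k+2}(X, x) ⊗ ℚ`. -/
def PiQ (X : Type) [TopologicalSpace X] (x : X) (k : ℕ) : ModuleCat.{0} ℚ :=
  ModuleCat.of ℚ (ℚ ⊗[ℤ] Additive (HomotopyGroup (Fin (k + 2)) X x))

/-- The graded vector space `E` has finite total dimension. -/
def FiniteTotal (E : ℕ → ModuleCat.{0} ℚ) : Prop :=
  (∀ k, Module.Finite ℚ (E k)) ∧ ∃ N, ∀ k, N ≤ k → Subsingleton (E k)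

/-- `X` is rationally elliptic: it is simply connected, and its rational cohomology and its
rational homotopy have finite total dimension. -/
def RationallyElliptic (X : Type) [TopologicalSpace X] : Prop :=
  SimplyConnectedSpace X ∧ FiniteTotal (fun k => Coh X k) ∧
    ∀ x : X, FiniteTotal (fun k => PiQ X x k)

/-- The rational cohomology `H^k(V; ℚ)` of the variety `V`. -/
def Var.cohomology (V : Var) (k : ℕ) : ModuleCat.{0} ℚ := Coh V.Sp k

/-- The map `H^k(V'; ℚ) → H^k(V; ℚ)` induced by the regular map `f`. -/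
def Mor.star {V V' : Var} (f : Mor V V') (k : ℕ) : V'.cohomology k →ₗ[ℚ] V.cohomology k :=
  cohMap f.toMap k

/-- The map `H^k(V'; ℚ) → H^k(V; ℚ)` induced by the regular map `f` is nonzero. -/
def Mor.NonzeroOn {V V' : Var} (f : Mor V V') (k : ℕ) : Prop :=
  ∃ x : V'.cohomology k, f.star k x ≠ 0

/-- The dimension of the vector space `E` is at most `n`. -/
def DimLE (E : ModuleCat.{0} ℚ) (n : ℕ) : Prop := Module.Finite ℚ E ∧ Module.finrank ℚ E ≤ n

/-! ## Mixed Hodge structures -/

/-- The complex vector space `ℂ ⊗ H`. -/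
def Cx (H : ModuleCat.{0} ℚ) : ModuleCat.{0} ℂ := ModuleCat.of ℂ (ℂ ⊗[ℚ] H)

/-- The subspace `ℂ ⊗ S` of `ℂ ⊗ H`. -/
def cxSub {H : ModuleCat.{0} ℚ} (S : Submodule ℚ H) : Submodule ℂ (Cx H) := S.baseChange ℂ

/-- The complexification of a linear map. -/
def cxMap {H H' : ModuleCat.{0} ℚ} (f : H →ₗ[ℚ] H') : Cx H →ₗ[ℂ] Cx H' := f.baseChange ℂ

/-- Complex conjugation on `ℂ ⊗ H`. -/
def cxConj {H : ModuleCat.{0} ℚ} (x : Cx H) : Cx H :=
  LinearMap.rTensor H ((Complex.conjAe.toLinearMap).restrictScalars ℚ) x

/-- The complex conjugate of the subspace `S` of `ℂ ⊗ H`. -/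
def conjSub {H : ModuleCat.{0} ℚ} (S : Submodule ℂ (Cx H)) : Submodule ℂ (Cx H) :=
  Submodule.span ℂ {x | cxConj x ∈ S}

/-- Two filtrations: the weight filtration `W` on the rational vector space `H`, and the Hodge
filtration `F` on `ℂ ⊗ H`. -/
structure Fil (H : ModuleCat.{0} ℚ) where
  /-- the weight filtration `W` -/
  weight : ℤ → Submodule ℚ H
  /-- the Hodge filtration `F` -/
  hodge : ℤ → Submodule ℂ (Cx H)

/-- `W_n ⊗ ℂ`. -/
def Fil.weightC {H : ModuleCat.{0} ℚ} (m : Fil H) (n : ℤ) : Submodule ℂ (Cx H) :=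
  cxSub (m.weight n)

/-- The preimage in `W_n ⊗ ℂ` of the step `F^p` of the Hodge filtration of `Gr^W_n`. -/
def Fil.hodgeGr {H : ModuleCat.{0} ℚ} (m : Fil H) (n p : ℤ) : Submodule ℂ (Cx H) :=
  (m.hodge p ⊓ m.weightC n) ⊔ m.weightC (n - 1)

/-- The preimage in `W_n ⊗ ℂ` of the complex conjugate of the step `F^q` of the Hodge filtration of
`Gr^W_n`. -/
def Fil.hodgeGrConj {H : ModuleCat.{0} ℚ} (m : Fil H) (n q : ℤ) : Submodule ℂ (Cx H) :=
  (conjSub (m.hodge q) ⊓ m.weightC n) ⊔ m.weightC (n - 1)

/-- For subspaces `A` and `B` between `S` and `T`: `T / S` is the direct sum of `A / S` and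
`B / S`. -/
def Splits {E : ModuleCat.{0} ℂ} (S T A B : Submodule ℂ E) : Prop := A ⊔ B = T ∧ A ⊓ B = S

/-- `(W, F)` is a mixed Hodge structure: finite filtrations, such that `F` induces on every
`Gr^W_n` a Hodge structure of weight `n`: `Gr^W_n ⊗ ℂ` is the direct sum of `F^p` and of the
conjugate of `F^{n+1-p}`. -/
structure IsMHS {H : ModuleCat.{0} ℚ} (m : Fil H) : Prop where
  weight_mono : Monotone m.weight
  weight_bot : ∃ a, m.weight a = ⊥
  weight_top : ∃ b, m.weight b = ⊤
  hodge_anti : Antitone m.hodge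
  hodge_top : ∃ a, m.hodge a = ⊤
  hodge_bot : ∃ b, m.hodge b = ⊥
  opposed : ∀ n p,
    Splits (m.weightC (n - 1)) (m.weightC n) (m.hodgeGr n p) (m.hodgeGrConj n (n + 1 - p))

/-- The linear map `f` respects the filtrations. -/
def Respects {H H' : ModuleCat.{0} ℚ} (m : Fil H) (m' : Fil H') (f : H →ₗ[ℚ] H') : Prop :=
  (∀ n, ∀ x ∈ m.weight n, f x ∈ m'.weight n) ∧ ∀ p, ∀ x ∈ m.hodge p, cxMap f x ∈ m'.hodge p

/-- The weight filtration is that of a pure structure of weight `n`. -/
def IsPure {H : ModuleCat.{0} ℚ} (m : Fil H) (n : ℤ) : Prop :=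
  m.weight n = ⊤ ∧ m.weight (n - 1) = ⊥

/-- The dimension of `A / (A ∩ B)`. -/
def quoDim {E : ModuleCat.{0} ℂ} (A B : Submodule ℂ E) : ℕ :=
  Module.finrank ℂ (A ⧸ B.submoduleOf A)

/-- The Hodge number `h^{p,q} = dim Gr_F^p Gr^W_{p+q}`. -/
def hodgeNumber {H : ModuleCat.{0} ℚ} (m : Fil H) (p q : ℤ) : ℕ :=
  quoDim (m.hodgeGr (p + q) p) (m.hodgeGr (p + q) (p + 1))

/-- A functorial mixed Hodge structure on the cohomology of all complex quasi-projective varieties,
which is pure of weight `k` on `H^k` of smooth projective varieties. -/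
structure IsHodgeTheory (D : ∀ (V : Var) (k : ℕ), Fil (V.cohomology k)) : Prop where
  isMHS : ∀ V k, IsMHS (D V k)
  functorial : ∀ (V V' : Var) (f : Mor V V') (k : ℕ), Respects (D V' k) (D V k) (f.star k)
  isPure : ∀ V, IsProjective V → IsSmooth V → ∀ k : ℕ, IsPure (D V k) k

end

end Run7.h592.St
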