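import Pool.Agent.Run7.h592.Defs2
import Pool.Agent.Run7.h592.Stmt

/-! The definitions of `Stmt.lean` agree with those of `Defs.lean` and `Defs2.lean`. -/

set_option autoImplicit false

open scoped LinearAlgebra.Projectivization TensorProduct Topology
open CategoryTheory AlgebraicTopology

namespace Run7.h592.Br

noncomputable section

/-- The new form of a variety. -/
def toVar (V : QPVar) : St.Var := ⟨V.ι, V.fin, V.pts, V.qp⟩

/-- The old form of a variety. -/
def ofVar (V : St.Var) : QPVar := ⟨V.idx, V.isFinite, V.pts, V.isQP⟩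

theorem toVar_ofVar (V : St.Var) : toVar (ofVar V) = V := rfl

theorem ps_top (ι : Type) : St.topPSpace ι = topProj ι := rfl

theorem sp_top (V : QPVar) :
    St.topSp (toVar V) = (instTopologicalSpaceSubtype : TopologicalSpace V.pts) := rfl

theorem isSmooth {V : QPVar} (h : IsSmooth V) : St.IsSmooth (toVar V) := h

theorem isSmooth' {V : St.Var} (h : St.IsSmooth V) : IsSmooth (ofVar V) := h

theorem isProj {V : QPVar} (h : IsProjective V) : St.IsProjective (toVar V) := h

theorem irr {V : QPVar} (h : IsIrreducibleVar V) : St.IsIrreducible (toVar V) := h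

theorem isRegular {V V' : QPVar} {f : V.pts → V'.pts} (h : IsRegular (V := V) (V' := V') f) :
    St.IsRegular (V := toVar V) (V' := toVar V') f := by
  intro p
  obtain ⟨d, F, hF, ⟨i, hi⟩, hq⟩ := h p
  refine ⟨d, F, hF, ?_, hq⟩
  intro h0
  exact hi (congrFun h0 i)

/-- The regular map in the new form. -/
def mor {V V' : QPVar} (f : C(V.pts, V'.pts)) (h : IsRegular (V := V) (V' := V') f) :
    St.Mor (toVar V) (toVar V') := ⟨f, isRegular h⟩

theorem ell {V : QPVar} (h : RationallyElliptic V.pts) :
    St.RationallyElliptic (toVar V).Sp := h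

theorem star_eq {V V' : QPVar} (f : C(V.pts, V'.pts)) (h : IsRegular (V := V) (V' := V') f)
    (k : ℕ) : (mor f h).star k = cmap f k := rfl

section fil

variable {H : ModuleCat.{0} ℚ}

/-- The old form of a pair of filtrations. -/
def oldFil (m : St.Fil H) : Fil H := ⟨m.weight, m.hodge⟩

theorem conjSub_eq (S : Submodule ℂ (ℂ ⊗[ℚ] H)) : St.conjSub (H := H) S = cjS S :=
  Submodule.span_eq (cjS S)

theorem isMHS {m : St.Fil H} (h : St.IsMHS m) : IsMHS (oldFil m) where
  mono := h.weight_mono
  bot := h.weight_bot
  top := h.weight_top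
  anti := h.hodge_anti
  Ftop := h.hodge_top
  Fbot := h.hodge_bot
  sup := by
    intro n p
    have h1 := (h.opposed n p).1
    rw [St.Fil.hodgeGrConj, conjSub_eq] at h1
    exact h1
  inf := by
    intro n p
    have h1 := (h.opposed n p).2
    rw [St.Fil.hodgeGrConj, conjSub_eq] at h1
    exact h1

theorem hodge_eq (m : St.Fil H) (p q : ℤ) : hodgeNumber (oldFil m) p q = St.hodgeNumber m p q :=
  rfl

end fil

/-- The old form of the filtrations on the cohomology of all varieties. -/
def oldData (D : ∀ (V : St.Var) (k : ℕ), St.Fil (V.cohomology k)) : HodgeData :=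
  ⟨fun V k => oldFil (D (toVar V) k)⟩

theorem isHT {D : ∀ (V : St.Var) (k : ℕ), St.Fil (V.cohomology k)} (h : St.IsHodgeTheory D) :
    IsHodgeTheory (oldData D) where
  mhs := fun V k => isMHS (h.isMHS (toVar V) k)
  functW := fun _ _ f hf k n x hx => (h.functorial _ _ (mor f hf) k).1 n x hx
  functF := fun _ _ f hf k n x hx => (h.functorial _ _ (mor f hf) k).2 n x hx
  pure := fun V h1 h2 k => h.isPure (toVar V) h1 h2 k

end

end Run7.h592.Br
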