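import Pool.Agent.Run7.h592.Asm3

/-! Assembly, part 4: the zigzag of varieties. -/

set_option autoImplicit false

open scoped Topology TensorProduct LinearAlgebra.Projectivization

namespace Run7.h592

open Pool.Agent.Y209.HB

noncomputable section

/-! ## Nonzero maps on cohomology -/

section NZ

variable {X X' : Type} [TopologicalSpace X] [TopologicalSpace X']

theorem cmap_ne (f : C(X, X')) (k : ℕ) (z : Sing X k →₀ ℚ) (hz : z ∈ Cyc X k)
    (h : push f k z ∉ Bdy X' k) : cmap f k ≠ 0 := by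
  obtain ⟨e, he⟩ := p_T8 k
  intro h0
  have h1 : ∀ x : Hlg X k, hmap f k x = 0 := by
    intro x
    by_contra hx
    obtain ⟨φ, hφ⟩ : ∃ φ : Module.Dual ℚ (Hlg X' k), φ (hmap f k x) ≠ 0 := by
      by_contra hn
      push Not at hn
      exact hx ((Module.forall_dual_apply_eq_zero_iff ℚ _).1 hn)
    apply hφ
    have := LinearMap.congr_fun (LinearMap.congr_fun h0 φ) x
    exact this
  let c : Homology X k := Submodule.Quotient.mk ⟨z, hz⟩
  have h2 := he X X' f ((e X).symm c)
  rw [h1, map_zero, LinearEquiv.apply_symm_apply] at h2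
  apply h
  have h3 : (Submodule.Quotient.mk ((push f k).restrict (push_mem_Cyc f k) ⟨z, hz⟩) :
      Homology X' k) = 0 := h2.symm
  rw [Submodule.Quotient.mk_eq_zero] at h3
  exact h3

theorem coh_finrank_le (k n : ℕ) (hf : Module.Finite ℚ (Homology X k))
    (h : Module.finrank ℚ (Homology X k) ≤ n) : Module.finrank ℚ (Coh X k) ≤ n := by
  obtain ⟨e, -⟩ := p_T8 k
  have := hlg_finite_of p_T8 k hf
  rw [show Module.finrank ℚ (Coh X k) = Module.finrank ℚ (Hlg X k) from
    Subspace.dual_finrank_eq, (e X).finrank_eq]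
  exact h

end NZ

/-! ## The affine varieties -/

section Aff

variable {σ : Type}

/-- homogeneous coordinates from affine ones -/
def hco (v : σ → ℂ) : Option σ → ℂ := fun o => o.elim 1 v

theorem hco_ne (v : σ → ℂ) : hco v ≠ 0 := by
  intro h
  have := congrFun h none
  simp [hco] at this

theorem eq_mk_aco (p : ℙ ℂ (Option σ → ℂ)) (h : p.rep none ≠ 0) :
    p = Projectivization.mk ℂ (hco (aco p)) (hco_ne _) := by
  conv_lhs => rw [← p.mk_rep]
  rw [Projectivization.mk_eq_mk_iff']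
  refine ⟨p.rep none, ?_⟩
  funext o
  cases o with
  | none => simp [hco]
  | some i =>
    simp only [hco, Pi.smul_apply, Option.elim_some, smul_eq_mul, aco]
    field_simp

end Aff

/-- coordinates of `A` -/
def hAA : Zer eqA ≃ₜ AA where
  toFun v := ⟨((v.1 (.inl 0), v.1 (.inl 1)), fun i => v.1 (.inr i)), by
    have h := v.2 _ (Or.inl rfl)
    simp only [map_add, map_sub, map_pow, MvPolynomial.eval_X] at h
    linear_combination h, by
    have h := v.2 _ (Or.inr rfl)
    simp only [map_add, map_sub, map_pow, MvPolynomial.eval_X, map_one] at h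
    linear_combination h⟩
  invFun a := ⟨Sum.elim ![a.1.1.1, a.1.1.2] a.1.2, by
    intro f hf
    rcases hf with rfl | hf
    · simp only [map_add, map_sub, map_pow, MvPolynomial.eval_X, Sum.elim_inl,
        Matrix.cons_val_zero, Matrix.cons_val_one]
      linear_combination a.2.1
    · rw [Set.mem_singleton_iff] at hf
      subst hf
      simp only [map_add, map_sub, map_pow, MvPolynomial.eval_X, map_one, Sum.elim_inr]
      linear_combination a.2.2⟩
  left_inv v := by
    apply Subtype.ext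
    funext i
    rcases i with i | i
    · fin_cases i <;> rfl
    · rfl
  right_inv a := rfl
  continuous_toFun := by
    refine Continuous.subtype_mk (Continuous.prodMk (Continuous.prodMk ?_ ?_) ?_) _
    · exact (continuous_apply _).comp continuous_subtype_val
    · exact (continuous_apply _).comp continuous_subtype_val
    · exact continuous_pi fun i => (continuous_apply _).comp continuous_subtype_val
  continuous_invFun := by
    refine Continuous.subtype_mk (continuous_pi ?_) _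
    have h1 : Continuous fun a : AA => a.1.1.1 := by fun_prop
    have h2 : Continuous fun a : AA => a.1.1.2 := by fun_prop
    intro i
    rcases i with i | i
    · fin_cases i
      · exact h1
      · exact h2
    · change Continuous fun a : AA => a.1.2 i
      fun_prop

open MvPolynomial in
/-- the four coordinates of `(w x, z)` -/
def pu : Fin 4 → MvPolynomial (Fin 2 ⊕ Fin 3) ℂ :=
  ![X (.inl 0) * X (.inr 0), X (.inl 0) * X (.inr 1), X (.inl 0) * X (.inr 2), X (.inl 1)]

/-- the polynomials defining `a` -/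
def polA : Option (Fin 4 ⊕ Fin 4 × Fin 4) → MvPolynomial (Fin 2 ⊕ Fin 3) ℂ :=
  fun o => o.elim 1 (Sum.elim pu (fun ij => pu ij.1 * pu ij.2))

open MvPolynomial in
/-- the coordinates on `E` -/
def pb1 : Fin 3 → MvPolynomial (Fin 2 ⊕ Fin 3) ℂ := ![X (.inl 0), X (.inl 1), 1]

open MvPolynomial in
/-- the coordinates on the quadric -/
def pb2 : Fin 4 → MvPolynomial (Fin 2 ⊕ Fin 3) ℂ := ![X (.inr 0), X (.inr 1), X (.inr 2), 1]

/-- the polynomials defining `b` -/
def polB : Fin 3 × Fin 4 → MvPolynomial (Fin 2 ⊕ Fin 3) ℂ := fun ij => pb1 ij.1 * pb2 ij.2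

theorem hAA_val (v : Zer eqA) : (hAA v).1 = ((v.1 (.inl 0), v.1 (.inl 1)), fun i => v.1 (.inr i)) :=
  rfl

theorem aY_val (p : AA) : (aY p).1 = (fun i => p.1.1.1 * p.1.2 i, p.1.1.2) := rfl

theorem eval_pu (v : Zer eqA) (i : Fin 4) :
    MvPolynomial.eval v.1 (pu i) = v4 (aY (hAA v)) i := by
  unfold v4
  rw [aY_val, hAA_val]
  fin_cases i <;> simp [pu]

theorem eval_polB (v : Zer eqA) (ij : Fin 3 × Fin 4) :
    MvPolynomial.eval v.1 (polB ij) = bco (hAA v) ij := by
  have h1 : ∀ i, MvPolynomial.eval v.1 (pb1 i) =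
      (![v.1 (.inl 0), v.1 (.inl 1), 1] : Fin 3 → ℂ) i := by
    intro i
    fin_cases i <;> simp [pb1]
  have h2 : ∀ i, MvPolynomial.eval v.1 (pb2 i) =
      (![v.1 (.inr 0), v.1 (.inr 1), v.1 (.inr 2), 1] : Fin 4 → ℂ) i := by
    intro i
    fin_cases i <;> simp [pb2]
  unfold polB bco
  rw [map_mul, h1, h2, hAA_val]

/-- `A → Sym² Y` -/
def aSP : C(AA, SP Y) := (ax y0).comp aY

theorem aSP_tauA : aSP.comp tauA = gmap.comp (phi.prodMk (ContinuousMap.const _ 1)) := by
  ext p
  change SP.mk (aY (tauA p)) y0 = SP.mk (s1 (phi p)) (s2 1)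
  rw [aY_tauA, s2_one]

theorem v4_y0 (i : Fin 4) : v4 y0 i = 0 := by
  fin_cases i <;> rfl

section Maps

variable (eX : affSet eqX ≃ₜ Zer eqX) (eA : affSet eqA ≃ₜ Zer eqA) (eS : SP Y ≃ₜ Zer eqX)

/-- the map `a` in projective coordinates -/
def mapA : C(affSet eqA, affSet eqX) :=
  ⟨fun p => eX.symm (eS (aSP (hAA (eA p)))), by fun_prop⟩

/-- the map `b` in projective coordinates -/
def mapB : C(affSet eqA, segZ) := ⟨fun p => bseg (hAA (eA p)), by fun_prop⟩

/-- the cycle `τ` in projective coordinates -/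
def mapT : C(Circle × S2, affSet eqA) := ⟨fun p => eA.symm (hAA.symm (tauA p)), by fun_prop⟩

theorem mapA_mapT : (mapA eX eA eS).comp (mapT eA) =
    ((⟨fun s => eX.symm (eS s), by fun_prop⟩ : C(SP Y, affSet eqX)).comp gmap).comp
      (phi.prodMk (ContinuousMap.const _ 1)) := by
  rw [ContinuousMap.comp_assoc _ gmap, ← aSP_tauA]
  apply ContinuousMap.ext
  intro p
  change eX.symm (eS (aSP (hAA (eA (eA.symm (hAA.symm (tauA p))))))) = eX.symm (eS (aSP (tauA p)))
  rw [Homeomorph.apply_symm_apply, Homeomorph.apply_symm_apply]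

theorem mapB_mapT : (mapB eA).comp (mapT eA) = bseg.comp tauA := by
  apply ContinuousMap.ext
  intro p
  change bseg (hAA (eA (eA.symm (hAA.symm (tauA p))))) = bseg (tauA p)
  rw [Homeomorph.apply_symm_apply, Homeomorph.apply_symm_apply]

theorem mapA_reg (G0a : S_G0a) (G0c : S_G0c) (heX : ∀ p, (eX p).1 = aco p.1)
    (heA : ∀ p, (eA p).1 = aco p.1)
    (heS : ∀ y y' : Y, (eS (SP.mk y y')).1 =
      Sum.elim (fun i => v4 y i + v4 y' i)
        (fun ij => (v4 y ij.1 - v4 y' ij.1) * (v4 y ij.2 - v4 y' ij.2))) :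
    IsRegular (V := affVar eqA (G0a _ _)) (V' := affVar eqX (G0a _ _)) (mapA eX eA eS) := by
  refine G0c _ eqA _ (affVar eqX (G0a _ _)) polA (mapA eX eA eS) ?_
  intro p
  have h1 : aco (mapA eX eA eS p).1 = (eS (aSP (hAA (eA p)))).1 := by
    rw [← heX]
    change (eX (eX.symm (eS (aSP (hAA (eA p)))))).1 = _
    rw [Homeomorph.apply_symm_apply]
  have h2 := heS (aY (hAA (eA p))) y0
  have hfun : (fun o => MvPolynomial.eval (aco p.1) (polA o)) =
      hco (aco (mapA eX eA eS p).1) := by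
    rw [h1, ← heA]
    have h3 : (eS (aSP (hAA (eA p)))).1 = _ := h2
    rw [h3]
    funext o
    cases o with
    | none => exact map_one _
    | some s =>
      rcases s with i | ij
      · change MvPolynomial.eval (eA p).1 (pu i) = v4 (aY (hAA (eA p))) i + v4 y0 i
        rw [eval_pu, v4_y0, add_zero]
      · change MvPolynomial.eval (eA p).1 (pu ij.1 * pu ij.2) =
          (v4 (aY (hAA (eA p))) ij.1 - v4 y0 ij.1) * (v4 (aY (hAA (eA p))) ij.2 - v4 y0 ij.2)
        rw [map_mul, eval_pu, eval_pu, v4_y0, v4_y0, sub_zero, sub_zero]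
  refine ⟨by rw [hfun]; exact hco_ne _, ?_⟩
  refine (eq_mk_aco (mapA eX eA eS p).1 (mapA eX eA eS p).2.1).trans ?_
  congr 1
  exact hfun.symm

theorem mapB_reg (G0a : S_G0a) (G0c : S_G0c) (hZ : IsQuasiProjective segZ)
    (heA : ∀ p, (eA p).1 = aco p.1) :
    IsRegular (V := affVar eqA (G0a _ _)) (V' := segVar hZ) (mapB eA) := by
  refine G0c _ eqA _ (segVar hZ) polB (mapB eA) ?_
  intro p
  have hfun : (fun o => MvPolynomial.eval (aco p.1) (polB o)) = bco (hAA (eA p)) := by
    rw [← heA]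
    exact funext fun ij => eval_polB (eA p) ij
  refine ⟨by rw [hfun]; exact bco_ne _, ?_⟩
  change Projectivization.mk ℂ (bco (hAA (eA p))) (bco_ne _) = _
  congr 1
  exact hfun.symm

end Maps

/-- The zigzag: the variety `X = Sym² Y`, the variety `A`, the smooth projective variety `Z`,
regular maps `a : A → X` and `b : A → Z` which are nonzero on `H³`, `dim H³(A) ≤ 2`, and a
homeomorphism of `X` with `Sym² Y`. -/
theorem zigzag (G0a : S_G0a) (G0b : S_G0b) (G0c : S_G0c) (G1 : S_G1) (G2 : S_G2) (G3 : S_G3)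
    (T3 : S_T3) (T6 : S_T6) (T7 : S_T7) :
    ∃ (X A Z : QPVar) (a : C(A.pts, X.pts)) (b : C(A.pts, Z.pts)) (_ : X.pts ≃ₜ SP Y),
      X = affVar eqX (G0a _ _) ∧ IsRegular (V := A) (V' := X) a ∧ IsRegular (V := A) (V' := Z) b ∧ IsProjective Z ∧
      IsSmooth Z ∧ cmap a 3 ≠ 0 ∧ cmap b 3 ≠ 0 ∧ Module.Finite ℚ (Coh A.pts 3) ∧
      Module.finrank ℚ (Coh A.pts 3) ≤ 2 := by
  obtain ⟨eX, heX⟩ := G0b (Fin 4 ⊕ Fin 4 × Fin 4) eqX
  obtain ⟨eA, heA⟩ := G0b (Fin 2 ⊕ Fin 3) eqA
  obtain ⟨eS, heS⟩ := G1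
  obtain ⟨hZ, hZ1, hZ2⟩ := G2
  obtain ⟨m, hm⟩ := G3
  obtain ⟨z, hz, hz'⟩ := T6
  obtain ⟨hf, hr⟩ := T7
  have hAE : HE (⟨fun p => hAA (eA p), by fun_prop⟩ : C(affSet eqA, AA)) :=
    HE_of_homeo (eA.trans hAA) _ (fun _ => rfl)
  refine ⟨affVar eqX (G0a _ _), affVar eqA (G0a _ _), segVar hZ, mapA eX eA eS, mapB eA,
    eX.trans eS.symm, rfl, mapA_reg eX eA eS G0a G0c heX heA heS, mapB_reg eA G0a G0c hZ heA, hZ1, hZ2,
    ?_, ?_, ?_, ?_⟩
  · -- `a` is nonzero on `H³`
    apply cmap_ne (mapA eX eA eS) 3 (push (mapT eA) 3 z) (push_mem_Cyc (mapT eA) 3 z hz)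
    rw [push_push, mapA_mapT, ← push_push]
    intro h
    have hHE : HE ((⟨fun s => eX.symm (eS s), by fun_prop⟩ : C(SP Y, affSet eqX)).comp gmap) :=
      HE.comp (HE_of_homeo (eS.trans eX.symm) _ (fun _ => rfl)) T3
    have h1 := (hHE 3).1 _ (push_mem_Cyc _ 3 z hz) h
    have h2 := push_mem_Bdy ContinuousMap.fst 3 _ h1
    rw [push_push] at h2
    exact hz' h2
  · -- `b` is nonzero on `H³`
    apply cmap_ne (mapB eA) 3 (push (mapT eA) 3 z) (push_mem_Cyc (mapT eA) 3 z hz)
    rw [push_push, mapB_mapT]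
    intro h
    have h1 := push_mem_Bdy m 3 _ h
    rw [push_push] at h1
    have h2 := (hm 3).1 z hz h1
    exact hz' (push_mem_Bdy phi 3 _ h2)
  · exact coh_finite_of p_T8 3 (Module.Finite.equiv (homEquiv hAE 3).symm)
  · refine coh_finrank_le (X := affSet eqA) 3 2 (Module.Finite.equiv (homEquiv hAE 3).symm) ?_
    rw [(homEquiv hAE 3).finrank_eq]
    exact hr

end

end Run7.h592
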