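import Pool.Agent.Run7.h592.Defs2
import Pool.Agent.Run7.h592.Asm4

/-! The symmetric square of the threefold is irreducible: it is the image of an affine space under
a polynomial map. -/

set_option autoImplicit false

open scoped Topology TensorProduct LinearAlgebra.Projectivization

namespace Run7.h592

open Pool.Agent.Y209.HB

noncomputable section

theorem eval_smul_hom {ι : Type} {f : MvPolynomial ι ℂ} {d : ℕ} (hf : f.IsHomogeneous d) (a : ℂ)
    (v : ι → ℂ) : MvPolynomial.eval (a • v) f = a ^ d * MvPolynomial.eval v f := by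
  rw [MvPolynomial.eval_eq, MvPolynomial.eval_eq, Finset.mul_sum]
  refine Finset.sum_congr rfl fun m hm => ?_
  have h : m.degree = d := by
    have := hf (MvPolynomial.mem_support_iff.1 hm)
    rwa [Finsupp.degree_eq_weight_one]
  have h2 : ∏ i ∈ m.support, (a • v) i ^ m i = a ^ d * ∏ i ∈ m.support, v i ^ m i := by
    rw [← h, Finsupp.degree_apply, ← Finset.prod_pow_eq_pow_sum, ← Finset.prod_mul_distrib]
    refine Finset.prod_congr rfl fun i _ => ?_
    rw [Pi.smul_apply, smul_eq_mul, mul_pow]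
  rw [h2]
  ring

/-- vanishing in terms of any representative -/
theorem van_mk {ι : Type} {f : MvPolynomial ι ℂ} (hf : Hom f) (v : ι → ℂ) (hv : v ≠ 0) :
    Van f (Projectivization.mk ℂ v hv) ↔ MvPolynomial.eval v f = 0 := by
  obtain ⟨d, hd⟩ := hf
  obtain ⟨a, ha⟩ := Projectivization.exists_smul_eq_mk_rep ℂ v hv
  unfold Van
  rw [← ha]
  have h1 : MvPolynomial.eval (a • v) f = (a : ℂ) ^ d * MvPolynomial.eval v f :=
    eval_smul_hom hd (a : ℂ) v
  rw [h1]
  have h2 : (a : ℂ) ^ d ≠ 0 := pow_ne_zero _ a.ne_zero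
  constructor
  · intro h
    rcases mul_eq_zero.1 h with h3 | h3
    · exact absurd h3 h2
    · exact h3
  · intro h
    rw [h, mul_zero]

theorem eval_comp {ι τ : Type} (P : ι → MvPolynomial τ ℂ) (f : MvPolynomial ι ℂ) (t : τ → ℂ) :
    MvPolynomial.eval t (MvPolynomial.aeval P f) =
      MvPolynomial.eval (fun i => MvPolynomial.eval t (P i)) f := by
  induction f using MvPolynomial.induction_on with
  | C a => simp
  | add p q hp hq => rw [map_add, map_add, map_add, hp, hq]
  | mul_X p i hp => rw [map_mul, map_mul, map_mul, hp, MvPolynomial.aeval_X, MvPolynomial.eval_X]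

/-- a variety with a polynomial parametrisation is irreducible -/
theorem irr_of_param {V : QPVar} {τ : Type} (P : V.ι → MvPolynomial τ ℂ)
    (h0 : ∀ t : τ → ℂ, (fun i => MvPolynomial.eval t (P i)) ≠ 0)
    (h1 : ∀ t, Projectivization.mk ℂ _ (h0 t) ∈ V.pts)
    (h2 : ∀ p ∈ V.pts, ∃ t, p = Projectivization.mk ℂ _ (h0 t)) : IsIrreducibleVar V := by
  refine ⟨⟨_, h1 0⟩, ?_⟩
  intro f g hf hg h
  have key : (MvPolynomial.aeval P f) * (MvPolynomial.aeval P g) = 0 := by
    apply MvPolynomial.funext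
    intro t
    rw [map_mul, eval_comp, eval_comp, map_zero, mul_eq_zero, ← van_mk hf _ (h0 t),
      ← van_mk hg _ (h0 t)]
    exact h _ (h1 t)
  rcases mul_eq_zero.1 key with h3 | h3
  · left
    intro p hp
    obtain ⟨t, rfl⟩ := h2 p hp
    rw [van_mk hf, ← eval_comp, h3, map_zero]
  · right
    intro p hp
    obtain ⟨t, rfl⟩ := h2 p hp
    rw [van_mk hg, ← eval_comp, h3, map_zero]

/-! ## The parametrisation of the threefold `u v = z³ - z - s²` -/

section Flow

variable {R S : Type} [CommRing R] [CommRing S]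

/-- the first flow; coordinates `u, v, z, s` -/
def flA (t r : R) (q : R × R × R × R) : R × R × R × R :=
  (q.1, q.2.1 + (3 * q.2.2.1 ^ 2 * t + 3 * q.2.2.1 * t ^ 2 * q.1 + t ^ 3 * q.1 ^ 2 - t -
    2 * q.2.2.2 * r - r ^ 2 * q.1), q.2.2.1 + t * q.1, q.2.2.2 + r * q.1)

/-- the second flow -/
def flB (t r : R) (q : R × R × R × R) : R × R × R × R :=
  (q.1 + (3 * q.2.2.1 ^ 2 * t + 3 * q.2.2.1 * t ^ 2 * q.2.1 + t ^ 3 * q.2.1 ^ 2 - t -
    2 * q.2.2.2 * r - r ^ 2 * q.2.1), q.2.1, q.2.2.1 + t * q.2.1, q.2.2.2 + r * q.2.1)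

/-- the equation -/
def EqY (q : R × R × R × R) : Prop := q.1 * q.2.1 = q.2.2.1 ^ 3 - q.2.2.1 - q.2.2.2 ^ 2

theorem EqY_flA {t r : R} {q : R × R × R × R} (h : EqY q) : EqY (flA t r q) := by
  unfold EqY at *
  simp only [flA]
  linear_combination h

theorem EqY_flB {t r : R} {q : R × R × R × R} (h : EqY q) : EqY (flB t r q) := by
  unfold EqY at *
  simp only [flB]
  linear_combination h

/-- the parametrisation -/
def par (c : Fin 6 → R) : R × R × R × R :=
  flA (c 0) (c 1) (flB (c 2) (c 3) (flA (c 4) (c 5) (1, 0, 0, 0)))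

theorem EqY_par (c : Fin 6 → R) : EqY (par c) := by
  refine EqY_flA (EqY_flB (EqY_flA ?_))
  simp [EqY]

/-- a ring homomorphism acts on the coordinates -/
def mp4 (φ : R →+* S) (q : R × R × R × R) : S × S × S × S :=
  (φ q.1, φ q.2.1, φ q.2.2.1, φ q.2.2.2)

theorem mp4_flA (φ : R →+* S) (t r : R) (q : R × R × R × R) :
    mp4 φ (flA t r q) = flA (φ t) (φ r) (mp4 φ q) := by
  simp [mp4, flA, map_ofNat]

theorem mp4_flB (φ : R →+* S) (t r : R) (q : R × R × R × R) :
    mp4 φ (flB t r q) = flB (φ t) (φ r) (mp4 φ q) := by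
  simp [mp4, flB, map_ofNat]

theorem mp4_par (φ : R →+* S) (c : Fin 6 → R) : mp4 φ (par c) = par (fun i => φ (c i)) := by
  unfold par
  rw [mp4_flA, mp4_flB, mp4_flA]
  simp [mp4]

end Flow

theorem flA_flA {R : Type} [CommRing R] (t r : R) (q : R × R × R × R) :
    flA t r (flA (-t) (-r) q) = q := by
  obtain ⟨u, v, z, s⟩ := q
  simp only [flA]
  refine Prod.ext rfl (Prod.ext ?_ (Prod.ext ?_ ?_))
  · simp only
    ring
  · simp only
    ring
  · simp only
    ring

theorem par_key (u v z s : ℂ) (h : EqY (u, v, z, s)) (hv : v ≠ 0) : ∃ t r a b : ℂ,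
    flB t r (flA a b (1, 0, 0, 0)) = (u, v, z, s) := by
  obtain ⟨b, hb⟩ := IsAlgClosed.exists_pow_nat_eq (-v) (n := 2) two_pos
  have h' : u * v = z ^ 3 - z - s ^ 2 := h
  refine ⟨z / v, (s - b) / v, 0, b, ?_⟩
  have e1 : flA 0 b ((1, 0, 0, 0) : ℂ × ℂ × ℂ × ℂ) = (1, v, 0, b) := by
    simp only [flA]
    refine Prod.ext rfl (Prod.ext ?_ (Prod.ext ?_ ?_))
    · simp only
      linear_combination -hb
    · simp only
      ring
    · simp only
      ring
  rw [e1]
  simp only [flB]
  refine Prod.ext ?_ (Prod.ext rfl (Prod.ext ?_ ?_))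
  · simp only
    field_simp
    linear_combination -h' + hb
  · simp only
    field_simp
    ring
  · simp only
    field_simp
    ring

theorem par_surj (q : ℂ × ℂ × ℂ × ℂ) (hq : EqY q) : ∃ c : Fin 6 → ℂ, par c = q := by
  have key : ∃ t' r' : ℂ, (flA (-t') (-r') q).2.1 ≠ 0 := by
    obtain ⟨u, v, z, s⟩ := q
    have hq' : u * v = z ^ 3 - z - s ^ 2 := hq
    by_contra hn
    push Not at hn
    have h0 := hn 0 0
    have h1 := hn 0 1
    have h2 := hn 0 (-1)
    have h3 := hn 1 0
    simp only [flA] at h0 h1 h2 h3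
    have hv : v = 0 := by linear_combination h0
    have hs : s = 0 := by linear_combination (h1 - h2) / 4
    have hu : u = 0 := by linear_combination -(h1 + h2) / 2 + h0
    rw [hv, hs, hu] at hq'
    rw [hv, hu] at h3
    have hz : 3 * z ^ 2 = 1 := by linear_combination -h3
    have hz2 : z * (z ^ 2 - 1) = 0 := by linear_combination -hq'
    rcases mul_eq_zero.1 hz2 with h4 | h4
    · rw [h4] at hz
      norm_num at hz
    · have : z ^ 2 = 1 := by linear_combination h4
      rw [this] at hz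
      norm_num at hz
  obtain ⟨t', r', h1⟩ := key
  obtain ⟨t, r, a, b, h2⟩ := par_key _ _ _ _
    (show EqY ((flA (-t') (-r') q).1, (flA (-t') (-r') q).2.1, (flA (-t') (-r') q).2.2.1,
      (flA (-t') (-r') q).2.2.2) from EqY_flA hq) h1
  refine ⟨![t', r', t, r, a, b], ?_⟩
  have h3 : flB t r (flA a b (1, 0, 0, 0)) = flA (-t') (-r') q := h2
  change flA t' r' (flB t r (flA a b (1, 0, 0, 0))) = q
  rw [h3, flA_flA]

/-! ## The parametrisation of the symmetric square -/

/-- the variables of one point -/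
def vrs (b : Bool) : Fin 6 → MvPolynomial (Bool × Fin 6) ℂ := fun i => MvPolynomial.X (b, i)

/-- the four coordinates of one point, as polynomials -/
def py (b : Bool) : Fin 4 → MvPolynomial (Bool × Fin 6) ℂ :=
  ![MvPolynomial.C (1 / 2) * ((par (vrs b)).1 + (par (vrs b)).2.1),
    MvPolynomial.C (-(Complex.I / 2)) * ((par (vrs b)).1 - (par (vrs b)).2.1),
    (par (vrs b)).2.2.2, (par (vrs b)).2.2.1]

/-- the point of the threefold with given parameters -/
def ptY (c : Fin 6 → ℂ) : Y := ⟨(![1 / 2 * ((par c).1 + (par c).2.1),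
  -(Complex.I / 2) * ((par c).1 - (par c).2.1), (par c).2.2.2], (par c).2.2.1), by
    have h : (par c).1 * (par c).2.1 = (par c).2.2.1 ^ 3 - (par c).2.2.1 - (par c).2.2.2 ^ 2 :=
      EqY_par c
    simp only [Matrix.cons_val_zero, Matrix.cons_val_one, Matrix.cons_val]
    have hI := Complex.I_sq
    linear_combination h + 1 / 4 * ((par c).1 - (par c).2.1) ^ 2 * hI⟩

theorem ptY_surj (y : Y) : ∃ c, ptY c = y := by
  obtain ⟨⟨x, z⟩, h⟩ := y
  obtain ⟨c, hc⟩ := par_surj (x 0 + Complex.I * x 1, x 0 - Complex.I * x 1, z, x 2) (by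
    have h' : x 0 ^ 2 + x 1 ^ 2 + x 2 ^ 2 = z ^ 3 - z := h
    have hI := Complex.I_sq
    change (x 0 + Complex.I * x 1) * (x 0 - Complex.I * x 1) = z ^ 3 - z - x 2 ^ 2
    linear_combination h' - x 1 ^ 2 * hI)
  refine ⟨c, ?_⟩
  apply Subtype.ext
  refine Prod.ext ?_ ?_
  · funext i
    change (![1 / 2 * ((par c).1 + (par c).2.1),
      -(Complex.I / 2) * ((par c).1 - (par c).2.1), (par c).2.2.2] : Fin 3 → ℂ) i = x i
    rw [hc]
    have hI := Complex.I_sq
    fin_cases i
    · simp
      ring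
    · change -(Complex.I / 2) * ((x 0 + Complex.I * x 1) - (x 0 - Complex.I * x 1)) = x 1
      linear_combination -x 1 * hI
    · rfl
  · change (par c).2.2.1 = z
    rw [hc]

theorem eval_py (b : Bool) (t : Bool × Fin 6 → ℂ) (i : Fin 4) :
    MvPolynomial.eval t (py b i) = v4 (ptY (fun j => t (b, j))) i := by
  have h : mp4 (MvPolynomial.eval t) (par (vrs b)) = par (fun j => t (b, j)) := by
    rw [mp4_par]
    congr 1
    funext j
    exact MvPolynomial.eval_X _
  have e1 : MvPolynomial.eval t (par (vrs b)).1 = (par (fun j => t (b, j))).1 := by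
    rw [← h]
    rfl
  have e2 : MvPolynomial.eval t (par (vrs b)).2.1 = (par (fun j => t (b, j))).2.1 := by
    rw [← h]
    rfl
  have e3 : MvPolynomial.eval t (par (vrs b)).2.2.1 = (par (fun j => t (b, j))).2.2.1 := by
    rw [← h]
    rfl
  have e4 : MvPolynomial.eval t (par (vrs b)).2.2.2 = (par (fun j => t (b, j))).2.2.2 := by
    rw [← h]
    rfl
  fin_cases i
  · change MvPolynomial.eval t (MvPolynomial.C (1 / 2) * ((par (vrs b)).1 + (par (vrs b)).2.1)) =
      1 / 2 * ((par (fun j => t (b, j))).1 + (par (fun j => t (b, j))).2.1)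
    rw [map_mul, map_add, MvPolynomial.eval_C, e1, e2]
  · change MvPolynomial.eval t (MvPolynomial.C (-(Complex.I / 2)) *
      ((par (vrs b)).1 - (par (vrs b)).2.1)) =
      -(Complex.I / 2) * ((par (fun j => t (b, j))).1 - (par (fun j => t (b, j))).2.1)
    rw [map_mul, map_sub, MvPolynomial.eval_C, e1, e2]
  · exact e4
  · exact e3

/-- the parametrisation of the symmetric square -/
def pX : Option (Fin 4 ⊕ Fin 4 × Fin 4) → MvPolynomial (Bool × Fin 6) ℂ :=
  fun o => o.elim 1 (Sum.elim (fun i => py false i + py true i)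
    (fun ij => (py false ij.1 - py true ij.1) * (py false ij.2 - py true ij.2)))

theorem irr_X (G0a : S_G0a) (G0b : S_G0b) (G1 : S_G1) :
    IsIrreducibleVar (affVar eqX (G0a _ _)) := by
  obtain ⟨eX, heX⟩ := G0b (Fin 4 ⊕ Fin 4 × Fin 4) eqX
  obtain ⟨eS, heS⟩ := G1
  have key : ∀ t : Bool × Fin 6 → ℂ, (fun o => MvPolynomial.eval t (pX o)) =
      hco (eS (SP.mk (ptY fun j => t (false, j)) (ptY fun j => t (true, j)))).1 := by
    intro t
    rw [heS]
    funext o
    cases o with
    | none => exact map_one _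
    | some o =>
      rcases o with i | ij
      · change MvPolynomial.eval t (py false i + py true i) = _ + _
        rw [map_add, eval_py, eval_py]
      · change MvPolynomial.eval t ((py false ij.1 - py true ij.1) *
          (py false ij.2 - py true ij.2)) = _ * _
        rw [map_mul, map_sub, map_sub, eval_py, eval_py, eval_py, eval_py]
  have key2 : ∀ p : affSet eqX, p.1 = Projectivization.mk ℂ (hco (eX p).1) (hco_ne _) := by
    intro p
    refine (eq_mk_aco p.1 p.2.1).trans ?_
    congr 1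
    rw [heX]
  have h0 : ∀ t, (fun o => MvPolynomial.eval t (pX o)) ≠ 0 := by
    intro t
    rw [key]
    exact hco_ne _
  refine irr_of_param (V := affVar eqX (G0a _ _)) pX h0 ?_ ?_
  · intro t
    have h := (eX.symm (eS (SP.mk (ptY fun j => t (false, j)) (ptY fun j => t (true, j))))).2
    rw [key2, Homeomorph.apply_symm_apply] at h
    convert h using 2
    exact key t
  · intro p hp
    obtain ⟨⟨y, y'⟩, hy⟩ : ∃ q : Y × Y, SP.mk q.1 q.2 = eS.symm (eX ⟨p, hp⟩) := by
      obtain ⟨q, hq⟩ := Quot.exists_rep (eS.symm (eX ⟨p, hp⟩))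
      exact ⟨q, hq⟩
    obtain ⟨c, hc⟩ := ptY_surj y
    obtain ⟨c', hc'⟩ := ptY_surj y'
    refine ⟨fun bj => if bj.1 then c' bj.2 else c bj.2, ?_⟩
    refine (key2 ⟨p, hp⟩).trans ?_
    congr 1
    rw [key]
    congr 2
    have : eX ⟨p, hp⟩ = eS (SP.mk y y') := by
      dsimp only at hy
      rw [hy, Homeomorph.apply_symm_apply]
    rw [this, ← hc, ← hc']
    rfl

end

end Run7.h592
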