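import Pool.Agent.Run7.h592.Rat

/-!
# The pieces of the proof, as closed propositions

`S_xxx : Prop` is the statement of piece `xxx`. Put the proof in
`Pool/Agent/Run7/h592/Pxxx.lean` as `theorem Run7.h592.p_xxx : S_xxx`.
A piece may assume earlier pieces: `theorem Run7.h592.p_xxx (h : S_yyy) : S_xxx`.
Detailed proofs: `work/h592/proof.md` (branch helper592).
-/

set_option autoImplicit false

open scoped Topology LinearAlgebra.Projectivization

namespace Run7.h592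

open Pool.Agent.Y209.HB

noncomputable section

/-! ## Part R: rational homotopy groups -/

/-- R1: the fibre of a labelled space with a transport structure is rationally acyclic -/
def S_R1 : Prop := ∀ (E T : Type) [TopologicalSpace E] (lab : E → T) (t₀ : T),
  Nonempty (TS lab t₀) → PathConnectedSpace (Fib lab t₀) → KerAcyclic lab →
    ∀ n, Ac (Fib lab t₀) (n + 1)

/-- R2a: the transport structure of the path space of a map -/
def S_R2a : Prop := ∀ (A B : Type) [TopologicalSpace A] [TopologicalSpace B]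
  [SimplyConnectedSpace A] (g : C(A, B)) (a₀ : A), Nonempty (TS (lab g a₀) (til0 (g a₀)))

/-- R2b -/
def S_R2b : Prop := ∀ (A B : Type) [TopologicalSpace A] [TopologicalSpace B]
  [SimplyConnectedSpace A] (g : C(A, B)) (a₀ : A), PathConnectedSpace (NF g a₀)

/-- R3a -/
def S_R3a : Prop := ∀ (A B : Type) [TopologicalSpace A] [TopologicalSpace B]
  [SimplyConnectedSpace A] [SimplyConnectedSpace B] (g : C(A, B)) (a₀ : A), HE g →
    KerAcyclic (lab g a₀)

/-- R3b -/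
def S_R3b : Prop := ∀ (B : Type) [TopologicalSpace B] (b : B), InW B → KerAcyclic (lab (ptm b) ())

/-- R4a -/
def S_R4a : Prop := ∀ (A B : Type) [TopologicalSpace A] [TopologicalSpace B]
  [SimplyConnectedSpace A] (g : C(A, B)) (a₀ : A) (f : NF g a₀) (γ : Path f f),
    ∃ H : C(NF g a₀ × I, NF g a₀), (∀ x, H (x, 0) = x) ∧ (∀ x, H (x, 1) = x) ∧
      ∃ γ' : Path f f, (∀ s, γ' s = H (f, s)) ∧ Path.Homotopic γ' γ

/-- R4b -/
def S_R4b : Prop := ∀ (B : Type) [TopologicalSpace B], PathConnectedSpace B → Ac B 1 →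
  (∀ (b : B) (γ : Path b b), ∃ H : C(B × I, B), (∀ x, H (x, 0) = x) ∧ (∀ x, H (x, 1) = x) ∧
    ∃ γ' : Path b b, (∀ s, γ' s = H (b, s)) ∧ Path.Homotopic γ' γ) →
  ∀ b : B, Tor (FundamentalGroup B b)

/-- R5a -/
def S_R5a : Prop :=
  (∀ (B : Type) [TopologicalSpace B] (b : B), InW B → InW (NF (ptm b) ())) →
  ∀ (B : Type) [TopologicalSpace B], InW B → ∀ (b : B) (k : ℕ), Tor (HomotopyGroup (Fin (k + 1)) B b)

/-- R5b -/
def S_R5b : Prop := ∀ (A X : Type) [TopologicalSpace A] [TopologicalSpace X]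
  [SimplyConnectedSpace A] (g : C(A, X)) (a₀ : A),
  (∀ (f : NF g a₀) (k : ℕ), Tor (HomotopyGroup (Fin (k + 1)) (NF g a₀) f)) →
  ∀ (k : ℕ) (α : HomotopyGroup (Fin (k + 2)) X (g a₀)),
    ∃ (N : ℕ) (β : HomotopyGroup (Fin (k + 2)) A a₀), 0 < N ∧ pimap g a₀ β = α ^ N

/-- R6 -/
def S_R6 : Prop := ∀ (A X : Type) [TopologicalSpace A] [TopologicalSpace X] (g : C(A, X)) (e : PE g)
  (k : ℕ) (α : HomotopyGroup (Fin (k + 1)) (PE g) e), pimap (prA g) e α = 1 → α = 1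

/-! ## Part F: Serre finiteness for the 3-sphere -/

open Pool.Agent.H904R2 in
/-- F1: homotopy groups of a topological group which is a homology 3-sphere -/
def S_F1 : Prop := ∀ (K : Type) [Group K] [TopologicalSpace K] [IsTopologicalGroup K]
  [PathConnectedSpace K] (c : Sing K 3 → ℤ) (α : (SingG K).N 2) (γ : Ch K 3),
  dlt Pool.Agent.Helper922.HB.Sc.sface 3 c = 0 → c α.1 ≠ 0 → IsCyc 3 γ →
  (∀ z : Ch K 3, IsCyc 3 z → ∃ a : ℤ, IsBdy 3 (z - a • γ)) →
  (∀ j, j ≠ 3 → RAcyc K j) →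
  (∀ (q : ℕ) (x : (SingG K).N q), q ≠ 2 → ∃ M : ℕ, 0 < M ∧ (SingG K).cls q x ^ M = 1) ∧
  ∀ x : (SingG K).N 2, ∃ (M : ℕ) (m : ℤ), 0 < M ∧
    (SingG K).cls 2 x ^ M = (SingG K).cls 2 α ^ m

open Pool.Agent.H904R2 in
/-- F2: the data for the unit quaternions -/
def S_F2 : Prop := ∃ (_ : PathConnectedSpace G) (c : Sing G 3 → ℤ) (α : (SingG G).N 2) (γ : Ch G 3),
  dlt Pool.Agent.Helper922.HB.Sc.sface 3 c = 0 ∧ c α.1 ≠ 0 ∧ IsCyc 3 γ ∧
  (∀ z : Ch G 3, IsCyc 3 z → ∃ a : ℤ, IsBdy 3 (z - a • γ)) ∧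
  (∀ j, j ≠ 3 → RAcyc G j)

open Pool.Agent.H904R2 in
/-- F3: cubical and simplicial homotopy groups -/
def S_F3 : Prop := ∀ (K : Type) [Group K] [TopologicalSpace K] [IsTopologicalGroup K]
  [PathConnectedSpace K] (q : ℕ),
  ∃ Ψ : HomotopyGroup (Fin (q + 1)) K 1 →* (SingG K).Pg q, Function.Injective Ψ

/-! ## Part T: topology of the variety -/

/-- restriction of a map -/
def rst {A B : Type} [TopologicalSpace A] [TopologicalSpace B] (f : C(A, B)) {U : Set A} {U' : Set B}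
    (h : Set.MapsTo f U U') : C(U, U') :=
  ⟨fun x => ⟨f x.1, h x.2⟩, by fun_prop⟩

/-- homotopy equivalence -/
def HEqv {A B : Type} [TopologicalSpace A] [TopologicalSpace B] (f : C(A, B)) : Prop :=
  ∃ (g : C(B, A)) (H : C(A × I, A)) (K : C(B × I, B)), (∀ x, H (x, 0) = x) ∧
    (∀ x, H (x, 1) = g (f x)) ∧ (∀ y, K (y, 0) = y) ∧ ∀ y, K (y, 1) = f (g y)

/-- contractible -/
def Ctr (A : Type) [TopologicalSpace A] : Prop :=
  ∃ (x : A) (H : C(A × I, A)), (∀ y, H (y, 0) = y) ∧ ∀ y, H (y, 1) = x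

/-- T0: comparison of open covers by two sets -/
def S_T0 : Prop := ∀ (A B : Type) [TopologicalSpace A] [TopologicalSpace B] (f : C(A, B))
  (U V : Set A) (U' V' : Set B), IsOpen U → IsOpen V → IsOpen U' → IsOpen V' →
  (∀ x, x ∈ U ∨ x ∈ V) → (∀ x, x ∈ U' ∨ x ∈ V') → ∀ (hU : Set.MapsTo f U U')
  (hV : Set.MapsTo f V V'), HE (rst f hU) → HE (rst f hV) →
  HE (rst f (hU.inter_inter hV)) → HE f

/-- T1a: if the fixed point free involution `σ` of `X` is homotopic to the identity then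
`X → X / σ` is a rational homology equivalence (transfer) -/
def S_T1a : Prop := ∀ (X : Type) [TopologicalSpace X] (σ : C(X, X)), (∀ x, σ (σ x) = x) →
  (∀ x, σ x ≠ x) → T2Space X →
  (∃ H : C(X × I, X), (∀ x, H (x, 0) = x) ∧ ∀ x, H (x, 1) = σ x) →
  HE (⟨Quot.mk (fun x y => y = x ∨ y = σ x), continuous_quot_mk⟩ :
    C(X, Quot (fun x y : X => y = x ∨ y = σ x)))

/-- the diagonal of the symmetric square -/
def dg {X : Type} [TopologicalSpace X] : C(X, SP X) :=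
  ⟨fun x => SP.mk x x, SP.continuous_mk.comp (continuous_id.prodMk continuous_id)⟩

/-- T1b: the diagonal `S³ → Sym² S³` is a rational homology equivalence -/
def S_T1b : Prop := HE (dg (X := G))

/-- T9: rational homology of the spheres, Künneth formula in degree 3 -/
def S_T9 : Prop := (∀ n, n ≠ 2 → Ac G (n + 1)) ∧ Cn G ∧
  (∃ γ ∈ Cyc G 3, γ ∉ Bdy G 3 ∧ ∀ z ∈ Cyc G 3, ∃ a : ℚ, z - a • γ ∈ Bdy G 3) ∧
  (∀ n, n ≠ 1 → Ac S2 (n + 1)) ∧ Cn S2 ∧
  (∃ γ ∈ Cyc S2 2, γ ∉ Bdy S2 2 ∧ ∀ z ∈ Cyc S2 2, ∃ a : ℚ, z - a • γ ∈ Bdy S2 2) ∧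
  (∀ z ∈ Cyc (G × G) 3, push ContinuousMap.fst 3 z ∈ Bdy G 3 →
    push ContinuousMap.snd 3 z ∈ Bdy G 3 → z ∈ Bdy (G × G) 3)

/-- T1: `S³ → Sym² S³`, `x ↦ {x, 1}` is a rational homology equivalence -/
def S_T1 : Prop := HE (ax (1 : G))

/-- T2a: simply connected unions -/
def S_T2a : Prop := ∀ (X : Type) [TopologicalSpace X] (J : Type) (U : J → Set X) (x₀ : X),
  (∀ j, IsOpen (U j)) → (∀ x, ∃ j, x ∈ U j) → (∀ j, x₀ ∈ U j) →
  (∀ j, SimplyConnectedSpace (U j)) → (∀ i j, IsPathConnected (U i ∩ U j)) →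
  SimplyConnectedSpace X

/-- T2b -/
def S_T2b : Prop := SimplyConnectedSpace (SP G)

/-- the part of the threefold over a set of values of `Re z` -/
def YJ (J : Set ℝ) : Set Y := {y | y.1.2.re ∈ J}

/-- T3a: the pieces of the threefold -/
def S_T3a : Prop :=
  (∃ h : Set.MapsTo s1 Set.univ (YJ (Set.Iio (1 / 2))), HEqv (rst s1 h)) ∧
  Ctr (YJ (Set.Iio 0)) ∧
  (∃ (y : YJ (Set.Ioo (-1 / 2) (1 / 2))) (H : C(YJ (Set.Ioo (-1 / 2) (1 / 2)) × I,
    YJ (Set.Ioo (-1 / 2) (1 / 2)))), (∀ x, H (x, 0) = x) ∧ (∀ x, H (x, 1) = y) ∧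
    ∀ s, H (y, s) = y) ∧
  (∃ h : Set.MapsTo s1 (s1 ⁻¹' (YJ (Set.Ioo (-1 / 2) 0))) (YJ (Set.Ioo (-1 / 2) 0)),
    HEqv (rst s1 h))

/-- T3: `S³ × S³ → Sym² Y` is a rational homology equivalence -/
def S_T3 : Prop := HE gmap

/-- T4 -/
def S_T4 : Prop := SimplyConnectedSpace (SP Y)

/-- T5 -/
def S_T5 : Prop := SimplyConnectedSpace G ∧ (∀ k, Module.Finite ℚ (Homology (G × G) k)) ∧
  ∃ N, ∀ k, N ≤ k → Ac (G × G) k

/-- T6 -/
def S_T6 : Prop := ∃ z ∈ Cyc (Circle × S2) 3, push phi 3 z ∉ Bdy G 3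

/-- T7 -/
def S_T7 : Prop := Module.Finite ℚ (Homology AA 3) ∧ Module.finrank ℚ (Homology AA 3) ≤ 2

/-- T8: the two descriptions of rational homology agree, naturally -/
def S_T8 : Prop := ∀ n : ℕ, ∃ e : ∀ (X : Type) [TopologicalSpace X], Hlg X n ≃ₗ[ℚ] Homology X n,
  ∀ (X X' : Type) [TopologicalSpace X] [TopologicalSpace X'] (f : C(X, X')) (x : Hlg X n),
    e X' (hmap f n x) = Homology.map f n (e X x)

/-! ## Part G: varieties -/

/-- the affine coordinates of a point of projective space -/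
def aco {σ : Type} (p : ℙ ℂ (Option σ → ℂ)) : σ → ℂ := fun i => p.rep (some i) / p.rep none

/-- the affine algebraic set defined by the polynomials in `S`, as a subset of projective space -/
def affSet {σ : Type} (S : Set (MvPolynomial σ ℂ)) : Set (ℙ ℂ (Option σ → ℂ)) :=
  {p | p.rep none ≠ 0 ∧ ∀ f ∈ S, MvPolynomial.eval (aco p) f = 0}

/-- the affine algebraic set in affine coordinates -/
abbrev Zer {σ : Type} (S : Set (MvPolynomial σ ℂ)) : Type :=
  {v : σ → ℂ // ∀ f ∈ S, MvPolynomial.eval v f = 0}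

/-- G0a -/
def S_G0a : Prop := ∀ (σ : Type) [Finite σ] (S : Set (MvPolynomial σ ℂ)),
  IsQuasiProjective (affSet S)

/-- the affine variety -/
abbrev affVar {σ : Type} [Finite σ] (S : Set (MvPolynomial σ ℂ)) (h : IsQuasiProjective (affSet S)) :
    QPVar := ⟨Option σ, inferInstance, affSet S, h⟩

/-- G0b -/
def S_G0b : Prop := ∀ (σ : Type) [Finite σ] (S : Set (MvPolynomial σ ℂ)),
  ∃ e : affSet S ≃ₜ Zer S, ∀ p, (e p).1 = aco p.1

/-- G0c: maps given by polynomials are regular -/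
def S_G0c : Prop := ∀ (σ : Type) [Finite σ] (S : Set (MvPolynomial σ ℂ))
  (h : IsQuasiProjective (affSet S)) (V' : QPVar) (P : V'.ι → MvPolynomial σ ℂ)
  (f : affSet S → V'.pts),
  (∀ p : affSet S, ∃ hne : (fun j => MvPolynomial.eval (aco p.1) (P j)) ≠ 0,
    (f p).1 = Projectivization.mk ℂ (fun j => MvPolynomial.eval (aco p.1) (P j)) hne) →
  IsRegular (V := affVar S h) (V' := V') f

open MvPolynomial in
/-- equations of the affine elliptic curve times the affine quadric; coordinates `w, z` (left)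
and `x` (right) -/
def eqA : Set (MvPolynomial (Fin 2 ⊕ Fin 3) ℂ) :=
  {X (.inl 0) ^ 2 - X (.inl 1) ^ 3 + X (.inl 1),
    X (.inr 0) ^ 2 + X (.inr 1) ^ 2 + X (.inr 2) ^ 2 - 1}

open MvPolynomial in
/-- equations of the symmetric square of the threefold; coordinates `s_i` and `m_ij` -/
def eqX : Set (MvPolynomial (Fin 4 ⊕ Fin 4 × Fin 4) ℂ) :=
  {f | (∃ i j, f = X (.inr (i, j)) - X (.inr (j, i))) ∨
    (∃ i j k l, f = X (.inr (i, j)) * X (.inr (k, l)) - X (.inr (i, k)) * X (.inr (j, l))) ∨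
    f = C (1 / 2) * (∑ i : Fin 3, (X (.inl i.castSucc) ^ 2 + X (.inr (i.castSucc, i.castSucc)))) -
      C (1 / 4) * (X (.inl 3) ^ 3 + C 3 * X (.inl 3) * X (.inr (3, 3))) + X (.inl 3) ∨
    ∃ k, f = ∑ i : Fin 3, X (.inl i.castSucc) * X (.inr (i.castSucc, k)) -
      C (1 / 4) * (C 3 * X (.inl 3) ^ 2 * X (.inr (3, k)) + X (.inr (3, 3)) * X (.inr (3, k))) +
      X (.inr (3, k))}

/-- the four coordinates of a point of the threefold -/
def v4 (y : Y) : Fin 4 → ℂ := ![y.1.1 0, y.1.1 1, y.1.1 2, y.1.2]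

/-- G1: the symmetric square as an affine variety -/
def S_G1 : Prop := ∃ e : SP Y ≃ₜ Zer eqX, ∀ y y' : Y, (e (SP.mk y y')).1 =
  Sum.elim (fun i => v4 y i + v4 y' i)
    (fun ij => (v4 y ij.1 - v4 y' ij.1) * (v4 y ij.2 - v4 y' ij.2))

/-- the product of the projective elliptic curve `w² t = z³ - z t²` and of the projective quadric
`x₁² + x₂² + x₃² = x₄²`, in the Segre embedding -/
def segZ : Set (ℙ ℂ (Fin 3 × Fin 4 → ℂ)) :=
  {p | ∃ (u : Fin 3 → ℂ) (v : Fin 4 → ℂ) (h : (fun ij : Fin 3 × Fin 4 => u ij.1 * v ij.2) ≠ 0),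
    u 0 ^ 2 * u 2 = u 1 ^ 3 - u 1 * u 2 ^ 2 ∧ v 0 ^ 2 + v 1 ^ 2 + v 2 ^ 2 = v 3 ^ 2 ∧
    p = Projectivization.mk ℂ _ h}

/-- the projective variety -/
abbrev segVar (h : IsQuasiProjective segZ) : QPVar := ⟨Fin 3 × Fin 4, inferInstance, segZ, h⟩

/-- G2 -/
def S_G2 : Prop := ∃ h : IsQuasiProjective segZ, IsProjective (segVar h) ∧ IsSmooth (segVar h)

/-- the coordinates of the inclusion of `E⁰ × J₁` in its compactification -/
def bco (a : AA) : Fin 3 × Fin 4 → ℂ := fun ij =>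
  (![a.1.1.1, a.1.1.2, 1] : Fin 3 → ℂ) ij.1 * (![a.1.2 0, a.1.2 1, a.1.2 2, 1] : Fin 4 → ℂ) ij.2

theorem bco_ne (a : AA) : bco a ≠ 0 := by
  intro h
  have := congrFun h (2, 3)
  simp [bco] at this

/-- the inclusion of `E⁰ × J₁` in its compactification -/
def bseg : C(AA, segZ) where
  toFun a := ⟨Projectivization.mk ℂ (bco a) (bco_ne a), ![a.1.1.1, a.1.1.2, 1],
    ![a.1.2 0, a.1.2 1, a.1.2 2, 1], bco_ne a, by
      have := a.2.1
      simp only [Matrix.cons_val_zero, Matrix.cons_val_one, Matrix.cons_val]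
      linear_combination this, by
      have := a.2.2
      simp only [Matrix.cons_val_zero, Matrix.cons_val_one, Matrix.cons_val]
      linear_combination this, rfl⟩
  continuous_toFun := by
    refine Continuous.subtype_mk ?_ _
    have hc : Continuous bco := by
      refine continuous_pi fun ij => ?_
      unfold bco
      refine Continuous.mul ?_ ?_
      · obtain ⟨i, j⟩ := ij
        fin_cases i <;> simp <;> fun_prop
      · obtain ⟨i, j⟩ := ij
        fin_cases j <;> simp <;> fun_prop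
    exact continuous_quotient_mk'.comp (hc.subtype_mk bco_ne)

/-- G3 -/
def S_G3 : Prop := ∃ m : C(segZ, Circle × S2), HE (m.comp (bseg.comp tauA))

/-! ## Part H: mixed Hodge structures -/

/-- H1: if a mixed Hodge structure of dimension at most two receives a nonzero morphism from a pure
Hodge structure of weight 3 and a nonzero morphism from `VX`, then `VX` has a nonzero Hodge
number in weight 3. -/
def S_H1 : Prop := ∀ (VX VA VZ : Type) [AddCommGroup VX] [AddCommGroup VA] [AddCommGroup VZ]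
  [Module ℚ VX] [Module ℚ VA] [Module ℚ VZ] [Module.Finite ℚ VX] [Module.Finite ℚ VA]
  (mX : Fil VX) (mA : Fil VA) (mZ : Fil VZ), IsMHS mX → IsMHS mA → IsMHS mZ →
  mZ.W 3 = ⊤ → mZ.W 2 = ⊥ → ∀ (f : VX →ₗ[ℚ] VA) (g : VZ →ₗ[ℚ] VA),
  (∀ n, ∀ x ∈ mX.W n, f x ∈ mA.W n) → (∀ p, ∀ x ∈ mX.F p, f.baseChange ℂ x ∈ mA.F p) →
  (∀ n, ∀ x ∈ mZ.W n, g x ∈ mA.W n) → (∀ p, ∀ x ∈ mZ.F p, g.baseChange ℂ x ∈ mA.F p) →
  f ≠ 0 → g ≠ 0 → Module.finrank ℚ VA ≤ 2 → ∃ p : ℤ, hodgeNumber mX p (3 - p) ≠ 0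

end

end Run7.h592
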