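import Pool.Agent.Run7.h592.PF1a
import Pool.Agent.Run7.h592.Tasks

/-! F1: Serre finiteness for a topological group which is a homology 3-sphere. -/

set_option autoImplicit false

namespace Run7.h592.SF

open Pool.Agent.H904R2 Finsupp
open Pool.Agent.Helper922.HB.Sc (Sing sface bd sbd)

noncomputable section

section F1

variable {K : Type} [Group K] [TopologicalSpace K] [IsTopologicalGroup K]
  [PathConnectedSpace K] (c : Sing K 3 → ℤ) (hc : dlt sface 3 c = 0)

/-- the simplex of cocycles defined by a singular simplex -/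
def kap (q : ℕ) (σ : Sing K q) : KZ 3 q := ⟨fun v => c (spull v σ), by
  intro v
  have h := congrFun hc (spull v σ)
  unfold dlt at h
  refine Eq.trans ?_ h
  refine Finset.sum_congr rfl fun i _ => ?_
  rw [smul_eq_mul, sface_eq_spull, spull_spull]⟩

theorem kap_face (q : ℕ) (i : Fin (q + 2)) (σ : Sing K (q + 1)) :
    kface 3 q i (kap c hc (q + 1) σ) = kap c hc q (sface q i σ) := by
  apply Subtype.ext
  funext v
  change c (spull _ σ) = c (spull v (sface q i σ))
  rw [sface_eq_spull, spull_spull]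

theorem kap_id (σ : Sing K 3) : kid (kap c hc 3 σ) = c σ := by
  change c (spull id σ) = c σ
  rw [spull_id]

include hc in
theorem c_one : c (1 : (SingG K).Γ 3) = 0 := by
  have h := dltX_cst 3 c (1 : K)
  rw [hc, if_pos (by decide)] at h
  exact h.symm

theorem spull_one {m n : ℕ} (θ : Fin (m + 1) → Fin (n + 1)) :
    spull θ (1 : (SingG K).Γ n) = (1 : (SingG K).Γ m) := rfl

theorem kap_one (q : ℕ) : kap c hc q (1 : (SingG K).Γ q) = 0 := by
  apply Subtype.ext
  funext v
  change c (spull v (1 : (SingG K).Γ q)) = 0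
  rw [spull_one]
  exact c_one c hc

theorem kap_N (q : ℕ) (hq : 3 ≤ q) (x : (SingG K).N q) : kap c hc (q + 1) x.1 = 0 := by
  apply Subtype.ext
  funext v
  change c (spull v x.1) = 0
  have hns : ¬ Function.Surjective v := by
    intro hs
    have := Fintype.card_le_of_surjective v hs
    simp at this
    omega
  rw [Function.Surjective] at hns
  push Not at hns
  obtain ⟨i, hi⟩ := hns
  have hv : ∀ k, ∃ y, i.succAbove y = v k := fun k => Fin.exists_succAbove_eq (hi k)
  choose v' hv' using hv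
  have e : v = i.succAbove ∘ v' := funext fun k => (hv' k).symm
  rw [e, ← spull_spull]
  have h1 : spull i.succAbove x.1 = (1 : (SingG K).Γ q) := ((SingG K).mem_N q _).1 x.2 i
  rw [h1, spull_one]
  exact c_one c hc

variable (α : (SingG K).N 2) (N : ℤ) (F : ∀ q, KZ 3 q → (SingG K).Γ q)

/-- the map to be contracted -/
def hm (m : ℕ) (σ : Sing K m) : (SingG K).Γ m :=
  F m (kap c hc m σ) * (F m 0)⁻¹ * (show (SingG K).Γ m from σ) ^ (-(N * c α.1))

theorem hm_one (m : ℕ) : hm c hc α N F m (1 : (SingG K).Γ m) = 1 := by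
  unfold hm
  rw [kap_one, mul_inv_cancel, one_mul]
  exact one_zpow _

theorem hm_Cf (D : ℕ) (hF : ∀ q, q ≤ D → ∀ (σ : KZ 3 (q + 1)) (i : Fin (q + 2)),
    (SingG K).d q i (F (q + 1) σ) = F q (kface 3 q i σ)) :
    Cf (SingG K) (X := fun m => Sing K m) sface (hm c hc α N F) D := by
  intro m hm' σ i
  unfold hm
  rw [map_mul, map_mul, map_inv, map_zpow, hF m hm', hF m hm', kap_face]
  rfl

theorem Hf_sing : Hf (X := fun m => Sing K m) sface := fun n i j σ h =>
  Pool.Agent.Helper922.HB.Sc.sface_sface n i j σ h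

theorem NH_zero (S : SymGrp) {X : ℕ → Type} (fc : ∀ n, Fin (n + 2) → X (n + 1) → X n)
    (h : ∀ m, X m → S.Γ m) : ∃ w, NH S fc h 0 w := by
  have hw : ∀ σ : X 0, ∃ p : S.Γ 1, S.d 0 0 p = h 0 σ ∧ S.d 0 1 p = 1 := by
    intro σ
    obtain ⟨p, hp0, hp1⟩ := S.conn (h 0 σ)
    have e0 : (0 : Fin 2).succAbove = fun _ : Fin 1 => (1 : Fin 2) := by
      funext k
      fin_cases k
      rfl
    have e1 : (1 : Fin 2).succAbove = fun _ : Fin 1 => (0 : Fin 2) := by
      funext k
      fin_cases k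
      rfl
    have d0 : S.d 0 0 p = 1 := by
      change S.pull (0 : Fin 2).succAbove p = 1
      rw [e0, hp1]
    have d1 : S.d 0 1 p = h 0 σ := by
      change S.pull (1 : Fin 2).succAbove p = h 0 σ
      rw [e1, hp0]
    refine ⟨p⁻¹ * S.s 0 0 (h 0 σ), ?_, ?_⟩
    · rw [map_mul, map_inv, d0]
      have := S.ds_self 0 0 (h 0 σ)
      rw [Fin.castSucc_zero] at this
      rw [this]
      group
    · rw [map_mul, map_inv, d1]
      have := S.ds_succ 0 0 (h 0 σ)
      have e : (0 : Fin 1).succ = 1 := rfl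
      rw [e] at this
      rw [this]
      group
  choose Y hY0 hY1 using hw
  refine ⟨Function.update (fun _ _ => 1) 0 Y, ?_, ?_, ?_⟩
  · intro m hm σ
    obtain rfl : m = 0 := by omega
    rw [Function.update_self, hY0]
  · intro σ
    rw [Function.update_self, hY1]
  · intro m hm
    omega

variable {c α N F} {γ : Ch K 3}

theorem exists_NH (H : H3 c γ) (D : ℕ) (hF : ∀ q, q ≤ D → ∀ (σ : KZ 3 (q + 1)) (i : Fin (q + 2)),
    (SingG K).d q i (F (q + 1) σ) = F q (kface 3 q i σ))
    (hα : hm c hc α N F 3 α.1 = 1) (hcα : c α.1 ≠ 0) (n : ℕ) (hn : n + 1 ≤ D) :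
    ∃ (a : ℤ) (w : ∀ m, Sing K m → (SingG K).Γ (m + 1)), a ≠ 0 ∧
      NH (SingG K) (X := fun m => Sing K m) sface (fun m σ => hm c hc α N F m σ ^ a) n w := by
  have hCf : ∀ a : ℤ, Cf (SingG K) (X := fun m => Sing K m) sface
      (fun m σ => hm c hc α N F m σ ^ a) D := by
    intro a m hm' σ i
    rw [map_zpow, hm_Cf c hc α N F D hF m hm']
  induction n with
  | zero =>
    obtain ⟨w, hw⟩ := NH_zero (SingG K) (X := fun m => Sing K m) sface
      (fun m σ => hm c hc α N F m σ ^ (1 : ℤ))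
    exact ⟨1, w, one_ne_zero, hw⟩
  | succ n ih =>
    obtain ⟨a, w, ha, hw⟩ := ih (by omega)
    have hC1 : Cf (SingG K) (X := fun m => Sing K m) sface
      (fun m σ => hm c hc α N F m σ ^ a) (n + 1) := fun m hm' => hCf a m (by omega)
    have hcoc := tp_coc Hf_sing hC1 hw
    by_cases h2 : n = 2
    · subst h2
      let θ : Sing K 3 → Additive ((SingG K).Pg 2) := fun σ =>
        (SingG K).clp (tp (SingG K) (X := fun m => Sing K m) sface
          (fun m σ => hm c hc α N F m σ ^ a) w 2 σ)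
      have hθ : dlt sface 3 θ = 0 := hcoc
      have hθ1 : θ (1 : (SingG K).Γ 3) = 0 := by
        have h := dltX_cst 3 θ (1 : K)
        rw [hθ, if_pos (by decide)] at h
        exact h.symm
      have hθα : θ α.1 = θ (1 : (SingG K).Γ 3) := by
        change (SingG K).clp _ = (SingG K).clp _
        congr 1
        funext i
        induction i using Fin.cases with
        | zero =>
          change hm c hc α N F 3 α.1 ^ a = hm c hc α N F 3 (1 : (SingG K).Γ 3) ^ a
          rw [hα, hm_one]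
        | succ i =>
          change w 2 (sface 2 i α.1) = w 2 (sface 2 i (1 : (SingG K).Γ 3))
          congr 1
          exact ((SingG K).mem_N 2 _).1 α.2 i
      obtain ⟨a', y, hy⟩ := H.hgen (single α.1 1) (by
        change sbd K 2 _ = 0
        rw [sbd, Pool.Agent.Helper922.HB.Sc.bd_single]
        have : ∀ i : Fin 4, sface 2 i α.1 = cst 2 (1 : K) := fun i =>
          ((SingG K).mem_N 2 _).1 α.2 i
        simp only [this]
        rw [Fin.sum_univ_four]
        simp)
      have hca : c α.1 = a' * evm c γ := by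
        have h := congrArg (evm c) hy
        rw [evm_sbd0 2 c H.hc, map_sub, map_smul, smul_eq_mul] at h
        have h' : evm c (single α.1 1) = c α.1 := by simp [evm]
        rw [h'] at h
        linarith
      have ha' : a' ≠ 0 := by
        rintro rfl
        rw [zero_mul] at hca
        exact hcα hca
      have hθγ : a' • evm θ γ = 0 := by
        have h := congrArg (evm θ) hy
        rw [evm_sbd0 2 θ hθ, map_sub, map_smul] at h
        have h' : evm θ (single α.1 1) = θ α.1 := by simp [evm]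
        rw [h', hθα, hθ1, zero_sub] at h
        exact neg_eq_zero.1 h.symm
      have hw' := NH_pow hw a'
      have hfun : (fun m (σ : Sing K m) => (hm c hc α N F m σ ^ a) ^ a') =
          fun m σ => hm c hc α N F m σ ^ (a * a') := by
        funext m σ
        rw [zpow_mul]
      have hθ' : ∀ σ, (SingG K).clp (tp (SingG K) (X := fun m => Sing K m) sface
          (fun m σ => (hm c hc α N F m σ ^ a) ^ a') (fun m σ => w m σ ^ a') 2 σ) = a' • θ σ := by
        intro σ
        rw [tp_zpow, clp_zpow (tp_mat Hf_sing (fun m hm' => hCf a m (by omega)) hw σ)]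
      obtain ⟨η, hη⟩ := coh_3 H (a' • θ) (by
        rw [dlt_smul, hθ, smul_zero]) (by
        have e : evm (a' • θ) = a' • evm θ := by
          apply Finsupp.lhom_ext'
          intro σ
          apply LinearMap.ext_ring
          simp [evm]
        rw [e, LinearMap.smul_apply, hθγ])
      obtain ⟨w'', hw''⟩ := NH_step Hf_sing (h := fun m σ => (hm c hc α N F m σ ^ a) ^ a')
        (fun m hm' σ i => by
          have := hCf a m (by omega) σ i
          rw [map_zpow, this]) hw' η (by
        rw [hη]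
        funext σ
        exact (hθ' σ).symm)
      rw [hfun] at hw''
      exact ⟨a * a', w'', mul_ne_zero ha ha', hw''⟩
    · obtain ⟨η, hη⟩ := coh_ne H n h2 _ hcoc
      obtain ⟨w', hw'⟩ := NH_step Hf_sing (fun m hm' => hCf a m (by omega)) hw η hη
      exact ⟨a, w', ha, hw'⟩

theorem mem_Bd_of_NH {a : ℤ} {n : ℕ} {w : ∀ m, Sing K m → (SingG K).Γ (m + 1)}
    (hw : NH (SingG K) (X := fun m => Sing K m) sface (fun m σ => hm c hc α N F m σ ^ a) n w)
    (q : ℕ) (hq : q + 1 ≤ n) (x : (SingG K).N q) :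
    hm c hc α N F (q + 1) x.1 ^ a ∈ (SingG K).Bd q := by
  rw [SymGrp.mem_Bd]
  refine ⟨w (q + 1) x.1 * (w (q + 1) (1 : (SingG K).Γ (q + 1)))⁻¹, ?_, ?_⟩
  · intro i
    rw [map_mul, map_inv, hw.hs q (by omega), hw.hs q (by omega)]
    have h1 : sface q i x.1 = (1 : (SingG K).Γ q) := ((SingG K).mem_N q _).1 x.2 i
    have h2 : sface q i (1 : (SingG K).Γ (q + 1)) = (1 : (SingG K).Γ q) := rfl
    rw [h1, h2, mul_inv_cancel]
  · rw [map_mul, map_inv, hw.h0 (q + 1) (by omega), hw.h0 (q + 1) (by omega), hm_one, one_zpow,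
      inv_one, mul_one]

end F1

end

end Run7.h592.SF

namespace Run7.h592

open Pool.Agent.H904R2 Finsupp SF
open Pool.Agent.Helper922.HB.Sc (Sing sface bd sbd)

theorem p_F1 : S_F1 := by
  intro K _ _ _ _ c α γ hc hcα hγ hgen hac
  have hcγ : evm c γ ≠ 0 := by
    intro h0
    obtain ⟨a', y, hy⟩ := hgen (single α.1 1) (by
      change sbd K 2 _ = 0
      rw [sbd, Pool.Agent.Helper922.HB.Sc.bd_single]
      have : ∀ i : Fin 4, sface 2 i α.1 = cst 2 (1 : K) := fun i =>
        ((SingG K).mem_N 2 _).1 α.2 i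
      simp only [this]
      rw [Fin.sum_univ_four]
      simp)
    have h := congrArg (evm c) hy
    rw [evm_sbd0 2 c hc, map_sub, map_smul, h0, smul_zero, sub_zero] at h
    have h' : evm c (single α.1 1) = c α.1 := by simp [evm]
    rw [h'] at h
    exact hcα h.symm
  have H : H3 c γ := ⟨hc, hγ, hcγ, hgen, hac⟩
  have main : ∀ q : ℕ, ∃ (N : ℤ) (F : ∀ q, KZ 3 q → (SingG K).Γ q) (a : ℤ), N ≠ 0 ∧ a ≠ 0 ∧
      (∀ q, q ≤ 2 → ∀ z, F q z = 1) ∧ (∀ z : KZ 3 3, F 3 z = α.1 ^ (N * kid z)) ∧
      ∀ x : (SingG K).N q, hm c hc α N F (q + 1) x.1 ^ a ∈ (SingG K).Bd q := by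
    intro q
    obtain ⟨N, F, hN, hF, hF0, hF1⟩ := exists_F (SingG K) 2 α.1 α.2 (q + 3)
    have hα : hm c hc α N F 3 α.1 = 1 := by
      unfold hm
      rw [hF1, hF1, kap_id]
      have : kid (0 : KZ 3 3) = 0 := rfl
      rw [this, mul_zero, zpow_zero, inv_one, mul_one]
      rw [zpow_neg]
      exact mul_inv_cancel _
    obtain ⟨a, w, ha, hw⟩ := exists_NH hc H (q + 3) hF hα hcα (q + 1) (by omega)
    exact ⟨N, F, a, hN, ha, hF0, hF1, fun x => mem_Bd_of_NH hc hw q le_rfl x⟩
  have tor : ∀ {M : Type} [Group M] (x : M) (k : ℤ), k ≠ 0 → x ^ k = 1 →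
      ∃ M : ℕ, 0 < M ∧ x ^ M = 1 := by
    intro M _ x k hk h
    refine ⟨k.natAbs, Int.natAbs_pos.2 hk, ?_⟩
    rcases Int.natAbs_eq k with h' | h'
    · rw [h', zpow_natCast] at h
      exact h
    · rw [h', zpow_neg, zpow_natCast, inv_eq_one] at h
      exact h
  constructor
  · intro q x hq
    obtain ⟨N, F, a, hN, ha, hF0, hF1, h⟩ := main q
    have h1 := h x
    have h2 : hm c hc α N F (q + 1) x.1 = (x.1 : (SingG K).Γ (q + 1)) ^ (-(N * c α.1)) := by
      unfold hm
      rcases Nat.lt_or_ge q 2 with h3 | h3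
      · rw [hF0 (q + 1) (by omega), hF0 (q + 1) (by omega), inv_one, mul_one, one_mul]
      · rw [kap_N c hc q (by omega) x, mul_inv_cancel, one_mul]
    rw [h2, ← zpow_mul] at h1
    apply tor ((SingG K).cls q x) (-(N * c α.1) * a) (by
      refine mul_ne_zero (neg_ne_zero.2 (mul_ne_zero hN hcα)) ha)
    rw [← map_zpow, SymGrp.cls_eq_one]
    exact h1
  · intro x
    obtain ⟨N, F, a, hN, ha, hF0, hF1, h⟩ := main 2
    have h1 := h x
    have h2 : hm c hc α N F 3 x.1 = α.1 ^ (N * c x.1) * (x.1 : (SingG K).Γ 3) ^ (-(N * c α.1)) := by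
      unfold hm
      rw [hF1, hF1, kap_id]
      have : kid (0 : KZ 3 3) = 0 := rfl
      rw [this, mul_zero, zpow_zero, inv_one, mul_one]
    let y : (SingG K).N 2 := (α ^ (N * c x.1) * x ^ (-(N * c α.1))) ^ a
    have hy : (SingG K).cls 2 y = 1 := by
      rw [SymGrp.cls_eq_one]
      change (α.1 ^ (N * c x.1) * (x.1 : (SingG K).Γ 3) ^ (-(N * c α.1))) ^ a ∈ _
      rw [← h2]
      exact h1
    have h3 : (SingG K).cls 2 x ^ (N * c α.1 * a) = (SingG K).cls 2 α ^ (N * c x.1 * a) := by
      have h4 : (SingG K).cls 2 y = (SingG K).cls 2 α ^ (N * c x.1 * a) *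
          ((SingG K).cls 2 x ^ (N * c α.1 * a))⁻¹ := by
        simp only [y, map_zpow, map_mul]
        rw [mul_zpow, ← zpow_mul, ← zpow_mul, ← zpow_neg]
        congr 2
        ring
      rw [hy] at h4
      exact (mul_inv_eq_one.1 h4.symm).symm
    have hk : N * c α.1 * a ≠ 0 := mul_ne_zero (mul_ne_zero hN hcα) ha
    rcases Int.natAbs_eq (N * c α.1 * a) with h' | h'
    · refine ⟨(N * c α.1 * a).natAbs, N * c x.1 * a, Int.natAbs_pos.2 hk, ?_⟩
      rw [← h3, ← zpow_natCast, ← h']
    · refine ⟨(N * c α.1 * a).natAbs, -(N * c x.1 * a), Int.natAbs_pos.2 hk, ?_⟩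
      rw [zpow_neg, ← h3, ← zpow_natCast, ← zpow_neg]
      congr 1
      omega

end Run7.h592
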