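import Pool.Agent.Run7.h592.Tasks
import Pool.Agent.H904R2.Alpha
import Pool.Agent.H904R2.Cc

/-! F2: the unit quaternions. -/

set_option autoImplicit false

open scoped Topology Quaternion

namespace Run7.h592

open Pool.Agent.H904R2 Finsupp
open Pool.Agent.Helper922.HB.Sc (Sing sface altd bd sbd slice)

noncomputable section

theorem pcG : PathConnectedSpace G := by
  rw [← isPathConnected_iff_pathConnectedSpace]
  apply isPathConnected_sphere
  · rw [Quaternion.rank_eq_four]
    norm_num
  · norm_num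

/-- the square of the norm -/
def nsq (v : Fin 4 → ℝ) : ℝ := v 0 ^ 2 + v 1 ^ 2 + v 2 ^ 2 + v 3 ^ 2

theorem continuous_nsq : Continuous nsq := by
  unfold nsq
  fun_prop

theorem sq4 (a b c d : ℝ) (h : 0 = a ^ 2 + b ^ 2 + c ^ 2 + d ^ 2) :
    a = 0 ∧ b = 0 ∧ c = 0 ∧ d = 0 := by
  have ha := sq_nonneg a
  have hb := sq_nonneg b
  have hc := sq_nonneg c
  have hd := sq_nonneg d
  refine ⟨?_, ?_, ?_, ?_⟩
  · exact pow_eq_zero_iff (two_ne_zero) |>.1 (by linarith)
  · exact pow_eq_zero_iff (two_ne_zero) |>.1 (by linarith)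
  · exact pow_eq_zero_iff (two_ne_zero) |>.1 (by linarith)
  · exact pow_eq_zero_iff (two_ne_zero) |>.1 (by linarith)

theorem nsq_pos (v : Pc 4) : 0 < nsq v.1 := by
  have h0 : 0 ≤ nsq v.1 := by
    unfold nsq
    positivity
  rcases eq_or_lt_of_le h0 with h | h
  · exfalso
    apply v.2
    obtain ⟨e0, e1, e2, e3⟩ := sq4 _ _ _ _ h
    funext i
    fin_cases i
    · exact e0
    · exact e1
    · exact e2
    · exact e3
  · exact h

/-- normalised quaternion -/
def qN : C(Pc 4, G) where
  toFun v := ⟨qmk (v.1 2 / √(nsq v.1)) (v.1 3 / √(nsq v.1)) (v.1 0 / √(nsq v.1))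
    (v.1 1 / √(nsq v.1)), by
      apply qmk_mem
      have h := nsq_pos v
      have h2 := Real.sq_sqrt h.le
      rw [div_pow, div_pow, div_pow, div_pow, h2, ← add_div, ← add_div, ← add_div]
      rw [div_eq_one_iff_eq h.ne']
      unfold nsq
      ring⟩
  continuous_toFun := by
    refine Continuous.subtype_mk ?_ _
    have hv : ∀ i : Fin 4, Continuous fun v : Pc 4 => v.1 i := fun i =>
      (continuous_apply i).comp continuous_subtype_val
    have hn : Continuous fun v : Pc 4 => √(nsq v.1) :=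
      Real.continuous_sqrt.comp (continuous_nsq.comp continuous_subtype_val)
    have hne : ∀ v : Pc 4, √(nsq v.1) ≠ 0 := fun v => (Real.sqrt_pos.2 (nsq_pos v)).ne'
    exact continuous_qmk.comp (((hv 2).div hn hne).prodMk (((hv 3).div hn hne).prodMk
      (((hv 0).div hn hne).prodMk ((hv 1).div hn hne))))

/-- coordinates of a unit quaternion -/
def jN : C(G, Pc 4) where
  toFun a := ⟨![a.1.imJ, a.1.imK, a.1.re, a.1.imI], by
    intro h
    have h0 := congrFun h 0
    have h1 := congrFun h 1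
    have h2 := congrFun h 2
    have h3 := congrFun h 3
    simp at h0 h1 h2 h3
    have := G.eq a
    rw [h0, h1, h2, h3] at this
    norm_num at this⟩
  continuous_toFun := by
    refine Continuous.subtype_mk (continuous_pi fun i => ?_) _
    fin_cases i
    · exact Quaternion.continuous_imJ.comp continuous_subtype_val
    · exact Quaternion.continuous_imK.comp continuous_subtype_val
    · exact Quaternion.continuous_re.comp continuous_subtype_val
    · exact Quaternion.continuous_imI.comp continuous_subtype_val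

theorem qN_jN (a : G) : qN (jN a) = a := by
  have h : nsq (jN a).1 = 1 := by
    have := G.eq a
    change a.1.imJ ^ 2 + a.1.imK ^ 2 + a.1.re ^ 2 + a.1.imI ^ 2 = 1
    linarith
  apply Subtype.ext
  change qmk (a.1.re / √(nsq (jN a).1)) (a.1.imI / √(nsq (jN a).1)) (a.1.imJ / √(nsq (jN a).1))
    (a.1.imK / √(nsq (jN a).1)) = a.1
  rw [h, Real.sqrt_one, div_one, div_one, div_one, div_one]
  rfl

theorem jN_qN_apply (v : Pc 4) (i : Fin 4) : (jN (qN v)).1 i = v.1 i / √(nsq v.1) := by
  fin_cases i <;> rfl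

/-- the homotopy from the normalisation to the identity -/
def hN : C(Pc 4 × unitInterval, Pc 4) where
  toFun p := ⟨fun i => ((1 - (p.2 : ℝ)) / √(nsq p.1.1) + p.2) * p.1.1 i, by
    intro h
    have hs := Real.sqrt_pos.2 (nsq_pos p.1)
    have hc : 0 < (1 - (p.2 : ℝ)) / √(nsq p.1.1) + p.2 := by
      rcases eq_or_lt_of_le p.2.2.1 with h0 | h0
      · rw [← h0]
        have : 0 < (1 - (0 : ℝ)) / √(nsq p.1.1) := by
          apply div_pos _ hs
          norm_num
        linarith
      · have : 0 ≤ (1 - (p.2 : ℝ)) / √(nsq p.1.1) := div_nonneg (by linarith [p.2.2.2]) hs.le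
        linarith
    apply p.1.2
    funext i
    have := congrFun h i
    simp only [Pi.zero_apply, mul_eq_zero] at this
    rcases this with h1 | h1
    · exact absurd h1 hc.ne'
    · exact h1⟩
  continuous_toFun := by
    refine Continuous.subtype_mk (continuous_pi fun i => ?_) _
    have hv : Continuous fun p : Pc 4 × unitInterval => p.1.1 i :=
      (continuous_apply i).comp (continuous_subtype_val.comp continuous_fst)
    have hn : Continuous fun p : Pc 4 × unitInterval => √(nsq p.1.1) :=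
      Real.continuous_sqrt.comp (continuous_nsq.comp (continuous_subtype_val.comp continuous_fst))
    have hne : ∀ p : Pc 4 × unitInterval, √(nsq p.1.1) ≠ 0 :=
      fun p => (Real.sqrt_pos.2 (nsq_pos p.1)).ne'
    have hr : Continuous fun p : Pc 4 × unitInterval => (p.2 : ℝ) := by fun_prop
    exact (((continuous_const.sub hr).div hn hne).add hr).mul hv

theorem hN_zero (v : Pc 4) : hN (v, 0) = jN (qN v) := by
  apply Subtype.ext
  funext i
  rw [jN_qN_apply]
  change ((1 - ((0 : unitInterval) : ℝ)) / √(nsq v.1) + ((0 : unitInterval) : ℝ)) * v.1 i = _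
  rw [Set.Icc.coe_zero]
  ring

theorem hN_one (v : Pc 4) : hN (v, 1) = v := by
  apply Subtype.ext
  funext i
  change ((1 - ((1 : unitInterval) : ℝ)) / √(nsq v.1) + ((1 : unitInterval) : ℝ)) * v.1 i = _
  rw [Set.Icc.coe_one]
  ring

theorem psh_qj (m : ℕ) (z : Ch G m) : psh qN m (psh jN m z) = z := by
  rw [Prd.psh_psh]
  have : qN.comp jN = ContinuousMap.id G := by
    ext1 a
    exact qN_jN a
  rw [this, Prd.psh_id]

theorem hty_jq {m : ℕ} (z : Ch (Pc 4) m) (hz : IsCyc m z) :
    IsBdy m (z - psh jN m (psh qN m z)) := by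
  have h := Sph.homotopy_bdy hN hz
  have e1 : slice hN 1 = ContinuousMap.id _ := by
    ext1 v
    exact hN_one v
  have e0 : slice hN 0 = jN.comp qN := by
    ext1 v
    exact hN_zero v
  rw [e0, e1, Prd.psh_id, ← Prd.psh_psh] at h
  exact h

theorem p_F2 : S_F2 := by
  have := pcG
  refine ⟨pcG, ?_⟩
  obtain ⟨ω, hω, h1⟩ := pc_coc 3
  rw [altd_eq_dlt] at hω
  obtain ⟨α', hα', hα2⟩ := exists_alpha 1 ω hω h1
  let L : C(GLr 2, Pc 4) := lcol 1
  let a' : C(Dl 3, GLr 2) := α'
  have hface : ∀ (i : Fin 4) (s : Dl 2), a' (dlF 2 i s) = 1 := fun i s =>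
    ContinuousMap.congr_fun (((SymGrp.mem_N (SingG (GLr 2)) 2 α').1 hα') i) s
  have hL1 : L 1 = elast 1 := lcol_one 1
  have hq1 : qN (elast 1) = 1 := by
    have e0 : (elast 1).1 0 = 0 := by
      simp [elast, ofC]
    have e1 : (elast 1).1 1 = 0 := by
      simp [elast, ofC]
    have e2 : (elast 1).1 2 = 1 := by
      simp [elast, ofC]
    have e3 : (elast 1).1 3 = 0 := by
      simp [elast, ofC]
    have en : nsq (elast 1).1 = 1 := by
      unfold nsq
      rw [e0, e1, e2, e3]
      norm_num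
    apply Subtype.ext
    change qmk ((elast 1).1 2 / √(nsq (elast 1).1)) ((elast 1).1 3 / √(nsq (elast 1).1))
      ((elast 1).1 0 / √(nsq (elast 1).1)) ((elast 1).1 1 / √(nsq (elast 1).1)) = 1
    rw [e0, e1, e2, e3, en, Real.sqrt_one, zero_div, div_one]
    rfl
  let σ' : Sing (Pc 4) 3 := L.comp a'
  let a : C(Dl 3, G) := qN.comp σ'
  have ha : a ∈ (SingG G).N 2 := by
    refine (SymGrp.mem_N (SingG G) 2 a).2 ?_
    intro i
    refine ContinuousMap.ext fun s => ?_
    change qN (L (a' (dlF 2 i s))) = 1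
    rw [hface, hL1, hq1]
  have hcyc : IsCyc 3 (single σ' 1 : Ch (Pc 4) 3) := by
    change sbd (Pc 4) 2 _ = 0
    rw [sbd, Pool.Agent.Helper922.HB.Sc.bd_single]
    have : ∀ i : Fin 4, sface 2 i σ' = cst 2 (elast 1) := by
      intro i
      refine ContinuousMap.ext fun s => ?_
      change L (a' (dlF 2 i s)) = elast 1
      rw [hface, hL1]
    simp only [this]
    rw [Fin.sum_univ_four]
    simp
  let c : Sing G 3 → ℤ := fun σ => ω (jN.comp σ)
  have hc : dlt sface 3 c = 0 := by
    funext σ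
    have := congrFun hω (jN.comp σ)
    exact this
  refine ⟨c, ⟨a, ha⟩, psh qN 3 (fund 3), hc, ?_, ?_, ?_, ?_⟩
  · change ω (jN.comp (qN.comp σ')) ≠ 0
    have h2 := Alp.evm_bdy ω hω _ (hty_jq _ hcyc)
    rw [map_sub, Prd.psh_psh, Prd.psh_single, sub_eq_zero] at h2
    have h3 : ∀ τ : Sing (Pc 4) 3, evm ω (single τ 1) = ω τ := fun τ => by simp [evm]
    rw [h3, h3] at h2
    rw [← ContinuousMap.comp_assoc, ← h2]
    exact hα2
  · exact Sph.cyc_psh qN (Sph.fund_isCyc 3)
  · intro z hz
    obtain ⟨b, hb⟩ := pc_gen 3 (psh jN 3 z) (Sph.cyc_psh jN hz)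
    refine ⟨b, ?_⟩
    have := Sph.bdy_psh qN hb
    rw [map_sub, map_smul, psh_qj] at this
    exact this
  · intro j hj z hz
    have := Sph.bdy_psh qN (pc_acyc 3 j hj _ (Sph.cyc_psh jN hz))
    rw [psh_qj] at this
    exact this

end

end Run7.h592
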