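import Pool.Agent.Run7.h592.Tasks

/-! G0: affine algebraic sets in projective space. -/

set_option autoImplicit false

open scoped Topology LinearAlgebra.Projectivization

namespace Run7.h592

noncomputable section

section Hog

variable {σ : Type}

/-- homogenisation of a polynomial to degree `N` -/
def hog (N : ℕ) (f : MvPolynomial σ ℂ) : MvPolynomial (Option σ) ℂ :=
  ∑ m ∈ f.support, MvPolynomial.C (f.coeff m) *
    (MvPolynomial.rename some (MvPolynomial.monomial m (1 : ℂ)) *
      MvPolynomial.X none ^ (N - m.degree))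

theorem hog_hom (N : ℕ) (f : MvPolynomial σ ℂ) (hN : f.totalDegree ≤ N) :
    (hog N f).IsHomogeneous N := by
  unfold hog
  apply MvPolynomial.IsHomogeneous.sum
  intro m hm
  have h1 : m.degree ≤ N := (MvPolynomial.le_totalDegree hm).trans hN
  have h2 : ((MvPolynomial.rename some (MvPolynomial.monomial m (1 : ℂ)) *
      MvPolynomial.X none ^ (N - m.degree)) : MvPolynomial (Option σ) ℂ).IsHomogeneous N := by
    have h3 := ((MvPolynomial.isHomogeneous_monomial (1 : ℂ) (rfl : m.degree = m.degree)).rename_isHomogeneous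
      (f := (some : σ → Option σ))).mul
      ((MvPolynomial.isHomogeneous_X ℂ (none : Option σ)).pow (N - m.degree))
    have e : m.degree + 1 * (N - m.degree) = N := by omega
    rwa [e] at h3
  have h4 := (MvPolynomial.isHomogeneous_C (Option σ) (f.coeff m)).mul h2
  rwa [zero_add] at h4

theorem eval_hog (N : ℕ) (f : MvPolynomial σ ℂ) (hN : f.totalDegree ≤ N) (v : Option σ → ℂ)
    (hv : v none ≠ 0) : MvPolynomial.eval v (hog N f) =
      v none ^ N * MvPolynomial.eval (fun i => v (some i) / v none) f := by
  conv_rhs => rw [MvPolynomial.eval_eq]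
  unfold hog
  rw [map_sum, Finset.mul_sum]
  refine Finset.sum_congr rfl fun m hm => ?_
  have h1 : m.degree ≤ N := (MvPolynomial.le_totalDegree hm).trans hN
  rw [map_mul, map_mul, MvPolynomial.eval_C, MvPolynomial.eval_rename, map_pow,
    MvPolynomial.eval_X, MvPolynomial.eval_monomial, one_mul]
  have h2 : (m.prod fun n e => (v ∘ some) n ^ e) = v none ^ m.degree *
      ∏ i ∈ m.support, (v (some i) / v none) ^ m i := by
    rw [Finsupp.prod, Finsupp.degree_apply, ← Finset.prod_pow_eq_pow_sum, ← Finset.prod_mul_distrib]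
    refine Finset.prod_congr rfl fun i _ => ?_
    rw [← mul_pow]
    congr 1
    simp only [Function.comp_apply]
    field_simp
  rw [h2]
  have h3 : v none ^ N = v none ^ m.degree * v none ^ (N - m.degree) := by
    rw [← pow_add]
    congr 1
    omega
  rw [h3]
  ring

theorem p_G0a : S_G0a := by
  intro σ _ S
  refine ⟨(fun f => hog f.totalDegree f) '' S, {MvPolynomial.X none}, ?_, ?_, ?_⟩
  · rintro _ ⟨f, _, rfl⟩
    exact ⟨_, hog_hom _ f le_rfl⟩
  · rintro g rfl
    exact ⟨1, MvPolynomial.isHomogeneous_X ℂ _⟩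
  · intro p
    constructor
    · rintro ⟨h1, h2⟩
      refine ⟨?_, _, rfl, ?_⟩
      · rintro _ ⟨f, hf, rfl⟩
        change MvPolynomial.eval p.rep (hog f.totalDegree f) = 0
        rw [eval_hog _ f le_rfl _ h1]
        have := h2 f hf
        unfold aco at this
        rw [this, mul_zero]
      · change ¬ MvPolynomial.eval p.rep (MvPolynomial.X none) = 0
        rw [MvPolynomial.eval_X]
        exact h1
    · rintro ⟨h1, g, rfl, h2⟩
      change ¬ MvPolynomial.eval p.rep (MvPolynomial.X none) = 0 at h2
      rw [MvPolynomial.eval_X] at h2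
      refine ⟨h2, fun f hf => ?_⟩
      have := h1 _ ⟨f, hf, rfl⟩
      change MvPolynomial.eval p.rep (hog f.totalDegree f) = 0 at this
      rw [eval_hog _ f le_rfl _ h2] at this
      rcases mul_eq_zero.1 this with h3 | h3
      · exact absurd h3 (pow_ne_zero _ h2)
      · exact h3

theorem aco_mk (v : Option σ → ℂ) (hv : v ≠ 0) (h : v none ≠ 0) :
    (Projectivization.mk ℂ v hv).rep none ≠ 0 ∧
      aco (Projectivization.mk ℂ v hv) = fun i => v (some i) / v none := by
  obtain ⟨a, ha⟩ := Projectivization.exists_smul_eq_mk_rep ℂ v hv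
  have ha0 : (a : ℂ) ≠ 0 := a.ne_zero
  have h1 : ∀ o, (Projectivization.mk ℂ v hv).rep o = (a : ℂ) * v o := by
    intro o
    rw [← ha]
    rfl
  constructor
  · rw [h1]
    exact mul_ne_zero ha0 h
  · funext i
    unfold aco
    rw [h1, h1, mul_div_mul_left _ _ ha0]

/-- the quotient map to projective space -/
def qpr (σ : Type) : {v : Option σ → ℂ // v ≠ 0} → ℙ ℂ (Option σ → ℂ) :=
  fun v => Projectivization.mk ℂ v.1 v.2

theorem isQuotientMap_qpr (σ : Type) : Topology.IsQuotientMap (qpr σ) := isQuotientMap_quotient_mk'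

/-- the affine chart -/
def chart (σ : Type) : Set (ℙ ℂ (Option σ → ℂ)) := {p | p.rep none ≠ 0}

theorem qpr_mem_chart (v : {v : Option σ → ℂ // v ≠ 0}) : qpr σ v ∈ chart σ ↔ v.1 none ≠ 0 := by
  constructor
  · intro h h0
    apply h
    obtain ⟨a, ha⟩ := Projectivization.exists_smul_eq_mk_rep ℂ v.1 v.2
    have : (Projectivization.mk ℂ v.1 v.2).rep none = (a : ℂ) * v.1 none := by
      rw [← ha]
      rfl
    change (Projectivization.mk ℂ v.1 v.2).rep none = 0
    rw [this, h0, mul_zero]
  · intro h
    exact (aco_mk v.1 v.2 h).1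

theorem isOpen_chart (σ : Type) : IsOpen (chart σ) := by
  rw [← (isQuotientMap_qpr σ).isOpen_preimage]
  have : qpr σ ⁻¹' chart σ = {v | v.1 none ≠ 0} := by
    ext v
    exact qpr_mem_chart v
  rw [this]
  exact isOpen_ne_fun ((continuous_apply none).comp continuous_subtype_val) continuous_const

theorem continuous_aco (σ : Type) : Continuous fun p : chart σ => aco p.1 := by
  have h := (isQuotientMap_qpr σ).restrictPreimage_isOpen (isOpen_chart σ)
  rw [h.continuous_iff]
  have e : ((fun p : chart σ => aco p.1) ∘ (chart σ).restrictPreimage (qpr σ)) =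
      fun v i => v.1.1 (some i) / v.1.1 none := by
    funext v
    exact (aco_mk v.1.1 v.1.2 ((qpr_mem_chart v.1).1 v.2)).2
  rw [e]
  refine continuous_pi fun i => Continuous.div
    ((continuous_apply (some i)).comp (continuous_subtype_val.comp continuous_subtype_val))
    ((continuous_apply none).comp (continuous_subtype_val.comp continuous_subtype_val)) ?_
  intro v
  exact (qpr_mem_chart v.1).1 v.2

theorem p_G0b : S_G0b := by
  intro σ _ S
  have hne : ∀ v : σ → ℂ, (fun o : Option σ => o.elim 1 v) ≠ 0 := by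
    intro v h
    have := congrFun h none
    simp at this
  have haco : ∀ v : σ → ℂ, (Projectivization.mk ℂ _ (hne v)).rep none ≠ 0 ∧
      aco (Projectivization.mk ℂ _ (hne v)) = v := by
    intro v
    obtain ⟨h1, h2⟩ := aco_mk _ (hne v) (by simp)
    refine ⟨h1, h2.trans ?_⟩
    funext i
    simp
  refine ⟨{
    toFun := fun p => ⟨aco p.1, p.2.2⟩
    invFun := fun v => ⟨Projectivization.mk ℂ _ (hne v.1), (haco v.1).1, by
      rw [(haco v.1).2]
      exact v.2⟩
    left_inv := ?_
    right_inv := ?_
    continuous_toFun := ?_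
    continuous_invFun := ?_ }, fun p => rfl⟩
  · intro p
    apply Subtype.ext
    change Projectivization.mk ℂ _ (hne (aco p.1)) = p.1
    conv_rhs => rw [← p.1.mk_rep]
    symm
    rw [Projectivization.mk_eq_mk_iff']
    refine ⟨p.1.rep none, ?_⟩
    have hp := p.2.1
    funext o
    cases o with
    | none => simp
    | some i =>
      simp only [Pi.smul_apply, Option.elim_some, smul_eq_mul, aco]
      field_simp
  · intro v
    exact Subtype.ext (haco v.1).2
  · refine Continuous.subtype_mk ?_ _
    exact (continuous_aco σ).comp (Continuous.subtype_mk continuous_subtype_val fun p => p.2.1)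
  · refine Continuous.subtype_mk ?_ _
    have hc : Continuous fun v : Zer S => (fun o : Option σ => o.elim 1 v.1) := by
      refine continuous_pi fun o => ?_
      cases o with
      | none => exact continuous_const
      | some i => exact (continuous_apply i).comp continuous_subtype_val
    exact continuous_quotient_mk'.comp (hc.subtype_mk fun v => hne v.1)

theorem p_G0c : S_G0c := by
  intro σ _ S h V' P f hf p
  have hfin := V'.fin
  obtain ⟨d, hd⟩ : ∃ d, ∀ j, (P j).totalDegree ≤ d := by
    obtain ⟨d, hd⟩ := (Set.finite_range fun j => (P j).totalDegree).bddAbove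
    exact ⟨d, fun j => hd ⟨j, rfl⟩⟩
  have key : ∀ q : affSet S, (fun j => MvPolynomial.eval q.1.rep (hog d (P j))) =
      q.1.rep none ^ d • fun j => MvPolynomial.eval (aco q.1) (P j) := by
    intro q
    funext j
    rw [eval_hog d (P j) (hd j) _ q.2.1]
    rfl
  refine ⟨d, fun j => hog d (P j), fun j => hog_hom d _ (hd j), ?_, ?_⟩
  · obtain ⟨hne, -⟩ := hf p
    obtain ⟨j, hj⟩ := Function.ne_iff.1 hne
    refine ⟨j, ?_⟩
    have h1 := congrFun (key p) j
    change ¬ MvPolynomial.eval p.1.rep (hog d (P j)) = 0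
    rw [h1]
    exact mul_ne_zero (pow_ne_zero _ p.2.1) hj
  · intro q hq
    obtain ⟨hne, h1⟩ := hf q
    rw [h1, Projectivization.mk_eq_mk_iff']
    refine ⟨(q.1.rep none ^ d)⁻¹, ?_⟩
    have h2 : (fun i => MvPolynomial.eval q.1.rep (hog d (P i))) = _ := key q
    rw [h2, smul_smul, inv_mul_cancel₀ (pow_ne_zero _ q.2.1), one_smul]

end Hog

end

end Run7.h592
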