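import Pool.Agent.Run7.h592.Tasks

/-!
# Piece G1: the symmetric square of the threefold as an affine variety
-/

set_option autoImplicit false

open scoped Topology

namespace Run7.h592

open Pool.Agent.Y209.HB

noncomputable section

namespace PG1

/-- The index set of the coordinates. -/
abbrev J : Type := Fin 4 ⊕ Fin 4 × Fin 4

/-- The equations. -/
theorem mem_eqX (v : J → ℂ) : (∀ f ∈ eqX, MvPolynomial.eval v f = 0) ↔
    (∀ i j, v (.inr (i, j)) = v (.inr (j, i))) ∧
    (∀ i j k l, v (.inr (i, j)) * v (.inr (k, l)) = v (.inr (i, k)) * v (.inr (j, l))) ∧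
    (1 / 2 * (∑ i : Fin 3, (v (.inl i.castSucc) ^ 2 + v (.inr (i.castSucc, i.castSucc)))) -
      1 / 4 * (v (.inl 3) ^ 3 + 3 * v (.inl 3) * v (.inr (3, 3))) + v (.inl 3) = 0) ∧
    ∀ k, ∑ i : Fin 3, v (.inl i.castSucc) * v (.inr (i.castSucc, k)) -
      1 / 4 * (3 * v (.inl 3) ^ 2 * v (.inr (3, k)) + v (.inr (3, 3)) * v (.inr (3, k))) +
      v (.inr (3, k)) = 0 := by
  constructor
  · intro h
    refine ⟨fun i j => ?_, fun i j k l => ?_, ?_, fun k => ?_⟩
    · have := h _ (Or.inl ⟨i, j, rfl⟩)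
      simpa [sub_eq_zero] using this
    · have := h _ (Or.inr (Or.inl ⟨i, j, k, l, rfl⟩))
      simpa [sub_eq_zero] using this
    · have := h _ (Or.inr (Or.inr (Or.inl rfl)))
      simpa using this
    · have := h _ (Or.inr (Or.inr (Or.inr ⟨k, rfl⟩)))
      simpa using this
  · rintro ⟨h1, h2, h3, h4⟩ f (⟨i, j, rfl⟩ | ⟨i, j, k, l, rfl⟩ | rfl | ⟨k, rfl⟩)
    · simp [h1 i j]
    · simp [h2 i j k l]
    · simpa using h3
    · simpa using h4 k

/-- The ambient space of the threefold. -/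
abbrev E : Type := (Fin 3 → ℂ) × ℂ

/-- coordinates -/
def w4 (y : E) : Fin 4 → ℂ := ![y.1 0, y.1 1, y.1 2, y.2]

/-- The map of the pairs. -/
def psi (q : E × E) : J → ℂ := Sum.elim (fun i => w4 q.1 i + w4 q.2 i)
  (fun ij => (w4 q.1 ij.1 - w4 q.2 ij.1) * (w4 q.1 ij.2 - w4 q.2 ij.2))

theorem continuous_w4 : Continuous w4 := by
  refine continuous_pi fun i => ?_
  fin_cases i
  · exact (by fun_prop : Continuous fun y : E => y.1 0)
  · exact (by fun_prop : Continuous fun y : E => y.1 1)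
  · exact (by fun_prop : Continuous fun y : E => y.1 2)
  · exact continuous_snd

theorem continuous_psi : Continuous psi := by
  have h1 : ∀ i, Continuous fun q : E × E => w4 q.1 i := fun i =>
    (continuous_apply i).comp (continuous_w4.comp continuous_fst)
  have h2 : ∀ i, Continuous fun q : E × E => w4 q.2 i := fun i =>
    (continuous_apply i).comp (continuous_w4.comp continuous_snd)
  refine continuous_pi fun j => ?_
  rcases j with i | ⟨i, j⟩
  · exact (h1 i).add (h2 i)
  · exact ((h1 i).sub (h2 i)).mul ((h1 j).sub (h2 j))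

theorem norm_le_of_w4 {y : E} {R : ℝ} (hR : 0 ≤ R) (h : ∀ i, ‖w4 y i‖ ≤ R) : ‖y‖ ≤ R := by
  rw [Prod.norm_def]
  apply max_le
  · rw [pi_norm_le_iff_of_nonneg hR]
    intro i
    fin_cases i
    · exact h 0
    · exact h 1
    · exact h 2
  · exact h 3

theorem proper_psi : IsProperMap psi := by
  rw [isProperMap_iff_isCompact_preimage]
  refine ⟨continuous_psi, fun K hK => ?_⟩
  obtain ⟨R, hR0, hR⟩ : ∃ R : ℝ, 0 ≤ R ∧ ∀ v ∈ K, ‖v‖ ≤ R := by
    obtain ⟨R, hR⟩ := hK.isBounded.exists_norm_le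
    exact ⟨max R 0, le_max_right _ _, fun v hv => (hR v hv).trans (le_max_left _ _)⟩
  apply Metric.isCompact_of_isClosed_isBounded (hK.isClosed.preimage continuous_psi)
  rw [isBounded_iff_forall_norm_le]
  refine ⟨R + 1, fun q hq => ?_⟩
  have hb := hR _ hq
  rw [pi_norm_le_iff_of_nonneg hR0] at hb
  have hs : ∀ i, ‖w4 q.1 i + w4 q.2 i‖ ≤ R := fun i => hb (.inl i)
  have hd : ∀ i, ‖w4 q.1 i - w4 q.2 i‖ ≤ R + 1 := fun i => by
    have := hb (.inr (i, i))
    simp only [psi, Sum.elim_inr, norm_mul] at this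
    nlinarith [norm_nonneg (w4 q.1 i - w4 q.2 i)]
  have h1 : ∀ i, ‖w4 q.1 i‖ ≤ R + 1 := fun i => by
    have e : (2 : ℂ) * w4 q.1 i = (w4 q.1 i + w4 q.2 i) + (w4 q.1 i - w4 q.2 i) := by ring
    have h := norm_add_le (w4 q.1 i + w4 q.2 i) (w4 q.1 i - w4 q.2 i)
    rw [← e, norm_mul] at h
    norm_num at h
    linarith [hs i, hd i]
  have h2 : ∀ i, ‖w4 q.2 i‖ ≤ R + 1 := fun i => by
    have e : (2 : ℂ) * w4 q.2 i = (w4 q.1 i + w4 q.2 i) - (w4 q.1 i - w4 q.2 i) := by ring
    have h := norm_sub_le (w4 q.1 i + w4 q.2 i) (w4 q.1 i - w4 q.2 i)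
    rw [← e, norm_mul] at h
    norm_num at h
    linarith [hs i, hd i]
  rw [Prod.norm_def]
  exact max_le (norm_le_of_w4 (by linarith) h1) (norm_le_of_w4 (by linarith) h2)

theorem eq_or_neg {d d' : Fin 4 → ℂ} (h : ∀ i j, d i * d j = d' i * d' j) :
    d = d' ∨ d = fun i => - d' i := by
  by_cases hd : ∀ k, d k = 0
  · left
    funext i
    have := h i i
    rw [hd i, mul_zero] at this
    rw [hd i, mul_self_eq_zero.1 this.symm]
  · push Not at hd
    obtain ⟨k, hk⟩ := hd
    rcases mul_self_eq_mul_self_iff.1 (h k k) with h1 | h1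
    · left
      funext i
      have := h i k
      rw [← h1] at this
      exact mul_right_cancel₀ hk this
    · right
      funext i
      have := h i k
      have h2 : d' k = - d k := by rw [h1, neg_neg]
      rw [h2] at this
      apply mul_right_cancel₀ hk
      rw [this]
      ring

/-- The polynomial of the threefold. -/
def P (v : Fin 4 → ℂ) : ℂ := v 0 ^ 2 + v 1 ^ 2 + v 2 ^ 2 - v 3 ^ 3 + v 3

theorem P_v4 (y : Y) : P (v4 y) = 0 := by
  have := y.2
  simp only [P, v4, Matrix.cons_val_zero, Matrix.cons_val_one, Matrix.cons_val]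
  linear_combination this

/-- The point with given coordinates. -/
def mkY (v : Fin 4 → ℂ) (h : P v = 0) : Y := ⟨(![v 0, v 1, v 2], v 3), by
  simp only [P] at h
  simp only [Matrix.cons_val_zero, Matrix.cons_val_one, Matrix.cons_val]
  linear_combination h⟩

theorem v4_mkY (v : Fin 4 → ℂ) (h : P v = 0) : v4 (mkY v h) = v := by
  funext i
  fin_cases i <;> simp [v4, mkY]

theorem v4_inj {y y' : Y} (h : v4 y = v4 y') : y = y' := by
  apply Subtype.ext
  refine Prod.ext ?_ ?_
  · funext i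
    fin_cases i
    · exact congrFun h 0
    · exact congrFun h 1
    · exact congrFun h 2
  · exact congrFun h 3

/-- The map of the pairs. -/
def phi0 (q : Y × Y) : J → ℂ := psi (q.1.1, q.2.1)

theorem phi0_mem (q : Y × Y) : ∀ f ∈ eqX, MvPolynomial.eval (phi0 q) f = 0 := by
  rw [mem_eqX]
  have h1 := q.1.2
  have h2 := q.2.2
  refine ⟨fun i j => ?_, fun i j k l => ?_, ?_, fun k => ?_⟩
  · simp only [phi0, psi, Sum.elim_inr]; ring
  · simp only [phi0, psi, Sum.elim_inr]; ring
  · simp only [phi0, psi, Sum.elim_inr, Sum.elim_inl, Fin.sum_univ_three, w4,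
      Fin.castSucc_zero, Fin.isValue, Matrix.cons_val_zero, Matrix.cons_val_one, Matrix.cons_val,
      show (Fin.castSucc (1 : Fin 3)) = 1 from rfl, show (Fin.castSucc (2 : Fin 3)) = 2 from rfl]
    linear_combination h1 + h2
  · simp only [phi0, psi, Sum.elim_inr, Sum.elim_inl, Fin.sum_univ_three, w4,
      Fin.castSucc_zero, Fin.isValue, Matrix.cons_val_zero, Matrix.cons_val_one, Matrix.cons_val,
      show (Fin.castSucc (1 : Fin 3)) = 1 from rfl, show (Fin.castSucc (2 : Fin 3)) = 2 from rfl]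
    generalize (![q.1.1.1 0, q.1.1.1 1, q.1.1.1 2, q.1.1.2] k -
      ![q.2.1.1 0, q.2.1.1 1, q.2.1.1 2, q.2.1.2] k) = e
    linear_combination e * h1 - e * h2

/-- The map from pairs to the variety. -/
def Phi (q : Y × Y) : Zer eqX := ⟨phi0 q, phi0_mem q⟩

theorem continuous_Phi : Continuous Phi := by
  refine Continuous.subtype_mk ?_ _
  exact continuous_psi.comp (by fun_prop)

theorem isClosed_Y : IsClosed {p : E | p.1 0 ^ 2 + p.1 1 ^ 2 + p.1 2 ^ 2 = p.2 ^ 3 - p.2} :=
  isClosed_eq (by fun_prop) (by fun_prop)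

theorem isClosedMap_Phi : IsClosedMap Phi := by
  intro C hC
  have hι : Topology.IsClosedEmbedding fun q : Y × Y => ((q.1.1, q.2.1) : E × E) :=
    (isClosed_Y.isClosedEmbedding_subtypeVal).prodMap (isClosed_Y.isClosedEmbedding_subtypeVal)
  have h1 : IsClosed (psi '' ((fun q : Y × Y => ((q.1.1, q.2.1) : E × E)) '' C)) :=
    proper_psi.isClosedMap _ (hι.isClosedMap _ hC)
  have h2 : Phi '' C = (fun v : Zer eqX => v.1) ⁻¹'
      (psi '' ((fun q : Y × Y => ((q.1.1, q.2.1) : E × E)) '' C)) := by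
    ext v
    constructor
    · rintro ⟨q, hq, rfl⟩
      exact ⟨_, ⟨q, hq, rfl⟩, rfl⟩
    · rintro ⟨_, ⟨q, hq, rfl⟩, h⟩
      exact ⟨q, hq, Subtype.ext h⟩
  rw [h2]
  exact h1.preimage continuous_subtype_val

theorem Phi_surj : Function.Surjective Phi := by
  rintro ⟨v, hv⟩
  obtain ⟨h1, h2, h3, h4⟩ := (mem_eqX v).1 hv
  obtain ⟨d, hd⟩ : ∃ d : Fin 4 → ℂ, ∀ i j, v (.inr (i, j)) = d i * d j := by
    by_cases hk : ∀ k, v (.inr (k, k)) = 0
    · refine ⟨0, fun i j => ?_⟩
      have := h2 i j i j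
      rw [hk i, zero_mul, mul_self_eq_zero] at this
      simp [this]
    · push Not at hk
      obtain ⟨k, hk⟩ := hk
      obtain ⟨c, hc⟩ := IsAlgClosed.exists_pow_nat_eq (v (.inr (k, k))) (n := 2) (by norm_num)
      have hc0 : c ≠ 0 := by
        rintro rfl
        exact hk (by rw [← hc]; norm_num)
      refine ⟨fun i => v (.inr (i, k)) / c, fun i j => ?_⟩
      have := h2 i j k k
      field_simp
      rw [hc]
      exact this
  set s : Fin 4 → ℂ := fun i => v (.inl i) with hs
  set a : Fin 4 → ℂ := fun i => (s i + d i) / 2 with ha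
  set b : Fin 4 → ℂ := fun i => (s i - d i) / 2 with hb
  have hsum : P a + P b = 0 := by
    rw [← h3]
    simp only [Fin.sum_univ_three, hd, P, ha, hb, hs, Fin.castSucc_zero,
      show (Fin.castSucc (1 : Fin 3)) = 1 from rfl, show (Fin.castSucc (2 : Fin 3)) = 2 from rfl]
    ring
  have hdiff : ∀ k, (P a - P b) * d k = 0 := by
    intro k
    rw [← h4 k]
    simp only [Fin.sum_univ_three, hd, P, ha, hb, hs, Fin.castSucc_zero,
      show (Fin.castSucc (1 : Fin 3)) = 1 from rfl, show (Fin.castSucc (2 : Fin 3)) = 2 from rfl]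
    ring
  have heq : P a - P b = 0 := by
    by_cases hd0 : ∀ k, d k = 0
    · have : a = b := by
        funext i
        simp [ha, hb, hd0 i]
      rw [this, sub_self]
    · push Not at hd0
      obtain ⟨k, hk⟩ := hd0
      exact (mul_eq_zero.1 (hdiff k)).resolve_right hk
  have hPa : P a = 0 := by linear_combination (hsum + heq) / 2
  have hPb : P b = 0 := by linear_combination (hsum - heq) / 2
  refine ⟨(mkY a hPa, mkY b hPb), ?_⟩
  apply Subtype.ext
  have ea : w4 (mkY a hPa).1 = a := v4_mkY a hPa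
  have eb : w4 (mkY b hPb).1 = b := v4_mkY b hPb
  funext j
  rcases j with i | ⟨i, j⟩
  · change w4 (mkY a hPa).1 i + w4 (mkY b hPb).1 i = v (.inl i)
    rw [ea, eb]
    simp only [ha, hb, hs]
    ring
  · change (w4 (mkY a hPa).1 i - w4 (mkY b hPb).1 i) *
      (w4 (mkY a hPa).1 j - w4 (mkY b hPb).1 j) = v (.inr (i, j))
    rw [ea, eb, hd i j]
    simp only [ha, hb]
    ring

theorem Phi_eq_iff (q q' : Y × Y) : Phi q = Phi q' ↔ q' = q ∨ q' = q.swap := by
  constructor
  · intro h
    have h' : phi0 q = phi0 q' := congrArg Subtype.val h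
    have hs : ∀ i, v4 q.1 i + v4 q.2 i = v4 q'.1 i + v4 q'.2 i := fun i => congrFun h' (.inl i)
    have hd : ∀ i j, (v4 q.1 i - v4 q.2 i) * (v4 q.1 j - v4 q.2 j) =
        (v4 q'.1 i - v4 q'.2 i) * (v4 q'.1 j - v4 q'.2 j) := fun i j => congrFun h' (.inr (i, j))
    rcases eq_or_neg (d := fun i => v4 q.1 i - v4 q.2 i) (d' := fun i => v4 q'.1 i - v4 q'.2 i)
      hd with hc | hc
    · left
      have hc' : ∀ i, v4 q.1 i - v4 q.2 i = v4 q'.1 i - v4 q'.2 i := fun i => congrFun hc i
      refine Prod.ext (v4_inj ?_) (v4_inj ?_)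
      · funext i
        linear_combination - (hs i + hc' i) / 2
      · funext i
        linear_combination - (hs i - hc' i) / 2
    · right
      have hc' : ∀ i, v4 q.1 i - v4 q.2 i = -(v4 q'.1 i - v4 q'.2 i) := fun i => congrFun hc i
      refine Prod.ext (v4_inj ?_) (v4_inj ?_)
      · funext i
        change v4 q'.1 i = v4 q.2 i
        linear_combination - (hs i - hc' i) / 2
      · funext i
        change v4 q'.2 i = v4 q.1 i
        linear_combination - (hs i + hc' i) / 2
  · rintro (rfl | rfl)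
    · rfl
    · apply Subtype.ext
      funext j
      rcases j with i | ⟨i, j⟩
      · change w4 q.1.1 i + w4 q.2.1 i = w4 q.2.1 i + w4 q.1.1 i
        ring
      · change (w4 q.1.1 i - w4 q.2.1 i) * (w4 q.1.1 j - w4 q.2.1 j) =
          (w4 q.2.1 i - w4 q.1.1 i) * (w4 q.2.1 j - w4 q.1.1 j)
        ring

/-- The map of the symmetric square. -/
def Ph : SP Y → Zer eqX := Quot.lift Phi fun q q' h => (Phi_eq_iff q q').2 h

theorem Ph_bij : Function.Bijective Ph := by
  constructor
  · intro p p' h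
    induction p using Quot.ind with | mk q =>
    induction p' using Quot.ind with | mk q' =>
    exact Quot.sound ((Phi_eq_iff q q').1 h)
  · intro v
    obtain ⟨q, rfl⟩ := Phi_surj v
    exact ⟨Quot.mk _ q, rfl⟩

theorem continuous_Ph : Continuous Ph := continuous_quot_lift _ continuous_Phi

theorem isClosedMap_Ph : IsClosedMap Ph := by
  intro C hC
  have h1 : IsClosed ((fun q : Y × Y => (Quot.mk _ q : SP Y)) ⁻¹' C) :=
    hC.preimage continuous_quot_mk
  have h2 : Ph '' C = Phi '' ((fun q : Y × Y => (Quot.mk _ q : SP Y)) ⁻¹' C) := by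
    ext v
    constructor
    · rintro ⟨p, hp, rfl⟩
      induction p using Quot.ind with | mk q =>
      exact ⟨q, hp, rfl⟩
    · rintro ⟨q, hq, rfl⟩
      exact ⟨Quot.mk _ q, hq, rfl⟩
  rw [h2]
  exact isClosedMap_Phi _ h1

end PG1

open PG1 in
/-- G1: the symmetric square as an affine variety -/
theorem p_G1 : S_G1 :=
  ⟨(Equiv.ofBijective Ph Ph_bij).toHomeomorphOfContinuousClosed continuous_Ph isClosedMap_Ph,
    fun _ _ => rfl⟩

end

end Run7.h592
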