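import Pool.Agent.Run7.h592.Tasks

/-!
# Piece G2: the product of the projective elliptic curve and of the projective quadric is closed
and smooth in the Segre embedding
-/

set_option autoImplicit false

open scoped Topology LinearAlgebra.Projectivization

namespace Run7.h592

open Pool.Agent.Y209.HB

noncomputable section

namespace PG2

/-- The index set. -/
abbrev K34 : Type := Fin 3 × Fin 4

open MvPolynomial in
/-- minors -/
def mi (i k : Fin 3) (j l : Fin 4) : MvPolynomial K34 ℂ := X (i, j) * X (k, l) - X (i, l) * X (k, j)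

open MvPolynomial in
/-- the cubic of the column `l` -/
def cu (l : Fin 4) : MvPolynomial K34 ℂ :=
  X (0, l) ^ 2 * X (2, l) - X (1, l) ^ 3 + X (1, l) * X (2, l) ^ 2

open MvPolynomial in
/-- the quadric of the row `k` -/
def qu (k : Fin 3) : MvPolynomial K34 ℂ :=
  X (k, 0) ^ 2 + X (k, 1) ^ 2 + X (k, 2) ^ 2 - X (k, 3) ^ 2

open MvPolynomial in
theorem mi_hom (i k : Fin 3) (j l : Fin 4) : Hom (mi i k j l) := by
  refine ⟨2, ?_⟩
  unfold mi
  exact ((isHomogeneous_X ℂ _).mul (isHomogeneous_X ℂ _)).sub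
    ((isHomogeneous_X ℂ _).mul (isHomogeneous_X ℂ _))

open MvPolynomial in
theorem cu_hom (l : Fin 4) : Hom (cu l) := by
  refine ⟨3, ?_⟩
  unfold cu
  have h1 : (X (0, l) ^ 2 * X (2, l) : MvPolynomial K34 ℂ).IsHomogeneous 3 :=
    ((isHomogeneous_X ℂ _).pow 2).mul (isHomogeneous_X ℂ _)
  have h2 : (X (1, l) ^ 3 : MvPolynomial K34 ℂ).IsHomogeneous 3 := by
    simpa using (isHomogeneous_X ℂ (1, l)).pow 3
  have h3 : (X (1, l) * X (2, l) ^ 2 : MvPolynomial K34 ℂ).IsHomogeneous 3 :=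
    (isHomogeneous_X ℂ _).mul ((isHomogeneous_X ℂ _).pow 2)
  exact (h1.sub h2).add h3

open MvPolynomial in
theorem qu_hom (k : Fin 3) : Hom (qu k) := by
  refine ⟨2, ?_⟩
  unfold qu
  have h : ∀ j : Fin 4, (X (k, j) ^ 2 : MvPolynomial K34 ℂ).IsHomogeneous 2 := fun j => by
    simpa using (isHomogeneous_X ℂ (k, j)).pow 2
  exact (((h 0).add (h 1)).add (h 2)).sub (h 3)

theorem eval_mi (M : K34 → ℂ) (i k : Fin 3) (j l : Fin 4) :
    MvPolynomial.eval M (mi i k j l) = M (i, j) * M (k, l) - M (i, l) * M (k, j) := by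
  simp [mi]

theorem eval_cu (M : K34 → ℂ) (l : Fin 4) : MvPolynomial.eval M (cu l) =
    M (0, l) ^ 2 * M (2, l) - M (1, l) ^ 3 + M (1, l) * M (2, l) ^ 2 := by
  simp [cu]

theorem eval_qu (M : K34 → ℂ) (k : Fin 3) : MvPolynomial.eval M (qu k) =
    M (k, 0) ^ 2 + M (k, 1) ^ 2 + M (k, 2) ^ 2 - M (k, 3) ^ 2 := by
  simp [qu]

/-- The equations hold on the product. -/
theorem eqs_of_mem {p : ℙ ℂ (K34 → ℂ)} (hp : p ∈ segZ) : (∀ i k j l, Van (mi i k j l) p) ∧
    (∀ l, Van (cu l) p) ∧ ∀ k, Van (qu k) p := by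
  obtain ⟨u, v, h, h1, h2, rfl⟩ := hp
  obtain ⟨a, ha⟩ := Projectivization.exists_smul_eq_mk_rep ℂ
    (fun ij : Fin 3 × Fin 4 => u ij.1 * v ij.2) h
  have hM : ∀ i j, (Projectivization.mk ℂ (fun ij : Fin 3 × Fin 4 => u ij.1 * v ij.2) h).rep
      (i, j) = a * (u i * v j) := by
    intro i j
    rw [← ha]
    rfl
  refine ⟨fun i k j l => ?_, fun l => ?_, fun k => ?_⟩
  · unfold Van
    rw [eval_mi]
    simp only [hM]
    ring
  · unfold Van
    rw [eval_cu]
    simp only [hM]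
    linear_combination (a : ℂ) ^ 3 * v l ^ 3 * h1
  · unfold Van
    rw [eval_qu]
    simp only [hM]
    linear_combination (a : ℂ) ^ 2 * u k ^ 2 * h2

/-- Local equations are sufficient. -/
theorem mem_of_eqs {p : ℙ ℂ (K34 → ℂ)} (k : Fin 3) (l : Fin 4) (hkl : p.rep (k, l) ≠ 0)
    (h1 : ∀ i, i ≠ k → ∀ j, j ≠ l → Van (mi i k j l) p) (h2 : Van (cu l) p)
    (h3 : Van (qu k) p) : p ∈ segZ := by
  set M := p.rep with hM
  have hmin : ∀ i j, M (i, j) * M (k, l) = M (i, l) * M (k, j) := by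
    intro i j
    by_cases hi : i = k
    · rw [hi]; ring
    by_cases hj : j = l
    · rw [hj]
    have := h1 i hi j hj
    unfold Van at this
    rw [eval_mi] at this
    linear_combination this
  have e : (fun ij : Fin 3 × Fin 4 => M (ij.1, l) * (M (k, ij.2) / M (k, l))) = M := by
    funext ij
    obtain ⟨i, j⟩ := ij
    have := hmin i j
    field_simp
    linear_combination -this
  have hne : (fun ij : Fin 3 × Fin 4 => M (ij.1, l) * (M (k, ij.2) / M (k, l))) ≠ 0 := by
    rw [e]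
    exact p.rep_nonzero
  refine ⟨fun i => M (i, l), fun j => M (k, j) / M (k, l), hne, ?_, ?_, ?_⟩
  · unfold Van at h2
    rw [eval_cu] at h2
    linear_combination h2
  · unfold Van at h3
    rw [eval_qu] at h3
    simp only [div_pow]
    rw [← add_div, ← add_div]
    congr 1
    linear_combination h3
  · rw [← Projectivization.mk_rep p]
    congr 1
    exact e.symm

/-- the equations -/
def Seq : Set (MvPolynomial K34 ℂ) :=
  {f | (∃ i k j l, f = mi i k j l) ∨ (∃ l, f = cu l) ∨ ∃ k, f = qu k}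

theorem Seq_hom : ∀ f ∈ Seq, Hom f := by
  rintro f (⟨i, k, j, l, rfl⟩ | ⟨l, rfl⟩ | ⟨k, rfl⟩)
  · exact mi_hom i k j l
  · exact cu_hom l
  · exact qu_hom k

theorem mem_iff (p : ℙ ℂ (K34 → ℂ)) : p ∈ segZ ↔ ∀ f ∈ Seq, Van f p := by
  constructor
  · intro hp
    obtain ⟨h1, h2, h3⟩ := eqs_of_mem hp
    rintro f (⟨i, k, j, l, rfl⟩ | ⟨l, rfl⟩ | ⟨k, rfl⟩)
    · exact h1 i k j l
    · exact h2 l
    · exact h3 k
  · intro h
    obtain ⟨⟨k, l⟩, hkl⟩ := Function.ne_iff.1 p.rep_nonzero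
    exact mem_of_eqs k l hkl (fun i _ j _ => h _ (Or.inl ⟨i, k, j, l, rfl⟩))
      (h _ (Or.inr (Or.inl ⟨l, rfl⟩))) (h _ (Or.inr (Or.inr ⟨k, rfl⟩)))

theorem isQP : IsQuasiProjective segZ := by
  refine ⟨Seq, {1}, Seq_hom, ?_, fun p => ?_⟩
  · rintro g rfl
    exact ⟨0, MvPolynomial.isHomogeneous_one _ _⟩
  · rw [mem_iff]
    constructor
    · intro h
      exact ⟨h, 1, rfl, by simp [Van]⟩
    · exact fun h => h.1

/-! ## Smoothness -/

theorem qp_quot {ι : Type} : Topology.IsQuotientMap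
    (fun v : {v : ι → ℂ // v ≠ 0} => Projectivization.mk ℂ v.1 v.2) := isQuotientMap_quotient_mk'

theorem isOpen_rep {ι : Type} (i : ι) : IsOpen {q : ℙ ℂ (ι → ℂ) | q.rep i ≠ 0} := by
  rw [← qp_quot.isOpen_preimage]
  have : (fun v : {v : ι → ℂ // v ≠ 0} => Projectivization.mk ℂ v.1 v.2) ⁻¹'
      {q : ℙ ℂ (ι → ℂ) | q.rep i ≠ 0} = {v | v.1 i ≠ 0} := by
    ext v
    obtain ⟨a, ha⟩ := Projectivization.exists_smul_eq_mk_rep ℂ v.1 v.2
    have h : (Projectivization.mk ℂ v.1 v.2).rep i = (a : ℂ) * v.1 i := by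
      rw [← ha]
      rfl
    change (Projectivization.mk ℂ v.1 v.2).rep i ≠ 0 ↔ v.1 i ≠ 0
    rw [h]
    exact mul_ne_zero_iff_left a.ne_zero
  rw [this]
  exact isOpen_ne_fun ((continuous_apply i).comp continuous_subtype_val) continuous_const

/-- index set of the local equations -/
abbrev Idx (k : Fin 3) (l : Fin 4) : Type := ({i : Fin 3 // i ≠ k} × {j : Fin 4 // j ≠ l}) ⊕ Bool

/-- the local equations -/
def loc (k : Fin 3) (l : Fin 4) : Idx k l → MvPolynomial K34 ℂ
  | .inl ij => mi ij.1 k ij.2 l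
  | .inr true => cu l
  | .inr false => qu k

/-- the Kronecker symbol -/
def dl (s t : K34) : ℂ := if t = s then 1 else 0

theorem pd_X (M : K34 → ℂ) (s t : K34) :
    MvPolynomial.eval M (MvPolynomial.pderiv s (MvPolynomial.X t)) = dl s t := by
  rw [MvPolynomial.pderiv_X, Pi.single_apply, dl]
  split_ifs <;> simp

theorem pd_mi (M : K34 → ℂ) (s : K34) (i k : Fin 3) (j l : Fin 4) :
    MvPolynomial.eval M (MvPolynomial.pderiv s (mi i k j l)) =
      M (i, j) * dl s (k, l) + M (k, l) * dl s (i, j) -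
        (M (i, l) * dl s (k, j) + M (k, j) * dl s (i, l)) := by
  unfold mi
  simp only [map_sub, Derivation.leibniz, smul_eq_mul, map_add, map_mul, MvPolynomial.eval_X, pd_X]

theorem pd_cu (M : K34 → ℂ) (s : K34) (l : Fin 4) :
    MvPolynomial.eval M (MvPolynomial.pderiv s (cu l)) =
      2 * M (0, l) * M (2, l) * dl s (0, l) + (-3 * M (1, l) ^ 2 + M (2, l) ^ 2) * dl s (1, l) +
        (M (0, l) ^ 2 + 2 * M (1, l) * M (2, l)) * dl s (2, l) := by
  unfold cu
  simp only [map_sub, Derivation.leibniz, Derivation.leibniz_pow, smul_eq_mul, map_add, map_mul,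
    MvPolynomial.eval_X, pd_X, nsmul_eq_mul, map_pow, map_natCast]
  norm_num
  ring

theorem pd_qu (M : K34 → ℂ) (s : K34) (k : Fin 3) :
    MvPolynomial.eval M (MvPolynomial.pderiv s (qu k)) =
      2 * M (k, 0) * dl s (k, 0) + 2 * M (k, 1) * dl s (k, 1) + 2 * M (k, 2) * dl s (k, 2) -
        2 * M (k, 3) * dl s (k, 3) := by
  unfold qu
  simp only [map_sub, Derivation.leibniz_pow, smul_eq_mul, map_add, map_mul,
    MvPolynomial.eval_X, pd_X, nsmul_eq_mul, map_pow, map_natCast]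
  norm_num
  ring

/-- the gradient of the cubic -/
def gE (u : Fin 3 → ℂ) : Fin 3 → ℂ :=
  ![2 * u 0 * u 2, -3 * u 1 ^ 2 + u 2 ^ 2, u 0 ^ 2 + 2 * u 1 * u 2]

theorem pd_cu' (M : K34 → ℂ) (l : Fin 4) (i : Fin 3) (j : Fin 4) :
    MvPolynomial.eval M (MvPolynomial.pderiv (i, j) (cu l)) =
      if j = l then gE (fun i => M (i, l)) i else 0 := by
  rw [pd_cu]
  unfold dl
  by_cases hj : j = l
  · subst hj
    fin_cases i <;> simp [gE]
  · have hj' : ¬ l = j := fun h => hj h.symm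
    simp [hj, hj']

/-- the gradient of the quadric -/
def gQ (v : Fin 4 → ℂ) : Fin 4 → ℂ := ![2 * v 0, 2 * v 1, 2 * v 2, -(2 * v 3)]

theorem pd_qu' (M : K34 → ℂ) (k : Fin 3) (i : Fin 3) (j : Fin 4) :
    MvPolynomial.eval M (MvPolynomial.pderiv (i, j) (qu k)) =
      if i = k then gQ (fun j => M (k, j)) j else 0 := by
  rw [pd_qu]
  unfold dl
  by_cases hi : i = k
  · subst hi
    fin_cases j <;> simp [gQ]
  · have hi' : ¬ k = i := fun h => hi h.symm
    simp [hi, hi']

theorem gE_zero {u : Fin 3 → ℂ} (h : gE u = 0) : u = 0 := by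
  have h0 : 2 * u 0 * u 2 = 0 := congrFun h 0
  have h1 : -3 * u 1 ^ 2 + u 2 ^ 2 = 0 := congrFun h 1
  have h2 : u 0 ^ 2 + 2 * u 1 * u 2 = 0 := congrFun h 2
  have key : u 0 = 0 ∧ u 1 = 0 ∧ u 2 = 0 := by
    rcases mul_eq_zero.1 h0 with h3 | h3
    · have h4 : u 0 = 0 := (mul_eq_zero.1 h3).resolve_left (by norm_num)
      rw [h4] at h2
      have h5 : u 1 * u 2 = 0 := by linear_combination h2 / 2
      rcases mul_eq_zero.1 h5 with h6 | h6
      · rw [h6] at h1
        have h7 : u 2 ^ 2 = 0 := by linear_combination h1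
        exact ⟨h4, h6, pow_eq_zero_iff (by norm_num) |>.1 h7⟩
      · rw [h6] at h1
        have h7 : u 1 ^ 2 = 0 := by linear_combination -h1 / 3
        exact ⟨h4, pow_eq_zero_iff (by norm_num) |>.1 h7, h6⟩
    · rw [h3] at h1 h2
      have h7 : u 1 ^ 2 = 0 := by linear_combination -h1 / 3
      have h8 : u 0 ^ 2 = 0 := by linear_combination h2
      exact ⟨pow_eq_zero_iff (by norm_num) |>.1 h8, pow_eq_zero_iff (by norm_num) |>.1 h7, h3⟩
  funext i
  fin_cases i
  · exact key.1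
  · exact key.2.1
  · exact key.2.2

theorem gE_euler (u : Fin 3 → ℂ) : ∑ i, u i * gE u i =
    3 * (u 0 ^ 2 * u 2 - u 1 ^ 3 + u 1 * u 2 ^ 2) := by
  rw [Fin.sum_univ_three]
  simp only [gE, Matrix.cons_val_zero, Matrix.cons_val_one, Matrix.cons_val]
  ring

theorem gQ_zero {v : Fin 4 → ℂ} (h : gQ v = 0) : v = 0 := by
  have h0 : 2 * v 0 = 0 := congrFun h 0
  have h1 : 2 * v 1 = 0 := congrFun h 1
  have h2 : 2 * v 2 = 0 := congrFun h 2
  have h3 : -(2 * v 3) = 0 := congrFun h 3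
  funext i
  fin_cases i
  · exact (mul_eq_zero.1 h0).resolve_left (by norm_num)
  · exact (mul_eq_zero.1 h1).resolve_left (by norm_num)
  · exact (mul_eq_zero.1 h2).resolve_left (by norm_num)
  · exact (mul_eq_zero.1 (neg_eq_zero.1 h3)).resolve_left (by norm_num)

theorem gQ_euler (v : Fin 4 → ℂ) : ∑ i, v i * gQ v i =
    2 * (v 0 ^ 2 + v 1 ^ 2 + v 2 ^ 2 - v 3 ^ 2) := by
  rw [Fin.sum_univ_four]
  simp only [gQ, Matrix.cons_val_zero, Matrix.cons_val_one, Matrix.cons_val]
  ring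

/-- Euler's relation forces the missing component. -/
theorem kill {N : ℕ} {u g : Fin N → ℂ} {c : ℂ} {k : Fin N} (he : ∑ i, u i * g i = 0)
    (h : ∀ i, i ≠ k → c * g i = 0) (hu : u k ≠ 0) (hg : g ≠ 0) : c = 0 := by
  by_contra hc
  apply hg
  have h1 : ∀ i, i ≠ k → g i = 0 := fun i hi => (mul_eq_zero.1 (h i hi)).resolve_left hc
  have h2 : u k * g k = 0 := by
    rw [← he]
    symm
    refine Finset.sum_eq_single k (fun i _ hi => ?_) fun h => absurd (Finset.mem_univ k) h
    rw [h1 i hi, mul_zero]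
  funext i
  by_cases hi : i = k
  · rw [hi]
    exact (mul_eq_zero.1 h2).resolve_left hu
  · exact h1 i hi

theorem pd_mi' (M : K34 → ℂ) (k : Fin 3) (l : Fin 4) (i i' : Fin 3) (j j' : Fin 4)
    (hi : i ≠ k) (hj : j ≠ l) :
    MvPolynomial.eval M (MvPolynomial.pderiv (i, j) (mi i' k j' l)) =
      if (i', j') = (i, j) then M (k, l) else 0 := by
  rw [pd_mi]
  unfold dl
  have h1 : ¬ ((k, l) : K34) = (i, j) := fun h => hi (congrArg Prod.fst h).symm
  have h2 : ¬ ((k, j') : K34) = (i, j) := fun h => hi (congrArg Prod.fst h).symm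
  have h3 : ¬ ((i', l) : K34) = (i, j) := fun h => hj (congrArg Prod.snd h).symm
  rw [if_neg h1, if_neg h2, if_neg h3]
  split_ifs <;> ring

theorem indep {M : K34 → ℂ} (k : Fin 3) (l : Fin 4) (hkl : M (k, l) ≠ 0)
    (h2 : MvPolynomial.eval M (cu l) = 0) (h3 : MvPolynomial.eval M (qu k) = 0) :
    LinearIndependent ℂ (fun (a : Idx k l) (s : K34) =>
      MvPolynomial.eval M (MvPolynomial.pderiv s (loc k l a))) := by
  rw [Fintype.linearIndependent_iff]
  intro g hg
  have hs : ∀ i j, ∑ a : {i : Fin 3 // i ≠ k} × {j : Fin 4 // j ≠ l}, g (.inl a) *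
      MvPolynomial.eval M (MvPolynomial.pderiv (i, j) (mi a.1 k a.2 l)) +
      (g (.inr true) * (if j = l then gE (fun i => M (i, l)) i else 0) +
      g (.inr false) * (if i = k then gQ (fun j => M (k, j)) j else 0)) = 0 := by
    intro i j
    have := congrFun hg (i, j)
    rw [Finset.sum_apply, Fintype.sum_sum_type] at this
    simp only [Pi.smul_apply, smul_eq_mul, Fintype.sum_bool, loc, pd_cu', pd_qu',
      Pi.zero_apply] at this
    exact this
  have hm : ∀ a, g (.inl a) = 0 := by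
    rintro ⟨⟨i, hi⟩, ⟨j, hj⟩⟩
    have := hs i j
    rw [if_neg hj, if_neg hi, mul_zero, mul_zero, add_zero, add_zero,
      Finset.sum_eq_single (⟨⟨i, hi⟩, ⟨j, hj⟩⟩ : {i : Fin 3 // i ≠ k} × {j : Fin 4 // j ≠ l})]
      at this
    · rw [pd_mi' M k l i i j j hi hj, if_pos rfl] at this
      exact (mul_eq_zero.1 this).resolve_right hkl
    · rintro ⟨⟨i', hi'⟩, ⟨j', hj'⟩⟩ - hne
      rw [pd_mi' M k l i i' j j' hi hj, if_neg, mul_zero]
      intro h
      apply hne
      have e1 : i' = i := congrArg Prod.fst h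
      have e2 : j' = j := congrArg Prod.snd h
      subst e1
      subst e2
      rfl
    · exact fun h => absurd (Finset.mem_univ _) h
  have hs' : ∀ i j, g (.inr true) * (if j = l then gE (fun i => M (i, l)) i else 0) +
      g (.inr false) * (if i = k then gQ (fun j => M (k, j)) j else 0) = 0 := by
    intro i j
    have := hs i j
    simp only [hm, zero_mul, Finset.sum_const_zero, zero_add] at this
    exact this
  have hA : g (.inr true) = 0 := by
    refine kill (u := fun i => M (i, l)) (g := gE fun i => M (i, l)) (k := k) ?_ ?_ hkl ?_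
    · rw [gE_euler]
      rw [eval_cu] at h2
      rw [h2, mul_zero]
    · intro i hi
      have := hs' i l
      rw [if_pos rfl, if_neg hi, mul_zero, add_zero] at this
      exact this
    · intro h
      have := congrFun (gE_zero h) k
      exact hkl this
  have hB : g (.inr false) = 0 := by
    refine kill (u := fun j => M (k, j)) (g := gQ fun j => M (k, j)) (k := l) ?_ ?_ hkl ?_
    · rw [gQ_euler]
      rw [eval_qu] at h3
      rw [h3, mul_zero]
    · intro j hj
      have := hs' k j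
      rw [if_pos rfl, if_neg hj, mul_zero, zero_add] at this
      exact this
    · intro h
      have := congrFun (gQ_zero h) l
      exact hkl this
  rintro (a | (_ | _))
  · exact hm a
  · exact hB
  · exact hA

theorem loc_hom (k : Fin 3) (l : Fin 4) (a : Idx k l) : Hom (loc k l a) := by
  rcases a with a | (_ | _)
  · exact mi_hom _ _ _ _
  · exact qu_hom k
  · exact cu_hom l

theorem loc_van (k : Fin 3) (l : Fin 4) {q : ℙ ℂ (K34 → ℂ)} (hq : q ∈ segZ) (a : Idx k l) :
    Van (loc k l a) q := by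
  obtain ⟨h1, h2, h3⟩ := eqs_of_mem hq
  rcases a with a | (_ | _)
  · exact h1 _ _ _ _
  · exact h3 k
  · exact h2 l

theorem smooth : IsSmooth (segVar isQP) := by
  intro p hp
  obtain ⟨h1, h2, h3⟩ := eqs_of_mem hp
  obtain ⟨⟨k, l⟩, hkl⟩ := Function.ne_iff.1 p.rep_nonzero
  let e := Fintype.equivFin (Idx k l)
  refine ⟨Fintype.card (Idx k l), fun j => loc k l (e.symm j), ?_, ?_,
    {q | q.rep (k, l) ≠ 0}, (isOpen_rep (k, l)).mem_nhds hkl, ?_⟩
  · exact fun j => loc_hom k l _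
  · exact (indep k l hkl (h2 l) (h3 k)).comp e.symm e.symm.injective
  · intro q hq
    constructor
    · exact fun hq2 j => loc_van k l hq2 _
    · intro h
      have h' : ∀ a, Van (loc k l a) q := fun a => by
        have := h (e a)
        simp only [Equiv.symm_apply_apply] at this
        exact this
      exact mem_of_eqs k l hq (fun i hi j hj => h' (.inl (⟨i, hi⟩, ⟨j, hj⟩))) (h' (.inr true))
        (h' (.inr false))

end PG2

/-- G2 -/
theorem p_G2 : S_G2 := ⟨PG2.isQP, ⟨PG2.Seq, PG2.Seq_hom, PG2.mem_iff⟩, PG2.smooth⟩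

end

end Run7.h592
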