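import Pool.Agent.Run7.h592.Tasks

/-! H1: linear algebra of mixed Hodge structures. -/

set_option autoImplicit false

open scoped TensorProduct

namespace Run7.h592

noncomputable section

section Basic

variable {H : Type} [AddCommGroup H] [Module ℚ H]

theorem cj_cj (x : ℂ ⊗[ℚ] H) : cj H (cj H x) = x := by
  induction x using TensorProduct.induction_on with
  | zero => simp
  | tmul a b => simp [cj]
  | add x y hx hy => rw [map_add, map_add, hx, hy]

theorem mem_cjS (S : Submodule ℂ (ℂ ⊗[ℚ] H)) (x : ℂ ⊗[ℚ] H) : x ∈ cjS S ↔ cj H x ∈ S := Iff.rfl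

theorem cjS_mono {S T : Submodule ℂ (ℂ ⊗[ℚ] H)} (h : S ≤ T) : cjS S ≤ cjS T := fun _ hx => h hx

theorem tmul_inj {x : H} (h : (1 : ℂ) ⊗ₜ[ℚ] x = 0) : x = 0 := by
  have := Module.Flat.tensorProduct_mk_injective (R := ℚ) (S := ℂ) (M := H)
  apply this
  change (1 : ℂ) ⊗ₜ[ℚ] x = (1 : ℂ) ⊗ₜ[ℚ] (0 : H)
  rw [h, TensorProduct.tmul_zero]

theorem mem_of_tmul (W : Submodule ℚ H) {x : H} (h : (1 : ℂ) ⊗ₜ[ℚ] x ∈ W.baseChange ℂ) : x ∈ W := by
  have h1 : W.baseChange ℂ ≤ LinearMap.ker (W.mkQ.baseChange ℂ) := by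
    rw [Submodule.baseChange_eq_span, Submodule.span_le]
    rintro _ ⟨y, hy, rfl⟩
    change (W.mkQ.baseChange ℂ) ((1 : ℂ) ⊗ₜ[ℚ] y) = 0
    rw [LinearMap.baseChange_tmul, (Submodule.Quotient.mk_eq_zero W).2 hy |> fun h => (h : W.mkQ y = 0),
      TensorProduct.tmul_zero]
  have h2 := h1 h
  rw [LinearMap.mem_ker, LinearMap.baseChange_tmul] at h2
  exact (Submodule.Quotient.mk_eq_zero W).1 (tmul_inj h2)

theorem cj_WC (m : Fil H) (n : ℤ) {x : ℂ ⊗[ℚ] H} (hx : x ∈ m.WC n) : cj H x ∈ m.WC n := by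
  have : m.WC n ≤ cjS (m.WC n) := by
    unfold Fil.WC
    rw [Submodule.baseChange_eq_span, Submodule.span_le]
    rintro _ ⟨y, hy, rfl⟩
    change cj H ((1 : ℂ) ⊗ₜ[ℚ] y) ∈ Submodule.span ℂ _
    have : cj H ((1 : ℂ) ⊗ₜ[ℚ] y) = (1 : ℂ) ⊗ₜ[ℚ] y := by simp [cj]
    rw [this]
    exact Submodule.subset_span ⟨y, hy, rfl⟩
  exact this hx

variable {m : Fil H} (hm : IsMHS m)

include hm in
theorem WC_mono : Monotone m.WC := fun _ _ h => Submodule.baseChange_mono ℂ (hm.mono h)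

theorem WC_le_G (m : Fil H) (n p : ℤ) : m.WC (n - 1) ≤ m.G n p := le_sup_right

include hm in
theorem G_le_WC (n p : ℤ) : m.G n p ≤ m.WC n :=
  sup_le inf_le_right (WC_mono hm (by omega))

include hm in
theorem G_anti (n : ℤ) : Antitone (m.G n) := fun _ _ h =>
  sup_le_sup_right (inf_le_inf_right _ (hm.anti h)) _

include hm in
theorem Gc_anti (n : ℤ) : Antitone (m.Gc n) := fun _ _ h =>
  sup_le_sup_right (inf_le_inf_right _ (cjS_mono (hm.anti h))) _

/-- conjugation exchanges `G` and `Gc` -/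
theorem cj_G (n p : ℤ) {x : ℂ ⊗[ℚ] H} (hx : x ∈ m.G n p) : cj H x ∈ m.Gc n p := by
  obtain ⟨y, hy, w, hw, rfl⟩ := Submodule.mem_sup.1 hx
  rw [map_add]
  refine Submodule.add_mem_sup ⟨?_, cj_WC m n hy.2⟩ (cj_WC m _ hw)
  change cj H (cj H y) ∈ m.F p
  rw [cj_cj]
  exact hy.1

theorem cj_Gc (n p : ℤ) {x : ℂ ⊗[ℚ] H} (hx : x ∈ m.Gc n p) : cj H x ∈ m.G n p := by
  obtain ⟨y, hy, w, hw, rfl⟩ := Submodule.mem_sup.1 hx
  rw [map_add]
  exact Submodule.add_mem_sup ⟨hy.1, cj_WC m n hy.2⟩ (cj_WC m _ hw)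

include hm in
/-- Lemma A: `W_n` is spanned by the pieces `(p, n - p)` -/
theorem lemA (n : ℤ) (S : Submodule ℂ (ℂ ⊗[ℚ] H))
    (h : ∀ p, m.G n p ⊓ m.Gc n (n - p) ≤ S) : m.WC n ≤ S := by
  have h0 : m.WC (n - 1) ≤ S := le_trans (le_inf le_sup_right le_sup_right) (h 0)
  obtain ⟨b, hb⟩ := hm.Fbot
  obtain ⟨a, ha⟩ := hm.Ftop
  have key : ∀ k : ℕ, m.G n (b - k) ≤ S := by
    intro k
    induction k with
    | zero =>
      rw [Nat.cast_zero, sub_zero]
      unfold Fil.G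
      rw [hb, bot_inf_eq, bot_sup_eq]
      exact h0
    | succ k ih =>
      intro x hx
      have hx1 : x ∈ m.G n (b - k) ⊔ m.Gc n (n + 1 - (b - k)) := by
        rw [hm.sup]
        exact G_le_WC hm _ _ hx
      obtain ⟨y, hy, w, hw, rfl⟩ := Submodule.mem_sup.1 hx1
      refine S.add_mem (ih hy) (h (b - (k + 1 : ℕ)) ⟨?_, ?_⟩)
      · have h2 : y ∈ m.G n (b - (k + 1 : ℕ)) := G_anti hm n (by push_cast; omega) hy
        have h3 := Submodule.sub_mem _ hx h2
        rwa [add_sub_cancel_left] at h3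
      · have e : n - (b - (k + 1 : ℕ)) = n + 1 - (b - k) := by push_cast; ring
        rw [e]
        exact hw
  have h1 : m.WC n ≤ m.G n (b - ((b - a).toNat : ℕ)) := by
    have h2 : m.F (b - ((b - a).toNat : ℕ)) = ⊤ := by
      rw [eq_top_iff, ← ha]
      apply hm.anti
      have := Int.self_le_toNat (b - a)
      omega
    unfold Fil.G
    rw [h2, top_inf_eq]
    exact le_sup_left
  exact h1.trans (key _)

include hm in
/-- Lemma B: vanishing -/
theorem lemB (n p q : ℤ) (hpq : n < p + q) (y : ℂ ⊗[ℚ] H) (h1 : y ∈ m.F p) (h2 : y ∈ cjS (m.F q))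
    (h3 : y ∈ m.WC n) : y = 0 := by
  have key : ∀ k : ℕ, y ∈ m.WC (n - k) := by
    intro k
    induction k with
    | zero => simpa using h3
    | succ k ih =>
      have e1 : y ∈ m.G (n - k) p := Submodule.mem_sup_left ⟨h1, ih⟩
      have e2 : y ∈ m.Gc (n - k) (n - k + 1 - p) :=
        Submodule.mem_sup_left ⟨cjS_mono (hm.anti (by omega)) h2, ih⟩
      have e3 : y ∈ m.G (n - k) p ⊓ m.Gc (n - k) (n - k + 1 - p) := ⟨e1, e2⟩
      rw [hm.inf] at e3
      have e4 : n - k - 1 = n - (k + 1 : ℕ) := by push_cast; ring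
      rwa [e4] at e3
  obtain ⟨a, ha⟩ := hm.bot
  have h4 := WC_mono hm (a := n - ((n - a).toNat : ℕ)) (b := a) (by
    have := Int.self_le_toNat (n - a)
    omega) (key _)
  unfold Fil.WC at h4
  rw [ha, Submodule.baseChange_bot] at h4
  exact h4

theorem W_le_of_WC (m : Fil H) (a b : ℤ) (h : m.WC a ≤ m.WC b) : m.W a ≤ m.W b := fun _ hx =>
  mem_of_tmul _ (h (Submodule.tmul_mem_baseChange_of_mem _ hx))

end Basic

section Mor

variable {H K : Type} [AddCommGroup H] [Module ℚ H] [AddCommGroup K] [Module ℚ K]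

theorem bc_cj (f : H →ₗ[ℚ] K) (x : ℂ ⊗[ℚ] H) :
    cj K (f.baseChange ℂ x) = f.baseChange ℂ (cj H x) := by
  induction x using TensorProduct.induction_on with
  | zero => simp
  | tmul a b => simp [cj]
  | add x y hx hy => rw [map_add, map_add, hx, hy, map_add, map_add]

theorem bc_WC {m : Fil H} {m' : Fil K} (f : H →ₗ[ℚ] K) (n : ℤ) (h : ∀ x ∈ m.W n, f x ∈ m'.W n)
    {x : ℂ ⊗[ℚ] H} (hx : x ∈ m.WC n) : f.baseChange ℂ x ∈ m'.WC n := by
  have : m.WC n ≤ (m'.WC n).comap (f.baseChange ℂ) := by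
    unfold Fil.WC
    rw [Submodule.baseChange_eq_span, Submodule.span_le]
    rintro _ ⟨y, hy, rfl⟩
    change f.baseChange ℂ ((1 : ℂ) ⊗ₜ[ℚ] y) ∈ m'.WC n
    rw [LinearMap.baseChange_tmul]
    exact Submodule.tmul_mem_baseChange_of_mem _ (h y hy)
  exact this hx

theorem bc_cjF {m : Fil H} {m' : Fil K} (f : H →ₗ[ℚ] K) (p : ℤ)
    (h : ∀ x ∈ m.F p, f.baseChange ℂ x ∈ m'.F p) {x : ℂ ⊗[ℚ] H} (hx : x ∈ cjS (m.F p)) :
    f.baseChange ℂ x ∈ cjS (m'.F p) := by
  change cj K (f.baseChange ℂ x) ∈ m'.F p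
  rw [bc_cj]
  exact h _ hx

theorem eq_zero_of_bc (f : H →ₗ[ℚ] K) (h : ∀ x, f.baseChange ℂ x = 0) : f = 0 := by
  ext x
  have := h ((1 : ℂ) ⊗ₜ[ℚ] x)
  rw [LinearMap.baseChange_tmul] at this
  exact tmul_inj this

end Mor

/-- a space of dimension at most two with nonzero weight-three part is pure of weight three -/
theorem pure_three {H : Type} [AddCommGroup H] [Module ℚ H] [Module.Finite ℚ H] {m : Fil H}
    (hm : IsMHS m) (hd : Module.finrank ℚ H ≤ 2) (h : ¬ m.W 3 ≤ m.W 2) :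
    m.W 3 = ⊤ ∧ m.W 2 = ⊥ := by
  have h1 : ¬ m.WC 3 ≤ m.WC 2 := fun h' => h (W_le_of_WC m 3 2 h')
  obtain ⟨p, hp⟩ : ∃ p, ¬ m.G 3 p ⊓ m.Gc 3 (3 - p) ≤ m.WC 2 := by
    by_contra hn
    push Not at hn
    exact h1 (lemA hm 3 _ hn)
  obtain ⟨x, hx, hx2⟩ := Set.not_subset.1 hp
  have hx3 : cj H x ∉ m.WC 2 := by
    intro h'
    apply hx2
    have := cj_WC m 2 h'
    rwa [cj_cj] at this
  have cx1 : cj H x ∈ m.Gc 3 p := cj_G _ _ hx.1
  have cx2 : cj H x ∈ m.G 3 (3 - p) := cj_Gc _ _ hx.2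
  have ind : ∀ α β : ℂ, α • x + β • cj H x ∈ m.WC 2 → α = 0 ∧ β = 0 := by
    intro α β hab
    have hα : α • x ∈ m.WC 2 := by
      rcases lt_or_ge p (3 - p) with hlt | hge
      · -- `x ∈ Gc 3 (3 - p)`, `cj x ∈ G 3 (3 - p)`
        have e1 : α • x ∈ m.Gc 3 (3 + 1 - (3 - p)) :=
          (m.Gc _ _).smul_mem _ (Gc_anti hm 3 (by omega) hx.2)
        have e2 : α • x ∈ m.G 3 (3 - p) := by
          have e3 : α • x = (α • x + β • cj H x) - β • cj H x := by abel
          rw [e3]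
          exact Submodule.sub_mem _ (WC_le_G m 3 (3 - p) hab) ((m.G _ _).smul_mem _ cx2)
        have e4 : α • x ∈ m.G 3 (3 - p) ⊓ m.Gc 3 (3 + 1 - (3 - p)) := ⟨e2, e1⟩
        rw [hm.inf] at e4
        exact e4
      · have e1 : α • x ∈ m.G 3 p := (m.G _ _).smul_mem _ hx.1
        have e2 : α • x ∈ m.Gc 3 (3 + 1 - p) := by
          have e3 : α • x = (α • x + β • cj H x) - β • cj H x := by abel
          rw [e3]
          refine Submodule.sub_mem _ (Submodule.mem_sup_right hab) ((m.Gc _ _).smul_mem _ ?_)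
          exact Gc_anti hm 3 (by omega) cx1
        have e4 : α • x ∈ m.G 3 p ⊓ m.Gc 3 (3 + 1 - p) := ⟨e1, e2⟩
        rw [hm.inf] at e4
        exact e4
    have hα0 : α = 0 := by
      by_contra hne
      apply hx2
      have := (m.WC 2).smul_mem α⁻¹ hα
      rwa [smul_smul, inv_mul_cancel₀ hne, one_smul] at this
    refine ⟨hα0, ?_⟩
    by_contra hne
    apply hx3
    rw [hα0, zero_smul, zero_add] at hab
    have := (m.WC 2).smul_mem β⁻¹ hab
    rwa [smul_smul, inv_mul_cancel₀ hne, one_smul] at this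
  have hli : LinearIndependent ℂ ![x, cj H x] := by
    rw [LinearIndependent.pair_iff]
    intro α β hab
    exact ind α β (by rw [hab]; exact Submodule.zero_mem _)
  have hfr : Module.finrank ℂ (ℂ ⊗[ℚ] H) ≤ 2 := by
    rw [Module.finrank_baseChange]
    exact hd
  have hspan : Submodule.span ℂ (Set.range ![x, cj H x]) = ⊤ := by
    apply Submodule.eq_top_of_finrank_eq
    rw [finrank_span_eq_card hli, Fintype.card_fin]
    have := hli.fintype_card_le_finrank
    rw [Fintype.card_fin] at this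
    omega
  have hxW : x ∈ m.WC 3 := G_le_WC hm _ _ hx.1
  constructor
  · have h5 : (⊤ : Submodule ℂ (ℂ ⊗[ℚ] H)) ≤ m.WC 3 := by
      rw [← hspan, Submodule.span_le]
      rintro _ ⟨i, rfl⟩
      fin_cases i
      · exact hxW
      · exact cj_WC m 3 hxW
    rw [eq_top_iff]
    intro y _
    exact mem_of_tmul _ (h5 trivial)
  · rw [eq_bot_iff]
    intro y hy
    have hy1 : (1 : ℂ) ⊗ₜ[ℚ] y ∈ m.WC 2 := Submodule.tmul_mem_baseChange_of_mem _ hy
    have hy2 : (1 : ℂ) ⊗ₜ[ℚ] y ∈ Submodule.span ℂ (Set.range ![x, cj H x]) := by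
      rw [hspan]; trivial
    rw [Matrix.range_cons, Matrix.range_cons, Matrix.range_empty, Set.union_empty,
      Set.singleton_union, Submodule.mem_span_pair] at hy2
    obtain ⟨α, β, hab⟩ := hy2
    obtain ⟨rfl, rfl⟩ := ind α β (by rw [hab]; exact hy1)
    rw [zero_smul, zero_smul, add_zero] at hab
    exact tmul_inj hab.symm

theorem p_H1 : S_H1 := by
  intro VX VA VZ _ _ _ _ _ _ _ _ mX mA mZ hX hA hZ hZ3 hZ2 f g fW fF gW gF hf hg hd
  -- step 1
  have s1 : ¬ mA.W 3 ≤ mA.W 2 := by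
    intro hle
    apply hg
    apply eq_zero_of_bc
    have h1 : mZ.WC 3 ≤ LinearMap.ker (g.baseChange ℂ) := by
      apply lemA hZ
      rintro p x ⟨hx1, hx2⟩
      have e1 : mZ.WC 2 = ⊥ := by unfold Fil.WC; rw [hZ2, Submodule.baseChange_bot]
      have e2 : x ∈ mZ.F p := by
        unfold Fil.G at hx1
        rw [show (3 : ℤ) - 1 = 2 by norm_num, e1, sup_bot_eq] at hx1
        exact hx1.1
      have e3 : x ∈ cjS (mZ.F (3 - p)) := by
        unfold Fil.Gc at hx2
        rw [show (3 : ℤ) - 1 = 2 by norm_num, e1, sup_bot_eq] at hx2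
        exact hx2.1
      have e4 : x ∈ mZ.WC 3 := G_le_WC hZ _ _ hx1
      refine lemB hA 2 p (3 - p) (by omega) _ (gF p x e2) (bc_cjF g _ (gF (3 - p)) e3) ?_
      exact Submodule.baseChange_mono ℂ hle (bc_WC g 3 (gW 3) e4)
    intro x
    apply h1
    unfold Fil.WC
    rw [hZ3, Submodule.baseChange_top]
    trivial
  -- step 2
  obtain ⟨hA3, hA2⟩ := pure_three hA hd s1
  -- step 3
  have s3 : ¬ mX.W 3 ≤ mX.W 2 := by
    intro hle
    apply hf
    apply eq_zero_of_bc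
    have k3 : mX.WC 3 ≤ LinearMap.ker (f.baseChange ℂ) := by
      intro x hx
      have h1 : x ∈ mX.WC 2 := Submodule.baseChange_mono ℂ hle hx
      have h2 := bc_WC f 2 (fW 2) h1
      unfold Fil.WC at h2
      rw [hA2, Submodule.baseChange_bot] at h2
      exact h2
    have key : ∀ k : ℕ, mX.WC (3 + k) ≤ LinearMap.ker (f.baseChange ℂ) := by
      intro k
      induction k with
      | zero => simpa using k3
      | succ k ih =>
        apply lemA hX
        rintro p x ⟨hx1, hx2⟩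
        have en : (3 : ℤ) + (k + 1 : ℕ) - 1 = 3 + k := by push_cast; ring
        obtain ⟨y, hy, w, hw, hyw⟩ := Submodule.mem_sup.1 hx1
        obtain ⟨y', hy', w', hw', hyw'⟩ := Submodule.mem_sup.1 hx2
        rw [en] at hw hw'
        have f1 : f.baseChange ℂ x = f.baseChange ℂ y := by
          rw [← hyw, map_add, LinearMap.mem_ker.1 (ih hw), add_zero]
        have f2 : f.baseChange ℂ x = f.baseChange ℂ y' := by
          rw [← hyw', map_add, LinearMap.mem_ker.1 (ih hw'), add_zero]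
        refine lemB hA 3 p (3 + (k + 1 : ℕ) - p) (by push_cast; omega) _ ?_ ?_ ?_
        · rw [f1]
          exact fF p y hy.1
        · rw [f2]
          exact bc_cjF f _ (fF _) hy'.1
        · unfold Fil.WC
          rw [hA3, Submodule.baseChange_top]
          trivial
    intro x
    obtain ⟨b, hb⟩ := hX.top
    have h1 : x ∈ mX.WC b := by
      unfold Fil.WC
      rw [hb, Submodule.baseChange_top]
      trivial
    exact key (b - 3).toNat (WC_mono hX (by
      have := Int.self_le_toNat (b - 3)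
      omega) h1)
  -- step 4
  by_contra hn
  push Not at hn
  apply s3
  apply W_le_of_WC
  have hstep : ∀ p, mX.G 3 p ≤ mX.G 3 (p + 1) := by
    intro p
    have h1 := hn p
    unfold hodgeNumber at h1
    rw [show p + (3 - p) = 3 by ring] at h1
    have h2 := Module.finrank_zero_iff.1 h1
    rw [Submodule.Quotient.subsingleton_iff] at h2
    intro x hx
    have : (⟨x, hx⟩ : mX.G 3 p) ∈ (mX.G 3 (p + 1)).submoduleOf (mX.G 3 p) := by
      rw [h2]; trivial
    exact this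
  apply lemA hX
  intro p
  refine inf_le_left.trans ?_
  obtain ⟨b, hb⟩ := hX.Fbot
  have key : ∀ k : ℕ, mX.G 3 p ≤ mX.G 3 (p + k) := by
    intro k
    induction k with
    | zero => simp
    | succ k ih =>
      refine ih.trans ((hstep _).trans ?_)
      rw [show p + (k : ℤ) + 1 = p + ((k + 1 : ℕ) : ℤ) by push_cast; ring]
  refine (key (b - p).toNat).trans ?_
  have h1 : mX.F (p + (b - p).toNat) = ⊥ := by
    rw [eq_bot_iff, ← hb]
    apply hX.anti
    have := Int.self_le_toNat (b - p)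
    omega
  unfold Fil.G
  rw [h1, bot_inf_eq, bot_sup_eq]
  exact le_of_eq (by norm_num)

end

end Run7.h592
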