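import Pool.Agent.Run7.h592.Util

/-! R1: the fibre of a labelled space with a transport structure is acyclic. -/

set_option autoImplicit false

open scoped Topology

namespace Run7.h592

open Pool.Agent.Y209.HB Finsupp

noncomputable section

section R1

variable {E T : Type} [TopologicalSpace E] (lab : E → T) {t₀ : T}

/-- the face of a label function -/
def lf {q : ℕ} (i : Fin (q + 2)) (l : Dl (q + 1) → T) : Dl q → T := fun t => l (dlF q i t)

theorem good_face {q : ℕ} {l : Dl (q + 1) → T} (h : Good lab (q + 1) l) (i : Fin (q + 2)) :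
    Good lab q (lf i l) := by
  obtain ⟨e, he⟩ := h
  exact ⟨sface q i e, fun t => he _⟩

theorem dlF_comm {q : ℕ} (i j : Fin (q + 2)) (h : i ≤ j) (t : Dl q) :
    dlF (q + 1) j.succ (dlF q i t) = dlF (q + 1) i.castSucc (dlF q j t) := by
  change stdSimplex.map _ (stdSimplex.map _ t) = stdSimplex.map _ (stdSimplex.map _ t)
  rw [stdSimplex.map_comp_apply, stdSimplex.map_comp_apply]
  congr 1
  funext k
  exact Sc.succAbove_comm i j h k

theorem sface_comm {X : Type} [TopologicalSpace X] (n : ℕ) (i j : Fin (n + 2))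
    (σ : Sing X (n + 2)) (h : i ≤ j) :
    sface n i (sface (n + 1) j.succ σ) = sface n j (sface (n + 1) i.castSucc σ) :=
  Sc.sface_sface n i j σ h

theorem lf_lf {q : ℕ} (i j : Fin (q + 2)) (h : i ≤ j) (l : Dl (q + 2) → T) :
    lf i (lf j.succ l) = lf j (lf i.castSucc l) := by
  funext t
  unfold lf
  rw [dlF_comm i j h]

/-- the label function of a simplex -/
def lof {q : ℕ} (e : Sing E q) : Dl q → T := fun t => lab (e t)

theorem good_lof {q : ℕ} (e : Sing E q) : Good lab q (lof lab e) := ⟨e, fun _ => rfl⟩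

theorem lof_face {q : ℕ} (i : Fin (q + 2)) (e : Sing E (q + 1)) :
    lof lab (sface q i e) = lf i (lof lab e) := rfl

/-- the ambient face map -/
def phf (E : Type) [TopologicalSpace E] (q : ℕ) (i : Fin (q + 2)) : C(Dl q × E, Dl (q + 1) × E) :=
  (dlF q i).prodMap (ContinuousMap.id E)

theorem phf_comm {q : ℕ} (i j : Fin (q + 2)) (h : i ≤ j) :
    (phf E (q + 1) j.succ).comp (phf E q i) = (phf E (q + 1) i.castSucc).comp (phf E q j) := by
  ext p : 1
  refine Prod.ext ?_ rfl
  exact dlF_comm i j h p.1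

theorem phf_El {q : ℕ} (i : Fin (q + 2)) (l : Dl (q + 1) → T) :
    Set.MapsTo (phf E q i) (El lab q (lf i l)) (El lab (q + 1) l) := fun _ hp => hp

/-- the tautological simplex -/
def tau {q : ℕ} (e : Sing E q) : Sing (Dl q × E) q := (ContinuousMap.id _).prodMk e

theorem tau_mem {q : ℕ} (e : Sing E q) : single (tau e) (1 : ℚ) ∈ sp (El lab q (lof lab e)) q := by
  apply single_mem_sp
  rintro _ ⟨t, rfl⟩
  rfl

theorem tau_face {q : ℕ} (i : Fin (q + 2)) (e : Sing E (q + 1)) :
    sface q i (tau e) = (phf E q i).comp (tau (sface q i e)) := rfl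

/-- the alternating sum of the faces of a family of chains -/
def alt {q m : ℕ} (c : Fin (q + 2) → (Sing (Dl q × E) m →₀ ℚ)) :
    Sing (Dl (q + 1) × E) m →₀ ℚ :=
  ∑ i : Fin (q + 2), (-1 : ℚ) ^ (i : ℕ) • push (phf E q i) m (c i)

theorem bdry_alt {q m : ℕ} (c : Fin (q + 2) → (Sing (Dl q × E) (m + 1) →₀ ℚ)) :
    bdry _ m (alt c) = alt fun i => bdry _ m (c i) := by
  unfold alt
  rw [map_sum]
  refine Finset.sum_congr rfl fun i _ => ?_
  rw [map_smul, bdry_push]

theorem alt_sub {q m : ℕ} (c d : Fin (q + 2) → (Sing (Dl q × E) m →₀ ℚ)) :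
    alt (fun i => c i - d i) = alt c - alt d := by
  unfold alt
  rw [← Finset.sum_sub_distrib]
  refine Finset.sum_congr rfl fun i _ => ?_
  rw [map_sub, smul_sub]

theorem alt_alt {q m : ℕ} (c : Fin (q + 3) → Fin (q + 2) → (Sing (Dl q × E) m →₀ ℚ))
    (h : ∀ i j : Fin (q + 2), i ≤ j → c j.succ i = c i.castSucc j) :
    alt (fun j => alt (c j)) = 0 := by
  unfold alt
  have h1 := alt_cancelM q (fun (i : Fin (q + 2)) (j : Fin (q + 3)) =>
    push (phf E (q + 1) j) m (push (phf E q i) m (c j i))) (by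
      intro i j hij
      rw [push_push, push_push, phf_comm i j hij, h i j hij])
  rw [← h1]
  refine Finset.sum_congr rfl fun j _ => ?_
  rw [map_sum, Finset.smul_sum]
  refine Finset.sum_congr rfl fun i _ => ?_
  rw [map_smul]

theorem alt_mem {q m : ℕ} {l : Dl (q + 1) → T} (c : Fin (q + 2) → (Sing (Dl q × E) m →₀ ℚ))
    (h : ∀ i, c i ∈ sp (El lab q (lf i l)) m) : alt c ∈ sp (El lab (q + 1) l) m := by
  unfold alt
  apply Submodule.sum_mem
  intro i _
  apply Submodule.smul_mem
  exact push_mem_sp _ (phf_El lab i l) (h i)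

theorem bdry_tau {q : ℕ} (e : Sing E (q + 1)) :
    bdry _ q (single (tau e) 1) = alt fun i => single (tau (sface q i e)) 1 := by
  rw [bdry_single]
  unfold alt
  refine Finset.sum_congr rfl fun i _ => ?_
  rw [push_single, tau_face]

/-! ## The section chains -/

open Classical in
/-- the section chains `s(l)` -/
def sl : ∀ (q : ℕ) (_ : Dl q → T), Sing (Dl q × E) q →₀ ℚ
  | 0, l => if h : Good lab 0 l then single (tau h.choose) 1 else 0
  | (q + 1), l => if h : ∃ c ∈ sp (El lab (q + 1) l) (q + 1),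
      bdry _ q c = alt (fun i => sl q (lf i l)) then h.choose else 0

/-- acyclicity hypotheses on the spaces `El l`, in degrees up to `n` -/
structure AcHyp (n : ℕ) : Prop where
  cn : ∀ q l, Good lab q l → CnO (El lab q l)
  ac : ∀ q l, Good lab q l → ∀ j, j < n → AcO (El lab q l) (j + 1)

variable {lab}

theorem sl_spec {n : ℕ} (hA : AcHyp lab n) : ∀ (q : ℕ), q ≤ n + 1 → ∀ (l : Dl q → T),
    Good lab q l → sl lab q l ∈ sp (El lab q l) q ∧
      (match q, l with
        | 0, l => ep _ 0 (sl lab 0 l) = 1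
        | (q + 1), l => bdry _ q (sl lab (q + 1) l) = alt (fun i => sl lab q (lf i l))) := by
  intro q
  induction q with
  | zero =>
    intro _ l hl
    have e : sl lab 0 l = single (tau hl.choose) 1 := by
      rw [sl, dif_pos hl]
    have e' : l = lof lab hl.choose := funext fun t => (hl.choose_spec t).symm
    constructor
    · rw [e]
      have := tau_mem lab hl.choose
      rwa [← e'] at this
    · simp only
      rw [e, ep_single]
  | succ q ih =>
    intro hq l hl
    have hi := fun i => ih (by omega) (lf i l) (good_face lab hl i)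
    have hsp : alt (fun i => sl lab q (lf i l)) ∈ sp (El lab (q + 1) l) q :=
      alt_mem lab _ fun i => (hi i).1
    have hex : ∃ c ∈ sp (El lab (q + 1) l) (q + 1),
        bdry _ q c = alt (fun i => sl lab q (lf i l)) := by
      cases q with
      | zero =>
        have hep : ep _ 0 (alt (fun i => sl lab 0 (lf i l))) = 0 := by
          unfold alt
          rw [map_sum, Fin.sum_univ_two]
          simp only [map_smul, ep_push]
          rw [(hi 0).2, (hi 1).2]
          norm_num
        obtain ⟨c, hc, h⟩ := hA.cn 1 l hl _ hsp hep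
        exact ⟨c, hc, h⟩
      | succ q =>
        have hcy : alt (fun i => sl lab (q + 1) (lf i l)) ∈ Cyc _ (q + 1) := by
          change bdry _ q _ = 0
          rw [bdry_alt]
          have e1 : (fun i => bdry _ q (sl lab (q + 1) (lf i l))) =
              fun j => alt (fun i => sl lab q (lf i (lf j l))) := funext fun i => (hi i).2
          rw [e1]
          apply alt_alt
          intro i j hij
          rw [lf_lf i j hij]
        obtain ⟨c, hc, h⟩ := hA.ac (q + 2) l hl q (by omega) _ hsp hcy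
        exact ⟨c, hc, h⟩
    have e : sl lab (q + 1) l = hex.choose := by
      rw [sl, dif_pos hex]
    refine ⟨by rw [e]; exact hex.choose_spec.1, ?_⟩
    change bdry _ q (sl lab (q + 1) l) = alt (fun i => sl lab q (lf i l))
    rw [e]
    exact hex.choose_spec.2

/-! ## The comparison chains -/

variable (lab)

/-- `X(e)` from the chains `D` in one dimension less -/
def XX : ∀ (q : ℕ) (_ : ∀ q', q' + 1 = q → Sing E q' → (Sing (Dl q' × E) (q' + 1) →₀ ℚ))
    (_ : Sing E q), Sing (Dl q × E) q →₀ ℚ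
  | 0, _, e => single (tau e) 1 - sl lab 0 (lof lab e)
  | (q + 1), D, e => single (tau e) 1 - sl lab (q + 1) (lof lab e) -
      alt (fun i => D q rfl (sface q i e))

open Classical in
/-- the chains `D(e)` -/
def DD : ∀ (q : ℕ) (_ : Sing E q), Sing (Dl q × E) (q + 1) →₀ ℚ
  | 0, e => if h : ∃ c ∈ sp (El lab 0 (lof lab e)) 1,
      bdry _ 0 c = single (tau e) 1 - sl lab 0 (lof lab e) then h.choose else 0
  | (q + 1), e => if h : ∃ c ∈ sp (El lab (q + 1) (lof lab e)) (q + 2),
      bdry _ (q + 1) c = single (tau e) 1 - sl lab (q + 1) (lof lab e) -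
        alt (fun i => DD q (sface q i e)) then h.choose else 0

/-- `X(e)` -/
def Xe : ∀ (q : ℕ) (_ : Sing E q), Sing (Dl q × E) q →₀ ℚ
  | 0, e => single (tau e) 1 - sl lab 0 (lof lab e)
  | (q + 1), e => single (tau e) 1 - sl lab (q + 1) (lof lab e) -
      alt (fun i => DD lab q (sface q i e))

variable {lab}

theorem DD_spec_of {q : ℕ} (e : Sing E q)
    (h : ∃ c ∈ sp (El lab q (lof lab e)) (q + 1), bdry _ q c = Xe lab q e) :
    DD lab q e ∈ sp (El lab q (lof lab e)) (q + 1) ∧ bdry _ q (DD lab q e) = Xe lab q e := by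
  cases q with
  | zero =>
    have h' : ∃ c ∈ sp (El lab 0 (lof lab e)) 1,
      bdry _ 0 c = single (tau e) 1 - sl lab 0 (lof lab e) := h
    rw [DD, dif_pos h']
    exact h'.choose_spec
  | succ q =>
    have h' : ∃ c ∈ sp (El lab (q + 1) (lof lab e)) (q + 2),
      bdry _ (q + 1) c = single (tau e) 1 - sl lab (q + 1) (lof lab e) -
        alt (fun i => DD lab q (sface q i e)) := h
    rw [DD, dif_pos h']
    exact h'.choose_spec

/-- the properties of `X(e)` -/
def XOk (q : ℕ) (e : Sing E q) : Prop := Xe lab q e ∈ sp (El lab q (lof lab e)) q ∧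
  Xe lab q e ∈ Cyc _ q ∧ (q = 0 → ep _ q (Xe lab q e) = 0)

theorem DD_of_XOk {n : ℕ} (hA : AcHyp lab n) {q : ℕ} (hq : q ≤ n) (e : Sing E q)
    (h : XOk (lab := lab) q e) :
    DD lab q e ∈ sp (El lab q (lof lab e)) (q + 1) ∧ bdry _ q (DD lab q e) = Xe lab q e := by
  apply DD_spec_of
  cases q with
  | zero =>
    obtain ⟨c, hc, h⟩ := hA.cn 0 _ (good_lof lab e) _ h.1 (h.2.2 rfl)
    exact ⟨c, hc, h⟩
  | succ q =>
    obtain ⟨c, hc, h⟩ := hA.ac (q + 1) _ (good_lof lab e) q (by omega) _ h.1 h.2.1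
    exact ⟨c, hc, h⟩

theorem Xe_ok {n : ℕ} (hA : AcHyp lab n) : ∀ (q : ℕ), q ≤ n + 1 → ∀ (e : Sing E q),
    XOk (lab := lab) q e := by
  intro q
  induction q with
  | zero =>
    intro _ e
    obtain ⟨h1, h2⟩ := sl_spec hA 0 (by omega) _ (good_lof lab e)
    refine ⟨Submodule.sub_mem _ (tau_mem lab e) h1, Submodule.mem_top, fun _ => ?_⟩
    change ep _ 0 (single (tau e) 1 - sl lab 0 (lof lab e)) = 0
    simp only at h2
    rw [map_sub, ep_single, h2, sub_self]
  | succ q ih =>
    intro hq e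
    obtain ⟨h1, h2⟩ := sl_spec hA (q + 1) hq _ (good_lof lab e)
    have hD := fun i => DD_of_XOk hA (by omega) (sface q i e) (ih (by omega) (sface q i e))
    refine ⟨Submodule.sub_mem _ (Submodule.sub_mem _ (tau_mem lab e) h1)
      (alt_mem lab _ fun i => (hD i).1), ?_, fun h => absurd h (by omega)⟩
    change bdry _ q (single (tau e) 1 - sl lab (q + 1) (lof lab e) -
      alt (fun i => DD lab q (sface q i e))) = 0
    simp only at h2
    rw [map_sub, map_sub, bdry_alt, h2, bdry_tau]
    have e1 : (fun i => bdry _ q (DD lab q (sface q i e))) = fun i => Xe lab q (sface q i e) :=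
      funext fun i => (hD i).2
    rw [e1, ← alt_sub, ← alt_sub]
    cases q with
    | zero =>
      have : (fun i : Fin 2 => single (tau (sface 0 i e)) (1 : ℚ) -
          sl lab 0 (lf i (lof lab e)) - Xe lab 0 (sface 0 i e)) = fun _ => 0 := by
        funext i
        change _ - (single (tau (sface 0 i e)) 1 - sl lab 0 (lof lab (sface 0 i e))) = 0
        rw [lof_face, sub_self]
      rw [this]
      unfold alt
      simp
    | succ q =>
      have : (fun i : Fin (q + 3) => single (tau (sface (q + 1) i e)) (1 : ℚ) -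
          sl lab (q + 1) (lf i (lof lab e)) - Xe lab (q + 1) (sface (q + 1) i e)) =
          fun j => alt (fun i => DD lab q (sface q i (sface (q + 1) j e))) := by
        funext i
        change _ - (single (tau (sface (q + 1) i e)) 1 -
          sl lab (q + 1) (lof lab (sface (q + 1) i e)) - _) = _
        rw [lof_face, sub_sub_cancel]
      rw [this]
      apply alt_alt
      intro i j hij
      rw [sface_comm q i j e hij]

/-! ## The functional -/

variable (ts : TS lab t₀)

/-- the chain `ε(e)` of the fibre -/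
def eps (n : ℕ) : (Sing E n →₀ ℚ) →ₗ[ℚ] (Sing (Fib lab t₀) n →₀ ℚ) :=
  Finsupp.linearCombination ℚ fun e =>
    push (ts.ρ n (lof lab e) (good_lof lab e)) n (lft (El lab n (lof lab e)) n (Xe lab n e))

theorem eps_single (n : ℕ) (e : Sing E n) : eps ts n (single e 1) =
    push (ts.ρ n (lof lab e) (good_lof lab e)) n (lft (El lab n (lof lab e)) n (Xe lab n e)) := by
  rw [eps, linearCombination_single, one_smul]

open Classical in
/-- the chain `c(l)` -/
def ccl (n : ℕ) : ((Dl (n + 1) → T) →₀ ℚ) →ₗ[ℚ] (Sing (Fib lab t₀) n →₀ ℚ) :=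
  Finsupp.linearCombination ℚ fun l => if h : Good lab (n + 1) l then
    push (ts.ρ (n + 1) l h) n (lft (El lab (n + 1) l) n (alt (fun i => sl lab n (lf i l)))) else 0

/-- the key computation: `ε(∂ e) = - c(lab e)` modulo boundaries -/
theorem eps_bdry {n : ℕ} (hA : AcHyp lab n) (w : Sing E (n + 2) →₀ ℚ) :
    eps ts (n + 1) (bdry E (n + 1) w) + ccl ts (n + 1) (pf lab (n + 2) w) ∈
      Bdy (Fib lab t₀) (n + 1) := by
  have key : ∀ e : Sing E (n + 2), eps ts (n + 1) (bdry E (n + 1) (single e 1)) +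
      ccl ts (n + 1) (pf lab (n + 2) (single e 1)) ∈ Bdy (Fib lab t₀) (n + 1) := by
    intro e
    have hl := good_lof lab e
    set L := El lab (n + 2) (lof lab e) with hL
    have hX := fun i => Xe_ok hA (n + 1) le_rfl (sface (n + 1) i e)
    have hS := fun i => (sl_spec hA (n + 1) le_rfl _ (good_face lab hl i)).1
    -- transport of the faces
    have t1 : ∀ i, push (ts.ρ (n + 1) (lof lab (sface (n + 1) i e)) (good_lof lab _)) (n + 1)
          (lft (El lab (n + 1) (lof lab (sface (n + 1) i e))) (n + 1)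
            (Xe lab (n + 1) (sface (n + 1) i e))) -
        push (ts.ρ (n + 2) (lof lab e) hl) (n + 1) (lft L (n + 1)
          (push (phf E (n + 1) i) (n + 1) (Xe lab (n + 1) (sface (n + 1) i e)))) ∈
        Bdy (Fib lab t₀) (n + 1) := by
      intro i
      obtain ⟨H, H0, H1⟩ := ts.t3 (n + 1) (lof lab e) hl i (good_lof lab (sface (n + 1) i e))
      let fi : C(El lab (n + 1) (lof lab (sface (n + 1) i e)), L) :=
        ⟨fun x => ⟨(dlF (n + 1) i x.1.1, x.1.2), x.2⟩, by fun_prop⟩
      let Z := lft (El lab (n + 1) (lof lab (sface (n + 1) i e))) (n + 1)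
        (Xe lab (n + 1) (sface (n + 1) i e))
      have h1 : push (ts.ρ (n + 1) (lof lab (sface (n + 1) i e)) (good_lof lab _)) (n + 1) Z -
          push ((ts.ρ (n + 2) (lof lab e) hl).comp fi) (n + 1) Z ∈ Bdy (Fib lab t₀) (n + 1) :=
        push_sub_mem_of_homotopy H ((ts.ρ (n + 2) (lof lab e) hl).comp fi)
        (ts.ρ (n + 1) (lof lab (sface (n + 1) i e)) (good_lof lab _)) H0 H1 (n + 1) Z
        (lft_Cyc (hX i).1 (hX i).2.1)
      have h2 : push fi (n + 1) Z = lft L (n + 1)
          (push (phf E (n + 1) i) (n + 1) (Xe lab (n + 1) (sface (n + 1) i e))) := by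
        apply mvx_inj_sub L
        rw [push_lft (push_mem_sp _ (phf_El lab i (lof lab e)) (hX i).1), push_push]
        have e1 : (sub L).comp fi = (phf E (n + 1) i).comp
            (sub (El lab (n + 1) (lof lab (sface (n + 1) i e)))) := rfl
        rw [e1, ← push_push, push_lft (hX i).1]
      rw [← push_push fi, h2] at h1
      exact h1
    -- the sum of the transported faces
    have t2 : ∑ i : Fin (n + 3), (-1 : ℚ) ^ (i : ℕ) • push (ts.ρ (n + 2) (lof lab e) hl) (n + 1)
        (lft L (n + 1) (push (phf E (n + 1) i) (n + 1) (Xe lab (n + 1) (sface (n + 1) i e)))) =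
        push (ts.ρ (n + 2) (lof lab e) hl) (n + 1) (lft L (n + 1)
          (alt fun i => Xe lab (n + 1) (sface (n + 1) i e))) := by
      unfold alt
      rw [map_sum, map_sum]
      refine Finset.sum_congr rfl fun i _ => ?_
      rw [map_smul, map_smul]
    have t3 : (alt fun i => Xe lab (n + 1) (sface (n + 1) i e)) =
        bdry _ (n + 1) (single (tau e) 1) - alt (fun i => sl lab (n + 1) (lf i (lof lab e))) := by
      have h1 : (fun i => Xe lab (n + 1) (sface (n + 1) i e)) = fun i =>
          (single (tau (sface (n + 1) i e)) 1 - sl lab (n + 1) (lf i (lof lab e))) -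
            alt (fun j => DD lab n (sface n j (sface (n + 1) i e))) := rfl
      rw [h1, alt_sub, alt_sub, bdry_tau]
      have h2 : alt (fun i => alt (fun j => DD lab n (sface n j (sface (n + 1) i e)))) = 0 := by
        apply alt_alt
        intro i j hij
        rw [sface_comm n i j e hij]
      rw [h2, sub_zero]
    have t4 : lft L (n + 1) (bdry _ (n + 1) (single (tau e) 1)) ∈ Bdy L (n + 1) := by
      rw [lft_bdry (tau_mem lab e)]
      exact ⟨_, rfl⟩
    have e1 : eps ts (n + 1) (bdry E (n + 1) (single e 1)) = ∑ i : Fin (n + 3),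
        (-1 : ℚ) ^ (i : ℕ) • push (ts.ρ (n + 1) (lof lab (sface (n + 1) i e)) (good_lof lab _))
          (n + 1) (lft (El lab (n + 1) (lof lab (sface (n + 1) i e))) (n + 1)
            (Xe lab (n + 1) (sface (n + 1) i e))) := by
      rw [bdry_single, map_sum]
      refine Finset.sum_congr rfl fun i _ => ?_
      rw [map_smul, eps_single]
    have e2 : ccl ts (n + 1) (pf lab (n + 2) (single e 1)) = push (ts.ρ (n + 2) (lof lab e) hl)
        (n + 1) (lft L (n + 1) (alt (fun i => sl lab (n + 1) (lf i (lof lab e))))) := by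
      have h1 : pf lab (n + 2) (single e 1) = single (lof lab e) 1 := by
        unfold pf
        rw [lmapDomain_apply, mapDomain_single]
        rfl
      rw [h1, ccl, linearCombination_single, one_smul, dif_pos hl]
    rw [e1, e2]
    have e3 : (∑ i : Fin (n + 3), (-1 : ℚ) ^ (i : ℕ) •
        push (ts.ρ (n + 1) (lof lab (sface (n + 1) i e)) (good_lof lab _))
          (n + 1) (lft (El lab (n + 1) (lof lab (sface (n + 1) i e))) (n + 1)
            (Xe lab (n + 1) (sface (n + 1) i e)))) -
        ∑ i : Fin (n + 3), (-1 : ℚ) ^ (i : ℕ) • push (ts.ρ (n + 2) (lof lab e) hl) (n + 1)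
        (lft L (n + 1) (push (phf E (n + 1) i) (n + 1) (Xe lab (n + 1) (sface (n + 1) i e)))) ∈
        Bdy (Fib lab t₀) (n + 1) := by
      rw [← Finset.sum_sub_distrib]
      apply Submodule.sum_mem
      intro i _
      rw [← smul_sub]
      exact Submodule.smul_mem _ _ (t1 i)
    rw [t2, t3, map_sub, map_sub] at e3
    have e4 := Submodule.add_mem _ e3 (push_mem_Bdy (ts.ρ (n + 2) (lof lab e) hl) (n + 1) _ t4)
    convert e4 using 1
    abel
  have h1 : ∀ w : Sing E (n + 2) →₀ ℚ, eps ts (n + 1) (bdry E (n + 1) w) +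
      ccl ts (n + 1) (pf lab (n + 2) w) = (eps ts (n + 1) ∘ₗ bdry E (n + 1) +
      ccl ts (n + 1) ∘ₗ pf lab (n + 2)) w := fun _ => rfl
  rw [h1]
  refine Sc.supported_map Set.univ (eps ts (n + 1) ∘ₗ bdry E (n + 1) +
      ccl ts (n + 1) ∘ₗ pf lab (n + 2)) _ ?_ w (by simp)
  intro e _
  exact key e

/-! ## Evaluation on the fibre -/

theorem rho_congr {n : ℕ} {l l' : Dl n → T} (h : Good lab n l) (h' : Good lab n l') (e : l = l')
    (c : Sing (Dl n × E) n →₀ ℚ) :
    push (ts.ρ n l h) n (lft (El lab n l) n c) = push (ts.ρ n l' h') n (lft (El lab n l') n c) := by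
  subst e
  rfl

/-- the comparison chain, extended linearly to the chains of the fibre -/
def QQ (n : ℕ) : (Sing (Fib lab t₀) n →₀ ℚ) →ₗ[ℚ] (Sing (Dl n × E) n →₀ ℚ) :=
  Finsupp.linearCombination ℚ fun σ => Xe lab n ((sub (Fib lab t₀)).comp σ)

/-- the chains `D`, extended linearly -/
def DDl (n : ℕ) : (Sing E n →₀ ℚ) →ₗ[ℚ] (Sing (Dl n × E) (n + 1) →₀ ℚ) :=
  Finsupp.linearCombination ℚ fun σ => DD lab n σ

theorem lof_fib {n : ℕ} (σ : Sing (Fib lab t₀) n) :
    lof lab ((sub (Fib lab t₀)).comp σ) = fun _ => t₀ := funext fun t => (σ t).2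

theorem eps_fib {n : ℕ} (h₀ : Good lab n (fun _ => t₀)) (y : Sing (Fib lab t₀) n →₀ ℚ) :
    eps ts n (push (sub (Fib lab t₀)) n y) =
      push (ts.ρ n _ h₀) n (lft (El lab n (fun _ => t₀)) n (QQ n y)) := by
  have : (eps ts n).comp (push (sub (Fib lab t₀)) n) =
      ((push (ts.ρ n _ h₀) n).comp (lft (El lab n (fun _ => t₀)) n)).comp (QQ n) := by
    apply Finsupp.lhom_ext'
    intro σ
    apply LinearMap.ext_ring
    simp only [LinearMap.comp_apply, lsingle_apply]
    rw [push_single, eps_single, QQ, linearCombination_single, one_smul]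
    exact rho_congr ts _ h₀ (lof_fib σ) _
  exact LinearMap.congr_fun this y

theorem QQ_mem {n : ℕ} (hA : AcHyp lab n) (y : Sing (Fib lab t₀) (n + 1) →₀ ℚ) :
    QQ (n + 1) y ∈ sp (El lab (n + 1) (fun _ => t₀)) (n + 1) ∧
      QQ (n + 1) y ∈ Cyc _ (n + 1) := by
  constructor
  · refine Sc.supported_map Set.univ (QQ (n + 1)) _ ?_ y (by simp)
    intro σ _
    rw [QQ, linearCombination_single, one_smul]
    have := (Xe_ok hA (n + 1) le_rfl ((sub (Fib lab t₀)).comp σ)).1
    rwa [lof_fib] at this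
  · refine Sc.supported_map Set.univ (QQ (n + 1)) _ ?_ y (by simp)
    intro σ _
    rw [QQ, linearCombination_single, one_smul]
    exact (Xe_ok hA (n + 1) le_rfl ((sub (Fib lab t₀)).comp σ)).2.1

/-- second projection -/
def pr2E (E : Type) [TopologicalSpace E] (n : ℕ) : C(Dl n × E, E) := ContinuousMap.snd

theorem p2_QQ (n : ℕ) (y : Sing (Fib lab t₀) (n + 1) →₀ ℚ) (hy : y ∈ Cyc _ (n + 1))
    (h0 : ep _ (n + 1) y = 0) :
    push (pr2E E (n + 1)) (n + 1) (QQ (n + 1) y) = push (sub (Fib lab t₀)) (n + 1) y := by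
  have key : (push (pr2E E (n + 1)) (n + 1)).comp (QQ (n + 1)) = push (sub (Fib lab t₀)) (n + 1) -
      (LinearMap.toSpanSingleton ℚ _ (push (pr2E E (n + 1)) (n + 1)
        (sl lab (n + 1) (fun _ => t₀)))).comp (ep _ (n + 1)) -
      ((push (pr2E E n) (n + 1)).comp (DDl (lab := lab) n)).comp ((bdry E n).comp
        (push (sub (Fib lab t₀)) (n + 1))) := by
    apply Finsupp.lhom_ext'
    intro σ
    apply LinearMap.ext_ring
    simp only [LinearMap.comp_apply, lsingle_apply, LinearMap.sub_apply]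
    rw [QQ, linearCombination_single, one_smul, ep_single, LinearMap.toSpanSingleton_apply,
      one_smul, push_single]
    have e1 : Xe lab (n + 1) ((sub (Fib lab t₀)).comp σ) =
        single (tau ((sub (Fib lab t₀)).comp σ)) 1 -
          sl lab (n + 1) (lof lab ((sub (Fib lab t₀)).comp σ)) -
          alt (fun i => DD lab n (sface n i ((sub (Fib lab t₀)).comp σ))) := rfl
    rw [e1, lof_fib, map_sub, map_sub, push_single]
    have e2 : (pr2E E (n + 1)).comp (tau ((sub (Fib lab t₀)).comp σ)) =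
      (sub (Fib lab t₀)).comp σ := rfl
    rw [e2]
    congr 1
    rw [bdry_single, map_sum, map_sum]
    unfold alt
    rw [map_sum]
    refine Finset.sum_congr rfl fun i _ => ?_
    rw [map_smul, map_smul, map_smul, push_push, DDl, linearCombination_single, one_smul]
    rfl
  have h1 := LinearMap.congr_fun key y
  have h2 : bdry E n (push (sub (Fib lab t₀)) (n + 1) y) = 0 := by
    rw [bdry_push]
    have : bdry _ n y = 0 := hy
    rw [this, map_zero]
  simp only [LinearMap.comp_apply, LinearMap.sub_apply] at h1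
  rw [h1, h0, h2, map_zero, map_zero, map_zero, sub_zero, sub_zero]

/-- the functional is the identity on normalised cycles of the fibre -/
theorem eps_id {n : ℕ} (hA : AcHyp lab n) (h₀ : Good lab (n + 1) (fun _ => t₀))
    (y : Sing (Fib lab t₀) (n + 1) →₀ ℚ) (hy : y ∈ Cyc _ (n + 1)) (h0 : ep _ (n + 1) y = 0) :
    eps ts (n + 1) (push (sub (Fib lab t₀)) (n + 1) y) - y ∈ Bdy _ (n + 1) := by
  obtain ⟨q1, q2⟩ := QQ_mem hA y
  rw [eps_fib ts h₀]
  obtain ⟨H, H0, H1⟩ := ts.t4 (n + 1) h₀
  let pr : C(El lab (n + 1) (fun _ : Dl (n + 1) => t₀), Fib lab t₀) :=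
    ⟨fun x => ⟨x.1.2, x.2⟩, by fun_prop⟩
  have h1 := push_sub_mem_of_homotopy H (ts.ρ (n + 1) _ h₀) pr H0 H1 (n + 1) _ (lft_Cyc q1 q2)
  have h2 : push pr (n + 1) (lft (El lab (n + 1) fun _ => t₀) (n + 1) (QQ (n + 1) y)) = y := by
    apply mvx_inj_sub (Fib lab t₀)
    rw [push_push]
    have e1 : (sub (Fib lab t₀)).comp pr = (pr2E E (n + 1)).comp
      (sub (El lab (n + 1) fun _ => t₀)) := rfl
    rw [e1, ← push_push, push_lft q1, p2_QQ n y hy h0]
  rw [h2] at h1
  have h3 := (Bdy (Fib lab t₀) (n + 1)).neg_mem h1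
  rwa [neg_sub] at h3

theorem acHyp_of (ts : TS lab t₀) (hpc : PathConnectedSpace (Fib lab t₀)) (n : ℕ)
    (h : ∀ j, j < n → Ac (Fib lab t₀) (j + 1)) : AcHyp lab n where
  cn q l hl := by
    apply CnO_of_Cn
    intro z hz
    obtain ⟨H, H0, H1⟩ := ts.t1 q l hl
    have h1 := push_sub_mem_of_homotopy H (ContinuousMap.id _) ((ts.ι q l hl).comp (ts.ρ q l hl))
      H0 H1 0 z Submodule.mem_top
    rw [push_id, ← push_push] at h1
    have h2 := Cn_of_pc hpc (push (ts.ρ q l hl) 0 z) (by rw [ep_push, hz])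
    have h3 := (Bdy _ 0).sub_mem (push_mem_Bdy (ts.ι q l hl) 0 _ h2) h1
    rwa [sub_sub_cancel] at h3
  ac q l hl j hj := by
    apply AcO_of_Ac
    intro z hz
    obtain ⟨H, H0, H1⟩ := ts.t1 q l hl
    have h1 := push_sub_mem_of_homotopy H (ContinuousMap.id _) ((ts.ι q l hl).comp (ts.ρ q l hl))
      H0 H1 (j + 1) z hz
    rw [push_id, ← push_push] at h1
    have h2 := h j hj (push (ts.ρ q l hl) (j + 1) z) (push_mem_Cyc _ _ z hz)
    have h3 := (Bdy _ (j + 1)).sub_mem (push_mem_Bdy (ts.ι q l hl) (j + 1) _ h2) h1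
    rwa [sub_sub_cancel] at h3

theorem R1_step (ts : TS lab t₀) (hpc : PathConnectedSpace (Fib lab t₀)) (hk : KerAcyclic lab)
    (n : ℕ) (h : ∀ j, j < n → Ac (Fib lab t₀) (j + 1)) : Ac (Fib lab t₀) (n + 1) := by
  intro z hz
  have hA := acHyp_of ts hpc n h
  obtain ⟨f₀⟩ := hpc.nonempty
  have hc := const_Bdy f₀ hz
  set y := z - push (ContinuousMap.const _ f₀) (n + 1) z with hy
  have hyc : y ∈ Cyc _ (n + 1) := Submodule.sub_mem _ hz (push_mem_Cyc _ _ z hz)
  have hy0 : ep _ (n + 1) y = 0 := by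
    rw [hy, map_sub, ep_push, sub_self]
  have h₀ : Good lab (n + 1) (fun _ => t₀) := ⟨cs f₀.1 (n + 1), fun _ => f₀.2⟩
  have hpf : pf lab (n + 1) (push (sub (Fib lab t₀)) (n + 1) y) = 0 := by
    have : (pf lab (n + 1)).comp (push (sub (Fib lab t₀)) (n + 1)) =
        (LinearMap.toSpanSingleton ℚ _ (single (fun _ : Dl (n + 1) => t₀) (1 : ℚ))).comp
          (ep _ (n + 1)) := by
      apply Finsupp.lhom_ext'
      intro σ
      apply LinearMap.ext_ring
      simp only [LinearMap.comp_apply, lsingle_apply]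
      rw [push_single, ep_single, LinearMap.toSpanSingleton_apply, one_smul]
      unfold pf
      rw [lmapDomain_apply, mapDomain_single]
      congr 1
      exact lof_fib σ
    have h1 := LinearMap.congr_fun this y
    simp only [LinearMap.comp_apply] at h1
    rw [h1, hy0, map_zero]
  have hb : bdry E n (push (sub (Fib lab t₀)) (n + 1) y) = 0 := by
    rw [bdry_push]
    have : bdry _ n y = 0 := hyc
    rw [this, map_zero]
  obtain ⟨w, hw1, hw2⟩ := hk n _ hpf hb
  have h1 := eps_bdry ts hA w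
  rw [hw1, map_zero, add_zero, hw2] at h1
  have h2 := (Bdy _ (n + 1)).sub_mem h1 (eps_id ts hA h₀ y hyc hy0)
  rw [sub_sub_cancel] at h2
  have h3 := (Bdy _ (n + 1)).add_mem h2 hc
  rwa [hy, sub_add_cancel] at h3

end R1

theorem p_R1 : S_R1 := by
  intro E T _ lab t₀ ts hpc hk n
  obtain ⟨ts⟩ := ts
  induction n using Nat.strong_induction_on with
  | _ n ih => exact R1_step ts hpc hk n ih

end

end Run7.h592
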