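import Pool.Agent.Run7.h592.Fam

/-! R2: the transport structure of the path space of a map. -/

set_option autoImplicit false

open scoped Topology unitInterval

namespace Run7.h592

open Pool.Agent.Y209.HB

noncomputable section

variable {A B : Type} [TopologicalSpace A] [TopologicalSpace B]

section PEc

variable {Z : Type} [TopologicalSpace Z] (g : C(A, B))

/-- a family of points of the path space -/
def mkPE (a : C(Z, A)) (W : C(Z × I, B)) (h : ∀ z, W (z, 0) = g (a z)) : C(Z, PE g) where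
  toFun z := ⟨(a z, pt W z), h z⟩
  continuous_toFun := by
    refine Continuous.subtype_mk (a.continuous.prodMk ?_) _
    apply ContinuousMap.continuous_of_continuous_uncurry
    exact W.continuous

/-- the paths of a family of points of the path space -/
def wPE (e : C(Z, PE g)) : C(Z × I, B) := ⟨fun x => (e x.1).1.2 x.2, by fun_prop⟩

end PEc

section Lab

variable [SimplyConnectedSpace A] (g : C(A, B)) (a₀ : A)

/-- a path from the base point, as a map -/
def cp (a : A) : C(I, A) := (PathConnectedSpace.somePath a₀ a).toContinuousMap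

theorem cp_zero (a : A) : cp a₀ a 0 = a₀ := (PathConnectedSpace.somePath a₀ a).source

theorem cp_one (a : A) : cp a₀ a 1 = a := (PathConnectedSpace.somePath a₀ a).target

/-- the class of `ω` relative to `a` is `α` -/
def Lb (a : A) (ω α : C(I, B)) : Prop :=
  ∃ h : ω 0 = g a, hr (cat (g.comp (cp a₀ a)) ω ((congrArg g (cp_one a₀ a)).trans h.symm)) α

theorem lab_Lb (e : PE g) (α : C(I, B)) (h : α 0 = g a₀) :
    lab g a₀ e = tl (g a₀) α h ↔ Lb g a₀ e.1.1 e.1.2 α := by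
  rw [lab_iff g a₀ e (cp a₀ e.1.1) (cp_zero a₀ _) (cp_one a₀ _) α h]
  constructor
  · intro h'
    exact ⟨e.2, h'⟩
  · rintro ⟨_, h'⟩
    exact h'

variable {g a₀}

theorem Lb.one {a : A} {ω α : C(I, B)} (h : Lb g a₀ a ω α) : ω 1 = α 1 := by
  obtain ⟨h0, h1⟩ := h
  rw [h1.one, cat_one]

theorem Lb.zero {a : A} {ω α : C(I, B)} (h : Lb g a₀ a ω α) : α 0 = g a₀ := by
  obtain ⟨h0, h1⟩ := h
  rw [h1.zero, cat_zero]
  exact congrArg g (cp_zero a₀ a)

theorem Lb.hr_left {a : A} {ω ω' α : C(I, B)} (h : Lb g a₀ a ω α) (h' : hr ω ω') :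
    Lb g a₀ a ω' α := by
  obtain ⟨h0, h1⟩ := h
  exact ⟨h'.zero.trans h0, (hr_cat _ _ (hr.refl _) h'.symm).trans h1⟩

theorem Lb.hr_right {a : A} {ω α α' : C(I, B)} (h : Lb g a₀ a ω α) (h' : hr α α') :
    Lb g a₀ a ω α' := by
  obtain ⟨h0, h1⟩ := h
  exact ⟨h0, h1.trans h'⟩

/-- cancel a path -/
theorem Lb.cancel {a : A} {ω p : C(I, B)} (h : Lb g a₀ a ω p) (h' : ω 1 = rev p 0) :
    Lb g a₀ a (cat ω (rev p) h') (ContinuousMap.const _ (g a₀)) := by
  obtain ⟨h0, h1⟩ := h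
  refine ⟨(cat_zero _ _ _).trans h0, ?_⟩
  have := hr_cancel _ ω p _ h1 h'
  have e : (g.comp (cp a₀ a)) 0 = g a₀ := congrArg g (cp_zero a₀ a)
  rwa [e] at this

/-- append a path to a null homotopic one -/
theorem Lb.append {a : A} {ω p : C(I, B)} (h : Lb g a₀ a ω (ContinuousMap.const _ (g a₀)))
    (h' : ω 1 = p 0) : Lb g a₀ a (cat ω p h') p := by
  obtain ⟨h0, h1⟩ := h
  refine ⟨(cat_zero _ _ _).trans h0, ?_⟩
  have e : (g.comp (cp a₀ a)) 0 = g a₀ := congrArg g (cp_zero a₀ a)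
  exact hr_null_cat _ ω p _ (by rw [e]; exact h1) h'

/-- `Lb` computed with any path -/
theorem Lb_of {a : A} {ω α : C(I, B)} (c : C(I, A)) (h0 : c 0 = a₀) (h1 : c 1 = a)
    (h : (g.comp c) 1 = ω 0) (h2 : hr (cat (g.comp c) ω h) α) : Lb g a₀ a ω α := by
  have e1 : (g.comp c) 1 = g a := congrArg g h1
  let e : PE g := ⟨(a, ω), h.symm.trans e1⟩
  have e2 : α 0 = g a₀ := by
    rw [h2.zero, cat_zero]
    exact congrArg g h0
  exact (lab_Lb g a₀ e α e2).1 ((lab_iff g a₀ e c h0 h1 α e2).2 h2)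

variable (g a₀)

theorem mem_Fib (e : PE g) : e ∈ Fib (lab g a₀) (til0 (g a₀)) ↔
    Lb g a₀ e.1.1 e.1.2 (ContinuousMap.const _ (g a₀)) := by
  rw [← lab_Lb g a₀ e (ContinuousMap.const _ (g a₀)) rfl]
  rfl

/-- every good label function is represented by a family of paths -/
theorem exists_fam {q : ℕ} (l : Dl q → Til (g a₀)) (hl : Good (lab g a₀) q l) :
    ∃ P : C(Dl q × I, B), ∀ t, ∃ h : pt P t 0 = g a₀, l t = tl (g a₀) (pt P t) h := by
  obtain ⟨e, he⟩ := hl
  let δ := cp a₀ (e (vx q)).1.1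
  let C1 : C(Dl q × I, A) := ⟨fun x => δ x.2, by fun_prop⟩
  let C2 : C(Dl q × I, A) := ⟨fun x => (e (ctr q (x.1, unitInterval.symm x.2))).1.1, by fun_prop⟩
  have hC : ∀ t, C1 (t, 1) = C2 (t, 0) := by
    intro t
    change cp a₀ (e (vx q)).1.1 1 = (e (ctr q (t, unitInterval.symm 0))).1.1
    rw [cp_one, unitInterval.symm_zero, ctr_one]
  let Cc := catF C1 C2 hC
  have hC0 : ∀ t, Cc (t, 0) = a₀ := fun t => (catF_zero C1 C2 hC t).trans (cp_zero a₀ _)
  have hC1 : ∀ t, Cc (t, 1) = (e t).1.1 := by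
    intro t
    refine (catF_one C1 C2 hC t).trans ?_
    change (e (ctr q (t, unitInterval.symm 1))).1.1 = _
    rw [unitInterval.symm_one, ctr_zero]
  let gC : C(Dl q × I, B) := g.comp Cc
  have hgC : ∀ t, gC (t, 1) = wPE g e (t, 0) := by
    intro t
    change g (Cc (t, 1)) = (e t).1.2 0
    rw [hC1, (e t).2]
  refine ⟨catF gC (wPE g e) hgC, fun t => ?_⟩
  have h0 : pt (catF gC (wPE g e) hgC) t 0 = g a₀ := by
    change catF gC (wPE g e) hgC (t, 0) = g a₀
    rw [catF_zero]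
    exact congrArg g (hC0 t)
  refine ⟨h0, ?_⟩
  rw [← he t]
  rw [lab_iff g a₀ (e t) (pt Cc t) (hC0 t) (hC1 t) _ h0]
  exact hr.refl _

/-- the family of paths of a label function -/
def pf' {q : ℕ} (l : Dl q → Til (g a₀)) (hl : Good (lab g a₀) q l) : C(Dl q × I, B) :=
  (exists_fam g a₀ l hl).choose

theorem pf'_zero {q : ℕ} (l : Dl q → Til (g a₀)) (hl : Good (lab g a₀) q l) (t : Dl q) :
    pf' g a₀ l hl (t, 0) = g a₀ := ((exists_fam g a₀ l hl).choose_spec t).choose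

theorem pf'_spec {q : ℕ} (l : Dl q → Til (g a₀)) (hl : Good (lab g a₀) q l) (t : Dl q) :
    l t = tl (g a₀) (pt (pf' g a₀ l hl) t) (pf'_zero g a₀ l hl t) :=
  ((exists_fam g a₀ l hl).choose_spec t).choose_spec

theorem mem_El {q : ℕ} (l : Dl q → Til (g a₀)) (hl : Good (lab g a₀) q l) (x : Dl q × PE g) :
    x ∈ El (lab g a₀) q l ↔ Lb g a₀ x.2.1.1 x.2.1.2 (pt (pf' g a₀ l hl) x.1) := by
  change lab g a₀ x.2 = l x.1 ↔ _
  rw [pf'_spec g a₀ l hl, lab_Lb]

section Maps

variable {g a₀}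
variable {q : ℕ} (l : Dl q → Til (g a₀)) (hl : Good (lab g a₀) q l)

/-- the tautological family of paths over `El` -/
def wE : C(El (lab g a₀) q l × I, B) := ⟨fun x => x.1.1.2.1.2 x.2, by fun_prop⟩

/-- the point of `A` over `El` -/
def aE : C(El (lab g a₀) q l, A) := ⟨fun x => x.1.2.1.1, by fun_prop⟩

/-- the point of the simplex over `El` -/
def tE : C(El (lab g a₀) q l, Dl q) := ⟨fun x => x.1.1, by fun_prop⟩

theorem wE_rev (P : C(Dl q × I, B)) (hP : ∀ t, P (t, 1) = pf' g a₀ l hl (t, 1))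
    (z : El (lab g a₀) q l) : wE l (z, 1) = revF (pbF (tE l) P) (z, 0) := by
  have h := (mem_El g a₀ l hl z.1).1 z.2
  rw [revF_zero]
  change z.1.2.1.2 1 = P (z.1.1, 1)
  rw [hP]
  exact h.one

/-- the transported family `ω P⁻¹` over `El` -/
def cE (P : C(Dl q × I, B)) (hP : ∀ t, P (t, 1) = pf' g a₀ l hl (t, 1)) :
    C(El (lab g a₀) q l × I, B) := catF (wE l) (revF (pbF (tE l) P)) (wE_rev l hl P hP)

/-- a map to the fibre from a family of paths over a space -/
def toFib {Z : Type} [TopologicalSpace Z] (a : C(Z, A)) (W : C(Z × I, B))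
    (h : ∀ z, Lb g a₀ (a z) (pt W z) (ContinuousMap.const _ (g a₀))) :
    C(Z, Fib (lab g a₀) (til0 (g a₀))) :=
  ⟨fun z => ⟨mkPE g a W (fun z => (h z).1) z, (mem_Fib g a₀ _).2 (h z)⟩, by fun_prop⟩

/-- homotopic families give homotopic maps to the fibre -/
theorem toFib_hty {Z : Type} [TopologicalSpace Z] (a : C(Z, A)) (W W' : C(Z × I, B))
    (h : ∀ z, Lb g a₀ (a z) (pt W z) (ContinuousMap.const _ (g a₀)))
    (h' : ∀ z, Lb g a₀ (a z) (pt W' z) (ContinuousMap.const _ (g a₀))) (hW : FH W W') :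
    Hty (toFib a W h) (toFib a W' h') := by
  obtain ⟨K, k0, k1, k2, k3⟩ := hW
  let a' : C(Z × I, A) := ⟨fun x => a x.1, by fun_prop⟩
  refine ⟨toFib a' (swp K) (fun z => (h z.1).hr_left (FH_mid K k0 k2 k3 z.1 z.2)), ?_, ?_⟩
  · intro z
    apply Subtype.ext
    apply Subtype.ext
    refine Prod.ext rfl ?_
    ext s
    exact k0 (z, s)
  · intro z
    apply Subtype.ext
    apply Subtype.ext
    refine Prod.ext rfl ?_
    ext s
    exact k1 (z, s)

theorem cE_Lb (P : C(Dl q × I, B)) (hP : ∀ t, P (t, 1) = pf' g a₀ l hl (t, 1))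
    (hP' : ∀ t, hr (pt (pf' g a₀ l hl) t) (pt P t)) (z : El (lab g a₀) q l) :
    Lb g a₀ (aE l z) (pt (cE l hl P hP) z) (ContinuousMap.const _ (g a₀)) := by
  have h := (mem_El g a₀ l hl z.1).1 z.2
  exact (h.hr_right (hP' z.1.1)).cancel (wE_rev l hl P hP z)

end Maps

/-- the transport map -/
def rhoM (q : ℕ) (l : Dl q → Til (g a₀)) (hl : Good (lab g a₀) q l) :
    C(El (lab g a₀) q l, Fib (lab g a₀) (til0 (g a₀))) :=
  toFib (aE l) (cE l hl (pf' g a₀ l hl) fun _ => rfl) (cE_Lb l hl _ _ fun _ => hr.refl _)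

/-- the family over the fibre -/
def wF : C(Fib (lab g a₀) (til0 (g a₀)) × I, B) := ⟨fun x => x.1.1.1.2 x.2, by fun_prop⟩

theorem wF_one (f : Fib (lab g a₀) (til0 (g a₀))) : wF g a₀ (f, 1) = g a₀ :=
  ((mem_Fib g a₀ f.1).1 f.2).one

/-- the constant family of the path at the vertex, over the fibre -/
def P0F (q : ℕ) (l : Dl q → Til (g a₀)) (hl : Good (lab g a₀) q l) :
    C(Fib (lab g a₀) (til0 (g a₀)) × I, B) := ⟨fun x => pf' g a₀ l hl (vx q, x.2), by fun_prop⟩

theorem wF_P0F (q : ℕ) (l : Dl q → Til (g a₀)) (hl : Good (lab g a₀) q l)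
    (f : Fib (lab g a₀) (til0 (g a₀))) : wF g a₀ (f, 1) = P0F g a₀ q l hl (f, 0) :=
  (wF_one g a₀ f).trans (pf'_zero g a₀ l hl _).symm

/-- the inclusion of the fibre -/
def iotaM (q : ℕ) (l : Dl q → Til (g a₀)) (hl : Good (lab g a₀) q l) :
    C(Fib (lab g a₀) (til0 (g a₀)), El (lab g a₀) q l) :=
  ⟨fun f => ⟨(vx q, mkPE g ⟨fun f => f.1.1.1, by fun_prop⟩
      (catF (wF g a₀) (P0F g a₀ q l hl) (wF_P0F g a₀ q l hl))
      (fun f => by rw [catF_zero]; exact f.1.2) f),
    (mem_El g a₀ l hl _).2 (((mem_Fib g a₀ f.1).1 f.2).append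
      (p := pt (P0F g a₀ q l hl) f) (wF_P0F g a₀ q l hl f))⟩, by fun_prop⟩

/-- first half of the homotopy from the identity of `El` -/
theorem t1_aux (q : ℕ) (l : Dl q → Til (g a₀)) (hl : Good (lab g a₀) q l) :
    Hty (ContinuousMap.id _) ((iotaM g a₀ q l hl).comp (rhoM g a₀ q l hl)) := by
  let P := pf' g a₀ l hl
  let E := El (lab g a₀) q l
  let W := cE l hl P (fun _ => rfl)
  let Pb : C(E × I, B) := pbF (tE l) P
  have hWP : ∀ z, W (z, 1) = Pb (z, 0) := by
    intro z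
    change catF _ _ _ (z, 1) = _
    rw [catF_one, revF_one]
  have hFib : ∀ z, Lb g a₀ (aE l z) (pt W z) (ContinuousMap.const _ (g a₀)) :=
    cE_Lb l hl _ _ fun _ => hr.refl _
  have hz0 : ∀ z, catF W Pb hWP (z, 0) = g (aE l z) := by
    intro z
    rw [catF_zero]
    exact (hFib z).1
  let M : C(E, E) := ⟨fun z => ⟨(tE l z, mkPE g (aE l) (catF W Pb hWP) hz0 z),
    (mem_El g a₀ l hl _).2 ((hFib z).append (p := pt Pb z) (hWP z))⟩, by fun_prop⟩
  have s1 : Hty (ContinuousMap.id E) M := by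
    have hF : FH (wE l) (catF W Pb hWP) :=
      (FH_triv (wE l) Pb (wE_rev l hl P fun _ => rfl)).symm
    obtain ⟨K, k0, k1, k2, k3⟩ := hF
    let a' : C(E × I, A) := ⟨fun x => aE l x.1, by fun_prop⟩
    have hk : ∀ z, swp K (z, 0) = g (a' z) := by
      rintro ⟨z, r⟩
      change K ((z, 0), r) = g (aE l z)
      rw [k2]
      exact z.1.2.2
    refine ⟨⟨fun x => ⟨(tE l x.1, mkPE g a' (swp K) hk x), (mem_El g a₀ l hl _).2 ?_⟩,
      by fun_prop⟩, ?_, ?_⟩
    · exact ((mem_El g a₀ l hl x.1.1).1 x.1.2).hr_left (FH_mid K k0 k2 k3 x.1 x.2)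
    · intro z
      apply Subtype.ext
      refine Prod.ext rfl ?_
      apply Subtype.ext
      refine Prod.ext rfl ?_
      ext s
      exact k0 (z, s)
    · intro z
      apply Subtype.ext
      refine Prod.ext rfl ?_
      apply Subtype.ext
      refine Prod.ext rfl ?_
      ext s
      exact k1 (z, s)
  have s2 : Hty M ((iotaM g a₀ q l hl).comp (rhoM g a₀ q l hl)) := by
    let W' : C((E × I) × I, B) := ⟨fun x => W (x.1.1, x.2), by fun_prop⟩
    let P' : C((E × I) × I, B) := ⟨fun x => P (ctr q (tE l x.1.1, x.1.2), x.2), by fun_prop⟩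
    have hW'P' : ∀ z, W' (z, 1) = P' (z, 0) := by
      intro z
      change W (z.1, 1) = P (ctr q (tE l z.1, z.2), 0)
      rw [hWP]
      change P (tE l z.1, 0) = _
      rw [pf'_zero, pf'_zero]
    let a' : C(E × I, A) := ⟨fun x => aE l x.1, by fun_prop⟩
    have hk : ∀ z, catF W' P' hW'P' (z, 0) = g (a' z) := by
      intro z
      rw [catF_zero]
      exact (hFib z.1).1
    refine ⟨⟨fun x => ⟨(ctr q (tE l x.1, x.2), mkPE g a' (catF W' P' hW'P') hk x),
      (mem_El g a₀ l hl _).2 ?_⟩, by fun_prop⟩, ?_, ?_⟩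
    · exact (hFib x.1).append (p := pt P' x) (hW'P' x)
    · intro z
      apply Subtype.ext
      refine Prod.ext (ctr_zero q _) ?_
      apply Subtype.ext
      refine Prod.ext rfl ?_
      change cat (pt W' (z, 0)) (pt P' (z, 0)) (hW'P' (z, 0)) = cat (pt W z) (pt Pb z) (hWP z)
      apply cat_congr
      · rfl
      · ext s
        change P (ctr q (tE l z, 0), s) = P (tE l z, s)
        rw [ctr_zero]
    · intro z
      apply Subtype.ext
      refine Prod.ext (ctr_one q _) ?_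
      apply Subtype.ext
      refine Prod.ext rfl ?_
      change cat (pt W' (z, 1)) (pt P' (z, 1)) (hW'P' (z, 1)) =
        cat (pt (wF g a₀) (rhoM g a₀ q l hl z)) (pt (P0F g a₀ q l hl) (rhoM g a₀ q l hl z))
          (wF_P0F g a₀ q l hl (rhoM g a₀ q l hl z))
      apply cat_congr
      · rfl
      · ext s
        change P (ctr q (tE l z, 1), s) = P (vx q, s)
        rw [ctr_one]
  exact s1.trans s2

end Lab

/-! ## Path connectedness of the fibre -/

section Conn

variable [SimplyConnectedSpace A] (g : C(A, B)) (a₀ : A)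

theorem Lb_const : Lb g a₀ a₀ (ContinuousMap.const _ (g a₀)) (ContinuousMap.const _ (g a₀)) := by
  refine Lb_of (ContinuousMap.const _ a₀) rfl rfl rfl ?_
  exact hr_const_cat _ _ _

/-- the base point of the fibre -/
def fib0 : Fib (lab g a₀) (til0 (g a₀)) := ⟨nf0 g a₀, (mem_Fib g a₀ _).2 (Lb_const g a₀)⟩

theorem joined_fib0 (f : Fib (lab g a₀) (til0 (g a₀))) : Joined (fib0 g a₀) f := by
  let c := cp a₀ f.1.1.1
  have hf := (mem_Fib g a₀ f.1).1 f.2
  -- first path
  let W1 : C(I × I, B) := ⟨fun x => g (c (x.1 * unitInterval.symm x.2)), by fun_prop⟩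
  have hW1 : ∀ z, Lb g a₀ (c z) (pt W1 z) (ContinuousMap.const _ (g a₀)) := by
    intro z
    let cz : C(I, A) := ⟨fun s => c (z * s), by fun_prop⟩
    have h0 : cz 0 = a₀ := by
      change c (z * 0) = a₀
      rw [mul_zero]
      exact cp_zero a₀ _
    have h1 : cz 1 = c z := by
      change c (z * 1) = c z
      rw [mul_one]
    have e : pt W1 z = rev (g.comp cz) := rfl
    refine Lb_of cz h0 h1 ?_ ?_
    · rw [e, rev_zero]
    · have h2 := hr_cat_rev (g.comp cz)
      have e2 : (g.comp cz) 0 = g a₀ := congrArg g h0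
      rw [e2] at h2
      exact h2
  let m1 := toFib (g := g) (a₀ := a₀) c W1 hW1
  -- second path
  have hω : hr (rev (g.comp c)) f.1.1.2 := by
    obtain ⟨h0, h1⟩ := hf
    have h2 : hr (cat (rev (g.comp c)) (cat (g.comp c) f.1.1.2 _)
        ((rev_one _).trans (cat_zero _ _ _).symm))
        (cat (rev (g.comp c)) (ContinuousMap.const _ (g a₀))
          ((rev_one _).trans (congrArg g (cp_zero a₀ _)))) :=
      hr_cat _ _ (hr.refl _) h1
    have h3 := hr_cat_const (rev (g.comp c)) (g a₀) ((rev_one _).trans (congrArg g (cp_zero a₀ _)))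
    have h4 := hr_assoc (rev (g.comp c)) (g.comp c) f.1.1.2 (rev_one _)
      ((congrArg g (cp_one a₀ _)).trans h0.symm)
    have h5 := hr_cat ((cat_one _ _ _).trans ((congrArg g (cp_one a₀ _)).trans h0.symm))
      ((congrArg g (cp_one a₀ _)).trans h0.symm : (ContinuousMap.const I ((g.comp c) 1)) 1 =
        f.1.1.2 0) (hr_rev_cat (g.comp c)) (hr.refl f.1.1.2)
    have h6 := hr_const_cat f.1.1.2 ((g.comp c) 1) ((congrArg g (cp_one a₀ _)).trans h0.symm)
    exact h3.symm.trans (h2.symm.trans (h4.symm.trans (h5.trans h6)))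
  have hm1 : Lb g a₀ f.1.1.1 (rev (g.comp c)) (ContinuousMap.const _ (g a₀)) :=
    hf.hr_left hω.symm
  obtain ⟨K, k0, k1, k2, k3⟩ := FH_of_hr (Z := Unit) hω
  let W2 : C(I × I, B) := ⟨fun x => K (((), x.2), x.1), by fun_prop⟩
  have hW2 : ∀ z, Lb g a₀ f.1.1.1 (pt W2 z) (ContinuousMap.const _ (g a₀)) := fun z =>
    hm1.hr_left (FH_mid K k0 k2 k3 () z)
  let m2 := toFib (g := g) (a₀ := a₀) (ContinuousMap.const _ f.1.1.1) W2 hW2
  have j1 : Joined (m1 0) (m1 1) := ⟨⟨m1, rfl, rfl⟩⟩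
  have j2 : Joined (m2 0) (m2 1) := ⟨⟨m2, rfl, rfl⟩⟩
  have e0 : m1 0 = fib0 g a₀ := by
    apply Subtype.ext
    apply Subtype.ext
    refine Prod.ext (cp_zero a₀ _) ?_
    ext s
    change g (c (0 * unitInterval.symm s)) = g a₀
    rw [zero_mul]
    exact congrArg g (cp_zero a₀ _)
  have e1 : m1 1 = m2 0 := by
    apply Subtype.ext
    apply Subtype.ext
    refine Prod.ext (cp_one a₀ _) ?_
    ext s
    change g (c (1 * unitInterval.symm s)) = K (((), s), 0)
    rw [one_mul, k0]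
    rfl
  have e2 : m2 1 = f := by
    apply Subtype.ext
    apply Subtype.ext
    refine Prod.ext rfl ?_
    ext s
    exact k1 ((), s)
  rw [e0, e1] at j1
  rw [e2] at j2
  exact j1.trans j2

end Conn

theorem p_R2b : S_R2b := by
  intro A B _ _ _ g a₀
  exact ⟨⟨fib0 g a₀⟩, fun x y => (joined_fib0 g a₀ x).symm.trans (joined_fib0 g a₀ y)⟩

theorem p_R2a : S_R2a := by
  intro A B _ _ _ g a₀
  refine ⟨⟨rhoM g a₀, iotaM g a₀, ?_, ?_, ?_⟩⟩
  · intro q l hl
    exact t1_aux g a₀ q l hl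
  · intro q l hl i hl'
    let P := pf' g a₀ l hl
    let P' := pf' g a₀ (fun t => l (dlF q i t)) hl'
    let Pi : C(Dl q × I, B) := pbF (dlF q i) P
    have hcl : ∀ t, hr (pt P' t) (pt Pi t) := by
      intro t
      have h1 := pf'_spec g a₀ l hl (dlF q i t)
      have h2 := pf'_spec g a₀ (fun t => l (dlF q i t)) hl' t
      rw [h2, tl_eq] at h1
      exact h1
    have he : ∀ t, Pi (t, 1) = P' (t, 1) := fun t => (hcl t).one
    have hF : FH Pi P' := FH_simp Pi P' (g a₀) (fun t => pf'_zero g a₀ l hl _)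
      (fun t => pf'_zero g a₀ _ hl' _) he (hcl _).symm
    have hF2 : FH (cE (fun t => l (dlF q i t)) hl' Pi he)
        (cE (fun t => l (dlF q i t)) hl' P' fun _ => rfl) :=
      FH_cat _ _ (FH.refl _) (FH_rev (FH_pb _ hF))
    obtain ⟨H, h0, h1⟩ := toFib_hty (aE fun t => l (dlF q i t)) _ _
      (cE_Lb (fun t => l (dlF q i t)) hl' Pi he hcl)
      (cE_Lb (fun t => l (dlF q i t)) hl' P' (fun _ => rfl) fun _ => hr.refl _) hF2
    exact ⟨H, h0, h1⟩
  · intro q hl
    let l : Dl q → Til (g a₀) := fun _ => til0 (g a₀)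
    let P := pf' g a₀ l hl
    let C0 : C(Dl q × I, B) := ContinuousMap.const _ (g a₀)
    have hcl : ∀ t, hr (pt P t) (pt C0 t) := by
      intro t
      have h1 := pf'_spec g a₀ l hl t
      change til0 (g a₀) = _ at h1
      rw [til0_eq, tl_eq] at h1
      exact h1.symm
    have he : ∀ t, C0 (t, 1) = P (t, 1) := fun t => (hcl t).one
    have hF : FH P C0 := FH_simp P C0 (g a₀) (fun t => pf'_zero g a₀ l hl _)
      (fun t => rfl) (fun t => (he t).symm) (hcl _)
    have hF2 : FH (cE l hl P fun _ => rfl) (cE l hl C0 he) :=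
      FH_cat _ _ (FH.refl _) (FH_rev (FH_pb _ hF))
    have hF3 : FH (cE l hl C0 he) (wE l) := FH_const _ _ _ (fun _ _ => rfl)
    have hw : ∀ z, Lb g a₀ (aE l z) (pt (wE l) z) (ContinuousMap.const _ (g a₀)) :=
      fun z => (mem_Fib g a₀ z.1.2).1 z.2
    obtain ⟨H, h0, h1⟩ := toFib_hty (aE l) _ _ (cE_Lb l hl P (fun _ => rfl) fun _ => hr.refl _) hw
      (hF2.trans hF3)
    exact ⟨H, h0, h1⟩

end

end Run7.h592
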