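import Pool.Agent.Run7.h592.Tasks

/-! Assembly, part 1: the rational Whitehead theorem from its pieces. -/

set_option autoImplicit false

open scoped Topology

namespace Run7.h592

open Pool.Agent.Y209.HB

section

variable (R1 : S_R1) (R2a : S_R2a) (R2b : S_R2b) (R4a : S_R4a) (R4b : S_R4b)

include R1 R2a R2b R4a R4b in
theorem inW_NF {A B : Type} [TopologicalSpace A] [TopologicalSpace B] [SimplyConnectedSpace A]
    (g : C(A, B)) (a₀ : A) (hk : KerAcyclic (lab g a₀)) : InW (NF g a₀) where
  pc := R2b A B g a₀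
  ac := R1 _ _ _ _ (R2a A B g a₀) (R2b A B g a₀) hk
  tor := R4b _ (R2b A B g a₀) (R1 _ _ _ _ (R2a A B g a₀) (R2b A B g a₀) hk 0) (R4a A B g a₀)
  got := R4a A B g a₀

include R1 R2a R2b R4a R4b in
theorem rw_main (R3a : S_R3a) (R3b : S_R3b) (R5a : S_R5a) (R5b : S_R5b) (A X : Type)
    [TopologicalSpace A] [TopologicalSpace X] [SimplyConnectedSpace A] [SimplyConnectedSpace X]
    (g : C(A, X)) (a₀ : A) (hg : HE g) (k : ℕ) (α : HomotopyGroup (Fin (k + 2)) X (g a₀)) :
    ∃ (N : ℕ) (β : HomotopyGroup (Fin (k + 2)) A a₀), 0 < N ∧ pimap g a₀ β = α ^ N := by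
  have h1 := R5a (fun B _ b hB => inW_NF R1 R2a R2b R4a R4b (ptm b) () (R3b B b hB))
  have h2 := inW_NF R1 R2a R2b R4a R4b g a₀ (R3a A X g a₀ hg)
  exact R5b A X g a₀ (fun f k => h1 _ h2 f k) k α

end

/-! ## The path space of a map -/

section PEs

variable {A B : Type} [TopologicalSpace A] [TopologicalSpace B] (g : C(A, B))

/-- the section by constant paths -/
def cPE : C(A, PE g) where
  toFun a := ⟨(a, ContinuousMap.const _ (g a)), rfl⟩
  continuous_toFun := by
    refine Continuous.subtype_mk (continuous_id.prodMk ?_) _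
    exact (ContinuousMap.continuous_const'.comp g.continuous)

/-- the shrinking homotopy -/
def shrink : C(PE g × I, PE g) where
  toFun p := ⟨(p.1.1.1, ⟨fun t => p.1.1.2 (t * unitInterval.symm p.2), by fun_prop⟩), by
    change p.1.1.2 (0 * unitInterval.symm p.2) = g p.1.1.1
    rw [zero_mul]
    exact p.1.2⟩
  continuous_toFun := by
    refine Continuous.subtype_mk (Continuous.prodMk (by fun_prop) ?_) _
    apply ContinuousMap.continuous_of_continuous_uncurry
    change Continuous fun q : (PE g × I) × I => q.1.1.1.2 (q.2 * unitInterval.symm q.1.2)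
    fun_prop

theorem shrink_zero (e : PE g) : shrink g (e, 0) = e := by
  apply Subtype.ext
  refine Prod.ext rfl ?_
  ext t
  change e.1.2 (t * unitInterval.symm 0) = e.1.2 t
  rw [unitInterval.symm_zero, mul_one]

theorem shrink_one (e : PE g) : shrink g (e, 1) = cPE g (prA g e) := by
  apply Subtype.ext
  refine Prod.ext rfl ?_
  ext t
  change e.1.2 (t * unitInterval.symm 1) = g e.1.1
  rw [unitInterval.symm_one, mul_zero]
  exact e.2

theorem HE_cPE : HE (cPE g) :=
  HE_of_homotopyEquiv (cPE g) (prA g) ⟨fun p => p.1, by fun_prop⟩ (shrink g) (fun _ => rfl)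
    (fun _ => rfl) (shrink_zero g) (shrink_one g)

theorem HE_ev1 (hg : HE g) : HE (ev1 g) := by
  refine HE.of_comp_right (HE_cPE g) ?_
  have : (ev1 g).comp (cPE g) = g := by
    ext a
    rfl
  rw [this]
  exact hg

/-- a space homotopy equivalent to a simply connected one -/
theorem sc_of_hequiv {X Y : Type} [TopologicalSpace X] [TopologicalSpace Y]
    (e : ContinuousMap.HomotopyEquiv X Y) [SimplyConnectedSpace Y] : SimplyConnectedSpace X := by
  have h := (inferInstance : SimplyConnectedSpace Y).equiv_unit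
  obtain ⟨e'⟩ := h
  exact ⟨⟨(FundamentalGroupoidFunctor.equivOfHomotopyEquiv e).trans e'⟩⟩

theorem sc_PE [SimplyConnectedSpace A] : SimplyConnectedSpace (PE g) := by
  refine sc_of_hequiv (Y := A) ⟨prA g, cPE g, ?_, ?_⟩
  · refine ⟨⟨⟨fun p => shrink g (p.2, unitInterval.symm p.1), by fun_prop⟩, ?_, ?_⟩⟩
    · intro x
      change shrink g (x, unitInterval.symm 0) = cPE g (prA g x)
      rw [unitInterval.symm_zero, shrink_one]
    · intro x
      change shrink g (x, unitInterval.symm 1) = x
      rw [unitInterval.symm_one, shrink_zero]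
  · have : (prA g).comp (cPE g) = ContinuousMap.id A := by
      ext a
      rfl
    rw [this]

end PEs

end Run7.h592
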