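import Pool.Agent.Run7.h592.PR2
import Pool.Agent.Run7.h592.Asm1

/-! R3a: the kernel complex of a homology equivalence of simply connected spaces. -/

set_option autoImplicit false

open scoped Topology

namespace Run7.h592

open Pool.Agent.Y209.HB Finsupp

noncomputable section

section Lift

variable {A B : Type} [TopologicalSpace A] [TopologicalSpace B] (g : C(A, B)) (a₀ : A)

include a₀ in
/-- every simplex of a path connected space lifts to the path space -/
theorem exists_liftS [PathConnectedSpace B] {q : ℕ} (σ : Sing B q) :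
    ∃ e : Sing (PE g) q, (ev1 g).comp e = σ := by
  let δ : Path (g a₀) (σ (vx q)) := PathConnectedSpace.somePath _ _
  let C1 : C(Dl q × I, B) := ⟨fun x => δ x.2, by fun_prop⟩
  let C2 : C(Dl q × I, B) := ⟨fun x => σ (ctr q (x.1, unitInterval.symm x.2)), by fun_prop⟩
  have hC : ∀ t, C1 (t, 1) = C2 (t, 0) := by
    intro t
    change δ 1 = σ (ctr q (t, unitInterval.symm 0))
    rw [δ.target, unitInterval.symm_zero, ctr_one]
  refine ⟨mkPE g (ContinuousMap.const _ a₀) (catF C1 C2 hC) ?_, ?_⟩
  · intro t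
    rw [catF_zero]
    exact δ.source
  · ext t
    change catF C1 C2 hC (t, 1) = σ t
    rw [catF_one]
    change σ (ctr q (t, unitInterval.symm 1)) = σ t
    rw [unitInterval.symm_one, ctr_zero]

include a₀ in
/-- a linear lift of chains -/
theorem exists_liftC [PathConnectedSpace B] {q : ℕ} (v : Sing B q →₀ ℚ) :
    ∃ w : Sing (PE g) q →₀ ℚ, push (ev1 g) q w = v := by
  induction v using Finsupp.induction_linear with
  | zero => exact ⟨0, map_zero _⟩
  | add a b ha hb =>
    obtain ⟨x, rfl⟩ := ha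
    obtain ⟨y, rfl⟩ := hb
    exact ⟨x + y, map_add _ _ _⟩
  | single σ c =>
    obtain ⟨e, rfl⟩ := exists_liftS g a₀ σ
    exact ⟨single e c, push_single _ _ _ _⟩

/-- the label function of a simplex of a simply connected space -/
def Jl [SimplyConnectedSpace B] (b₀ : B) (q : ℕ) (σ : Sing B q) : Dl q → Til b₀ := fun t =>
  ⟨σ t, Path.Homotopic.Quotient.mk (PathConnectedSpace.somePath b₀ (σ t))⟩

theorem Jl_inj [SimplyConnectedSpace B] (b₀ : B) (q : ℕ) : Function.Injective (Jl b₀ q) := by
  intro σ τ h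
  ext t
  exact congrArg Sigma.fst (congrFun h t)

theorem pf_eq [SimplyConnectedSpace A] [SimplyConnectedSpace B] (q : ℕ)
    (z : Sing (PE g) q →₀ ℚ) : pf (lab g a₀) q z =
      mapDomain (Jl (g a₀) q) (push (ev1 g) q z) := by
  unfold pf push
  rw [lmapDomain_apply, lmapDomain_apply, ← mapDomain_comp]
  congr 1
  funext e t
  change lab g a₀ (e t) = Jl (g a₀) q ((ev1 g).comp e) t
  unfold lab Jl
  exact congrArg (Sigma.mk _) (Subsingleton.elim _ _)

end Lift

theorem p_R3a : S_R3a := by
  intro A B _ _ _ _ g a₀ hg n z hz hbz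
  have hE := HE_ev1 g hg
  have hker : ∀ (q : ℕ) (z : Sing (PE g) q →₀ ℚ), pf (lab g a₀) q z = 0 ↔
      push (ev1 g) q z = 0 := by
    intro q z
    rw [pf_eq]
    constructor
    · intro h
      apply mapDomain_injective (Jl_inj (g a₀) q)
      rw [h, mapDomain_zero]
    · intro h
      rw [h, mapDomain_zero]
  rw [hker] at hz
  obtain ⟨w₀, hw₀⟩ := (hE (n + 1)).1 z hbz (by rw [hz]; exact Submodule.zero_mem _)
  have hc : push (ev1 g) (n + 2) w₀ ∈ Cyc B (n + 2) := by
    change bdry B (n + 1) _ = 0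
    rw [bdry_push, hw₀, hz]
  obtain ⟨y, hy, v, hv⟩ := (hE (n + 2)).2 _ hc
  obtain ⟨v', hv'⟩ := exists_liftC g a₀ v
  refine ⟨w₀ - y - bdry (PE g) (n + 2) v', ?_, ?_⟩
  · rw [hker, map_sub, map_sub, ← bdry_push, hv', hv, sub_self]
  · have hy' : bdry (PE g) (n + 1) y = 0 := hy
    rw [map_sub, map_sub, hy', bdry_bdry, hw₀, sub_zero, sub_zero]

end

end Run7.h592
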