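import Pool.Agent.Run7.h592.Gott
import Pool.Agent.Run7.h592.PR3a

/-! R3b: the kernel complex of the based path space. -/

set_option autoImplicit false

open scoped Topology

namespace Run7.h592

open Pool.Agent.Y209.HB Finsupp

noncomputable section

/-! ## Linear algebra -/

/-- a linear map on a free module which is constant on the fibres of a map of bases kills the
kernel -/
theorem ker_factor {α β : Type} {M : Type} [AddCommGroup M] [Module ℚ M] (f : α → β)
    (L : (α →₀ ℚ) →ₗ[ℚ] M) (h : ∀ a a', f a = f a' → L (single a 1) = L (single a' 1))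
    (z : α →₀ ℚ) (hz : mapDomain f z = 0) : L z = 0 := by
  classical
  let G : (β →₀ ℚ) →ₗ[ℚ] M := linearCombination ℚ fun b =>
    if h : ∃ a, f a = b then L (single h.choose 1) else 0
  have h1 : L = G.comp (lmapDomain ℚ ℚ f) := by
    apply Finsupp.lhom_ext'
    intro a
    apply LinearMap.ext_ring
    simp only [LinearMap.comp_apply, lsingle_apply, lmapDomain_apply, mapDomain_single]
    have he : ∃ a', f a' = f a := ⟨a, rfl⟩
    simp only [G, linearCombination_single, one_smul, dif_pos he]
    exact h _ _ he.choose_spec.symm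
  rw [h1, LinearMap.comp_apply, lmapDomain_apply, hz, map_zero]

section Lin

variable {M : Type} [AddCommGroup M] [Module ℚ M] {P : Type} (F : P → M →ₗ[ℚ] M)

/-- the sums of elements of the form `F y - y` -/
def smL (L : List (P × M)) : M := (L.map fun a => F a.1 a.2 - a.2).sum

variable (U Im : Submodule ℚ M) (hIU : Im ≤ U)
  (hcomm : ∀ p q x, F p (F q x) = F q (F p x))
  (htor : ∀ p, ∃ N : ℕ, 0 < N ∧ ∀ x, ((F p) ^ N) x = x) (hF : ∀ p, ∀ u ∈ U, F p u - u ∈ Im)

include hIU hcomm htor hF in
theorem lin_key : ∀ (n : ℕ) (L : List (P × M)), L.length = n → ∀ u ∈ U, u = smL F L → u ∈ Im := by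
  intro n
  induction n with
  | zero =>
    intro L hL u _ h
    rw [List.length_eq_zero_iff] at hL
    subst hL
    rw [h]
    exact Im.zero_mem
  | succ n ih =>
    intro L hL u hu h
    obtain ⟨a, L, rfl⟩ : ∃ a L', L = a :: L' := by
      cases L with
      | nil => simp at hL
      | cons a L => exact ⟨a, L, rfl⟩
    obtain ⟨N, hN, hNx⟩ := htor a.1
    have hpow : ∀ j : ℕ, ((F a.1) ^ j) u ∈ U ∧ ((F a.1) ^ j) u - u ∈ Im := by
      intro j
      induction j with
      | zero => simp [hu]
      | succ j ihj =>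
        have h1 := hF a.1 _ ihj.1
        have h2 : ((F a.1) ^ (j + 1)) u = F a.1 (((F a.1) ^ j) u) := by
          rw [pow_succ']
          rfl
        rw [h2]
        have h3 := Im.add_mem h1 ihj.2
        rw [sub_add_sub_cancel] at h3
        exact ⟨by
          have := U.add_mem (hIU h3) hu
          rwa [sub_add_cancel] at this, h3⟩
    let T : M →ₗ[ℚ] M := ∑ j ∈ Finset.range N, (F a.1) ^ j
    have hT1 : T u - (N : ℚ) • u ∈ Im := by
      have : T u - (N : ℚ) • u = ∑ j ∈ Finset.range N, (((F a.1) ^ j) u - u) := by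
        simp only [T, LinearMap.sum_apply, Finset.sum_sub_distrib, Finset.sum_const,
          Finset.card_range]
        rw [Nat.cast_smul_eq_nsmul ℚ]
      rw [this]
      exact Im.sum_mem fun j _ => (hpow j).2
    have hT2 : T u ∈ U := by
      have := U.add_mem (hIU hT1) (U.smul_mem (N : ℚ) hu)
      rwa [sub_add_cancel] at this
    have hT3 : T (F a.1 a.2 - a.2) = 0 := by
      have h1 : T (F a.1 a.2) = ∑ j ∈ Finset.range N, ((F a.1) ^ (j + 1)) a.2 := by
        simp only [T, LinearMap.sum_apply]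
        refine Finset.sum_congr rfl fun j _ => ?_
        rw [pow_succ]
        rfl
      have h2 : T a.2 = ∑ j ∈ Finset.range N, ((F a.1) ^ j) a.2 := by
        simp only [T, LinearMap.sum_apply]
      rw [map_sub, h1, h2, ← Finset.sum_sub_distrib,
        Finset.sum_range_sub (fun j => ((F a.1) ^ j) a.2), hNx, pow_zero]
      simp
    have hcp : ∀ (q : P) (j : ℕ) (x : M), ((F a.1) ^ j) (F q x) = F q (((F a.1) ^ j) x) := by
      intro q j
      induction j with
      | zero => intro x; simp
      | succ j ihj =>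
        intro x
        rw [pow_succ]
        change ((F a.1) ^ j) (F a.1 (F q x)) = F q (((F a.1) ^ j) (F a.1 x))
        rw [hcomm, ihj]
    have hTc : ∀ (q : P) (x : M), T (F q x) = F q (T x) := by
      intro q x
      simp only [T, LinearMap.sum_apply, map_sum]
      exact Finset.sum_congr rfl fun j _ => hcp q j x
    have hT4 : T u = smL F (L.map fun b => (b.1, T b.2)) := by
      rw [h, smL, smL, List.map_cons, List.sum_cons, map_add, hT3, zero_add, List.map_map,
        map_list_sum, List.map_map]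
      congr 1
      apply List.map_congr_left
      intro b _
      simp only [Function.comp_apply, map_sub]
      rw [hTc]
    have hT5 : T u ∈ Im := ih _ (by
      rw [List.length_map]
      simpa using hL) _ hT2 hT4
    have hT6 : (N : ℚ) • u ∈ Im := by
      have := Im.sub_mem hT5 hT1
      rwa [sub_sub_cancel] at this
    have hT7 := Im.smul_mem ((N : ℚ)⁻¹) hT6
    rwa [smul_smul, inv_mul_cancel₀ (by positivity), one_smul] at hT7

/-- the submodule of these sums -/
def smV : Submodule ℚ M where
  carrier := {u | ∃ L, u = smL F L}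
  zero_mem' := ⟨[], rfl⟩
  add_mem' := by
    rintro _ _ ⟨L, rfl⟩ ⟨L', rfl⟩
    exact ⟨L ++ L', by simp [smL]⟩
  smul_mem' := by
    rintro c _ ⟨L, rfl⟩
    refine ⟨L.map fun a => (a.1, c • a.2), ?_⟩
    simp only [smL, List.map_map]
    rw [List.smul_sum, List.map_map]
    congr 1
    apply List.map_congr_left
    intro a _
    simp [smul_sub]

end Lin

/-! ## The prism operator and labels -/

section Pr

variable {E T : Type} [TopologicalSpace E] (lab : E → T)

theorem pf_PD (H : C(E × unitInterval, E))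
    (hH : ∀ e e' s, lab e = lab e' → lab (H (e, s)) = lab (H (e', s))) (n : ℕ)
    (z : Sing E n →₀ ℚ) (hz : pf lab n z = 0) : pf lab (n + 1) (Sc.PD H n z) = 0 := by
  refine ker_factor (fun (e : Sing E n) t => lab (e t)) ((pf lab (n + 1)).comp (Sc.PD H n)) ?_ z hz
  intro e e' he
  simp only [LinearMap.comp_apply]
  rw [Sc.PD_single, Sc.PD_single]
  unfold pf Sc.ppush
  rw [lmapDomain_apply, lmapDomain_apply, lmapDomain_apply, lmapDomain_apply, ← mapDomain_comp,
    ← mapDomain_comp]
  congr 1
  funext a t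
  exact hH _ _ _ (congrFun he _)

theorem pf_push (f : C(E, E)) (F : T → T) (hf : ∀ e, lab (f e) = F (lab e)) (n : ℕ)
    (z : Sing E n →₀ ℚ) : pf lab n (push f n z) =
      lmapDomain ℚ ℚ (fun (l : Dl n → T) t => F (l t)) (pf lab n z) := by
  unfold pf push
  rw [lmapDomain_apply, lmapDomain_apply, lmapDomain_apply, lmapDomain_apply, ← mapDomain_comp,
    ← mapDomain_comp]
  congr 1
  funext e t
  exact hf _

end Pr

/-! ## The action of the loops -/

section Act

variable {B : Type} [TopologicalSpace B] {b : B}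

/-- the action of the classes of loops on the classes of paths -/
def act (p : Path.Homotopic.Quotient b b) (x : Til b) : Til b := ⟨x.1, p.trans x.2⟩

theorem act_tl (γ : C(unitInterval, B)) (h0 : γ 0 = b) (h1 : γ 1 = b) (α : C(unitInterval, B))
    (h : α 0 = b) :
    act (Path.Homotopic.Quotient.mk (pth γ h0 h1)) (tl b α h) =
      tl b (cat γ α (h1.trans h.symm)) (by rw [cat_zero, h0]) := by
  unfold tl act
  simp only
  rw [← Path.Homotopic.Quotient.mk_trans]
  apply (til_iff _ _).2
  have e : ((pth γ h0 h1).trans (pth α h rfl)).toContinuousMap = cat γ α (h1.trans h.symm) := by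
    rw [← cat_pth (h := h1.trans h.symm)]
    rfl
  rw [e]
  exact hr.refl _

variable (b) in
/-- the label of a based path -/
def labp (e : PE (ptm b)) : Til b := tl b e.1.2 e.2

theorem lab_labp : (lab (ptm b) () : PE (ptm b) → Til b) = labp b := by
  funext e
  exact (lab_iff (ptm b) () e (ContinuousMap.const _ ()) rfl rfl _ e.2).2 (hr_const_cat _ _ _)

theorem lab_pt (e : PE (ptm b)) : labp b e = tl b e.1.2 e.2 := rfl

theorem act_act (p q : Path.Homotopic.Quotient b b) (x : Til b) :
    act p (act q x) = act (p.trans q) x := by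
  unfold act
  simp only
  rw [Path.Homotopic.Quotient.trans_assoc]

theorem act_comm (hB : Got B) (p q : Path.Homotopic.Quotient b b) (x : Til b) :
    act p (act q x) = act q (act p x) := by
  rw [act_act, act_act]
  congr 1
  obtain ⟨p, rfl⟩ := Path.Homotopic.Quotient.mk_surjective p
  obtain ⟨q, rfl⟩ := Path.Homotopic.Quotient.mk_surjective q
  rw [← Path.Homotopic.Quotient.mk_trans, ← Path.Homotopic.Quotient.mk_trans]
  exact Path.Homotopic.Quotient.eq.2 (hB.comm p q)

theorem act_iter (p : FundamentalGroup B b) (n : ℕ) (x : Til b) :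
    act (p ^ n : FundamentalGroup B b) x = (act p)^[n] x := by
  induction n generalizing x with
  | zero =>
    rw [pow_zero, Function.iterate_zero]
    unfold act
    rw [FundamentalGroup.one_def, Path.Homotopic.Quotient.refl_trans]
    rfl
  | succ n ih =>
    rw [pow_succ, FundamentalGroup.mul_def, ← act_act, ih, Function.iterate_succ_apply']

/-- the homotopy of the path space which realises the action of a loop -/
theorem got_act (hB : Got B) (p : Path.Homotopic.Quotient b b) :
    ∃ H : C(PE (ptm b) × unitInterval, PE (ptm b)),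
      (∀ e, labp b (H (e, 0)) = labp b e) ∧
      (∀ e, labp b (H (e, 1)) = act p (labp b e)) ∧
      ∀ e e' s, labp b e = labp b e' →
        labp b (H (e, s)) = labp b (H (e', s)) := by
  obtain ⟨p, rfl⟩ := Path.Homotopic.Quotient.mk_surjective p
  obtain ⟨H, h0, h1, p', hp', hp⟩ := hB b p
  let P1 : C((PE (ptm b) × unitInterval) × unitInterval, B) :=
    ⟨fun x => H (b, x.1.2 * x.2), by fun_prop⟩
  let Q1 : C((PE (ptm b) × unitInterval) × unitInterval, B) :=
    ⟨fun x => H (x.1.1.1.2 x.2, x.1.2), by fun_prop⟩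
  have hPQ : ∀ z, P1 (z, 1) = Q1 (z, 0) := by
    rintro ⟨e, s⟩
    change H (b, s * 1) = H (e.1.2 0, s)
    rw [mul_one]
    have := e.2
    change e.1.2 0 = b at this
    rw [this]
  have hz : ∀ z, catF P1 Q1 hPQ (z, 0) = ptm b (ContinuousMap.const _ () z) := by
    rintro ⟨e, s⟩
    rw [catF_zero]
    change H (b, s * 0) = b
    rw [mul_zero, h0]
  refine ⟨mkPE (ptm b) (ContinuousMap.const _ ()) (catF P1 Q1 hPQ) hz, ?_, ?_, ?_⟩
  · intro e
    rw [lab_pt, lab_pt, tl_eq]
    change hr (cat (pt P1 (e, 0)) (pt Q1 (e, 0)) (hPQ (e, 0))) e.1.2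
    have e1 : pt P1 (e, 0) = ContinuousMap.const _ b := by
      ext r
      change H (b, 0 * r) = b
      rw [zero_mul, h0]
    have e2 : pt Q1 (e, 0) = e.1.2 := by
      ext r
      exact h0 _
    rw [cat_congr (hPQ (e, 0)) e.2.symm e1 e2]
    exact hr_const_cat _ _ _
  · intro e
    rw [lab_pt, lab_pt]
    have hpp : Path.Homotopic.Quotient.mk p = Path.Homotopic.Quotient.mk
        (pth p'.toContinuousMap p'.source p'.target) := Path.Homotopic.Quotient.eq.2 hp.symm
    rw [hpp, act_tl, tl_eq]
    change hr (cat (pt P1 (e, 1)) (pt Q1 (e, 1)) (hPQ (e, 1))) _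
    have e1 : pt P1 (e, 1) = p'.toContinuousMap := by
      ext r
      change H (b, 1 * r) = p' r
      rw [one_mul, hp']
    have e2 : pt Q1 (e, 1) = e.1.2 := by
      ext r
      exact h1 _
    rw [cat_congr (hPQ (e, 1)) (p'.target.trans e.2.symm) e1 e2]
    exact hr.refl _
  · intro e e' s hee
    rw [lab_pt, lab_pt, tl_eq] at hee
    rw [lab_pt, lab_pt, tl_eq]
    change hr (cat (pt P1 (e, s)) (pt Q1 (e, s)) (hPQ (e, s)))
      (cat (pt P1 (e', s)) (pt Q1 (e', s)) (hPQ (e', s)))
    refine hr_cat _ _ (hr.refl _) ?_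
    exact hr_map ⟨fun x => H (x, s), by fun_prop⟩ hee

/-- two lifts of a simplex differ by a loop -/
theorem exists_act {n : ℕ} (e e' : Sing (PE (ptm b)) n)
    (h : (ev1 (ptm b)).comp e = (ev1 (ptm b)).comp e') :
    ∃ p : Path.Homotopic.Quotient b b,
      (fun t => labp b (e t)) = fun t => act p (labp b (e' t)) := by
  have h1 : ∀ t, (e t).1.2 1 = (e' t).1.2 1 := fun t => ContinuousMap.congr_fun h t
  have hz : ∀ t, (e t).1.2 0 = b := fun t => (e t).2
  have hz' : ∀ t, (e' t).1.2 0 = b := fun t => (e' t).2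
  let α := (e (vx n)).1.2
  let β := (e' (vx n)).1.2
  have hαβ : α 1 = rev β 0 := by
    rw [rev_zero]
    exact h1 _
  let γ := cat α (rev β) hαβ
  have hγ0 : γ 0 = b := (cat_zero _ _ _).trans (hz _)
  have hγ1 : γ 1 = b := by
    refine (cat_one _ _ _).trans ?_
    rw [rev_one]
    exact hz' _
  refine ⟨Path.Homotopic.Quotient.mk (pth γ hγ0 hγ1), ?_⟩
  let P : C(Dl n × unitInterval, B) := wPE (ptm b) e
  let P' : C(Dl n × unitInterval, B) := wPE (ptm b) e'
  let G1 : C(Dl n × unitInterval, B) := ⟨fun x => γ x.2, by fun_prop⟩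
  have hG : ∀ z, G1 (z, 1) = P' (z, 0) := fun z => hγ1.trans (hz' z).symm
  have hF : FH P (catF G1 P' hG) := by
    refine FH_simp P _ b hz ?_ ?_ ?_
    · intro t
      rw [catF_zero]
      exact hγ0
    · intro t
      rw [catF_one]
      exact h1 t
    · change hr α (cat γ β (hγ1.trans (hz' _).symm))
      refine hr.symm ?_
      refine (hr_assoc α (rev β) β hαβ (rev_one β)).trans ?_
      have h2 := hr_cat (((hαβ.trans (rev_zero β))).trans
        (cat_zero (rev β) β (rev_one β) ▸ (rev_zero β).symm)) (hαβ.trans (rev_zero β) : α 1 =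
        (ContinuousMap.const unitInterval (β 1)) 0) (hr.refl α) (hr_rev_cat β)
      exact h2.trans (hr_cat_const _ _ _)
  funext t
  rw [lab_pt, lab_pt, act_tl, tl_eq]
  exact FH_pt hF t

end Act

/-! ## The theorem -/

theorem p_R3b : S_R3b := by
  intro B _ b hW
  change KerAcyclic (lab (ptm b) () : PE (ptm b) → Til b)
  rw [lab_labp]
  intro n z hz hbz
  have hB : Got B := hW.got
  have := hW.pc
  have hcontr : Ac (PE (ptm b)) (n + 1) := by
    refine Ac_of_HE' (HE_cPE (ptm b)) ?_
    exact Ac_of_contr ⟨fun x => x.1, by fun_prop⟩ () (fun _ => rfl) (fun _ => rfl) n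
  obtain ⟨w₀, hw₀⟩ := hcontr z hbz
  -- the projection
  have hev : ∀ (q : ℕ) (z : Sing (PE (ptm b)) q →₀ ℚ), pf (labp b) q z = 0 →
      push (ev1 (ptm b)) q z = 0 := by
    intro q z hz
    refine ker_factor (fun (e : Sing (PE (ptm b)) q) t => labp b (e t))
      (push (ev1 (ptm b)) q) ?_ z hz
    intro e e' he
    rw [push_single, push_single]
    congr 1
    ext t
    exact congrArg Sigma.fst (congrFun he t)
  have hc : push (ev1 (ptm b)) (n + 2) w₀ ∈ Cyc B (n + 2) := by
    change bdry B (n + 1) _ = 0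
    rw [bdry_push, hw₀]
    exact hev _ _ hz
  obtain ⟨v, hv⟩ := hW.ac (n + 1) _ hc
  obtain ⟨v', hv'⟩ := exists_liftC (ptm b) () v
  let c := w₀ - bdry (PE (ptm b)) (n + 2) v'
  have hpc : push (ev1 (ptm b)) (n + 2) c = 0 := by
    rw [map_sub, ← bdry_push, hv', hv, sub_self]
  have hbc : bdry (PE (ptm b)) (n + 1) c = z := by
    rw [map_sub, bdry_bdry, hw₀, sub_zero]
  -- the modules
  let pq := pf (labp b) (n + 2)
  let U : Submodule ℚ ((Dl (n + 2) → Til b) →₀ ℚ) := Submodule.map pq
    (LinearMap.ker ((pf (labp b) (n + 1)).comp (bdry (PE (ptm b)) (n + 1))))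
  let Im : Submodule ℚ ((Dl (n + 2) → Til b) →₀ ℚ) := LinearMap.range (pq.comp (bdry (PE (ptm b)) (n + 2)))
  let F : Path.Homotopic.Quotient b b →
      ((Dl (n + 2) → Til b) →₀ ℚ) →ₗ[ℚ] ((Dl (n + 2) → Til b) →₀ ℚ) := fun p =>
    lmapDomain ℚ ℚ (fun (l : Dl (n + 2) → Til b) t => act p (l t))
  have hFF : ∀ p q x, F p (F q x) =
      lmapDomain ℚ ℚ (fun (l : Dl (n + 2) → Til b) t => act p (act q (l t))) x := by
    intro p q x
    simp only [F, lmapDomain_apply]
    rw [← mapDomain_comp]
    rfl
  have hIU : Im ≤ U := by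
    rintro _ ⟨y, rfl⟩
    refine ⟨bdry (PE (ptm b)) (n + 2) y, ?_, rfl⟩
    change pf _ _ (bdry _ _ (bdry _ _ y)) = 0
    rw [bdry_bdry, map_zero]
  have hcomm : ∀ p q x, F p (F q x) = F q (F p x) := by
    intro p q x
    rw [hFF, hFF]
    congr 2
    funext l t
    exact act_comm hB p q _
  have htor : ∀ p, ∃ N : ℕ, 0 < N ∧ ∀ x, ((F p) ^ N) x = x := by
    intro p
    obtain ⟨N, hN, hp⟩ := hW.tor b p
    refine ⟨N, hN, ?_⟩
    have hiter : ∀ (j : ℕ) (x : (Dl (n + 2) → Til b) →₀ ℚ), ((F p) ^ j) x =
        lmapDomain ℚ ℚ (fun (l : Dl (n + 2) → Til b) t => (act p)^[j] (l t)) x := by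
      intro j
      induction j with
      | zero =>
        intro x
        rw [pow_zero, lmapDomain_apply]
        simp only [Function.iterate_zero, id_eq]
        exact mapDomain_id.symm
      | succ j ih =>
        intro x
        rw [pow_succ']
        change F p (((F p) ^ j) x) = _
        rw [ih]
        simp only [F, lmapDomain_apply]
        rw [← mapDomain_comp]
        congr 1
        funext l t
        simp only [Function.comp_apply, Function.iterate_succ_apply']
    intro x
    rw [hiter, lmapDomain_apply]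
    have : (fun (l : Dl (n + 2) → Til b) t => (act p)^[N] (l t)) = id := by
      funext l t
      have h1 := act_iter p N (l t)
      rw [hp] at h1
      have h2 := act_iter p 0 (l t)
      rw [pow_zero] at h2
      rw [← h1, h2]
      rfl
    rw [this, mapDomain_id]
  have hF : ∀ p, ∀ u ∈ U, F p u - u ∈ Im := by
    rintro p _ ⟨c, hc, rfl⟩
    obtain ⟨H, h0, h1, h2⟩ := got_act hB p
    have hPD := Sc.sbd_PD H (n + 1) c
    have hk : pf (labp b) (n + 2) (Sc.PD H (n + 1) (bdry (PE (ptm b)) (n + 1) c)) = 0 :=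
      pf_PD (labp b) H h2 (n + 1) _ hc
    refine ⟨Sc.PD H (n + 2) c, ?_⟩
    have h3 := congrArg pq hPD
    rw [map_add, map_sub] at h3
    have h4 := pf_push (labp b) (Sc.slice H 1) (act p) h1 (n + 2) c
    have h5 := pf_push (labp b) (Sc.slice H 0) id h0 (n + 2) c
    have h6 : pq (Sc.PD H (n + 1) (Sc.sbd _ (n + 1) c)) = 0 := hk
    rw [h6, add_zero] at h3
    change pq (Sc.sbd _ (n + 2) (Sc.PD H (n + 2) c)) = F p (pq c) - pq c
    rw [h3]
    congr 1
    refine Eq.trans h5 ?_
    rw [lmapDomain_apply]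
    exact mapDomain_id
  -- the chain is a sum
  have hV : pq c ∈ smV F := by
    rw [← Submodule.ker_mkQ (smV F)]
    change ((smV F).mkQ.comp pq) c = 0
    refine ker_factor (fun (e : Sing (PE (ptm b)) (n + 2)) => (ev1 (ptm b)).comp e) _ ?_ c hpc
    intro e e' he
    obtain ⟨p, hp⟩ := exists_act e e' he
    simp only [LinearMap.comp_apply]
    rw [← sub_eq_zero, ← map_sub, Submodule.mkQ_apply, Submodule.Quotient.mk_eq_zero]
    refine ⟨[(p, pq (single e' 1))], ?_⟩
    simp only [smL, List.map_cons, List.map_nil, List.sum_cons, List.sum_nil, add_zero]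
    congr 1
    simp only [pq, F, pf, lmapDomain_apply, mapDomain_single]
    rw [hp]
  obtain ⟨L, hL⟩ := hV
  have hcU : pq c ∈ U := ⟨c, by
    change pf _ _ (bdry _ _ c) = 0
    rw [hbc]
    exact hz, rfl⟩
  obtain ⟨d, hd⟩ := lin_key F U Im hIU hcomm htor hF _ L rfl _ hcU hL
  refine ⟨c - bdry (PE (ptm b)) (n + 2) d, ?_, ?_⟩
  · change pq _ = 0
    rw [map_sub]
    have : pq (bdry (PE (ptm b)) (n + 2) d) = pq c := hd
    rw [this, sub_self]
  · rw [map_sub, bdry_bdry, hbc, sub_zero]

end

end Run7.h592
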