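import Pool.Agent.Run7.h592.Gott

/-! R4a: the loops of the homotopy fibre are traces of self-homotopies of the identity. -/

set_option autoImplicit false

open scoped Topology unitInterval

namespace Run7.h592

open Pool.Agent.Y209.HB

noncomputable section

section Sq

variable {B : Type} [TopologicalSpace B]

/-- the two ways around a square, for classes of paths -/
theorem sq_eq {x y z w : B} (K : C(I × I, B)) (α : Path x y) (β : Path y z) (γ : Path x w)
    (δ : Path w z) (hα : ∀ t, α t = K (0, t)) (hβ : ∀ s, β s = K (s, 1))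
    (hγ : ∀ s, γ s = K (s, 0)) (hδ : ∀ t, δ t = K (1, t)) :
    (Path.Homotopic.Quotient.mk α).trans (Path.Homotopic.Quotient.mk β) =
      (Path.Homotopic.Quotient.mk γ).trans (Path.Homotopic.Quotient.mk δ) := by
  have h := hr_square K α.toContinuousMap β.toContinuousMap γ.toContinuousMap δ.toContinuousMap
    hα hβ hγ hδ
  rw [cat_pth, cat_pth, hr_path] at h
  rw [← Path.Homotopic.Quotient.mk_trans, ← Path.Homotopic.Quotient.mk_trans]
  exact Path.Homotopic.Quotient.eq.2 h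

/-- it is enough to have the condition at one point -/
theorem Got_of_point (h : PathConnectedSpace B) (b₀ : B)
    (h₀ : ∀ γ : Path b₀ b₀, ∃ H : C(B × I, B), (∀ x, H (x, 0) = x) ∧ (∀ x, H (x, 1) = x) ∧
      ∃ γ' : Path b₀ b₀, (∀ s, γ' s = H (b₀, s)) ∧ Path.Homotopic γ' γ) : Got B := by
  intro b γ
  let δ : Path b₀ b := h.somePath b₀ b
  obtain ⟨H, h0, h1, γ₀, hγ₀, hγ⟩ := h₀ ((δ.trans γ).trans δ.symm)
  let γ' : Path b b := ⟨⟨fun s => H (b, s), by fun_prop⟩, h0 b, h1 b⟩
  refine ⟨H, h0, h1, γ', fun _ => rfl, ?_⟩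
  have h2 := sq_eq ⟨fun x => H (δ x.2, x.1), by fun_prop⟩ δ γ' γ₀ δ
    (fun t => (h0 _).symm) (fun s => by
      change H (b, s) = H (δ 1, s)
      rw [δ.target]) (fun s => by
      change γ₀ s = H (δ 0, s)
      rw [δ.source, hγ₀]) (fun t => (h1 _).symm)
  have h3 := Path.Homotopic.Quotient.eq.2 hγ
  rw [h3, Path.Homotopic.Quotient.mk_trans, Path.Homotopic.Quotient.mk_trans,
    Path.Homotopic.Quotient.mk_symm, Path.Homotopic.Quotient.trans_assoc,
    Path.Homotopic.Quotient.symm_trans, Path.Homotopic.Quotient.trans_refl] at h2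
  have h4 := congrArg (fun x => (Path.Homotopic.Quotient.mk δ).symm.trans x) h2
  rw [← Path.Homotopic.Quotient.trans_assoc, ← Path.Homotopic.Quotient.trans_assoc,
    Path.Homotopic.Quotient.symm_trans, Path.Homotopic.Quotient.refl_trans,
    Path.Homotopic.Quotient.refl_trans] at h4
  exact Path.Homotopic.Quotient.exact h4

theorem cat_const_const (b : B) (α β : C(I, B)) (h : α 1 = β 0) (h1 : ∀ s, α s = b)
    (h2 : ∀ s, β s = b) : cat α β h = ContinuousMap.const _ b := by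
  ext s
  rw [cat_apply]
  split_ifs
  · exact h1 _
  · exact h2 _

end Sq

section FHc

variable {Z B : Type} [TopologicalSpace Z] [TopologicalSpace B]

/-- `const · P ~ P` -/
theorem FH_const' (P Q : C(Z × I, B)) (h : ∀ z, Q (z, 1) = P (z, 0))
    (hQ : ∀ z s, Q (z, s) = P (z, 0)) : FH (catF Q P h) P := by
  refine FH_rep P ⟨fun s => ⟨max (2 * (s : ℝ) - 1) 0, by
      constructor
      · exact le_max_right _ _
      · exact max_le (by linarith [s.2.2]) zero_le_one⟩, by
      refine Continuous.subtype_mk ?_ _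
      fun_prop⟩ (ContinuousMap.id I) ?_ ?_ _ _ ?_ (fun _ _ => rfl)
  · apply Subtype.ext
    change max (2 * ((0 : I) : ℝ) - 1) 0 = ((0 : I) : ℝ)
    rw [Set.Icc.coe_zero]
    norm_num
  · apply Subtype.ext
    change max (2 * ((1 : I) : ℝ) - 1) 0 = ((1 : I) : ℝ)
    rw [Set.Icc.coe_one]
    norm_num
  · intro z s
    change cat (pt Q z) (pt P z) (h z) s = _
    rw [cat_apply]
    split_ifs with hs
    · change Q (z, _) = P (z, _)
      rw [hQ]
      congr 2
      apply Subtype.ext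
      change (0 : ℝ) = max (2 * (s : ℝ) - 1) 0
      rw [max_eq_right (by linarith)]
    · push Not at hs
      change P (z, _) = P (z, _)
      congr 2
      apply Subtype.ext
      change 2 * (s : ℝ) - 1 = max (2 * (s : ℝ) - 1) 0
      rw [max_eq_left (by linarith)]

end FHc

section R4a

variable {A B : Type} [TopologicalSpace A] [TopologicalSpace B] [SimplyConnectedSpace A]
  {g : C(A, B)} {a₀ : A}

/-- extend a path by the image of a path of `A` -/
theorem Lb.move {a : A} {ω : C(I, B)} (h : Lb g a₀ a ω (ContinuousMap.const _ (g a₀)))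
    (d : C(I, A)) (hd : d 1 = a) (h' : (g.comp d) 1 = ω 0) :
    Lb g a₀ (d 0) (cat (g.comp d) ω h') (ContinuousMap.const _ (g a₀)) := by
  let c := cp a₀ (d 0)
  have hc1 : c 1 = d 0 := cp_one a₀ _
  have hcd0 : (cat c d hc1) 0 = a₀ := (cat_zero _ _ _).trans (cp_zero a₀ _)
  have hcd1 : (cat c d hc1) 1 = a := (cat_one _ _ _).trans hd
  refine Lb_of c (cp_zero a₀ _) hc1 ((congrArg g hc1).trans (cat_zero (g.comp d) ω h').symm) ?_
  refine (hr_assoc (g.comp c) (g.comp d) ω (congrArg g hc1) h').symm.trans ?_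
  let e : PE g := ⟨(a, ω), h.1⟩
  have h1 := (lab_Lb g a₀ e _ rfl).2 h
  have h2 := (lab_iff g a₀ e (cat c d hc1) hcd0 hcd1 _ rfl).1 h1
  have h3 := comp_cat g c d hc1
  have h4 : hr (cat (g.comp (cat c d hc1)) ω ((congrArg g hcd1).trans h.1.symm))
    (cat (cat (g.comp c) (g.comp d) (congrArg g hc1)) ω ((cat_one _ _ _).trans h')) := by
    rw [cat_congr ((congrArg g hcd1).trans h.1.symm) ((cat_one _ _ _).trans h') h3 rfl]
    exact hr.refl _
  exact h4.symm.trans h2

variable (g a₀) in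
/-- the point of `A` over the fibre -/
def aF : C(Fib (lab g a₀) (til0 (g a₀)), A) := ⟨fun f => f.1.1.1, by fun_prop⟩

theorem wF_Lb (f : Fib (lab g a₀) (til0 (g a₀))) :
    Lb g a₀ (aF g a₀ f) (pt (wF g a₀) f) (ContinuousMap.const _ (g a₀)) :=
  (mem_Fib g a₀ f.1).1 f.2

theorem toFib_id : toFib (aF g a₀) (wF g a₀) wF_Lb = ContinuousMap.id _ := by
  ext f : 1
  apply Subtype.ext
  apply Subtype.ext
  exact Prod.ext rfl rfl

theorem toFib_ext {Z : Type} [TopologicalSpace Z] (a : C(Z, A)) (W : C(Z × I, B))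
    (h : ∀ z, Lb g a₀ (a z) (pt W z) (ContinuousMap.const _ (g a₀))) (z : Z)
    (f : Fib (lab g a₀) (til0 (g a₀))) (h1 : a z = f.1.1.1) (h2 : pt W z = f.1.1.2) :
    toFib a W h z = f := by
  apply Subtype.ext
  apply Subtype.ext
  exact Prod.ext h1 h2

variable (g a₀) in
theorem got_fib0 (γ : Path (fib0 g a₀) (fib0 g a₀))
    (M : C(NF g a₀, NF g a₀)) (hM : ∀ f, (M f).1.1 = (f.1.1.1, cat f.1.1.2
      (ContinuousMap.const _ (g a₀)) (wF_one g a₀ f)))
    (R : C(NF g a₀ × I, NF g a₀)) (hR0 : ∀ f, (R (f, 0)).1.1 = (f.1.1.1, cat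
      (ContinuousMap.const _ (g f.1.1.1)) f.1.1.2 f.1.2.symm))
    (hR1 : ∀ f, R (f, 1) = f) (q : Path (fib0 g a₀) (fib0 g a₀))
    (hq : ∀ s, q s = R (fib0 g a₀, s)) :
    ∃ (H : C(NF g a₀ × I, NF g a₀)) (h : Path (fib0 g a₀) (fib0 g a₀)),
      (∀ x, H (x, 0) = M x) ∧ (∀ x, H (x, 1) = M x) ∧ (∀ s, h s = H (fib0 g a₀, s)) ∧
      (Path.Homotopic.Quotient.mk h).trans (Path.Homotopic.Quotient.mk (q.trans q)) =
        (Path.Homotopic.Quotient.mk (q.trans q)).trans (Path.Homotopic.Quotient.mk γ) := by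
  -- the null homotopy in `A`
  let a : C(I, A) := (aF g a₀).comp γ.toContinuousMap
  have ha0 : a 0 = a₀ := by
    change (γ 0).1.1.1 = a₀
    rw [γ.source]
    rfl
  have ha1 : a 1 = a₀ := by
    change (γ 1).1.1.1 = a₀
    rw [γ.target]
    rfl
  obtain ⟨F⟩ : (pth a ha0 ha1).Homotopic (Path.refl a₀) := SimplyConnectedSpace.paths_homotopic _ _
  let k : C(I × I, A) := ⟨fun x => F (x.2, x.1), by fun_prop⟩
  have k0 : ∀ s, k (s, 0) = a s := fun s => F.apply_zero s
  have k1 : ∀ s, k (s, 1) = a₀ := fun s => F.apply_one s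
  have k2 : ∀ r, k (0, r) = a₀ := fun r => F.source r
  have k3 : ∀ r, k (1, r) = a₀ := fun r => F.target r
  -- the map of the square
  let L : C((I × I) × I, B) := ⟨fun x => (γ x.1.1).1.1.2 x.2, by fun_prop⟩
  let D : C((I × I) × I, B) :=
    ⟨fun x => g (k (x.1.1, unitInterval.symm x.1.2 * unitInterval.symm x.2)), by fun_prop⟩
  have hDL : ∀ z, D (z, 1) = L (z, 0) := by
    rintro ⟨s, r⟩
    change g (k (s, unitInterval.symm r * unitInterval.symm 1)) = (γ s).1.1.2 0
    rw [unitInterval.symm_one, mul_zero, k0]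
    exact (γ s).1.2.symm
  let ka : C(I × I, A) := ⟨fun x => k (x.1, unitInterval.symm x.2), by fun_prop⟩
  have hLb : ∀ z, Lb g a₀ (ka z) (pt (catF D L hDL) z) (ContinuousMap.const _ (g a₀)) := by
    rintro ⟨s, r⟩
    let d : C(I, A) := ⟨fun r' => k (s, unitInterval.symm r * unitInterval.symm r'), by fun_prop⟩
    have hd0 : d 0 = ka (s, r) := by
      change k (s, unitInterval.symm r * unitInterval.symm 0) = k (s, unitInterval.symm r)
      rw [unitInterval.symm_zero, mul_one]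
    have hd1 : d 1 = aF g a₀ (γ s) := by
      change k (s, unitInterval.symm r * unitInterval.symm 1) = _
      rw [unitInterval.symm_one, mul_zero, k0]
      rfl
    have := (wF_Lb (γ s)).move d hd1 (hDL (s, r))
    rw [hd0] at this
    exact this
  let G2 : C(I × I, NF g a₀) := toFib ka (catF D L hDL) hLb
  have hLc : ∀ s, γ s = fib0 g a₀ → ∀ r r', L ((s, r), r') = g a₀ := by
    intro s hs r r'
    change (γ s).1.1.2 r' = g a₀
    rw [hs]
    rfl
  have G2s : ∀ s, γ s = fib0 g a₀ → (∀ r, k (s, r) = a₀) → ∀ r, G2 (s, r) = fib0 g a₀ := by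
    intro s hs hk r
    refine toFib_ext _ _ hLb _ _ (hk _) ?_
    change cat (pt D (s, r)) (pt L (s, r)) (hDL (s, r)) = ContinuousMap.const _ (g a₀)
    refine cat_const_const (g a₀) _ _ _ ?_ (fun r' => hLc s hs r r')
    intro r'
    change g (k (s, _)) = g a₀
    rw [hk]
  have G20 := G2s 0 γ.source k2
  have G21 := G2s 1 γ.target k3
  -- the loop `γ₁` and the family of loops of `B`
  let γ₁ : Path (fib0 g a₀) (fib0 g a₀) := ⟨⟨fun s => G2 (s, 0), by fun_prop⟩, G20 0, G21 0⟩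
  let γ₂ : Path (fib0 g a₀) (fib0 g a₀) := ⟨⟨fun s => G2 (s, 1), by fun_prop⟩, G20 1, G21 1⟩
  have hγ₁a : ∀ s, (γ₁ s).1.1.1 = a₀ := by
    intro s
    change k (s, unitInterval.symm 0) = a₀
    rw [unitInterval.symm_zero, k1]
  have hγ₂ : ∀ s, γ₂ s = R (γ s, 0) := by
    intro s
    have e := hR0 (γ s)
    refine toFib_ext _ _ hLb _ _ ?_ ?_
    · rw [e]
      change k (s, unitInterval.symm 1) = _
      rw [unitInterval.symm_one, k0]
      rfl
    · rw [e]
      change cat (pt D (s, 1)) (pt L (s, 1)) (hDL (s, 1)) = cat _ _ _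
      refine cat_congr _ _ ?_ rfl
      ext r'
      change g (k (s, unitInterval.symm 1 * unitInterval.symm r')) = g (γ s).1.1.1
      rw [unitInterval.symm_one, zero_mul, k0]
      rfl
  -- the family of maps
  let aN : C(NF g a₀ × I, A) := ⟨fun x => x.1.1.1.1, by fun_prop⟩
  let W1 : C((NF g a₀ × I) × I, B) := ⟨fun x => x.1.1.1.1.2 x.2, by fun_prop⟩
  let W2 : C((NF g a₀ × I) × I, B) := ⟨fun x => (γ₁ x.1.2).1.1.2 x.2, by fun_prop⟩
  have hW : ∀ z, W1 (z, 1) = W2 (z, 0) := by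
    rintro ⟨x, s⟩
    change x.1.1.2 1 = (γ₁ s).1.1.2 0
    rw [(γ₁ s).1.2, hγ₁a]
    exact wF_one g a₀ x
  have hγ₁c : ∀ s, hr (γ₁ s).1.1.2 (ContinuousMap.const _ (g a₀)) := by
    intro s
    have h1 := wF_Lb (γ₁ s)
    have h2 := (lab_Lb g a₀ (γ₁ s).1 (ContinuousMap.const _ (g a₀)) rfl).2 h1
    have h3 := (lab_iff g a₀ (γ₁ s).1 (ContinuousMap.const _ a₀) rfl (hγ₁a s).symm _ rfl).1 h2
    exact (hr_const_cat _ _ _).symm.trans h3
  have hWL : ∀ z, Lb g a₀ (aN z) (pt (catF W1 W2 hW) z) (ContinuousMap.const _ (g a₀)) := by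
    rintro ⟨x, s⟩
    exact ((wF_Lb x).append (p := pt W2 (x, s)) (hW (x, s))).hr_right (hγ₁c s)
  let H : C(NF g a₀ × I, NF g a₀) := toFib aN (catF W1 W2 hW) hWL
  have hγ₁0 : γ₁ 0 = fib0 g a₀ := γ₁.source
  have hγ₁1 : γ₁ 1 = fib0 g a₀ := γ₁.target
  have hHM : ∀ s x, γ₁ s = fib0 g a₀ → H (x, s) = M x := by
    intro s x hs
    refine toFib_ext _ _ hWL _ _ ?_ ?_
    · rw [hM]
      rfl
    · rw [hM]
      change cat (pt W1 (x, s)) (pt W2 (x, s)) (hW (x, s)) = cat _ _ _
      refine cat_congr _ _ rfl ?_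
      ext r
      change (γ₁ s).1.1.2 r = g a₀
      rw [hs]
      rfl
  have hM0 : M (fib0 g a₀) = fib0 g a₀ := by
    apply Subtype.ext
    apply Subtype.ext
    rw [hM]
    refine Prod.ext rfl ?_
    exact cat_const_const (g a₀) _ _ _ (fun _ => rfl) (fun _ => rfl)
  let h : Path (fib0 g a₀) (fib0 g a₀) := ⟨⟨fun s => H (fib0 g a₀, s), by fun_prop⟩,
    (hHM 0 _ hγ₁0).trans hM0, (hHM 1 _ hγ₁1).trans hM0⟩
  have hh : ∀ s, h s = R (γ₁ s, 0) := by
    intro s
    have e := hR0 (γ₁ s)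
    refine toFib_ext _ _ hWL _ _ ?_ ?_
    · rw [e]
      exact (hγ₁a s).symm
    · rw [e]
      change cat (pt W1 (fib0 g a₀, s)) (pt W2 (fib0 g a₀, s)) (hW (fib0 g a₀, s)) = cat _ _ _
      refine cat_congr _ _ ?_ rfl
      ext r
      change g a₀ = g (γ₁ s).1.1.1
      rw [hγ₁a]
  refine ⟨H, h, fun x => hHM 0 x hγ₁0, fun x => hHM 1 x hγ₁1, fun _ => rfl, ?_⟩
  -- the squares
  have s1 := sq_eq ⟨fun x => R (γ₁ x.1, x.2), by fun_prop⟩ q γ₁ h q (fun t => by
      change q t = R (γ₁ 0, t)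
      rw [hγ₁0, hq]) (fun s => (hR1 _).symm) hh (fun t => by
      change q t = R (γ₁ 1, t)
      rw [hγ₁1, hq])
  have s2 := sq_eq G2 (Path.refl _) γ₂ γ₁ (Path.refl _) (fun t => (G20 t).symm) (fun s => rfl)
    (fun s => rfl) (fun t => (G21 t).symm)
  have s3 := sq_eq ⟨fun x => R (γ x.1, x.2), by fun_prop⟩ q γ γ₂ q (fun t => by
      change q t = R (γ 0, t)
      rw [γ.source, hq]) (fun s => (hR1 _).symm) hγ₂ (fun t => by
      change q t = R (γ 1, t)
      rw [γ.target, hq])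
  rw [Path.Homotopic.Quotient.mk_refl, Path.Homotopic.Quotient.refl_trans,
    Path.Homotopic.Quotient.trans_refl] at s2
  rw [Path.Homotopic.Quotient.mk_trans, ← Path.Homotopic.Quotient.trans_assoc, ← s1,
    Path.Homotopic.Quotient.trans_assoc, ← s2, ← s3, Path.Homotopic.Quotient.trans_assoc]

end R4a

theorem p_R4a : S_R4a := by
  intro A B _ _ _ g a₀
  change Got (NF g a₀)
  -- the map `M`
  let N := NF g a₀
  let C0 : C(NF g a₀ × I, B) := ContinuousMap.const _ (g a₀)
  have hC0 : ∀ z, wF g a₀ (z, 1) = C0 (z, 0) := fun z => wF_one g a₀ z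
  have hMLb : ∀ z, Lb g a₀ (aF g a₀ z) (pt (catF (wF g a₀) C0 hC0) z)
      (ContinuousMap.const _ (g a₀)) := fun z =>
    (wF_Lb z).hr_left (hr_cat_const _ _ (wF_one g a₀ z)).symm
  let M : C(NF g a₀, NF g a₀) := toFib (aF g a₀) (catF (wF g a₀) C0 hC0) hMLb
  have hP : Hty (ContinuousMap.id _) M := by
    rw [← toFib_id]
    exact toFib_hty (aF g a₀) (wF g a₀) _ wF_Lb hMLb (FH_const _ _ _ (fun _ _ => rfl)).symm
  let C1 : C(NF g a₀ × I, B) := ⟨fun x => g (x.1.1.1.1), by fun_prop⟩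
  have hC1 : ∀ z, C1 (z, 1) = wF g a₀ (z, 0) := fun z => z.1.2.symm
  have hC1c : ∀ z s, C1 (z, s) = wF g a₀ (z, 0) := fun z s => z.1.2.symm
  have hRLb : ∀ z, Lb g a₀ (aF g a₀ z) (pt (catF C1 (wF g a₀) hC1) z)
      (ContinuousMap.const _ (g a₀)) := fun z =>
    (wF_Lb z).hr_left (FH_pt (FH_const' _ _ hC1 hC1c) z).symm
  have hR : Hty (toFib (aF g a₀) (catF C1 (wF g a₀) hC1) hRLb) (ContinuousMap.id _) := by
    rw [← toFib_id]
    exact toFib_hty (aF g a₀) _ (wF g a₀) hRLb wF_Lb (FH_const' _ _ hC1 hC1c)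
  obtain ⟨P, P0, P1⟩ := hP
  obtain ⟨R, R0, R1⟩ := hR
  refine Got_of_point (B := NF g a₀) (p_R2b A B g a₀) (fib0 g a₀) ?_
  intro γ₀
  have hM0 : M (fib0 g a₀) = fib0 g a₀ := by
    refine toFib_ext _ _ hMLb _ _ rfl ?_
    change cat (pt (wF g a₀) (fib0 g a₀)) (pt C0 (fib0 g a₀)) (hC0 (fib0 g a₀)) =
      ContinuousMap.const _ (g a₀)
    exact cat_const_const (g a₀) _ _ _ (fun _ => rfl) (fun _ => rfl)
  have hR00 : R (fib0 g a₀, 0) = fib0 g a₀ := by
    rw [R0]
    refine toFib_ext _ _ hRLb _ _ rfl ?_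
    change cat (pt C1 (fib0 g a₀)) (pt (wF g a₀) (fib0 g a₀)) (hC1 (fib0 g a₀)) =
      ContinuousMap.const _ (g a₀)
    exact cat_const_const (g a₀) _ _ _ (fun _ => rfl) (fun _ => rfl)
  let q : Path (fib0 g a₀) (fib0 g a₀) := ⟨⟨fun s => R (fib0 g a₀, s), by fun_prop⟩, hR00, R1 _⟩
  let p : Path (fib0 g a₀) (fib0 g a₀) := ⟨⟨fun s => P (fib0 g a₀, s), by fun_prop⟩, P0 _,
    (P1 _).trans hM0⟩
  obtain ⟨c, hcd⟩ : ∃ c : Path (fib0 g a₀) (fib0 g a₀), c = p.trans (q.trans q) := ⟨_, rfl⟩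
  obtain ⟨H, h, H0, H1, hh, hc⟩ := got_fib0 g a₀ ((c.symm.trans γ₀).trans c) M (fun f => rfl) R
    (fun f => by rw [R0]; rfl) R1 q (fun _ => rfl)
  have hPH : ∀ z, P (z, 1) = H (z, 0) := fun z => (P1 z).trans (H0 z).symm
  have hPH2 : ∀ z, catF P H hPH (z, 1) = revF P (z, 0) := by
    intro z
    rw [catF_one, revF_zero, H1, P1]
  refine ⟨catF (catF P H hPH) (revF P) hPH2, ?_, ?_, ?_⟩
  · intro x
    rw [catF_zero, catF_zero, P0]
    rfl
  · intro x
    rw [catF_one, revF_one, P0]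
    rfl
  · have hcc : ∀ s, ((p.trans h).trans p.symm) s =
        catF (catF P H hPH) (revF P) hPH2 (fib0 g a₀, s) := by
      have e1 : (p.trans h).toContinuousMap = cat (pt P (fib0 g a₀)) (pt H (fib0 g a₀))
          (hPH (fib0 g a₀)) := by
        have h1 : p.toContinuousMap = pt P (fib0 g a₀) := rfl
        have h2 : h.toContinuousMap = pt H (fib0 g a₀) := by
          ext1 s
          exact hh s
        rw [← cat_pth p h (p.target.trans h.source.symm)]
        exact cat_congr _ _ h1 h2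
      have e2 : ((p.trans h).trans p.symm).toContinuousMap =
          cat (cat (pt P (fib0 g a₀)) (pt H (fib0 g a₀)) (hPH (fib0 g a₀)))
            (pt (revF P) (fib0 g a₀)) (hPH2 (fib0 g a₀)) := by
        rw [← cat_pth (p.trans h) p.symm ((p.trans h).target.trans p.symm.source.symm)]
        exact cat_congr _ _ e1 rfl
      intro s
      exact ContinuousMap.congr_fun e2 s
    refine ⟨(p.trans h).trans p.symm, hcc, ?_⟩
    apply Path.Homotopic.Quotient.exact
    have hp : (Path.Homotopic.Quotient.mk c) = (Path.Homotopic.Quotient.mk p).trans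
      (Path.Homotopic.Quotient.mk (q.trans q)) := by
      rw [hcd]
      exact Path.Homotopic.Quotient.mk_trans _ _
    -- cancel `q q` on the right
    have h1 : Path.Homotopic.Quotient.mk h = ((Path.Homotopic.Quotient.mk (q.trans q)).trans
        (Path.Homotopic.Quotient.mk ((c.symm.trans γ₀).trans c))).trans
          (Path.Homotopic.Quotient.mk (q.trans q)).symm := by
      rw [← hc, Path.Homotopic.Quotient.trans_assoc, Path.Homotopic.Quotient.trans_symm,
        Path.Homotopic.Quotient.trans_refl]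
    have h2 : ((Path.Homotopic.Quotient.mk p).trans (Path.Homotopic.Quotient.mk h)).trans
        (Path.Homotopic.Quotient.mk p).symm = (((Path.Homotopic.Quotient.mk c).trans
          (Path.Homotopic.Quotient.mk ((c.symm.trans γ₀).trans c))).trans
            (Path.Homotopic.Quotient.mk (q.trans q)).symm).trans
              (Path.Homotopic.Quotient.mk p).symm := by
      rw [h1, hp]
      simp only [Path.Homotopic.Quotient.trans_assoc]
    have h3 : (Path.Homotopic.Quotient.mk c).symm = (Path.Homotopic.Quotient.mk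
        (q.trans q)).symm.trans (Path.Homotopic.Quotient.mk p).symm := by
      rw [← Path.Homotopic.Quotient.mk_symm, ← Path.Homotopic.Quotient.mk_symm,
        ← Path.Homotopic.Quotient.mk_symm, ← Path.Homotopic.Quotient.mk_trans]
      congr 1
      rw [hcd]
      exact Path.trans_symm _ _
    rw [Path.Homotopic.Quotient.mk_trans (p.trans h) p.symm,
      Path.Homotopic.Quotient.mk_trans p h,
      Path.Homotopic.Quotient.mk_symm, h2, Path.Homotopic.Quotient.trans_assoc, ← h3,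
      Path.Homotopic.Quotient.mk_trans (c.symm.trans γ₀) c,
      Path.Homotopic.Quotient.mk_trans c.symm γ₀,
      Path.Homotopic.Quotient.mk_symm]
    simp only [Path.Homotopic.Quotient.trans_assoc]
    rw [Path.Homotopic.Quotient.trans_symm, Path.Homotopic.Quotient.trans_refl,
      ← Path.Homotopic.Quotient.trans_assoc, Path.Homotopic.Quotient.trans_symm,
      Path.Homotopic.Quotient.refl_trans]

end

end Run7.h592
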