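import Pool.Agent.Run7.h592.PR3b

/-! R4b: the fundamental group is torsion. -/

set_option autoImplicit false

open scoped Topology TensorProduct

namespace Run7.h592

open Pool.Agent.Y209.HB Finsupp

noncomputable section

/-- the kernel of `M → ℚ ⊗ M` is torsion -/
theorem tors_of_tens (M : Type) [AddCommGroup M] (m : M) (h : (1 : ℚ) ⊗ₜ[ℤ] m = 0) :
    ∃ N : ℕ, 0 < N ∧ N • m = 0 := by
  have h2 : TensorProduct.mk ℤ ℚ M 1 m = 0 := h
  obtain ⟨s, hs⟩ := (IsLocalizedModule.eq_zero_iff (nonZeroDivisors ℤ) _).1 h2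
  have hs0 : (s : ℤ) ≠ 0 := nonZeroDivisors.coe_ne_zero s
  refine ⟨(s : ℤ).natAbs, Int.natAbs_pos.2 hs0, ?_⟩
  have h4 : (s : ℤ) • m = 0 := hs
  rcases Int.natAbs_eq (s : ℤ) with h | h
  · rw [h] at h4
    rwa [natCast_zsmul] at h4
  · rw [h] at h4
    rwa [neg_smul, neg_eq_zero, natCast_zsmul] at h4

/-- the interval as the 1-simplex -/
def e1 : C(unitInterval, Dl 1) where
  toFun s := ⟨![1 - (s : ℝ), (s : ℝ)], by
    constructor
    · intro i
      fin_cases i
      · simpa using s.2.2
      · simpa using s.2.1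
    · rw [Fin.sum_univ_two]
      simp⟩
  continuous_toFun := by
    refine Continuous.subtype_mk (continuous_pi fun i => ?_) _
    fin_cases i
    · change Continuous fun s : unitInterval => 1 - (s : ℝ)
      fun_prop
    · change Continuous fun s : unitInterval => (s : ℝ)
      fun_prop

theorem e1_zero : e1 0 = stdSimplex.vertex 0 := by
  apply Subtype.ext
  funext i
  fin_cases i <;> simp [e1]

theorem e1_one : e1 1 = stdSimplex.vertex 1 := by
  apply Subtype.ext
  funext i
  fin_cases i <;> simp [e1]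

theorem dlF_vertex (q : ℕ) (i : Fin (q + 2)) (j : Fin (q + 1)) :
    dlF q i (stdSimplex.vertex j) = stdSimplex.vertex (i.succAbove j) := by
  change stdSimplex.map _ _ = _
  rw [stdSimplex.map_vertex]

theorem sc_Dl (q : ℕ) : SimplyConnectedSpace (Dl q) := by
  have : ContractibleSpace (Dl q) :=
    (convex_stdSimplex ℝ (Fin (q + 1))).contractibleSpace ⟨_, (stdSimplex.vertex 0).2⟩
  infer_instance

section Th

variable {B : Type} [TopologicalSpace B] [PathConnectedSpace B] (b : B)

/-- a path from the base point -/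
def cc (x : B) : Path.Homotopic.Quotient b x :=
  Path.Homotopic.Quotient.mk (PathConnectedSpace.somePath b x)

/-- the loop of a path -/
def th (α : C(unitInterval, B)) : Path.Homotopic.Quotient b b :=
  ((cc b (α 0)).trans (Path.Homotopic.Quotient.mk (pth α rfl rfl))).trans (cc b (α 1)).symm

theorem th_path {x y : B} (p : Path x y) : th b p.toContinuousMap =
    ((cc b x).trans (Path.Homotopic.Quotient.mk p)).trans (cc b y).symm := by
  obtain ⟨α, rfl, rfl⟩ := p
  rfl

theorem th_hr {α β : C(unitInterval, B)} (h : hr α β) : th b α = th b β := by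
  have h1 := (hr_iff α β rfl rfl h.zero h.one).1 h
  have h2 := th_path b (pth β h.zero h.one)
  have h3 := th_path b (pth α rfl rfl)
  rw [Path.Homotopic.Quotient.eq.2 h1, ← h2] at h3
  exact h3

theorem th_cat (α β : C(unitInterval, B)) (h : α 1 = β 0) :
    th b (cat α β h) = (th b α).trans (th b β) := by
  have h1 := th_path b ((pth α rfl h).trans (pth β rfl rfl))
  rw [← cat_pth (pth α rfl h) (pth β rfl rfl) h] at h1
  have h2 := th_path b (pth α rfl h)
  have h3 := th_path b (pth β rfl rfl)
  change th b (cat α β h) = _ at h1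
  change th b α = _ at h2
  change th b β = _ at h3
  rw [h1, h2, h3, Path.Homotopic.Quotient.mk_trans]
  simp only [Path.Homotopic.Quotient.trans_assoc]
  congr 2
  rw [← Path.Homotopic.Quotient.trans_assoc (cc b (β 0)).symm,
    Path.Homotopic.Quotient.symm_trans, Path.Homotopic.Quotient.refl_trans]

theorem th_face (τ : Sing B 2) : th b ((sface 1 1 τ).comp e1) =
    (th b ((sface 1 2 τ).comp e1)).trans (th b ((sface 1 0 τ).comp e1)) := by
  have := sc_Dl 2
  have h01 : ((dlF 1 2).comp e1) 1 = ((dlF 1 0).comp e1) 0 := by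
    change dlF 1 2 (e1 1) = dlF 1 0 (e1 0)
    rw [e1_one, e1_zero, dlF_vertex, dlF_vertex]
    rfl
  have h1 := hr_sc (τ : C(Dl 2, B)) ((dlF 1 1).comp e1)
    (cat ((dlF 1 2).comp e1) ((dlF 1 0).comp e1) h01) (by
      rw [cat_zero]
      change dlF 1 1 (e1 0) = dlF 1 2 (e1 0)
      rw [e1_zero, dlF_vertex, dlF_vertex]
      rfl) (by
      rw [cat_one]
      change dlF 1 1 (e1 1) = dlF 1 0 (e1 1)
      rw [e1_one, dlF_vertex, dlF_vertex]
      rfl)
  rw [comp_cat] at h1
  have h2 := th_hr b h1
  rw [th_cat] at h2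
  exact h2

/-- the loop of a path, in the fundamental group -/
def thG (α : C(unitInterval, B)) : FundamentalGroup B b := th b α

theorem thG_face (τ : Sing B 2) : thG b ((sface 1 1 τ).comp e1) =
    thG b ((sface 1 0 τ).comp e1) * thG b ((sface 1 2 τ).comp e1) := th_face b τ

theorem thG_conj (γ : Path b b) : ∃ c x : FundamentalGroup B b, x = Path.Homotopic.Quotient.mk γ ∧
    thG b γ.toContinuousMap = c⁻¹ * (x * c) :=
  ⟨cc b b, Path.Homotopic.Quotient.mk γ, rfl, th_path b γ⟩

end Th

theorem p_R4b : S_R4b := by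
  intro B _ hpc hac hB b
  have hG : Got B := hB
  let C : CommGroup (FundamentalGroup B b) :=
    { (inferInstance : Group (FundamentalGroup B b)) with
      mul_comm := by
        intro p q
        obtain ⟨p, rfl⟩ := Path.Homotopic.Quotient.mk_surjective p
        obtain ⟨q, rfl⟩ := Path.Homotopic.Quotient.mk_surjective q
        change (Path.Homotopic.Quotient.mk q).trans (Path.Homotopic.Quotient.mk p) =
          (Path.Homotopic.Quotient.mk p).trans (Path.Homotopic.Quotient.mk q)
        rw [← Path.Homotopic.Quotient.mk_trans, ← Path.Homotopic.Quotient.mk_trans]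
        exact Path.Homotopic.Quotient.eq.2 (hG.comm q p) }
  let M := Additive (FundamentalGroup B b)
  let j : M →ₗ[ℤ] ℚ ⊗[ℤ] M := TensorProduct.mk ℤ ℚ M 1
  let θ : Sing B 1 → M := fun σ => Additive.ofMul (thG b (σ.comp e1))
  let Θ : (Sing B 1 →₀ ℚ) →ₗ[ℚ] ℚ ⊗[ℤ] M := linearCombination ℚ fun σ => j (θ σ)
  have hΘ : ∀ w : Sing B 2 →₀ ℚ, Θ (bdry B 1 w) = 0 := by
    intro w
    have : Θ.comp (bdry B 1) = 0 := by
      apply Finsupp.lhom_ext'
      intro τ
      apply LinearMap.ext_ring
      simp only [LinearMap.comp_apply, lsingle_apply, LinearMap.zero_apply]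
      rw [bdry_single, Fin.sum_univ_three]
      simp only [Fin.val_zero, pow_zero, one_smul, Fin.val_one, pow_one, Fin.val_two, neg_smul,
        map_add, map_neg, even_two, Even.neg_pow, one_pow, Θ, linearCombination_single]
      have h1 : θ (sface 1 1 τ) = θ (sface 1 2 τ) + θ (sface 1 0 τ) := by
        change Additive.ofMul (thG b _) = Additive.ofMul (thG b _ * thG b _)
        rw [thG_face b τ, mul_comm]
      rw [h1, map_add]
      abel
    exact LinearMap.congr_fun this w
  -- every loop
  have key : ∀ γ : Path b b, ∃ N : ℕ, 0 < N ∧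
      (thG b γ.toContinuousMap) ^ N = 1 := by
    intro γ
    have h1 := path_bdry γ
    rw [sub_self] at h1
    obtain ⟨w, hw⟩ := hac (single ((γ.toContinuousMap.comp dl1 : C(Dl 1, B)) : Sing B 1) 1) h1
    have h2 := hΘ w
    rw [hw] at h2
    simp only [Θ, linearCombination_single, one_smul] at h2
    have h3 : θ (γ.toContinuousMap.comp dl1) = Additive.ofMul (thG b γ.toContinuousMap) := by
      change Additive.ofMul (thG b _) = Additive.ofMul (thG b _)
      congr 2
    rw [h3] at h2
    exact tors_of_tens M _ h2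
  intro x
  obtain ⟨γ, rfl⟩ := Path.Homotopic.Quotient.mk_surjective x
  obtain ⟨N, hN, hx⟩ := key γ
  refine ⟨N, hN, ?_⟩
  obtain ⟨c, x, rfl, h5⟩ := thG_conj b γ
  rw [h5, mul_comm, mul_assoc, mul_inv_cancel, mul_one] at hx
  exact hx

end

end Run7.h592
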