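import Pool.Agent.Run7.h592.Asm1

/-! Assembly, part 2: rational homotopy groups as vector spaces. -/

set_option autoImplicit false

open scoped Topology TensorProduct

namespace Run7.h592

open Pool.Agent.Y209.HB

noncomputable section

/-! ## Tensoring with the rationals -/

section Tens

variable {M N : Type} [AddCommGroup M] [AddCommGroup N]

theorem tens_nsmul (q : ℚ) (k : ℕ) (hk : 0 < k) (m : M) :
    q ⊗ₜ[ℤ] m = (q / k) ⊗ₜ[ℤ] ((k : ℕ) • m) := by
  have hk' : (k : ℚ) ≠ 0 := by positivity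
  have : q ⊗ₜ[ℤ] m = ((k : ℤ) • (q / k)) ⊗ₜ[ℤ] m := by
    congr 1
    rw [zsmul_eq_mul]
    push_cast
    field_simp
  rw [this, TensorProduct.smul_tmul, natCast_zsmul]

theorem tens_surj (φ : M →ₗ[ℤ] N) (h : ∀ n : N, ∃ (k : ℕ) (m : M), 0 < k ∧ φ m = k • n) :
    Function.Surjective (φ.baseChange ℚ) := by
  intro y
  induction y using TensorProduct.induction_on with
  | zero => exact ⟨0, map_zero _⟩
  | tmul q n =>
    obtain ⟨k, m, hk, hm⟩ := h n
    refine ⟨(q / k) ⊗ₜ[ℤ] m, ?_⟩
    rw [LinearMap.baseChange_tmul, hm, ← tens_nsmul q k hk n]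
  | add x y hx hy =>
    obtain ⟨a, rfl⟩ := hx
    obtain ⟨b, rfl⟩ := hy
    exact ⟨a + b, map_add _ _ _⟩

theorem tens_inj (φ : M →ₗ[ℤ] N) (h : Function.Injective φ) :
    Function.Injective (φ.baseChange ℚ) := by
  have := Module.Flat.lTensor_preserves_injective_linearMap (M := ℚ) φ h
  exact this

theorem tens_tor (h : ∀ m : M, ∃ k : ℕ, 0 < k ∧ k • m = 0) : Subsingleton (ℚ ⊗[ℤ] M) := by
  refine ⟨fun a b => ?_⟩
  have key : ∀ x : ℚ ⊗[ℤ] M, x = 0 := by
    intro x
    induction x using TensorProduct.induction_on with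
    | zero => rfl
    | tmul q m =>
      obtain ⟨k, hk, hm⟩ := h m
      rw [tens_nsmul q k hk m, hm, TensorProduct.tmul_zero]
    | add x y hx hy => rw [hx, hy, add_zero]
  rw [key a, key b]

theorem tens_span (s : M) (h : ∀ m : M, ∃ (k : ℕ) (a : ℤ), 0 < k ∧ k • m = a • s) :
    Module.Finite ℚ (ℚ ⊗[ℤ] M) := by
  refine ⟨⟨{(1 : ℚ) ⊗ₜ[ℤ] s}, ?_⟩⟩
  rw [eq_top_iff]
  intro x _
  induction x using TensorProduct.induction_on with
  | zero => exact Submodule.zero_mem _
  | tmul q m =>
    obtain ⟨k, a, hk, hm⟩ := h m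
    rw [tens_nsmul q k hk m, hm, ← TensorProduct.smul_tmul]
    have : (a • (q / k)) ⊗ₜ[ℤ] s = (a • (q / k) : ℚ) • ((1 : ℚ) ⊗ₜ[ℤ] s) := by
      rw [TensorProduct.smul_tmul', smul_eq_mul, mul_one]
    rw [this]
    exact Submodule.smul_mem _ _ (Submodule.subset_span (by simp))
  | add x y hx hy => exact Submodule.add_mem _ (hx trivial) (hy trivial)

end Tens

/-! ## Homotopy groups -/

section PiH

variable {A X : Type} [TopologicalSpace A] [TopologicalSpace X]

theorem gcomp_transAt {N : Type} [DecidableEq N] (g : C(A, X)) {a : A} (i : N)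
    (p q : GenLoop N A a) :
    gcomp g (GenLoop.transAt i p q) = GenLoop.transAt i (gcomp g p) (gcomp g q) := by
  ext t
  change g ((GenLoop.transAt i p q) t) = _
  simp only [GenLoop.transAt, GenLoop.coe_copy]
  split_ifs <;> rfl

/-- the class of a generalised loop -/
def hcl {N : Type} {x : X} (p : GenLoop N X x) : HomotopyGroup N X x := ⟦p⟧

theorem hcl_surj {N : Type} {x : X} (α : HomotopyGroup N X x) : ∃ p, hcl p = α :=
  Quotient.exists_rep α

theorem hcl_mul {k : ℕ} {x : X} (i : Fin (k + 1)) (p q : GenLoop (Fin (k + 1)) X x) :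
    hcl p * hcl q = hcl (GenLoop.transAt i q p) := HomotopyGroup.mul_spec (i := i)

/-- the homomorphism on homotopy groups -/
def piH (k : ℕ) (g : C(A, X)) (a : A) :
    HomotopyGroup (Fin (k + 1)) A a →* HomotopyGroup (Fin (k + 1)) X (g a) where
  toFun := pimap g a
  map_one' := by
    rw [HomotopyGroup.one_def, HomotopyGroup.one_def]
    rfl
  map_mul' := by
    intro x y
    obtain ⟨p, rfl⟩ := hcl_surj x
    obtain ⟨q, rfl⟩ := hcl_surj y
    rw [hcl_mul 0]
    change hcl (gcomp g (GenLoop.transAt 0 q p)) = hcl (gcomp g p) * hcl (gcomp g q)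
    rw [hcl_mul 0, gcomp_transAt]

/-- the linear map on rational homotopy groups -/
def piL (k : ℕ) (g : C(A, X)) (a : A) :
    Additive (HomotopyGroup (Fin (k + 2)) A a) →ₗ[ℤ]
      Additive (HomotopyGroup (Fin (k + 2)) X (g a)) :=
  (piH (k + 1) g a).toAdditive.toIntLinearMap

theorem piL_apply (k : ℕ) (g : C(A, X)) (a : A) (x : HomotopyGroup (Fin (k + 2)) A a) :
    piL k g a (Additive.ofMul x) = Additive.ofMul (pimap g a x) := rfl

end PiH

/-- rational homotopy groups of the target from those of the source -/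
theorem pi_of_RW {A X : Type} [TopologicalSpace A] [TopologicalSpace X] (g : C(A, X)) (e : PE g)
    (k : ℕ) (h6 : S_R6)
    (hrw : ∀ α : HomotopyGroup (Fin (k + 2)) X (ev1 g e),
      ∃ (N : ℕ) (β : HomotopyGroup (Fin (k + 2)) (PE g) e), 0 < N ∧ pimap (ev1 g) e β = α ^ N) :
    (Module.Finite ℚ (PiQ A (prA g e) k) → Module.Finite ℚ (PiQ X (ev1 g e) k)) ∧
    (Subsingleton (PiQ A (prA g e) k) → Subsingleton (PiQ X (ev1 g e) k)) := by
  have s1 : Function.Surjective ((piL k (ev1 g) e).baseChange ℚ) := by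
    apply tens_surj
    intro n
    obtain ⟨N, β, hN, hβ⟩ := hrw (Additive.toMul n)
    refine ⟨N, Additive.ofMul β, hN, ?_⟩
    rw [piL_apply, hβ]
    rfl
  have s2 : Function.Injective ((piL k (prA g) e).baseChange ℚ) := by
    apply tens_inj
    rw [← LinearMap.ker_eq_bot, LinearMap.ker_eq_bot']
    intro m hm
    exact h6 A X g e (k + 1) (Additive.toMul m) hm
  constructor
  · intro hf
    have := Module.Finite.of_injective _ s2
    exact Module.Finite.of_surjective _ s1
  · intro hs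
    have h1 : Subsingleton (ℚ ⊗[ℤ] Additive (HomotopyGroup (Fin (k + 2)) (PE g) e)) :=
      s2.subsingleton
    exact s1.subsingleton

end

end Run7.h592
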