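import Pool.Agent.Run7.h592.PR4a
import Pool.Agent.Run7.h592.Asm2

/-! R5a, R5b, R6: homotopy groups. -/

set_option autoImplicit false

open scoped Topology

namespace Run7.h592

open Pool.Agent.Y209.HB

noncomputable section

section Hcl

variable {X : Type} [TopologicalSpace X]

theorem hcl_iff {N : Type} {x : X} (p q : GenLoop N X x) : hcl p = hcl q ↔
    ∃ H : C((N → unitInterval) × unitInterval, X), (∀ t, H (t, 0) = p t) ∧ (∀ t, H (t, 1) = q t) ∧
      ∀ t ∈ Cube.boundary N, ∀ s, H (t, s) = x := by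
  constructor
  · intro h
    obtain ⟨F⟩ : GenLoop.Homotopic p q := Quotient.exact h
    refine ⟨F.toContinuousMap.comp ContinuousMap.prodSwap, fun t => F.apply_zero t,
      fun t => F.apply_one t, fun t ht s => ?_⟩
    exact (F.eq_fst s ht).trans (p.2 t ht)
  · rintro ⟨H, h0, h1, h2⟩
    refine Quotient.sound ?_
    refine ⟨⟨⟨H.comp ContinuousMap.prodSwap, fun t => h0 t, fun t => h1 t⟩, ?_⟩⟩
    intro s t ht
    exact (h2 t ht s).trans (p.2 t ht).symm

theorem hcl_one {k : ℕ} {x : X} : hcl (GenLoop.const : GenLoop (Fin (k + 1)) X x) = 1 :=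
  HomotopyGroup.one_def.symm

/-- the point of the cube without its last coordinate -/
def ini {k : ℕ} : C(Fin (k + 2) → unitInterval, Fin (k + 1) → unitInterval) :=
  ⟨fun t i => t i.castSucc, by fun_prop⟩

/-- add a last coordinate -/
def sno {k : ℕ} : C((Fin (k + 1) → unitInterval) × unitInterval, Fin (k + 2) → unitInterval) :=
  ⟨fun x => Fin.snoc (α := fun _ => unitInterval) x.1 x.2, by
    refine continuous_pi fun i => ?_
    refine Fin.lastCases ?_ (fun i => ?_) i
    · simp only [Fin.snoc_last]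
      exact continuous_snd
    · simp only [Fin.snoc_castSucc]
      fun_prop⟩

theorem sno_last {k : ℕ} (t : Fin (k + 1) → unitInterval) (s : unitInterval) :
    sno (t, s) (Fin.last _) = s := Fin.snoc_last (α := fun _ => unitInterval) _ _

theorem sno_castSucc {k : ℕ} (t : Fin (k + 1) → unitInterval) (s : unitInterval) (i) :
    sno (t, s) (Fin.castSucc i) = t i := Fin.snoc_castSucc (α := fun _ => unitInterval) _ _ _

theorem ini_sno {k : ℕ} (t : Fin (k + 1) → unitInterval) (s : unitInterval) :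
    ini (sno (t, s)) = t := by
  funext i
  exact sno_castSucc t s i

theorem sno_ini {k : ℕ} (t : Fin (k + 2) → unitInterval) : sno (ini t, t (Fin.last _)) = t := by
  funext i
  refine Fin.lastCases ?_ (fun i => ?_) i
  · exact sno_last _ _
  · exact sno_castSucc _ _ _

theorem sno_bd {k : ℕ} (t : Fin (k + 1) → unitInterval) (s : unitInterval) :
    sno (t, s) ∈ Cube.boundary (Fin (k + 2)) ↔ t ∈ Cube.boundary (Fin (k + 1)) ∨ s = 0 ∨ s = 1 := by
  constructor
  · rintro ⟨i, hi⟩
    revert hi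
    refine Fin.lastCases ?_ (fun i => ?_) i
    · intro hi
      rw [sno_last] at hi
      exact Or.inr hi
    · intro hi
      rw [sno_castSucc] at hi
      exact Or.inl ⟨i, hi⟩
  · rintro (⟨i, hi⟩ | hs)
    · refine ⟨i.castSucc, ?_⟩
      rwa [sno_castSucc]
    · refine ⟨Fin.last _, ?_⟩
      rwa [sno_last]

theorem transAt_apply {N : Type} [DecidableEq N] {x : X} (i : N) (f g : GenLoop N X x)
    (t : N → unitInterval) : GenLoop.transAt i f g t = if (t i : ℝ) ≤ 1 / 2
      then f (Function.update t i <| Set.projIcc 0 1 zero_le_one (2 * t i))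
      else g (Function.update t i <| Set.projIcc 0 1 zero_le_one (2 * t i - 1)) := by
  rw [GenLoop.transAt, GenLoop.coe_copy]

end Hcl

section Th

variable {A X : Type} [TopologicalSpace A] [TopologicalSpace X] [SimplyConnectedSpace A]
  (g : C(A, X)) (a₀ : A)

/-- the loops `s ↦ p (t, s)` -/
def sl1 {k : ℕ} (p : GenLoop (Fin (k + 2)) X (g a₀)) :
    C((Fin (k + 1) → unitInterval) × unitInterval, X) := p.1.comp sno

theorem sl1_bd {k : ℕ} (p : GenLoop (Fin (k + 2)) X (g a₀)) (t : Fin (k + 1) → unitInterval)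
    (s : unitInterval) (h : t ∈ Cube.boundary (Fin (k + 1)) ∨ s = 0 ∨ s = 1) :
    sl1 g a₀ p (t, s) = g a₀ := p.2 _ ((sno_bd t s).2 h)

/-- null homotopy of these loops -/
theorem sl1_Lb {k : ℕ} (p : GenLoop (Fin (k + 2)) X (g a₀)) (t : Fin (k + 1) → unitInterval) :
    Lb g a₀ a₀ (pt (sl1 g a₀ p) t) (ContinuousMap.const _ (g a₀)) := by
  refine (Lb_const g a₀).hr_left ?_
  let K : C((Unit × unitInterval) × unitInterval, X) :=
    ⟨fun x => sl1 g a₀ p (fun i => x.2 * t i, x.1.2), by fun_prop⟩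
  have h1 : FH (ContinuousMap.const _ (g a₀) : C(Unit × unitInterval, X))
      ⟨fun x => sl1 g a₀ p (t, x.2), by fun_prop⟩ := by
    refine ⟨K, ?_, ?_, ?_, ?_⟩
    · rintro ⟨_, s⟩
      refine sl1_bd g a₀ p _ _ (Or.inl ⟨0, Or.inl ?_⟩)
      change 0 * t 0 = 0
      rw [zero_mul]
    · rintro ⟨_, s⟩
      change sl1 g a₀ p (fun i => 1 * t i, s) = sl1 g a₀ p (t, s)
      simp only [one_mul]
    · intro _ r
      exact sl1_bd g a₀ p _ _ (Or.inr (Or.inl rfl))
    · intro _ r
      exact sl1_bd g a₀ p _ _ (Or.inr (Or.inr rfl))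
  exact FH_pt h1 ()

/-- the generalised loop of the fibre defined by a generalised loop of the target -/
def Thm {k : ℕ} (p : GenLoop (Fin (k + 2)) X (g a₀)) :
    GenLoop (Fin (k + 1)) (NF g a₀) (fib0 g a₀) :=
  ⟨toFib (ContinuousMap.const _ a₀) (sl1 g a₀ p) (sl1_Lb g a₀ p), fun t ht => by
    refine toFib_ext _ _ (sl1_Lb g a₀ p) t _ rfl ?_
    ext s
    exact sl1_bd g a₀ p t s (Or.inl ht)⟩

theorem Thm_path {k : ℕ} (p : GenLoop (Fin (k + 2)) X (g a₀)) (t : Fin (k + 1) → unitInterval)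
    (s : unitInterval) : (Thm g a₀ p t).1.1.2 s = p (sno (t, s)) := rfl

theorem Thm_pt {k : ℕ} (p : GenLoop (Fin (k + 2)) X (g a₀)) (t : Fin (k + 1) → unitInterval) :
    (Thm g a₀ p t).1.1.1 = a₀ := rfl

theorem Thm_ext {k : ℕ} (p : GenLoop (Fin (k + 2)) X (g a₀))
    (f : NF g a₀) (t : Fin (k + 1) → unitInterval) (h1 : a₀ = f.1.1.1)
    (h2 : ∀ s, p (sno (t, s)) = f.1.1.2 s) : Thm g a₀ p t = f := by
  apply Subtype.ext
  apply Subtype.ext
  refine Prod.ext h1 ?_
  ext s
  exact h2 s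

theorem Thm_transAt {k : ℕ} (i : Fin (k + 1)) (p q : GenLoop (Fin (k + 2)) X (g a₀)) :
    Thm g a₀ (GenLoop.transAt i.castSucc p q) = GenLoop.transAt i (Thm g a₀ p) (Thm g a₀ q) := by
  apply GenLoop.ext
  intro t
  have hu : ∀ v s, Function.update (sno (t, s)) i.castSucc v = sno (Function.update t i v, s) := by
    intro v s
    funext j
    refine Fin.lastCases ?_ (fun j => ?_) j
    · rw [sno_last, Function.update_of_ne (Fin.castSucc_lt_last i).ne', sno_last]
    · rw [sno_castSucc]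
      by_cases hj : j = i
      · subst hj
        rw [Function.update_self, Function.update_self]
      · rw [Function.update_of_ne hj, Function.update_of_ne (by
          intro h
          exact hj (Fin.castSucc_injective _ h)), sno_castSucc]
  rw [transAt_apply]
  refine Thm_ext g a₀ _ _ t ?_ ?_
  · split_ifs <;> rfl
  · intro s
    rw [transAt_apply, sno_castSucc, hu, hu]
    split_ifs <;> rfl

theorem Thm_homotopic {k : ℕ} (p q : GenLoop (Fin (k + 2)) X (g a₀)) (h : hcl p = hcl q) :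
    hcl (Thm g a₀ p) = hcl (Thm g a₀ q) := by
  obtain ⟨H, h0, h1, h2⟩ := (hcl_iff p q).1 h
  let W : C(((Fin (k + 1) → unitInterval) × unitInterval) × unitInterval, X) := ⟨fun x => H (sno (x.1.1, x.2), x.1.2), by fun_prop⟩
  have hW : ∀ z, Lb g a₀ a₀ (pt W z) (ContinuousMap.const _ (g a₀)) := by
    rintro ⟨t, r⟩
    refine Lb.hr_left (sl1_Lb g a₀ p t) ?_
    have h3 : FH (⟨fun x => sl1 g a₀ p (t, x.2), by fun_prop⟩ : C(Unit × unitInterval, X))
        ⟨fun x => H (sno (t, x.2), r), by fun_prop⟩ := by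
      refine ⟨⟨fun x => H (sno (t, x.1.2), r * x.2), by fun_prop⟩, ?_, ?_, ?_, ?_⟩
      · rintro ⟨_, s⟩
        change H (sno (t, s), r * 0) = p (sno (t, s))
        rw [mul_zero, h0]
      · rintro ⟨_, s⟩
        change H (sno (t, s), r * 1) = H (sno (t, s), r)
        rw [mul_one]
      · intro _ r'
        change H (sno (t, 0), _) = p (sno (t, 0))
        rw [h2 _ ((sno_bd t 0).2 (Or.inr (Or.inl rfl)))]
        exact (p.2 _ ((sno_bd t 0).2 (Or.inr (Or.inl rfl)))).symm
      · intro _ r'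
        change H (sno (t, 1), _) = p (sno (t, 1))
        rw [h2 _ ((sno_bd t 1).2 (Or.inr (Or.inr rfl)))]
        exact (p.2 _ ((sno_bd t 1).2 (Or.inr (Or.inr rfl)))).symm
    exact FH_pt h3 ()
  rw [hcl_iff]
  refine ⟨toFib (ContinuousMap.const _ a₀) W hW, ?_, ?_, ?_⟩
  · intro t
    refine toFib_ext _ _ hW _ _ rfl ?_
    ext s
    exact h0 _
  · intro t
    refine toFib_ext _ _ hW _ _ rfl ?_
    ext s
    exact h1 _
  · intro t ht r
    refine toFib_ext _ _ hW _ _ rfl ?_
    ext s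
    exact h2 _ ((sno_bd t s).2 (Or.inl ht)) _

/-- the homomorphism `π_{k+2}(X) → π_{k+1}(NF)` -/
def ThH (k : ℕ) : HomotopyGroup (Fin (k + 2)) X (g a₀) →*
    HomotopyGroup (Fin (k + 1)) (NF g a₀) (fib0 g a₀) where
  toFun := Quotient.lift (fun p => hcl (Thm g a₀ p)) fun p q h =>
    Thm_homotopic g a₀ p q (Quotient.sound h)
  map_one' := by
    rw [HomotopyGroup.one_def]
    change hcl (Thm g a₀ GenLoop.const) = 1
    rw [← hcl_one]
    congr 1
  map_mul' := by
    intro x y
    obtain ⟨p, rfl⟩ := hcl_surj x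
    obtain ⟨q, rfl⟩ := hcl_surj y
    rw [hcl_mul (Fin.castSucc 0)]
    change hcl (Thm g a₀ (GenLoop.transAt (Fin.castSucc 0) q p)) =
      hcl (Thm g a₀ p) * hcl (Thm g a₀ q)
    rw [hcl_mul 0, Thm_transAt]

theorem ThH_hcl {k : ℕ} (p : GenLoop (Fin (k + 2)) X (g a₀)) :
    ThH g a₀ k (hcl p) = hcl (Thm g a₀ p) := rfl

/-- exactness -/
theorem exact_Th {k : ℕ} (p : GenLoop (Fin (k + 2)) X (g a₀))
    (h : hcl (Thm g a₀ p) = 1) : ∃ β : GenLoop (Fin (k + 2)) A a₀, hcl (gcomp g β) = hcl p := by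
  rw [← hcl_one, hcl_iff] at h
  obtain ⟨H, h0, h1, h2⟩ := h
  let β : GenLoop (Fin (k + 2)) A a₀ := ⟨⟨fun t => (H (ini t, t (Fin.last _))).1.1.1, by fun_prop⟩, by
    intro t ht
    change (H (ini t, t (Fin.last _))).1.1.1 = a₀
    rw [← sno_ini t, sno_bd] at ht
    rcases ht with ht | ht | ht
    · rw [h2 _ ht]
      rfl
    · rw [ht, h0]
      rfl
    · rw [ht, h1]
      rfl⟩
  refine ⟨β, ?_⟩
  rw [hcl_iff]
  -- the two reparametrisations
  let c1 : C(unitInterval, unitInterval) := ⟨fun r => ⟨min 1 (2 * (1 - (r : ℝ))), by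
      constructor
      · exact le_min zero_le_one (by linarith [r.2.2])
      · exact min_le_left _ _⟩, by
      refine Continuous.subtype_mk ?_ _
      fun_prop⟩
  let c2 : C(unitInterval, unitInterval) := ⟨fun r => ⟨min 1 (2 * (r : ℝ)), by
      constructor
      · exact le_min zero_le_one (by linarith [r.2.1])
      · exact min_le_left _ _⟩, by
      refine Continuous.subtype_mk ?_ _
      fun_prop⟩
  have c10 : c1 0 = 1 := by
    apply Subtype.ext
    change min (1 : ℝ) (2 * (1 - ((0 : unitInterval) : ℝ))) = 1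
    simp
  have c11 : c1 1 = 0 := by
    apply Subtype.ext
    change min (1 : ℝ) (2 * (1 - ((1 : unitInterval) : ℝ))) = 0
    simp
  have c20 : c2 0 = 0 := by
    apply Subtype.ext
    change min (1 : ℝ) (2 * ((0 : unitInterval) : ℝ)) = 0
    simp
  have c21 : c2 1 = 1 := by
    apply Subtype.ext
    change min (1 : ℝ) (2 * ((1 : unitInterval) : ℝ)) = 1
    simp
  have c12 : ∀ r, c1 r = 1 ∨ c2 r = 1 := by
    intro r
    rcases le_total (r : ℝ) (1 / 2) with h | h
    · left
      apply Subtype.ext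
      change min (1 : ℝ) (2 * (1 - (r : ℝ))) = 1
      exact min_eq_left (by linarith)
    · right
      apply Subtype.ext
      change min (1 : ℝ) (2 * (r : ℝ)) = 1
      exact min_eq_left (by linarith)
  have hend : ∀ f : NF g a₀, f.1.1.2 1 = g a₀ := wF_one g a₀
  refine ⟨⟨fun x => (H (ini x.1, c1 x.2 * x.1 (Fin.last _))).1.1.2 (c2 x.2 * x.1 (Fin.last _)),
    by fun_prop⟩, ?_, ?_, ?_⟩
  · intro t
    change (H (ini t, c1 0 * t (Fin.last _))).1.1.2 (c2 0 * t (Fin.last _)) =
      g (H (ini t, t (Fin.last _))).1.1.1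
    rw [c10, c20, one_mul, zero_mul]
    exact (H (ini t, t (Fin.last _))).1.2
  · intro t
    change (H (ini t, c1 1 * t (Fin.last _))).1.1.2 (c2 1 * t (Fin.last _)) = p t
    rw [c11, c21, one_mul, zero_mul, h0, Thm_path, sno_ini]
  · intro t ht r
    change (H (ini t, c1 r * t (Fin.last _))).1.1.2 (c2 r * t (Fin.last _)) = g a₀
    rw [← sno_ini t, sno_bd] at ht
    rcases ht with ht | ht | ht
    · rw [h2 _ ht]
      rfl
    · rw [ht, mul_zero, mul_zero, h0, Thm_path]
      exact p.2 _ ((sno_bd _ _).2 (Or.inr (Or.inl rfl)))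
    · rw [ht, mul_one, mul_one]
      rcases c12 r with h | h
      · rw [h, h1]
        rfl
      · rw [h]
        exact hend _

end Th

theorem p_R5b : S_R5b := by
  intro A X _ _ _ g a₀ hT k α
  obtain ⟨N, hN, h⟩ := hT (fib0 g a₀) k (ThH g a₀ k α)
  rw [← map_pow] at h
  obtain ⟨p, hp⟩ := hcl_surj (α ^ N)
  rw [← hp, ThH_hcl] at h
  obtain ⟨β, hβ⟩ := exact_Th g a₀ p h
  exact ⟨N, hcl β, hN, hβ.trans hp⟩

/-- for the inclusion of a point, the homomorphism is injective -/
theorem Th_inj {B : Type} [TopologicalSpace B] (b : B) {k : ℕ}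
    (p : GenLoop (Fin (k + 2)) B (ptm b ())) (h : hcl (Thm (ptm b) () p) = 1) : hcl p = 1 := by
  obtain ⟨β, hβ⟩ := exact_Th (ptm b) () p h
  rw [← hβ, ← hcl_one]
  congr 1

theorem Tor_step {B : Type} [TopologicalSpace B] (b : B) {k : ℕ}
    (h : Tor (HomotopyGroup (Fin (k + 1)) (NF (ptm b) ()) (fib0 (ptm b) ()))) :
    Tor (HomotopyGroup (Fin (k + 2)) B (ptm b ())) := by
  intro x
  obtain ⟨N, hN, h⟩ := h (ThH (ptm b) () k x)
  refine ⟨N, hN, ?_⟩
  rw [← map_pow] at h
  obtain ⟨p, hp⟩ := hcl_surj (x ^ N)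
  rw [← hp] at h ⊢
  exact Th_inj b p h

theorem p_R5a : S_R5a := by
  intro hNF B _ hB b k
  induction k generalizing B with
  | zero =>
    intro x
    obtain ⟨N, hN, h⟩ := hB.tor b (HomotopyGroup.pi1MulEquivFundamentalGroup x)
    refine ⟨N, hN, ?_⟩
    rw [← map_pow] at h
    exact (map_eq_one_iff _ (MulEquiv.injective _)).1 h
  | succ k ih => exact Tor_step b (ih (NF (ptm b) ()) (hNF B b hB) (fib0 (ptm b) ()))

end

end Run7.h592
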