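import Pool.Agent.Run7.h592.PR5

/-! R6: the projection of the path space is injective on homotopy groups. -/

set_option autoImplicit false

open scoped Topology

namespace Run7.h592

open Pool.Agent.Y209.HB

noncomputable section

section NF

/-- the function which is `1` in the middle of the interval and `0` at the ends -/
def phi1 : C(unitInterval, unitInterval) := ⟨fun x => ⟨min 1 (4 * min (x : ℝ) (1 - x)), by
    constructor
    · exact le_min zero_le_one (mul_nonneg (by norm_num) (le_min x.2.1 (by linarith [x.2.2])))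
    · exact min_le_left _ _⟩, by
    refine Continuous.subtype_mk ?_ _
    fun_prop⟩

theorem phi1_zero : phi1 0 = 0 := by
  apply Subtype.ext
  change min (1 : ℝ) (4 * min ((0 : unitInterval) : ℝ) (1 - ((0 : unitInterval) : ℝ))) = 0
  simp

theorem phi1_one : phi1 1 = 0 := by
  apply Subtype.ext
  change min (1 : ℝ) (4 * min ((1 : unitInterval) : ℝ) (1 - ((1 : unitInterval) : ℝ))) = 0
  simp

/-- expansion of the interval -/
def cl1 : C(unitInterval, unitInterval) :=
  ⟨fun x => Set.projIcc (0 : ℝ) 1 zero_le_one (2 * (x : ℝ) - 1 / 2), by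
    refine continuous_projIcc.comp ?_
    fun_prop⟩

theorem cl1_zero : cl1 0 = 0 := Set.projIcc_of_le_left zero_le_one (by
  rw [Set.Icc.coe_zero]
  norm_num)

theorem cl1_one : cl1 1 = 1 := Set.projIcc_of_right_le zero_le_one (by
  rw [Set.Icc.coe_one]
  norm_num)

theorem cl1_phi1 (x : unitInterval) (h : phi1 x ≠ 1) : cl1 x = 0 ∨ cl1 x = 1 := by
  rcases le_total (x : ℝ) (1 / 4) with h1 | h1
  · left
    exact Set.projIcc_of_le_left zero_le_one (by linarith)
  · rcases le_total (3 / 4) (x : ℝ) with h2 | h2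
    · right
      exact Set.projIcc_of_right_le zero_le_one (by linarith)
    · exfalso
      apply h
      apply Subtype.ext
      change min (1 : ℝ) (4 * min (x : ℝ) (1 - x)) = 1
      apply min_eq_left
      have : (1 / 4 : ℝ) ≤ min (x : ℝ) (1 - x) := le_min h1 (by linarith)
      linarith

variable {Y : Type} [TopologicalSpace Y]

/-- a generalised loop which is freely homotopic to a constant, the boundary being moved along a
path, is null homotopic -/
theorem null_free {k : ℕ} {y : Y} (p : GenLoop (Fin (k + 1)) Y y)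
    (K : C((Fin (k + 1) → unitInterval) × unitInterval, Y)) (y₁ : Y) (h0 : ∀ t, K (t, 0) = p t)
    (h1 : ∀ t, K (t, 1) = y₁) (δ : C(unitInterval, Y))
    (hδ : ∀ t ∈ Cube.boundary (Fin (k + 1)), ∀ s, K (t, s) = δ s) : hcl p = 1 := by
  let h : C(Fin (k + 1) → unitInterval, unitInterval) := ⟨fun t => ∏ i, phi1 (t i),
    continuous_finsetProd _ fun i _ => by fun_prop⟩
  let cl : C(Fin (k + 1) → unitInterval, Fin (k + 1) → unitInterval) :=
    ⟨fun t i => cl1 (t i), by fun_prop⟩
  have hb0 : ∀ t ∈ Cube.boundary (Fin (k + 1)), h t = 0 := by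
    rintro t ⟨i, hi⟩
    change ∏ i, phi1 (t i) = 0
    refine Finset.prod_eq_zero (Finset.mem_univ i) ?_
    rcases hi with hi | hi
    · rw [hi, phi1_zero]
    · rw [hi, phi1_one]
  have hb1 : ∀ t, h t ≠ 1 → cl t ∈ Cube.boundary (Fin (k + 1)) := by
    intro t ht
    by_contra hc
    apply ht
    change ∏ i, phi1 (t i) = 1
    refine Finset.prod_eq_one fun i _ => ?_
    by_contra hi
    exact hc ⟨i, cl1_phi1 (t i) hi⟩
  have hz : (fun _ => 0 : Fin (k + 1) → unitInterval) ∈ Cube.boundary (Fin (k + 1)) :=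
    ⟨0, Or.inl rfl⟩
  have hδ0 : δ 0 = y := by
    rw [← hδ _ hz, h0]
    exact p.2 _ hz
  have hKδ : ∀ t, K (cl t, h t) = δ (h t) := by
    intro t
    by_cases ht : h t = 1
    · rw [ht, h1, ← hδ _ hz, h1]
    · exact hδ _ (hb1 t ht) _
  let p' : GenLoop (Fin (k + 1)) Y y := ⟨δ.comp h, fun t ht => by
    change δ (h t) = y
    rw [hb0 t ht, hδ0]⟩
  have e1 : hcl p = hcl p' := by
    rw [hcl_iff]
    refine ⟨⟨fun x => K (fun i => cvx x.2 (x.1 i) (cl x.1 i), cvx x.2 0 (h x.1)), ?_⟩, ?_, ?_, ?_⟩
    · refine K.continuous.comp (Continuous.prodMk (continuous_pi fun i => ?_) ?_)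
      · exact continuous_cvx (by fun_prop) (by fun_prop) (by fun_prop)
      · exact continuous_cvx (by fun_prop) (by fun_prop) (by fun_prop)
    · intro t
      change K (fun i => cvx 0 (t i) (cl t i), cvx 0 0 (h t)) = p t
      simp only [cvx_zero]
      exact h0 t
    · intro t
      change K (fun i => cvx 1 (t i) (cl t i), cvx 1 0 (h t)) = δ (h t)
      simp only [cvx_one]
      exact hKδ t
    · rintro t ⟨i, hi⟩ s
      change K (fun i => cvx s (t i) (cl t i), cvx s 0 (h t)) = y
      rw [hb0 t ⟨i, hi⟩, cvx_self, h0]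
      refine p.2 _ ⟨i, ?_⟩
      change cvx s (t i) (cl1 (t i)) = 0 ∨ cvx s (t i) (cl1 (t i)) = 1
      rcases hi with hi | hi
      · left
        rw [hi, cl1_zero, cvx_self]
      · right
        rw [hi, cl1_one, cvx_self]
  rw [e1, ← hcl_one, hcl_iff]
  refine ⟨⟨fun x => δ (unitInterval.symm x.2 * h x.1), by fun_prop⟩, ?_, ?_, ?_⟩
  · intro t
    change δ (unitInterval.symm 0 * h t) = δ (h t)
    rw [unitInterval.symm_zero, one_mul]
  · intro t
    change δ (unitInterval.symm 1 * h t) = y
    rw [unitInterval.symm_one, zero_mul, hδ0]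
  · intro t ht s
    change δ (unitInterval.symm s * h t) = y
    rw [hb0 t ht, mul_zero, hδ0]

end NF

theorem p_R6 : S_R6 := by
  intro A X _ _ g e k α hα
  obtain ⟨p, rfl⟩ := hcl_surj α
  change hcl (gcomp (prA g) p) = 1 at hα
  rw [← hcl_one, hcl_iff] at hα
  obtain ⟨H, h0, h1, h2⟩ := hα
  let P1 : C((Fin (k + 1) → unitInterval) × unitInterval, PE g) :=
    ⟨fun x => shrink g (p x.1, x.2), by fun_prop⟩
  let P2 : C((Fin (k + 1) → unitInterval) × unitInterval, PE g) := (cPE g).comp H
  have hP : ∀ t, P1 (t, 1) = P2 (t, 0) := by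
    intro t
    change shrink g (p t, 1) = cPE g (H (t, 0))
    rw [shrink_one, h0]
    rfl
  have hb : ∀ t ∈ Cube.boundary (Fin (k + 1)), pt P1 t =
      pt P1 (fun _ => 0) ∧ pt P2 t = pt P2 (fun _ => 0) := by
    intro t ht
    have hz : (fun _ => 0 : Fin (k + 1) → unitInterval) ∈ Cube.boundary (Fin (k + 1)) :=
      ⟨0, Or.inl rfl⟩
    constructor
    · ext1 s
      change shrink g (p t, s) = shrink g (p (fun _ => 0), s)
      rw [GenLoop.boundary p t ht, GenLoop.boundary p _ hz]
    · ext1 s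
      change cPE g (H (t, s)) = cPE g (H (_, s))
      rw [h2 t ht, h2 _ hz]
  refine null_free p (catF P1 P2 hP) (cPE g (prA g e)) ?_ ?_ (cat (pt P1 (fun _ => 0))
    (pt P2 (fun _ => 0)) (hP _)) ?_
  · intro t
    rw [catF_zero]
    exact shrink_zero g _
  · intro t
    rw [catF_one]
    change cPE g (H (t, 1)) = _
    rw [h1]
    rfl
  · intro t ht s
    change cat (pt P1 t) (pt P2 t) (hP t) s = _
    rw [cat_congr (hP t) (hP _) (hb t ht).1 (hb t ht).2]

end

end Run7.h592
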