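import Pool.Agent.Run7.h592.Tasks
import Pool.Agent.Y209.HB.MV

/-! T0: comparison of open covers by two sets. -/

set_option autoImplicit false

namespace Run7.h592

open Pool.Agent.Y209.HB

section T0

variable {A B : Type} [TopologicalSpace A] [TopologicalSpace B] (f : C(A, B))
  {U V : Set A} {U' V' : Set B} (hU : Set.MapsTo f U U') (hV : Set.MapsTo f V V')

theorem push_rst_sub (n : ℕ) (u : Sing U n →₀ ℚ) :
    push (sub U') n (push (rst f hU) n u) = push f n (push (sub U) n u) := by
  rw [push_push, push_push]; rfl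

theorem push_rst_inl (n : ℕ) (d : Sing ↥(U ∩ V) n →₀ ℚ) :
    push (rst f hU) n (push (inl U V) n d) =
      push (inl U' V') n (push (rst f (hU.inter_inter hV)) n d) := by
  rw [push_push, push_push]; rfl

theorem push_rst_inr (n : ℕ) (d : Sing ↥(U ∩ V) n →₀ ℚ) :
    push (rst f hV) n (push (inr U V) n d) =
      push (inr U' V') n (push (rst f (hU.inter_inter hV)) n d) := by
  rw [push_push, push_push]; rfl

/-- if the image of `u + v` bounds then `u + v` bounds -/
theorem T0_inj (oU' : IsOpen U') (oV' : IsOpen V')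
    (cB : ∀ x, x ∈ U' ∨ x ∈ V') (h1 : HE (rst f hU)) (h2 : HE (rst f hV))
    (h3 : HE (rst f (hU.inter_inter hV))) (n : ℕ) (u : Sing U n →₀ ℚ) (v : Sing V n →₀ ℚ)
    (hu : u ∈ Cyc U n) (hv : v ∈ Cyc V n)
    (h : push f n (push (sub U) n u + push (sub V) n v) ∈ Bdy B n) :
    push (sub U) n u + push (sub V) n v ∈ Bdy A n := by
  rw [map_add, ← push_rst_sub f hU, ← push_rst_sub f hV] at h
  obtain ⟨d, hd, hdu, hdv⟩ := mv_inj U' V' oU' oV' cB n _ _ (push_mem_Cyc _ n u hu)
    (push_mem_Cyc _ n v hv) h
  obtain ⟨d', hd', hdd⟩ := (h3 n).2 d hd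
  have e1 : push (rst f hU) n (u - push (inl U V) n d') ∈ Bdy U' n := by
    have := (Bdy U' n).add_mem hdu (push_mem_Bdy (inl U' V') n _ hdd)
    rw [map_sub] at this ⊢
    rw [push_rst_inl f hU hV]
    convert this using 1
    abel
  have e2 : push (rst f hV) n (v + push (inr U V) n d') ∈ Bdy V' n := by
    have := (Bdy V' n).sub_mem hdv (push_mem_Bdy (inr U' V') n _ hdd)
    rw [map_sub] at this
    rw [map_add, push_rst_inr f hU hV]
    convert this using 1
    abel
  have c1 := (h1 n).1 _ ((Cyc U n).sub_mem hu (push_mem_Cyc _ n d' hd')) e1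
  have c2 := (h2 n).1 _ ((Cyc V n).add_mem hv (push_mem_Cyc _ n d' hd')) e2
  have := (Bdy A n).add_mem (push_mem_Bdy (sub U) n _ c1) (push_mem_Bdy (sub V) n _ c2)
  rw [map_sub, map_add, mvx_push_inl, mvx_push_inr] at this
  convert this using 1
  abel

theorem p_T0 : S_T0 := by
  intro A B _ _ f U V U' V' oU oV oU' oV' cA cB hU hV h1 h2 h3 n
  constructor
  · intro z hz hfz
    cases n with
    | zero =>
      obtain ⟨u, v, rfl⟩ := mv_zero U V cA z
      exact T0_inj f hU hV oU' oV' cB h1 h2 h3 0 u v Submodule.mem_top Submodule.mem_top hfz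
    | succ m =>
      obtain ⟨u, v, d, hd, hzuv, hu, hv⟩ := mv_split U V oU oV cA m z hz
      have hfuv : push f (m + 1) (push (sub U) (m + 1) u + push (sub V) (m + 1) v) ∈ Bdy B (m + 1) := by
        have := (Bdy B (m + 1)).sub_mem hfz (push_mem_Bdy f _ _ hzuv)
        rw [← map_sub] at this
        convert this using 2
        abel
      have hfuv' := hfuv
      rw [map_add, ← push_rst_sub f hU, ← push_rst_sub f hV] at hfuv'
      have hdb := mv_conn U' V' oU' oV' cB m _ _ (push (rst f (hU.inter_inter hV)) m d) (by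
        rw [bdry_push, hu, push_rst_inl f hU hV]) (by
        rw [bdry_push, hv, map_neg, push_rst_inr f hU hV]) hfuv'
      obtain ⟨e, he⟩ := (h3 m).1 d hd hdb
      have hu' : u - push (inl U V) (m + 1) e ∈ Cyc U (m + 1) := by
        change bdry U m _ = 0
        rw [map_sub, hu, bdry_push, he, sub_self]
      have hv' : v + push (inr U V) (m + 1) e ∈ Cyc V (m + 1) := by
        change bdry V m _ = 0
        rw [map_add, hv, bdry_push, he, neg_add_cancel]
      have e0 : push (sub U) (m + 1) (u - push (inl U V) (m + 1) e) +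
          push (sub V) (m + 1) (v + push (inr U V) (m + 1) e) =
          push (sub U) (m + 1) u + push (sub V) (m + 1) v := by
        rw [map_sub, map_add, mvx_push_inl, mvx_push_inr]
        abel
      have := T0_inj f hU hV oU' oV' cB h1 h2 h3 (m + 1) _ _ hu' hv' (by rw [e0]; exact hfuv)
      rw [e0] at this
      have h5 := (Bdy A (m + 1)).add_mem hzuv this
      rwa [sub_add_cancel] at h5
  · intro b hb
    cases n with
    | zero =>
      obtain ⟨u', v', rfl⟩ := mv_zero U' V' cB b
      obtain ⟨u, -, hu⟩ := (h1 0).2 u' Submodule.mem_top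
      obtain ⟨v, -, hv⟩ := (h2 0).2 v' Submodule.mem_top
      refine ⟨push (sub U) 0 u + push (sub V) 0 v, Submodule.mem_top, ?_⟩
      have := (Bdy B 0).add_mem (push_mem_Bdy (sub U') 0 _ hu) (push_mem_Bdy (sub V') 0 _ hv)
      rw [map_sub, map_sub, push_rst_sub, push_rst_sub] at this
      rw [map_add]
      convert this using 1
      abel
    | succ m =>
      obtain ⟨u', v', d', hd', hb', hu', hv'⟩ := mv_split U' V' oU' oV' cB m b hb
      obtain ⟨d, hd, e', he'⟩ := (h3 m).2 d' hd'
      -- `inl d` bounds in `U`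
      have k1 : push (rst f hU) m (push (inl U V) m d) =
          bdry U' m (u' - push (inl U' V') (m + 1) e') := by
        rw [push_rst_inl f hU hV, map_sub, hu', bdry_push, he', map_sub]
        abel
      have k2 : push (rst f hV) m (push (inr U V) m d) =
          - bdry V' m (v' + push (inr U' V') (m + 1) e') := by
        rw [push_rst_inr f hU hV, map_add, hv', bdry_push, he', map_sub]
        abel
      obtain ⟨u0, hu0⟩ := (h1 m).1 _ (push_mem_Cyc (inl U V) m d hd) (by rw [k1]; exact ⟨_, rfl⟩)
      obtain ⟨v0, hv0⟩ := (h2 m).1 _ (push_mem_Cyc (inr U V) m d hd) (by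
        rw [k2]; exact (Bdy V' m).neg_mem ⟨_, rfl⟩)
      have k3 : u' - push (inl U' V') (m + 1) e' - push (rst f hU) (m + 1) u0 ∈ Cyc U' (m + 1) := by
        change bdry U' m _ = 0
        rw [map_sub, bdry_push, hu0, k1, sub_self]
      have k4 : v' + push (inr U' V') (m + 1) e' + push (rst f hV) (m + 1) v0 ∈ Cyc V' (m + 1) := by
        change bdry V' m _ = 0
        rw [map_add, bdry_push, hv0, k2, add_neg_cancel]
      obtain ⟨u1, hu1, hu2⟩ := (h1 (m + 1)).2 _ k3
      obtain ⟨v1, hv1, hv2⟩ := (h2 (m + 1)).2 _ k4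
      refine ⟨push (sub U) (m + 1) (u0 + u1) + push (sub V) (m + 1) (v1 - v0), ?_, ?_⟩
      · change bdry A m _ = 0
        have a1 : bdry U m u1 = 0 := hu1
        have a2 : bdry V m v1 = 0 := hv1
        rw [map_add, bdry_push, bdry_push, map_add, map_sub, a1, a2, hu0, hv0, add_zero, zero_sub,
          map_neg, mvx_push_inl, mvx_push_inr, add_neg_cancel]
      · have := (Bdy B (m + 1)).add_mem hb' ((Bdy B (m + 1)).add_mem
          (push_mem_Bdy (sub U') (m + 1) _ hu2) (push_mem_Bdy (sub V') (m + 1) _ hv2))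
        rw [map_add (push f (m + 1)), ← push_rst_sub f hU, ← push_rst_sub f hV]
        simp only [map_sub, map_add, mvx_push_inl, mvx_push_inr] at this ⊢
        convert this using 1
        abel

end T0

end Run7.h592
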