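import Pool.Agent.Run7.h592.PSP

/-!
# Piece T1: `S³ → Sym² S³`, `x ↦ {x, 1}` is a rational homology equivalence
-/

set_option autoImplicit false

open scoped Topology

namespace Run7.h592

open Pool.Agent.Y209.HB

noncomputable section

namespace PT1

open SPx

/-- the diagonal -/
def dD : C(G, G × G) := ⟨fun a => (a, a), by fun_prop⟩

/-- the first axis -/
def dL : C(G, G × G) := ⟨fun a => (a, 1), by fun_prop⟩

/-- the second axis -/
def dR : C(G, G × G) := ⟨fun a => (1, a), by fun_prop⟩

/-- the quotient map -/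
def qC : C(G × G, SP G) := ⟨qm, qm_open.continuous⟩

theorem key (h9 : S_T9) {z : Sing G 3 →₀ ℚ} (hz : z ∈ Cyc G 3) :
    push (dg (X := G)) 3 z - (2 : ℚ) • push (ax (1 : G)) 3 z ∈ Bdy (SP G) 3 := by
  obtain ⟨-, -, -, -, -, -, hk⟩ := h9
  have hc : push dD 3 z - push dL 3 z - push dR 3 z ∈ Cyc (G × G) 3 :=
    Submodule.sub_mem _ (Submodule.sub_mem _ (push_mem_Cyc _ 3 z hz) (push_mem_Cyc _ 3 z hz))
      (push_mem_Cyc _ 3 z hz)
  have hconst : push (ContinuousMap.const G (1 : G)) 3 z ∈ Bdy G 3 := const_Bdy 1 hz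
  have h1 : push ContinuousMap.fst 3 (push dD 3 z - push dL 3 z - push dR 3 z) ∈ Bdy G 3 := by
    rw [map_sub, map_sub, push_push, push_push, push_push]
    have e1 : ContinuousMap.fst.comp dD = ContinuousMap.id G := rfl
    have e2 : ContinuousMap.fst.comp dL = ContinuousMap.id G := rfl
    have e3 : ContinuousMap.fst.comp dR = ContinuousMap.const G (1 : G) := rfl
    rw [e1, e2, e3, sub_self, zero_sub]
    exact (Submodule.neg_mem_iff _).2 hconst
  have h2 : push ContinuousMap.snd 3 (push dD 3 z - push dL 3 z - push dR 3 z) ∈ Bdy G 3 := by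
    rw [map_sub, map_sub, push_push, push_push, push_push]
    have e1 : ContinuousMap.snd.comp dD = ContinuousMap.id G := rfl
    have e2 : ContinuousMap.snd.comp dL = ContinuousMap.const G (1 : G) := rfl
    have e3 : ContinuousMap.snd.comp dR = ContinuousMap.id G := rfl
    rw [e1, e2, e3, sub_right_comm, sub_self, zero_sub]
    exact (Submodule.neg_mem_iff _).2 hconst
  have h3 := push_mem_Bdy qC 3 _ (hk _ hc h1 h2)
  rw [map_sub, map_sub, push_push, push_push, push_push] at h3
  have e1 : qC.comp dD = dg := rfl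
  have e2 : qC.comp dL = ax 1 := rfl
  have e3 : qC.comp dR = ax 1 := by
    ext1 a
    exact SP.mk_comm _ _
  rw [e1, e2, e3, sub_sub, ← two_smul ℚ] at h3
  exact h3

theorem main (h9 : S_T9) (h1b : S_T1b) : S_T1 := by
  have hAc : ∀ n, n ≠ 2 → Ac G (n + 1) := h9.1
  have hCn : Cn G := h9.2.1
  have hAc' : ∀ n, n ≠ 2 → Ac (SP G) (n + 1) := fun n hn => Ac_of_HE' h1b (hAc n hn)
  have hCn' : Cn (SP G) := Cn_of_HE' h1b hCn
  intro n
  rcases n with _ | n
  · constructor
    · intro z _ h
      apply hCn z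
      have h2 : ep (SP G) 0 (push (ax (1 : G)) 0 z) = 0 := by
        obtain ⟨w, hw⟩ := h
        rw [← hw]
        exact ep_bdry w
      rwa [ep_push] at h2
    · intro b _
      refine ⟨ep (SP G) 0 b • Finsupp.single (cs (1 : G) 0) 1, Submodule.mem_top, ?_⟩
      apply hCn'
      rw [map_sub, ep_push, map_smul, ep_single, smul_eq_mul, mul_one, sub_self]
  · by_cases hn : n = 2
    · subst hn
      constructor
      · intro z hz h
        apply (h1b 3).1 z hz
        have := (Bdy (SP G) 3).add_mem (key h9 hz) ((Bdy (SP G) 3).smul_mem (2 : ℚ) h)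
        rwa [sub_add_cancel] at this
      · intro b hb
        obtain ⟨z, hz, h⟩ := (h1b 3).2 b hb
        refine ⟨(2 : ℚ) • z, Submodule.smul_mem _ _ hz, ?_⟩
        have := (Bdy (SP G) 3).add_mem h (key h9 hz)
        rw [map_smul]
        rwa [sub_add_sub_cancel] at this
    · constructor
      · intro z hz _
        exact hAc n hn z hz
      · intro b hb
        refine ⟨0, Submodule.zero_mem _, ?_⟩
        rw [map_zero, sub_zero]
        exact hAc' n hn b hb

end PT1

/-- T1 -/
theorem p_T1 (h9 : S_T9) (h1b : S_T1b) : S_T1 := PT1.main h9 h1b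

end

end Run7.h592
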