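import Pool.Agent.Run7.h592.DBX
import Pool.Agent.Run7.h592.PT0

/-! T1b: the diagonal of the symmetric square of the 3-sphere. -/

set_option autoImplicit false

open scoped Topology

namespace Run7.h592.DB

open Pool.Agent.Y209.HB

noncomputable section

theorem norm_G (a : G) : ‖a.1‖ = 1 := mem_sphere_zero_iff_norm.1 a.2

theorem comb_ne {a b : G} (h : a ≠ -b) {A B : ℝ} (hA : 0 ≤ A) (hB : 0 ≤ B) (hAB : 0 < A + B) :
    A • a.1 + B • b.1 ≠ 0 := by
  intro h0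
  have h1 : A • a.1 = -(B • b.1) := eq_neg_of_add_eq_zero_left h0
  have h2 : A = B := by
    have h3 := congrArg (fun x => ‖x‖) h1
    simp only [norm_neg, norm_smul, norm_G, mul_one, Real.norm_eq_abs, abs_of_nonneg hA,
      abs_of_nonneg hB] at h3
    exact h3
  have h3 : A ≠ 0 := by
    intro h4
    rw [← h2, h4] at hAB
    simp at hAB
  rw [← h2, ← smul_neg] at h1
  have h5 : a.1 = -b.1 := smul_right_injective _ h3 h1
  exact h (Subtype.ext h5)

/-- the normalised vector -/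
def nrq (x : Quaternion ℝ) (h : x ≠ 0) : G := ⟨‖x‖⁻¹ • x, by
  rw [mem_sphere_zero_iff_norm, norm_smul, norm_inv, norm_norm,
    inv_mul_cancel₀ (norm_ne_zero_iff.2 h)]⟩

theorem nrq_congr {x y : Quaternion ℝ} (e : x = y) (h : x ≠ 0) (h' : y ≠ 0) :
    nrq x h = nrq y h' := by
  subst e
  rfl

theorem nrq_two (a : G) (h : (2 : ℝ) • a.1 ≠ 0) : nrq ((2 : ℝ) • a.1) h = a := by
  apply Subtype.ext
  change ‖(2 : ℝ) • a.1‖⁻¹ • (2 : ℝ) • a.1 = a.1
  rw [norm_smul, norm_G, mul_one, smul_smul]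
  norm_num

theorem nrq_cont {A : Type} [TopologicalSpace A] {f : A → Quaternion ℝ} (hf : Continuous f)
    (h : ∀ x, f x ≠ 0) : Continuous fun x => nrq (f x) (h x) :=
  Continuous.subtype_mk ((hf.norm.inv₀ fun x => norm_ne_zero_iff.2 (h x)).smul hf) _

/-- the combination -/
def cmb (a b : G) (t : ℝ) : Quaternion ℝ := (2 - t) • a.1 + t • b.1

theorem cmb_ne {a b : G} (h : a ≠ -b) (t : I) : cmb a b t ≠ 0 :=
  comb_ne h (by linarith [t.2.2]) t.2.1 (by linarith)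

theorem neg_symm' {a b : G} (h : a ≠ -b) : b ≠ -a := fun h1 => h (by rw [h1, neg_neg])

theorem cmb_id (p q t : ℝ) (x y : Quaternion ℝ) : (p * (2 - t) + q * t) • x +
    (p * t + q * (2 - t)) • y = p • ((2 - t) • x + t • y) + q • ((2 - t) • y + t • x) := by
  rw [smul_add, smul_add, smul_smul, smul_smul, smul_smul, smul_smul, add_smul, add_smul]
  abel

theorem cmb_cont {A : Type} [TopologicalSpace A] {a b : A → G} {t : A → ℝ} (ha : Continuous a)
    (hb : Continuous b) (ht : Continuous t) : Continuous fun x => cmb (a x) (b x) (t x) :=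
  ((continuous_const.sub ht).smul (continuous_subtype_val.comp ha)).add
    (ht.smul (continuous_subtype_val.comp hb))

theorem cmb_zero (a b : G) : cmb a b (0 : I) = (2 : ℝ) • a.1 := by
  unfold cmb
  rw [Set.Icc.coe_zero, sub_zero, zero_smul, add_zero]

theorem cmb_one (a b : G) : cmb a b (1 : I) = a.1 + b.1 := by
  unfold cmb
  rw [Set.Icc.coe_one, one_smul]
  norm_num

theorem two_ne (x : G) : (2 : ℝ) • x.1 ≠ 0 := by
  rw [smul_ne_zero_iff]
  refine ⟨by norm_num, fun h3 => ?_⟩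
  have := norm_G x
  rw [h3, norm_zero] at this
  exact zero_ne_one this

theorem cmb_W1 {a b : G} (h : a ≠ -b) (t : I) :
    nrq (cmb a b t) (cmb_ne h t) ≠ -nrq (cmb b a t) (cmb_ne (neg_symm' h) t) := by
  intro h1
  have h2 : ‖cmb a b t‖⁻¹ • cmb a b t = -(‖cmb b a t‖⁻¹ • cmb b a t) := congrArg Subtype.val h1
  have p1 : 0 < ‖cmb a b t‖⁻¹ := inv_pos.2 (norm_pos_iff.2 (cmb_ne h t))
  have p2 : 0 < ‖cmb b a t‖⁻¹ := inv_pos.2 (norm_pos_iff.2 (cmb_ne (neg_symm' h) t))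
  have ht0 := t.2.1
  have ht1 := t.2.2
  have h3 : 0 < 2 - (t : ℝ) := by linarith
  apply comb_ne h (A := ‖cmb a b t‖⁻¹ * (2 - t) + ‖cmb b a t‖⁻¹ * t)
    (B := ‖cmb a b t‖⁻¹ * t + ‖cmb b a t‖⁻¹ * (2 - t))
  · positivity
  · positivity
  · positivity
  · have h4 : ‖cmb a b t‖⁻¹ • cmb a b t + ‖cmb b a t‖⁻¹ • cmb b a t = 0 := by
      rw [h2, neg_add_cancel]
    refine Eq.trans ?_ h4
    generalize ‖cmb a b t‖⁻¹ = p
    generalize ‖cmb b a t‖⁻¹ = q
    exact cmb_id p q t a.1 b.1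

theorem exists_K : ∃ K : C(W1 × I, W1), ∀ (a b : G) (h : sq (a, b) ∈ W1) (t : I),
    (K (⟨sq (a, b), h⟩, t)).1 = SP.mk (nrq (cmb a b t) (cmb_ne (mem_W1.1 h) t))
      (nrq (cmb b a t) (cmb_ne (neg_symm' (mem_W1.1 h)) t)) := by
  obtain ⟨K, hK⟩ := desc W1 (T := I) (B := W1)
    ⟨fun p => ⟨SP.mk (nrq (cmb p.1.1.1 p.1.1.2 p.2) (cmb_ne (mem_W1.1 p.1.2) p.2))
      (nrq (cmb p.1.1.2 p.1.1.1 p.2) (cmb_ne (neg_symm' (mem_W1.1 p.1.2)) p.2)),
      mem_W1.2 (cmb_W1 (mem_W1.1 p.1.2) p.2)⟩, by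
      have c1 : Continuous fun p : (sq ⁻¹' W1 : Set (G × G)) × I => p.1.1.1 :=
        continuous_fst.comp (continuous_subtype_val.comp continuous_fst)
      have c2 : Continuous fun p : (sq ⁻¹' W1 : Set (G × G)) × I => p.1.1.2 :=
        continuous_snd.comp (continuous_subtype_val.comp continuous_fst)
      have c3 : Continuous fun p : (sq ⁻¹' W1 : Set (G × G)) × I => (p.2 : ℝ) :=
        continuous_subtype_val.comp continuous_snd
      exact Continuous.subtype_mk (SP.continuous_mk.comp (Continuous.prodMk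
        (nrq_cont (cmb_cont c1 c2 c3) fun p => cmb_ne (mem_W1.1 p.1.2) p.2)
        (nrq_cont (cmb_cont c2 c1 c3) fun p => cmb_ne (neg_symm' (mem_W1.1 p.1.2)) p.2))) _⟩ (by
      intro a b h1 h2 t
      apply Subtype.ext
      exact SP.mk_comm _ _)
  exact ⟨K, fun a b h t => congrArg Subtype.val (hK a b h t)⟩

theorem exists_M : ∃ M : C(W1, G), ∀ (a b : G) (h : sq (a, b) ∈ W1),
    M ⟨sq (a, b), h⟩ = nrq (cmb a b (1 : I)) (cmb_ne (mem_W1.1 h) 1) := by
  obtain ⟨M, hM⟩ := desc0 W1 (B := G)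
    ⟨fun p => nrq (cmb p.1.1 p.1.2 (1 : I)) (cmb_ne (mem_W1.1 p.2) 1),
      nrq_cont (cmb_cont (continuous_fst.comp continuous_subtype_val)
        (continuous_snd.comp continuous_subtype_val) continuous_const)
        fun p => cmb_ne (mem_W1.1 p.2) 1⟩ (by
      intro a b h1 h2
      have e : cmb a b (1 : I) = cmb b a (1 : I) := by rw [cmb_one, cmb_one, add_comm]
      exact nrq_congr e (cmb_ne (mem_W1.1 h1) 1) (cmb_ne (mem_W1.1 h2) 1))
  exact ⟨M, fun a b h => hM a b h⟩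

theorem ne_negG (x : G) : x ≠ -x := by
  intro h
  have h1 : x.1 = -x.1 := congrArg Subtype.val h
  have h2 : (2 : ℝ) • x.1 = 0 := by
    rw [two_smul]
    nth_rewrite 1 [h1]
    rw [neg_add_cancel]
  rcases smul_eq_zero.1 h2 with h3 | h3
  · norm_num at h3
  · have := norm_G x
    rw [h3, norm_zero] at this
    exact zero_ne_one this

/-- the diagonal, as a map to `W1` -/
def dgW : C(G, W1) := ⟨fun x => ⟨SP.mk x x, mem_W1.2 (ne_negG x)⟩, by
  refine Continuous.subtype_mk (SP.continuous_mk.comp (continuous_id.prodMk continuous_id)) _⟩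

theorem HE_dgW : HE dgW := by
  obtain ⟨K, hK⟩ := exists_K
  obtain ⟨M, hM⟩ := exists_M
  refine HE_of_homotopyEquiv dgW M ⟨Prod.fst, continuous_fst⟩ K (fun _ => rfl) ?_ ?_ ?_
  · intro x
    change x = M ⟨sq (x, x), mem_W1.2 (ne_negG x)⟩
    rw [hM]
    have e : cmb x x (1 : I) = (2 : ℝ) • x.1 := by rw [cmb_one, two_smul]
    rw [nrq_congr e (cmb_ne (mem_W1.1 (mem_W1.2 (ne_negG x))) 1) (two_ne x), nrq_two]
  · rintro ⟨p, hp⟩
    obtain ⟨a, b, rfl⟩ := SP.ind p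
    apply Subtype.ext
    rw [show (⟨SP.mk a b, hp⟩ : W1) = ⟨sq (a, b), hp⟩ from rfl, hK]
    rw [nrq_congr (cmb_zero a b) _ (two_ne a), nrq_congr (cmb_zero b a) _ (two_ne b), nrq_two,
      nrq_two]
    rfl
  · rintro ⟨p, hp⟩
    obtain ⟨a, b, rfl⟩ := SP.ind p
    apply Subtype.ext
    rw [show (⟨SP.mk a b, hp⟩ : W1) = ⟨sq (a, b), hp⟩ from rfl, hK, hM]
    have e : cmb b a (1 : I) = cmb a b (1 : I) := by rw [cmb_one, cmb_one, add_comm]
    rw [nrq_congr e _ (cmb_ne (mem_W1.1 hp) 1)]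
    rfl

/-- the part of `W1` in `W2` -/
def VV : Set W1 := {x | x.1 ∈ W2}

/-- first homeomorphism -/
def hm1 : (Set.univ : Set W1) ≃ₜ W1 where
  toFun x := x.1
  invFun x := ⟨x, trivial⟩
  left_inv _ := rfl
  right_inv _ := rfl
  continuous_toFun := continuous_subtype_val
  continuous_invFun := by fun_prop

/-- second homeomorphism -/
def hm2 : VV ≃ₜ ↥(W1 ∩ W2) where
  toFun x := ⟨x.1.1, x.1.2, x.2⟩
  invFun x := ⟨⟨x.1, x.2.1⟩, x.2.2⟩
  left_inv _ := rfl
  right_inv _ := rfl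
  continuous_toFun := by fun_prop
  continuous_invFun := by fun_prop

/-- third homeomorphism -/
def hm3 : ↥((Set.univ : Set W1) ∩ VV) ≃ₜ ↥(W1 ∩ W2) where
  toFun x := ⟨x.1.1, x.1.2, x.2.2⟩
  invFun x := ⟨⟨x.1, x.2.1⟩, trivial, x.2.2⟩
  left_inv _ := rfl
  right_inv _ := rfl
  continuous_toFun := by fun_prop
  continuous_invFun := by fun_prop

theorem mt1 : Set.MapsTo (sub W1) (Set.univ : Set W1) W1 := fun x _ => x.2

theorem mt2 : Set.MapsTo (sub W1) VV W2 := fun _ hx => hx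

theorem he1 : HE (rst (sub W1) mt1) := by
  refine HE_of_homeo hm1 _ ?_
  intro x
  rfl

theorem he2 : HE (rst (sub W1) mt2) := by
  have h : HE (⟨hm2, hm2.continuous⟩ : C(VV, ↥(W1 ∩ W2))) := by
    refine HE_of_homeo hm2 _ ?_
    intro x
    rfl
  have h2 := HE.comp HE_gX h
  have e : rst (sub W1) mt2 = gX.comp (⟨hm2, hm2.continuous⟩ : C(VV, ↥(W1 ∩ W2))) := by
    apply ContinuousMap.ext
    intro x
    apply Subtype.ext
    rfl
  rw [e]
  exact h2

theorem he3 : HE (rst (sub W1) (mt1.inter_inter mt2)) := by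
  refine HE_of_homeo hm3 _ ?_
  intro x
  apply Subtype.ext
  rfl

theorem covW (p : SP G) : p ∈ W1 ∨ p ∈ W2 := by
  obtain ⟨a, b, rfl⟩ := SP.ind p
  by_cases h : a = b
  · left
    rw [h]
    exact mem_W1.2 (ne_negG b)
  · right
    exact mem_W2.2 h

theorem HE_subW1 : HE (sub W1) :=
  p_T0 W1 (SP G) (sub W1) Set.univ VV W1 W2 isOpen_univ
    (W2_open.preimage continuous_subtype_val) W1_open W2_open
    (fun _ => Or.inl trivial) covW mt1 mt2 he1 he2 he3

end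

end Run7.h592.DB

namespace Run7.h592

open Pool.Agent.Y209.HB

theorem p_T1b : S_T1b := DB.HE_subW1.comp DB.HE_dgW

end Run7.h592
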