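import Pool.Agent.Run7.h592.Tasks
import Pool.Agent.H21_s2.SC

/-!
# Piece T2a: simply connected unions
-/

set_option autoImplicit false

open scoped Topology

namespace Run7.h592

/-- T2a: simply connected unions -/
theorem p_T2a : S_T2a := by
  intro X _ J U x₀ ho hc h0 hs hp
  refine Pool.Agent.H21_s2.simplyConnected_of_cover U ho hc x₀ h0 (fun j => ?_) hp
  exact hs j

end Run7.h592
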