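import Pool.Agent.Run7.h592.PT4

/-!
# Piece T3: `S³ × S³ → Sym² Y` is a rational homology equivalence
-/

set_option autoImplicit false

open scoped Topology

namespace Run7.h592

open Pool.Agent.Y209.HB

noncomputable section

namespace PT3

open SPx PT4

/-! ## General lemmas -/

section gen

variable {A B C D : Type} [TopologicalSpace A] [TopologicalSpace B] [TopologicalSpace C]
  [TopologicalSpace D]

theorem HE_of_HEqv {f : C(A, B)} (h : HEqv f) : HE f := by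
  obtain ⟨g, H, K, h0, h1, h2, h3⟩ := h
  exact HE_of_homotopyEquiv f g H K h0 h1 h2 h3

/-- Maps between contractible spaces. -/
theorem HEqv_of_Ctr (f : C(A, B)) (hA : Ctr A) (hB : Ctr B) : HEqv f := by
  obtain ⟨a, H, h0, h1⟩ := hA
  obtain ⟨b, K, k0, k1⟩ := hB
  let G : C(A, A) := ContinuousMap.const A a
  -- a path from `b` to `f a`
  have hp : ContinuousMap.HomotopyEquiv A B :=
    (toHE (Y := Unit) (ContinuousMap.const A ()) (ContinuousMap.const Unit a) H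
      ⟨fun _ => (), by fun_prop⟩ h0 h1 (fun _ => rfl) fun _ => rfl).trans
    (toHE (Y := Unit) (ContinuousMap.const B ()) (ContinuousMap.const Unit b) K
      ⟨fun _ => (), by fun_prop⟩ k0 k1 (fun _ => rfl) fun _ => rfl).symm
  have : ContractibleSpace B := contractible_of_Ctr ⟨b, K, k0, k1⟩
  have hj : Joined b (f a) := PathConnectedSpace.joined b (f a)
  obtain ⟨p⟩ := hj
  -- the homotopy of `B`: contract to `b`, then move to `f a`
  let F1 : ContinuousMap.Homotopy (ContinuousMap.id B) (ContinuousMap.const B b) :=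
    ⟨⟨fun q => K (q.2, q.1), by fun_prop⟩, k0, k1⟩
  let F2 : ContinuousMap.Homotopy (ContinuousMap.const B b) (ContinuousMap.const B (f a)) :=
    ⟨⟨fun q => p q.1, by fun_prop⟩, fun _ => p.source, fun _ => p.target⟩
  let F := F1.trans F2
  refine ⟨ContinuousMap.const B a, H, ⟨fun q => F (q.2, q.1), by fun_prop⟩, h0, h1, ?_, ?_⟩
  · intro y
    exact F.apply_zero y
  · intro y
    exact F.apply_one y

/-- Products of homotopy equivalences. -/
theorem HEqv_prod {f : C(A, B)} {g : C(C, D)} (hf : HEqv f) (hg : HEqv g) :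
    HEqv (f.prodMap g) := by
  obtain ⟨f', H, K, h0, h1, h2, h3⟩ := hf
  obtain ⟨g', H', K', h0', h1', h2', h3'⟩ := hg
  refine ⟨f'.prodMap g', ⟨fun p => (H (p.1.1, p.2), H' (p.1.2, p.2)), by fun_prop⟩,
    ⟨fun p => (K (p.1.1, p.2), K' (p.1.2, p.2)), by fun_prop⟩, ?_, ?_, ?_, ?_⟩
  · rintro ⟨a, b⟩
    exact Prod.ext (h0 a) (h0' b)
  · rintro ⟨a, b⟩
    exact Prod.ext (h1 a) (h1' b)
  · rintro ⟨a, b⟩
    exact Prod.ext (h2 a) (h2' b)
  · rintro ⟨a, b⟩
    exact Prod.ext (h3 a) (h3' b)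

/-- Conjugation by homeomorphisms. -/
theorem HE_conj {f : C(A, B)} {g : C(C, D)} (e : A ≃ₜ C) (e' : B ≃ₜ D)
    (h : ∀ a, e' (f a) = g (e a)) (hg : HE g) : HE f := by
  have h1 : HE (⟨e, e.continuous⟩ : C(A, C)) := HE_of_homeo e _ fun _ => rfl
  have h2 : HE (⟨e', e'.continuous⟩ : C(B, D)) := HE_of_homeo e' _ fun _ => rfl
  apply HE.of_comp_left h2
  have : (⟨e', e'.continuous⟩ : C(B, D)).comp f = g.comp (⟨e, e.continuous⟩ : C(A, C)) := by
    ext1 a
    exact h a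
  rw [this]
  exact hg.comp h1

/-- the homeomorphism of a subset of a subset -/
def nest {U V : Set A} (h : V ⊆ U) : ((Subtype.val : U → A) ⁻¹' V) ≃ₜ V where
  toFun x := ⟨x.1.1, x.2⟩
  invFun x := ⟨⟨x.1, h x.2⟩, x.2⟩
  left_inv _ := rfl
  right_inv _ := rfl
  continuous_toFun := by fun_prop
  continuous_invFun := by fun_prop

/-- Comparison of open covers by two sets, relative version. -/
theorem T0rel (h0 : S_T0) (f : C(A, B)) {U V : Set A} {U' V' : Set B} (oU : IsOpen U)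
    (oV : IsOpen V) (oU' : IsOpen U') (oV' : IsOpen V') (hU : Set.MapsTo f U U')
    (hV : Set.MapsTo f V V') (h1 : HE (rst f hU)) (h2 : HE (rst f hV))
    (h3 : HE (rst f (hU.inter_inter hV))) : HE (rst f (hU.union_union hV)) := by
  refine h0 ↥(U ∪ V) ↥(U' ∪ V') (rst f (hU.union_union hV)) (Subtype.val ⁻¹' U)
    (Subtype.val ⁻¹' V) (Subtype.val ⁻¹' U') (Subtype.val ⁻¹' V')
    (oU.preimage continuous_subtype_val) (oV.preimage continuous_subtype_val)
    (oU'.preimage continuous_subtype_val) (oV'.preimage continuous_subtype_val)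
    (fun x => x.2) (fun x => x.2) (fun x hx => hU hx) (fun x hx => hV hx) ?_ ?_ ?_
  · exact HE_conj (nest Set.subset_union_left) (nest Set.subset_union_left) (fun _ => rfl) h1
  · exact HE_conj (nest Set.subset_union_right) (nest Set.subset_union_right) (fun _ => rfl) h2
  · exact HE_conj (nest (Set.inter_subset_left.trans Set.subset_union_left))
      (nest (Set.inter_subset_left.trans Set.subset_union_left)) (fun _ => rfl) h3

/-- Restrictions to equal sets. -/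
theorem HE_rst_congr (f : C(A, B)) {U V : Set A} {U' V' : Set B} (hU : Set.MapsTo f U U')
    (hV : Set.MapsTo f V V') (e : U = V) (e' : U' = V') (h : HE (rst f hU)) : HE (rst f hV) := by
  subst e
  subst e'
  exact h

theorem HE_of_rst_univ (f : C(A, B)) {U : Set A} {U' : Set B} (hU : Set.MapsTo f U U')
    (e : U = Set.univ) (e' : U' = Set.univ) (h : HE (rst f hU)) : HE f := by
  subst e
  subst e'
  exact HE_conj (Homeomorph.Set.univ A).symm (Homeomorph.Set.univ B).symm (fun _ => rfl) h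

end gen

/-! ## Parts of the 3-sphere -/

/-- the open half sphere -/
abbrev Gp : Set G := {a | 0 < a.1.re}

theorem cre : Continuous fun a : G => a.1.re :=
  Quaternion.continuous_re.comp continuous_subtype_val

theorem Gp_open : IsOpen Gp := isOpen_lt continuous_const cre

/-- the straight line to `1` -/
def ln (p : Gp × I) : Quaternion ℝ := (1 - (p.2 : ℝ)) • p.1.1.1 + (p.2 : ℝ) • (1 : Quaternion ℝ)

theorem ln_re (p : Gp × I) : (ln p).re = (1 - (p.2 : ℝ)) * p.1.1.1.re + (p.2 : ℝ) := by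
  unfold ln
  rw [Quaternion.re_add, Quaternion.re_smul, Quaternion.re_smul]
  have : (1 : Quaternion ℝ).re = 1 := rfl
  rw [this, smul_eq_mul, smul_eq_mul, mul_one]

theorem ln_pos (p : Gp × I) : 0 < (ln p).re := by
  rw [ln_re]
  have h1 := p.2.2.1
  have h2 := p.2.2.2
  have h3 : 0 < p.1.1.1.re := p.1.2
  by_cases h : (p.2 : ℝ) = 1
  · rw [h]
    norm_num
  · have : (p.2 : ℝ) < 1 := lt_of_le_of_ne h2 h
    nlinarith

theorem ln_ne (p : Gp × I) : ln p ≠ 0 := by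
  intro h
  have := ln_pos p
  rw [h] at this
  exact lt_irrefl _ this

theorem continuous_ln : Continuous ln := by
  have h1 : Continuous fun p : Gp × I => p.1.1.1 :=
    continuous_subtype_val.comp (continuous_subtype_val.comp continuous_fst)
  have h2 : Continuous fun p : Gp × I => (p.2 : ℝ) := continuous_subtype_val.comp continuous_snd
  unfold ln
  exact ((continuous_const.sub h2).smul h1).add (h2.smul continuous_const)

/-- the contraction of the half sphere -/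
def cG : C(Gp × I, Gp) where
  toFun p := ⟨⟨‖ln p‖⁻¹ • ln p, by
    rw [mem_sphere_zero_iff_norm, norm_smul, norm_inv, norm_norm]
    exact inv_mul_cancel₀ (norm_ne_zero_iff.2 (ln_ne p))⟩, by
    change 0 < (‖ln p‖⁻¹ • ln p).re
    rw [Quaternion.re_smul, smul_eq_mul]
    exact mul_pos (inv_pos.2 (norm_pos_iff.2 (ln_ne p))) (ln_pos p)⟩
  continuous_toFun := by
    refine Continuous.subtype_mk (Continuous.subtype_mk ?_ _) _
    exact (continuous_ln.norm.inv₀ fun p => norm_ne_zero_iff.2 (ln_ne p)).smul continuous_ln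

theorem cG_zero (a : Gp) : cG (a, 0) = a := by
  apply Subtype.ext
  apply Subtype.ext
  have h : ln (a, 0) = a.1.1 := by
    unfold ln
    simp
  change ‖ln (a, 0)‖⁻¹ • ln (a, 0) = a.1.1
  rw [h, norm_eq_of_mem_sphere a.1, inv_one, one_smul]

theorem one_Gp : (1 : G) ∈ Gp := by
  change (0 : ℝ) < 1
  norm_num

theorem cG_one (a : Gp) : cG (a, 1) = ⟨1, one_Gp⟩ := by
  apply Subtype.ext
  apply Subtype.ext
  have h : ln (a, 1) = 1 := by
    unfold ln
    simp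
  change ‖ln (a, 1)‖⁻¹ • ln (a, 1) = 1
  rw [h, norm_one, inv_one, one_smul]

theorem Ctr_Gp : Ctr Gp := ⟨⟨1, one_Gp⟩, cG, cG_zero, cG_one⟩

/-! ## The pieces -/

theorem s1_z (a : G) : (s1 a).1.2.re = (a.1.re - 1) / 2 := rfl

theorem s2_z (a : G) : (s2 a).1.2.re = (1 - a.1.re) / 2 := by
  change (-(((zc a : ℝ)) : ℂ)).re = _
  rw [Complex.neg_re, Complex.ofReal_re, zc]
  ring

theorem re_le (a : G) : a.1.re ≤ 1 := PT3a.G_re_le a

theorem re_ge (a : G) : -1 ≤ a.1.re := by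
  have h := G.eq a
  nlinarith [sq_nonneg a.1.imI, sq_nonneg a.1.imJ, sq_nonneg a.1.imK, sq_nonneg (a.1.re + 1)]

theorem re_lt {a : G} (h : a ≠ 1) : a.1.re < 1 := by
  refine lt_of_le_of_ne (re_le a) fun h1 => h ?_
  have hG := G.eq a
  rw [h1] at hG
  have e1 : a.1.imI = 0 := by
    nlinarith [sq_nonneg a.1.imI, sq_nonneg a.1.imJ, sq_nonneg a.1.imK]
  have e2 : a.1.imJ = 0 := by
    nlinarith [sq_nonneg a.1.imI, sq_nonneg a.1.imJ, sq_nonneg a.1.imK]
  have e3 : a.1.imK = 0 := by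
    nlinarith [sq_nonneg a.1.imI, sq_nonneg a.1.imJ, sq_nonneg a.1.imK]
  apply Subtype.ext
  change a.1 = 1
  ext
  · exact h1
  · exact e1
  · exact e2
  · exact e3

/-- the second sphere, for the symmetric interval -/
theorem s2_eq (a : G) : s2 a = ioH (s1 a) := rfl

/-- a product of two homotopy equivalences -/
theorem HE_pd {S T : Set G} {J J' : Set ℝ} (hJ : J ⊆ Set.Iio 0) (hJ' : J' ⊆ Set.Ioi 0)
    (h1 : Set.MapsTo s1 S (YJ J)) (h2 : Set.MapsTo s2 T (YJ J')) (e1 : HEqv (rst s1 h1))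
    (e2 : HEqv (rst s2 h2)) (h : Set.MapsTo gmap (S ×ˢ T) (pd J J')) : HE (rst gmap h) := by
  -- the homeomorphism of the target
  have hemb : Topology.IsEmbedding (fun p : YJ J × YJ J' => (SP.mk p.1.1 p.2.1 : SP Y)) := by
    have e : (fun p : YJ J × YJ J' => (SP.mk p.1.1 p.2.1 : SP Y)) = kap ∘
        (Prod.map (Set.inclusion (fun y hy => hJ hy : YJ J ⊆ YJ (Set.Iio 0)))
          (Set.inclusion (fun y hy => hJ' hy : YJ J' ⊆ YJ (Set.Ioi 0)))) := rfl
    rw [e]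
    exact kap_emb.isEmbedding.comp ((Topology.IsEmbedding.inclusion _).prodMap
      (Topology.IsEmbedding.inclusion _))
  have hr : Set.range (fun p : YJ J × YJ J' => (SP.mk p.1.1 p.2.1 : SP Y)) = pd J J' := by
    ext p
    constructor
    · rintro ⟨⟨a, b⟩, rfl⟩
      exact ⟨a.1, a.2, b.1, b.2, rfl⟩
    · rintro ⟨a, ha, b, hb, rfl⟩
      exact ⟨(⟨a, ha⟩, ⟨b, hb⟩), rfl⟩
  let e : YJ J × YJ J' ≃ₜ pd J J' := hemb.toHomeomorph.trans (Homeomorph.setCongr hr)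
  have hP := HE_of_HEqv (HEqv_prod e1 e2)
  refine HE_conj (Homeomorph.Set.prod S T) e.symm (fun p => ?_) hP
  rw [Homeomorph.symm_apply_eq]
  rfl

theorem s1_neg : Set.MapsTo s1 ({1}ᶜ : Set G) (YJ (Set.Iio 0)) := by
  intro a ha
  change (s1 a).1.2.re < 0
  rw [s1_z]
  linarith [re_lt ha]

theorem s2_pos : Set.MapsTo s2 ({1}ᶜ : Set G) (YJ (Set.Ioi 0)) := by
  intro a ha
  change 0 < (s2 a).1.2.re
  rw [s2_z]
  linarith [re_lt ha]

theorem HEqv_neg : HEqv (rst s1 s1_neg) := HEqv_of_Ctr _ (PT2b.Ctr_compl 1) Ctr_neg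

theorem HEqv_pos : HEqv (rst s2 s2_pos) := HEqv_of_Ctr _ (PT2b.Ctr_compl 1) Ctr_pos

theorem mem_G01' {a : G} : a ∈ G01 ↔ a.1.re ∈ Set.Ioo (0 : ℝ) 1 := mem_G01

theorem s1_m : Set.MapsTo s1 G01 (YJ (Set.Ioo (-1 / 2) 0)) := fun _ h => h

theorem s2_m : Set.MapsTo s2 G01 (YJ (Set.Ioo 0 (1 / 2))) := by
  intro a ha
  rw [mem_G01'] at ha
  change (s2 a).1.2.re ∈ Set.Ioo 0 (1 / 2)
  rw [s2_z]
  constructor <;> linarith [ha.1, ha.2]

theorem HEqv_m1 : HEqv (rst s1 s1_m) := by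
  obtain ⟨-, -, -, h, hE⟩ := p_T3a
  exact hE

theorem HEqv_comp_homeo {A B C : Type} [TopologicalSpace A] [TopologicalSpace B]
    [TopologicalSpace C] {f : C(A, B)} (h : HEqv f) (e : B ≃ₜ C) (g : C(A, C))
    (hg : ∀ a, g a = e (f a)) : HEqv g := by
  obtain ⟨f', H, K, h0, h1, h2, h3⟩ := h
  have he : Continuous e := e.continuous
  have he' : Continuous e.symm := e.symm.continuous
  refine ⟨⟨fun c => f' (e.symm c), by fun_prop⟩, H, ⟨fun p => e (K (e.symm p.1, p.2)), by fun_prop⟩,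
    h0, ?_, ?_, ?_⟩
  · intro x
    change H (x, 1) = f' (e.symm (g x))
    rw [hg, e.symm_apply_apply, h1]
  · intro y
    change e (K (e.symm y, 0)) = y
    rw [h2, e.apply_symm_apply]
  · intro y
    change e (K (e.symm y, 1)) = g (f' (e.symm y))
    rw [h3, hg]

theorem HEqv_m2 : HEqv (rst s2 s2_m) := by
  refine HEqv_comp_homeo HEqv_m1 (ioJ (Set.Ioo (-1 / 2) 0) (Set.Ioo 0 (1 / 2)) ?_) _ fun a => rfl
  intro r
  simp only [Set.mem_Ioo]
  constructor
  · rintro ⟨h1, h2⟩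
    constructor <;> linarith
  · rintro ⟨h1, h2⟩
    constructor <;> linarith

/-! ### The first two sets -/

theorem m1 : Set.MapsTo gmap (Set.univ ×ˢ Gp) U1 := by
  rintro ⟨a, b⟩ ⟨-, hb⟩
  have hb' : 0 < b.1.re := hb
  change SP.mk (s1 a) (s2 b) ∈ spS _
  rw [mk_mem_spS]
  constructor
  · change (s1 a).1.2.re < 1 / 2
    rw [s1_z]
    linarith [re_le a]
  · change (s2 b).1.2.re < 1 / 2
    rw [s2_z]
    linarith

theorem m2 : Set.MapsTo gmap (Gp ×ˢ Set.univ) U2 := by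
  rintro ⟨a, b⟩ ⟨ha, -⟩
  have ha' : 0 < a.1.re := ha
  change SP.mk (s1 a) (s2 b) ∈ spS _
  rw [mk_mem_spS]
  constructor
  · change -1 / 2 < (s1 a).1.2.re
    rw [s1_z]
    linarith
  · change -1 / 2 < (s2 b).1.2.re
    rw [s2_z]
    linarith [re_le b]

/-- the inclusion of the axis -/
def j1 : C(G, ↥(Set.univ ×ˢ Gp : Set (G × G))) :=
  ⟨fun a => ⟨(a, 1), trivial, one_Gp⟩, by fun_prop⟩

/-- the inclusion of the axis -/
def j2 : C(G, ↥(Gp ×ˢ Set.univ : Set (G × G))) :=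
  ⟨fun b => ⟨(1, b), one_Gp, trivial⟩, by fun_prop⟩

theorem HEqv_j1 : HEqv j1 := by
  refine ⟨⟨fun p => p.1.1, by fun_prop⟩, ⟨fun p => p.1, by fun_prop⟩,
    ⟨fun p => ⟨(p.1.1.1, (cG (⟨p.1.1.2, p.1.2.2⟩, p.2)).1), trivial, (cG _).2⟩, ?_⟩, fun _ => rfl,
    fun _ => rfl, ?_, ?_⟩
  · refine Continuous.subtype_mk (Continuous.prodMk (by fun_prop) ?_) _
    exact continuous_subtype_val.comp (cG.continuous.comp ((Continuous.subtype_mk
      (by fun_prop) _).prodMk continuous_snd))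
  · rintro ⟨⟨a, b⟩, h⟩
    apply Subtype.ext
    refine Prod.ext rfl ?_
    change (cG (⟨b, h.2⟩, 0)).1 = b
    rw [cG_zero]
  · rintro ⟨⟨a, b⟩, h⟩
    apply Subtype.ext
    refine Prod.ext rfl ?_
    change (cG (⟨b, h.2⟩, 1)).1 = 1
    rw [cG_one]

theorem HEqv_j2 : HEqv j2 := by
  refine ⟨⟨fun p => p.1.2, by fun_prop⟩, ⟨fun p => p.1, by fun_prop⟩,
    ⟨fun p => ⟨((cG (⟨p.1.1.1, p.1.2.1⟩, p.2)).1, p.1.1.2), (cG _).2, trivial⟩, ?_⟩, fun _ => rfl,
    fun _ => rfl, ?_, ?_⟩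
  · refine Continuous.subtype_mk (Continuous.prodMk ?_ (by fun_prop)) _
    exact continuous_subtype_val.comp (cG.continuous.comp ((Continuous.subtype_mk
      (by fun_prop) _).prodMk continuous_snd))
  · rintro ⟨⟨a, b⟩, h⟩
    apply Subtype.ext
    refine Prod.ext ?_ rfl
    change (cG (⟨a, h.1⟩, 0)).1 = a
    rw [cG_zero]
  · rintro ⟨⟨a, b⟩, h⟩
    apply Subtype.ext
    refine Prod.ext ?_ rfl
    change (cG (⟨a, h.1⟩, 1)).1 = 1
    rw [cG_one]

/-- the first vanishing sphere in its neighbourhood -/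
def f1 : C(G, YJ (Set.Iio (1 / 2))) := ⟨fun a => ⟨s1 a, PT3a.maps1 trivial⟩, by fun_prop⟩

theorem HEqv_f1 : HEqv f1 := by
  obtain ⟨f', H, K, h0, h1, h2, h3⟩ := PT3a.part1
  refine ⟨⟨fun y => (f' y).1, by fun_prop⟩,
    ⟨fun p => (H (⟨p.1, trivial⟩, p.2)).1, by fun_prop⟩, K, ?_, ?_, h2, ?_⟩
  · intro x
    change (H (⟨x, trivial⟩, 0)).1 = x
    rw [h0]
  · intro x
    change (H (⟨x, trivial⟩, 1)).1 = _
    rw [h1]
    rfl
  · intro y
    rw [h3]
    rfl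

theorem s2_mem (b : G) : s2 b ∈ YJ (Set.Ioi (-1 / 2)) := by
  change -1 / 2 < (s2 b).1.2.re
  rw [s2_z]
  linarith [re_le b]

/-- the second vanishing sphere in its neighbourhood -/
def f2 : C(G, YJ (Set.Ioi (-1 / 2))) := ⟨fun a => ⟨s2 a, s2_mem a⟩, by fun_prop⟩

theorem HEqv_f2 : HEqv f2 := by
  refine HEqv_comp_homeo HEqv_f1 (ioJ (Set.Iio (1 / 2)) (Set.Ioi (-1 / 2)) ?_) _ fun a => rfl
  intro r
  simp only [Set.mem_Iio, Set.mem_Ioi]
  constructor <;> intro h <;> linarith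

theorem HE_m1 (h1 : S_T1) : HE (rst gmap m1) := by
  apply HE.of_comp_right (HE_of_HEqv HEqv_j1)
  have hP1 : IsOpen (YJ (Set.Iio (1 / 2))) := YJ_open isOpen_Iio
  have hh : HE (⟨homS hP1, (homS hP1).continuous⟩ : C(SP (YJ (Set.Iio (1 / 2))), U1)) :=
    HE_of_homeo (homS hP1) _ fun _ => rfl
  have h2 := (hh.comp (HE_of_HEqv (HEqv_map HEqv_f1))).comp h1
  convert h2 using 1
  ext1 a
  apply Subtype.ext
  change SP.mk (s1 a) (s2 1) = SP.mk (s1 a) (s1 1)
  rw [s1_one, s2_one]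

theorem HE_m2 (h1 : S_T1) : HE (rst gmap m2) := by
  apply HE.of_comp_right (HE_of_HEqv HEqv_j2)
  have hP1 : IsOpen (YJ (Set.Ioi (-1 / 2))) := YJ_open isOpen_Ioi
  have hh : HE (⟨homS hP1, (homS hP1).continuous⟩ : C(SP (YJ (Set.Ioi (-1 / 2))), U2)) :=
    HE_of_homeo (homS hP1) _ fun _ => rfl
  have h2 := (hh.comp (HE_of_HEqv (HEqv_map HEqv_f2))).comp h1
  convert h2 using 1
  ext1 a
  apply Subtype.ext
  change SP.mk (s1 1) (s2 a) = SP.mk (s2 a) (s2 1)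
  rw [s1_one, s2_one, SP.mk_comm]

theorem Ctr_of_prodSet {S T : Set G} (h : Ctr S) (h' : Ctr T) : Ctr ↥(S ×ˢ T) :=
  Ctr_of_homeo (Homeomorph.Set.prod S T).symm (Ctr_prod h h')

theorem Ctr_U12 : Ctr ↥(U1 ∩ U2) := by
  have e : (U1 ∩ U2) = spS (YJ (Set.Ioo (-1 / 2) (1 / 2))) := by
    rw [spS_inter, YJ_inter, Set.inter_comm, Set.Ioi_inter_Iio]
  rw [e]
  exact Ctr_of_homeo (homS (YJ_open isOpen_Ioo)) (Ctr_SP Ctr_mid)

theorem HE_m12 (h0 : S_T0) (h1 : S_T1) : HE (rst gmap (m1.union_union m2)) := by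
  refine T0rel h0 gmap (isOpen_univ.prod Gp_open) (Gp_open.prod isOpen_univ)
    (spS_open (YJ_open isOpen_Iio)) (spS_open (YJ_open isOpen_Ioi)) m1 m2 (HE_m1 h1) (HE_m2 h1) ?_
  apply HE_of_HEqv
  apply HEqv_of_Ctr
  · have e : (Set.univ ×ˢ Gp ∩ Gp ×ˢ Set.univ : Set (G × G)) = Gp ×ˢ Gp := by
      rw [Set.prod_inter_prod, Set.univ_inter, Set.inter_univ]
    rw [e]
    exact Ctr_of_prodSet Ctr_Gp Ctr_Gp
  · exact Ctr_U12

/-! ### The third set -/

theorem U3_eq : U3 = pd (Set.Iio 0) (Set.Ioi 0) := by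
  ext p
  constructor
  · rintro ⟨⟨a, b⟩, rfl⟩
    exact ⟨a.1, a.2, b.1, b.2, rfl⟩
  · rintro ⟨a, ha, b, hb, rfl⟩
    exact ⟨(⟨a, ha⟩, ⟨b, hb⟩), rfl⟩

theorem mpd {S T : Set G} {J J' : Set ℝ} (h1 : Set.MapsTo s1 S (YJ J))
    (h2 : Set.MapsTo s2 T (YJ J')) : Set.MapsTo gmap (S ×ˢ T) (pd J J') :=
  fun p hp => ⟨s1 p.1, h1 hp.1, s2 p.2, h2 hp.2, rfl⟩

theorem m3 : Set.MapsTo gmap (({1}ᶜ : Set G) ×ˢ ({1}ᶜ : Set G)) U3 := by
  rw [U3_eq]
  exact mpd s1_neg s2_pos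

theorem HE_m3 : HE (rst gmap m3) := by
  refine HE_rst_congr gmap (mpd s1_neg s2_pos) m3 rfl U3_eq.symm ?_
  exact HE_pd subset_rfl subset_rfl s1_neg s2_pos HEqv_neg HEqv_pos _

theorem pd_open {J J' : Set ℝ} (hJ : IsOpen J) (hJ' : IsOpen J') : IsOpen (pd J J') := by
  have : pd J J' = qm '' (YJ J ×ˢ YJ J') := by
    ext p
    constructor
    · rintro ⟨a, ha, b, hb, rfl⟩
      exact ⟨(a, b), ⟨ha, hb⟩, rfl⟩
    · rintro ⟨⟨a, b⟩, ⟨ha, hb⟩, rfl⟩
      exact ⟨a, ha, b, hb, rfl⟩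
  rw [this]
  exact qm_open.isOpenMap _ ((YJ_open hJ).prod (YJ_open hJ'))

theorem pd_inter : pd (Set.Iio 0) (Set.Ioo 0 (1 / 2)) ∩ pd (Set.Ioo (-1 / 2) 0) (Set.Ioi 0) =
    pd (Set.Ioo (-1 / 2) 0) (Set.Ioo 0 (1 / 2)) := by
  ext p
  constructor
  · rintro ⟨⟨a, ha, b, hb, rfl⟩, ⟨c, hc, d, hd, h⟩⟩
    have ha' : a.1.2.re < 0 := ha
    have hd' : 0 < d.1.2.re := hd
    rcases mk_eq.1 h with ⟨rfl, rfl⟩ | ⟨rfl, rfl⟩
    · exact ⟨_, hc, _, hb, rfl⟩
    · exact absurd ha' (not_lt.2 hd'.le)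
  · rintro ⟨a, ha, b, hb, rfl⟩
    exact ⟨⟨a, ha.2, b, hb, rfl⟩, ⟨a, ha, b, hb.1, rfl⟩⟩

theorem G01_sub : G01 ⊆ ({1}ᶜ : Set G) := by
  intro a ha h
  rw [mem_G01'] at ha
  have h' : a = 1 := h
  rw [h'] at ha
  have : (1 : G).1.re = 1 := rfl
  rw [this] at ha
  exact lt_irrefl _ ha.2

theorem HE_m123 (h0 : S_T0) : HE (rst gmap ((mpd s1_neg s2_m).union_union (mpd s1_m s2_pos))) := by
  have hG01 : IsOpen G01 := (YJ_open isOpen_Ioo).preimage s1.continuous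
  refine T0rel h0 gmap (isOpen_compl_singleton.prod hG01) (hG01.prod isOpen_compl_singleton)
    (pd_open isOpen_Iio isOpen_Ioo) (pd_open isOpen_Ioo isOpen_Ioi) (mpd s1_neg s2_m)
    (mpd s1_m s2_pos) ?_ ?_ ?_
  · exact HE_pd subset_rfl (fun x hx => hx.1) s1_neg s2_m HEqv_neg HEqv_m2 _
  · exact HE_pd (fun x hx => hx.2) subset_rfl s1_m s2_pos HEqv_m1 HEqv_pos _
  · refine HE_rst_congr gmap (mpd s1_m s2_m) _ ?_ pd_inter.symm ?_
    · rw [Set.prod_inter_prod, Set.inter_eq_right.2 G01_sub, Set.inter_eq_left.2 G01_sub]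
    · exact HE_pd (fun x hx => hx.2) (fun x hx => hx.1) s1_m s2_m HEqv_m1 HEqv_m2 _

theorem main (h0 : S_T0) (h1 : S_T1) : HE gmap := by
  have h := T0rel h0 gmap ((isOpen_univ.prod Gp_open).union (Gp_open.prod isOpen_univ))
    (isOpen_compl_singleton.prod isOpen_compl_singleton)
    ((spS_open (YJ_open isOpen_Iio)).union (spS_open (YJ_open isOpen_Ioi)))
    kap_emb.isOpen_range (m1.union_union m2) m3 (HE_m12 h0 h1) HE_m3 (by
      refine HE_rst_congr gmap _ _ ?_ int_eq.symm (HE_m123 h0)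
      ext ⟨a, b⟩
      simp only [Set.mem_union, Set.mem_inter_iff, Set.mem_prod, Set.mem_univ, true_and, and_true,
        mem_G01', Set.mem_compl_iff, Set.mem_singleton_iff, Set.mem_Ioo, Set.mem_ofPred_eq]
      have hlt : ∀ a : G, a.1.re < 1 ↔ ¬ a = 1 := fun a =>
        ⟨fun h h' => by
          rw [h'] at h
          exact lt_irrefl (1 : ℝ) h, re_lt⟩
      rw [hlt, hlt]
      tauto)
  refine HE_of_rst_univ gmap _ ?_ cover h
  ext ⟨a, b⟩
  simp only [Set.mem_union, Set.mem_prod, Set.mem_univ, true_and, and_true,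
    Set.mem_compl_iff, Set.mem_singleton_iff, Set.mem_ofPred_eq, iff_true]
  by_cases ha : a = 1
  · left; right
    rw [ha]
    exact one_Gp
  · by_cases hb : b = 1
    · left; left
      rw [hb]
      exact one_Gp
    · exact Or.inr ⟨ha, hb⟩

end PT3

/-- T3 -/
theorem p_T3 (h0 : S_T0) (h1 : S_T1) : S_T3 := PT3.main h0 h1

end

end Run7.h592
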