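import Pool.Agent.Run7.h592.Tasks

/-!
# Piece T3a: the pieces of the threefold
-/

set_option autoImplicit false

open scoped Topology

namespace Run7.h592

open Pool.Agent.Y209.HB

noncomputable section

namespace PT3a

/-! ## The complex square root -/

/-- the square root -/
def csq (w : ℂ) : ℂ := w ^ ((2 : ℂ)⁻¹)

theorem csq_sq (w : ℂ) : csq w ^ 2 = w := by
  have := Complex.cpow_nat_inv_pow w (n := 2) (by norm_num)
  simpa [csq] using this

theorem csq_ne {w : ℂ} (h : 0 < w.re) : csq w ≠ 0 := by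
  intro h0
  have := csq_sq w
  rw [h0] at this
  rw [← this] at h
  simp at h

theorem csq_real {r : ℝ} (h : 0 ≤ r) : csq (r : ℂ) = ((√r : ℝ) : ℂ) := by
  rw [Real.sqrt_eq_rpow, Complex.ofReal_cpow h]
  simp [csq]

theorem continuous_csq {X : Type} [TopologicalSpace X] {f : X → ℂ} (hf : Continuous f)
    (h : ∀ x, 0 < (f x).re) : Continuous fun x => csq (f x) :=
  hf.cpow continuous_const fun x => Or.inl (h x)

/-! ## The deformation to the real points -/

section df

variable {N : ℕ}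

/-- sum of the squares -/
def qf (v : Fin N → ℂ) : ℂ := ∑ i, v i ^ 2

/-- norm of the real part -/
def nr (v : Fin N → ℂ) : ℝ := ∑ i, (v i).re ^ 2

/-- norm of the imaginary part -/
def ni (v : Fin N → ℂ) : ℝ := ∑ i, (v i).im ^ 2

theorem qf_re (v : Fin N → ℂ) : (qf v).re = nr v - ni v := by
  simp only [qf, nr, ni, Complex.re_sum, ← Finset.sum_sub_distrib]
  refine Finset.sum_congr rfl fun i _ => ?_
  rw [pow_two, Complex.mul_re]
  ring

theorem qf_im (v : Fin N → ℂ) : (qf v).im = 2 * ∑ i, (v i).re * (v i).im := by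
  simp only [qf, Complex.im_sum, Finset.mul_sum]
  refine Finset.sum_congr rfl fun i _ => ?_
  rw [pow_two, Complex.mul_im]
  ring

theorem nr_nonneg (v : Fin N → ℂ) : 0 ≤ nr v := Finset.sum_nonneg fun _ _ => sq_nonneg _

theorem ni_nonneg (v : Fin N → ℂ) : 0 ≤ ni v := Finset.sum_nonneg fun _ _ => sq_nonneg _

/-- the factor of the real part -/
def rho (v : Fin N → ℂ) (t : ℝ) : ℝ := √(nr v - ni v + (1 - t) ^ 2 * ni v) / √(nr v)

/-- the deformation -/
def df (v : Fin N → ℂ) (t : ℝ) : Fin N → ℂ :=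
  fun i => ((rho v t * (v i).re : ℝ) : ℂ) + (((1 - t) * (v i).im : ℝ) : ℂ) * Complex.I

theorem df_re (v : Fin N → ℂ) (t : ℝ) (i : Fin N) : (df v t i).re = rho v t * (v i).re := by
  simp [df]

theorem df_im (v : Fin N → ℂ) (t : ℝ) (i : Fin N) : (df v t i).im = (1 - t) * (v i).im := by
  simp [df]

theorem rho_sq {v : Fin N → ℂ} (h : 0 < nr v) (h0 : 0 ≤ nr v - ni v) (t : ℝ) :
    rho v t ^ 2 * nr v = nr v - ni v + (1 - t) ^ 2 * ni v := by
  unfold rho
  rw [div_pow, Real.sq_sqrt (by have := ni_nonneg v; positivity), Real.sq_sqrt h.le]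
  field_simp

theorem rho_nonneg (v : Fin N → ℂ) (t : ℝ) : 0 ≤ rho v t := by
  unfold rho
  positivity

theorem rho_le {v : Fin N → ℂ} (h : 0 < nr v) {t : ℝ} (ht0 : 0 ≤ t) (ht1 : t ≤ 1) :
    rho v t ≤ 1 := by
  unfold rho
  rw [div_le_one (Real.sqrt_pos.2 h)]
  apply Real.sqrt_le_sqrt
  have h1 := ni_nonneg v
  have h2 : (1 - t) ^ 2 ≤ 1 := by nlinarith
  nlinarith

theorem df_sq_re {v : Fin N → ℂ} (h : 0 < nr v) (h0 : 0 ≤ nr v - ni v) (t : ℝ) :
    (qf (df v t)).re = (qf v).re := by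
  rw [qf_re, qf_re]
  have h1 : nr (df v t) = rho v t ^ 2 * nr v := by
    simp only [nr, df_re, mul_pow, Finset.mul_sum]
  have h2 : ni (df v t) = (1 - t) ^ 2 * ni v := by
    simp only [ni, df_im, mul_pow, Finset.mul_sum]
  rw [h1, h2, rho_sq h h0]
  ring

theorem df_sq_im (v : Fin N → ℂ) (t : ℝ) :
    (qf (df v t)).im = rho v t * (1 - t) * (qf v).im := by
  rw [qf_im, qf_im]
  simp only [df_re, df_im, Finset.mul_sum]
  refine Finset.sum_congr rfl fun i _ => ?_
  ring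

theorem df_zero {v : Fin N → ℂ} (h : 0 < nr v) : df v 0 = v := by
  have h1 : rho v 0 = 1 := by
    unfold rho
    rw [sub_zero, one_pow, one_mul, sub_add_cancel]
    exact div_self (Real.sqrt_pos.2 h).ne'
  funext i
  apply Complex.ext
  · rw [df_re, h1, one_mul]
  · rw [df_im, sub_zero, one_mul]

theorem df_one (v : Fin N → ℂ) (i : Fin N) :
    df v 1 i = ((√((qf v).re) / √(nr v) * (v i).re : ℝ) : ℂ) := by
  apply Complex.ext
  · rw [df_re, Complex.ofReal_re, qf_re]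
    simp [rho]
  · rw [df_im, Complex.ofReal_im]
    ring

theorem continuous_nr : Continuous (nr : (Fin N → ℂ) → ℝ) := by
  unfold nr
  fun_prop

theorem continuous_ni : Continuous (ni : (Fin N → ℂ) → ℝ) := by
  unfold ni
  fun_prop

theorem continuous_df {X : Type} [TopologicalSpace X] {f : X → Fin N → ℂ} {t : X → ℝ}
    (hf : Continuous f) (ht : Continuous t) (h : ∀ x, 0 < nr (f x)) :
    Continuous fun x => df (f x) (t x) := by
  have h1 := continuous_nr.comp hf
  have h2 := continuous_ni.comp hf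
  have hr : Continuous fun x => rho (f x) (t x) := by
    unfold rho
    refine Continuous.div (Real.continuous_sqrt.comp ?_) (Real.continuous_sqrt.comp h1)
      fun x => (Real.sqrt_pos.2 (h x)).ne'
    exact (h1.sub h2).add (((continuous_const.sub ht).pow 2).mul h2)
  refine continuous_pi fun i => ?_
  have hi : Continuous fun x => f x i := (continuous_apply i).comp hf
  unfold df
  fun_prop

end df

/-! ## Models of the pieces -/

theorem cco {N : ℕ} {p : (Fin N → ℂ) → Prop} (i : Fin N) :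
    Continuous fun v : {v : Fin N → ℂ // p v} => v.1 i :=
  (continuous_apply i).comp continuous_subtype_val

theorem ccr {N : ℕ} {p : (Fin N → ℂ) → Prop} (i : Fin N) :
    Continuous fun v : {v : Fin N → ℂ // p v} => (v.1 i).re :=
  Complex.continuous_re.comp (cco i)

theorem ccq {N : ℕ} {p : (Fin N → ℂ) → Prop} :
    Continuous fun v : {v : Fin N → ℂ // p v} => qf v.1 := by
  have : Continuous (qf : (Fin N → ℂ) → ℂ) := by
    unfold qf
    fun_prop
  exact this.comp continuous_subtype_val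

theorem cdil {N : ℕ} {p : (Fin N → ℂ) → Prop} :
    Continuous fun q : {v : Fin N → ℂ // p v} × I =>
      (fun i => ((1 - (q.2 : ℝ) : ℝ) : ℂ) * q.1.1 i : Fin N → ℂ) := by
  refine continuous_pi fun i => ?_
  have h : Continuous fun q : {v : Fin N → ℂ // p v} × I => q.1.1 i := (cco i).comp continuous_fst
  fun_prop

/-- Transport of a homotopy equivalence to a model. -/
theorem HEqv_of_model {A B M : Type} [TopologicalSpace A] [TopologicalSpace B]
    [TopologicalSpace M] (f : C(A, B)) (α : C(M, B)) (β : C(B, M)) (hαβ : ∀ y, α (β y) = y)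
    (g : C(M, A)) (K : C(M × I, M)) (hg : ∀ x, g (β (f x)) = x) (h0 : ∀ y, K (y, 0) = y)
    (h1 : ∀ y, α (K (y, 1)) = f (g y)) : HEqv f :=
  ⟨g.comp β, ⟨fun q => q.1, continuous_fst⟩,
    ⟨fun q => α (K (β q.1, q.2)), by fun_prop⟩, fun x => rfl, fun x => (hg x).symm,
    fun y => by
      change α (K (β y, 0)) = y
      rw [h0, hαβ], fun y => h1 (β y)⟩

/-- The model of `Re z < 1 / 2`. -/
abbrev M1 : Type := {v : Fin 4 → ℂ // qf v = 1 / 4 ∧ (v 0).re < 1}

/-- from the model to the threefold -/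
def a1 : C(M1, YJ (Set.Iio (1 / 2))) where
  toFun v := ⟨⟨(fun i => csq (3 / 2 - v.1 0) * v.1 i.succ, v.1 0 - 1 / 2), by
    have h := v.2.1
    rw [qf, Fin.sum_univ_four] at h
    have hs := csq_sq (3 / 2 - v.1 0)
    simp only [mul_pow, hs, show (0 : Fin 3).succ = 1 from rfl, show (1 : Fin 3).succ = 2 from rfl,
      show (2 : Fin 3).succ = 3 from rfl]
    linear_combination (3 / 2 - v.1 0) * h⟩, by
    have h := v.2.2
    change (v.1 0 - 1 / 2).re < 1 / 2
    simp only [Complex.sub_re, Complex.div_ofNat_re, Complex.one_re]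
    linarith⟩
  continuous_toFun := by
    refine Continuous.subtype_mk (Continuous.subtype_mk (Continuous.prodMk ?_ ?_) _) _
    · have hc : Continuous fun v : M1 => csq (3 / 2 - v.1 0) := by
        refine continuous_csq (continuous_const.sub (cco 0)) fun v => ?_
        have h := v.2.2
        simp only [Complex.sub_re, Complex.div_ofNat_re, Complex.re_ofNat]
        linarith
      exact continuous_pi fun i => hc.mul (cco _)
    · exact (cco 0).sub continuous_const

theorem re_pos1 (y : YJ (Set.Iio (1 / 2))) : 0 < (1 - y.1.1.2).re := by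
  have h : y.1.1.2.re < 1 / 2 := y.2
  simp only [Complex.sub_re, Complex.one_re]
  linarith

/-- from the threefold to the model -/
def b1 : C(YJ (Set.Iio (1 / 2)), M1) where
  toFun y := ⟨![y.1.1.2 + 1 / 2, y.1.1.1 0 / csq (1 - y.1.1.2), y.1.1.1 1 / csq (1 - y.1.1.2),
      y.1.1.1 2 / csq (1 - y.1.1.2)], by
    have h := y.1.2
    have hs := csq_sq (1 - y.1.1.2)
    have hne := csq_ne (re_pos1 y)
    have hne' : 1 - y.1.1.2 ≠ 0 := by
      rw [← hs]
      exact pow_ne_zero 2 hne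
    rw [qf, Fin.sum_univ_four]
    simp only [Matrix.cons_val_zero, Matrix.cons_val_one, Matrix.cons_val, div_pow, hs]
    have e : y.1.1.1 0 ^ 2 / (1 - y.1.1.2) + y.1.1.1 1 ^ 2 / (1 - y.1.1.2) +
        y.1.1.1 2 ^ 2 / (1 - y.1.1.2) = - (y.1.1.2 * (y.1.1.2 + 1)) := by
      rw [← add_div, ← add_div, h, div_eq_iff hne']
      ring
    linear_combination e, by
    have h : y.1.1.2.re < 1 / 2 := y.2
    simp only [Matrix.cons_val_zero, Complex.add_re, Complex.div_ofNat_re, Complex.one_re]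
    linarith⟩
  continuous_toFun := by
    refine Continuous.subtype_mk ?_ _
    have hc : Continuous fun y : YJ (Set.Iio (1 / 2)) => csq (1 - y.1.1.2) :=
      continuous_csq (by fun_prop) re_pos1
    refine continuous_pi fun i => ?_
    fin_cases i
    · exact (by fun_prop : Continuous fun y : YJ (Set.Iio (1 / 2)) => y.1.1.2 + 1 / 2)
    · exact (by fun_prop : Continuous fun y : YJ (Set.Iio (1 / 2)) => y.1.1.1 0).div hc
        fun y => csq_ne (re_pos1 y)
    · exact (by fun_prop : Continuous fun y : YJ (Set.Iio (1 / 2)) => y.1.1.1 1).div hc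
        fun y => csq_ne (re_pos1 y)
    · exact (by fun_prop : Continuous fun y : YJ (Set.Iio (1 / 2)) => y.1.1.1 2).div hc
        fun y => csq_ne (re_pos1 y)

theorem a1_b1 (y : YJ (Set.Iio (1 / 2))) : a1 (b1 y) = y := by
  have e : (3 / 2 : ℂ) - (y.1.1.2 + 1 / 2) = 1 - y.1.1.2 := by ring
  have hne := csq_ne (re_pos1 y)
  apply Subtype.ext
  apply Subtype.ext
  refine Prod.ext ?_ ?_
  · funext i
    fin_cases i
    · change csq (3 / 2 - (y.1.1.2 + 1 / 2)) * (y.1.1.1 0 / csq (1 - y.1.1.2)) = y.1.1.1 0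
      rw [e]
      field_simp
    · change csq (3 / 2 - (y.1.1.2 + 1 / 2)) * (y.1.1.1 1 / csq (1 - y.1.1.2)) = y.1.1.1 1
      rw [e]
      field_simp
    · change csq (3 / 2 - (y.1.1.2 + 1 / 2)) * (y.1.1.1 2 / csq (1 - y.1.1.2)) = y.1.1.1 2
      rw [e]
      field_simp
  · change y.1.1.2 + 1 / 2 - 1 / 2 = y.1.1.2
    ring

theorem M1_re (v : M1) : nr v.1 - ni v.1 = 1 / 4 := by
  rw [← qf_re, v.2.1]
  norm_num

theorem M1_nr (v : M1) : 0 < nr v.1 := by
  have := M1_re v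
  have := ni_nonneg v.1
  linarith

/-- the homotopy of the model -/
def K1 : C(M1 × I, M1) where
  toFun q := ⟨df q.1.1 q.2, by
    have h := M1_re q.1
    have hn := M1_nr q.1
    constructor
    · apply Complex.ext
      · rw [df_sq_re hn (by linarith), q.1.2.1]
      · rw [df_sq_im, q.1.2.1]
        simp
    · rw [df_re]
      have h1 := rho_nonneg q.1.1 (q.2 : ℝ)
      have h2 := rho_le hn q.2.2.1 q.2.2.2
      have h3 := q.1.2.2
      by_cases h4 : 0 ≤ (q.1.1 0).re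
      · nlinarith
      · nlinarith⟩
  continuous_toFun := by
    refine Continuous.subtype_mk ?_ _
    exact continuous_df (by fun_prop) (by fun_prop) fun q => M1_nr q.1

/-- the map to the sphere -/
def g1 : C(M1, (Set.univ : Set G)) where
  toFun v := ⟨⟨qmk ((v.1 0).re / √(nr v.1)) ((v.1 1).re / √(nr v.1)) ((v.1 2).re / √(nr v.1))
      ((v.1 3).re / √(nr v.1)), by
    apply qmk_mem
    have h := M1_nr v
    simp only [div_pow, Real.sq_sqrt h.le]
    rw [← add_div, ← add_div, ← add_div, div_eq_one_iff_eq h.ne']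
    simp only [nr, Fin.sum_univ_four]⟩, trivial⟩
  continuous_toFun := by
    refine Continuous.subtype_mk (Continuous.subtype_mk ?_ _) _
    have hc : Continuous fun v : M1 => √(nr v.1) :=
      Real.continuous_sqrt.comp (continuous_nr.comp continuous_subtype_val)
    have hi : ∀ i : Fin 4, Continuous fun v : M1 => (v.1 i).re / √(nr v.1) := fun i =>
      (ccr i).div hc
        fun v => (Real.sqrt_pos.2 (M1_nr v)).ne'
    exact continuous_qmk.comp ((hi 0).prodMk ((hi 1).prodMk ((hi 2).prodMk (hi 3))))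

theorem G_re_le (a : G) : a.1.re ≤ 1 := by
  have h := G.eq a
  nlinarith [sq_nonneg a.1.imI, sq_nonneg a.1.imJ, sq_nonneg a.1.imK, sq_nonneg (a.1.re - 1)]

theorem zc_pos (a : G) : 0 < 1 - zc a := by
  have := G_re_le a
  unfold zc
  linarith

theorem maps1 : Set.MapsTo s1 Set.univ (YJ (Set.Iio (1 / 2))) := by
  intro a _
  change ((zc a : ℝ) : ℂ).re < 1 / 2
  have := G_re_le a
  rw [Complex.ofReal_re]
  unfold zc
  linarith

theorem b1_s1 (a : (Set.univ : Set G)) : (b1 (rst s1 maps1 a)).1 =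
    ![((a.1.1.re / 2 : ℝ) : ℂ), ((a.1.1.imI / 2 : ℝ) : ℂ), ((a.1.1.imJ / 2 : ℝ) : ℂ),
      ((a.1.1.imK / 2 : ℝ) : ℂ)] := by
  have hz := zc_pos a.1
  have e : csq (1 - (zc a.1 : ℂ)) = ((√(1 - zc a.1) : ℝ) : ℂ) := by
    rw [← csq_real hz.le]
    norm_cast
  have hs : √(1 - zc a.1) ≠ 0 := (Real.sqrt_pos.2 hz).ne'
  have key : ∀ r : ℝ, ((√(1 - zc a.1) * r / 2 : ℝ) : ℂ) / csq (1 - (zc a.1 : ℂ)) =
      ((r / 2 : ℝ) : ℂ) := by
    intro r
    rw [e, ← Complex.ofReal_div]
    congr 1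
    field_simp
  change ![((zc a.1 : ℝ) : ℂ) + 1 / 2,
    ((√(1 - zc a.1) * a.1.1.imI / 2 : ℝ) : ℂ) / csq (1 - (zc a.1 : ℂ)),
    ((√(1 - zc a.1) * a.1.1.imJ / 2 : ℝ) : ℂ) / csq (1 - (zc a.1 : ℂ)),
    ((√(1 - zc a.1) * a.1.1.imK / 2 : ℝ) : ℂ) / csq (1 - (zc a.1 : ℂ))] = _
  rw [key, key, key]
  congr 1
  unfold zc
  push_cast
  ring

theorem part1 : HEqv (rst s1 maps1) := by
  refine HEqv_of_model _ a1 b1 a1_b1 g1 K1 ?_ ?_ ?_
  · intro a
    have hb := b1_s1 a
    have hG := G.eq a.1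
    have hn : √(nr (b1 (rst s1 maps1 a)).1) = 1 / 2 := by
      rw [hb, nr, Fin.sum_univ_four]
      simp only [Matrix.cons_val_zero, Matrix.cons_val_one, Matrix.cons_val, Complex.ofReal_re]
      rw [show (a.1.1.re / 2) ^ 2 + (a.1.1.imI / 2) ^ 2 + (a.1.1.imJ / 2) ^ 2 +
        (a.1.1.imK / 2) ^ 2 = (1 / 2) ^ 2 by linear_combination hG / 4]
      exact Real.sqrt_sq (by norm_num)
    apply Subtype.ext
    apply Subtype.ext
    change qmk (((b1 (rst s1 maps1 a)).1 0).re / √(nr (b1 (rst s1 maps1 a)).1))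
      (((b1 (rst s1 maps1 a)).1 1).re / √(nr (b1 (rst s1 maps1 a)).1))
      (((b1 (rst s1 maps1 a)).1 2).re / √(nr (b1 (rst s1 maps1 a)).1))
      (((b1 (rst s1 maps1 a)).1 3).re / √(nr (b1 (rst s1 maps1 a)).1)) = a.1.1
    rw [hn, hb]
    ext <;> simp [qmk]
  · intro v
    apply Subtype.ext
    exact df_zero (M1_nr v)
  · intro v
    have hs : √((qf v.1).re) = 1 / 2 := by
      rw [v.2.1]
      rw [show ((1 / 4 : ℂ)).re = (1 / 2) ^ 2 by norm_num]
      exact Real.sqrt_sq (by norm_num)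
    have hK : ∀ i, (K1 (v, 1)).1 i = ((1 / 2 * ((v.1 i).re / √(nr v.1)) : ℝ) : ℂ) := by
      intro i
      change df v.1 1 i = _
      rw [df_one, hs]
      congr 1
      ring
    have hre : ((g1 v).1).1.re = (v.1 0).re / √(nr v.1) := rfl
    have hz : (3 / 2 : ℂ) - (K1 (v, 1)).1 0 = ((1 - zc (g1 v).1 : ℝ) : ℂ) := by
      rw [hK, zc, hre]
      push_cast
      ring
    have hcs : csq (3 / 2 - (K1 (v, 1)).1 0) = ((√(1 - zc (g1 v).1) : ℝ) : ℂ) := by
      rw [hz, csq_real (zc_pos _).le]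
    apply Subtype.ext
    apply Subtype.ext
    refine Prod.ext ?_ ?_
    · funext i
      change csq (3 / 2 - (K1 (v, 1)).1 0) * (K1 (v, 1)).1 i.succ =
        ((√(1 - zc (g1 v).1) * imv (g1 v).1.1 i / 2 : ℝ) : ℂ)
      rw [hcs, hK, ← Complex.ofReal_mul]
      congr 1
      have : imv (g1 v).1.1 i = (v.1 i.succ).re / √(nr v.1) := by
        fin_cases i <;> rfl
      rw [this]
      ring
    · change (K1 (v, 1)).1 0 - 1 / 2 = ((zc (g1 v).1 : ℝ) : ℂ)
      rw [hK, zc, hre]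
      push_cast
      ring

/-! ## Contractible pieces -/

/-- The model of `Re z < 0`. -/
abbrev M2 : Type := {v : Fin 3 → ℂ // (qf v).re < 1}

theorem re_pos2 (y : YJ (Set.Iio 0)) : 0 < (1 - y.1.1.2).re ∧ 0 < (-y.1.1.2).re := by
  have h : y.1.1.2.re < 0 := y.2
  simp only [Complex.sub_re, Complex.one_re, Complex.neg_re]
  constructor <;> linarith

/-- from the model to the threefold -/
def a2 : C(M2, YJ (Set.Iio 0)) where
  toFun v := ⟨⟨(fun i => csq (2 - qf v.1) * csq (1 - qf v.1) * v.1 i, qf v.1 - 1), by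
    have h1 := csq_sq (2 - qf v.1)
    have h2 := csq_sq (1 - qf v.1)
    have h : v.1 0 ^ 2 + v.1 1 ^ 2 + v.1 2 ^ 2 = qf v.1 := by rw [qf, Fin.sum_univ_three]
    simp only [mul_pow, h1, h2]
    linear_combination (2 - qf v.1) * (1 - qf v.1) * h⟩, by
    have h := v.2
    change (qf v.1 - 1).re < 0
    simp only [Complex.sub_re, Complex.one_re]
    linarith⟩
  continuous_toFun := by
    have hq : Continuous fun v : M2 => qf v.1 := ccq
    refine Continuous.subtype_mk (Continuous.subtype_mk (Continuous.prodMk ?_ ?_) _) _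
    · have hc : Continuous fun v : M2 => csq (2 - qf v.1) := by
        refine continuous_csq (continuous_const.sub hq) fun v => ?_
        have h := v.2
        simp only [Complex.sub_re, Complex.re_ofNat]
        linarith
      have hc' : Continuous fun v : M2 => csq (1 - qf v.1) := by
        refine continuous_csq (continuous_const.sub hq) fun v => ?_
        have h := v.2
        simp only [Complex.sub_re, Complex.one_re]
        linarith
      exact continuous_pi fun i => (hc.mul hc').mul (cco _)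
    · exact hq.sub continuous_const

/-- from the threefold to the model -/
def b2 : C(YJ (Set.Iio 0), M2) where
  toFun y := ⟨fun i => y.1.1.1 i / (csq (1 - y.1.1.2) * csq (- y.1.1.2)), by
    have h := y.1.2
    have hs := csq_sq (1 - y.1.1.2)
    have hs' := csq_sq (- y.1.1.2)
    have hne := pow_ne_zero 2 (csq_ne (re_pos2 y).1)
    have hne' := pow_ne_zero 2 (csq_ne (re_pos2 y).2)
    rw [hs] at hne
    rw [hs'] at hne'
    have hz : y.1.1.2.re < 0 := y.2
    have e : qf (fun i => y.1.1.1 i / (csq (1 - y.1.1.2) * csq (- y.1.1.2))) = y.1.1.2 + 1 := by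
      rw [qf, Fin.sum_univ_three]
      simp only [div_pow, mul_pow, hs, hs']
      rw [← add_div, ← add_div, h, div_eq_iff (mul_ne_zero hne hne')]
      ring
    rw [e]
    simp only [Complex.add_re, Complex.one_re]
    linarith⟩
  continuous_toFun := by
    refine Continuous.subtype_mk ?_ _
    have hc : Continuous fun y : YJ (Set.Iio 0) => csq (1 - y.1.1.2) :=
      continuous_csq (by fun_prop) fun y => (re_pos2 y).1
    have hc' : Continuous fun y : YJ (Set.Iio 0) => csq (- y.1.1.2) :=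
      continuous_csq (by fun_prop) fun y => (re_pos2 y).2
    refine continuous_pi fun i => ?_
    exact (by fun_prop : Continuous fun y : YJ (Set.Iio 0) => y.1.1.1 i).div (hc.mul hc')
      fun y => mul_ne_zero (csq_ne (re_pos2 y).1) (csq_ne (re_pos2 y).2)

theorem sq_b2 (y : YJ (Set.Iio 0)) : qf (b2 y).1 = y.1.1.2 + 1 := by
  have h := y.1.2
  have hs := csq_sq (1 - y.1.1.2)
  have hs' := csq_sq (- y.1.1.2)
  have hne := pow_ne_zero 2 (csq_ne (re_pos2 y).1)
  have hne' := pow_ne_zero 2 (csq_ne (re_pos2 y).2)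
  rw [hs] at hne
  rw [hs'] at hne'
  change qf (fun i => y.1.1.1 i / (csq (1 - y.1.1.2) * csq (- y.1.1.2))) = y.1.1.2 + 1
  rw [qf, Fin.sum_univ_three]
  simp only [div_pow, mul_pow, hs, hs']
  rw [← add_div, ← add_div, h, div_eq_iff (mul_ne_zero hne hne')]
  ring

theorem a2_b2 (y : YJ (Set.Iio 0)) : a2 (b2 y) = y := by
  apply Subtype.ext
  apply Subtype.ext
  have e1 : (2 : ℂ) - (y.1.1.2 + 1) = 1 - y.1.1.2 := by ring
  have e2 : (1 : ℂ) - (y.1.1.2 + 1) = - y.1.1.2 := by ring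
  refine Prod.ext ?_ ?_
  · funext i
    change csq (2 - qf (b2 y).1) * csq (1 - qf (b2 y).1) *
      (y.1.1.1 i / (csq (1 - y.1.1.2) * csq (- y.1.1.2))) = y.1.1.1 i
    rw [sq_b2, e1, e2]
    have h1 := csq_ne (re_pos2 y).1
    have h2 := csq_ne (re_pos2 y).2
    field_simp
  · change qf (b2 y).1 - 1 = y.1.1.2
    rw [sq_b2]
    ring

theorem sq_smul {N : ℕ} (r : ℝ) (v : Fin N → ℂ) : qf (fun i => (r : ℂ) * v i) = (r : ℂ) ^ 2 * qf v := by
  simp only [qf, mul_pow, Finset.mul_sum]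

theorem sq_smul_re {N : ℕ} (r : ℝ) (v : Fin N → ℂ) :
    (qf (fun i => (r : ℂ) * v i)).re = r ^ 2 * (qf v).re := by
  rw [sq_smul, ← Complex.ofReal_pow, Complex.re_ofReal_mul]

theorem part2 : Ctr (YJ (Set.Iio 0)) := by
  let K : C(M2 × I, M2) := ⟨fun q => ⟨fun i => ((1 - (q.2 : ℝ) : ℝ) : ℂ) * q.1.1 i, by
    rw [sq_smul_re]
    have h1 := q.2.2.1
    have h2 := q.2.2.2
    have h3 := q.1.2
    have h4 : (1 - (q.2 : ℝ)) ^ 2 ≤ 1 := by nlinarith
    by_cases h5 : 0 ≤ (qf q.1.1).re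
    · nlinarith
    · nlinarith [sq_nonneg (1 - (q.2 : ℝ))]⟩, by
    refine Continuous.subtype_mk ?_ _
    exact cdil⟩
  refine ⟨a2 ⟨0, by simp [qf]⟩, ⟨fun q => a2 (K (b2 q.1, q.2)), by fun_prop⟩, fun y => ?_,
    fun y => ?_⟩
  · change a2 (K (b2 y, 0)) = y
    have : K (b2 y, 0) = b2 y := by
      apply Subtype.ext
      funext i
      simp [K]
    rw [this, a2_b2]
  · change a2 (K (b2 y, 1)) = _
    congr 1
    apply Subtype.ext
    funext i
    simp [K]

/-! ## The pieces near `z = 0` -/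

/-- The model of `Re z ∈ J`, `J` in `(-1/2, 1/2)`. -/
abbrev M3 (J : Set ℝ) : Type := {v : Fin 3 → ℂ // (- qf v).re ∈ J}

theorem re_pos3' {z : ℂ} (h : z.re ∈ Set.Ioo (-1 / 2 : ℝ) (1 / 2)) : 0 < (1 - z ^ 2).re := by
  obtain ⟨h1, h2⟩ := h
  have e : (1 - z ^ 2).re = 1 - z.re ^ 2 + z.im ^ 2 := by
    rw [pow_two, Complex.sub_re, Complex.mul_re, Complex.one_re]
    ring
  rw [e]
  nlinarith [sq_nonneg z.im]

variable {J : Set ℝ}

theorem re_pos3 (hJ : J ⊆ Set.Ioo (-1 / 2) (1 / 2)) (y : YJ J) : 0 < (1 - y.1.1.2 ^ 2).re := re_pos3' (hJ y.2)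

/-- from the model to the threefold -/
def a3 (hJ : J ⊆ Set.Ioo (-1 / 2) (1 / 2)) : C(M3 J, YJ J) where
  toFun v := ⟨⟨(fun i => csq (1 - (- qf v.1) ^ 2) * v.1 i, - qf v.1), by
    have h1 := csq_sq (1 - (- qf v.1) ^ 2)
    have h : v.1 0 ^ 2 + v.1 1 ^ 2 + v.1 2 ^ 2 = qf v.1 := by rw [qf, Fin.sum_univ_three]
    simp only [mul_pow, h1]
    linear_combination (1 - (- qf v.1) ^ 2) * h⟩, v.2⟩
  continuous_toFun := by
    have hq : Continuous fun v : M3 J => qf v.1 := ccq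
    refine Continuous.subtype_mk (Continuous.subtype_mk (Continuous.prodMk ?_ ?_) _) _
    · have hc : Continuous fun v : M3 J => csq (1 - (- qf v.1) ^ 2) := by
        refine continuous_csq (continuous_const.sub (hq.neg.pow 2)) fun v => re_pos3' (hJ v.2)
      exact continuous_pi fun i => hc.mul (cco _)
    · exact hq.neg

theorem sq_b3 (hJ : J ⊆ Set.Ioo (-1 / 2) (1 / 2)) (y : YJ J) : qf (fun i => y.1.1.1 i / csq (1 - y.1.1.2 ^ 2)) = - y.1.1.2 := by
  have h := y.1.2
  have hs := csq_sq (1 - y.1.1.2 ^ 2)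
  have hne := pow_ne_zero 2 (csq_ne (re_pos3 hJ y))
  rw [hs] at hne
  rw [qf, Fin.sum_univ_three]
  simp only [div_pow, hs]
  rw [← add_div, ← add_div, h, div_eq_iff hne]
  ring

/-- from the threefold to the model -/
def b3 (hJ : J ⊆ Set.Ioo (-1 / 2) (1 / 2)) : C(YJ J, M3 J) where
  toFun y := ⟨fun i => y.1.1.1 i / csq (1 - y.1.1.2 ^ 2), by
    rw [sq_b3 hJ, neg_neg]
    exact y.2⟩
  continuous_toFun := by
    refine Continuous.subtype_mk ?_ _
    have hc : Continuous fun y : YJ J => csq (1 - y.1.1.2 ^ 2) :=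
      continuous_csq (by fun_prop) fun y => re_pos3 hJ y
    refine continuous_pi fun i => ?_
    exact (by fun_prop : Continuous fun y : YJ J => y.1.1.1 i).div hc
      fun y => csq_ne (re_pos3 hJ y)

theorem a3_b3 (hJ : J ⊆ Set.Ioo (-1 / 2) (1 / 2)) (y : YJ J) : a3 hJ (b3 hJ y) = y := by
  apply Subtype.ext
  apply Subtype.ext
  have hb : qf (b3 hJ y).1 = - y.1.1.2 := sq_b3 hJ y
  refine Prod.ext ?_ ?_
  · funext i
    change csq (1 - (- qf (b3 hJ y).1) ^ 2) * (y.1.1.1 i / csq (1 - y.1.1.2 ^ 2)) = y.1.1.1 i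
    rw [hb, neg_neg]
    have h1 := csq_ne (re_pos3 hJ y)
    field_simp
  · change - qf (b3 hJ y).1 = y.1.1.2
    rw [hb, neg_neg]

theorem part3 : ∃ (y : YJ (Set.Ioo (-1 / 2) (1 / 2))) (H : C(YJ (Set.Ioo (-1 / 2) (1 / 2)) × I,
    YJ (Set.Ioo (-1 / 2) (1 / 2)))), (∀ x, H (x, 0) = x) ∧ (∀ x, H (x, 1) = y) ∧
    ∀ s, H (y, s) = y := by
  have hJ : Set.Ioo (-1 / 2 : ℝ) (1 / 2) ⊆ Set.Ioo (-1 / 2) (1 / 2) := subset_rfl
  let K : C(M3 (Set.Ioo (-1 / 2) (1 / 2)) × I, M3 (Set.Ioo (-1 / 2) (1 / 2))) :=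
    ⟨fun q => ⟨fun i => ((1 - (q.2 : ℝ) : ℝ) : ℂ) * q.1.1 i, by
    have h1 := q.2.2.1
    have h2 := q.2.2.2
    have h3 := q.1.2
    rw [Complex.neg_re] at h3 ⊢
    rw [sq_smul_re]
    obtain ⟨h3, h4⟩ := h3
    have h5 : (1 - (q.2 : ℝ)) ^ 2 ≤ 1 := by nlinarith
    have h6 := sq_nonneg (1 - (q.2 : ℝ))
    constructor
    · by_cases h7 : 0 ≤ (qf q.1.1).re
      · nlinarith
      · nlinarith
    · by_cases h7 : 0 ≤ (qf q.1.1).re
      · nlinarith
      · nlinarith⟩, by
    refine Continuous.subtype_mk ?_ _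
    exact cdil⟩
  have h0 : (- qf (0 : Fin 3 → ℂ)).re ∈ Set.Ioo (-1 / 2 : ℝ) (1 / 2) := by
    simp only [qf, Pi.zero_apply, ne_eq, OfNat.ofNat_ne_zero, not_false_eq_true, zero_pow,
      Finset.sum_const_zero, neg_zero, Complex.zero_re, Set.mem_Ioo]
    norm_num
  have hb0 : b3 hJ (a3 hJ ⟨0, h0⟩) = ⟨0, h0⟩ := by
    apply Subtype.ext
    funext i
    change csq (1 - (- qf (0 : Fin 3 → ℂ)) ^ 2) * (0 : Fin 3 → ℂ) i / _ = 0
    simp
  refine ⟨a3 hJ ⟨0, h0⟩, ⟨fun q => a3 hJ (K (b3 hJ q.1, q.2)), by fun_prop⟩, fun y => ?_,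
    fun y => ?_, fun s => ?_⟩
  · change a3 hJ (K (b3 hJ y, 0)) = y
    have : K (b3 hJ y, 0) = b3 hJ y := by
      apply Subtype.ext
      funext i
      simp [K]
    rw [this, a3_b3]
  · change a3 hJ (K (b3 hJ y, 1)) = _
    congr 1
    apply Subtype.ext
    funext i
    simp [K]
  · change a3 hJ (K (b3 hJ (a3 hJ ⟨0, h0⟩), s)) = _
    rw [hb0]
    congr 1
    apply Subtype.ext
    funext i
    simp [K]

/-! ## The overlap -/

/-- the interval -/
abbrev J4 : Set ℝ := Set.Ioo (-1 / 2) 0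

theorem hJ4 : J4 ⊆ Set.Ioo (-1 / 2) (1 / 2) := Set.Ioo_subset_Ioo_right (by norm_num)

theorem M4_re (v : M3 J4) : 0 < nr v.1 - ni v.1 ∧ nr v.1 - ni v.1 < 1 / 2 := by
  have h := v.2
  rw [Complex.neg_re, qf_re] at h
  obtain ⟨h1, h2⟩ := h
  constructor <;> linarith

theorem M4_nr (v : M3 J4) : 0 < nr v.1 := by
  have := (M4_re v).1
  have := ni_nonneg v.1
  linarith

/-- the homotopy of the model -/
def K4 : C(M3 J4 × I, M3 J4) where
  toFun q := ⟨df q.1.1 q.2, by
    have h := q.1.2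
    rw [Complex.neg_re] at h ⊢
    rw [df_sq_re (M4_nr q.1) (M4_re q.1).1.le]
    exact h⟩
  continuous_toFun := by
    refine Continuous.subtype_mk ?_ _
    exact continuous_df (by fun_prop) (by fun_prop) fun q => M4_nr q.1

/-- the real part of the point of the sphere -/
def rr (v : Fin 3 → ℂ) : ℝ := 1 - 2 * (qf v).re

theorem rr_mem (v : M3 J4) : rr v.1 ∈ Set.Ioo (0 : ℝ) 1 := by
  have h := M4_re v
  rw [← qf_re] at h
  unfold rr
  constructor <;> linarith [h.1, h.2]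

theorem mem_pre {a : G} : a ∈ s1 ⁻¹' (YJ J4) ↔ a.1.re ∈ Set.Ioo (0 : ℝ) 1 := by
  change ((zc a : ℝ) : ℂ).re ∈ J4 ↔ _
  rw [Complex.ofReal_re]
  unfold zc
  simp only [Set.mem_Ioo]
  constructor
  · rintro ⟨h1, h2⟩
    constructor <;> linarith
  · rintro ⟨h1, h2⟩
    constructor <;> linarith

/-- the map to the sphere -/
def g4 : C(M3 J4, s1 ⁻¹' (YJ J4)) where
  toFun v := ⟨⟨qmk (rr v.1) (√(1 - rr v.1 ^ 2) * ((v.1 0).re / √(nr v.1)))
      (√(1 - rr v.1 ^ 2) * ((v.1 1).re / √(nr v.1)))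
      (√(1 - rr v.1 ^ 2) * ((v.1 2).re / √(nr v.1))), by
    apply qmk_mem
    have h := M4_nr v
    have hr := rr_mem v
    have h1 : 0 ≤ 1 - rr v.1 ^ 2 := by nlinarith [hr.1, hr.2]
    simp only [mul_pow, div_pow, Real.sq_sqrt h.le, Real.sq_sqrt h1]
    have e : (v.1 0).re ^ 2 + (v.1 1).re ^ 2 + (v.1 2).re ^ 2 = nr v.1 := by
      rw [nr, Fin.sum_univ_three]
    field_simp
    linear_combination (1 - rr v.1 ^ 2) * e⟩, mem_pre.2 (rr_mem v)⟩
  continuous_toFun := by
    refine Continuous.subtype_mk (Continuous.subtype_mk ?_ _) _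
    have hc : Continuous fun v : M3 J4 => √(nr v.1) :=
      Real.continuous_sqrt.comp (continuous_nr.comp continuous_subtype_val)
    have hq : Continuous fun v : M3 J4 => rr v.1 :=
      continuous_const.sub (continuous_const.mul (Complex.continuous_re.comp ccq))
    have hi : ∀ i : Fin 3, Continuous fun v : M3 J4 =>
        √(1 - rr v.1 ^ 2) * ((v.1 i).re / √(nr v.1)) := fun i =>
      (Real.continuous_sqrt.comp (continuous_const.sub (hq.pow 2))).mul
        ((ccr i).div hc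
        fun v => (Real.sqrt_pos.2 (M4_nr v)).ne')
    exact continuous_qmk.comp (hq.prodMk ((hi 0).prodMk ((hi 1).prodMk (hi 2))))

theorem maps4 : Set.MapsTo s1 (s1 ⁻¹' (YJ J4)) (YJ J4) := fun _ h => h

theorem sqrt_aux {r : ℝ} (h0 : 0 < r) (h1 : r < 1) :
    √(1 - ((r - 1) / 2)) * √(1 - r ^ 2) / 2 / √(1 - ((r - 1) / 2) ^ 2) = √((1 - r) / 2) := by
  have e1 : 1 - ((r - 1) / 2) ^ 2 = (1 - ((r - 1) / 2)) * ((1 + r) / 2) := by ring
  have e2 : 1 - r ^ 2 = ((1 + r) / 2) * ((1 - r) / 2) * 2 ^ 2 := by ring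
  have h3 : (0 : ℝ) < 1 - ((r - 1) / 2) := by linarith
  have h4 : (0 : ℝ) < (1 + r) / 2 := by linarith
  have h5 : (0 : ℝ) < (1 - r) / 2 := by linarith
  rw [e1, e2, Real.sqrt_mul h3.le, Real.sqrt_mul (by positivity), Real.sqrt_mul h4.le,
    Real.sqrt_sq (by norm_num)]
  have h6 := (Real.sqrt_pos.2 h3).ne'
  have h7 := (Real.sqrt_pos.2 h4).ne'
  generalize √(1 - (r - 1) / 2) = A at *
  generalize √((1 + r) / 2) = B at *
  generalize √((1 - r) / 2) = C at *
  field_simp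

theorem b3_s1 (a : s1 ⁻¹' (YJ J4)) (i : Fin 3) : (b3 hJ4 (rst s1 maps4 a)).1 i =
    ((√(1 - zc a.1) * imv a.1.1 i / 2 / √(1 - zc a.1 ^ 2) : ℝ) : ℂ) := by
  have hr := mem_pre.1 a.2
  have hz : 0 ≤ 1 - zc a.1 ^ 2 := by
    unfold zc
    nlinarith [hr.1, hr.2]
  change ((√(1 - zc a.1) * imv a.1.1 i / 2 : ℝ) : ℂ) / csq (1 - ((zc a.1 : ℝ) : ℂ) ^ 2) = _
  rw [Complex.ofReal_div (√(1 - zc a.1) * imv a.1.1 i / 2), ← csq_real hz]
  norm_cast

theorem part4 : HEqv (rst s1 maps4) := by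
  refine HEqv_of_model _ (a3 hJ4) (b3 hJ4) (a3_b3 hJ4) g4 K4 ?_ ?_ ?_
  · intro a
    have hr := mem_pre.1 a.2
    have hG := G.eq a.1
    have hrr : rr (b3 hJ4 (rst s1 maps4 a)).1 = a.1.1.re := by
      rw [rr]
      have : qf (b3 hJ4 (rst s1 maps4 a)).1 = - ((zc a.1 : ℝ) : ℂ) := sq_b3 hJ4 _
      rw [this, Complex.neg_re, Complex.ofReal_re, zc]
      ring
    set c : ℝ := √(1 - zc a.1) / 2 / √(1 - zc a.1 ^ 2) with hc
    have hcpos : 0 < c := by
      have h1 : 0 < 1 - zc a.1 := zc_pos a.1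
      have h2 : 0 < 1 - zc a.1 ^ 2 := by
        unfold zc
        nlinarith [hr.1, hr.2]
      have := Real.sqrt_pos.2 h1
      have := Real.sqrt_pos.2 h2
      positivity
    have hb : ∀ i, ((b3 hJ4 (rst s1 maps4 a)).1 i).re = c * imv a.1.1 i := by
      intro i
      rw [b3_s1, Complex.ofReal_re, hc]
      ring
    have himv : imv a.1.1 0 ^ 2 + imv a.1.1 1 ^ 2 + imv a.1.1 2 ^ 2 = 1 - a.1.1.re ^ 2 := by
      simp only [imv, Matrix.cons_val_zero, Matrix.cons_val_one, Matrix.cons_val]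
      linarith
    have hpos : 0 < 1 - a.1.1.re ^ 2 := by nlinarith [hr.1, hr.2]
    have hn : √(nr (b3 hJ4 (rst s1 maps4 a)).1) = c * √(1 - a.1.1.re ^ 2) := by
      rw [nr, Fin.sum_univ_three, hb, hb, hb]
      rw [show (c * imv a.1.1 0) ^ 2 + (c * imv a.1.1 1) ^ 2 + (c * imv a.1.1 2) ^ 2 =
        c ^ 2 * (1 - a.1.1.re ^ 2) by rw [← himv]; ring]
      rw [Real.sqrt_mul (by positivity), Real.sqrt_sq hcpos.le]
    have key : ∀ i, √(1 - rr (b3 hJ4 (rst s1 maps4 a)).1 ^ 2) *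
        (((b3 hJ4 (rst s1 maps4 a)).1 i).re / √(nr (b3 hJ4 (rst s1 maps4 a)).1)) =
          imv a.1.1 i := by
      intro i
      rw [hn, hb, hrr]
      have h2 := (Real.sqrt_pos.2 hpos).ne'
      field_simp
    apply Subtype.ext
    apply Subtype.ext
    change qmk (rr (b3 hJ4 (rst s1 maps4 a)).1) _ _ _ = a.1.1
    rw [key, key, key, hrr]
    ext <;> simp [qmk, imv]
  · intro v
    apply Subtype.ext
    exact df_zero (M4_nr v)
  · intro v
    have hr := rr_mem v
    have hK : ∀ i, (K4 (v, 1)).1 i =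
        ((√((1 - rr v.1) / 2) * ((v.1 i).re / √(nr v.1)) : ℝ) : ℂ) := by
      intro i
      change df v.1 1 i = _
      rw [df_one]
      congr 1
      rw [show (1 - rr v.1) / 2 = (qf v.1).re by rw [rr]; ring]
      ring
    have hn := M4_nr v
    have hsq : qf (K4 (v, 1)).1 = (((1 - rr v.1) / 2 : ℝ) : ℂ) := by
      rw [qf, Fin.sum_univ_three, hK, hK, hK]
      norm_cast
      simp only [mul_pow, div_pow, Real.sq_sqrt hn.le,
        Real.sq_sqrt (show 0 ≤ (1 - rr v.1) / 2 by linarith [hr.2])]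
      have e : (v.1 0).re ^ 2 + (v.1 1).re ^ 2 + (v.1 2).re ^ 2 = nr v.1 := by
        rw [nr, Fin.sum_univ_three]
      field_simp
      linear_combination (1 - rr v.1) * e
    have hre : ((g4 v).1).1.re = rr v.1 := rfl
    have hz : - qf (K4 (v, 1)).1 = ((zc (g4 v).1 : ℝ) : ℂ) := by
      rw [hsq, zc, hre]
      push_cast
      ring
    apply Subtype.ext
    apply Subtype.ext
    refine Prod.ext ?_ ?_
    · funext i
      change csq (1 - (- qf (K4 (v, 1)).1) ^ 2) * (K4 (v, 1)).1 i =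
        ((√(1 - zc (g4 v).1) * imv (g4 v).1.1 i / 2 : ℝ) : ℂ)
      have hz2 : 0 < 1 - zc (g4 v).1 ^ 2 := by
        rw [zc, hre]
        nlinarith [hr.1, hr.2]
      have hcs : csq (1 - (((zc (g4 v).1 : ℝ) : ℂ)) ^ 2) =
          ((√(1 - zc (g4 v).1 ^ 2) : ℝ) : ℂ) := by
        rw [← csq_real hz2.le]
        norm_cast
      rw [hz, hcs, hK, ← Complex.ofReal_mul]
      congr 1
      have him : imv (g4 v).1.1 i = √(1 - rr v.1 ^ 2) * ((v.1 i).re / √(nr v.1)) := by
        fin_cases i <;> rfl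
      have haux := sqrt_aux hr.1 hr.2
      have hzc : zc (g4 v).1 = (rr v.1 - 1) / 2 := by rw [zc, hre]
      rw [him, ← haux, ← hzc]
      have h2 := (Real.sqrt_pos.2 hz2).ne'
      field_simp
    · exact hz

end PT3a

open PT3a in
/-- T3a: the pieces of the threefold -/
theorem p_T3a : S_T3a := ⟨⟨maps1, part1⟩, part2, part3, ⟨maps4, part4⟩⟩

end

end Run7.h592
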