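import Pool.Agent.Run7.h592.PT2b
import Pool.Agent.Run7.h592.PT3a

/-!
# Piece T4: the symmetric square of the threefold is simply connected
-/

set_option autoImplicit false

open scoped Topology

namespace Run7.h592

open Pool.Agent.Y209.HB

noncomputable section

namespace PT4

open SPx

section gen

variable {X Y : Type} [TopologicalSpace X] [TopologicalSpace Y]

theorem HEqv_of_homeo (e : X ≃ₜ Y) : HEqv (⟨e, e.continuous⟩ : C(X, Y)) :=
  ⟨⟨e.symm, e.symm.continuous⟩, ⟨Prod.fst, continuous_fst⟩, ⟨Prod.fst, continuous_fst⟩,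
    fun _ => rfl, fun x => (e.symm_apply_apply x).symm, fun _ => rfl,
    fun y => (e.apply_symm_apply y).symm⟩

/-- Homotopy equivalences preserve path connectedness. -/
theorem pc_of_HEqv {f : C(X, Y)} (h : HEqv f) (hX : PathConnectedSpace X) :
    PathConnectedSpace Y := by
  obtain ⟨g, H, K, h0, h1, h2, h3⟩ := h
  have hj : ∀ y, Joined y (f (g y)) := fun y =>
    ⟨⟨⟨fun t => K (y, t), by fun_prop⟩, h2 y, h3 y⟩⟩
  obtain ⟨x⟩ := hX.nonempty
  refine ⟨⟨f x⟩, fun y y' => (hj y).trans (Joined.trans ?_ (hj y').symm)⟩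
  obtain ⟨p⟩ := hX.joined (g y) (g y')
  exact ⟨p.map f.continuous⟩

/-- Union of two simply connected open sets. -/
theorem sc_union {A B : Set X} (hA : IsOpen A) (hB : IsOpen B) (sA : IsSimplyConnected A)
    (sB : IsSimplyConnected B) (pAB : IsPathConnected (A ∩ B)) : IsSimplyConnected (A ∪ B) := by
  obtain ⟨x, hxA, hxB⟩ := pAB.nonempty
  have hemb : Topology.IsEmbedding (Subtype.val : ↥(A ∪ B) → X) :=
    Topology.IsEmbedding.subtypeVal
  have key : ∀ C : Set X, C ⊆ A ∪ B →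
      (Subtype.val : ↥(A ∪ B) → X) '' (Subtype.val ⁻¹' C) = C := by
    intro C hC
    rw [Subtype.image_preimage_coe, Set.inter_eq_right.2 hC]
  refine Pool.Agent.H21_s2.simplyConnected_of_cover (X := ↥(A ∪ B))
    (fun b : Bool => Subtype.val ⁻¹' (if b then A else B)) ?_ ?_ ⟨x, Or.inl hxA⟩ ?_ ?_ ?_
  · rintro (_ | _)
    · exact hB.preimage continuous_subtype_val
    · exact hA.preimage continuous_subtype_val
  · rintro ⟨y, hy | hy⟩
    · exact ⟨true, hy⟩
    · exact ⟨false, hy⟩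
  · rintro (_ | _)
    · exact hxB
    · exact hxA
  · rintro (_ | _)
    · rw [← hemb.isSimplyConnected_image]
      simp only [Bool.false_eq_true, if_false]
      rw [key B Set.subset_union_right]
      exact sB
    · rw [← hemb.isSimplyConnected_image]
      simp only [if_true]
      rw [key A Set.subset_union_left]
      exact sA
  · have hpc : ∀ C : Set X, C ⊆ A ∪ B → IsPathConnected C →
        IsPathConnected ((Subtype.val : ↥(A ∪ B) → X) ⁻¹' C) := by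
      intro C hC hp
      rw [hemb.toIsInducing.isPathConnected_iff, key C hC]
      exact hp
    rintro (_ | _) (_ | _)
    · rw [Set.inter_self]
      exact hpc B Set.subset_union_right sB.isPathConnected
    · rw [← Set.preimage_inter]
      exact hpc _ (Set.inter_subset_left.trans Set.subset_union_right) (by
        change IsPathConnected (B ∩ A)
        rw [Set.inter_comm]
        exact pAB)
    · rw [← Set.preimage_inter]
      exact hpc _ (Set.inter_subset_left.trans Set.subset_union_left) pAB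
    · rw [Set.inter_self]
      exact hpc A Set.subset_union_left sA.isPathConnected

end gen

/-! ## The threefold -/

theorem YJ_open {J : Set ℝ} (hJ : IsOpen J) : IsOpen (YJ J) :=
  hJ.preimage (Complex.continuous_re.comp (continuous_snd.comp continuous_subtype_val))

/-- the symmetry -/
def ioH : Y ≃ₜ Y where
  toFun := iotaY
  invFun p := ⟨(fun i => -Complex.I * p.1.1 i, - p.1.2), by
    have h := p.2
    simp only [mul_pow, neg_sq, Complex.I_sq]
    linear_combination -h⟩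
  left_inv p := by
    apply Subtype.ext
    refine Prod.ext ?_ ?_
    · funext i
      change -Complex.I * (Complex.I * p.1.1 i) = p.1.1 i
      rw [← mul_assoc, neg_mul, Complex.I_mul_I, neg_neg, one_mul]
    · change - - p.1.2 = p.1.2
      rw [neg_neg]
  right_inv p := by
    apply Subtype.ext
    refine Prod.ext ?_ ?_
    · funext i
      change Complex.I * (-Complex.I * p.1.1 i) = p.1.1 i
      rw [← mul_assoc, mul_neg, Complex.I_mul_I, neg_neg, one_mul]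
    · change - - p.1.2 = p.1.2
      rw [neg_neg]
  continuous_toFun := iotaY.continuous
  continuous_invFun := by fun_prop

theorem ioH_z (p : Y) : (ioH p).1.2 = - p.1.2 := rfl

/-- the symmetry between the pieces -/
def ioJ (J J' : Set ℝ) (h : ∀ r, r ∈ J ↔ -r ∈ J') : YJ J ≃ₜ YJ J' :=
  ioH.subtype fun y => by
    change y.1.2.re ∈ J ↔ (ioH y).1.2.re ∈ J'
    rw [ioH_z, Complex.neg_re]
    exact h _

/-! ### Small sets -/

/-- the part `0 < re a < 1` of the 3-sphere -/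
abbrev G01 : Set G := s1 ⁻¹' (YJ (Set.Ioo (-1 / 2) 0))

theorem mem_G01 {a : G} : a ∈ G01 ↔ a.1.re ∈ Set.Ioo (0 : ℝ) 1 := PT3a.mem_pre

/-- the map from the punctured space -/
def gam : C(({0}ᶜ : Set (Fin 3 → ℝ)), G01) where
  toFun v := ⟨⟨qmk (1 / √(1 + (v.1 0 ^ 2 + v.1 1 ^ 2 + v.1 2 ^ 2)))
      (v.1 0 / √(1 + (v.1 0 ^ 2 + v.1 1 ^ 2 + v.1 2 ^ 2)))
      (v.1 1 / √(1 + (v.1 0 ^ 2 + v.1 1 ^ 2 + v.1 2 ^ 2)))
      (v.1 2 / √(1 + (v.1 0 ^ 2 + v.1 1 ^ 2 + v.1 2 ^ 2))), by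
    apply qmk_mem
    have h : (0 : ℝ) < 1 + (v.1 0 ^ 2 + v.1 1 ^ 2 + v.1 2 ^ 2) := by positivity
    simp only [div_pow, Real.sq_sqrt h.le]
    field_simp
    ring⟩, by
    rw [mem_G01]
    change 1 / √(1 + (v.1 0 ^ 2 + v.1 1 ^ 2 + v.1 2 ^ 2)) ∈ Set.Ioo (0 : ℝ) 1
    have hv : 0 < v.1 0 ^ 2 + v.1 1 ^ 2 + v.1 2 ^ 2 := by
      by_contra hcon
      have h0 : v.1 0 = 0 := by nlinarith [sq_nonneg (v.1 0), sq_nonneg (v.1 1), sq_nonneg (v.1 2)]
      have h1 : v.1 1 = 0 := by nlinarith [sq_nonneg (v.1 0), sq_nonneg (v.1 1), sq_nonneg (v.1 2)]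
      have h2 : v.1 2 = 0 := by nlinarith [sq_nonneg (v.1 0), sq_nonneg (v.1 1), sq_nonneg (v.1 2)]
      apply v.2
      rw [Set.mem_singleton_iff]
      funext i
      fin_cases i
      · exact h0
      · exact h1
      · exact h2
    have h : (1 : ℝ) < √(1 + (v.1 0 ^ 2 + v.1 1 ^ 2 + v.1 2 ^ 2)) := by
      rw [Real.lt_sqrt (by norm_num)]
      linarith
    constructor
    · positivity
    · rw [div_lt_one (by positivity)]
      exact h⟩
  continuous_toFun := by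
    refine Continuous.subtype_mk (Continuous.subtype_mk ?_ _) _
    have hi : ∀ i, Continuous fun v : ({0}ᶜ : Set (Fin 3 → ℝ)) => v.1 i := fun i =>
      (continuous_apply i).comp continuous_subtype_val
    have hs : Continuous fun v : ({0}ᶜ : Set (Fin 3 → ℝ)) =>
        √(1 + (v.1 0 ^ 2 + v.1 1 ^ 2 + v.1 2 ^ 2)) :=
      Real.continuous_sqrt.comp (continuous_const.add ((((hi 0).pow 2).add ((hi 1).pow 2)).add
        ((hi 2).pow 2)))
    have hne : ∀ v : ({0}ᶜ : Set (Fin 3 → ℝ)),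
        √(1 + (v.1 0 ^ 2 + v.1 1 ^ 2 + v.1 2 ^ 2)) ≠ 0 := fun v => by positivity
    exact continuous_qmk.comp ((continuous_const.div hs hne).prodMk (((hi 0).div hs hne).prodMk
      (((hi 1).div hs hne).prodMk ((hi 2).div hs hne))))

theorem gam_surj : Function.Surjective gam := by
  rintro ⟨a, ha⟩
  have h := mem_G01.1 ha
  have hr := h.1
  have hG := G.eq a
  have hne : (![a.1.imI / a.1.re, a.1.imJ / a.1.re, a.1.imK / a.1.re] : Fin 3 → ℝ) ∈
      ({0}ᶜ : Set (Fin 3 → ℝ)) := by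
    intro h0
    have h0' : (![a.1.imI / a.1.re, a.1.imJ / a.1.re, a.1.imK / a.1.re] : Fin 3 → ℝ) = 0 := h0
    have e0 : a.1.imI / a.1.re = 0 := congrFun h0' 0
    have e1 : a.1.imJ / a.1.re = 0 := congrFun h0' 1
    have e2 : a.1.imK / a.1.re = 0 := congrFun h0' 2
    rw [div_eq_zero_iff] at e0 e1 e2
    have f0 := e0.resolve_right hr.ne'
    have f1 := e1.resolve_right hr.ne'
    have f2 := e2.resolve_right hr.ne'
    rw [f0, f1, f2] at hG
    nlinarith [h.2]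
  refine ⟨⟨_, hne⟩, ?_⟩
  have e : √(1 + ((a.1.imI / a.1.re) ^ 2 + (a.1.imJ / a.1.re) ^ 2 + (a.1.imK / a.1.re) ^ 2)) =
      1 / a.1.re := by
    rw [show 1 + ((a.1.imI / a.1.re) ^ 2 + (a.1.imJ / a.1.re) ^ 2 + (a.1.imK / a.1.re) ^ 2) =
      (1 / a.1.re) ^ 2 by field_simp; linarith]
    exact Real.sqrt_sq (by positivity)
  apply Subtype.ext
  apply Subtype.ext
  change qmk (1 / √(1 + ((a.1.imI / a.1.re) ^ 2 + (a.1.imJ / a.1.re) ^ 2 + (a.1.imK / a.1.re) ^ 2)))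
    (a.1.imI / a.1.re /
      √(1 + ((a.1.imI / a.1.re) ^ 2 + (a.1.imJ / a.1.re) ^ 2 + (a.1.imK / a.1.re) ^ 2)))
    (a.1.imJ / a.1.re /
      √(1 + ((a.1.imI / a.1.re) ^ 2 + (a.1.imJ / a.1.re) ^ 2 + (a.1.imK / a.1.re) ^ 2)))
    (a.1.imK / a.1.re /
      √(1 + ((a.1.imI / a.1.re) ^ 2 + (a.1.imJ / a.1.re) ^ 2 + (a.1.imK / a.1.re) ^ 2))) = a.1
  rw [e]
  ext
  · simp [qmk]
  · simp only [qmk]; field_simp
  · simp only [qmk]; field_simp
  · simp only [qmk]; field_simp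

theorem pc_G01 : PathConnectedSpace G01 := by
  have h1 : IsPathConnected ({0}ᶜ : Set (Fin 3 → ℝ)) := by
    apply isPathConnected_compl_singleton_of_one_lt_rank
    rw [← Module.finrank_eq_rank, Module.finrank_fin_fun]
    norm_num
  exact pc_of_surj gam gam_surj (isPathConnected_iff_pathConnectedSpace.1 h1)

theorem pcm : IsPathConnected (YJ (Set.Ioo (-1 / 2) 0)) := by
  rw [isPathConnected_iff_pathConnectedSpace]
  obtain ⟨-, -, -, h, hE⟩ := p_T3a
  exact pc_of_HEqv hE pc_G01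

theorem pcp : IsPathConnected (YJ (Set.Ioo 0 (1 / 2))) := by
  have := isPathConnected_iff_pathConnectedSpace.1 pcm
  rw [isPathConnected_iff_pathConnectedSpace]
  refine pc_of_HEqv (HEqv_of_homeo (ioJ (Set.Ioo (-1 / 2) 0) (Set.Ioo 0 (1 / 2)) ?_)) this
  intro r
  simp only [Set.mem_Ioo]
  constructor
  · rintro ⟨h1, h2⟩
    constructor <;> linarith
  · rintro ⟨h1, h2⟩
    constructor <;> linarith

theorem Ctr_neg : Ctr (YJ (Set.Iio 0)) := p_T3a.2.1

theorem Ctr_pos : Ctr (YJ (Set.Ioi 0)) := by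
  refine Ctr_of_homeo (ioJ (Set.Iio 0) (Set.Ioi 0) ?_) Ctr_neg
  intro r
  simp

theorem Ctr_mid : Ctr (YJ (Set.Ioo (-1 / 2) (1 / 2))) := by
  obtain ⟨y, H, h0, h1, -⟩ := p_T3a.2.2.1
  exact ⟨y, H, h0, h1⟩

theorem pc_of_Ctr {X : Type} [TopologicalSpace X] {P : Set X} (h : Ctr P) : IsPathConnected P := by
  have := contractible_of_Ctr h
  exact isPathConnected_iff_pathConnectedSpace.2 inferInstance

theorem sc_SP1 : SimplyConnectedSpace (SP (YJ (Set.Iio (1 / 2)))) := by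
  obtain ⟨⟨h, hE⟩, -⟩ := p_T3a
  have h1 : SimplyConnectedSpace (SP (Set.univ : Set G)) :=
    sc_of_HEqv (HEqv_map (HEqv_of_homeo (Homeomorph.Set.univ G).symm)) p_T2b
  exact sc_of_HEqv (HEqv_map hE) h1

theorem sc_SP2 : SimplyConnectedSpace (SP (YJ (Set.Ioi (-1 / 2)))) := by
  refine sc_of_HEqv (HEqv_map (HEqv_of_homeo (ioJ (Set.Iio (1 / 2)) (Set.Ioi (-1 / 2)) ?_))) sc_SP1
  intro r
  simp only [Set.mem_Iio, Set.mem_Ioi]
  constructor <;> intro h <;> linarith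

/-! ### The third set -/

/-- the map of the product -/
def kap : C(YJ (Set.Iio 0) × YJ (Set.Ioi 0), SP Y) :=
  ⟨fun p => SP.mk p.1.1 p.2.1, SP.continuous_mk.comp
    ((continuous_subtype_val.comp continuous_fst).prodMk
      (continuous_subtype_val.comp continuous_snd))⟩

theorem kap_emb : Topology.IsOpenEmbedding kap := by
  apply Topology.IsOpenEmbedding.of_continuous_injective_isOpenMap kap.continuous
  · rintro ⟨a, b⟩ ⟨c, d⟩ h
    have h' : SP.mk a.1 b.1 = SP.mk c.1 d.1 := h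
    rcases mk_eq.1 h' with ⟨h1, h2⟩ | ⟨h1, h2⟩
    · exact Prod.ext (Subtype.ext h1.symm) (Subtype.ext h2.symm)
    · exfalso
      have h3 : c.1.1.2.re < 0 := c.2
      have h4 : 0 < b.1.1.2.re := b.2
      rw [h1] at h3
      linarith
  · have h1 : IsOpenMap fun p : YJ (Set.Iio 0) × YJ (Set.Ioi 0) => ((p.1.1, p.2.1) : Y × Y) :=
      ((YJ_open isOpen_Iio).isOpenMap_subtype_val).prodMap
        ((YJ_open isOpen_Ioi).isOpenMap_subtype_val)
    exact qm_open.isOpenMap.comp h1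

/-- the image -/
abbrev U3 : Set (SP Y) := Set.range kap

theorem sc_U3 : IsSimplyConnected U3 := by
  have h1 : SimplyConnectedSpace (YJ (Set.Iio 0) × YJ (Set.Ioi 0)) :=
    sc_of_Ctr (Ctr_prod Ctr_neg Ctr_pos)
  exact sc_of_homeo kap_emb.isEmbedding.toHomeomorph h1

/-- the first set -/
abbrev U1 : Set (SP Y) := spS (YJ (Set.Iio (1 / 2)))

/-- the second set -/
abbrev U2 : Set (SP Y) := spS (YJ (Set.Ioi (-1 / 2)))

theorem sc_U1 : IsSimplyConnected U1 := sc_of_homeo (homS (YJ_open isOpen_Iio)) sc_SP1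

theorem sc_U2 : IsSimplyConnected U2 := sc_of_homeo (homS (YJ_open isOpen_Ioi)) sc_SP2

theorem YJ_inter (J J' : Set ℝ) : YJ J ∩ YJ J' = YJ (J ∩ J') := rfl

theorem pc_U12 : IsPathConnected (U1 ∩ U2) := by
  rw [spS_inter, YJ_inter, Set.inter_comm, Set.Ioi_inter_Iio]
  exact spS_pc (pc_of_Ctr Ctr_mid)

theorem sc_U12 : IsSimplyConnected (U1 ∪ U2) :=
  sc_union (spS_open (YJ_open isOpen_Iio)) (spS_open (YJ_open isOpen_Ioi)) sc_U1 sc_U2 pc_U12

/-- a product of pieces -/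
def pd (J J' : Set ℝ) : Set (SP Y) := {p | ∃ a ∈ YJ J, ∃ b ∈ YJ J', p = SP.mk a b}

theorem pd_pc {J J' : Set ℝ} (h : IsPathConnected (YJ J)) (h' : IsPathConnected (YJ J')) :
    IsPathConnected (pd J J') := by
  have : pd J J' = qm '' (YJ J ×ˢ YJ J') := by
    ext p
    constructor
    · rintro ⟨a, ha, b, hb, rfl⟩
      exact ⟨(a, b), ⟨ha, hb⟩, rfl⟩
    · rintro ⟨⟨a, b⟩, ⟨ha, hb⟩, rfl⟩
      exact ⟨a, ha, b, hb, rfl⟩
  rw [this]
  exact (h.prod h').image qm_open.continuous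

theorem int_eq : (U1 ∪ U2) ∩ U3 = pd (Set.Iio 0) (Set.Ioo 0 (1 / 2)) ∪
    pd (Set.Ioo (-1 / 2) 0) (Set.Ioi 0) := by
  ext p
  constructor
  · rintro ⟨h, ⟨⟨a, b⟩, rfl⟩⟩
    have ha : a.1.1.2.re < 0 := a.2
    have hb : 0 < b.1.1.2.re := b.2
    rcases h with h | h
    · have h' : SP.mk a.1 b.1 ∈ U1 := h
      rw [mk_mem_spS] at h'
      have h2 : b.1.1.2.re < 1 / 2 := h'.2
      exact Or.inl ⟨a.1, a.2, b.1, ⟨hb, h2⟩, rfl⟩
    · have h' : SP.mk a.1 b.1 ∈ U2 := h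
      rw [mk_mem_spS] at h'
      have h2 : -1 / 2 < a.1.1.2.re := h'.1
      exact Or.inr ⟨a.1, ⟨h2, ha⟩, b.1, b.2, rfl⟩
  · rintro (⟨a, ha, b, hb, rfl⟩ | ⟨a, ha, b, hb, rfl⟩)
    · have ha' : a.1.2.re < 0 := ha
      have hb' : 0 < b.1.2.re ∧ b.1.2.re < 1 / 2 := hb
      refine ⟨Or.inl ?_, ⟨(⟨a, ha⟩, ⟨b, hb'.1⟩), rfl⟩⟩
      rw [mk_mem_spS]
      refine ⟨?_, ?_⟩
      · change a.1.2.re < 1 / 2
        linarith
      · exact hb'.2
    · have ha' : -1 / 2 < a.1.2.re ∧ a.1.2.re < 0 := ha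
      have hb' : 0 < b.1.2.re := hb
      refine ⟨Or.inr ?_, ⟨(⟨a, ha'.2⟩, ⟨b, hb⟩), rfl⟩⟩
      rw [mk_mem_spS]
      refine ⟨ha'.1, ?_⟩
      change -1 / 2 < b.1.2.re
      linarith

theorem pc_int : IsPathConnected ((U1 ∪ U2) ∩ U3) := by
  rw [int_eq]
  refine IsPathConnected.union (pd_pc (pc_of_Ctr Ctr_neg) pcp) (pd_pc pcm (pc_of_Ctr Ctr_pos)) ?_
  obtain ⟨a, ha⟩ := pcm.nonempty
  obtain ⟨b, hb⟩ := pcp.nonempty
  have ha' : -1 / 2 < a.1.2.re ∧ a.1.2.re < 0 := ha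
  have hb' : 0 < b.1.2.re ∧ b.1.2.re < 1 / 2 := hb
  exact ⟨SP.mk a b, ⟨a, ha'.2, b, hb, rfl⟩, ⟨a, ha, b, hb'.1, rfl⟩⟩

theorem cover : (U1 ∪ U2) ∪ U3 = Set.univ := by
  ext p
  simp only [Set.mem_univ, iff_true]
  obtain ⟨a, b, rfl⟩ := exists_mk p
  by_cases h1 : a.1.2.re < 1 / 2 ∧ b.1.2.re < 1 / 2
  · exact Or.inl (Or.inl (mk_mem_spS.2 h1))
  by_cases h2 : -1 / 2 < a.1.2.re ∧ -1 / 2 < b.1.2.re
  · exact Or.inl (Or.inr (mk_mem_spS.2 h2))
  right
  by_cases h3 : a.1.2.re < 1 / 2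
  · have h4 : 1 / 2 ≤ b.1.2.re := by
      by_contra h
      exact h1 ⟨h3, lt_of_not_ge h⟩
    have h5 : a.1.2.re < 0 := by
      by_contra h
      exact h2 ⟨by linarith, by linarith⟩
    refine ⟨(⟨a, h5⟩, ⟨b, ?_⟩), rfl⟩
    change 0 < b.1.2.re
    linarith
  · have h5 : b.1.2.re < 0 := by
      by_contra h
      exact h2 ⟨by linarith, by linarith⟩
    refine ⟨(⟨b, h5⟩, ⟨a, ?_⟩), SP.mk_comm b a⟩
    change 0 < a.1.2.re
    linarith

theorem main : SimplyConnectedSpace (SP Y) := by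
  have h := sc_union ((spS_open (YJ_open isOpen_Iio)).union (spS_open (YJ_open isOpen_Ioi)))
    kap_emb.isOpen_range sc_U12 sc_U3 pc_int
  rw [cover] at h
  exact sc_of_homeo (Homeomorph.Set.univ (SP Y)) h

end PT4

/-- T4 -/
theorem p_T4 : S_T4 := PT4.main

end

end Run7.h592
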