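import Pool.Agent.Run7.h592.PT9

/-! T5: `S³` is simply connected, the homology of `S³ × S³` is finite. -/

set_option autoImplicit false

open scoped Topology

namespace Run7.h592

open Pool.Agent.Y209.HB Finsupp

noncomputable section

section gen

variable {X F : Type} [TopologicalSpace X] [TopologicalSpace F]

/-- the map from the coefficients to homology -/
theorem Gen.exists_map {n k : ℕ} (h : Gen X n k) :
    ∃ f : (Fin k → ℚ) →ₗ[ℚ] Homology X n, Function.Surjective f := by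
  obtain ⟨γ, h1, h2⟩ := h
  let γ' : Fin k → Cyc X n := fun i => ⟨γ i, h1 i⟩
  refine ⟨(Submodule.mkQ _).comp (Fintype.linearCombination ℚ γ'), ?_⟩
  intro y
  obtain ⟨z, rfl⟩ := Submodule.mkQ_surjective _ y
  obtain ⟨a, ha⟩ := h2 z.1 z.2
  refine ⟨a, ?_⟩
  rw [LinearMap.comp_apply, Submodule.mkQ_apply, Submodule.mkQ_apply, Submodule.Quotient.eq,
    Fintype.linearCombination_apply]
  change (((∑ i, a i • γ' i) - z : Cyc X n) : Sing X n →₀ ℚ) ∈ Bdy X n
  have e : (((∑ i, a i • γ' i) - z : Cyc X n) : Sing X n →₀ ℚ) = -(z.1 - ∑ i, a i • γ i) := by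
    rw [Submodule.coe_sub, neg_sub, Submodule.coe_sum]
    rfl
  rw [e]
  exact Submodule.neg_mem _ ha

theorem Gen.finite {n k : ℕ} (h : Gen X n k) : Module.Finite ℚ (Homology X n) := by
  obtain ⟨f, hf⟩ := h.exists_map
  exact Module.Finite.of_surjective f hf

theorem Gen.finrank_le {n k : ℕ} (h : Gen X n k) : Module.finrank ℚ (Homology X n) ≤ k := by
  obtain ⟨f, hf⟩ := h.exists_map
  have := LinearMap.finrank_le_finrank_of_surjective hf
  simpa using this

theorem Gen.prod (x : X) {n k l : ℕ} (h : KG X F n k) (h' : Gen F n l) : Gen (X × F) n (k + l) := by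
  obtain ⟨γ, k1, k2, k3⟩ := h
  obtain ⟨δ, l1, l2⟩ := h'
  let pr : C(X × F, F) := ContinuousMap.snd
  refine ⟨Fin.append γ fun j => push (sec F x) n (δ j), ?_, ?_⟩
  · intro i
    refine Fin.addCases (fun i => ?_) (fun i => ?_) i
    · rw [Fin.append_left]
      exact k1 i
    · rw [Fin.append_right]
      exact push_mem_Cyc _ _ _ (l1 i)
  · intro z hz
    obtain ⟨b, hb⟩ := l2 (push pr n z) (push_mem_Cyc _ _ _ hz)
    have e1 : push ContinuousMap.snd n (z - ∑ j, b j • push (sec F x) n (δ j)) =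
        push pr n z - ∑ j, b j • δ j := by
      rw [map_sub, map_sum]
      simp only [map_smul, snd_sec]
      rfl
    obtain ⟨a, ha⟩ := k3 (z - ∑ j, b j • push (sec F x) n (δ j))
      (Submodule.sub_mem _ hz (Submodule.sum_mem _ fun j _ => Submodule.smul_mem _ _
        (push_mem_Cyc _ _ _ (l1 j)))) (by rw [e1]; exact hb)
    refine ⟨Fin.append a b, ?_⟩
    rw [Fin.sum_univ_add]
    simp only [Fin.append_left, Fin.append_right]
    convert ha using 1
    abel

theorem Gen.of_Ac {n : ℕ} (h : Ac X n) : Gen X n 0 := by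
  refine ⟨Fin.elim0, fun i => i.elim0, fun z hz => ⟨Fin.elim0, ?_⟩⟩
  rw [Finset.univ_eq_empty, Finset.sum_empty, sub_zero]
  exact h z hz

theorem Gen.of_Cn (h : Cn X) (x : X) : Gen X 0 1 := by
  refine ⟨fun _ => single (cs x 0) 1, fun _ => trivial, fun z _ => ⟨fun _ => ep X 0 z, ?_⟩⟩
  rw [Fin.sum_univ_one]
  apply h
  rw [map_sub, map_smul, ep_single, smul_eq_mul, mul_one, sub_self]

end gen

theorem Gen_G (n : ℕ) : ∃ l, Gen G n l := by
  rcases n with _ | n
  · exact ⟨1, Gen.of_Cn RS_G.cn 1⟩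
  · by_cases hn : n + 1 = 3
    · obtain ⟨γ, h1, _, h2⟩ := RS_G.gen
      rw [hn]
      refine ⟨1, fun _ => γ, fun _ => h1, fun z hz => ?_⟩
      obtain ⟨a, ha⟩ := h2 z hz
      refine ⟨fun _ => a, ?_⟩
      rwa [Fin.sum_univ_one]
    · exact ⟨0, Gen.of_Ac (RS_G.ac n hn)⟩

theorem KG_GG (n : ℕ) : ∃ k, KG G G n k := by
  rcases n with _ | _ | _ | _ | n
  · exact ⟨0, KG_G (KG.conn RS_R4.cn RS_G.cn p4 1)⟩
  · exact ⟨0, KG_G (KG.pe p3 (KG.conn RS_R3.cn RS_G.cn p3 1))⟩
  · exact ⟨0, KG_G (KG.pe p3 (KG.pe p2 (KG.conn RS_R2.cn RS_G.cn p2 1)))⟩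
  · exact ⟨1, KG_G3⟩
  · obtain ⟨l, hl⟩ := Gen_G (n + 1)
    exact ⟨l, KG_G (KG.pe p3 (KG.pe p2 (KG.pe pp1 (KG.baseS hl))))⟩

theorem Ac_GG (k : ℕ) (hk : 7 ≤ k) : Ac (G × G) k := by
  obtain ⟨n, rfl⟩ : ∃ n, k = n + 4 := ⟨k - 4, by omega⟩
  have h1 : Gen G (n + 1) 0 := Gen.of_Ac (RS_G.ac n (by omega))
  obtain ⟨γ, _, _, h2⟩ := KG_G (KG.pe p3 (KG.pe p2 (KG.pe pp1 (KG.baseS h1))))
  intro z hz
  obtain ⟨a, ha⟩ := h2 z hz (RS_G.ac (n + 3) (by omega) _ (push_mem_Cyc _ _ _ hz))
  rwa [Finset.univ_eq_empty, Finset.sum_empty, sub_zero] at ha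

/-! ### Simple connectedness -/

theorem Ctr.contractible {A : Type} [TopologicalSpace A] (h : Ctr A) : ContractibleSpace A := by
  obtain ⟨x, H, h0, h1⟩ := h
  rw [contractible_iff_id_nullhomotopic]
  refine ⟨x, ⟨⟨⟨fun p => H (p.2, p.1), by fun_prop⟩, ?_, ?_⟩⟩⟩
  · intro y
    exact h0 y
  · intro y
    exact h1 y

theorem pc_Pn {E : Type} [NormedAddCommGroup E] [NormedSpace ℝ E] (h : 1 < Module.rank ℝ E) :
    PathConnectedSpace (Pn E) :=
  isPathConnected_iff_pathConnectedSpace.1 (isPathConnected_compl_singleton_of_one_lt_rank h 0)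

theorem pc_W {E : Type} [NormedAddCommGroup E] [NormedSpace ℝ E] (h : PathConnectedSpace (Pn E)) :
    IsPathConnected (UP E ∩ UM E) := by
  rw [isPathConnected_iff_pathConnectedSpace]
  have hj : ∀ x : ↥(UP E ∩ UM E), Joined x (eqt E (eqp E x)) := fun x =>
    ⟨⟨⟨fun t => eqh E (x, t), by fun_prop⟩, eqh_zero x, eqh_one x⟩⟩
  refine ⟨⟨eqt E (Classical.arbitrary _)⟩, fun x y => ?_⟩
  have h1 : Joined (eqt E (eqp E x)) (eqt E (eqp E y)) :=
    ⟨(PathConnectedSpace.somePath (eqp E x) (eqp E y)).map (eqt E).continuous⟩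
  exact ((hj x).trans h1).trans (hj y).symm

theorem sc_G (h : S_T2a) : SimplyConnectedSpace G := by
  have hrank : 1 < Module.rank ℝ R3 := by
    have h1 : Module.finrank ℝ R3 = 3 := by simp [R3, R2]
    have h2 := Module.lt_rank_of_lt_finrank (R := ℝ) (M := R3) (n := 1) (by rw [h1]; norm_num)
    simpa using h2
  have hW := pc_W (pc_Pn hrank)
  have cU : ContractibleSpace (UP R3) := Ctr_UP.contractible
  have cV : ContractibleSpace (UM R3) := Ctr_UM.contractible
  have hP : SimplyConnectedSpace (Pn R4) := by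
    refine h (Pn R4) Bool (fun b => if b then UP R3 else UM R3) p4 ?_ ?_ ?_ ?_ ?_
    · rintro (_ | _)
      · exact UM_open
      · exact UP_open
    · intro x
      rcases UPM_cover x with hx | hx
      · exact ⟨true, hx⟩
      · exact ⟨false, hx⟩
    · rintro (_ | _)
      · exact (eqt R3 p3).2.2
      · exact (eqt R3 p3).2.1
    · rintro (_ | _)
      · exact SimplyConnectedSpace.ofContractible (UM R3)
      · exact SimplyConnectedSpace.ofContractible (UP R3)
    · rintro (_ | _) (_ | _)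
      · change IsPathConnected (UM R3 ∩ UM R3)
        rw [Set.inter_self, isPathConnected_iff_pathConnectedSpace]
        infer_instance
      · change IsPathConnected (UM R3 ∩ UP R3)
        rw [Set.inter_comm]
        exact hW
      · exact hW
      · change IsPathConnected (UP R3 ∩ UP R3)
        rw [Set.inter_self, isPathConnected_iff_pathConnectedSpace]
        infer_instance
  let e : ContinuousMap.HomotopyEquiv G (Pn R4) :=
    { toFun := gi
      invFun := gr
      left_inv := by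
        have : gr.comp gi = ContinuousMap.id G := ContinuousMap.ext gr_gi
        rw [this]
      right_inv := by
        refine ContinuousMap.Homotopic.symm ⟨⟨⟨fun p => gh (p.2, p.1), by fun_prop⟩, ?_, ?_⟩⟩
        · intro y
          exact gh_zero y
        · intro y
          exact gh_one y }
  exact e.simplyConnectedSpace

theorem p_T5 (h : S_T2a) : S_T5 := by
  refine ⟨sc_G h, fun k => ?_, 7, Ac_GG⟩
  obtain ⟨a, ha⟩ := KG_GG k
  obtain ⟨b, hb⟩ := Gen_G k
  exact (Gen.prod 1 ha hb).finite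

end

end Run7.h592
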