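import Pool.Agent.Run7.h592.Tasks
import Pool.Agent.Y209.HB.Circ

/-!
# Piece T6: the map `S¹ × S² → S³` is nonzero on `H₃`
-/

set_option autoImplicit false

open scoped Topology

namespace Run7.h592

open Pool.Agent.Y209.HB

noncomputable section

namespace PT6

/-! ## The antipode of the 2-sphere -/

/-- the antipode -/
def aS : C(S2, S2) where
  toFun n := ⟨fun i => - n.1 i, by
    have := n.2
    simp only [neg_sq]
    exact this⟩
  continuous_toFun := by
    refine Continuous.subtype_mk (continuous_pi fun i => ?_) _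
    exact ((continuous_apply i).comp continuous_subtype_val).neg

/-- the sphere without a pole -/
def cap (ε : ℝ) : Set S2 := {n | -1 < ε * n.1 2}

theorem cS (i : Fin 3) : Continuous fun n : S2 => n.1 i :=
  (continuous_apply i).comp continuous_subtype_val

theorem cap_open (ε : ℝ) : IsOpen (cap ε) :=
  isOpen_lt continuous_const (continuous_const.mul (cS 2))

/-- the stereographic coordinates, dilated -/
def st (ε : ℝ) (p : S2 × unitInterval) (i : Fin 3) : ℝ :=
  (1 - (p.2 : ℝ)) * p.1.1 i / (1 + ε * p.1.1 2)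

/-- the norm of the stereographic coordinates -/
def rt (ε : ℝ) (p : S2 × unitInterval) : ℝ := st ε p 0 ^ 2 + st ε p 1 ^ 2

theorem rt_nonneg (ε : ℝ) (p : S2 × unitInterval) : 0 ≤ rt ε p := by
  unfold rt
  positivity

/-- the contraction of the cap -/
def cont (ε : ℝ) (hε : ε ^ 2 = 1) (p : S2 × unitInterval) : S2 :=
  ⟨![2 * st ε p 0 / (1 + rt ε p), 2 * st ε p 1 / (1 + rt ε p), ε * (1 - rt ε p) / (1 + rt ε p)], by
    have h := rt_nonneg ε p
    have h1 : (1 + rt ε p) ≠ 0 := by positivity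
    have e : rt ε p = st ε p 0 ^ 2 + st ε p 1 ^ 2 := rfl
    simp only [Matrix.cons_val_zero, Matrix.cons_val_one, Matrix.cons_val]
    rw [div_pow, div_pow, div_pow, ← add_div, ← add_div, div_eq_one_iff_eq (pow_ne_zero 2 h1)]
    linear_combination (1 - rt ε p) ^ 2 * hε - 4 * e⟩

theorem cap_acyclic (ε : ℝ) (hε : ε ^ 2 = 1) : (∀ n, AcO (cap ε) (n + 1)) ∧ CnO (cap ε) := by
  refine contrO (cont ε hε) ?_ ?_ ?_ (cont ε hε (⟨![0, 0, 1], by simp⟩, 1)) ?_ ?_
  · have hst : ∀ i, ContinuousOn (fun p : S2 × unitInterval => st ε p i)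
        (cap ε ×ˢ (Set.univ : Set unitInterval)) := by
      intro i
      unfold st
      refine ContinuousOn.div ?_ ?_ ?_
      · exact ((continuous_const.sub (continuous_subtype_val.comp continuous_snd)).mul
          ((cS i).comp continuous_fst)).continuousOn
      · exact (continuous_const.add (continuous_const.mul ((cS 2).comp continuous_fst))).continuousOn
      · rintro ⟨n, t⟩ ⟨hn, -⟩
        have : -1 < ε * n.1 2 := hn
        change 1 + ε * n.1 2 ≠ 0
        linarith
    have hrt : ContinuousOn (rt ε) (cap ε ×ˢ (Set.univ : Set unitInterval)) :=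
      ((hst 0).pow 2).add ((hst 1).pow 2)
    have hne : ∀ p ∈ (cap ε ×ˢ (Set.univ : Set unitInterval)), 1 + rt ε p ≠ 0 := fun p _ => by
      have := rt_nonneg ε p
      positivity
    rw [Topology.IsEmbedding.subtypeVal.continuousOn_iff]
    refine continuousOn_pi.2 fun i => ?_
    fin_cases i
    · exact (continuousOn_const.mul (hst 0)).div (continuousOn_const.add hrt) hne
    · exact (continuousOn_const.mul (hst 1)).div (continuousOn_const.add hrt) hne
    · exact (continuousOn_const.mul (continuousOn_const.sub hrt)).div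
        (continuousOn_const.add hrt) hne
  · intro n _ t
    have h := rt_nonneg ε (n, t)
    change -1 < ε * (ε * (1 - rt ε (n, t)) / (1 + rt ε (n, t)))
    have e : ε * (ε * (1 - rt ε (n, t)) / (1 + rt ε (n, t))) =
        (1 - rt ε (n, t)) / (1 + rt ε (n, t)) := by
      rw [← mul_div_assoc, ← mul_assoc, ← pow_two, hε, one_mul]
    rw [e, lt_div_iff₀ (by positivity)]
    linarith
  · intro n hn
    have hn' : -1 < ε * n.1 2 := hn
    have hpos : 0 < 1 + ε * n.1 2 := by linarith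
    have hS := n.2
    have e0 : ∀ i, st ε (n, 0) i = n.1 i / (1 + ε * n.1 2) := by
      intro i
      simp [st]
    have hr : rt ε (n, 0) = (1 - ε * n.1 2) / (1 + ε * n.1 2) := by
      unfold rt
      rw [e0, e0, div_pow, div_pow, ← add_div, div_eq_div_iff (by positivity) (by positivity)]
      linear_combination (1 + ε * n.1 2) * hS + (1 + ε * n.1 2) * n.1 2 ^ 2 * hε
    have h1 : 1 + rt ε (n, 0) = 2 / (1 + ε * n.1 2) := by
      rw [hr]
      field_simp
      ring
    apply Subtype.ext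
    funext i
    fin_cases i
    · change 2 * st ε (n, 0) 0 / (1 + rt ε (n, 0)) = n.1 0
      rw [h1, e0]
      field_simp
    · change 2 * st ε (n, 0) 1 / (1 + rt ε (n, 0)) = n.1 1
      rw [h1, e0]
      field_simp
    · change ε * (1 - rt ε (n, 0)) / (1 + rt ε (n, 0)) = n.1 2
      rw [h1, hr]
      field_simp
      linear_combination 2 * n.1 2 * hε
  · intro n _
    have e : ∀ (n : S2) i, st ε (n, 1) i = 0 := by
      intro n i
      simp [st]
    have er : ∀ n : S2, rt ε (n, 1) = 0 := by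
      intro n
      unfold rt
      rw [e, e]
      norm_num
    unfold cont
    apply Subtype.ext
    simp only [e, er]
  · have h := rt_nonneg ε (⟨![0, 0, 1], by simp⟩, 1)
    change -1 < ε * (ε * (1 - rt ε _) / (1 + rt ε _))
    rw [← mul_div_assoc, ← mul_assoc, ← pow_two, hε, one_mul, lt_div_iff₀ (by positivity)]
    linarith

/-- the band -/
abbrev band : Set S2 := cap 1 ∩ cap (-1)

theorem band_pos {n : S2} (h : n ∈ band) : 0 < 1 - n.1 2 ^ 2 := by
  obtain ⟨h1, h2⟩ := h
  have h1' : -1 < 1 * n.1 2 := h1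
  have h2' : -1 < -1 * n.1 2 := h2
  nlinarith

/-- the factor -/
def fc (p : band × unitInterval) : ℝ :=
  √(1 - ((1 - 2 * (p.2 : ℝ)) * p.1.1.1 2) ^ 2) / √(1 - p.1.1.1 2 ^ 2)

theorem ht_le (p : band × unitInterval) : ((1 - 2 * (p.2 : ℝ)) * p.1.1.1 2) ^ 2 < 1 := by
  have h := band_pos p.1.2
  have h1 := p.2.2.1
  have h2 := p.2.2.2
  have h3 : (1 - 2 * (p.2 : ℝ)) ^ 2 ≤ 1 := by nlinarith
  rw [mul_pow]
  nlinarith [sq_nonneg (p.1.1.1 2)]

theorem fc_sq (p : band × unitInterval) : fc p ^ 2 * (1 - p.1.1.1 2 ^ 2) =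
    1 - ((1 - 2 * (p.2 : ℝ)) * p.1.1.1 2) ^ 2 := by
  have h := band_pos p.1.2
  have h1 := ht_le p
  unfold fc
  rw [div_pow, Real.sq_sqrt (by linarith), Real.sq_sqrt h.le]
  field_simp

theorem cfc : Continuous fc := by
  have h : ∀ i, Continuous fun p : band × unitInterval => p.1.1.1 i := fun i =>
    (cS i).comp (continuous_subtype_val.comp continuous_fst)
  have ht : Continuous fun p : band × unitInterval => (p.2 : ℝ) :=
    continuous_subtype_val.comp continuous_snd
  unfold fc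
  refine Continuous.div (Real.continuous_sqrt.comp ?_) (Real.continuous_sqrt.comp ?_) fun p =>
    (Real.sqrt_pos.2 (band_pos p.1.2)).ne'
  · exact continuous_const.sub (((continuous_const.sub (continuous_const.mul ht)).mul (h 2)).pow 2)
  · exact continuous_const.sub ((h 2).pow 2)

/-- rotation of the band -/
def rot : C(band × unitInterval, band) where
  toFun p := ⟨⟨![fc p * (Real.cos (Real.pi * p.2) * p.1.1.1 0 - Real.sin (Real.pi * p.2) * p.1.1.1 1),
      fc p * (Real.sin (Real.pi * p.2) * p.1.1.1 0 + Real.cos (Real.pi * p.2) * p.1.1.1 1),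
      (1 - 2 * (p.2 : ℝ)) * p.1.1.1 2], by
    have h := p.1.1.2
    have h1 := fc_sq p
    have h2 := Real.sin_sq_add_cos_sq (Real.pi * p.2)
    simp only [Matrix.cons_val_zero, Matrix.cons_val_one, Matrix.cons_val]
    linear_combination h1 + fc p ^ 2 * h + fc p ^ 2 * (p.1.1.1 0 ^ 2 + p.1.1.1 1 ^ 2) * h2⟩, by
    have h := ht_le p
    have h3 := abs_lt_of_sq_lt_sq (a := (1 - 2 * (p.2 : ℝ)) * p.1.1.1 2) (b := 1)
      (by rw [one_pow]; exact h) (by norm_num)
    rw [abs_lt] at h3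
    constructor
    · change -1 < 1 * ((1 - 2 * (p.2 : ℝ)) * p.1.1.1 2)
      linarith [h3.1]
    · change -1 < -1 * ((1 - 2 * (p.2 : ℝ)) * p.1.1.1 2)
      linarith [h3.2]⟩
  continuous_toFun := by
    have h : ∀ i, Continuous fun p : band × unitInterval => p.1.1.1 i := fun i =>
      (cS i).comp (continuous_subtype_val.comp continuous_fst)
    have ht : Continuous fun p : band × unitInterval => (p.2 : ℝ) :=
      continuous_subtype_val.comp continuous_snd
    have hs : Continuous fun p : band × unitInterval => Real.sin (Real.pi * p.2) :=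
      Real.continuous_sin.comp (continuous_const.mul ht)
    have hc : Continuous fun p : band × unitInterval => Real.cos (Real.pi * p.2) :=
      Real.continuous_cos.comp (continuous_const.mul ht)
    refine Continuous.subtype_mk (Continuous.subtype_mk (continuous_pi fun i => ?_) _) _
    fin_cases i
    · exact cfc.mul ((hc.mul (h 0)).sub (hs.mul (h 1)))
    · exact cfc.mul ((hs.mul (h 0)).add (hc.mul (h 1)))
    · exact (continuous_const.sub (continuous_const.mul ht)).mul (h 2)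

/-- the antipode of the band -/
def aB : C(band, band) where
  toFun n := ⟨aS n.1, by
    obtain ⟨h1, h2⟩ := n.2
    have h1' : -1 < 1 * n.1.1 2 := h1
    have h2' : -1 < -1 * n.1.1 2 := h2
    constructor
    · change -1 < 1 * -(n.1.1 2)
      linarith
    · change -1 < -1 * -(n.1.1 2)
      linarith⟩
  continuous_toFun := by fun_prop

theorem fc_one {p : band × unitInterval} (h : (1 - 2 * (p.2 : ℝ)) ^ 2 = 1) : fc p = 1 := by
  unfold fc
  rw [mul_pow, h, one_mul]
  exact div_self (Real.sqrt_pos.2 (band_pos p.1.2)).ne'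

theorem rot_zero (n : band) : rot (n, 0) = n := by
  have h : fc (n, 0) = 1 := fc_one (by simp)
  apply Subtype.ext
  apply Subtype.ext
  funext i
  fin_cases i
  · change fc (n, 0) * (Real.cos (Real.pi * ((0 : unitInterval) : ℝ)) * n.1.1 0 -
      Real.sin (Real.pi * ((0 : unitInterval) : ℝ)) * n.1.1 1) = n.1.1 0
    rw [h]
    simp
  · change fc (n, 0) * (Real.sin (Real.pi * ((0 : unitInterval) : ℝ)) * n.1.1 0 +
      Real.cos (Real.pi * ((0 : unitInterval) : ℝ)) * n.1.1 1) = n.1.1 1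
    rw [h]
    simp
  · change (1 - 2 * ((0 : unitInterval) : ℝ)) * n.1.1 2 = n.1.1 2
    simp

theorem rot_one (n : band) : rot (n, 1) = aB n := by
  have h : fc (n, 1) = 1 := fc_one (by norm_num)
  apply Subtype.ext
  apply Subtype.ext
  funext i
  fin_cases i
  · change fc (n, 1) * (Real.cos (Real.pi * ((1 : unitInterval) : ℝ)) * n.1.1 0 -
      Real.sin (Real.pi * ((1 : unitInterval) : ℝ)) * n.1.1 1) = - n.1.1 0
    rw [h]
    simp
  · change fc (n, 1) * (Real.sin (Real.pi * ((1 : unitInterval) : ℝ)) * n.1.1 0 +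
      Real.cos (Real.pi * ((1 : unitInterval) : ℝ)) * n.1.1 1) = - n.1.1 1
    rw [h]
    simp
  · change (1 - 2 * ((1 : unitInterval) : ℝ)) * n.1.1 2 = - n.1.1 2
    norm_num

theorem maps_cap (ε : ℝ) : Set.MapsTo aS (cap ε) (cap (-ε)) := by
  intro n hn
  have hn' : -1 < ε * n.1 2 := hn
  change -1 < -ε * -(n.1 2)
  linarith

/-- The antipode acts by `-1`. -/
theorem anti {γ : Sing S2 2 →₀ ℚ} (hγ : γ ∈ Cyc S2 2) : push aS 2 γ + γ ∈ Bdy S2 2 := by
  obtain ⟨u, hu, v, hv, h1, h2, h3⟩ := split_univ (cap 1) (cap (-1)) (cap_open 1)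
    (cap_open (-1)) (fun n => by
      by_cases h : -1 < 1 * n.1 2
      · exact Or.inl h
      · right
        change -1 < -1 * n.1 2
        linarith) hγ
  -- the boundary on the band
  have h4 : push aS 1 (bdry S2 1 u) - bdry S2 1 u ∈ Bd band 1 := by
    obtain ⟨e, he⟩ := exists_lift h2
    have hec : e ∈ Cyc band 1 := by
      apply mem_Cyc_of_push (sub band) Subtype.val_injective
      rw [he]
      exact bdry_mem_Cyc u
    have h5 := push_sub_mem_of_homotopy rot (ContinuousMap.id band) aB rot_zero rot_one 1 e hec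
    have h6 := push_sub_mem_Bd h5
    rw [map_sub, push_id, push_push, he] at h6
    have h7 : push ((sub band).comp aB) 1 e = push aS 1 (bdry S2 1 u) := by
      rw [← he, push_push]
      rfl
    rw [h7] at h6
    exact h6
  obtain ⟨w, hw, hbw⟩ := h4
  have hav : push aS 2 v ∈ sp (cap 1) 2 := by
    have := push_mem_sp aS (maps_cap (-1)) hv
    rwa [neg_neg] at this
  have hau : push aS 2 u ∈ sp (cap (-1)) 2 := push_mem_sp aS (maps_cap 1) hu
  have hwU : w ∈ sp (cap 1) 2 := sp_mono Set.inter_subset_left 2 hw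
  have hwV : w ∈ sp (cap (-1)) 2 := sp_mono Set.inter_subset_right 2 hw
  have hv1 : bdry S2 1 v = - bdry S2 1 u := (neg_eq_of_add_eq_zero_right h3).symm
  have c1 : u + push aS 2 v + w ∈ Bdy S2 2 := by
    apply Bd_le_Bdy (cap 1) 2
    refine (cap_acyclic 1 (by norm_num)).1 1 _ (((sp _ 2).add_mem ((sp _ 2).add_mem hu hav) hwU)) ?_
    change bdry S2 1 (u + push aS 2 v + w) = 0
    rw [map_add, map_add, bdry_push, hv1, hbw, map_neg]
    abel
  have c2 : v + push aS 2 u - w ∈ Bdy S2 2 := by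
    apply Bd_le_Bdy (cap (-1)) 2
    refine (cap_acyclic (-1) (by norm_num)).1 1 _
      (((sp _ 2).sub_mem ((sp _ 2).add_mem hv hau) hwV)) ?_
    change bdry S2 1 (v + push aS 2 u - w) = 0
    rw [map_sub, map_add, bdry_push, hv1, hbw]
    abel
  have h5 := push_mem_Bdy aS 2 _ h1
  have h6 := (Bdy S2 2).add_mem ((Bdy S2 2).add_mem c1 c2) ((Bdy S2 2).add_mem h1 h5)
  convert h6 using 1
  rw [map_sub, map_add]
  abel

/-! ## The cycle -/

/-- the arc from `-i` to `i` through `ε` -/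
def arc (ε : ℝ) (hε : ε ^ 2 = 1) (t : unitInterval) : Circle :=
  ⟨⟨ε * Real.sin (Real.pi * t), - Real.cos (Real.pi * t)⟩, by
    apply mem_sphere_zero_iff_norm.2
    rw [Complex.norm_def, Complex.normSq_apply]
    have h2 := Real.sin_sq_add_cos_sq (Real.pi * t)
    rw [Real.sqrt_eq_one]
    simp only
    linear_combination h2 + Real.sin (Real.pi * t) ^ 2 * hε⟩

theorem h11 : (1 : ℝ) ^ 2 = 1 := one_pow 2

theorem arc_re (ε : ℝ) (hε : ε ^ 2 = 1) (t : unitInterval) :
    ((arc ε hε t : Circle) : ℂ).re = ε * Real.sin (Real.pi * t) := rfl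

theorem arc_im (ε : ℝ) (hε : ε ^ 2 = 1) (t : unitInterval) :
    ((arc ε hε t : Circle) : ℂ).im = - Real.cos (Real.pi * t) := rfl

theorem continuous_arc (ε : ℝ) (hε : ε ^ 2 = 1) : Continuous (arc ε hε) := by
  refine Continuous.subtype_mk ?_ _
  have ht : Continuous fun p : unitInterval => (p : ℝ) := continuous_subtype_val
  have e : (fun t : unitInterval => (⟨ε * Real.sin (Real.pi * t), - Real.cos (Real.pi * t)⟩ : ℂ)) =
      fun t : unitInterval => ((ε * Real.sin (Real.pi * t) : ℝ) : ℂ) +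
        ((- Real.cos (Real.pi * t) : ℝ) : ℂ) * Complex.I := by
    funext t
    exact Complex.mk_eq_add_mul_I _ _
  rw [e]
  exact (Complex.continuous_ofReal.comp (continuous_const.mul (Real.continuous_sin.comp
    (continuous_const.mul ht)))).add ((Complex.continuous_ofReal.comp
    (Real.continuous_cos.comp (continuous_const.mul ht)).neg).mul continuous_const)

/-- the inclusion of the 2-sphere -/
def jj (t : unitInterval) : C(S2, Circle × S2) := ⟨fun n => (arc 1 h11 t, n), by fun_prop⟩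

/-- the homotopy -/
def HH (ε : ℝ) (hε : ε ^ 2 = 1) : C(S2 × unitInterval, Circle × S2) :=
  ⟨fun p => (arc ε hε p.2, p.1), ((continuous_arc ε hε).comp continuous_snd).prodMk continuous_fst⟩

theorem arc_end {ε : ℝ} (hε : ε ^ 2 = 1) {t : unitInterval} (ht : t = 0 ∨ t = 1) :
    arc ε hε t = arc 1 h11 t := by
  apply Circle.ext
  apply Complex.ext
  · rw [arc_re, arc_re]
    rcases ht with rfl | rfl <;> simp
  · rw [arc_im, arc_im]

/-- the part of the product -/
def XX (ε : ℝ) : Set (Circle × S2) := {q | -1 < ε * (q.1 : ℂ).re}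

theorem arc_mem (ε : ℝ) (hε : ε ^ 2 = 1) (p : S2 × unitInterval) : HH ε hε p ∈ XX ε := by
  change -1 < ε * ((arc ε hε p.2 : Circle) : ℂ).re
  rw [arc_re, ← mul_assoc, ← pow_two, hε, one_mul]
  have h1 := p.2.2.1
  have h2 := p.2.2.2
  have h3 := Real.sin_nonneg_of_nonneg_of_le_pi (x := Real.pi * p.2)
    (by have := Real.pi_pos; positivity) (by nlinarith [Real.pi_pos])
  linarith

theorem exists_z {ε : ℝ} (hε : ε ^ 2 = 1) {γ : Sing S2 2 →₀ ℚ} (hγ : γ ∈ Cyc S2 2) :
    ∃ z ∈ sp (XX ε) 3, bdry (Circle × S2) 2 z = push (jj 1) 2 γ - push (jj 0) 2 γ := by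
  obtain ⟨z, hz, h⟩ := htpyO (O := XX ε) (jj 0) (jj 1) (HH ε hε) (arc_mem ε hε)
    (fun n => by
      change (arc ε hε 0, n) = (arc 1 h11 0, n)
      rw [arc_end hε (Or.inl rfl)])
    (fun n => by
      change (arc ε hε 1, n) = (arc 1 h11 1, n)
      rw [arc_end hε (Or.inr rfl)]) 2 hγ
  exact ⟨z, hz, h⟩

/-- the part of the 3-sphere -/
def GG (ε : ℝ) : Set G := {a | ε * a.1.re < 1}

theorem GG_open (ε : ℝ) : IsOpen (GG ε) :=
  isOpen_lt (continuous_const.mul (Quaternion.continuous_re.comp continuous_subtype_val))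
    continuous_const

theorem maps_phi (ε : ℝ) : Set.MapsTo phi (XX ε) (GG ε) := by
  intro q hq
  have hq' : -1 < ε * (q.1 : ℂ).re := hq
  change ε * (- (q.1 : ℂ).re) < 1
  linarith

theorem mid_pos (a : G) (ha : a ∈ GG 1 ∩ GG (-1)) :
    0 < a.1.imI ^ 2 + a.1.imJ ^ 2 + a.1.imK ^ 2 := by
  obtain ⟨h1, h2⟩ := ha
  have h1' : 1 * a.1.re < 1 := h1
  have h2' : -1 * a.1.re < 1 := h2
  have := G.eq a
  nlinarith

/-- the retraction to the 2-sphere -/
def ret : C(↥(GG 1 ∩ GG (-1)), S2) where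
  toFun a := ⟨![a.1.1.imI / √(a.1.1.imI ^ 2 + a.1.1.imJ ^ 2 + a.1.1.imK ^ 2),
      a.1.1.imJ / √(a.1.1.imI ^ 2 + a.1.1.imJ ^ 2 + a.1.1.imK ^ 2),
      a.1.1.imK / √(a.1.1.imI ^ 2 + a.1.1.imJ ^ 2 + a.1.1.imK ^ 2)], by
    have h := mid_pos a.1 a.2
    simp only [Matrix.cons_val_zero, Matrix.cons_val_one, Matrix.cons_val]
    rw [div_pow, div_pow, div_pow, Real.sq_sqrt h.le]
    field_simp⟩
  continuous_toFun := by
    have h1 : Continuous fun a : ↥(GG 1 ∩ GG (-1)) => a.1.1.imI :=
      Quaternion.continuous_imI.comp (continuous_subtype_val.comp continuous_subtype_val)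
    have h2 : Continuous fun a : ↥(GG 1 ∩ GG (-1)) => a.1.1.imJ :=
      Quaternion.continuous_imJ.comp (continuous_subtype_val.comp continuous_subtype_val)
    have h3 : Continuous fun a : ↥(GG 1 ∩ GG (-1)) => a.1.1.imK :=
      Quaternion.continuous_imK.comp (continuous_subtype_val.comp continuous_subtype_val)
    have h4 : Continuous fun a : ↥(GG 1 ∩ GG (-1)) =>
        √(a.1.1.imI ^ 2 + a.1.1.imJ ^ 2 + a.1.1.imK ^ 2) :=
      Real.continuous_sqrt.comp (((h1.pow 2).add (h2.pow 2)).add (h3.pow 2))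
    have h5 : ∀ a : ↥(GG 1 ∩ GG (-1)), √(a.1.1.imI ^ 2 + a.1.1.imJ ^ 2 + a.1.1.imK ^ 2) ≠ 0 :=
      fun a => (Real.sqrt_pos.2 (mid_pos a.1 a.2)).ne'
    refine Continuous.subtype_mk (continuous_pi fun i => ?_) _
    fin_cases i
    · exact h1.div h4 h5
    · exact h2.div h4 h5
    · exact h3.div h4 h5

/-- the equator -/
def eqt : C(S2, ↥(GG 1 ∩ GG (-1))) where
  toFun n := ⟨phi (jj 1 n), by
    have h : (phi (jj 1 n)).1.re = 0 := by
      change - ((arc 1 h11 1 : Circle) : ℂ).re = 0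
      rw [arc_re]
      simp
    constructor
    · change 1 * (phi (jj 1 n)).1.re < 1
      rw [h]
      norm_num
    · change -1 * (phi (jj 1 n)).1.re < 1
      rw [h]
      norm_num⟩
  continuous_toFun := by fun_prop

theorem phi_jj0 (n : S2) : phi (jj 0 n) = phi (jj 1 (aS n)) := by
  have h0r : ((arc 1 h11 0 : Circle) : ℂ).re = 0 := by rw [arc_re]; simp
  have h0i : ((arc 1 h11 0 : Circle) : ℂ).im = -1 := by rw [arc_im]; simp
  have h1r : ((arc 1 h11 1 : Circle) : ℂ).re = 0 := by rw [arc_re]; simp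
  have h1i : ((arc 1 h11 1 : Circle) : ℂ).im = 1 := by rw [arc_im]; simp
  apply Subtype.ext
  change qmk (- ((arc 1 h11 0 : Circle) : ℂ).re) (((arc 1 h11 0 : Circle) : ℂ).im * n.1 0)
    (((arc 1 h11 0 : Circle) : ℂ).im * n.1 1) (((arc 1 h11 0 : Circle) : ℂ).im * n.1 2) =
    qmk (- ((arc 1 h11 1 : Circle) : ℂ).re) (((arc 1 h11 1 : Circle) : ℂ).im * -(n.1 0))
    (((arc 1 h11 1 : Circle) : ℂ).im * -(n.1 1)) (((arc 1 h11 1 : Circle) : ℂ).im * -(n.1 2))
  rw [h0r, h0i, h1r, h1i]
  simp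

theorem ret_eqt (n : S2) : ret (eqt n) = n := by
  have h1i : ((arc 1 h11 1 : Circle) : ℂ).im = 1 := by rw [arc_im]; simp
  have hI : (eqt n).1.1.imI = n.1 0 := by
    change ((arc 1 h11 1 : Circle) : ℂ).im * n.1 0 = n.1 0
    rw [h1i, one_mul]
  have hJ : (eqt n).1.1.imJ = n.1 1 := by
    change ((arc 1 h11 1 : Circle) : ℂ).im * n.1 1 = n.1 1
    rw [h1i, one_mul]
  have hK : (eqt n).1.1.imK = n.1 2 := by
    change ((arc 1 h11 1 : Circle) : ℂ).im * n.1 2 = n.1 2
    rw [h1i, one_mul]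
  have hn := n.2
  apply Subtype.ext
  funext i
  fin_cases i
  · change (eqt n).1.1.imI / √((eqt n).1.1.imI ^ 2 + (eqt n).1.1.imJ ^ 2 + (eqt n).1.1.imK ^ 2) =
      n.1 0
    rw [hI, hJ, hK, hn, Real.sqrt_one, div_one]
  · change (eqt n).1.1.imJ / √((eqt n).1.1.imI ^ 2 + (eqt n).1.1.imJ ^ 2 + (eqt n).1.1.imK ^ 2) =
      n.1 1
    rw [hI, hJ, hK, hn, Real.sqrt_one, div_one]
  · change (eqt n).1.1.imK / √((eqt n).1.1.imI ^ 2 + (eqt n).1.1.imJ ^ 2 + (eqt n).1.1.imK ^ 2) =
      n.1 2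
    rw [hI, hJ, hK, hn, Real.sqrt_one, div_one]

theorem main {γ : Sing S2 2 →₀ ℚ} (hγ : γ ∈ Cyc S2 2) (hn : γ ∉ Bdy S2 2) : S_T6 := by
  obtain ⟨zU, hzU, hbU⟩ := exists_z (ε := 1) (by norm_num) hγ
  obtain ⟨zV, hzV, hbV⟩ := exists_z (ε := -1) (by norm_num) hγ
  refine ⟨zU - zV, ?_, fun hB => ?_⟩
  · change bdry (Circle × S2) 2 (zU - zV) = 0
    rw [map_sub, hbU, hbV, sub_self]
  · rw [map_sub, sub_eq_add_neg] at hB
    have h1 := conn_univ (GG 1) (GG (-1)) (GG_open 1) (GG_open (-1)) (fun a => by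
      by_cases h : 1 * a.1.re < 1
      · exact Or.inl h
      · right
        change -1 * a.1.re < 1
        linarith) (push_mem_sp phi (maps_phi 1) hzU)
      ((sp _ 3).neg_mem (push_mem_sp phi (maps_phi (-1)) hzV)) hB
    rw [bdry_push, hbU, map_sub, push_push, push_push] at h1
    have e1 : phi.comp (jj 1) = (sub (GG 1 ∩ GG (-1))).comp eqt := rfl
    have e0 : phi.comp (jj 0) = (sub (GG 1 ∩ GG (-1))).comp (eqt.comp aS) := by
      ext1 n
      exact phi_jj0 n
    rw [e1, e0, ← push_push, ← push_push, ← map_sub] at h1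
    have h2 := push_mem_Bdy ret 2 _ (mem_Bdy_of_push_sub h1)
    have e2 : ret.comp eqt = ContinuousMap.id S2 := by
      ext1 n
      exact ret_eqt n
    have e3 : ret.comp (eqt.comp aS) = aS := by
      ext1 n
      exact ret_eqt (aS n)
    rw [map_sub, push_push, push_push, e2, e3, push_id] at h2
    have h3 := (Bdy S2 2).add_mem h2 (anti hγ)
    have h4 : γ - push aS 2 γ + (push aS 2 γ + γ) = (2 : ℚ) • γ := by
      rw [two_smul]
      abel
    rw [h4] at h3
    apply hn
    have h5 := (Bdy S2 2).smul_mem (1 / 2 : ℚ) h3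
    rwa [smul_smul, show (1 / 2 : ℚ) * 2 = 1 by norm_num, one_smul] at h5

end PT6

/-- T6 -/
theorem p_T6 (h : S_T9) : S_T6 := by
  obtain ⟨-, -, -, -, -, ⟨γ, hγ, hn, -⟩, -⟩ := h
  exact PT6.main hγ hn

end

end Run7.h592
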