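import Pool.Agent.Run7.h592.PT5
import Pool.Agent.Run7.h592.PT3a

/-! T7: the third homology of the product of the affine elliptic curve and of the affine quadric. -/

set_option autoImplicit false

open scoped Topology

namespace Run7.h592

open Pool.Agent.Y209.HB Finsupp

noncomputable section

namespace PT7

open PT3a

section gen

variable {X Y : Type} [TopologicalSpace X] [TopologicalSpace Y]

theorem Gen_of_HE {f : C(X, Y)} (hf : HE f) {n k : ℕ} (h : Gen X n k) : Gen Y n k := by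
  obtain ⟨γ, h1, h2⟩ := h
  refine ⟨fun i => push f n (γ i), fun i => push_mem_Cyc _ _ _ (h1 i), ?_⟩
  intro b hb
  obtain ⟨z, hz, h3⟩ := (hf n).2 b hb
  obtain ⟨a, ha⟩ := h2 z hz
  refine ⟨a, ?_⟩
  have h4 := Submodule.add_mem _ h3 (push_mem_Bdy f n _ ha)
  convert h4 using 1
  rw [map_sub, map_sum]
  simp only [map_smul]
  abel

theorem Gen_of_RS {k : ℕ} (h : RS X k) : Gen X k 1 := by
  obtain ⟨γ, h1, _, h2⟩ := h.gen
  refine ⟨fun _ => γ, fun _ => h1, fun z hz => ?_⟩
  obtain ⟨a, ha⟩ := h2 z hz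
  refine ⟨fun _ => a, ?_⟩
  rwa [Fin.sum_univ_one]

theorem Gen_union {U V : Set X} (oU : IsOpen U) (oV : IsOpen V) (cov : ∀ x, x ∈ U ∨ x ∈ V)
    (hW : Ctr ↥(U ∩ V)) {n k l : ℕ} (hU : Gen ↥U (n + 1) k) (hV : Gen ↥V (n + 1) l) :
    Gen X (n + 1) (k + l) := by
  obtain ⟨γ, g1, g2⟩ := hU
  obtain ⟨δ, d1, d2⟩ := hV
  refine ⟨Fin.append (fun i => push (sub U) (n + 1) (γ i)) (fun i => push (sub V) (n + 1) (δ i)),
    ?_, ?_⟩
  · intro i
    refine Fin.addCases (fun i => ?_) (fun i => ?_) i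
    · rw [Fin.append_left]
      exact push_mem_Cyc _ _ _ (g1 i)
    · rw [Fin.append_right]
      exact push_mem_Cyc _ _ _ (d1 i)
  · intro z hz
    obtain ⟨u, hu, v, hv, h1, h2, h3⟩ := split_univ U V oU oV cov hz
    have hd : bdry X n u ∈ Bd (U ∩ V) n := by
      cases n with
      | zero => exact CnO_of_Cn hW.cn _ h2 (ep_bdry u)
      | succ m => exact AcO_of_Ac (hW.ac m) _ h2 (bdry_mem_Cyc u)
    obtain ⟨e, he, he2⟩ := hd
    have hu' : u - e ∈ sp U (n + 1) := Submodule.sub_mem _ hu (sp_mono Set.inter_subset_left _ he)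
    have hv' : v + e ∈ sp V (n + 1) := Submodule.add_mem _ hv (sp_mono Set.inter_subset_right _ he)
    obtain ⟨a', ha'⟩ := exists_lift hu'
    obtain ⟨b', hb'⟩ := exists_lift hv'
    have hac : a' ∈ Cyc ↥U (n + 1) := by
      apply mem_Cyc_of_push (sub U) Subtype.val_injective
      rw [ha']
      apply mem_Cyc_of_bdry
      rw [map_sub, he2, sub_self]
    have hbc : b' ∈ Cyc ↥V (n + 1) := by
      apply mem_Cyc_of_push (sub V) Subtype.val_injective
      rw [hb']
      apply mem_Cyc_of_bdry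
      rw [map_add, he2, add_comm, h3]
    obtain ⟨a, ha⟩ := g2 a' hac
    obtain ⟨b, hb⟩ := d2 b' hbc
    refine ⟨Fin.append a b, ?_⟩
    rw [Fin.sum_univ_add]
    simp only [Fin.append_left, Fin.append_right]
    have h4 := push_mem_Bdy (sub U) _ _ ha
    have h5 := push_mem_Bdy (sub V) _ _ hb
    rw [map_sub, map_sum, ha'] at h4
    rw [map_sub, map_sum, hb'] at h5
    simp only [map_smul] at h4 h5
    have h6 := Submodule.add_mem _ h1 (Submodule.add_mem _ h4 h5)
    convert h6 using 1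
    abel

end gen

/-! ### The affine quadric -/

/-- the affine quadric -/
abbrev J1 : Type := {v : Fin 3 → ℂ // qf v = 1}

theorem J1_re (v : J1) : nr v.1 - ni v.1 = 1 := by
  rw [← qf_re, v.2]
  norm_num

theorem J1_nr (v : J1) : 0 < nr v.1 := by
  have := J1_re v
  have := ni_nonneg v.1
  linarith

/-- the real points -/
def jf : C(S2, J1) where
  toFun s := ⟨fun i => ((s.1 i : ℝ) : ℂ), by
    have h := s.2
    rw [qf, Fin.sum_univ_three]
    norm_cast⟩
  continuous_toFun := by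
    refine Continuous.subtype_mk (continuous_pi fun i => ?_) _
    exact Complex.continuous_ofReal.comp ((continuous_apply i).comp continuous_subtype_val)

/-- the direction of the real part -/
def jg : C(J1, S2) where
  toFun v := ⟨fun i => (v.1 i).re / √(nr v.1), by
    have h := J1_nr v
    simp only [div_pow, Real.sq_sqrt h.le]
    rw [← add_div, ← add_div, div_eq_one_iff_eq h.ne']
    simp only [nr, Fin.sum_univ_three]⟩
  continuous_toFun := by
    refine Continuous.subtype_mk (continuous_pi fun i => ?_) _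
    exact (ccr i).div (Real.continuous_sqrt.comp (continuous_nr.comp continuous_subtype_val))
      fun v => (Real.sqrt_pos.2 (J1_nr v)).ne'

/-- the homotopy -/
def jh : C(J1 × I, J1) where
  toFun q := ⟨df q.1.1 q.2, by
    have h := J1_re q.1
    have hn := J1_nr q.1
    apply Complex.ext
    · rw [df_sq_re hn (by linarith), q.1.2]
    · rw [df_sq_im, q.1.2]
      simp⟩
  continuous_toFun := by
    refine Continuous.subtype_mk ?_ _
    exact continuous_df (by fun_prop) (by fun_prop) fun q => J1_nr q.1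

theorem jh_zero (v : J1) : jh (v, 0) = v := Subtype.ext (df_zero (J1_nr v))

theorem jh_one (v : J1) : jh (v, 1) = jf (jg v) := by
  apply Subtype.ext
  funext i
  change df v.1 1 i = (((v.1 i).re / √(nr v.1) : ℝ) : ℂ)
  rw [df_one, v.2]
  congr 1
  simp
  ring

/-! ### The affine elliptic curve -/

/-- the affine elliptic curve -/
abbrev E0 : Type := {q : ℂ × ℂ // q.1 ^ 2 = q.2 ^ 3 - q.2}

/-- the left part -/
def EA : Set E0 := {q | q.1.2.re < 1 / 2}

/-- the right part -/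
def EB : Set E0 := {q | -(1 / 2) < q.1.2.re}

theorem EA_open : IsOpen EA := isOpen_lt (by fun_prop) continuous_const

theorem EB_open : IsOpen EB := isOpen_lt continuous_const (by fun_prop)

theorem EAB (q : E0) : q ∈ EA ∨ q ∈ EB := by
  by_cases h : q.1.2.re < 1 / 2
  · exact Or.inl h
  · right
    change -(1 / 2) < q.1.2.re
    linarith

/-- the model of the left part -/
abbrev MA : Type := {v : Fin 2 → ℂ // qf v = 1 / 4 ∧ (v 0).re < 1}

theorem MA_re (v : MA) : nr v.1 - ni v.1 = 1 / 4 := by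
  rw [← qf_re, v.2.1]
  norm_num

theorem MA_nr (v : MA) : 0 < nr v.1 := by
  have := MA_re v
  have := ni_nonneg v.1
  linarith

theorem reA (y : EA) : 0 < (1 - y.1.1.2).re := by
  have h : y.1.1.2.re < 1 / 2 := y.2
  simp only [Complex.sub_re, Complex.one_re]
  linarith

/-- from the model to the curve -/
def ea : C(MA, EA) where
  toFun v := ⟨⟨(csq (3 / 2 - v.1 0) * v.1 1, v.1 0 - 1 / 2), by
    have h := v.2.1
    rw [qf, Fin.sum_univ_two] at h
    have hs := csq_sq (3 / 2 - v.1 0)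
    simp only [mul_pow, hs]
    linear_combination (3 / 2 - v.1 0) * h⟩, by
    have h := v.2.2
    change (v.1 0 - 1 / 2).re < 1 / 2
    simp only [Complex.sub_re, Complex.div_ofNat_re, Complex.one_re]
    linarith⟩
  continuous_toFun := by
    refine Continuous.subtype_mk (Continuous.subtype_mk (Continuous.prodMk ?_ ?_) _) _
    · have hc : Continuous fun v : MA => csq (3 / 2 - v.1 0) := by
        refine continuous_csq (continuous_const.sub (cco 0)) fun v => ?_
        have h := v.2.2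
        simp only [Complex.sub_re, Complex.div_ofNat_re, Complex.re_ofNat]
        linarith
      exact hc.mul (cco _)
    · exact (cco 0).sub continuous_const

/-- from the curve to the model -/
def eb : C(EA, MA) where
  toFun y := ⟨![y.1.1.2 + 1 / 2, y.1.1.1 / csq (1 - y.1.1.2)], by
    have h := y.1.2
    have hs := csq_sq (1 - y.1.1.2)
    have hne := csq_ne (reA y)
    have hne' : 1 - y.1.1.2 ≠ 0 := by
      rw [← hs]
      exact pow_ne_zero 2 hne
    rw [qf, Fin.sum_univ_two]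
    simp only [Matrix.cons_val_zero, Matrix.cons_val_one, div_pow, hs]
    have e : y.1.1.1 ^ 2 / (1 - y.1.1.2) = - (y.1.1.2 * (y.1.1.2 + 1)) := by
      rw [h, div_eq_iff hne']
      ring
    linear_combination e, by
    have h : y.1.1.2.re < 1 / 2 := y.2
    simp only [Matrix.cons_val_zero, Complex.add_re, Complex.div_ofNat_re, Complex.one_re]
    linarith⟩
  continuous_toFun := by
    refine Continuous.subtype_mk ?_ _
    have hc : Continuous fun y : EA => csq (1 - y.1.1.2) :=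
      continuous_csq (by fun_prop) reA
    refine continuous_pi fun i => ?_
    fin_cases i
    · exact (by fun_prop : Continuous fun y : EA => y.1.1.2 + 1 / 2)
    · exact (by fun_prop : Continuous fun y : EA => y.1.1.1).div hc fun y => csq_ne (reA y)

theorem ea_eb (y : EA) : ea (eb y) = y := by
  have e : (3 / 2 : ℂ) - (y.1.1.2 + 1 / 2) = 1 - y.1.1.2 := by ring
  have hne := csq_ne (reA y)
  apply Subtype.ext
  apply Subtype.ext
  refine Prod.ext ?_ ?_
  · change csq (3 / 2 - (y.1.1.2 + 1 / 2)) * (y.1.1.1 / csq (1 - y.1.1.2)) = y.1.1.1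
    rw [e]
    field_simp
  · change y.1.1.2 + 1 / 2 - 1 / 2 = y.1.1.2
    ring

theorem eb_ea (v : MA) : eb (ea v) = v := by
  have e : (1 : ℂ) - (v.1 0 - 1 / 2) = 3 / 2 - v.1 0 := by ring
  have hne : csq (3 / 2 - v.1 0) ≠ 0 := by
    apply csq_ne
    have h := v.2.2
    simp only [Complex.sub_re, Complex.div_ofNat_re, Complex.re_ofNat]
    linarith
  apply Subtype.ext
  funext i
  fin_cases i
  · change v.1 0 - 1 / 2 + 1 / 2 = v.1 0
    ring
  · change csq (3 / 2 - v.1 0) * v.1 1 / csq (1 - (v.1 0 - 1 / 2)) = v.1 1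
    rw [e]
    exact mul_div_cancel_left₀ _ hne

/-- the homotopy of the model -/
def eh : C(MA × I, MA) where
  toFun q := ⟨df q.1.1 q.2, by
    have h := MA_re q.1
    have hn := MA_nr q.1
    constructor
    · apply Complex.ext
      · rw [df_sq_re hn (by linarith), q.1.2.1]
      · rw [df_sq_im, q.1.2.1]
        simp
    · rw [df_re]
      have h1 := rho_nonneg q.1.1 (q.2 : ℝ)
      have h2 := rho_le hn q.2.2.1 q.2.2.2
      have h3 := q.1.2.2
      by_cases h4 : 0 ≤ (q.1.1 0).re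
      · nlinarith
      · nlinarith⟩
  continuous_toFun := by
    refine Continuous.subtype_mk ?_ _
    exact continuous_df (by fun_prop) (by fun_prop) fun q => MA_nr q.1

/-- the norm in the plane -/
def nr2 (x : R2) : ℝ := √(x.1 ^ 2 + x.2 ^ 2)

theorem nr2_pos (x : Pn R2) : 0 < nr2 x.1 := by
  apply Real.sqrt_pos.2
  by_contra h
  push Not at h
  apply x.2
  have h1 := sq_nonneg x.1.1
  have h2 := sq_nonneg x.1.2
  refine Prod.ext ?_ ?_
  · exact pow_eq_zero_iff two_ne_zero |>.1 (by linarith)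
  · exact pow_eq_zero_iff two_ne_zero |>.1 (by linarith)

theorem nr2_sq (x : R2) : nr2 x ^ 2 = x.1 ^ 2 + x.2 ^ 2 := Real.sq_sqrt (by positivity)

/-- the real part of the model -/
def eg : C(MA, Pn R2) where
  toFun v := ⟨((v.1 0).re, (v.1 1).re), by
    intro h
    have h1 := MA_nr v
    have e1 : (v.1 0).re = 0 := congrArg Prod.fst h
    have e2 : (v.1 1).re = 0 := congrArg Prod.snd h
    rw [nr, Fin.sum_univ_two, e1, e2] at h1
    norm_num at h1⟩
  continuous_toFun := by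
    refine Continuous.subtype_mk ?_ _
    exact (ccr 0).prodMk (ccr 1)

/-- the circle of radius `1 / 2` -/
def ef : C(Pn R2, MA) where
  toFun x := ⟨![((x.1.1 / (2 * nr2 x.1) : ℝ) : ℂ), ((x.1.2 / (2 * nr2 x.1) : ℝ) : ℂ)], by
    have h := nr2_sq x.1
    have h0 := nr2_pos x
    constructor
    · rw [qf, Fin.sum_univ_two]
      simp only [Matrix.cons_val_zero, Matrix.cons_val_one]
      have : (x.1.1 / (2 * nr2 x.1)) ^ 2 + (x.1.2 / (2 * nr2 x.1)) ^ 2 = 1 / 4 := by
        field_simp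
        linarith
      have h2 := congrArg (fun r : ℝ => (r : ℂ)) this
      push_cast at h2 ⊢
      exact h2
    · simp only [Matrix.cons_val_zero, Complex.ofReal_re]
      rw [div_lt_one (by positivity)]
      have h2 : x.1.1 ≤ nr2 x.1 := by
        apply Real.le_sqrt_of_sq_le
        nlinarith [sq_nonneg x.1.2]
      linarith⟩
  continuous_toFun := by
    refine Continuous.subtype_mk (continuous_pi fun i => ?_) _
    have hn : Continuous fun x : Pn R2 => 2 * nr2 x.1 := by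
      unfold nr2
      fun_prop
    fin_cases i
    · exact Complex.continuous_ofReal.comp ((by fun_prop : Continuous fun x : Pn R2 => x.1.1).div hn
        fun x => (mul_pos two_pos (nr2_pos x)).ne')
    · exact Complex.continuous_ofReal.comp ((by fun_prop : Continuous fun x : Pn R2 => x.1.2).div hn
        fun x => (mul_pos two_pos (nr2_pos x)).ne')

/-- the homotopy of the punctured plane -/
def ek : C(Pn R2 × I, Pn R2) where
  toFun q := ⟨((1 - (q.2 : ℝ)) + q.2 / (2 * nr2 q.1.1)) • q.1.1,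
    rad_ne q.1 (mul_pos two_pos (nr2_pos q.1)) q.2.2.1 q.2.2.2⟩
  continuous_toFun := by
    refine Continuous.subtype_mk ?_ _
    have hn : Continuous fun q : Pn R2 × I => 2 * nr2 q.1.1 := by
      unfold nr2
      fun_prop
    have h2 : Continuous fun q : Pn R2 × I => (q.2 : ℝ) / (2 * nr2 q.1.1) :=
      Continuous.div (by fun_prop) hn fun q => (mul_pos two_pos (nr2_pos q.1)).ne'
    have h3 : Continuous fun q : Pn R2 × I => (1 - (q.2 : ℝ)) := by fun_prop
    have h4 : Continuous fun q : Pn R2 × I => q.1.1 := by fun_prop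
    exact (h3.add h2).smul h4

theorem RS_MA : RS MA 1 := by
  refine RS.of_HE' (f := eg) (HE_of_homotopyEquiv eg ef eh ek
    (fun v => Subtype.ext (df_zero (MA_nr v))) ?_ ?_ ?_) RS_R2
  · intro v
    apply Subtype.ext
    have e : nr2 (eg v).1 = √(nr v.1) := by
      change √((v.1 0).re ^ 2 + (v.1 1).re ^ 2) = _
      rw [nr, Fin.sum_univ_two]
    have e2 : √((qf v.1).re) = 1 / 2 := by
      rw [v.2.1]
      have : ((1 / 4 : ℂ)).re = (1 / 2) ^ 2 := by norm_num
      rw [this, Real.sqrt_sq (by norm_num)]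
    funext i
    change df v.1 1 i = _
    rw [df_one, e2]
    fin_cases i
    · change (((1 / 2 / √(nr v.1) * (v.1 0).re : ℝ)) : ℂ) =
        (((v.1 0).re / (2 * nr2 (eg v).1) : ℝ) : ℂ)
      rw [e]
      congr 1
      have := (Real.sqrt_pos.2 (MA_nr v)).ne'
      field_simp
    · change (((1 / 2 / √(nr v.1) * (v.1 1).re : ℝ)) : ℂ) =
        (((v.1 1).re / (2 * nr2 (eg v).1) : ℝ) : ℂ)
      rw [e]
      congr 1
      have := (Real.sqrt_pos.2 (MA_nr v)).ne'
      field_simp
  · intro x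
    apply Subtype.ext
    change ((1 - (0 : ℝ)) + 0 / (2 * nr2 x.1)) • x.1 = x.1
    simp
  · intro x
    apply Subtype.ext
    change ((1 - (1 : ℝ)) + 1 / (2 * nr2 x.1)) • x.1 =
      ((((x.1.1 / (2 * nr2 x.1) : ℝ) : ℂ)).re, (((x.1.2 / (2 * nr2 x.1) : ℝ) : ℂ)).re)
    rw [sub_self, zero_add, Complex.ofReal_re, Complex.ofReal_re]
    refine Prod.ext ?_ ?_
    · change 1 / (2 * nr2 x.1) * x.1.1 = _
      ring
    · change 1 / (2 * nr2 x.1) * x.1.2 = _
      ring

theorem RS_EA : RS EA 1 :=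
  RS.of_HE' (HE_of_homotopyEquiv eb ea ⟨Prod.fst, continuous_fst⟩ ⟨Prod.fst, continuous_fst⟩
    (fun _ => rfl) (fun y => (ea_eb y).symm) (fun _ => rfl) (fun v => (eb_ea v).symm)) RS_MA

/-- the symmetry -/
def io (q : E0) : E0 := ⟨(Complex.I * q.1.1, - q.1.2), by
  have h := q.2
  simp only [mul_pow, Complex.I_sq]
  linear_combination -h⟩

theorem io_cont : Continuous io := by
  unfold io
  fun_prop

theorem RS_EB : RS EB 1 := by
  let f : C(EA, EB) := ⟨fun y => ⟨io y.1, by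
    have h : y.1.1.2.re < 1 / 2 := y.2
    change -(1 / 2) < (- y.1.1.2).re
    rw [Complex.neg_re]
    linarith⟩, by
      refine Continuous.subtype_mk ?_ _
      exact io_cont.comp continuous_subtype_val⟩
  let g : C(EB, EA) := ⟨fun y => ⟨io (io (io y.1)), by
    have h : -(1 / 2) < y.1.1.2.re := y.2
    change (- - - y.1.1.2).re < 1 / 2
    rw [neg_neg, Complex.neg_re]
    linarith⟩, by
      refine Continuous.subtype_mk ?_ _
      exact io_cont.comp (io_cont.comp (io_cont.comp continuous_subtype_val))⟩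
  have h4 : ∀ q : E0, io (io (io (io q))) = q := by
    intro q
    apply Subtype.ext
    refine Prod.ext ?_ ?_
    · change Complex.I * (Complex.I * (Complex.I * (Complex.I * q.1.1))) = q.1.1
      have := Complex.I_sq
      linear_combination (Complex.I ^ 2 - 1) * q.1.1 * this
    · change - - - - q.1.2 = q.1.2
      ring
  exact RS.of_HE (HE_of_homotopyEquiv f g ⟨Prod.fst, continuous_fst⟩ ⟨Prod.fst, continuous_fst⟩
    (fun _ => rfl) (fun y => Subtype.ext (h4 y.1).symm) (fun _ => rfl)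
    (fun y => Subtype.ext (h4 y.1).symm)) RS_EA

theorem reM (z : ℂ) (h1 : z.re < 1 / 2) (h2 : -(1 / 2) < z.re) : 0 < (1 - z ^ 2).re := by
  rw [Complex.sub_re, Complex.one_re, pow_two, Complex.mul_re]
  nlinarith [mul_self_nonneg z.im]

theorem Ctr_EM : Ctr ↥(EA ∩ EB) := by
  -- the dilation
  have hz : ∀ (y : ↥(EA ∩ EB)) (t : ℝ), 0 ≤ t → t ≤ 1 →
      ((((1 - t : ℝ) : ℂ) ^ 2 * y.1.1.2).re < 1 / 2 ∧
        -(1 / 2) < (((1 - t : ℝ) : ℂ) ^ 2 * y.1.1.2).re) := by
    intro y t h0 h1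
    have hA : y.1.1.2.re < 1 / 2 := y.2.1
    have hB : -(1 / 2) < y.1.1.2.re := y.2.2
    have e : (((1 - t : ℝ) : ℂ) ^ 2 * y.1.1.2).re = (1 - t) ^ 2 * y.1.1.2.re := by
      rw [← Complex.ofReal_pow, Complex.re_ofReal_mul]
    rw [e]
    have h2 : (1 - t) ^ 2 ≤ 1 := by nlinarith
    have h3 : 0 ≤ (1 - t) ^ 2 := sq_nonneg _
    constructor <;> nlinarith
  have hy : ∀ y : ↥(EA ∩ EB), 0 < (1 - y.1.1.2 ^ 2).re := fun y => reM _ y.2.1 y.2.2
  have hq : ∀ q : ↥(EA ∩ EB) × I, 0 < (1 - (((1 - (q.2 : ℝ) : ℝ) : ℂ) ^ 2 * q.1.1.1.2) ^ 2).re :=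
    fun q => reM _ (hz q.1 q.2 q.2.2.1 q.2.2.2).1 (hz q.1 q.2 q.2.2.1 q.2.2.2).2
  let H : C(↥(EA ∩ EB) × I, ↥(EA ∩ EB)) := ⟨fun q => ⟨⟨(((1 - (q.2 : ℝ) : ℝ) : ℂ) *
      (csq (1 - (((1 - (q.2 : ℝ) : ℝ) : ℂ) ^ 2 * q.1.1.1.2) ^ 2) *
        (q.1.1.1.1 / csq (1 - q.1.1.1.2 ^ 2))), ((1 - (q.2 : ℝ) : ℝ) : ℂ) ^ 2 * q.1.1.1.2), by
      have hne := csq_ne (hy q.1)
      have hs := csq_sq (1 - q.1.1.1.2 ^ 2)
      have hs2 := csq_sq (1 - (((1 - (q.2 : ℝ) : ℝ) : ℂ) ^ 2 * q.1.1.1.2) ^ 2)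
      have hc := q.1.1.2
      simp only [mul_pow, div_pow] at hs2 ⊢
      rw [hs2, hs]
      have hne' : (1 - q.1.1.1.2 ^ 2 : ℂ) ≠ 0 := by
        rw [← hs]
        exact pow_ne_zero 2 hne
      have e : q.1.1.1.1 ^ 2 / (1 - q.1.1.1.2 ^ 2) = - q.1.1.1.2 := by
        rw [hc, div_eq_iff hne']
        ring
      rw [e]
      ring⟩, (hz q.1 q.2 q.2.2.1 q.2.2.2).1, (hz q.1 q.2 q.2.2.1 q.2.2.2).2⟩, by
    refine Continuous.subtype_mk (Continuous.subtype_mk (Continuous.prodMk ?_ ?_) _) _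
    · refine Continuous.mul (by fun_prop) (Continuous.mul ?_ ?_)
      · exact continuous_csq (by fun_prop) hq
      · exact Continuous.div (by fun_prop) (continuous_csq (by fun_prop) fun q => hy q.1)
          fun q => csq_ne (hy q.1)
    · fun_prop⟩
  refine ⟨⟨⟨(0, 0), by norm_num⟩, by change (0 : ℂ).re < 1 / 2; norm_num,
    by change -(1 / 2) < (0 : ℂ).re; norm_num⟩, H, ?_, ?_⟩
  · intro y
    apply Subtype.ext
    apply Subtype.ext
    refine Prod.ext ?_ ?_
    · change ((1 - (0 : ℝ) : ℝ) : ℂ) * (csq (1 - (((1 - (0 : ℝ) : ℝ) : ℂ) ^ 2 * y.1.1.2) ^ 2) *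
        (y.1.1.1 / csq (1 - y.1.1.2 ^ 2))) = y.1.1.1
      have hne := csq_ne (hy y)
      have e : (((1 - (0 : ℝ) : ℝ) : ℂ) ^ 2 * y.1.1.2) = y.1.1.2 := by push_cast; ring
      rw [e]
      push_cast
      field_simp
      ring
    · change ((1 - (0 : ℝ) : ℝ) : ℂ) ^ 2 * y.1.1.2 = y.1.1.2
      push_cast
      ring
  · intro y
    apply Subtype.ext
    apply Subtype.ext
    refine Prod.ext ?_ ?_
    · change ((1 - (1 : ℝ) : ℝ) : ℂ) * _ = 0
      simp
    · change ((1 - (1 : ℝ) : ℝ) : ℂ) ^ 2 * y.1.1.2 = 0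
      simp

theorem Gen_E1 : Gen E0 1 2 :=
  Gen_union EA_open EB_open EAB Ctr_EM (Gen_of_RS RS_EA) (Gen_of_RS RS_EB)

theorem Gen_E3 : Gen E0 3 0 :=
  Gen_union EA_open EB_open EAB Ctr_EM (Gen.of_Ac (RS_EA.ac 2 (by norm_num)))
    (Gen.of_Ac (RS_EB.ac 2 (by norm_num)))

/-- a point of the quadric -/
def j0 : J1 := jf (sr p3)

theorem Gen_JE : Gen (J1 × E0) 3 2 := by
  have h1 : KG (Pn R3) E0 3 2 := KG.pe p2 (KG.pe pp1 (KG.baseS Gen_E1))
  have h2 : KG J1 E0 3 2 := KG.htpy jf jg jh jh_zero jh_one (KG_S2 h1)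
  exact Gen.prod j0 h2 Gen_E3

theorem Gen_AA : Gen AA 3 2 := by
  have hJ : ∀ v : Fin 3 → ℂ, qf v = v 0 ^ 2 + v 1 ^ 2 + v 2 ^ 2 := fun v => by
    rw [qf, Fin.sum_univ_three]
  let f : C(J1 × E0, AA) := ⟨fun q => ⟨(q.2.1, q.1.1), q.2.2, by rw [← hJ]; exact q.1.2⟩, by
    fun_prop⟩
  let g : C(AA, J1 × E0) := ⟨fun p => (⟨p.1.2, by rw [hJ]; exact p.2.2⟩, ⟨p.1.1, p.2.1⟩), by
    fun_prop⟩
  exact Gen_of_HE (HE_of_homotopyEquiv f g ⟨Prod.fst, continuous_fst⟩
    ⟨Prod.fst, continuous_fst⟩ (fun _ => rfl) (fun _ => rfl) (fun _ => rfl) (fun _ => rfl)) Gen_JE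

end PT7

theorem p_T7 : S_T7 := ⟨PT7.Gen_AA.finite, PT7.Gen_AA.finrank_le⟩

end

end Run7.h592
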