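import Pool.Agent.Run7.h592.Sph2

/-! T9: rational homology of the spheres, Künneth formula in degree 3. T5: `S³ × S³`. -/

set_option autoImplicit false

open scoped Topology

namespace Run7.h592

open Pool.Agent.Y209.HB Finsupp

noncomputable section

theorem KG_G {F : Type} [TopologicalSpace F] {n k : ℕ} (h : KG (Pn R4) F n k) : KG G F n k :=
  KG.htpy gr gi ⟨Prod.fst, continuous_fst⟩ (fun _ => rfl) (fun a => (gr_gi a).symm) h

theorem KG_S2 {F : Type} [TopologicalSpace F] {n k : ℕ} (h : KG (Pn R3) F n k) : KG S2 F n k :=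
  KG.htpy sr si ⟨Prod.fst, continuous_fst⟩ (fun _ => rfl) (fun a => (sr_si a).symm) h

theorem KG_G3 : KG G G 3 1 :=
  KG_G (KG.pe p3 (KG.pe p2 (KG.pe pp1 (KG.base0 RS_G.cn 1))))

/-- the Künneth formula in degree 3 -/
theorem kun3 (z : Sing (G × G) 3 →₀ ℚ) (hz : z ∈ Cyc (G × G) 3)
    (h1 : push ContinuousMap.fst 3 z ∈ Bdy G 3) (h2 : push ContinuousMap.snd 3 z ∈ Bdy G 3) :
    z ∈ Bdy (G × G) 3 := by
  obtain ⟨γ, k1, k2, k3⟩ := KG_G3
  obtain ⟨g, g1, g2, _⟩ := RS_G.gen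
  have key : ∀ (y : Sing (G × G) 3 →₀ ℚ) (a : Fin 1 → ℚ),
      y - ∑ i, a i • γ i ∈ Bdy (G × G) 3 →
      push ContinuousMap.fst 3 y - a 0 • push ContinuousMap.fst 3 (γ 0) ∈ Bdy G 3 := by
    intro y a h
    rw [Fin.sum_univ_one] at h
    have := push_mem_Bdy (ContinuousMap.fst : C(G × G, G)) 3 _ h
    rwa [map_sub, map_smul] at this
  have hne : push ContinuousMap.fst 3 (γ 0) ∉ Bdy G 3 := by
    intro h
    apply g2
    let s : C(G, G × G) := ⟨fun x => (x, 1), by fun_prop⟩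
    obtain ⟨a, ha⟩ := k3 (push s 3 g) (push_mem_Cyc _ _ _ g1) (by
      rw [push_push]
      exact const_Bdy (1 : G) g1)
    have h3 := key _ _ ha
    have h4 := Submodule.add_mem _ h3 (Submodule.smul_mem _ (a 0) h)
    rw [sub_add_cancel, push_push] at h4
    have e : (ContinuousMap.fst : C(G × G, G)).comp s = ContinuousMap.id G := rfl
    rwa [e, push_id] at h4
  obtain ⟨a, ha⟩ := k3 z hz h2
  have h3 := key _ _ ha
  have h4 : a 0 • push ContinuousMap.fst 3 (γ 0) ∈ Bdy G 3 := by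
    have := Submodule.sub_mem _ h1 h3
    rwa [sub_sub_cancel] at this
  have ha0 : a 0 = 0 := by
    by_contra hcon
    apply hne
    have := Submodule.smul_mem _ (a 0)⁻¹ h4
    rwa [smul_smul, inv_mul_cancel₀ hcon, one_smul] at this
  rw [Fin.sum_univ_one, ha0, zero_smul, sub_zero] at ha
  exact ha

theorem p_T9 : S_T9 := by
  refine ⟨fun n hn => RS_G.ac n (by omega), RS_G.cn, RS_G.gen,
    fun n hn => RS_S2.ac n (by omega), RS_S2.cn, RS_S2.gen, ?_⟩
  intro z hz h1 h2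
  exact kun3 z hz h1 h2

end

end Run7.h592
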