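import Pool.Agent.Run7.h592.Asm5
import Pool.Agent.Run7.h592.Bridge
import Pool.Agent.Run7.h592.Irr
import Pool.Agent.Run7.h592.PR1
import Pool.Agent.Run7.h592.PR2
import Pool.Agent.Run7.h592.PR3a
import Pool.Agent.Run7.h592.PR3b
import Pool.Agent.Run7.h592.PR4a
import Pool.Agent.Run7.h592.PR4b
import Pool.Agent.Run7.h592.PR5
import Pool.Agent.Run7.h592.PR6
import Pool.Agent.Run7.h592.PF1
import Pool.Agent.Run7.h592.PF2
import Pool.Agent.Run7.h592.PF3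
import Pool.Agent.Run7.h592.PT0
import Pool.Agent.Run7.h592.PT1
import Pool.Agent.Run7.h592.PT1b
import Pool.Agent.Run7.h592.PT2a
import Pool.Agent.Run7.h592.PT3
import Pool.Agent.Run7.h592.PT4
import Pool.Agent.Run7.h592.PT5
import Pool.Agent.Run7.h592.PT6
import Pool.Agent.Run7.h592.PT7
import Pool.Agent.Run7.h592.PT9
import Pool.Agent.Run7.h592.PG0
import Pool.Agent.Run7.h592.PG1
import Pool.Agent.Run7.h592.PG2
import Pool.Agent.Run7.h592.PG3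
import Pool.Agent.Run7.h592.PH1

/-!
# The result, with the definitions of `Stmt.lean`
-/

set_option autoImplicit false

namespace Run7.h592.St

theorem final : ∃ (X A Z : Var) (a : Mor A X) (b : Mor A Z),
    IsIrreducible X ∧ RationallyElliptic X.Sp ∧ IsProjective Z ∧ IsSmooth Z ∧
    a.NonzeroOn 3 ∧ b.NonzeroOn 3 ∧ DimLE (A.cohomology 3) 2 ∧
    ∀ D : (∀ (V : Var) (k : ℕ), Fil (V.cohomology k)), IsHodgeTheory D →
      ∃ p q : ℤ, p ≠ q ∧ p + q = 3 ∧ hodgeNumber (D X 3) p q ≠ 0 := by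
  obtain ⟨X, A, Z, a, b, hX, he, ha, hb, hZ1, hZ2, ha3, hb3, hf, hr, hD⟩ :=
    Run7.h592.main p_R1 p_R2a p_R2b p_R4a p_R4b p_R3a p_R3b p_R5a p_R5b p_R6 p_F1 p_F2 p_F3
      (p_T3 p_T0 (p_T1 p_T9 p_T1b)) p_T4 (p_T5 p_T2a) (p_T6 p_T9) p_T7 p_G0a p_G0b p_G0c p_G1
      p_G2 p_G3 p_H1
  refine ⟨Br.toVar X, Br.toVar A, Br.toVar Z, Br.mor a ha, Br.mor b hb, ?_, Br.ell he,
    Br.isProj hZ1, Br.isSmooth hZ2, ?_, ?_, ⟨hf, hr⟩, fun D h => ?_⟩
  · rw [hX]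
    exact Br.irr (irr_X p_G0a p_G0b p_G1)
  · by_contra hn
    refine ha3 (LinearMap.ext fun x => ?_)
    by_contra hx
    exact hn ⟨x, hx⟩
  · by_contra hn
    refine hb3 (LinearMap.ext fun x => ?_)
    by_contra hx
    exact hn ⟨x, hx⟩
  · obtain ⟨p, hp⟩ := hD (Br.oldData D) (Br.isHT h)
    exact ⟨p, 3 - p, by omega, by omega, hp⟩

end Run7.h592.St
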