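import Pool.Agent.Run7.h592.Tasks
import Pool.Agent.Y209.HB.BridgeQ

/-! T8: natural comparison with Mathlib's singular homology. -/

set_option autoImplicit false

namespace Run7.h592

open Pool.Agent.Y209.HB CategoryTheory AlgebraicTopology Limits
open Pool.Agent.TH592.Nag (KK toC ofC cyc bou cyc_iff bou_iff toC_injective toC_ofC)

noncomputable section

/-- the chain map of a continuous map (as in `Pool.Agent.TH650.Emb.Bridge`) -/
abbrev kmapR {A X : Type} [TopologicalSpace A] [TopologicalSpace X]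
    (f : C(A, X)) : KK ℚ A ⟶ KK ℚ X :=
  SSet.chainComplexMap (TopCat.toSSet.map (TopCat.ofHom f)) (ModuleCat.of ℚ ℚ)

theorem kmapR_toC {A X : Type} [TopologicalSpace A] [TopologicalSpace X] (f : C(A, X)) (n : ℕ)
    (c : Sing A n →₀ ℚ) : ((kmapR f).f n).hom (toC ℚ A n c) = toC ℚ X n (push f n c) := by
  have h : ((kmapR f).f n).hom ∘ₗ toC ℚ A n = toC ℚ X n ∘ₗ push f n := by
    refine Finsupp.lhom_ext' fun σ => LinearMap.ext_ring ?_
    simp only [LinearMap.comp_apply, Finsupp.lsingle_apply]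
    rw [push_single, toC, toC,
      Finsupp.linearCombination_single, Finsupp.linearCombination_single, one_smul, one_smul,
      Pool.Agent.TH592.Nag.bas, Pool.Agent.TH592.Nag.bas, ← ModuleCat.comp_apply,
      SSet.ι_chainComplexMap_f]
    rfl
  exact LinearMap.congr_fun h c

theorem cyc_eq (X : Type) [TopologicalSpace X] (n : ℕ) : cyc ℚ X n = Cyc X n := by
  cases n with
  | zero => rfl
  | succ n =>
    change LinearMap.ker (Pool.Agent.TH592.Nag.bd ℚ X n) = LinearMap.ker (bdry X n)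
    rw [bd_eq]

theorem bou_eq (X : Type) [TopologicalSpace X] (n : ℕ) : bou ℚ X n = Bdy X n := by
  change LinearMap.range (Pool.Agent.TH592.Nag.bd ℚ X n) = LinearMap.range (bdry X n)
  rw [bd_eq]

/-- explicit cycles as chains of Mathlib's complex -/
def cyC (X : Type) [TopologicalSpace X] (n : ℕ) :
    ModuleCat.of ℚ (Cyc X n) ⟶ (KK ℚ X).X n :=
  ModuleCat.ofHom ((toC ℚ X n).comp (Cyc X n).subtype)

theorem cyC_d (X : Type) [TopologicalSpace X] (n : ℕ) :
    cyC X n ≫ (KK ℚ X).d n ((ComplexShape.down ℕ).next n) = 0 := by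
  apply ModuleCat.hom_ext
  apply LinearMap.ext
  intro c
  exact (cyc_iff c.1).1 (by rw [cyc_eq]; exact c.2)

/-- explicit cycles as cycles of Mathlib's complex -/
def lamC (X : Type) [TopologicalSpace X] (n : ℕ) :
    ModuleCat.of ℚ (Cyc X n) ⟶ (KK ℚ X).cycles n :=
  (KK ℚ X).liftCycles (cyC X n) _ rfl (cyC_d X n)

theorem iCycles_inj (K : ChainComplex (ModuleCat.{0} ℚ) ℕ) (n : ℕ) :
    Function.Injective (K.iCycles n).hom :=
  (ModuleCat.mono_iff_injective (K.iCycles n)).1 inferInstance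

theorem lamC_i (X : Type) [TopologicalSpace X] (n : ℕ) (c : Cyc X n) :
    ((KK ℚ X).iCycles n).hom ((lamC X n).hom c) = toC ℚ X n c.1 := by
  rw [← ModuleCat.comp_apply]
  unfold lamC
  rw [HomologicalComplex.liftCycles_i]
  rfl

/-- explicit cycles to Mathlib's homology -/
def lamH (X : Type) [TopologicalSpace X] (n : ℕ) : Cyc X n →ₗ[ℚ] Hlg X n :=
  ((KK ℚ X).homologyπ n).hom.comp (lamC X n).hom

theorem lamH_surj (X : Type) [TopologicalSpace X] (n : ℕ) : Function.Surjective (lamH X n) := by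
  intro y
  obtain ⟨z, rfl⟩ := (ModuleCat.epi_iff_surjective ((KK ℚ X).homologyπ n)).1 inferInstance y
  let c := (ofC ℚ X n).hom (((KK ℚ X).iCycles n).hom z)
  have hc : toC ℚ X n c = ((KK ℚ X).iCycles n).hom z := toC_ofC _
  have hc' : c ∈ Cyc X n := by
    rw [← cyc_eq, cyc_iff, hc, ← ModuleCat.comp_apply, HomologicalComplex.iCycles_d]
    rfl
  refine ⟨⟨c, hc'⟩, ?_⟩
  change ((KK ℚ X).homologyπ n).hom ((lamC X n).hom ⟨c, hc'⟩) = _
  congr 1
  apply iCycles_inj
  rw [lamC_i, hc]

theorem lamH_ker (X : Type) [TopologicalSpace X] (n : ℕ) :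
    LinearMap.ker (lamH X n) = (Bdy X n).submoduleOf (Cyc X n) := by
  ext c
  have hex : (ShortComplex.mk ((KK ℚ X).toCycles ((ComplexShape.down ℕ).prev n) n)
      ((KK ℚ X).homologyπ n) (HomologicalComplex.toCycles_comp_homologyπ _ _ _)).Exact :=
    ShortComplex.exact_of_g_is_cokernel _ ((KK ℚ X).homologyIsCokernel _ n rfl)
  rw [ShortComplex.moduleCat_exact_iff] at hex
  constructor
  · intro h
    have h0 : ((KK ℚ X).homologyπ n).hom ((lamC X n).hom c) = 0 := h
    obtain ⟨w, hw⟩ := hex _ h0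
    change c.1 ∈ Bdy X n
    rw [← bou_eq, bou_iff]
    refine ⟨w, ?_⟩
    rw [← lamC_i, ← hw]
    change _ = ((KK ℚ X).iCycles n).hom (((KK ℚ X).toCycles _ n).hom w)
    rw [← ModuleCat.comp_apply, HomologicalComplex.toCycles_i]
  · intro h
    have h1 : c.1 ∈ bou ℚ X n := by rw [bou_eq]; exact h
    rw [bou_iff] at h1
    obtain ⟨w, hw⟩ := h1
    have h2 : ((KK ℚ X).toCycles _ n).hom w = (lamC X n).hom c := by
      apply iCycles_inj
      rw [← ModuleCat.comp_apply, HomologicalComplex.toCycles_i, lamC_i, hw]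
    change ((KK ℚ X).homologyπ n).hom ((lamC X n).hom c) = 0
    rw [← h2, ← ModuleCat.comp_apply, HomologicalComplex.toCycles_comp_homologyπ]
    rfl

/-- the comparison isomorphism, in the other direction -/
def lamE (X : Type) [TopologicalSpace X] (n : ℕ) : Homology X n ≃ₗ[ℚ] Hlg X n :=
  (Submodule.quotEquivOfEq _ _ (lamH_ker X n).symm).trans
    ((lamH X n).quotKerEquivOfSurjective (lamH_surj X n))

theorem lamE_mk (X : Type) [TopologicalSpace X] (n : ℕ) (c : Cyc X n) :
    lamE X n (Submodule.Quotient.mk c) = lamH X n c := rfl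

theorem lamE_nat {X X' : Type} [TopologicalSpace X] [TopologicalSpace X'] (f : C(X, X')) (n : ℕ)
    (x : Homology X n) : hmap f n (lamE X n x) = lamE X' n (Homology.map f n x) := by
  obtain ⟨c, rfl⟩ := Submodule.Quotient.mk_surjective _ x
  have e1 : Homology.map f n (Submodule.Quotient.mk c) =
      Submodule.Quotient.mk ((push f n).restrict (push_mem_Cyc f n) c) := rfl
  rw [e1, lamE_mk, lamE_mk]
  change (HomologicalComplex.homologyMap (kmapR f) n).hom
    (((KK ℚ X).homologyπ n).hom ((lamC X n).hom c)) =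
    ((KK ℚ X').homologyπ n).hom ((lamC X' n).hom ((push f n).restrict (push_mem_Cyc f n) c))
  rw [← ModuleCat.comp_apply, HomologicalComplex.homologyπ_naturality, ModuleCat.comp_apply]
  congr 1
  apply iCycles_inj
  rw [lamC_i, ← ModuleCat.comp_apply, HomologicalComplex.cyclesMap_i, ModuleCat.comp_apply, lamC_i]
  exact kmapR_toC f n c.1

theorem p_T8 : S_T8 := by
  intro n
  refine ⟨fun X _ => (lamE X n).symm, ?_⟩
  intro X X' _ _ f x
  rw [LinearEquiv.symm_apply_eq, ← lamE_nat, LinearEquiv.apply_symm_apply]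

end

end Run7.h592
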