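import Pool.Agent.Run7.h592.Asm2
import Pool.Agent.Run7.h592.PT8

/-! Assembly, part 3: rational ellipticity. -/

set_option autoImplicit false

open scoped Topology TensorProduct

namespace Run7.h592

open Pool.Agent.Y209.HB

noncomputable section

theorem sc_prod {A B : Type} [TopologicalSpace A] [TopologicalSpace B] [SimplyConnectedSpace A]
    [SimplyConnectedSpace B] : SimplyConnectedSpace (A × B) := by
  rw [simply_connected_iff_paths_homotopic]
  refine ⟨inferInstance, ?_⟩
  rintro ⟨a, b⟩ ⟨a', b'⟩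
  refine ⟨fun p q => ?_⟩
  rw [← Path.Homotopic.prod_projLeft_projRight p, ← Path.Homotopic.prod_projLeft_projRight q]
  congr 1
  · exact Subsingleton.elim _ _
  · exact Subsingleton.elim _ _

section Prod

variable {A B : Type} [TopologicalSpace A] [TopologicalSpace B]

theorem pi_prod_inj {k : ℕ} (x : A × B) (α : HomotopyGroup (Fin (k + 1)) (A × B) x)
    (h1 : pimap ContinuousMap.fst x α = 1) (h2 : pimap ContinuousMap.snd x α = 1) : α = 1 := by
  obtain ⟨p, rfl⟩ := hcl_surj α
  obtain ⟨F⟩ := Quotient.exact h1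
  obtain ⟨K⟩ := Quotient.exact h2
  apply Quotient.sound
  exact ⟨F.prod K⟩

theorem piQ_prod (k : ℕ) (x : A × B) :
    (Module.Finite ℚ (PiQ A x.1 k) → Module.Finite ℚ (PiQ B x.2 k) →
      Module.Finite ℚ (PiQ (A × B) x k)) ∧
    (Subsingleton (PiQ A x.1 k) → Subsingleton (PiQ B x.2 k) → Subsingleton (PiQ (A × B) x k)) := by
  let L : Additive (HomotopyGroup (Fin (k + 2)) (A × B) x) →ₗ[ℤ]
      Additive (HomotopyGroup (Fin (k + 2)) A x.1) × Additive (HomotopyGroup (Fin (k + 2)) B x.2) :=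
    (piL k ContinuousMap.fst x).prod (piL k ContinuousMap.snd x)
  have hL : Function.Injective L := by
    rw [← LinearMap.ker_eq_bot, LinearMap.ker_eq_bot']
    intro m hm
    exact pi_prod_inj x (Additive.toMul m) (congrArg Prod.fst hm) (congrArg Prod.snd hm)
  have h1 : Function.Injective ((TensorProduct.prodRight ℤ ℚ ℚ
      (Additive (HomotopyGroup (Fin (k + 2)) A x.1))
      (Additive (HomotopyGroup (Fin (k + 2)) B x.2))).toLinearMap.comp (L.baseChange ℚ)) := by
    rw [LinearMap.coe_comp]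
    exact (LinearEquiv.injective _).comp (tens_inj L hL)
  constructor
  · intro hA hB
    exact Module.Finite.of_injective _ h1
  · intro hA hB
    exact h1.subsingleton

end Prod

/-! ## The sphere -/

open Pool.Agent.H904R2 in
theorem piQ_G (F1 : S_F1) (F2 : S_F2) (F3 : S_F3) (k : ℕ) :
    Module.Finite ℚ (PiQ G 1 k) ∧ (k ≠ 1 → Subsingleton (PiQ G 1 k)) := by
  obtain ⟨hpc, c, α, γ, hc, hα, hγ, hgen, hac⟩ := F2
  obtain ⟨h1, h2⟩ := F1 G c α γ hc hα hγ hgen hac
  obtain ⟨Ψ, hΨ⟩ := F3 G (k + 1)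
  have hs : k ≠ 1 → Subsingleton (PiQ G 1 k) := by
    intro hk
    apply tens_tor
    intro m
    obtain ⟨x, hx⟩ := (SingG G).cls_surj (k + 1) (Ψ (Additive.toMul m))
    obtain ⟨M, hM, hM'⟩ := h1 (k + 1) x (by omega)
    refine ⟨M, hM, ?_⟩
    rw [hx, ← map_pow] at hM'
    exact hΨ (hM'.trans (map_one Ψ).symm)
  refine ⟨?_, hs⟩
  by_cases hk : k = 1
  · subst hk
    let L : Additive (HomotopyGroup (Fin (1 + 2)) G 1) →ₗ[ℤ] Additive ((SingG G).Pg 2) :=
      Ψ.toAdditive.toIntLinearMap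
    have hL : Function.Injective L := hΨ
    have hf : Module.Finite ℚ (ℚ ⊗[ℤ] Additive ((SingG G).Pg 2)) := by
      apply tens_span (Additive.ofMul ((SingG G).cls 2 α))
      intro m
      obtain ⟨x, hx⟩ := (SingG G).cls_surj 2 (Additive.toMul m)
      obtain ⟨M, a, hM, hM'⟩ := h2 x
      refine ⟨M, a, hM, ?_⟩
      rw [hx] at hM'
      exact hM'
    exact Module.Finite.of_injective _ (tens_inj L hL)
  · have := hs hk
    exact Module.Finite.of_finite

theorem piQ_GG (F1 : S_F1) (F2 : S_F2) (F3 : S_F3) (k : ℕ) :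
    Module.Finite ℚ (PiQ (G × G) (1, 1) k) ∧ (k ≠ 1 → Subsingleton (PiQ (G × G) (1, 1) k)) := by
  obtain ⟨h1, h2⟩ := piQ_G F1 F2 F3 k
  exact ⟨(piQ_prod k ((1, 1) : G × G)).1 h1 h1, fun hk =>
    (piQ_prod k ((1, 1) : G × G)).2 (h2 hk) (h2 hk)⟩

/-! ## Cohomology -/

section Coh

variable {A X : Type} [TopologicalSpace A] [TopologicalSpace X]

/-- homology is preserved by homology equivalences -/
def homEquiv {g : C(A, X)} (hg : HE g) (k : ℕ) : Homology A k ≃ₗ[ℚ] Homology X k :=
  LinearEquiv.ofBijective (Homology.map g k) ((HE_iff_bijective g).1 hg k)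

theorem hlg_finite_of (T8 : S_T8) (k : ℕ) (h : Module.Finite ℚ (Homology X k)) :
    Module.Finite ℚ (Hlg X k) := by
  obtain ⟨e, -⟩ := T8 k
  exact Module.Finite.equiv (e X).symm

theorem coh_finite_of (T8 : S_T8) (k : ℕ) (h : Module.Finite ℚ (Homology X k)) :
    Module.Finite ℚ (Coh X k) := by
  have := hlg_finite_of T8 k h
  infer_instance

theorem coh_zero_of (T8 : S_T8) (k : ℕ) (h : Ac X k) : Subsingleton (Coh X k) := by
  obtain ⟨e, -⟩ := T8 k
  have h1 : Subsingleton (Homology X k) := by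
    apply Submodule.Quotient.subsingleton_iff.mpr
    rw [eq_top_iff]
    rintro ⟨z, hz⟩ _
    exact h z hz
  have h2 : Subsingleton (Hlg X k) := (e X).toEquiv.subsingleton
  refine ⟨fun a b => LinearMap.ext fun x => ?_⟩
  rw [Subsingleton.elim x 0, map_zero, map_zero]

end Coh

/-- rational ellipticity of a simply connected space receiving a rational homology equivalence
from `S³ × S³` -/
theorem elliptic_of (R1 : S_R1) (R2a : S_R2a) (R2b : S_R2b) (R4a : S_R4a) (R4b : S_R4b)
    (R3a : S_R3a) (R3b : S_R3b) (R5a : S_R5a) (R5b : S_R5b) (R6 : S_R6) (F1 : S_F1) (F2 : S_F2)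
    (F3 : S_F3) (T5 : S_T5) {X : Type} [TopologicalSpace X] [SimplyConnectedSpace X]
    (g : C(G × G, X)) (hg : HE g) : RationallyElliptic X := by
  obtain ⟨hG, hfin, N, hN⟩ := T5
  have hGG : SimplyConnectedSpace (G × G) := sc_prod
  refine ⟨inferInstance, ⟨?_, N, ?_⟩, ?_⟩
  · intro k
    have := hfin k
    exact coh_finite_of p_T8 k (Module.Finite.equiv (homEquiv hg k))
  · intro k hk
    exact coh_zero_of p_T8 k (Ac_of_HE' hg (hN k hk))
  · intro x
    let ω := PathConnectedSpace.somePath (g (1, 1)) x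
    let e : PE g := ⟨((1, 1), ω.toContinuousMap), ω.source⟩
    have he : ev1 g e = x := ω.target
    have hPE := sc_PE g
    have key := fun k => pi_of_RW g e k R6 (fun α =>
      rw_main R1 R2a R2b R4a R4b R3a R3b R5a R5b (PE g) X (ev1 g) e (HE_ev1 g hg) k α)
    rw [← he]
    constructor
    · intro k
      exact (key k).1 (piQ_GG F1 F2 F3 k).1
    · refine ⟨2, fun k hk => ?_⟩
      exact (key k).2 ((piQ_GG F1 F2 F3 k).2 (by omega))

end

end Run7.h592
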