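import Pool.Agent.Run7.h592.Asm4

/-! Assembly, part 5: the main theorem from the pieces. -/

set_option autoImplicit false

open scoped Topology TensorProduct LinearAlgebra.Projectivization

namespace Run7.h592

open Pool.Agent.Y209.HB

noncomputable section

/-- the statement of the main theorem -/
def MainStatement (G0a : S_G0a) : Prop :=
  ∃ (X A Z : QPVar) (a : C(A.pts, X.pts)) (b : C(A.pts, Z.pts)),
    X = affVar eqX (G0a _ _) ∧ RationallyElliptic X.pts ∧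
    IsRegular (V := A) (V' := X) a ∧ IsRegular (V := A) (V' := Z) b ∧ IsProjective Z ∧
    IsSmooth Z ∧ cmap a 3 ≠ 0 ∧ cmap b 3 ≠ 0 ∧ Module.Finite ℚ (Coh A.pts 3) ∧
    Module.finrank ℚ (Coh A.pts 3) ≤ 2 ∧
    ∀ D : HodgeData, IsHodgeTheory D → ∃ p : ℤ, hodgeNumber (D.fil X 3) p (3 - p) ≠ 0

theorem main (R1 : S_R1) (R2a : S_R2a) (R2b : S_R2b) (R4a : S_R4a) (R4b : S_R4b)
    (R3a : S_R3a) (R3b : S_R3b) (R5a : S_R5a) (R5b : S_R5b) (R6 : S_R6) (F1 : S_F1) (F2 : S_F2)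
    (F3 : S_F3) (T3 : S_T3) (T4 : S_T4) (T5 : S_T5) (T6 : S_T6) (T7 : S_T7)
    (G0a : S_G0a) (G0b : S_G0b) (G0c : S_G0c) (G1 : S_G1) (G2 : S_G2) (G3 : S_G3) (H1 : S_H1) :
    MainStatement G0a := by
  obtain ⟨X, A, Z, a, b, e, hX, ha, hb, hZ1, hZ2, ha3, hb3, hf, hr⟩ :=
    zigzag G0a G0b G0c G1 G2 G3 T3 T6 T7
  have hsc : SimplyConnectedSpace (SP Y) := T4
  have hscX : SimplyConnectedSpace X.pts := sc_of_hequiv e.toHomotopyEquiv
  have hHE : HE ((e.symm : C(SP Y, X.pts)).comp gmap) :=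
    HE.comp (HE_of_homeo e.symm _ (fun _ => rfl)) T3
  have hell := elliptic_of R1 R2a R2b R4a R4b R3a R3b R5a R5b R6 F1 F2 F3 T5
    ((e.symm : C(SP Y, X.pts)).comp gmap) hHE
  refine ⟨X, A, Z, a, b, hX, hell, ha, hb, hZ1, hZ2, ha3, hb3, hf, hr, ?_⟩
  intro D hD
  have hfX : Module.Finite ℚ (Coh X.pts 3) := hell.2.1.1 3
  obtain ⟨hp1, hp2⟩ := hD.pure Z hZ1 hZ2 3
  exact H1 (Coh X.pts 3) (Coh A.pts 3) (Coh Z.pts 3) (D.fil X 3) (D.fil A 3) (D.fil Z 3)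
    (hD.mhs X 3) (hD.mhs A 3) (hD.mhs Z 3) (by exact_mod_cast hp1) (by
      have : ((3 : ℕ) : ℤ) - 1 = 2 := by norm_num
      rw [this] at hp2
      exact hp2) (cmap a 3) (cmap b 3)
    (fun n x hx => hD.functW A X a ha 3 n x hx) (fun p x hx => hD.functF A X a ha 3 p x hx)
    (fun n x hx => hD.functW A Z b hb 3 n x hx) (fun p x hx => hD.functF A Z b hb 3 p x hx)
    ha3 hb3 hr

end

end Run7.h592
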