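import Pool.Agent.Run7.h592.Util

/-! Symmetric squares: topology. -/

set_option autoImplicit false

open scoped Topology

namespace Run7.h592.DB

open Pool.Agent.Y209.HB

noncomputable section

variable {X : Type}

theorem SP.ind (p : SP X) : ∃ a b, p = SP.mk a b := by
  obtain ⟨⟨a, b⟩, h⟩ := Quot.exists_rep p
  exact ⟨a, b, h.symm⟩

theorem SP.mk_eq {a b c d : X} : SP.mk a b = SP.mk c d ↔ (a = c ∧ b = d) ∨ (a = d ∧ b = c) := by
  constructor
  · intro h
    have h1 : Relation.EqvGen (spRel X) (a, b) (c, d) := Quot.eqvGen_exact h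
    rw [Equivalence.eqvGen_iff] at h1
    · rcases h1 with h1 | h1
      · left
        rw [Prod.mk.injEq] at h1
        exact ⟨h1.1.symm, h1.2.symm⟩
      · right
        have h2 : (c, d) = (b, a) := h1
        rw [Prod.mk.injEq] at h2
        exact ⟨h2.2.symm, h2.1.symm⟩
    · refine ⟨fun x => Or.inl rfl, ?_, ?_⟩
      · rintro x y (rfl | rfl)
        · exact Or.inl rfl
        · exact Or.inr rfl
      · rintro x y z (rfl | rfl) (rfl | rfl)
        · exact Or.inl rfl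
        · exact Or.inr rfl
        · exact Or.inr rfl
        · exact Or.inl rfl
  · rintro (⟨rfl, rfl⟩ | ⟨rfl, rfl⟩)
    · rfl
    · exact SP.mk_comm _ _

variable [TopologicalSpace X]

/-- the projection to the symmetric square -/
def sq : C(X × X, SP X) := ⟨fun p => SP.mk p.1 p.2, SP.continuous_mk⟩

theorem sq_open : IsOpenMap (sq (X := X)) := by
  intro O hO
  have hq : Topology.IsQuotientMap (sq (X := X)) := isQuotientMap_quot_mk
  rw [← hq.isOpen_preimage]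
  have : sq ⁻¹' (sq '' O) = O ∪ Prod.swap ⁻¹' O := by
    ext ⟨a, b⟩
    constructor
    · rintro ⟨⟨c, d⟩, hc, h⟩
      rcases SP.mk_eq.1 h with ⟨h1, h2⟩ | ⟨h1, h2⟩
      · dsimp only at h1 h2
        left
        rwa [← h1, ← h2]
      · dsimp only at h1 h2
        right
        change (b, a) ∈ O
        rwa [← h1, ← h2]
    · rintro (h | h)
      · exact ⟨_, h, rfl⟩
      · exact ⟨_, h, SP.mk_comm _ _⟩
  rw [this]
  exact hO.union (hO.preimage continuous_swap)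

theorem sq_surj : Function.Surjective (sq (X := X)) := fun p => by
  obtain ⟨a, b, rfl⟩ := SP.ind p
  exact ⟨(a, b), rfl⟩

/-- the projection over a subset of the symmetric square, times a space -/
def sqI (W : Set (SP X)) (T : Type) [TopologicalSpace T] : C((sq ⁻¹' W : Set (X × X)) × T, W × T) :=
  ⟨fun p => (⟨sq p.1.1, p.1.2⟩, p.2), by fun_prop⟩

theorem sqI_oq (W : Set (SP X)) (T : Type) [TopologicalSpace T] :
    IsOpenQuotientMap (sqI W T) where
  surjective := by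
    rintro ⟨⟨w, hw⟩, t⟩
    obtain ⟨p, rfl⟩ := sq_surj w
    exact ⟨(⟨p, hw⟩, t), rfl⟩
  continuous := (sqI W T).continuous
  isOpenMap := (sq_open.restrictPreimage W).prodMap IsOpenMap.id

/-- descent of a symmetric map -/
theorem desc (W : Set (SP X)) {T B : Type} [TopologicalSpace T] [TopologicalSpace B]
    (F : C((sq ⁻¹' W : Set (X × X)) × T, B))
    (h : ∀ (a b : X) (h1 : sq (a, b) ∈ W) (h2 : sq (b, a) ∈ W) (t : T),
      F (⟨(a, b), h1⟩, t) = F (⟨(b, a), h2⟩, t)) :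
    ∃ F' : C(W × T, B), ∀ (a b : X) (h1 : sq (a, b) ∈ W) (t : T),
      F' (⟨sq (a, b), h1⟩, t) = F (⟨(a, b), h1⟩, t) := by
  have hs := (sqI_oq W T).surjective
  have key : ∀ x y, sqI W T x = sqI W T y → F x = F y := by
    rintro ⟨⟨⟨a, b⟩, h1⟩, t⟩ ⟨⟨⟨c, d⟩, h2⟩, t'⟩ h3
    have h4 := Prod.ext_iff.1 h3
    have h5 : SP.mk a b = SP.mk c d := congrArg Subtype.val h4.1
    have h6 : t = t' := h4.2
    subst h6
    rcases SP.mk_eq.1 h5 with ⟨rfl, rfl⟩ | ⟨rfl, rfl⟩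
    · rfl
    · exact h _ _ _ _ _
  refine ⟨⟨fun y => F (hs y).choose, ?_⟩, ?_⟩
  · rw [← (sqI_oq W T).continuous_comp_iff]
    have : (fun y => F (hs y).choose) ∘ sqI W T = F := by
      funext x
      exact key _ _ (hs (sqI W T x)).choose_spec
    rw [this]
    exact F.continuous
  · intro a b h1 t
    exact key _ _ (hs (⟨sq (a, b), h1⟩, t)).choose_spec

/-- descent of a symmetric map, without parameter -/
theorem desc0 (W : Set (SP X)) {B : Type} [TopologicalSpace B] (F : C((sq ⁻¹' W : Set (X × X)), B))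
    (h : ∀ (a b : X) (h1 : sq (a, b) ∈ W) (h2 : sq (b, a) ∈ W),
      F ⟨(a, b), h1⟩ = F ⟨(b, a), h2⟩) :
    ∃ F' : C(W, B), ∀ (a b : X) (h1 : sq (a, b) ∈ W), F' ⟨sq (a, b), h1⟩ = F ⟨(a, b), h1⟩ := by
  obtain ⟨F', hF'⟩ := desc W (T := Unit) ⟨fun p => F p.1, by fun_prop⟩ (fun a b h1 h2 _ => h a b h1 h2)
  exact ⟨⟨fun w => F' (w, ()), by fun_prop⟩, fun a b h1 => hF' a b h1 ()⟩

/-- the points of the symmetric square with both points in a set -/
def spS (V : Set X) : Set (SP X) := {p | ∀ a b, p = SP.mk a b → a ∈ V ∧ b ∈ V}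

theorem mem_spS {V : Set X} {a b : X} : SP.mk a b ∈ spS V ↔ a ∈ V ∧ b ∈ V := by
  constructor
  · intro h
    exact h a b rfl
  · rintro ⟨ha, hb⟩ c d h
    rcases SP.mk_eq.1 h with ⟨rfl, rfl⟩ | ⟨rfl, rfl⟩
    · exact ⟨ha, hb⟩
    · exact ⟨hb, ha⟩

theorem spS_eq (V : Set X) : spS V = sq '' (V ×ˢ V) := by
  ext p
  obtain ⟨a, b, rfl⟩ := SP.ind p
  rw [mem_spS]
  constructor
  · intro h
    exact ⟨(a, b), h, rfl⟩
  · rintro ⟨⟨c, d⟩, hc, h⟩
    rcases SP.mk_eq.1 h with ⟨h1, h2⟩ | ⟨h1, h2⟩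
    · dsimp only at h1 h2
      rw [← h1, ← h2]
      exact hc
    · dsimp only at h1 h2
      rw [← h1, ← h2]
      exact ⟨hc.2, hc.1⟩

theorem spS_open {V : Set X} (hV : IsOpen V) : IsOpen (spS V) := by
  rw [spS_eq]
  exact sq_open _ (hV.prod hV)

theorem spS_pc {V : Set X} (hV : IsPathConnected V) : IsPathConnected (spS V) := by
  rw [spS_eq]
  exact (hV.prod hV).image sq.continuous

/-- homotopies act on the symmetric square of a set -/
theorem spS_homotopy {X' : Type} [TopologicalSpace X'] (V : Set X) (V' : Set X')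
    (H : C(V × I, V')) : ∃ K : C(spS V × I, spS V'), ∀ (a b : V) (t : I)
      (h : SP.mk a.1 b.1 ∈ spS V), (K (⟨SP.mk a.1 b.1, h⟩, t)).1 =
        SP.mk (H (a, t)).1 (H (b, t)).1 := by
  obtain ⟨K, hK⟩ := desc (spS V) (T := I) (B := spS V')
    ⟨fun p => ⟨SP.mk (H (⟨p.1.1.1, (mem_spS.1 p.1.2).1⟩, p.2)).1
      (H (⟨p.1.1.2, (mem_spS.1 p.1.2).2⟩, p.2)).1, mem_spS.2 ⟨(H _).2, (H _).2⟩⟩, by
      refine Continuous.subtype_mk (SP.continuous_mk.comp (Continuous.prodMk ?_ ?_)) _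
      · fun_prop
      · fun_prop⟩ (by
      intro a b h1 h2 t
      apply Subtype.ext
      exact SP.mk_comm _ _)
  exact ⟨K, fun a b t h => congrArg Subtype.val (hK a.1 b.1 h t)⟩

/-- maps act on the symmetric square of a set -/
theorem spS_map {X' : Type} [TopologicalSpace X'] (V : Set X) (V' : Set X') (f : C(V, V')) :
    ∃ K : C(spS V, spS V'), ∀ (a b : V) (h : SP.mk a.1 b.1 ∈ spS V),
      (K ⟨SP.mk a.1 b.1, h⟩).1 = SP.mk (f a).1 (f b).1 := by
  obtain ⟨K, hK⟩ := spS_homotopy V V' ⟨fun p => f p.1, by fun_prop⟩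
  exact ⟨⟨fun w => K (w, 0), by fun_prop⟩, fun a b h => hK a b 0 h⟩

theorem spS_ind {V : Set X} (p : spS V) : ∃ (a b : V) (h : SP.mk a.1 b.1 ∈ spS V),
    p = ⟨SP.mk a.1 b.1, h⟩ := by
  obtain ⟨p, hp⟩ := p
  obtain ⟨a, b, rfl⟩ := SP.ind p
  exact ⟨⟨a, (mem_spS.1 hp).1⟩, ⟨b, (mem_spS.1 hp).2⟩, hp, rfl⟩

theorem spS_ctr {V : Set X} (h : Ctr V) : Ctr (spS V) := by
  obtain ⟨x, H, h0, h1⟩ := h
  obtain ⟨K, hK⟩ := spS_homotopy V V H
  refine ⟨⟨SP.mk x.1 x.1, mem_spS.2 ⟨x.2, x.2⟩⟩, K, ?_, ?_⟩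
  · intro y
    obtain ⟨a, b, hab, rfl⟩ := spS_ind y
    apply Subtype.ext
    rw [hK, h0, h0]
  · intro y
    obtain ⟨a, b, hab, rfl⟩ := spS_ind y
    apply Subtype.ext
    rw [hK, h1, h1]

/-- contractible spaces are simply connected -/
theorem Ctr.sc {A : Type} [TopologicalSpace A] (h : Ctr A) : SimplyConnectedSpace A := by
  obtain ⟨x, H, h0, h1⟩ := h
  have : ContractibleSpace A := by
    rw [contractible_iff_id_nullhomotopic]
    exact ⟨x, ⟨⟨⟨fun p => H (p.2, p.1), by fun_prop⟩, fun y => h0 y, fun y => h1 y⟩⟩⟩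
  infer_instance

end

end Run7.h592.DB
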