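import Pool.Agent.Run7.h592.PR4b

/-! The transfer of a double covering. -/

set_option autoImplicit false

open scoped Topology

namespace Run7.h592.DB

open Pool.Agent.Y209.HB

noncomputable section

theorem lpc_Dl (q : ℕ) : LocallyPathConnectedSpace (Dl q) :=
  (convex_stdSimplex ℝ (Fin (q + 1))).locallyPathConnectedSpace

/-- a double covering: the quotient by a free involution -/
structure Dbl {X B : Type} [TopologicalSpace X] [TopologicalSpace B] (σ : C(X, X)) (π : C(X, B)) :
    Prop where
  inv : ∀ x, σ (σ x) = x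
  fr : ∀ x, σ x ≠ x
  quo : Topology.IsQuotientMap π
  eq : ∀ x y, π x = π y ↔ y = x ∨ y = σ x

section Inv

variable {X B : Type} [TopologicalSpace X] [TopologicalSpace B] {σ : C(X, X)} {π : C(X, B)}

/-- the action of the group with two elements -/
@[reducible] def actS (σ : C(X, X)) (hσ : ∀ x, σ (σ x) = x) : MulAction ℤˣ X where
  smul g x := if g = 1 then x else σ x
  one_smul x := if_pos rfl
  mul_smul g h x := by
    have e1 : ∀ y : X, (if (1 : ℤˣ) = 1 then y else σ y) = y := fun y => if_pos rfl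
    have e2 : ∀ y : X, (if (-1 : ℤˣ) = 1 then y else σ y) = σ y := fun y => if_neg (by decide)
    change (if g * h = 1 then x else σ x) = (if g = 1 then (if h = 1 then x else σ x) else
      σ (if h = 1 then x else σ x))
    rcases Int.units_eq_one_or g with rfl | rfl <;> rcases Int.units_eq_one_or h with rfl | rfl
    · rw [one_mul, e1, e1]
    · rw [one_mul, e2, e1]
    · rw [mul_one, e2, e1, e2]
    · rw [neg_mul_neg, one_mul, e1, e2, e2, hσ]

variable [T2Space X] (D : Dbl σ π)

include D

theorem Dbl.cov : IsCoveringMap π := by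
  let _ := actS σ D.inv
  have e1 : ∀ x : X, ((1 : ℤˣ) • x) = x := fun x => if_pos rfl
  have e2 : ∀ x : X, ((-1 : ℤˣ) • x) = σ x := fun x => if_neg (by decide)
  apply IsQuotientCoveringMap.isCoveringMap (G := ℤˣ)
  refine (isQuotientCoveringMap_iff _ _).2 ⟨D.quo, ⟨?_⟩, ?_, ?_⟩
  · intro g
    rcases Int.units_eq_one_or g with rfl | rfl
    · simp only [e1]
      exact continuous_id
    · simp only [e2]
      exact σ.continuous
  · intro x y
    rw [D.eq]
    constructor
    · rintro (rfl | rfl)
      · exact ⟨1, e1 _⟩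
      · exact ⟨-1, by
          change (-1 : ℤˣ) • _ = _
          rw [e2, D.inv]⟩
    · rintro ⟨g, hg⟩
      change g • y = x at hg
      rcases Int.units_eq_one_or g with rfl | rfl
      · rw [e1] at hg
        exact Or.inl hg
      · rw [e2] at hg
        right
        rw [← hg, D.inv]
  · intro x
    obtain ⟨U, V, hU, hV, hxU, hxV, hd⟩ := t2_separation (D.fr x).symm
    refine ⟨U ∩ σ ⁻¹' V, Filter.inter_mem (hU.mem_nhds hxU)
      ((hV.preimage σ.continuous).mem_nhds hxV), ?_⟩
    intro g hg
    rcases Int.units_eq_one_or g with rfl | rfl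
    · rfl
    · exfalso
      obtain ⟨y, ⟨z, hz, rfl⟩, hy⟩ := hg
      change (-1 : ℤˣ) • z ∈ _ at hy
      rw [e2] at hy
      exact (Set.disjoint_iff.1 hd) ⟨hy.1, hz.2⟩

theorem Dbl.exists_lif {n : ℕ} (τ : Sing B n) : ∃ F : Sing X n, π.comp F = τ := by
  have := sc_Dl n
  have := lpc_Dl n
  obtain ⟨x, hx⟩ := D.quo.surjective (τ (stdSimplex.vertex 0))
  obtain ⟨F, ⟨-, hF⟩, -⟩ := D.cov.existsUnique_continuousMap_lifts τ
    (stdSimplex.vertex 0) x hx
  exact ⟨F, ContinuousMap.ext fun t => congrFun hF t⟩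

theorem Dbl.lif_unique {n : ℕ} (F F' : Sing X n) (h : π.comp F = π.comp F') :
    F = F' ∨ F = σ.comp F' := by
  have := sc_Dl n
  have h1 : π (F' (stdSimplex.vertex 0)) = π (F (stdSimplex.vertex 0)) :=
    (ContinuousMap.congr_fun h _).symm
  rw [D.eq] at h1
  rcases h1 with h1 | h1
  · left
    apply ContinuousMap.ext
    exact congrFun (D.cov.eq_of_comp_eq F.continuous F'.continuous
      (funext fun t => ContinuousMap.congr_fun h t) _ h1)
  · right
    apply ContinuousMap.ext
    refine congrFun (D.cov.eq_of_comp_eq F.continuous (σ.comp F').continuous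
      (funext fun t => ?_) _ h1)
    have h2 := ContinuousMap.congr_fun h t
    change π (F t) = π (σ (F' t))
    change π (F t) = π (F' t) at h2
    rw [h2]
    exact (D.eq _ _).2 (Or.inr rfl)

/-- the transfer -/
def Dbl.trf (n : ℕ) : (Sing B n →₀ ℚ) →ₗ[ℚ] (Sing X n →₀ ℚ) :=
  Finsupp.linearCombination ℚ (fun τ => Finsupp.single (D.exists_lif τ).choose 1 +
    Finsupp.single (σ.comp (D.exists_lif τ).choose) 1)

theorem Dbl.trf_single (n : ℕ) (F : Sing X n) : D.trf n (Finsupp.single (π.comp F) 1) =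
      Finsupp.single F 1 + Finsupp.single (σ.comp F) 1 := by
  rw [Dbl.trf, Finsupp.linearCombination_single, one_smul]
  have h := (D.exists_lif (π.comp F)).choose_spec
  rcases D.lif_unique _ _ h with h1 | h1
  · rw [h1]
  · rw [h1]
    have : σ.comp (σ.comp F) = F := ContinuousMap.ext fun t => D.inv _
    rw [this, add_comm]

omit D in
omit [TopologicalSpace X] [TopologicalSpace B] [T2Space X] in
/-- linear maps on rational chains are determined by their values on simplices -/
theorem chq_ext {Z M : Type} [TopologicalSpace Z] [AddCommGroup M] [Module ℚ M] {n : ℕ}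
    {f g : (Sing Z n →₀ ℚ) →ₗ[ℚ] M}
    (h : ∀ τ, f (Finsupp.single τ 1) = g (Finsupp.single τ 1)) (z : Sing Z n →₀ ℚ) : f z = g z := by
  have : f = g := by
    apply Finsupp.lhom_ext'
    intro τ
    apply LinearMap.ext_ring
    exact h τ
  rw [this]

theorem Dbl.push_trf (n : ℕ) (z : Sing B n →₀ ℚ) : push π n (D.trf n z) = (2 : ℚ) • z := by
  refine chq_ext (f := (push π n).comp (D.trf n)) (g := (2 : ℚ) • LinearMap.id)
    (fun τ => ?_) z
  obtain ⟨F, rfl⟩ := D.exists_lif τ
  rw [LinearMap.comp_apply, D.trf_single, map_add, push_single, push_single]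
  have : π.comp (σ.comp F) = π.comp F :=
    ContinuousMap.ext fun t => ((D.eq _ _).2 (Or.inr rfl)).symm
  rw [this, LinearMap.smul_apply, LinearMap.id_apply, two_smul]

theorem Dbl.bdry_trf (n : ℕ) (z : Sing B (n + 1) →₀ ℚ) :
    bdry X n (D.trf (n + 1) z) = D.trf n (bdry _ n z) := by
  refine chq_ext (f := (bdry X n).comp (D.trf (n + 1)))
    (g := (D.trf n).comp (bdry _ n)) (fun τ => ?_) z
  obtain ⟨F, rfl⟩ := D.exists_lif τ
  rw [LinearMap.comp_apply, D.trf_single, map_add, bdry_single, bdry_single, LinearMap.comp_apply,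
    bdry_single, map_sum, ← Finset.sum_add_distrib]
  refine Finset.sum_congr rfl fun i _ => ?_
  rw [map_smul, show sface n i (π.comp F) = π.comp (sface n i F) from rfl, D.trf_single,
    smul_add]
  rfl

theorem Dbl.inv_trf (n : ℕ) (z : Sing B n →₀ ℚ) : push σ n (D.trf n z) = D.trf n z := by
  refine chq_ext (f := (push σ n).comp (D.trf n)) (g := D.trf n) (fun τ => ?_) z
  obtain ⟨F, rfl⟩ := D.exists_lif τ
  rw [LinearMap.comp_apply, D.trf_single, map_add, push_single, push_single]
  have : σ.comp (σ.comp F) = F := ContinuousMap.ext fun t => D.inv _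
  rw [this, add_comm]

theorem Dbl.trf_cyc (n : ℕ) {z : Sing B n →₀ ℚ} (hz : z ∈ Cyc B n) : D.trf n z ∈ Cyc X n := by
  cases n with
  | zero => exact Submodule.mem_top
  | succ n =>
    change bdry X n _ = 0
    rw [D.bdry_trf, show bdry _ n z = 0 from hz, map_zero]

theorem Dbl.trf_bdy (n : ℕ) {z : Sing B n →₀ ℚ} (hz : z ∈ Bdy B n) : D.trf n z ∈ Bdy X n := by
  obtain ⟨w, rfl⟩ := hz
  exact ⟨D.trf (n + 1) w, D.bdry_trf n w⟩

/-- naturality of the transfer -/
theorem Dbl.trf_nat {X' B' : Type} [TopologicalSpace X'] [TopologicalSpace B'] {σ' : C(X', X')}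
    {π' : C(X', B')} [T2Space X'] (D' : Dbl σ' π') (f : C(X, X')) (g : C(B, B'))
    (h1 : ∀ x, f (σ x) = σ' (f x)) (h2 : ∀ x, g (π x) = π' (f x)) (n : ℕ) (z : Sing B n →₀ ℚ) :
    push f n (D.trf n z) = D'.trf n (push g n z) := by
  refine chq_ext (f := (push f n).comp (D.trf n)) (g := (D'.trf n).comp (push g n))
    (fun τ => ?_) z
  obtain ⟨F, rfl⟩ := D.exists_lif τ
  rw [LinearMap.comp_apply, D.trf_single, map_add, push_single, push_single,
    LinearMap.comp_apply, push_single]
  have e1 : g.comp (π.comp F) = π'.comp (f.comp F) := ContinuousMap.ext fun t => h2 _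
  have e2 : f.comp (σ.comp F) = σ'.comp (f.comp F) := ContinuousMap.ext fun t => h1 _
  rw [e1, e2, D'.trf_single]

end Inv

/-- Comparison of two double coverings: `X → X'` equivariant, `s : X' → X` such that the composition
`X → X' → X` is homotopically the average of the identity and the involution, and `X' → X → X'`
is homotopic to the identity. -/
theorem HE_of_dbl {X B X' B' : Type} [TopologicalSpace X] [TopologicalSpace B]
    [TopologicalSpace X'] [TopologicalSpace B'] [T2Space X] [T2Space X'] {σ : C(X, X)}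
    {π : C(X, B)} {σ' : C(X', X')} {π' : C(X', B')} (D : Dbl σ π) (D' : Dbl σ' π')
    (f : C(X, X')) (g : C(B, B')) (h1 : ∀ x, f (σ x) = σ' (f x)) (h2 : ∀ x, g (π x) = π' (f x))
    (s : C(X', X))
    (hs : ∀ (n : ℕ) (z : Sing X n →₀ ℚ), z ∈ Cyc X n →
      z + push σ n z - (2 : ℚ) • push (s.comp f) n z ∈ Bdy X n)
    (H : C(X' × I, X')) (h0 : ∀ x, H (x, 0) = x) (hH : ∀ x, H (x, 1) = f (s x)) : HE g := by
  intro n
  constructor
  · intro z hz hb
    have c1 := D.trf_cyc n hz
    have c2 := D'.trf_bdy n hb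
    rw [← D.trf_nat D' f g h1 h2] at c2
    have c3 := hs n _ c1
    rw [D.inv_trf, ← push_push] at c3
    have c4 := Submodule.smul_mem _ (2 : ℚ) (push_mem_Bdy s n _ c2)
    have c5 := Submodule.smul_mem _ (1 / 4 : ℚ) (push_mem_Bdy π n _ (Submodule.add_mem _ c3 c4))
    convert c5 using 1
    rw [sub_add_cancel, map_add, D.push_trf, ← add_smul, smul_smul]
    norm_num
  · intro y hy
    have c1 := D'.trf_cyc n hy
    refine ⟨(1 / 2 : ℚ) • push π n (push s n (D'.trf n y)), Submodule.smul_mem _ _
      (push_mem_Cyc π n _ (push_mem_Cyc s n _ c1)), ?_⟩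
    have c2 := push_sub_mem_of_homotopy H (ContinuousMap.id X') (f.comp s) h0 hH n _ c1
    rw [push_id] at c2
    have c3 := Submodule.smul_mem _ (-1 / 2 : ℚ) (push_mem_Bdy π' n _ c2)
    convert c3 using 1
    have e : g.comp π = π'.comp f := ContinuousMap.ext h2
    rw [map_sub, D'.push_trf, map_smul, push_push, push_push, push_push, e,
      ContinuousMap.comp_assoc, smul_sub, smul_smul]
    norm_num
    abel

end

end Run7.h592.DB
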