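import Pool.Agent.Run7.h592.PSP
import Pool.Agent.Run7.h592.PT2a

/-!
# Piece T2b: the symmetric square of the 3-sphere is simply connected
-/

set_option autoImplicit false

open scoped Topology

namespace Run7.h592

open Pool.Agent.Y209.HB

noncomputable section

namespace PT2b

open SPx

theorem finrank_quat : Module.finrank ℝ (Quaternion ℝ) = 4 := Quaternion.finrank_eq_four

/-- The orthogonal complement of a unit vector. -/
abbrev orth (c : G) : Submodule ℝ (Quaternion ℝ) := (Submodule.span ℝ {c.1})ᗮ

theorem norm_c (c : G) : ‖c.1‖ = 1 := norm_eq_of_mem_sphere c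

/-- the stereographic projection -/
def ste (c : G) : OpenPartialHomeomorph G (orth c) := stereographic (norm_c c)

theorem ste_source (c : G) : (ste c).source = {c}ᶜ := stereographic_source (norm_c c)

theorem ste_target (c : G) : (ste c).target = Set.univ := stereographic_target (norm_c c)

theorem rank_orth (c : G) : 1 < Module.rank ℝ (orth c) := by
  have h : Module.finrank ℝ (orth c) = 3 := by
    have := Submodule.finrank_add_finrank_orthogonal (Submodule.span ℝ {c.1})
    rw [finrank_span_singleton (by
      intro h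
      have := norm_c c
      rw [h] at this
      norm_num at this), finrank_quat] at this
    have h2 : 1 + Module.finrank ℝ (orth c) = 4 := this
    omega
  rw [← Module.finrank_eq_rank, h]
  norm_num

/-- the complement of a point is homeomorphic to a vector space -/
def homC (c : G) : ({c}ᶜ : Set G) ≃ₜ orth c :=
  (Homeomorph.setCongr (ste_source c).symm).trans
    ((ste c).toHomeomorphSourceTarget.trans ((Homeomorph.setCongr (ste_target c)).trans
      (Homeomorph.Set.univ _)))

theorem Ctr_compl (c : G) : Ctr ({c}ᶜ : Set G) :=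
  Ctr_of_homeo (homC c).symm (Ctr_of_contractible (orth c))

theorem pc_compl (c c' : G) (h : c' ≠ c) : IsPathConnected ({c}ᶜ ∩ {c'}ᶜ : Set G) := by
  have h1 : IsPathConnected ({ste c c'}ᶜ : Set (orth c)) :=
    isPathConnected_compl_singleton_of_one_lt_rank (rank_orth c) _
  have h2 : ({c}ᶜ ∩ {c'}ᶜ : Set G) = (ste c).symm '' {ste c c'}ᶜ := by
    ext a
    constructor
    · rintro ⟨h1, h2⟩
      have ha : a ∈ (ste c).source := by rw [ste_source]; exact h1
      have hc' : c' ∈ (ste c).source := by rw [ste_source]; exact h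
      refine ⟨ste c a, ?_, (ste c).left_inv ha⟩
      intro h3
      exact h2 ((ste c).injOn ha hc' h3)
    · rintro ⟨x, hx, rfl⟩
      have hxt : x ∈ (ste c).target := by rw [ste_target]; trivial
      have h3 := (ste c).map_target hxt
      rw [ste_source] at h3
      refine ⟨h3, ?_⟩
      intro h4
      apply hx
      have h5 : (ste c).symm x = c' := h4
      rw [Set.mem_singleton_iff, ← h5, (ste c).right_inv hxt]
  rw [h2]
  apply h1.image'
  exact (ste c).continuousOn_symm.mono (by rw [ste_target]; exact Set.subset_univ _)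

/-- three points -/
def pts (k : Fin 3) : G := ⟨![qmk (-1) 0 0 0, qmk 0 1 0 0, qmk 0 0 1 0] k, by
  fin_cases k
  · exact qmk_mem (by norm_num)
  · exact qmk_mem (by norm_num)
  · exact qmk_mem (by norm_num)⟩

theorem pts_inj : Function.Injective pts := by
  intro i j h
  have h' := congrArg Subtype.val h
  fin_cases i <;> fin_cases j <;> first | rfl | skip
  all_goals
    exfalso
    simp only [pts, Fin.mk_one, Fin.zero_eta, Fin.isValue, Matrix.cons_val_zero,
      Matrix.cons_val_one, Matrix.cons_val, Fin.reduceFinMk] at h'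
    have h1 := congrArg (fun q : Quaternion ℝ => q.re) h'
    have h2 := congrArg (fun q : Quaternion ℝ => q.imI) h'
    simp [qmk] at h1 h2

theorem pts_ne_one (k : Fin 3) : (1 : G) ≠ pts k := by
  intro h
  have h' := congrArg Subtype.val h
  have h1 := congrArg (fun q : Quaternion ℝ => q.re) h'
  have e : ((1 : G) : Quaternion ℝ).re = 1 := rfl
  fin_cases k
  · have e2 : (pts 0 : Quaternion ℝ).re = -1 := rfl
    have h3 : ((1 : G) : Quaternion ℝ).re = (pts 0 : Quaternion ℝ).re := h1
    rw [e, e2] at h3
    norm_num at h3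
  · have e2 : (pts 1 : Quaternion ℝ).re = 0 := rfl
    have h3 : ((1 : G) : Quaternion ℝ).re = (pts 1 : Quaternion ℝ).re := h1
    rw [e, e2] at h3
    norm_num at h3
  · have e2 : (pts 2 : Quaternion ℝ).re = 0 := rfl
    have h3 : ((1 : G) : Quaternion ℝ).re = (pts 2 : Quaternion ℝ).re := h1
    rw [e, e2] at h3
    norm_num at h3

theorem main : SimplyConnectedSpace (SP G) := by
  have hop : ∀ k, IsOpen ({pts k}ᶜ : Set G) := fun k => isOpen_compl_singleton
  refine p_T2a (SP G) (Fin 3) (fun k => spS ({pts k}ᶜ)) (SP.mk 1 1) (fun k => spS_open (hop k))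
    ?_ ?_ ?_ ?_
  · intro p
    obtain ⟨a, b, rfl⟩ := exists_mk p
    simp only [mk_mem_spS, Set.mem_compl_iff, Set.mem_singleton_iff]
    by_contra hcon
    push Not at hcon
    have h0 := hcon 0
    have h1 := hcon 1
    have h2 := hcon 2
    have e01 : pts 0 ≠ pts 1 := fun h => absurd (pts_inj h) (by decide)
    have e02 : pts 0 ≠ pts 2 := fun h => absurd (pts_inj h) (by decide)
    have e12 : pts 1 ≠ pts 2 := fun h => absurd (pts_inj h) (by decide)
    by_cases ha0 : a = pts 0
    · have hb1 : b = pts 1 := h1 (by rw [ha0]; exact e01)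
      have hb2 : b = pts 2 := h2 (by rw [ha0]; exact e02)
      exact e12 (hb1.symm.trans hb2)
    · have hb0 : b = pts 0 := h0 ha0
      by_cases ha1 : a = pts 1
      · have hb2 : b = pts 2 := h2 (by rw [ha1]; exact e12)
        exact e02 (hb0.symm.trans hb2)
      · have hb1 : b = pts 1 := h1 ha1
        exact e01 (hb0.symm.trans hb1)
  · intro k
    rw [mk_mem_spS]
    exact ⟨pts_ne_one k, pts_ne_one k⟩
  · intro k
    exact sc_of_homeo (homS (hop k)) (sc_of_Ctr (Ctr_SP (Ctr_compl (pts k))))
  · intro i j
    rw [spS_inter]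
    apply spS_pc
    by_cases h : j = i
    · rw [h, Set.inter_self]
      have := contractible_of_Ctr (Ctr_compl (pts i))
      exact isPathConnected_iff_pathConnectedSpace.2 inferInstance
    · exact pc_compl (pts i) (pts j) (fun h' => h (pts_inj h'))

end PT2b

/-- T2b -/
theorem p_T2b : S_T2b := PT2b.main

end

end Run7.h592
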