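import Pool.Agent.Run7.h592.DBR
import Pool.Agent.Run7.h592.DBS
import Pool.Agent.Run7.h592.DBT
import Pool.Agent.Run7.h592.PT2b

/-! Maps for the symmetric square of the 3-sphere. -/

set_option autoImplicit false

open scoped Topology

namespace Run7.h592.DB

open Pool.Agent.Y209.HB

noncomputable section

/-! ## imaginary parts -/

theorem sq3 (a b c : ℝ) (h : 0 = a ^ 2 + b ^ 2 + c ^ 2) : a = 0 ∧ b = 0 ∧ c = 0 := by
  have ha := sq_nonneg a
  have hb := sq_nonneg b
  have hc := sq_nonneg c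
  refine ⟨?_, ?_, ?_⟩
  · exact pow_eq_zero_iff (two_ne_zero) |>.1 (by linarith)
  · exact pow_eq_zero_iff (two_ne_zero) |>.1 (by linarith)
  · exact pow_eq_zero_iff (two_ne_zero) |>.1 (by linarith)

/-- the square of the norm of the imaginary part -/
def nim (a : G) : ℝ := a.1.imI ^ 2 + a.1.imJ ^ 2 + a.1.imK ^ 2

theorem cI : Continuous fun a : G => a.1.imI :=
  Quaternion.continuous_imI.comp continuous_subtype_val

theorem cJ : Continuous fun a : G => a.1.imJ :=
  Quaternion.continuous_imJ.comp continuous_subtype_val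

theorem cK : Continuous fun a : G => a.1.imK :=
  Quaternion.continuous_imK.comp continuous_subtype_val

theorem cR : Continuous fun a : G => a.1.re :=
  Quaternion.continuous_re.comp continuous_subtype_val

theorem continuous_nim : Continuous nim := ((cI.pow 2).add (cJ.pow 2)).add (cK.pow 2)

theorem nim_eq (a : G) : nim a = 1 - a.1.re ^ 2 := by
  have := G.eq a
  unfold nim
  linarith

/-- the quaternions different from `1` and `-1` -/
def KK : Set G := {1}ᶜ ∩ {-1}ᶜ

theorem nim_pos {a : G} (h : a ∈ KK) : 0 < nim a := by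
  have h0 : 0 ≤ nim a := by
    unfold nim
    positivity
  rcases eq_or_lt_of_le h0 with h' | h'
  · exfalso
    have hG := G.eq a
    obtain ⟨e0, e1, e2⟩ := sq3 a.1.imI a.1.imJ a.1.imK h'
    have h4 : a.1.re ^ 2 = 1 := by
      rw [e0, e1, e2] at hG
      linarith
    have h6 : (a.1.re - 1) * (a.1.re + 1) = 0 := by linear_combination h4
    rcases mul_eq_zero.1 h6 with h5 | h5
    · rw [sub_eq_zero] at h5
      apply h.1
      apply Subtype.ext
      apply Quaternion.ext
      · exact h5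
      · exact e0
      · exact e1
      · exact e2
    · apply h.2
      apply Subtype.ext
      apply Quaternion.ext
      · exact eq_neg_of_add_eq_zero_left h5
      · rw [e0]
        exact neg_zero.symm
      · rw [e1]
        exact neg_zero.symm
      · rw [e2]
        exact neg_zero.symm
  · exact h'

theorem KK_of_nim {a : G} (h : 0 < nim a) : a ∈ KK := by
  constructor
  · rintro rfl
    have h2 : nim (1 : G) = 0 := by
      change (0 : ℝ) ^ 2 + (0 : ℝ) ^ 2 + (0 : ℝ) ^ 2 = 0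
      norm_num
    rw [h2] at h
    exact lt_irrefl _ h
  · rintro rfl
    have h2 : nim (-1 : G) = 0 := by
      change (-0 : ℝ) ^ 2 + (-0 : ℝ) ^ 2 + (-0 : ℝ) ^ 2 = 0
      norm_num
    rw [h2] at h
    exact lt_irrefl _ h

/-- the direction of the imaginary part -/
def imd : C(KK, S2) where
  toFun a := s2mk (a.1.1.imI / √(nim a.1)) (a.1.1.imJ / √(nim a.1)) (a.1.1.imK / √(nim a.1)) (by
    have h := nim_pos a.2
    rw [div_pow, div_pow, div_pow, Real.sq_sqrt h.le, ← add_div, ← add_div,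
      div_eq_one_iff_eq h.ne']
    rfl)
  continuous_toFun := by
    have hc : Continuous fun a : KK => √(nim a.1) :=
      Real.continuous_sqrt.comp (continuous_nim.comp continuous_subtype_val)
    have hne : ∀ a : KK, √(nim a.1) ≠ 0 := fun a => (Real.sqrt_pos.2 (nim_pos a.2)).ne'
    exact S2.cont_mk _ ((cI.comp continuous_subtype_val).div hc hne)
      ((cJ.comp continuous_subtype_val).div hc hne) ((cK.comp continuous_subtype_val).div hc hne)

/-- the exponential -/
def exq : C(S2 × ℝ, G) where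
  toFun p := ⟨qmk (Real.cos p.2) (Real.sin p.2 * p.1.1 0) (Real.sin p.2 * p.1.1 1)
    (Real.sin p.2 * p.1.1 2), qmk_mem (by
    have := S2.eq p.1
    have h2 := Real.cos_sq_add_sin_sq p.2
    linear_combination h2 + Real.sin p.2 ^ 2 * this)⟩
  continuous_toFun := by
    refine Continuous.subtype_mk ?_ _
    have h0 : Continuous fun p : S2 × ℝ => p.1.1 0 := (S2.cont 0).comp continuous_fst
    have h1 : Continuous fun p : S2 × ℝ => p.1.1 1 := (S2.cont 1).comp continuous_fst
    have h2 : Continuous fun p : S2 × ℝ => p.1.1 2 := (S2.cont 2).comp continuous_fst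
    have hs : Continuous fun p : S2 × ℝ => Real.sin p.2 := by fun_prop
    have hc : Continuous fun p : S2 × ℝ => Real.cos p.2 := by fun_prop
    exact continuous_qmk.comp (hc.prodMk ((hs.mul h0).prodMk ((hs.mul h1).prodMk (hs.mul h2))))

/-- the unit imaginary quaternions -/
def imq : C(S2, KK) where
  toFun v := ⟨⟨qmk 0 (v.1 0) (v.1 1) (v.1 2), qmk_mem (by
    have := S2.eq v
    linear_combination this)⟩, KK_of_nim (by
      have : nim ⟨qmk 0 (v.1 0) (v.1 1) (v.1 2), qmk_mem (by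
        have := S2.eq v
        linear_combination this)⟩ = 1 := S2.eq v
      rw [this]
      exact one_pos)⟩
  continuous_toFun := by
    refine Continuous.subtype_mk (Continuous.subtype_mk ?_ _) _
    exact continuous_qmk.comp (continuous_const.prodMk ((S2.cont 0).prodMk ((S2.cont 1).prodMk
      (S2.cont 2))))

theorem nim_imq (v : S2) : nim (imq v).1 = 1 := S2.eq v

theorem imd_imq (v : S2) : imd (imq v) = v := by
  apply S2.ext3
  · change v.1 0 / √(nim (imq v).1) = v.1 0
    rw [nim_imq, Real.sqrt_one, div_one]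
  · change v.1 1 / √(nim (imq v).1) = v.1 1
    rw [nim_imq, Real.sqrt_one, div_one]
  · change v.1 2 / √(nim (imq v).1) = v.1 2
    rw [nim_imq, Real.sqrt_one, div_one]

theorem exq_half (v : S2) : exq (v, Real.pi / 2) = (imq v).1 := by
  apply Subtype.ext
  change qmk (Real.cos (Real.pi / 2)) (Real.sin (Real.pi / 2) * v.1 0)
    (Real.sin (Real.pi / 2) * v.1 1) (Real.sin (Real.pi / 2) * v.1 2) = qmk 0 (v.1 0) (v.1 1) (v.1 2)
  rw [Real.cos_pi_div_two, Real.sin_pi_div_two, one_mul, one_mul, one_mul]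

theorem exq_zero (v : S2) : exq (v, 0) = 1 := by
  apply Subtype.ext
  change qmk (Real.cos 0) (Real.sin 0 * v.1 0) (Real.sin 0 * v.1 1) (Real.sin 0 * v.1 2) = 1
  rw [Real.cos_zero, Real.sin_zero, zero_mul, zero_mul, zero_mul]
  rfl

theorem imq_al2 (v : S2) : (imq v).1 * (imq (al2 v)).1 = 1 := by
  apply Subtype.ext
  change qmk 0 (v.1 0) (v.1 1) (v.1 2) * qmk 0 (- v.1 0) (- v.1 1) (- v.1 2) = 1
  have h := S2.eq v
  have e : (1 : Quaternion ℝ) = qmk 1 0 0 0 := rfl
  rw [e]
  apply Quaternion.ext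
  · simp [qmk]
    linarith
  · simp [qmk]
    ring
  · simp [qmk]
    ring
  · simp [qmk]
    ring

/-- the homotopy from the identity of `KK` to the projection to the imaginary quaternions -/
def kH : C(KK × I, KK) where
  toFun p := ⟨⟨qmk ((1 - (p.2 : ℝ)) * p.1.1.1.re)
    (√((1 - ((1 - (p.2 : ℝ)) * p.1.1.1.re) ^ 2) / nim p.1.1) * p.1.1.1.imI)
    (√((1 - ((1 - (p.2 : ℝ)) * p.1.1.1.re) ^ 2) / nim p.1.1) * p.1.1.1.imJ)
    (√((1 - ((1 - (p.2 : ℝ)) * p.1.1.1.re) ^ 2) / nim p.1.1) * p.1.1.1.imK), qmk_mem (by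
      have h := nim_pos p.1.2
      have h1 := nim_eq p.1.1
      have ht0 := p.2.2.1
      have ht1 := p.2.2.2
      have h4 : 0 ≤ 1 - ((1 - (p.2 : ℝ)) * p.1.1.1.re) ^ 2 := by
        have : (1 - (p.2 : ℝ)) ^ 2 ≤ 1 := by nlinarith
        have h5 : p.1.1.1.re ^ 2 ≤ 1 := by linarith
        rw [mul_pow]
        nlinarith [sq_nonneg (p.1.1.1.re), sq_nonneg (1 - (p.2 : ℝ))]
      have h7 := Real.sq_sqrt (div_nonneg h4 h.le)
      rw [mul_pow (√_), mul_pow (√_), mul_pow (√_), h7]
      have h8 : p.1.1.1.imI ^ 2 + p.1.1.1.imJ ^ 2 + p.1.1.1.imK ^ 2 = nim p.1.1 := rfl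
      have h9 : (1 - ((1 - (p.2 : ℝ)) * p.1.1.1.re) ^ 2) / nim p.1.1 * nim p.1.1 =
        1 - ((1 - (p.2 : ℝ)) * p.1.1.1.re) ^ 2 := div_mul_cancel₀ _ h.ne'
      linear_combination h9 + (1 - ((1 - (p.2 : ℝ)) * p.1.1.1.re) ^ 2) / nim p.1.1 * h8)⟩, by
      apply KK_of_nim
      have h := nim_pos p.1.2
      have h1 := nim_eq p.1.1
      have ht0 := p.2.2.1
      have ht1 := p.2.2.2
      rw [nim_eq]
      change 0 < 1 - ((1 - (p.2 : ℝ)) * p.1.1.1.re) ^ 2
      have : (1 - (p.2 : ℝ)) ^ 2 ≤ 1 := by nlinarith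
      have h5 : p.1.1.1.re ^ 2 < 1 := by linarith
      rw [mul_pow]
      nlinarith [sq_nonneg (p.1.1.1.re), sq_nonneg (1 - (p.2 : ℝ))]⟩
  continuous_toFun := by
    have c0 : Continuous fun p : KK × I => p.1.1.1.re :=
      cR.comp (continuous_subtype_val.comp continuous_fst)
    have c1 : Continuous fun p : KK × I => p.1.1.1.imI :=
      cI.comp (continuous_subtype_val.comp continuous_fst)
    have c2 : Continuous fun p : KK × I => p.1.1.1.imJ :=
      cJ.comp (continuous_subtype_val.comp continuous_fst)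
    have c3 : Continuous fun p : KK × I => p.1.1.1.imK :=
      cK.comp (continuous_subtype_val.comp continuous_fst)
    have cn : Continuous fun p : KK × I => nim p.1.1 :=
      continuous_nim.comp (continuous_subtype_val.comp continuous_fst)
    have ct : Continuous fun p : KK × I => 1 - (p.2 : ℝ) := by fun_prop
    have cs : Continuous fun p : KK × I =>
        √((1 - ((1 - (p.2 : ℝ)) * p.1.1.1.re) ^ 2) / nim p.1.1) :=
      Real.continuous_sqrt.comp ((continuous_const.sub ((ct.mul c0).pow 2)).div cn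
        fun p => (nim_pos p.1.2).ne')
    exact Continuous.subtype_mk (Continuous.subtype_mk (continuous_qmk.comp ((ct.mul c0).prodMk
      ((cs.mul c1).prodMk ((cs.mul c2).prodMk (cs.mul c3))))) _) _

theorem kH_zero (c : KK) : kH (c, 0) = c := by
  have h := nim_pos c.2
  have h4 : (1 - ((1 - ((0 : I) : ℝ)) * c.1.1.re) ^ 2) / nim c.1 = 1 := by
    rw [Set.Icc.coe_zero, sub_zero, one_mul, ← nim_eq, div_self h.ne']
  apply Subtype.ext
  apply Subtype.ext
  change qmk ((1 - ((0 : I) : ℝ)) * c.1.1.re)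
    (√((1 - ((1 - ((0 : I) : ℝ)) * c.1.1.re) ^ 2) / nim c.1) * c.1.1.imI)
    (√((1 - ((1 - ((0 : I) : ℝ)) * c.1.1.re) ^ 2) / nim c.1) * c.1.1.imJ)
    (√((1 - ((1 - ((0 : I) : ℝ)) * c.1.1.re) ^ 2) / nim c.1) * c.1.1.imK) = c.1.1
  rw [h4, Real.sqrt_one, one_mul, one_mul, one_mul, Set.Icc.coe_zero, sub_zero, one_mul]
  rfl

theorem kH_one (c : KK) : kH (c, 1) = imq (imd c) := by
  have h := nim_pos c.2
  have h4 : (1 - ((1 - ((1 : I) : ℝ)) * c.1.1.re) ^ 2) / nim c.1 = 1 / nim c.1 := by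
    rw [Set.Icc.coe_one, sub_self, zero_mul]
    norm_num
  apply Subtype.ext
  apply Subtype.ext
  change qmk ((1 - ((1 : I) : ℝ)) * c.1.1.re)
    (√((1 - ((1 - ((1 : I) : ℝ)) * c.1.1.re) ^ 2) / nim c.1) * c.1.1.imI)
    (√((1 - ((1 - ((1 : I) : ℝ)) * c.1.1.re) ^ 2) / nim c.1) * c.1.1.imJ)
    (√((1 - ((1 - ((1 : I) : ℝ)) * c.1.1.re) ^ 2) / nim c.1) * c.1.1.imK) =
    qmk 0 (c.1.1.imI / √(nim c.1)) (c.1.1.imJ / √(nim c.1)) (c.1.1.imK / √(nim c.1))
  rw [h4, Real.sqrt_div zero_le_one, Real.sqrt_one, Set.Icc.coe_one, sub_self, zero_mul,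
    div_mul_eq_mul_div, div_mul_eq_mul_div, div_mul_eq_mul_div, one_mul, one_mul, one_mul]

end

end Run7.h592.DB
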