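import Pool.Agent.Run7.h592.Util
import Pool.Agent.Run7.h592.PT9

/-! The reflection and the antipodal map of the 2-sphere, with parameters. -/

set_option autoImplicit false

open scoped Topology

namespace Run7.h592.DB

open Pool.Agent.Y209.HB

noncomputable section

/-- homotopies of restricted maps -/
theorem htp_on {X Z : Type} [TopologicalSpace X] [TopologicalSpace Z] (f g : C(X, Z)) {O : Set X}
    {O' : Set Z} (H : C(O × I, O')) (h0 : ∀ x, (H (x, 0)).1 = f x.1)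
    (h1 : ∀ x, (H (x, 1)).1 = g x.1) {n : ℕ} {z : Sing X n →₀ ℚ} (hz : z ∈ sp O n)
    (hc : z ∈ Cyc X n) : push g n z - push f n z ∈ Bd O' n := by
  obtain ⟨z', rfl⟩ := exists_lift hz
  have hz' := mem_Cyc_of_push _ Subtype.val_injective hc
  let f' : C(O, O') := ⟨fun x => H (x, 0), by fun_prop⟩
  let g' : C(O, O') := ⟨fun x => H (x, 1), by fun_prop⟩
  have h2 := push_sub_mem_Bd (push_sub_mem_of_homotopy H f' g' (fun _ => rfl) (fun _ => rfl) n z' hz')
  rw [map_sub, push_push, push_push] at h2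
  have e1 : (sub O').comp f' = f.comp (sub O) := ContinuousMap.ext h0
  have e2 : (sub O').comp g' = g.comp (sub O) := ContinuousMap.ext h1
  rw [e1, e2] at h2
  rwa [push_push, push_push]

theorem S2.eq (v : S2) : v.1 0 ^ 2 + v.1 1 ^ 2 + v.1 2 ^ 2 = 1 := v.2

theorem S2.cont (i : Fin 3) : Continuous fun v : S2 => v.1 i :=
  (continuous_apply i).comp continuous_subtype_val

/-- a point of the 2-sphere -/
def s2mk (a b c : ℝ) (h : a ^ 2 + b ^ 2 + c ^ 2 = 1) : S2 := ⟨![a, b, c], h⟩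

theorem S2.cont_mk {A : Type} [TopologicalSpace A] {a b c : A → ℝ}
    (h : ∀ x, a x ^ 2 + b x ^ 2 + c x ^ 2 = 1) (ha : Continuous a) (hb : Continuous b)
    (hc : Continuous c) : Continuous fun x => s2mk (a x) (b x) (c x) (h x) := by
  refine Continuous.subtype_mk (continuous_pi fun i => ?_) _
  fin_cases i
  · exact ha
  · exact hb
  · exact hc

theorem S2.ext3 {v w : S2} (h0 : v.1 0 = w.1 0) (h1 : v.1 1 = w.1 1) (h2 : v.1 2 = w.1 2) :
    v = w := by
  apply Subtype.ext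
  funext i
  fin_cases i
  · exact h0
  · exact h1
  · exact h2

/-- the reflection -/
def rfl2 : C(S2, S2) where
  toFun v := s2mk (v.1 0) (v.1 1) (- v.1 2) (by rw [neg_sq]; exact v.2)
  continuous_toFun := S2.cont_mk (fun v => by rw [neg_sq]; exact v.2) (S2.cont 0) (S2.cont 1)
    (S2.cont 2).neg

/-- the antipodal map -/
def al2 : C(S2, S2) where
  toFun v := s2mk (- v.1 0) (- v.1 1) (- v.1 2) (by rw [neg_sq, neg_sq, neg_sq]; exact v.2)
  continuous_toFun := S2.cont_mk (fun v => by rw [neg_sq, neg_sq, neg_sq]; exact v.2)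
    (S2.cont 0).neg (S2.cont 1).neg (S2.cont 2).neg

/-- the poles -/
def pole (s : ℝ) (hs : s ^ 2 = 1) : S2 := s2mk 0 0 s (by rw [hs]; norm_num)

/-- the homotopy from the reflection to the antipodal map -/
def rotH : C(S2 × I, S2) where
  toFun p := s2mk (Real.cos (Real.pi * p.2) * p.1.1 0 - Real.sin (Real.pi * p.2) * p.1.1 1)
    (Real.sin (Real.pi * p.2) * p.1.1 0 + Real.cos (Real.pi * p.2) * p.1.1 1) (- p.1.1 2) (by
      have h := S2.eq p.1
      have h2 := Real.cos_sq_add_sin_sq (Real.pi * p.2)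
      linear_combination h + (p.1.1 0 ^ 2 + p.1.1 1 ^ 2) * h2)
  continuous_toFun := by
    have h0 : Continuous fun p : S2 × I => p.1.1 0 := (S2.cont 0).comp continuous_fst
    have h1 : Continuous fun p : S2 × I => p.1.1 1 := (S2.cont 1).comp continuous_fst
    have h2 : Continuous fun p : S2 × I => p.1.1 2 := (S2.cont 2).comp continuous_fst
    refine S2.cont_mk _ ?_ ?_ h2.neg <;> fun_prop

theorem rotH_zero (v : S2) : rotH (v, 0) = rfl2 v := by
  apply S2.ext3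
  · change Real.cos (Real.pi * ((0 : I) : ℝ)) * v.1 0 - Real.sin (Real.pi * ((0 : I) : ℝ)) * v.1 1 =
      v.1 0
    simp
  · change Real.sin (Real.pi * ((0 : I) : ℝ)) * v.1 0 + Real.cos (Real.pi * ((0 : I) : ℝ)) * v.1 1 =
      v.1 1
    simp
  · rfl

theorem rotH_one (v : S2) : rotH (v, 1) = al2 v := by
  apply S2.ext3
  · change Real.cos (Real.pi * ((1 : I) : ℝ)) * v.1 0 - Real.sin (Real.pi * ((1 : I) : ℝ)) * v.1 1 =
      - v.1 0
    simp
  · change Real.sin (Real.pi * ((1 : I) : ℝ)) * v.1 0 + Real.cos (Real.pi * ((1 : I) : ℝ)) * v.1 1 =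
      - v.1 1
    simp
  · rfl

/-- the stereographic contraction, away from the pole `-e` -/
def ster (v : S2) (_ : -1 < v.1 2) (t : I) : S2 :=
  s2mk (2 * ((1 - t) * (v.1 0 / (1 + v.1 2))) / (1 + ((1 - t) * (v.1 0 / (1 + v.1 2))) ^ 2 +
      ((1 - t) * (v.1 1 / (1 + v.1 2))) ^ 2))
    (2 * ((1 - t) * (v.1 1 / (1 + v.1 2))) / (1 + ((1 - t) * (v.1 0 / (1 + v.1 2))) ^ 2 +
      ((1 - t) * (v.1 1 / (1 + v.1 2))) ^ 2))
    ((1 - ((1 - t) * (v.1 0 / (1 + v.1 2))) ^ 2 - ((1 - t) * (v.1 1 / (1 + v.1 2))) ^ 2) /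
      (1 + ((1 - t) * (v.1 0 / (1 + v.1 2))) ^ 2 + ((1 - t) * (v.1 1 / (1 + v.1 2))) ^ 2)) (by
    generalize (1 - (t : ℝ)) * (v.1 0 / (1 + v.1 2)) = x
    generalize (1 - (t : ℝ)) * (v.1 1 / (1 + v.1 2)) = y
    have h1 : 1 + x ^ 2 + y ^ 2 ≠ 0 := by positivity
    field_simp
    ring)

theorem ster_gt (v : S2) (h : -1 < v.1 2) (t : I) : -1 < (ster v h t).1 2 := by
  change -1 < (1 - ((1 - (t : ℝ)) * (v.1 0 / (1 + v.1 2))) ^ 2 -
    ((1 - (t : ℝ)) * (v.1 1 / (1 + v.1 2))) ^ 2) /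
      (1 + ((1 - (t : ℝ)) * (v.1 0 / (1 + v.1 2))) ^ 2 + ((1 - (t : ℝ)) * (v.1 1 / (1 + v.1 2))) ^ 2)
  generalize (1 - (t : ℝ)) * (v.1 0 / (1 + v.1 2)) = x
  generalize (1 - (t : ℝ)) * (v.1 1 / (1 + v.1 2)) = y
  have h1 : 0 < 1 + x ^ 2 + y ^ 2 := by positivity
  rw [lt_div_iff₀ h1]
  linarith

theorem ster_zero (v : S2) (h : -1 < v.1 2) : ster v h 0 = v := by
  have hv := S2.eq v
  have h1 : (1 + v.1 2) ≠ 0 := by linarith
  have h1' : 0 < 1 + v.1 2 := by linarith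
  have h2 : 1 + (v.1 0 / (1 + v.1 2)) ^ 2 + (v.1 1 / (1 + v.1 2)) ^ 2 = 2 / (1 + v.1 2) := by
    field_simp
    linear_combination hv
  have h3 : 1 - (v.1 0 / (1 + v.1 2)) ^ 2 - (v.1 1 / (1 + v.1 2)) ^ 2 =
      2 * v.1 2 / (1 + v.1 2) := by
    field_simp
    linear_combination -hv
  apply S2.ext3
  · change 2 * ((1 - ((0 : I) : ℝ)) * (v.1 0 / (1 + v.1 2))) / (1 + ((1 - ((0 : I) : ℝ)) *
      (v.1 0 / (1 + v.1 2))) ^ 2 + ((1 - ((0 : I) : ℝ)) * (v.1 1 / (1 + v.1 2))) ^ 2) = v.1 0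
    rw [Set.Icc.coe_zero, sub_zero, one_mul, one_mul, h2]
    field_simp
  · change 2 * ((1 - ((0 : I) : ℝ)) * (v.1 1 / (1 + v.1 2))) / (1 + ((1 - ((0 : I) : ℝ)) *
      (v.1 0 / (1 + v.1 2))) ^ 2 + ((1 - ((0 : I) : ℝ)) * (v.1 1 / (1 + v.1 2))) ^ 2) = v.1 1
    rw [Set.Icc.coe_zero, sub_zero, one_mul, one_mul, h2]
    field_simp
  · change (1 - ((1 - ((0 : I) : ℝ)) * (v.1 0 / (1 + v.1 2))) ^ 2 -
      ((1 - ((0 : I) : ℝ)) * (v.1 1 / (1 + v.1 2))) ^ 2) / (1 + ((1 - ((0 : I) : ℝ)) *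
      (v.1 0 / (1 + v.1 2))) ^ 2 + ((1 - ((0 : I) : ℝ)) * (v.1 1 / (1 + v.1 2))) ^ 2) = v.1 2
    rw [Set.Icc.coe_zero, sub_zero, one_mul, one_mul, h2, h3]
    field_simp

theorem ster_one (v : S2) (h : -1 < v.1 2) : ster v h 1 = pole 1 (by norm_num) := by
  apply S2.ext3
  · change 2 * ((1 - ((1 : I) : ℝ)) * (v.1 0 / (1 + v.1 2))) / _ = 0
    simp
  · change 2 * ((1 - ((1 : I) : ℝ)) * (v.1 1 / (1 + v.1 2))) / _ = 0
    simp
  · change (1 - ((1 - ((1 : I) : ℝ)) * (v.1 0 / (1 + v.1 2))) ^ 2 -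
      ((1 - ((1 : I) : ℝ)) * (v.1 1 / (1 + v.1 2))) ^ 2) / (1 + ((1 - ((1 : I) : ℝ)) *
      (v.1 0 / (1 + v.1 2))) ^ 2 + ((1 - ((1 : I) : ℝ)) * (v.1 1 / (1 + v.1 2))) ^ 2) = 1
    simp

/-- the upper part -/
def Up : Set S2 := {v | -1 < v.1 2}

/-- the lower part -/
def Lo : Set S2 := {v | v.1 2 < 1}

theorem Up_open : IsOpen Up := isOpen_lt continuous_const (S2.cont 2)

theorem Lo_open : IsOpen Lo := isOpen_lt (S2.cont 2) continuous_const

theorem UpLo (v : S2) : v ∈ Up ∨ v ∈ Lo := by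
  rcases lt_or_ge (v.1 2) 0 with h | h
  · exact Or.inr (lt_trans h one_pos)
  · exact Or.inl (lt_of_lt_of_le (by norm_num) h)

/-- the contraction of the upper part -/
def UpH : C(Up × I, Up) where
  toFun p := ⟨ster p.1.1 p.1.2 p.2, ster_gt _ _ _⟩
  continuous_toFun := by
    have hne : ∀ p : Up × I, 1 + p.1.1.1 2 ≠ 0 := fun p => by
      have := p.1.2
      change -1 < p.1.1.1 2 at this
      linarith
    have c0 : Continuous fun p : Up × I => (1 - (p.2 : ℝ)) * (p.1.1.1 0 / (1 + p.1.1.1 2)) := by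
      refine (by fun_prop : Continuous fun p : Up × I => 1 - (p.2 : ℝ)).mul
        (Continuous.div ?_ ?_ hne)
      · exact (S2.cont 0).comp (continuous_subtype_val.comp continuous_fst)
      · exact continuous_const.add ((S2.cont 2).comp (continuous_subtype_val.comp continuous_fst))
    have c1 : Continuous fun p : Up × I => (1 - (p.2 : ℝ)) * (p.1.1.1 1 / (1 + p.1.1.1 2)) := by
      refine (by fun_prop : Continuous fun p : Up × I => 1 - (p.2 : ℝ)).mul
        (Continuous.div ?_ ?_ hne)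
      · exact (S2.cont 1).comp (continuous_subtype_val.comp continuous_fst)
      · exact continuous_const.add ((S2.cont 2).comp (continuous_subtype_val.comp continuous_fst))
    refine Continuous.subtype_mk (S2.cont_mk _ ?_ ?_ ?_) _
    · exact (continuous_const.mul c0).div ((continuous_const.add (c0.pow 2)).add (c1.pow 2))
        (fun p => by positivity)
    · exact (continuous_const.mul c1).div ((continuous_const.add (c0.pow 2)).add (c1.pow 2))
        (fun p => by positivity)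
    · exact ((continuous_const.sub (c0.pow 2)).sub (c1.pow 2)).div
        ((continuous_const.add (c0.pow 2)).add (c1.pow 2)) (fun p => by positivity)

theorem rfl2_Lo {v : S2} (h : v ∈ Lo) : rfl2 v ∈ Up := by
  change v.1 2 < 1 at h
  change -1 < - v.1 2
  linarith

theorem rfl2_Up {v : S2} (h : v ∈ Up) : rfl2 v ∈ Lo := by
  change -1 < v.1 2 at h
  change - v.1 2 < 1
  linarith

theorem rfl2_rfl2 (v : S2) : rfl2 (rfl2 v) = v := by
  apply S2.ext3
  · rfl
  · rfl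
  · change - - v.1 2 = v.1 2
    ring

/-- the contraction of the lower part -/
def LoH : C(Lo × I, Lo) where
  toFun p := ⟨rfl2 (UpH (⟨rfl2 p.1.1, rfl2_Lo p.1.2⟩, p.2)).1, rfl2_Up (UpH _).2⟩
  continuous_toFun := by
    refine Continuous.subtype_mk (rfl2.continuous.comp (continuous_subtype_val.comp
      (UpH.continuous.comp (Continuous.prodMk (Continuous.subtype_mk ?_ _) continuous_snd)))) _
    exact rfl2.continuous.comp (continuous_subtype_val.comp continuous_fst)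

theorem conv_aux {x t : ℝ} (h1 : -1 < x) (h2 : x < 1) (h3 : 0 ≤ t) (h4 : t ≤ 1) :
    -1 < (1 - 2 * t) * x ∧ (1 - 2 * t) * x < 1 := by
  rcases eq_or_lt_of_le h4 with rfl | h5
  · constructor <;> linarith
  · have a1 : 0 < (1 - t) * (x + 1) := mul_pos (by linarith) (by linarith)
    have a2 : 0 ≤ t * (1 - x) := mul_nonneg h3 (by linarith)
    have a3 : 0 < (1 - t) * (1 - x) := mul_pos (by linarith) (by linarith)
    have a4 : 0 ≤ t * (x + 1) := mul_nonneg h3 (by linarith)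
    constructor <;> nlinarith

/-- the homotopy from the identity to the reflection away from the poles -/
def bndH : C(↥(Up ∩ Lo) × I, ↥(Up ∩ Lo)) where
  toFun p := ⟨s2mk (√((1 - ((1 - 2 * (p.2 : ℝ)) * p.1.1.1 2) ^ 2) / (1 - p.1.1.1 2 ^ 2)) *
      p.1.1.1 0) (√((1 - ((1 - 2 * (p.2 : ℝ)) * p.1.1.1 2) ^ 2) / (1 - p.1.1.1 2 ^ 2)) *
      p.1.1.1 1) ((1 - 2 * (p.2 : ℝ)) * p.1.1.1 2) (by
      have hv := S2.eq p.1.1
      have h1 : -1 < p.1.1.1 2 := p.1.2.1
      have h2 : p.1.1.1 2 < 1 := p.1.2.2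
      have h3 : 0 < 1 - p.1.1.1 2 ^ 2 := by nlinarith
      have ht0 := p.2.2.1
      have ht1 := p.2.2.2
      have h4 : 0 ≤ 1 - ((1 - 2 * (p.2 : ℝ)) * p.1.1.1 2) ^ 2 := by
        have : (1 - 2 * (p.2 : ℝ)) ^ 2 ≤ 1 := by nlinarith
        have h5 : p.1.1.1 2 ^ 2 ≤ 1 := by linarith
        rw [mul_pow]
        nlinarith [sq_nonneg (p.1.1.1 2), sq_nonneg (1 - 2 * (p.2 : ℝ))]
      have h7 := Real.sq_sqrt (div_nonneg h4 h3.le)
      rw [mul_pow (√_), mul_pow (√_), h7, ← mul_add]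
      have h6 : p.1.1.1 0 ^ 2 + p.1.1.1 1 ^ 2 = 1 - p.1.1.1 2 ^ 2 := by linarith
      rw [h6, div_mul_cancel₀ _ h3.ne']
      ring), by
      have h1 : -1 < p.1.1.1 2 := p.1.2.1
      have h2 : p.1.1.1 2 < 1 := p.1.2.2
      have ht0 := p.2.2.1
      have ht1 := p.2.2.2
      constructor
      · change -1 < (1 - 2 * (p.2 : ℝ)) * p.1.1.1 2
        exact (conv_aux h1 h2 ht0 ht1).1
      · change (1 - 2 * (p.2 : ℝ)) * p.1.1.1 2 < 1
        exact (conv_aux h1 h2 ht0 ht1).2⟩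
  continuous_toFun := by
    have c : ∀ i, Continuous fun p : ↥(Up ∩ Lo) × I => p.1.1.1 i := fun i =>
      (S2.cont i).comp (continuous_subtype_val.comp continuous_fst)
    have ct : Continuous fun p : ↥(Up ∩ Lo) × I => (1 - 2 * (p.2 : ℝ)) := by fun_prop
    have hne : ∀ p : ↥(Up ∩ Lo) × I, 1 - p.1.1.1 2 ^ 2 ≠ 0 := fun p => by
      have h1 : -1 < p.1.1.1 2 := p.1.2.1
      have h2 : p.1.1.1 2 < 1 := p.1.2.2
      have h3 : 0 < 1 - p.1.1.1 2 ^ 2 := by nlinarith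
      exact h3.ne'
    have cs : Continuous fun p : ↥(Up ∩ Lo) × I =>
        √((1 - ((1 - 2 * (p.2 : ℝ)) * p.1.1.1 2) ^ 2) / (1 - p.1.1.1 2 ^ 2)) := by
      refine Real.continuous_sqrt.comp (Continuous.div ?_ ?_ hne)
      · exact continuous_const.sub ((ct.mul (c 2)).pow 2)
      · exact continuous_const.sub ((c 2).pow 2)
    exact Continuous.subtype_mk (S2.cont_mk _ (cs.mul (c 0)) (cs.mul (c 1)) (ct.mul (c 2))) _

theorem bndH_zero (v : ↥(Up ∩ Lo)) : (bndH (v, 0)).1 = v.1 := by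
  have h1 : -1 < v.1.1 2 := v.2.1
  have h2 : v.1.1 2 < 1 := v.2.2
  have h3 : 0 < 1 - v.1.1 2 ^ 2 := by nlinarith
  have h4 : (1 - ((1 - 2 * ((0 : I) : ℝ)) * v.1.1 2) ^ 2) / (1 - v.1.1 2 ^ 2) = 1 := by
    rw [Set.Icc.coe_zero, mul_zero, sub_zero, one_mul, div_self h3.ne']
  apply S2.ext3
  · change √((1 - ((1 - 2 * ((0 : I) : ℝ)) * v.1.1 2) ^ 2) / (1 - v.1.1 2 ^ 2)) * v.1.1 0 = _
    rw [h4, Real.sqrt_one, one_mul]
  · change √((1 - ((1 - 2 * ((0 : I) : ℝ)) * v.1.1 2) ^ 2) / (1 - v.1.1 2 ^ 2)) * v.1.1 1 = _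
    rw [h4, Real.sqrt_one, one_mul]
  · change (1 - 2 * ((0 : I) : ℝ)) * v.1.1 2 = _
    simp

theorem bndH_one (v : ↥(Up ∩ Lo)) : (bndH (v, 1)).1 = rfl2 v.1 := by
  have h1 : -1 < v.1.1 2 := v.2.1
  have h2 : v.1.1 2 < 1 := v.2.2
  have h3 : 0 < 1 - v.1.1 2 ^ 2 := by nlinarith
  have h5 : (1 - 2 * ((1 : I) : ℝ)) * v.1.1 2 = - v.1.1 2 := by
    rw [Set.Icc.coe_one]
    ring
  have h4 : (1 - ((1 - 2 * ((1 : I) : ℝ)) * v.1.1 2) ^ 2) / (1 - v.1.1 2 ^ 2) = 1 := by
    rw [h5, neg_sq, div_self h3.ne']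
  apply S2.ext3
  · change √((1 - ((1 - 2 * ((1 : I) : ℝ)) * v.1.1 2) ^ 2) / (1 - v.1.1 2 ^ 2)) * v.1.1 0 = v.1.1 0
    rw [h4, Real.sqrt_one, one_mul]
  · change √((1 - ((1 - 2 * ((1 : I) : ℝ)) * v.1.1 2) ^ 2) / (1 - v.1.1 2 ^ 2)) * v.1.1 1 = v.1.1 1
    rw [h4, Real.sqrt_one, one_mul]
  · exact h5

/-! ## The reflection formula -/

section Par

variable (X : Type) [TopologicalSpace X]

/-- a map of the second factor -/
abbrev sec2 (f : C(S2, S2)) : C(X × S2, X × S2) := (ContinuousMap.id X).prodMap f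

/-- a homotopy of the second factor -/
def sec2H {A B : Set S2} (H : C(A × I, B)) :
    C((Prod.snd ⁻¹' A : Set (X × S2)) × I, (Prod.snd ⁻¹' B : Set (X × S2))) :=
  ⟨fun p => ⟨(p.1.1.1, (H (⟨p.1.1.2, p.1.2⟩, p.2)).1), (H _).2⟩, by fun_prop⟩

variable {X}

/-- the point -/
def e3 : S2 := pole 1 (by norm_num)

theorem UpH_zero (v : Up) : (UpH (v, 0)).1 = v.1 := ster_zero v.1 v.2

theorem UpH_one (v : Up) : (UpH (v, 1)).1 = e3 := ster_one v.1 v.2

theorem LoH_zero (v : Lo) : (LoH (v, 0)).1 = v.1 := by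
  change rfl2 (ster (rfl2 v.1) (rfl2_Lo v.2) 0) = v.1
  rw [ster_zero, rfl2_rfl2]

theorem LoH_one (v : Lo) : (LoH (v, 1)).1 = rfl2 e3 := by
  change rfl2 (ster (rfl2 v.1) (rfl2_Lo v.2) 1) = _
  rw [ster_one]
  rfl

theorem refl_succ (n : ℕ) (z : Sing (X × S2) (n + 1) →₀ ℚ) (hz : z ∈ Cyc (X × S2) (n + 1)) :
    z + push (sec2 X rfl2) (n + 1) z -
      (2 : ℚ) • push (sec2 X (ContinuousMap.const S2 e3)) (n + 1) z ∈ Bdy (X × S2) (n + 1) := by
  obtain ⟨u, hu, v, hv, h1, h2, h3⟩ := split_univ (Prod.snd ⁻¹' Up : Set (X × S2))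
    (Prod.snd ⁻¹' Lo) (Up_open.preimage continuous_snd) (Lo_open.preimage continuous_snd)
    (fun p => UpLo p.2) hz
  have h2' : bdry _ n u ∈ Cyc (X × S2) n := Bdy_le_Cyc n ⟨u, rfl⟩
  have h4 : bdry _ n v = - bdry _ n u := by
    rw [eq_neg_iff_add_eq_zero, add_comm]
    exact h3
  -- the band
  have h5 := htp_on (ContinuousMap.id _) (sec2 X rfl2) (sec2H X bndH)
    (fun x => Prod.ext rfl (bndH_zero _)) (fun x => Prod.ext rfl (bndH_one _))
    (O := (Prod.snd ⁻¹' (Up ∩ Lo) : Set (X × S2))) (O' := Prod.snd ⁻¹' (Up ∩ Lo)) h2 h2'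
  rw [push_id] at h5
  obtain ⟨e, he, he2⟩ := h5
  have heU : e ∈ sp (Prod.snd ⁻¹' Up : Set (X × S2)) (n + 1) := sp_mono (fun _ h => h.1) _ he
  have heL : e ∈ sp (Prod.snd ⁻¹' Lo : Set (X × S2)) (n + 1) := sp_mono (fun _ h => h.2) _ he
  have hRv : push (sec2 X rfl2) (n + 1) v ∈ sp (Prod.snd ⁻¹' Up : Set (X × S2)) (n + 1) :=
    push_mem_sp (sec2 X rfl2) (fun p hp => rfl2_Lo hp) hv
  have hRu : push (sec2 X rfl2) (n + 1) u ∈ sp (Prod.snd ⁻¹' Lo : Set (X × S2)) (n + 1) :=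
    push_mem_sp (sec2 X rfl2) (fun p hp => rfl2_Up hp) hu
  set R := push (sec2 X rfl2) (n + 1) with hR
  have ha : u + R v + e ∈ sp (Prod.snd ⁻¹' Up : Set (X × S2)) (n + 1) :=
    Submodule.add_mem _ (Submodule.add_mem _ hu hRv) heU
  have hb : v + R u - e ∈ sp (Prod.snd ⁻¹' Lo : Set (X × S2)) (n + 1) :=
    Submodule.sub_mem _ (Submodule.add_mem _ hv hRu) heL
  have hac : u + R v + e ∈ Cyc (X × S2) (n + 1) := by
    change bdry _ n _ = 0
    rw [map_add, map_add, hR, bdry_push, he2, h4, map_neg]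
    abel
  have hbc : v + R u - e ∈ Cyc (X × S2) (n + 1) := by
    change bdry _ n _ = 0
    rw [map_sub, map_add, hR, bdry_push, he2, h4]
    abel
  have k1 := Bd_le_Bdy _ _ (htp_on (ContinuousMap.id _) (sec2 X (ContinuousMap.const S2 e3))
    (sec2H X UpH) (fun x => Prod.ext rfl (UpH_zero _)) (fun x => Prod.ext rfl (UpH_one _))
    ha hac)
  have k2 := Bd_le_Bdy _ _ (htp_on (ContinuousMap.id _)
    (sec2 X (ContinuousMap.const S2 (rfl2 e3))) (sec2H X LoH) (fun x => Prod.ext rfl (LoH_zero _))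
    (fun x => Prod.ext rfl (LoH_one _)) hb hbc)
  rw [push_id] at k1 k2
  -- the two constant maps
  obtain ⟨γ⟩ : Nonempty (Path (rfl2 e3) e3) := by
    have hp : ∀ t : I, (Real.sin (Real.pi * t)) ^ 2 + 0 ^ 2 + (-Real.cos (Real.pi * t)) ^ 2 = 1 := by
      intro t
      have := Real.sin_sq_add_cos_sq (Real.pi * t)
      linear_combination this
    refine ⟨⟨⟨fun t => s2mk (Real.sin (Real.pi * t)) 0 (-Real.cos (Real.pi * t)) (hp t),
      S2.cont_mk hp (by fun_prop) (by fun_prop) (by fun_prop)⟩, ?_, ?_⟩⟩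
    · apply S2.ext3
      · change Real.sin (Real.pi * ((0 : I) : ℝ)) = 0
        simp
      · rfl
      · change - Real.cos (Real.pi * ((0 : I) : ℝ)) = - 1
        simp
    · apply S2.ext3
      · change Real.sin (Real.pi * ((1 : I) : ℝ)) = 0
        simp
      · rfl
      · change - Real.cos (Real.pi * ((1 : I) : ℝ)) = 1
        simp
  have k3 := push_sub_mem_of_homotopy (⟨fun p => (p.1.1, γ p.2), by fun_prop⟩ :
    C((X × S2) × I, X × S2)) (sec2 X (ContinuousMap.const S2 (rfl2 e3)))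
    (sec2 X (ContinuousMap.const S2 e3)) (fun x => Prod.ext rfl γ.source)
    (fun x => Prod.ext rfl γ.target) (n + 1) (v + R u - e) hbc
  have k4 := push_mem_Bdy (sec2 X (ContinuousMap.const S2 e3)) (n + 1) _ h1
  have k5 := push_mem_Bdy (sec2 X rfl2) (n + 1) _ h1
  rw [← hR] at k5
  set Q := push (sec2 X (ContinuousMap.const S2 e3)) (n + 1) with hQ
  have hQR : ∀ w, Q (R w) = Q w := by
    intro w
    rw [hQ, hR, push_push]
    rfl
  rw [map_sub, map_add] at k4 k5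
  have k6 := Submodule.sub_mem _ (Submodule.add_mem _ h1 k5)
    (Submodule.add_mem _ (Submodule.add_mem _ (Submodule.add_mem _ k1 k2) k3)
      (Submodule.add_mem _ k4 k4))
  convert k6 using 1
  simp only [map_add, map_sub, hQR, two_smul]
  abel

theorem refl_zero (z : Sing (X × S2) 0 →₀ ℚ) :
    z + push (sec2 X rfl2) 0 z - (2 : ℚ) • push (sec2 X (ContinuousMap.const S2 e3)) 0 z ∈
      Bdy (X × S2) 0 := by
  have key : ∀ z : Sing (X × S2) 0 →₀ ℚ, z - push (sec2 X (ContinuousMap.const S2 e3)) 0 z ∈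
      Bdy (X × S2) 0 := by
    intro z
    induction z using Finsupp.induction_linear with
    | zero => simp
    | add a b ha hb =>
      have := Submodule.add_mem _ ha hb
      rw [map_add]
      convert this using 1
      abel
    | single σ c =>
      have e1 : Finsupp.single σ c = c • Finsupp.single σ (1 : ℚ) := by simp
      rw [e1, map_smul, ← smul_sub]
      apply Submodule.smul_mem
      have h1 : Finsupp.single (cs (σ v0).2 0) (1 : ℚ) - Finsupp.single (cs e3 0) 1 ∈ Bdy S2 0 := by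
        apply p_T9.2.2.2.2.1
        rw [map_sub, ep_single, ep_single, sub_self]
      have h2 := push_mem_Bdy ((ContinuousMap.const S2 (σ v0).1).prodMk (ContinuousMap.id S2)) 0 _ h1
      rw [map_sub, push_single, push_single] at h2
      rw [push_single]
      convert h2 using 3
      · ext t
        · change (σ t).1 = (σ v0).1
          rw [dl0_eq t]
        · rw [dl0_eq t]
          rfl
      · ext t
        · change (σ t).1 = (σ v0).1
          rw [dl0_eq t]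
        · rfl
  have h1 := key z
  have h2 := key (push (sec2 X rfl2) 0 z)
  rw [push_push] at h2
  have e : (sec2 X (ContinuousMap.const S2 e3)).comp (sec2 X rfl2) =
    sec2 X (ContinuousMap.const S2 e3) := rfl
  rw [e] at h2
  have h3 := Submodule.add_mem _ h1 h2
  convert h3 using 1
  rw [two_smul]
  abel

/-- the antipodal formula -/
theorem anti (n : ℕ) (z : Sing (X × S2) n →₀ ℚ) (hz : z ∈ Cyc (X × S2) n) :
    z + push (sec2 X al2) n z - (2 : ℚ) • push (sec2 X (ContinuousMap.const S2 e3)) n z ∈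
      Bdy (X × S2) n := by
  have h1 : z + push (sec2 X rfl2) n z -
      (2 : ℚ) • push (sec2 X (ContinuousMap.const S2 e3)) n z ∈ Bdy (X × S2) n := by
    cases n with
    | zero => exact refl_zero z
    | succ n => exact refl_succ n z hz
  have h2 := push_sub_mem_of_homotopy (⟨fun p => (p.1.1, rotH (p.1.2, p.2)), by
    have := rotH.continuous
    fun_prop⟩ : C((X × S2) × I, X × S2)) (sec2 X rfl2) (sec2 X al2)
    (fun x => Prod.ext rfl (rotH_zero _)) (fun x => Prod.ext rfl (rotH_one _)) n z hz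
  have h3 := Submodule.add_mem _ h1 h2
  convert h3 using 1
  abel

end Par

end

end Run7.h592.DB
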