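import Pool.Agent.Run7.h592.DBM

/-! T1b: the diagonal of the symmetric square of the 3-sphere. -/

set_option autoImplicit false

open scoped Topology

namespace Run7.h592.DB

open Pool.Agent.Y209.HB

noncomputable section

/-- concatenation of homotopies -/
def catH {A B : Type} [TopologicalSpace A] [TopologicalSpace B] (H K : C(A × I, B))
    (h : ∀ x, H (x, 1) = K (x, 0)) : C(A × I, B) where
  toFun p := if (p.2 : ℝ) ≤ 1 / 2 then H (p.1, Set.projIcc 0 1 zero_le_one (2 * (p.2 : ℝ)))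
    else K (p.1, Set.projIcc 0 1 zero_le_one (2 * (p.2 : ℝ) - 1))
  continuous_toFun := by
    refine Continuous.if_le (by fun_prop) (by fun_prop) (by fun_prop) (by fun_prop) ?_
    intro p hp
    rw [hp]
    have e1 : Set.projIcc (0 : ℝ) 1 zero_le_one (2 * (1 / 2)) = 1 := by
      rw [Set.projIcc_of_right_le _ (by norm_num)]
      rfl
    have e2 : Set.projIcc (0 : ℝ) 1 zero_le_one (2 * (1 / 2) - 1) = 0 := by
      rw [Set.projIcc_of_le_left _ (by norm_num)]
      rfl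
    rw [e1, e2]
    exact h p.1

theorem catH_zero {A B : Type} [TopologicalSpace A] [TopologicalSpace B] (H K : C(A × I, B))
    (h : ∀ x, H (x, 1) = K (x, 0)) (x : A) : catH H K h (x, 0) = H (x, 0) := by
  change (if ((0 : I) : ℝ) ≤ 1 / 2 then H (x, Set.projIcc 0 1 zero_le_one (2 * ((0 : I) : ℝ)))
    else K (x, Set.projIcc 0 1 zero_le_one (2 * ((0 : I) : ℝ) - 1))) = _
  rw [if_pos (by rw [Set.Icc.coe_zero]; norm_num), Set.Icc.coe_zero, mul_zero,
    Set.projIcc_of_le_left _ (le_refl _)]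
  rfl

theorem catH_one {A B : Type} [TopologicalSpace A] [TopologicalSpace B] (H K : C(A × I, B))
    (h : ∀ x, H (x, 1) = K (x, 0)) (x : A) : catH H K h (x, 1) = K (x, 1) := by
  change (if ((1 : I) : ℝ) ≤ 1 / 2 then H (x, Set.projIcc 0 1 zero_le_one (2 * ((1 : I) : ℝ)))
    else K (x, Set.projIcc 0 1 zero_le_one (2 * ((1 : I) : ℝ) - 1))) = _
  rw [if_neg (by rw [Set.Icc.coe_one]; norm_num), Set.Icc.coe_one,
    Set.projIcc_of_right_le _ (by norm_num)]
  rfl

/-- contraction to a given point -/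
theorem ctr_pt {A : Type} [TopologicalSpace A] (h : Ctr A) (y : A) :
    ∃ H : C(A × I, A), (∀ x, H (x, 0) = x) ∧ ∀ x, H (x, 1) = y := by
  obtain ⟨x₀, H, h0, h1⟩ := h
  refine ⟨catH H ⟨fun p => H (y, unitInterval.symm p.2), by fun_prop⟩ ?_, ?_, ?_⟩
  · intro x
    rw [h1]
    change x₀ = H (y, unitInterval.symm 0)
    rw [unitInterval.symm_zero, h1]
  · intro x
    rw [catH_zero, h0]
  · intro x
    rw [catH_one]
    change H (y, unitInterval.symm 1) = y
    rw [unitInterval.symm_one, h0]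

/-! ## Pairs of points -/

/-- the pairs of distinct points -/
def W2 : Set (SP G) := {p | ∀ a b, p = SP.mk a b → a ≠ b}

/-- the pairs of points which are not antipodal -/
def W1 : Set (SP G) := {p | ∀ a b, p = SP.mk a b → a ≠ -b}

theorem mem_W2 {a b : G} : SP.mk a b ∈ W2 ↔ a ≠ b := by
  constructor
  · intro h
    exact h a b rfl
  · intro h c d hcd
    rcases SP.mk_eq.1 hcd with ⟨rfl, rfl⟩ | ⟨rfl, rfl⟩
    · exact h
    · exact h.symm

theorem mem_W1 {a b : G} : SP.mk a b ∈ W1 ↔ a ≠ -b := by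
  constructor
  · intro h
    exact h a b rfl
  · intro h c d hcd
    rcases SP.mk_eq.1 hcd with ⟨rfl, rfl⟩ | ⟨rfl, rfl⟩
    · exact h
    · intro h1
      apply h
      rw [h1, neg_neg]

theorem W2_open : IsOpen W2 := by
  have : W2 = sq '' {p : G × G | p.1 ≠ p.2} := by
    ext p
    obtain ⟨a, b, rfl⟩ := SP.ind p
    constructor
    · intro h
      exact ⟨(a, b), mem_W2.1 h, rfl⟩
    · rintro ⟨⟨c, d⟩, h, h2⟩
      rw [← h2]
      exact mem_W2.2 h
  rw [this]
  exact sq_open _ (isOpen_ne_fun continuous_fst continuous_snd)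

theorem W1_open : IsOpen W1 := by
  have : W1 = sq '' {p : G × G | p.1 ≠ -p.2} := by
    ext p
    obtain ⟨a, b, rfl⟩ := SP.ind p
    constructor
    · intro h
      exact ⟨(a, b), mem_W1.1 h, rfl⟩
    · rintro ⟨⟨c, d⟩, h, h2⟩
      rw [← h2]
      exact mem_W1.2 h
  rw [this]
  exact sq_open _ (isOpen_ne_fun continuous_fst continuous_snd.neg)

/-- the projection over a subset -/
def prW (W : Set (SP G)) : C((sq ⁻¹' W : Set (G × G)), W) :=
  ⟨fun p => ⟨sq p.1, p.2⟩, by fun_prop⟩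

/-- the exchange -/
def swW (W : Set (SP G)) : C((sq ⁻¹' W : Set (G × G)), (sq ⁻¹' W : Set (G × G))) :=
  ⟨fun p => ⟨(p.1.2, p.1.1), by
    have : sq (p.1.2, p.1.1) = sq p.1 := SP.mk_comm _ _
    change sq (p.1.2, p.1.1) ∈ W
    rw [this]
    exact p.2⟩, by fun_prop⟩

theorem dblW {W : Set (SP G)} (hW : W ⊆ W2) : Dbl (swW W) (prW W) where
  inv _ := rfl
  fr x h := by
    have h1 : x.1.2 = x.1.1 := congrArg (fun y => y.1.1) h
    exact mem_W2.1 (hW x.2) h1.symm
  quo := by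
    have h : IsOpenQuotientMap (prW W) := {
      surjective := by
        rintro ⟨w, hw⟩
        obtain ⟨p, rfl⟩ := sq_surj w
        exact ⟨⟨p, hw⟩, rfl⟩
      continuous := (prW W).continuous
      isOpenMap := sq_open.restrictPreimage W }
    exact h.isQuotientMap
  eq x y := by
    constructor
    · intro h
      have h1 : SP.mk x.1.1 x.1.2 = SP.mk y.1.1 y.1.2 := congrArg Subtype.val h
      rcases SP.mk_eq.1 h1 with ⟨h2, h3⟩ | ⟨h2, h3⟩
      · left
        exact Subtype.ext (Prod.ext h2.symm h3.symm)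
      · right
        exact Subtype.ext (Prod.ext h3.symm h2.symm)
    · rintro (rfl | rfl)
      · rfl
      · exact Subtype.ext (SP.mk_comm _ _)

/-- the preimage of the pairs which are neither equal nor antipodal -/
abbrev XX : Type := (sq ⁻¹' (W1 ∩ W2) : Set (G × G))

/-- the preimage of the pairs of distinct points -/
abbrev XD : Type := (sq ⁻¹' W2 : Set (G × G))

theorem mnegG (a b : G) : a * -b = -(a * b) := Subtype.ext (mul_neg a.1 b.1)

theorem negmG (a b : G) : -a * b = -(a * b) := Subtype.ext (neg_mul a.1 b.1)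

theorem mem_XX {a b : G} : (a, b) ∈ (sq ⁻¹' (W1 ∩ W2) : Set (G × G)) ↔ a⁻¹ * b ∈ KK := by
  constructor
  · rintro ⟨h1, h2⟩
    refine ⟨fun h => mem_W2.1 h2 ?_, fun h => mem_W1.1 h1 ?_⟩
    · have h3 : a⁻¹ * b = 1 := h
      exact inv_mul_eq_one.1 h3
    · have h3 : a⁻¹ * b = -1 := h
      have h4 : b = a * -1 := by rw [← h3, mul_inv_cancel_left]
      change a = -b
      rw [h4, mnegG, mul_one, neg_neg]
  · rintro ⟨h1, h2⟩
    refine ⟨mem_W1.2 fun h => h2 ?_, mem_W2.2 fun h => h1 ?_⟩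
    · have h' : a = -b := h
      rw [h']
      change (-b)⁻¹ * b = -1
      have h5 : (-b)⁻¹ = -(b⁻¹) := by
        rw [inv_eq_iff_mul_eq_one, mnegG, negmG, neg_neg, mul_inv_cancel]
      rw [h5, negmG, inv_mul_cancel]
    · have h' : a = b := h
      rw [h']
      exact inv_mul_cancel b

theorem mem_XD {a b : G} : (a, b) ∈ (sq ⁻¹' W2 : Set (G × G)) ↔ a⁻¹ * b ∈ ({1}ᶜ : Set G) := by
  constructor
  · intro h2 h
    have h3 : a⁻¹ * b = 1 := h
    exact mem_W2.1 h2 (inv_mul_eq_one.1 h3)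
  · intro h1
    refine mem_W2.2 fun h => h1 ?_
    have h' : a = b := h
    rw [h']
    exact inv_mul_cancel b

/-- the point of `XX` with given first point and quotient -/
def mkX : C(G × KK, XX) :=
  ⟨fun p => ⟨(p.1, p.1 * p.2.1), mem_XX.2 (by rw [inv_mul_cancel_left]; exact p.2.2)⟩,
    by fun_prop⟩

/-- the quotient -/
def quX : C(XX, KK) := ⟨fun p => ⟨p.1.1⁻¹ * p.1.2, mem_XX.1 p.2⟩, by fun_prop⟩

theorem mkX_quX (p : XX) : mkX (p.1.1, quX p) = p := by
  apply Subtype.ext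
  refine Prod.ext rfl ?_
  change p.1.1 * (p.1.1⁻¹ * p.1.2) = p.1.2
  rw [mul_inv_cancel_left]

theorem quX_mkX (p : G × KK) : quX (mkX p) = p.2 := by
  apply Subtype.ext
  change p.1⁻¹ * (p.1 * p.2.1) = p.2.1
  rw [inv_mul_cancel_left]

/-- the map from `G × S²` -/
def JJ : C(G × S2, XX) := mkX.comp ((ContinuousMap.id G).prodMap imq)

/-- the map to `G × S²` -/
def GG : C(XX, G × S2) := ⟨fun p => (p.1.1, imd (quX p)), by fun_prop⟩

/-- the section -/
def sX : C(XD, XX) := ⟨fun p => mkX (p.1.1, imq e3), by fun_prop⟩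

/-- the inclusion -/
def fX : C(XX, XD) := ⟨fun p => ⟨p.1, p.2.2⟩, by fun_prop⟩

/-- the inclusion of the quotients -/
def gX : C(↥(W1 ∩ W2), W2) := ⟨fun p => ⟨p.1, p.2.2⟩, by fun_prop⟩

theorem JG_htp (n : ℕ) (z : Sing XX n →₀ ℚ) (hz : z ∈ Cyc XX n) :
    push JJ n (push GG n z) - z ∈ Bdy XX n := by
  have h := push_sub_mem_of_homotopy (⟨fun p => mkX (p.1.1.1, kH (quX p.1, p.2)), by fun_prop⟩ :
    C(XX × I, XX)) (ContinuousMap.id XX) (JJ.comp GG) (fun x => by
      change mkX (x.1.1, kH (quX x, 0)) = x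
      rw [kH_zero, mkX_quX]) (fun x => by
      change mkX (x.1.1, kH (quX x, 1)) = mkX (x.1.1, imq (imd (quX x)))
      rw [kH_one]) n z hz
  rwa [push_id, ← push_push] at h

theorem sJ_htp (n : ℕ) (z : Sing (G × S2) n →₀ ℚ) (hz : z ∈ Cyc (G × S2) n) :
    push JJ n (push (sec2 G al2) n z) - push (swW (W1 ∩ W2)) n (push JJ n z) ∈ Bdy XX n := by
  have h := push_sub_mem_of_homotopy (⟨fun p => JJ (p.1.1 * exq (p.1.2, Real.pi / 2 * (1 - p.2)),
    al2 p.1.2), by fun_prop⟩ : C((G × S2) × I, XX)) ((swW (W1 ∩ W2)).comp JJ)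
    (JJ.comp (sec2 G al2)) (fun x => by
      change JJ (x.1 * exq (x.2, Real.pi / 2 * (1 - ((0 : I) : ℝ))), al2 x.2) =
        swW (W1 ∩ W2) (JJ x)
      rw [Set.Icc.coe_zero, sub_zero, mul_one, exq_half]
      apply Subtype.ext
      refine Prod.ext rfl ?_
      change x.1 * (imq x.2).1 * (imq (al2 x.2)).1 = x.1
      rw [mul_assoc, imq_al2, mul_one]) (fun x => by
      change JJ (x.1 * exq (x.2, Real.pi / 2 * (1 - ((1 : I) : ℝ))), al2 x.2) =
        JJ (x.1, al2 x.2)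
      rw [Set.Icc.coe_one, sub_self, mul_zero, exq_zero, mul_one]) n z hz
  rwa [← push_push, ← push_push] at h

theorem avX (n : ℕ) (z : Sing XX n →₀ ℚ) (hz : z ∈ Cyc XX n) :
    z + push (swW (W1 ∩ W2)) n z - (2 : ℚ) • push (sX.comp fX) n z ∈ Bdy XX n := by
  have a1 := JG_htp n z hz
  have a2 := push_mem_Bdy (swW (W1 ∩ W2)) n _ a1
  have a3 := sJ_htp n _ (push_mem_Cyc GG n z hz)
  have a4 := push_mem_Bdy JJ n _ (anti n _ (push_mem_Cyc GG n z hz))
  have e : push JJ n (push (sec2 G (ContinuousMap.const S2 e3)) n (push GG n z)) =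
      push (sX.comp fX) n z := by
    rw [push_push, push_push]
    rfl
  rw [map_sub, map_add, map_smul, e] at a4
  rw [map_sub] at a2
  have a5 := Submodule.sub_mem _ a4 (Submodule.add_mem _ (Submodule.add_mem _ a1 a2) a3)
  convert a5 using 1
  abel

theorem HE_gX : HE gX := by
  obtain ⟨H, h0, h1⟩ := ctr_pt (A := ({1}ᶜ : Set G)) (Run7.h592.PT2b.Ctr_compl 1) ⟨(imq e3).1, (imq e3).2.1⟩
  refine HE_of_dbl (dblW Set.inter_subset_right) (dblW (le_refl W2)) fX gX (fun _ => rfl)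
    (fun _ => rfl) sX avX ⟨fun p => ⟨(p.1.1.1, p.1.1.1 *
      (H (⟨p.1.1.1⁻¹ * p.1.1.2, mem_XD.1 p.1.2⟩, p.2)).1), mem_XD.2 (by
        rw [inv_mul_cancel_left]; exact (H _).2)⟩, by fun_prop⟩ ?_ ?_
  · intro x
    apply Subtype.ext
    refine Prod.ext rfl ?_
    change x.1.1 * (H (⟨x.1.1⁻¹ * x.1.2, _⟩, 0)).1 = x.1.2
    rw [h0, mul_inv_cancel_left]
  · intro x
    apply Subtype.ext
    refine Prod.ext rfl ?_
    change x.1.1 * (H (⟨x.1.1⁻¹ * x.1.2, _⟩, 1)).1 = x.1.1 * (imq e3).1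
    rw [h1]

end

end Run7.h592.DB
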