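import Mathlib

/-!
# Definitions for MP_2059f1_ag

Complex quasi-projective varieties with their analytic topology, regular maps, singular homology
and cohomology with rational coefficients, rationally elliptic spaces, mixed Hodge structures,
functorial mixed Hodge structures on the cohomology of all quasi-projective varieties.
-/

set_option autoImplicit false

open scoped LinearAlgebra.Projectivization TensorProduct Topology
open CategoryTheory AlgebraicTopology

namespace Run7.h592

noncomputable section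

/-! ## Varieties -/

/-- The analytic topology of the complex projective space with coordinates indexed by `ι`: the
quotient topology from `ℂ^ι ∖ 0`. -/
instance topProj (ι : Type) : TopologicalSpace (ℙ ℂ (ι → ℂ)) :=
  inferInstanceAs (TopologicalSpace (Quotient (projectivizationSetoid ℂ (ι → ℂ))))

/-- The homogeneous polynomial `f` vanishes at the point `p` of projective space. -/
def Van {ι : Type} (f : MvPolynomial ι ℂ) (p : ℙ ℂ (ι → ℂ)) : Prop :=
  MvPolynomial.eval p.rep f = 0

/-- The polynomial is homogeneous (of some degree). -/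
def Hom {ι : Type} (f : MvPolynomial ι ℂ) : Prop := ∃ d : ℕ, f.IsHomogeneous d

/-- `Z` is a quasi-projective subset of projective space: it is the set of the common zeros of the
homogeneous polynomials in a set `S` at which some homogeneous polynomial of a set `T` is
nonzero. -/
def IsQuasiProjective {ι : Type} (Z : Set (ℙ ℂ (ι → ℂ))) : Prop :=
  ∃ S T : Set (MvPolynomial ι ℂ), (∀ f ∈ S, Hom f) ∧ (∀ g ∈ T, Hom g) ∧
    ∀ p, p ∈ Z ↔ (∀ f ∈ S, Van f p) ∧ ∃ g ∈ T, ¬ Van g p

/-- A complex quasi-projective variety. Its analytic space is the subspace `pts` of projective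
space. -/
structure QPVar where
  /-- the index set of the homogeneous coordinates -/
  ι : Type
  fin : Finite ι
  /-- the set of the points -/
  pts : Set (ℙ ℂ (ι → ℂ))
  qp : IsQuasiProjective pts

/-- The map `f` between quasi-projective varieties is regular: near every point it is given by
homogeneous polynomials of the same degree without common zeros. -/
def IsRegular {V V' : QPVar} (f : V.pts → V'.pts) : Prop :=
  ∀ p : V.pts, ∃ (d : ℕ) (F : V'.ι → MvPolynomial V.ι ℂ), (∀ i, (F i).IsHomogeneous d) ∧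
    (∃ i, ¬ Van (F i) p.1) ∧ ∀ (q : V.pts) (h : (fun i => MvPolynomial.eval q.1.rep (F i)) ≠ 0),
      (f q).1 = Projectivization.mk ℂ (fun i => MvPolynomial.eval q.1.rep (F i)) h

/-- The variety is projective: a closed algebraic subset of projective space. -/
def IsProjective (V : QPVar) : Prop :=
  ∃ S : Set (MvPolynomial V.ι ℂ), (∀ f ∈ S, Hom f) ∧ ∀ p, p ∈ V.pts ↔ ∀ f ∈ S, Van f p

/-- The variety is smooth (Jacobian criterion): near each of its points `p` it is the zero set of
finitely many homogeneous polynomials whose gradients at `p` are linearly independent. -/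
def IsSmooth (V : QPVar) : Prop :=
  ∀ p ∈ V.pts, ∃ (c : ℕ) (F : Fin c → MvPolynomial V.ι ℂ), (∀ j, Hom (F j)) ∧
    LinearIndependent ℂ (fun j i => MvPolynomial.eval p.rep (MvPolynomial.pderiv i (F j))) ∧
    ∃ U ∈ 𝓝 p, ∀ q ∈ U, q ∈ V.pts ↔ ∀ j, Van (F j) q

/-! ## Homology, cohomology, rationally elliptic spaces -/

/-- Rational singular homology (Mathlib). -/
abbrev Hlg (X : Type) [TopologicalSpace X] (k : ℕ) : ModuleCat.{0} ℚ :=
  ((singularHomologyFunctor (ModuleCat.{0} ℚ) k).obj (ModuleCat.of ℚ ℚ)).obj (TopCat.of X)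

/-- The map induced on rational singular homology. -/
def hmap {X Y : Type} [TopologicalSpace X] [TopologicalSpace Y] (f : C(X, Y)) (k : ℕ) :
    Hlg X k →ₗ[ℚ] Hlg Y k :=
  (((singularHomologyFunctor (ModuleCat.{0} ℚ) k).obj (ModuleCat.of ℚ ℚ)).map (TopCat.ofHom f)).hom

/-- Rational singular cohomology, as the dual space of rational homology. -/
abbrev Coh (X : Type) [TopologicalSpace X] (k : ℕ) : Type := Module.Dual ℚ (Hlg X k)

/-- The map induced on rational cohomology. -/
def cmap {X Y : Type} [TopologicalSpace X] [TopologicalSpace Y] (f : C(X, Y)) (k : ℕ) :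
    Coh Y k →ₗ[ℚ] Coh X k := (hmap f k).dualMap

/-- `π_{k+2}(X, x) ⊗ ℚ`. -/
abbrev PiQ (X : Type) [TopologicalSpace X] (x : X) (k : ℕ) : Type :=
  ℚ ⊗[ℤ] Additive (HomotopyGroup (Fin (k + 2)) X x)

/-- `X` is rationally elliptic: it is simply connected, and its rational cohomology and its
rational homotopy have finite total dimension. -/
def RationallyElliptic (X : Type) [TopologicalSpace X] : Prop :=
  SimplyConnectedSpace X ∧
  ((∀ k, Module.Finite ℚ (Coh X k)) ∧ ∃ N, ∀ k, N ≤ k → Subsingleton (Coh X k)) ∧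
  ∀ x : X, (∀ k, Module.Finite ℚ (PiQ X x k)) ∧ ∃ N, ∀ k, N ≤ k → Subsingleton (PiQ X x k)

/-! ## Mixed Hodge structures -/

/-- Two filtrations: the weight filtration `W` on the rational vector space `H`, and the Hodge
filtration `F` on `ℂ ⊗ H`. -/
structure Fil (H : Type) [AddCommGroup H] [Module ℚ H] where
  W : ℤ → Submodule ℚ H
  F : ℤ → Submodule ℂ (ℂ ⊗[ℚ] H)

section MHS

variable {H : Type} [AddCommGroup H] [Module ℚ H]

/-- Complex conjugation on `ℂ ⊗ H`. -/
def cj (H : Type) [AddCommGroup H] [Module ℚ H] : ℂ ⊗[ℚ] H →ₗ[ℚ] ℂ ⊗[ℚ] H :=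
  LinearMap.rTensor H ((Complex.conjAe.toLinearMap).restrictScalars ℚ)

theorem cj_smul (c : ℂ) (x : ℂ ⊗[ℚ] H) : cj H (c • x) = (starRingEnd ℂ c) • cj H x := by
  induction x using TensorProduct.induction_on with
  | zero => simp
  | tmul a b => simp [cj, TensorProduct.smul_tmul']
  | add x y hx hy => rw [smul_add, map_add, hx, hy, map_add, smul_add]

/-- The complex conjugate of a subspace of `ℂ ⊗ H`. -/
def cjS (S : Submodule ℂ (ℂ ⊗[ℚ] H)) : Submodule ℂ (ℂ ⊗[ℚ] H) where
  carrier := {x | cj H x ∈ S}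
  add_mem' := by
    intro a b ha hb
    rw [Set.mem_setOf_eq, map_add]
    exact S.add_mem ha hb
  zero_mem' := by simp
  smul_mem' := by
    intro c x hx
    rw [Set.mem_setOf_eq, cj_smul]
    exact S.smul_mem _ hx

/-- `W_n ⊗ ℂ`. -/
def Fil.WC (m : Fil H) (n : ℤ) : Submodule ℂ (ℂ ⊗[ℚ] H) := (m.W n).baseChange ℂ

/-- The preimage in `W_n ⊗ ℂ` of the step `F^p` of the Hodge filtration of `Gr^W_n`. -/
def Fil.G (m : Fil H) (n p : ℤ) : Submodule ℂ (ℂ ⊗[ℚ] H) := (m.F p ⊓ m.WC n) ⊔ m.WC (n - 1)

/-- The preimage in `W_n ⊗ ℂ` of the complex conjugate of the step `F^q` of the Hodge filtration of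
`Gr^W_n`. -/
def Fil.Gc (m : Fil H) (n q : ℤ) : Submodule ℂ (ℂ ⊗[ℚ] H) := (cjS (m.F q) ⊓ m.WC n) ⊔ m.WC (n - 1)

/-- `(W, F)` is a mixed Hodge structure: finite filtrations, such that `F` induces on every
`Gr^W_n` a Hodge structure of weight `n`: `Gr^W_n ⊗ ℂ` is the direct sum of `F^p` and of the
conjugate of `F^{n+1-p}`. -/
structure IsMHS (m : Fil H) : Prop where
  mono : Monotone m.W
  bot : ∃ a, m.W a = ⊥
  top : ∃ b, m.W b = ⊤
  anti : Antitone m.F
  Ftop : ∃ a, m.F a = ⊤
  Fbot : ∃ b, m.F b = ⊥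
  sup : ∀ n p, m.G n p ⊔ m.Gc n (n + 1 - p) = m.WC n
  inf : ∀ n p, m.G n p ⊓ m.Gc n (n + 1 - p) = m.WC (n - 1)

/-- The Hodge number `h^{p,q} = dim Gr_F^p Gr^W_{p+q}`. -/
def hodgeNumber (m : Fil H) (p q : ℤ) : ℕ :=
  Module.finrank ℂ (m.G (p + q) p ⧸ (m.G (p + q) (p + 1)).submoduleOf (m.G (p + q) p))

end MHS

/-- A weight filtration and a Hodge filtration on the cohomology of every quasi-projective
variety. -/
structure HodgeData where
  fil : ∀ (V : QPVar) (k : ℕ), Fil (Coh V.pts k)

/-- A functorial mixed Hodge structure on the cohomology of all complex quasi-projective varieties,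
which is pure of weight `k` on `H^k` of smooth projective varieties. -/
structure IsHodgeTheory (D : HodgeData) : Prop where
  mhs : ∀ V k, IsMHS (D.fil V k)
  functW : ∀ (V V' : QPVar) (f : C(V.pts, V'.pts)), IsRegular (V := V) (V' := V') f →
    ∀ (k : ℕ) (n : ℤ), ∀ x ∈ (D.fil V' k).W n, cmap f k x ∈ (D.fil V k).W n
  functF : ∀ (V V' : QPVar) (f : C(V.pts, V'.pts)), IsRegular (V := V) (V' := V') f →
    ∀ (k : ℕ) (p : ℤ), ∀ x ∈ (D.fil V' k).F p, (cmap f k).baseChange ℂ x ∈ (D.fil V k).F p
  pure : ∀ V, IsProjective V → IsSmooth V → ∀ k : ℕ,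
    (D.fil V k).W k = ⊤ ∧ (D.fil V k).W ((k : ℤ) - 1) = ⊥

end

end Run7.h592
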