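import Pool.Agent.Run7.h592.Defs

/-! Irreducible varieties. -/

set_option autoImplicit false

open scoped LinearAlgebra.Projectivization

namespace Run7.h592

/-- The variety is irreducible: it is nonempty, and if the product of two homogeneous polynomials
vanishes on it, one of them vanishes on it. -/
def IsIrreducibleVar (V : QPVar) : Prop :=
  V.pts.Nonempty ∧ ∀ f g : MvPolynomial V.ι ℂ, Hom f → Hom g →
    (∀ p ∈ V.pts, Van f p ∨ Van g p) → (∀ p ∈ V.pts, Van f p) ∨ ∀ p ∈ V.pts, Van g p

end Run7.h592
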