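import Pool.Agent.Run7.h592.Paths

/-! Families of paths and their homotopies. -/

set_option autoImplicit false

open scoped Topology unitInterval

namespace Run7.h592

noncomputable section

/-- homotopy of maps, in the form of a map on the product with the interval -/
def Hty {X Y : Type} [TopologicalSpace X] [TopologicalSpace Y] (f f' : C(X, Y)) : Prop :=
  ∃ H : C(X × I, Y), (∀ x, H (x, 0) = f x) ∧ ∀ x, H (x, 1) = f' x

theorem hty_iff {X Y : Type} [TopologicalSpace X] [TopologicalSpace Y] (f f' : C(X, Y)) :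
    Hty f f' ↔ ContinuousMap.Homotopic f f' := by
  constructor
  · rintro ⟨H, h0, h1⟩
    exact ⟨⟨H.comp ContinuousMap.prodSwap, fun x => h0 x, fun x => h1 x⟩⟩
  · rintro ⟨F⟩
    exact ⟨F.toContinuousMap.comp ContinuousMap.prodSwap, fun x => F.apply_zero x,
      fun x => F.apply_one x⟩

theorem Hty.trans {X Y : Type} [TopologicalSpace X] [TopologicalSpace Y] {f f' f'' : C(X, Y)}
    (h : Hty f f') (h' : Hty f' f'') : Hty f f'' := by
  rw [hty_iff] at *
  exact h.trans h'

theorem Hty.symm {X Y : Type} [TopologicalSpace X] [TopologicalSpace Y] {f f' : C(X, Y)}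
    (h : Hty f f') : Hty f' f := by
  rw [hty_iff] at *
  exact h.symm

theorem Hty.refl {X Y : Type} [TopologicalSpace X] [TopologicalSpace Y] (f : C(X, Y)) : Hty f f := by
  rw [hty_iff]

section Fam

variable {Z Z' B : Type} [TopologicalSpace Z] [TopologicalSpace Z'] [TopologicalSpace B]

/-- a member of a family -/
def pt (P : C(Z × I, B)) (z : Z) : C(I, B) := ⟨fun s => P (z, s), by fun_prop⟩

@[simp] theorem pt_apply (P : C(Z × I, B)) (z : Z) (s : I) : pt P z s = P (z, s) := rfl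

/-- concatenation of families -/
def catF (P Q : C(Z × I, B)) (h : ∀ z, P (z, 1) = Q (z, 0)) : C(Z × I, B) where
  toFun x := cat (pt P x.1) (pt Q x.1) (h x.1) x.2
  continuous_toFun := Path.trans_continuous_family
    (fun z => (⟨pt P z, rfl, h z⟩ : Path (pt P z 0) (pt Q z 0))) (by
      exact P.continuous) (fun z => (⟨pt Q z, rfl, rfl⟩ : Path (pt Q z 0) (pt Q z 1))) (by
      exact Q.continuous)

/-- reversal of a family -/
def revF (P : C(Z × I, B)) : C(Z × I, B) := ⟨fun x => P (x.1, unitInterval.symm x.2), by fun_prop⟩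

theorem pt_catF (P Q : C(Z × I, B)) (h : ∀ z, P (z, 1) = Q (z, 0)) (z : Z) :
    pt (catF P Q h) z = cat (pt P z) (pt Q z) (h z) := rfl

theorem pt_revF (P : C(Z × I, B)) (z : Z) : pt (revF P) z = rev (pt P z) := rfl

@[simp] theorem catF_zero (P Q : C(Z × I, B)) (h : ∀ z, P (z, 1) = Q (z, 0)) (z : Z) :
    catF P Q h (z, 0) = P (z, 0) := cat_zero (pt P z) (pt Q z) (h z)

@[simp] theorem catF_one (P Q : C(Z × I, B)) (h : ∀ z, P (z, 1) = Q (z, 0)) (z : Z) :
    catF P Q h (z, 1) = Q (z, 1) := cat_one (pt P z) (pt Q z) (h z)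

@[simp] theorem revF_zero (P : C(Z × I, B)) (z : Z) : revF P (z, 0) = P (z, 1) := by simp [revF]

@[simp] theorem revF_one (P : C(Z × I, B)) (z : Z) : revF P (z, 1) = P (z, 0) := by simp [revF]

theorem cat_apply (α β : C(I, B)) (h : α 1 = β 0) (s : I) : cat α β h s =
    if hs : (s : ℝ) ≤ 1 / 2 then α ⟨2 * s, (unitInterval.mul_pos_mem_iff zero_lt_two).2 ⟨s.2.1, hs⟩⟩
      else β ⟨2 * s - 1, unitInterval.two_mul_sub_one_mem_iff.2 ⟨(not_le.1 hs).le, s.2.2⟩⟩ :=
  Path.trans_apply _ _ s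

/-- homotopic families, relative to the end points -/
def FH (P Q : C(Z × I, B)) : Prop := ∃ K : C((Z × I) × I, B), (∀ p, K (p, 0) = P p) ∧
  (∀ p, K (p, 1) = Q p) ∧ (∀ z r, K ((z, 0), r) = P (z, 0)) ∧ ∀ z r, K ((z, 1), r) = P (z, 1)

theorem FH_iff (P Q : C(Z × I, B)) : FH P Q ↔ P.HomotopicRel Q {p | p.2 = 0 ∨ p.2 = 1} := by
  constructor
  · rintro ⟨K, h0, h1, h2, h3⟩
    refine ⟨⟨⟨K.comp ContinuousMap.prodSwap, fun x => h0 x, fun x => h1 x⟩, ?_⟩⟩
    rintro r ⟨z, s⟩ (hs | hs)
    · simp only at hs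
      subst hs
      exact h2 z r
    · simp only at hs
      subst hs
      exact h3 z r
  · rintro ⟨F⟩
    refine ⟨F.toContinuousMap.comp ContinuousMap.prodSwap, fun x => F.apply_zero x,
      fun x => F.apply_one x, ?_, ?_⟩
    · intro z r
      exact F.eq_fst r (x := (z, 0)) (Or.inl rfl)
    · intro z r
      exact F.eq_fst r (x := (z, 1)) (Or.inr rfl)

theorem FH.refl (P : C(Z × I, B)) : FH P P := by
  rw [FH_iff]
  exact ContinuousMap.HomotopicRel.refl P

theorem FH.symm {P Q : C(Z × I, B)} (h : FH P Q) : FH Q P := by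
  rw [FH_iff] at *
  exact h.symm

theorem FH.trans {P Q R : C(Z × I, B)} (h : FH P Q) (h' : FH Q R) : FH P R := by
  rw [FH_iff] at *
  exact h.trans h'

/-- swapping the parameters -/
def swp (K : C((Z × I) × I, B)) : C((Z × I) × I, B) :=
  ⟨fun x => K ((x.1.1, x.2), x.1.2), by fun_prop⟩

theorem FH_cat {P P' Q Q' : C(Z × I, B)} (h : ∀ z, P (z, 1) = Q (z, 0))
    (h' : ∀ z, P' (z, 1) = Q' (z, 0)) (h1 : FH P P') (h2 : FH Q Q') :
    FH (catF P Q h) (catF P' Q' h') := by
  obtain ⟨K, k0, k1, k2, k3⟩ := h1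
  obtain ⟨L, l0, l1, l2, l3⟩ := h2
  have hKL : ∀ z, swp K (z, 1) = swp L (z, 0) := by
    rintro ⟨z, r⟩
    change K ((z, 1), r) = L ((z, 0), r)
    rw [k3, l2, h]
  refine ⟨swp (catF (swp K) (swp L) hKL), ?_, ?_, ?_, ?_⟩
  · rintro ⟨z, s⟩
    change cat (pt (swp K) (z, 0)) (pt (swp L) (z, 0)) _ s = cat (pt P z) (pt Q z) _ s
    congr 1
    apply cat_congr
    · ext s
      exact k0 (z, s)
    · ext s
      exact l0 (z, s)
  · rintro ⟨z, s⟩
    change cat (pt (swp K) (z, 1)) (pt (swp L) (z, 1)) _ s = cat (pt P' z) (pt Q' z) _ s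
    congr 1
    apply cat_congr
    · ext s
      exact k1 (z, s)
    · ext s
      exact l1 (z, s)
  · intro z r
    change catF (swp K) (swp L) hKL ((z, r), 0) = catF P Q h (z, 0)
    rw [catF_zero, catF_zero]
    exact k2 z r
  · intro z r
    change catF (swp K) (swp L) hKL ((z, r), 1) = catF P Q h (z, 1)
    rw [catF_one, catF_one]
    exact l3 z r

theorem FH_rev {P P' : C(Z × I, B)} (h : FH P P') : FH (revF P) (revF P') := by
  obtain ⟨K, k0, k1, k2, k3⟩ := h
  refine ⟨⟨fun x => K ((x.1.1, unitInterval.symm x.1.2), x.2), by fun_prop⟩, ?_, ?_, ?_, ?_⟩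
  · rintro ⟨z, s⟩
    exact k0 _
  · rintro ⟨z, s⟩
    exact k1 _
  · intro z r
    change K ((z, unitInterval.symm 0), r) = _
    rw [unitInterval.symm_zero, k3, revF_zero]
  · intro z r
    change K ((z, unitInterval.symm 1), r) = _
    rw [unitInterval.symm_one, k2, revF_one]

/-- pull back of a family -/
def pbF (u : C(Z', Z)) (P : C(Z × I, B)) : C(Z' × I, B) := ⟨fun x => P (u x.1, x.2), by fun_prop⟩

@[simp] theorem pbF_apply (u : C(Z', Z)) (P : C(Z × I, B)) (z : Z') (s : I) :
    pbF u P (z, s) = P (u z, s) := rfl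

theorem pt_pbF (u : C(Z', Z)) (P : C(Z × I, B)) (z : Z') : pt (pbF u P) z = pt P (u z) := rfl

theorem FH_pb (u : C(Z', Z)) {P P' : C(Z × I, B)} (h : FH P P') : FH (pbF u P) (pbF u P') := by
  obtain ⟨K, k0, k1, k2, k3⟩ := h
  exact ⟨⟨fun x => K ((u x.1.1, x.1.2), x.2), by fun_prop⟩, fun p => k0 _, fun p => k1 _,
    fun z r => k2 _ r, fun z r => k3 _ r⟩

/-- convex combination in the interval -/
def cvx (r a b : I) : I := ⟨(1 - r) * a + r * b, by
  have h1 := r.2; have h2 := a.2; have h3 := b.2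
  constructor
  · have := mul_nonneg (by linarith [h1.2] : 0 ≤ 1 - (r : ℝ)) h2.1
    have := mul_nonneg h1.1 h3.1
    linarith
  · have h4 := mul_le_mul_of_nonneg_left h2.2 (by linarith [h1.2] : 0 ≤ 1 - (r : ℝ))
    have h5 := mul_le_mul_of_nonneg_left h3.2 h1.1
    linarith⟩

theorem continuous_cvx {W : Type} [TopologicalSpace W] {f g h : W → I} (hf : Continuous f)
    (hg : Continuous g) (hh : Continuous h) : Continuous fun w => cvx (f w) (g w) (h w) := by
  unfold cvx
  refine Continuous.subtype_mk ?_ _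
  fun_prop

theorem cvx_zero (a b : I) : cvx 0 a b = a := by
  apply Subtype.ext
  simp [cvx]

theorem cvx_one (a b : I) : cvx 1 a b = b := by
  apply Subtype.ext
  simp [cvx]

theorem cvx_self (r a : I) : cvx r a a = a := by
  apply Subtype.ext
  simp [cvx]
  ring

/-- two reparametrisations of a family are homotopic -/
theorem FH_rep (W : C(Z × I, B)) (φ ψ : C(I, I)) (h0 : φ 0 = ψ 0) (h1 : φ 1 = ψ 1)
    (P Q : C(Z × I, B)) (hP : ∀ z s, P (z, s) = W (z, φ s)) (hQ : ∀ z s, Q (z, s) = W (z, ψ s)) :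
    FH P Q := by
  refine ⟨⟨fun x => W (x.1.1, cvx x.2 (φ x.1.2) (ψ x.1.2)), ?_⟩, ?_, ?_, ?_, ?_⟩
  · refine W.continuous.comp (Continuous.prodMk (by fun_prop) (continuous_cvx (by fun_prop)
      (by fun_prop) (by fun_prop)))
  · rintro ⟨z, s⟩
    change W (z, cvx 0 (φ s) (ψ s)) = P (z, s)
    rw [cvx_zero, hP]
  · rintro ⟨z, s⟩
    change W (z, cvx 1 (φ s) (ψ s)) = Q (z, s)
    rw [cvx_one, hQ]
  · intro z r
    change W (z, cvx r (φ 0) (ψ 0)) = P (z, 0)
    rw [← h0, cvx_self, hP]
  · intro z r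
    change W (z, cvx r (φ 1) (ψ 1)) = P (z, 1)
    rw [← h1, cvx_self, hP]

/-- `P · const ~ P` -/
theorem FH_const (P Q : C(Z × I, B)) (h : ∀ z, P (z, 1) = Q (z, 0)) (hQ : ∀ z s, Q (z, s) = Q (z, 0)) :
    FH (catF P Q h) P := by
  refine FH_rep P ⟨fun s => ⟨min (2 * (s : ℝ)) 1, by
      constructor
      · exact le_min (by linarith [s.2.1]) zero_le_one
      · exact min_le_right _ _⟩, by
      refine Continuous.subtype_mk ?_ _
      fun_prop⟩ (ContinuousMap.id I) ?_ ?_ _ _ ?_ (fun _ _ => rfl)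
  · apply Subtype.ext
    simp
  · apply Subtype.ext
    simp
  · intro z s
    change cat (pt P z) (pt Q z) (h z) s = _
    rw [cat_apply]
    split_ifs with hs
    · change P (z, _) = P (z, _)
      congr 2
      apply Subtype.ext
      change 2 * (s : ℝ) = min (2 * (s : ℝ)) 1
      rw [min_eq_left (by linarith)]
    · change Q (z, _) = P (z, _)
      rw [hQ, ← h]
      congr 2
      apply Subtype.ext
      change (1 : ℝ) = min (2 * (s : ℝ)) 1
      rw [min_eq_right (by linarith)]

/-- `(P · Q⁻¹) · Q ~ P` -/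
theorem FH_triv (P Q : C(Z × I, B)) (h : ∀ z, P (z, 1) = revF Q (z, 0)) :
    FH (catF (catF P (revF Q) h) Q (fun z => by simp)) P := by
  refine FH_rep (catF P (revF Q) h) ⟨fun s => ⟨min (2 * (s : ℝ)) (3 / 2 - s), by
      constructor
      · exact le_min (by linarith [s.2.1]) (by linarith [s.2.2])
      · rcases le_total (s : ℝ) (1 / 2) with hs | hs
        · exact (min_le_left _ _).trans (by linarith)
        · exact (min_le_right _ _).trans (by linarith)⟩, by
      refine Continuous.subtype_mk ?_ _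
      fun_prop⟩ ⟨fun s => ⟨(s : ℝ) / 2, by constructor <;> linarith [s.2.1, s.2.2]⟩, by
      refine Continuous.subtype_mk ?_ _
      fun_prop⟩ ?_ ?_ _ _ ?_ ?_
  · apply Subtype.ext
    change min (2 * ((0 : I) : ℝ)) (3 / 2 - ((0 : I) : ℝ)) = ((0 : I) : ℝ) / 2
    rw [Set.Icc.coe_zero, min_eq_left (by norm_num)]
    norm_num
  · apply Subtype.ext
    change min (2 * ((1 : I) : ℝ)) (3 / 2 - ((1 : I) : ℝ)) = ((1 : I) : ℝ) / 2
    rw [Set.Icc.coe_one, min_eq_right (by norm_num)]
    norm_num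
  · intro z s
    change cat (pt (catF P (revF Q) h) z) (pt Q z) _ s = _
    rw [cat_apply]
    split_ifs with hs
    · change catF P (revF Q) h (z, _) = catF P (revF Q) h (z, _)
      congr 2
      apply Subtype.ext
      change 2 * (s : ℝ) = min (2 * (s : ℝ)) (3 / 2 - s)
      rw [min_eq_left (by linarith)]
    · push Not at hs
      change Q (z, _) = cat (pt P z) (pt (revF Q) z) (h z) _
      have hmin : min (2 * (s : ℝ)) (3 / 2 - s) = 3 / 2 - s := min_eq_right (by linarith)
      rw [cat_apply]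
      split_ifs with h2
      · -- `3/2 - s = 1/2`, so `s = 1`
        change min (2 * (s : ℝ)) (3 / 2 - s) ≤ 1 / 2 at h2
        rw [hmin] at h2
        have hs1 : (s : ℝ) = 1 := le_antisymm s.2.2 (by linarith)
        change Q (z, _) = P (z, _)
        have e1 : (⟨2 * (s : ℝ) - 1, unitInterval.two_mul_sub_one_mem_iff.2 ⟨hs.le, s.2.2⟩⟩ : I) = 1 := by
          apply Subtype.ext
          change 2 * (s : ℝ) - 1 = 1
          rw [hs1]
          norm_num
        rw [e1]
        have e2 := h z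
        rw [revF_zero] at e2
        rw [← e2]
        congr 2
        apply Subtype.ext
        change (1 : ℝ) = 2 * min (2 * (s : ℝ)) (3 / 2 - s)
        rw [hmin, hs1]
        norm_num
      · change Q (z, _) = Q (z, _)
        congr 2
        apply Subtype.ext
        change 2 * (s : ℝ) - 1 = 1 - (2 * min (2 * (s : ℝ)) (3 / 2 - s) - 1)
        rw [hmin]
        ring
  · intro z s
    change P (z, s) = cat (pt P z) (pt (revF Q) z) (h z) _
    rw [cat_apply, dif_pos (by
      change (s : ℝ) / 2 ≤ 1 / 2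
      linarith [s.2.2])]
    change P (z, s) = P (z, _)
    congr 2
    apply Subtype.ext
    change (s : ℝ) = 2 * ((s : ℝ) / 2)
    ring

/-- the intermediate stages of a homotopy of families -/
theorem FH_mid {P : C(Z × I, B)} (K : C((Z × I) × I, B)) (k0 : ∀ p, K (p, 0) = P p)
    (k2 : ∀ z r, K ((z, 0), r) = P (z, 0)) (k3 : ∀ z r, K ((z, 1), r) = P (z, 1)) (z : Z) (r : I) :
    hr (pt P z) (pt (swp K) (z, r)) := by
  refine ⟨k2 z r, k3 z r, ⟨⟨⟨⟨fun x => K ((z, x.2), x.1 * r), by fun_prop⟩, ?_, ?_⟩, ?_⟩⟩⟩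
  · intro s
    change K ((z, s), 0 * r) = P (z, s)
    rw [zero_mul, k0]
  · intro s
    change K ((z, s), 1 * r) = K ((z, s), r)
    rw [one_mul]
  · rintro t s (hs | hs)
    · subst hs
      exact k2 z _
    · rw [Set.mem_singleton_iff] at hs
      subst hs
      exact k3 z _

theorem FH_pt {P Q : C(Z × I, B)} (h : FH P Q) (z : Z) : hr (pt P z) (pt Q z) := by
  obtain ⟨K, k0, k1, k2, k3⟩ := h
  have h1 := FH_mid K k0 k2 k3 z 1
  have h2 : pt (swp K) (z, 1) = pt Q z := by
    ext s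
    exact k1 (z, s)
  rwa [h2] at h1

/-- homotopic paths give homotopic constant families -/
theorem FH_of_hr {α β : C(I, B)} (h : hr α β) :
    FH (⟨fun x => α x.2, by fun_prop⟩ : C(Z × I, B)) ⟨fun x => β x.2, by fun_prop⟩ := by
  obtain ⟨h0, h1, ⟨F⟩⟩ := h
  refine ⟨⟨fun x => F (x.2, x.1.2), by fun_prop⟩, ?_, ?_, ?_, ?_⟩
  · rintro ⟨z, s⟩
    exact F.apply_zero s
  · rintro ⟨z, s⟩
    exact F.apply_one s
  · intro z r
    exact F.source r
  · intro z r
    exact F.target r

end Fam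

/-! ## The simplex as a contractible parameter space -/

section Simp

variable {B : Type} [TopologicalSpace B]

/-- the zeroth vertex -/
def vx (q : ℕ) : Dl q := stdSimplex.vertex 0

/-- the straight-line contraction of the simplex to its zeroth vertex -/
def ctr (q : ℕ) : C(Dl q × I, Dl q) where
  toFun x := ⟨fun i => (1 - (x.2 : ℝ)) * x.1.1 i + (x.2 : ℝ) * (vx q).1 i,
    convex_stdSimplex ℝ _ x.1.2 (vx q).2 (by linarith [x.2.2.2]) x.2.2.1 (by ring)⟩
  continuous_toFun := by
    refine Continuous.subtype_mk (continuous_pi fun i => ?_) _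
    have h1 : Continuous fun x : Dl q × I => x.1.1 i :=
      (continuous_apply i).comp (continuous_subtype_val.comp continuous_fst)
    fun_prop

theorem ctr_zero (q : ℕ) (t : Dl q) : ctr q (t, 0) = t := by
  apply Subtype.ext
  funext i
  simp [ctr]

theorem ctr_one (q : ℕ) (t : Dl q) : ctr q (t, 1) = vx q := by
  apply Subtype.ext
  funext i
  simp [ctr]

/-- Two families of paths over a simplex, with the same constant origin and the same end points,
are homotopic if they are so at a vertex. -/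
theorem FH_simp {q : ℕ} (P P' : C(Dl q × I, B)) (b₀ : B) (h0 : ∀ t, P (t, 0) = b₀)
    (h0' : ∀ t, P' (t, 0) = b₀) (h1 : ∀ t, P (t, 1) = P' (t, 1))
    (hv : hr (pt P (vx q)) (pt P' (vx q))) : FH P P' := by
  -- the end paths
  let S : C(Dl q × I, B) := ⟨fun x => P (ctr q (x.1, unitInterval.symm x.2), 1), by fun_prop⟩
  have hS : ∀ R : C(Dl q × I, B), (∀ t, R (t, 1) = P (t, 1)) → ∀ t,
      (⟨fun x => R (vx q, x.2), by fun_prop⟩ : C(Dl q × I, B)) (t, 1) = S (t, 0) := by
    intro R r1 t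
    change R (vx q, 1) = P (ctr q (t, unitInterval.symm 0), 1)
    rw [unitInterval.symm_zero, ctr_one]
    exact r1 _
  have key : ∀ (R : C(Dl q × I, B)) (_ : ∀ t, R (t, 0) = b₀) (r1 : ∀ t, R (t, 1) = P (t, 1)),
      FH R (catF (⟨fun x => R (vx q, x.2), by fun_prop⟩ : C(Dl q × I, B)) S (hS R r1)) := by
    intro R r0 r1
    let cR : C(Dl q × I, B) := ⟨fun x => R (x.1, 1), by fun_prop⟩
    refine (FH_const R cR (fun t => rfl) (fun t s => rfl)).symm.trans ?_
    -- homotopy between the two concatenations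
    let P1 : C((Dl q × I) × I, B) := ⟨fun x => R (ctr q x.1, x.2), by fun_prop⟩
    let Q1 : C((Dl q × I) × I, B) :=
      ⟨fun x => P (ctr q (x.1.1, x.1.2 * unitInterval.symm x.2), 1), by fun_prop⟩
    have hPQ : ∀ z, P1 (z, 1) = Q1 (z, 0) := by
      rintro ⟨t, r⟩
      change R (ctr q (t, r), 1) = P (ctr q (t, r * unitInterval.symm 0), 1)
      rw [unitInterval.symm_zero, mul_one, r1]
    refine ⟨swp (catF P1 Q1 hPQ), ?_, ?_, ?_, ?_⟩
    · rintro ⟨t, s⟩
      change cat (pt P1 (t, 0)) (pt Q1 (t, 0)) _ s = cat (pt R t) (pt cR t) _ s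
      congr 1
      apply cat_congr
      · ext s
        change R (ctr q (t, 0), s) = R (t, s)
        rw [ctr_zero]
      · ext s
        change P (ctr q (t, 0 * unitInterval.symm s), 1) = R (t, 1)
        rw [zero_mul, ctr_zero, r1]
    · rintro ⟨t, s⟩
      change cat (pt P1 (t, 1)) (pt Q1 (t, 1)) _ s = cat _ (pt S t) _ s
      congr 1
      apply cat_congr
      · ext s
        change R (ctr q (t, 1), s) = R (vx q, s)
        rw [ctr_one]
      · ext s
        change P (ctr q (t, 1 * unitInterval.symm s), 1) = P (ctr q (t, unitInterval.symm s), 1)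
        rw [one_mul]
    · intro t r
      change catF P1 Q1 hPQ ((t, r), 0) = catF R cR _ (t, 0)
      rw [catF_zero, catF_zero]
      change R (ctr q (t, r), 0) = R (t, 0)
      rw [r0, r0]
    · intro t r
      change catF P1 Q1 hPQ ((t, r), 1) = catF R cR _ (t, 1)
      rw [catF_one, catF_one]
      change P (ctr q (t, r * unitInterval.symm 1), 1) = R (t, 1)
      rw [unitInterval.symm_one, mul_zero, ctr_zero, r1]
  refine (key P h0 (fun _ => rfl)).trans (FH.trans ?_ (key P' h0' (fun t => (h1 t).symm)).symm)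
  exact FH_cat _ _ (FH_of_hr hv) (FH.refl S)

end Simp

end

end Run7.h592
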