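import Pool.Agent.Run7.h592.PR2

/-! Squares of paths, Gottlieb commutativity, the action of loops on classes of paths. -/

set_option autoImplicit false

open scoped Topology unitInterval

namespace Run7.h592

open Pool.Agent.Y209.HB

noncomputable section

theorem sc_I2 : SimplyConnectedSpace (I × I) := by
  haveI : ContractibleSpace I :=
    (convex_Icc (0 : ℝ) 1).contractibleSpace ⟨0, Set.left_mem_Icc.2 zero_le_one⟩
  infer_instance

section Sq

variable {B : Type} [TopologicalSpace B]

theorem comp_cat {A : Type} [TopologicalSpace A] (g : C(A, B)) (α β : C(I, A)) (h : α 1 = β 0) :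
    g.comp (cat α β h) = cat (g.comp α) (g.comp β) (congrArg g h) := by
  ext s
  rw [ContinuousMap.comp_apply, cat_apply, cat_apply]
  split_ifs <;> rfl

/-- two paths with the same end points in the square have homotopic images -/
theorem hr_sc {A : Type} [TopologicalSpace A] [SimplyConnectedSpace A] (g : C(A, B))
    (α β : C(I, A)) (h0 : α 0 = β 0) (h1 : α 1 = β 1) : hr (g.comp α) (g.comp β) := by
  apply hr_map
  rw [hr_iff α β rfl rfl h0.symm h1.symm]
  exact SimplyConnectedSpace.paths_homotopic _ _

/-- the two ways around a square -/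
theorem hr_square (K : C(I × I, B)) (α β γ δ : C(I, B)) (hα : ∀ t, α t = K (0, t))
    (hβ : ∀ s, β s = K (s, 1)) (hγ : ∀ s, γ s = K (s, 0)) (hδ : ∀ t, δ t = K (1, t)) :
    hr (cat α β ((hα 1).trans (hβ 0).symm)) (cat γ δ ((hγ 1).trans (hδ 0).symm)) := by
  haveI := sc_I2
  let a : C(I, I × I) := ⟨fun t => (0, t), by fun_prop⟩
  let b : C(I, I × I) := ⟨fun s => (s, 1), by fun_prop⟩
  let c : C(I, I × I) := ⟨fun s => (s, 0), by fun_prop⟩
  let d : C(I, I × I) := ⟨fun t => (1, t), by fun_prop⟩
  have h1 := hr_sc K (cat a b rfl) (cat c d rfl) (by rw [cat_zero, cat_zero]; rfl)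
    (by rw [cat_one, cat_one]; rfl)
  rw [comp_cat, comp_cat] at h1
  have e1 : K.comp a = α := by
    ext t
    exact (hα t).symm
  have e2 : K.comp b = β := by
    ext t
    exact (hβ t).symm
  have e3 : K.comp c = γ := by
    ext t
    exact (hγ t).symm
  have e4 : K.comp d = δ := by
    ext t
    exact (hδ t).symm
  have e5 := cat_congr (congrArg K rfl : (K.comp a) 1 = (K.comp b) 0)
    ((hα 1).trans (hβ 0).symm) e1 e2
  have e6 := cat_congr (congrArg K rfl : (K.comp c) 1 = (K.comp d) 0)
    ((hγ 1).trans (hδ 0).symm) e3 e4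
  rw [e5, e6] at h1
  exact h1

/-- the condition `got` at one point -/
def Got (B : Type) [TopologicalSpace B] : Prop :=
  ∀ (b : B) (γ : Path b b), ∃ H : C(B × I, B), (∀ x, H (x, 0) = x) ∧ (∀ x, H (x, 1) = x) ∧
    ∃ γ' : Path b b, (∀ s, γ' s = H (b, s)) ∧ Path.Homotopic γ' γ

/-- the fundamental group is commutative -/
theorem Got.comm (hB : Got B) {b : B} (p q : Path b b) :
    (p.trans q).Homotopic (q.trans p) := by
  obtain ⟨H, h0, h1, p', hp', hp⟩ := hB b p
  have h2 := hr_square ⟨fun x => H (q x.2, x.1), by fun_prop⟩ q.toContinuousMap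
    p'.toContinuousMap p'.toContinuousMap q.toContinuousMap (fun t => (h0 _).symm) (fun s => by
      change p' s = H (q 1, s)
      rw [q.target, hp']) (fun s => by
      change p' s = H (q 0, s)
      rw [q.source, hp']) (fun t => (h1 _).symm)
  rw [cat_pth, cat_pth, hr_path] at h2
  have h3 := Path.Homotopic.hcomp (Path.Homotopic.refl q) hp
  have h4 := Path.Homotopic.hcomp hp (Path.Homotopic.refl q)
  exact (h4.symm.trans h2.symm).trans h3

end Sq

end

end Run7.h592
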