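import Pool.Agent.H904R2.E
import Pool.Agent.H904R2.SingG
import Pool.Agent.H904R2.Cc
import Pool.Agent.H904R2.Prod

/-! F1, part 1: cohomology of a homology 3-sphere; null homotopies in a simplicial group. -/

set_option autoImplicit false

namespace Run7.h592.SF

open Pool.Agent.H904R2 Finsupp
open Pool.Agent.Helper922.HB.Sc (Sing sface bd sbd)

noncomputable section

section Coh

variable {K : Type} [TopologicalSpace K]

/-- integral homology 3-sphere, with a cocycle and a generator -/
structure H3 (c : Sing K 3 → ℤ) (γ : Ch K 3) : Prop where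
  hc : dlt sface 3 c = 0
  hγ : IsCyc 3 γ
  hcγ : evm c γ ≠ 0
  hgen : ∀ z : Ch K 3, IsCyc 3 z → ∃ a : ℤ, IsBdy 3 (z - a • γ)
  hac : ∀ j, j ≠ 3 → RAcyc K j

theorem evm_sbd0 {M : Type} [AddCommGroup M] (n : ℕ) (θ : Sing K (n + 1) → M)
    (hθ : dlt sface (n + 1) θ = 0) (y : Ch K (n + 2)) : evm θ (sbd K (n + 1) y) = 0 := by
  have h := evm_dlt (sface (X := K)) (n + 1) θ y
  rw [hθ] at h
  rw [← h]
  simp [evm]

theorem sbd_sbd (n : ℕ) (y : Ch K (n + 2)) : sbd K n (sbd K (n + 1) y) = 0 :=
  Pool.Agent.Helper922.HB.Sc.bd_bd (sface (X := K))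
    (fun n i j σ h => Pool.Agent.Helper922.HB.Sc.sface_sface n i j σ h) n y

variable {c : Sing K 3 → ℤ} {γ : Ch K 3}

theorem sum_sbd0 (y : Ch K 1) : (sbd K 0 y).sum (fun _ a => a) = 0 := by
  let e : Ch K 0 →ₗ[ℤ] ℤ := linearCombination ℤ (fun _ => 1)
  have he : ∀ z : Ch K 0, z.sum (fun _ a => a) = e z := by
    intro z
    simp [e, linearCombination_apply]
  rw [he]
  have : e.comp (sbd K 0) = 0 := by
    apply Finsupp.lhom_ext'
    intro σ
    apply LinearMap.ext_ring
    simp only [LinearMap.comp_apply, lsingle_apply, LinearMap.zero_apply]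
    rw [sbd, Pool.Agent.Helper922.HB.Sc.bd_single, Fin.sum_univ_two, map_add, map_smul, map_smul]
    simp [e]
  exact LinearMap.congr_fun this y

/-- partial chain contraction -/
theorem exists_s (H : H3 c γ) (n : ℕ) : ∃ s : Ch K n →ₗ[ℤ] Ch K (n + 1),
    ∀ x : Ch K (n + 1), sbd K n (s (sbd K n x)) = sbd K n x := by
  induction n with
  | zero =>
    by_cases hne : Nonempty (Sing K 0)
    · obtain ⟨x₀⟩ := hne
      have hy : ∀ σ : Sing K 0, ∃ y : Ch K 1, sbd K 0 y = single σ 1 - single x₀ 1 := by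
        intro σ
        refine H.hac 0 (by norm_num) _ ?_
        change (single σ (1 : ℤ) - single x₀ 1 : Ch K 0).sum (fun _ a => a) = 0
        rw [Finsupp.sum_sub_index (by intros; rfl)]
        simp
      choose Y hY using hy
      let s : Ch K 0 →ₗ[ℤ] Ch K 1 := linearCombination ℤ Y
      have hs : ∀ v : Ch K 0, sbd K 0 (s v) = v - (v.sum fun _ a => a) • single x₀ 1 := by
        intro v
        induction v using Finsupp.induction_linear with
        | zero => simp
        | add a b ha hb =>
          rw [map_add, map_add, ha, hb, Finsupp.sum_add_index' (by intros; rfl) (by intros; rfl),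
            add_smul]
          abel
        | single σ k =>
          simp only [s, linearCombination_single, map_smul, hY, sum_single_index, smul_sub]
          simp [Finsupp.smul_single]
      refine ⟨s, fun x => ?_⟩
      rw [hs, sum_sbd0, zero_smul, sub_zero]
    · refine ⟨0, fun x => ?_⟩
      have : sbd K 0 x = 0 := by
        ext σ
        exact absurd ⟨σ⟩ hne
      rw [this]
      simp
  | succ n ih =>
    obtain ⟨s, hs⟩ := ih
    have hcyc : ∀ x : Ch K (n + 1), IsCyc (n + 1) (x - s (sbd K n x)) := by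
      intro x
      change sbd K n _ = 0
      rw [map_sub, hs, sub_self]
    by_cases hn : n + 1 = 3
    · obtain rfl : n = 2 := by omega
      have hy : ∀ σ : Sing K 3, ∃ (a : ℤ) (y : Ch K 4), sbd K 3 y =
          single σ 1 - s (sbd K 2 (single σ 1)) - a • γ := by
        intro σ
        obtain ⟨a, y, hy⟩ := H.hgen _ (hcyc (single σ 1))
        exact ⟨a, y, hy⟩
      choose a Y hY using hy
      let t : Ch K 3 →ₗ[ℤ] Ch K 4 := linearCombination ℤ Y
      let A : Ch K 3 →ₗ[ℤ] ℤ := linearCombination ℤ a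
      have ht : ∀ x : Ch K 3, sbd K 3 (t x) = x - s (sbd K 2 x) - A x • γ := by
        intro x
        induction x using Finsupp.induction_linear with
        | zero => simp
        | add p q hp hq =>
          rw [map_add, map_add, hp, hq, map_add, map_add, map_add, add_smul]
          abel
        | single σ k =>
          have e : (single σ k : Ch K 3) = k • single σ 1 := by simp
          simp only [t, A, linearCombination_single, map_smul, hY]
          rw [e, map_smul, map_smul, smul_sub, smul_sub, smul_assoc]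
      refine ⟨t, fun w => ?_⟩
      have h1 := ht (sbd K 3 w)
      rw [sbd_sbd, map_zero, sub_zero] at h1
      have h2 : A (sbd K 3 w) • γ = sbd K 3 (w - t (sbd K 3 w)) := by
        rw [map_sub, h1]
        abel
      have h3 := congrArg (evm c) h2
      rw [evm_sbd0 2 c H.hc, map_smul, smul_eq_mul] at h3
      have h4 : A (sbd K 3 w) = 0 := by
        rcases mul_eq_zero.1 h3 with h | h
        · exact h
        · exact absurd h H.hcγ
      rw [h1, h4, zero_smul, sub_zero]
    · have hy : ∀ σ : Sing K (n + 1), ∃ y : Ch K (n + 2), sbd K (n + 1) y =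
          single σ 1 - s (sbd K n (single σ 1)) := fun σ => H.hac (n + 1) hn _ (hcyc _)
      choose Y hY using hy
      let t : Ch K (n + 1) →ₗ[ℤ] Ch K (n + 2) := linearCombination ℤ Y
      have ht : ∀ x : Ch K (n + 1), sbd K (n + 1) (t x) = x - s (sbd K n x) := by
        intro x
        induction x using Finsupp.induction_linear with
        | zero => simp
        | add p q hp hq =>
          rw [map_add, map_add, hp, hq, map_add, map_add]
          abel
        | single σ k =>
          have e : (single σ k : Ch K (n + 1)) = k • single σ 1 := by simp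
          simp only [t, linearCombination_single, map_smul, hY]
          rw [e, map_smul, map_smul, smul_sub]
      refine ⟨t, fun w => ?_⟩
      rw [ht, sbd_sbd, map_zero, sub_zero]

/-- vanishing of cohomology -/
theorem coh (H : H3 c γ) (n : ℕ) {M : Type} [AddCommGroup M] (θ : Sing K (n + 1) → M)
    (h : ∀ z : Ch K (n + 1), IsCyc (n + 1) z → evm θ z = 0) :
    ∃ η : Sing K n → M, dlt sface n η = θ := by
  obtain ⟨s, hs⟩ := exists_s H n
  refine ⟨fun σ => evm θ (s (single σ 1)), ?_⟩
  have h1 : evm (fun σ : Sing K n => evm θ (s (single σ 1))) = (evm θ).comp s := by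
    apply Finsupp.lhom_ext'
    intro σ
    apply LinearMap.ext_ring
    simp [evm]
  funext τ
  rw [dlt_eq_evm, h1, LinearMap.comp_apply]
  have h2 := h (single τ 1 - s (sbd K n (single τ 1))) (by
    change sbd K n _ = 0
    rw [map_sub, hs, sub_self])
  rw [map_sub, sub_eq_zero] at h2
  have h3 : evm θ (single τ 1) = θ τ := by simp [evm]
  rw [← h3, h2]

theorem coh_ne (H : H3 c γ) (n : ℕ) (hn : n ≠ 2) {M : Type} [AddCommGroup M]
    (θ : Sing K (n + 1) → M) (hθ : dlt sface (n + 1) θ = 0) :
    ∃ η : Sing K n → M, dlt sface n η = θ := by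
  refine coh H n θ fun z hz => ?_
  obtain ⟨y, rfl⟩ := H.hac (n + 1) (by omega) z hz
  exact evm_sbd0 n θ hθ y

theorem coh_3 (H : H3 c γ) {M : Type} [AddCommGroup M]
    (θ : Sing K 3 → M) (hθ : dlt sface 3 θ = 0) (h3 : evm θ γ = 0) :
    ∃ η : Sing K 2 → M, dlt sface 2 η = θ := by
  refine coh H 2 θ fun z hz => ?_
  obtain ⟨a, y, hy⟩ := H.hgen z hz
  have := congrArg (evm θ) hy
  rw [evm_sbd0 2 θ hθ, map_sub, map_smul, h3, smul_zero, sub_zero] at this
  exact this.symm

end Coh

/-! ## Null homotopies -/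

section Null

variable (S : SymGrp) {X : ℕ → Type} (fc : ∀ n, Fin (n + 2) → X (n + 1) → X n)
  (h : ∀ m, X m → S.Γ m)

/-- partial null homotopy -/
structure NH (n : ℕ) (w : ∀ m, X m → S.Γ (m + 1)) : Prop where
  h0 : ∀ m, m ≤ n → ∀ σ : X m, S.d m 0 (w m σ) = h m σ
  h1 : ∀ σ : X 0, S.d 0 1 (w 0 σ) = 1
  hs : ∀ m, m < n → ∀ (σ : X (m + 1)) (i : Fin (m + 2)),
    S.d (m + 1) i.succ (w (m + 1) σ) = w m (fc m i σ)

/-- the prescribed boundary -/
def tp (w : ∀ m, X m → S.Γ (m + 1)) (n : ℕ) (σ : X (n + 1)) : Fin (n + 3) → S.Γ (n + 1) :=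
  Fin.cons (h (n + 1) σ) (fun i => w n (fc n i σ))

/-- compatibility with faces up to degree `n` -/
def Cf (n : ℕ) : Prop := ∀ m, m ≤ n → ∀ (σ : X (m + 1)) (i : Fin (m + 2)),
  S.d m i (h (m + 1) σ) = h m (fc m i σ)

/-- simplicial identities -/
def Hf : Prop := ∀ n (i j : Fin (n + 2)) (σ : X (n + 2)), i ≤ j →
    fc n i (fc (n + 1) j.succ σ) = fc n j (fc (n + 1) i.castSucc σ)

variable {S fc h}

theorem tp_mat (hf : Hf fc) {n : ℕ} (hh : Cf S fc h n) {w : ∀ m, X m → S.Γ (m + 1)}
    (hw : NH S fc h n w) (σ : X (n + 1)) : S.Mat n (tp S fc h w n σ) := by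
  intro i j hij
  unfold tp
  rw [Fin.cons_succ]
  induction i using Fin.cases with
  | zero =>
    rw [Fin.castSucc_zero, Fin.cons_zero, hw.h0 n le_rfl, hh n le_rfl]
  | succ i =>
    rw [← Fin.succ_castSucc, Fin.cons_succ]
    cases n with
    | zero =>
      have hi : i = 0 := Fin.ext (by have := i.2; omega)
      subst hi
      have hj : j = 1 := by
        apply Fin.ext
        rw [Fin.le_def] at hij
        have := j.2
        simp at hij ⊢
        omega
      subst hj
      exact (hw.h1 _).trans (hw.h1 _).symm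
    | succ n =>
      have hj : j ≠ 0 := by
        rintro rfl
        simp at hij
      obtain ⟨j, rfl⟩ := Fin.exists_succ_eq.2 hj
      rw [hw.hs n (by omega), hw.hs n (by omega), hf n i j σ (Fin.succ_le_succ_iff.1 hij)]

theorem tp_coc (hf : Hf fc) {n : ℕ} (hh : Cf S fc h (n + 1)) {w : ∀ m, X m → S.Γ (m + 1)}
    (hw : NH S fc h n w) : dlt fc (n + 1) (fun σ => S.clp (tp S fc h w n σ)) = 0 := by
  funext τ
  have hh' : Cf S fc h n := fun m hm => hh m (by omega)
  let T : Fin (n + 4) → Fin (n + 3) → S.Γ (n + 1) := Fin.cons (fun i => S.d (n + 1) i (h (n + 2) τ))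
    (fun j => tp S fc h w n (fc (n + 1) j τ))
  have hT0 : T 0 = fun i => S.d (n + 1) i (h (n + 2) τ) := rfl
  have hTs : ∀ j : Fin (n + 3), T j.succ = tp S fc h w n (fc (n + 1) j τ) := fun j => rfl
  have h1 := S.hal' (q := n) T (by
    intro j
    induction j using Fin.cases with
    | zero => rw [hT0]; exact SymGrp.Mat.bdy _
    | succ j => rw [hTs]; exact tp_mat hf hh' hw _) (by
    intro i j hij
    rw [hTs]
    induction i using Fin.cases with
    | zero =>
      rw [Fin.castSucc_zero, hT0]
      exact (hh (n + 1) le_rfl τ j).symm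
    | succ i =>
      rw [← Fin.succ_castSucc, hTs]
      have hj : j ≠ 0 := by
        rintro rfl
        simp at hij
      obtain ⟨j, rfl⟩ := Fin.exists_succ_eq.2 hj
      unfold tp
      rw [Fin.cons_succ, Fin.cons_succ, hf n i j τ (Fin.succ_le_succ_iff.1 hij)])
  rw [Fin.sum_univ_succ, hT0, S.clp_bdy, smul_zero, zero_add] at h1
  unfold dlt
  simp only [hTs, Fin.val_succ, pow_succ, mul_neg_one, neg_smul, Finset.sum_neg_distrib,
    neg_eq_zero] at h1
  exact h1

theorem NH_step (hf : Hf fc) {n : ℕ} (hh : Cf S fc h n) {w : ∀ m, X m → S.Γ (m + 1)}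
    (hw : NH S fc h n w) (η : X n → Additive (S.Pg n))
    (hη : dlt fc n η = fun σ => S.clp (tp S fc h w n σ)) : ∃ w', NH S fc h (n + 1) w' := by
  classical
  have hψ : ∀ σ : X n, ∃ y : S.N n, S.ac y = η σ := fun σ => S.ac_surj _
  choose ψ hψ using hψ
  let w1 : ∀ m, X m → S.Γ (m + 1) :=
    Function.update w n (fun σ => w n σ * (ψ σ : S.Γ (n + 1)))
  have hw1 : w1 n = fun σ => w n σ * (ψ σ : S.Γ (n + 1)) := by simp [w1]
  have hw1' : ∀ m, m ≠ n → w1 m = w m := fun m hm => by simp [w1, Function.update_of_ne hm]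
  have hd : ∀ (σ : X n) (i : Fin (n + 2)), S.d n i (w1 n σ) = S.d n i (w n σ) := by
    intro σ i
    rw [hw1, map_mul, (S.mem_N n _).1 (ψ σ).2 i, mul_one]
  have hNH : NH S fc h n w1 := by
    refine ⟨?_, ?_, ?_⟩
    · intro m hm σ
      by_cases hmn : m = n
      · subst hmn
        rw [hd, hw.h0 m le_rfl]
      · rw [hw1' m hmn, hw.h0 m hm]
    · intro σ
      by_cases hmn : 0 = n
      · subst hmn
        rw [hd, hw.h1]
      · rw [hw1' 0 hmn, hw.h1]
    · intro m hm σ i
      rw [hw1' m (by omega)]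
      by_cases hmn : m + 1 = n
      · subst hmn
        rw [hd, hw.hs m (by omega)]
      · rw [hw1' (m + 1) hmn, hw.hs m hm]
  have hcl : ∀ σ : X (n + 1), S.clp (tp S fc h w1 n σ) = 0 := by
    intro σ
    have e : tp S fc h w1 n σ = tp S fc h w n σ *
        (fun i => ((Fin.cons 1 (fun i => ψ (fc n i σ)) : Fin (n + 3) → S.N n) i : S.Γ (n + 1))) := by
      funext i
      rw [Pi.mul_apply]
      induction i using Fin.cases with
      | zero => simp [tp]
      | succ i =>
        simp only [tp, Fin.cons_succ]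
        rw [hw1]
    rw [e, S.clp_mul (tp_mat hf hh hw σ) (SymGrp.Mat.sph _), S.clp_sph, Fin.sum_univ_succ]
    simp only [Fin.cons_zero, Fin.cons_succ, hψ, Fin.val_succ, pow_succ, mul_neg_one, neg_smul,
      Finset.sum_neg_distrib]
    have h1 : S.ac (1 : S.N n) = 0 := by simp [SymGrp.ac]
    have h2 := congrFun hη σ
    unfold dlt at h2
    rw [h1, smul_zero, zero_add, ← h2]
    exact add_neg_cancel _
  have hy : ∀ σ : X (n + 1), ∃ y : S.Γ (n + 2), ∀ i, S.d (n + 1) i y = tp S fc h w1 n σ i :=
    fun σ => S.exists_of_clp (tp_mat hf hh hNH σ) (hcl σ)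
  choose Y hY using hy
  refine ⟨Function.update w1 (n + 1) Y, ?_, ?_, ?_⟩
  · intro m hm σ
    rcases eq_or_lt_of_le hm with hmn | hmn
    · subst hmn
      rw [Function.update_self, hY]
      rfl
    · rw [Function.update_of_ne (by omega), hNH.h0 m (by omega)]
  · intro σ
    rw [Function.update_of_ne (by omega), hNH.h1]
  · intro m hm σ i
    rw [Function.update_of_ne (by omega : m ≠ n + 1)]
    rcases eq_or_lt_of_le (show m ≤ n by omega) with hmn | hmn
    · subst hmn
      rw [Function.update_self, hY]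
      rfl
    · rw [Function.update_of_ne (by omega), hNH.hs m hmn]

/-- powers -/
theorem NH_pow {n : ℕ} {w : ∀ m, X m → S.Γ (m + 1)} (hw : NH S fc h n w) (a : ℤ) :
    NH S fc (fun m σ => h m σ ^ a) n (fun m σ => w m σ ^ a) := by
  refine ⟨?_, ?_, ?_⟩
  · intro m hm σ
    rw [map_zpow, hw.h0 m hm]
  · intro σ
    rw [map_zpow, hw.h1, one_zpow]
  · intro m hm σ i
    rw [map_zpow, hw.hs m hm]

theorem clp_zpow {n : ℕ} {t : Fin (n + 3) → S.Γ (n + 1)} (ht : S.Mat n t) (a : ℤ) :
    S.clp (fun i => t i ^ a) = a • S.clp t := by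
  have h := (S.clp_listprod [()] (fun _ => t) (fun _ => a) (fun _ => ht)).2
  simpa using h

theorem tp_zpow (w : ∀ m, X m → S.Γ (m + 1)) (n : ℕ) (a : ℤ) (σ : X (n + 1)) :
    tp S fc (fun m σ => h m σ ^ a) (fun m σ => w m σ ^ a) n σ =
      fun i => tp S fc h w n σ i ^ a := by
  funext i
  induction i using Fin.cases with
  | zero => rfl
  | succ i => rfl

end Null

end

end Run7.h592.SF
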