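import Pool.Agent.Run7.h592.PR5
import Pool.Agent.H904R2.SingG

/-! F3: cubical and simplicial homotopy groups of a topological group. -/

set_option autoImplicit false

open scoped Topology

namespace Run7.h592

open Pool.Agent.H904R2 (SingG SymGrp)

noncomputable section

/-! ## The homeomorphism between the simplex and the cube -/

section Homeo

/-- the solid simplex -/
def Sx (n : ℕ) : Set (Fin n → ℝ) := {x | (∀ i, 0 ≤ x i) ∧ ∑ i, x i ≤ 1}

/-- the solid cube -/
def Cx (n : ℕ) : Set (Fin n → ℝ) := {x | ∀ i, 0 ≤ x i ∧ x i ≤ 1}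

theorem Sx_sub (n : ℕ) : Sx n ⊆ Cx n := by
  intro x hx i
  refine ⟨hx.1 i, ?_⟩
  have := Finset.single_le_sum (f := x) (fun j _ => hx.1 j) (Finset.mem_univ i)
  exact this.trans hx.2

theorem Cx_eq (n : ℕ) : Cx n = Set.pi Set.univ fun _ => Set.Icc (0 : ℝ) 1 := by
  ext x
  constructor
  · exact fun h i _ => h i
  · exact fun h i => h i trivial

theorem Cx_int (n : ℕ) : interior (Cx n) = {x | ∀ i, 0 < x i ∧ x i < 1} := by
  rw [Cx_eq, interior_pi_set Set.finite_univ]
  ext x
  simp [Set.mem_pi]

theorem Sx_int (n : ℕ) : interior (Sx (n + 1)) = {x | (∀ i, 0 < x i) ∧ ∑ i, x i < 1} := by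
  apply Set.Subset.antisymm
  · intro x hx
    rw [mem_interior_iff_mem_nhds, Metric.mem_nhds_iff] at hx
    obtain ⟨ε, hε, hb⟩ := hx
    have hd : ∀ (i : Fin (n + 1)) (v : ℝ), |v| < ε → Function.update x i (x i + v) ∈ Sx (n + 1) := by
      intro i v hv
      apply hb
      rw [Metric.mem_ball, dist_pi_lt_iff hε]
      intro j
      by_cases hj : j = i
      · subst hj
        rw [Function.update_self, Real.dist_eq]
        simpa using hv
      · rw [Function.update_of_ne hj, dist_self]
        exact hε
    have hε2 : |(-(ε / 2))| < ε := by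
      rw [abs_neg, abs_of_pos (by linarith)]
      linarith
    have hε3 : |ε / 2| < ε := by
      rw [abs_of_pos (by linarith)]
      linarith
    refine ⟨fun i => ?_, ?_⟩
    · have := (hd i (-(ε / 2)) hε2).1 i
      rw [Function.update_self] at this
      linarith
    · have := (hd 0 (ε / 2) hε3).2
      rw [Finset.sum_update_of_mem (Finset.mem_univ _)] at this
      have h2 := Finset.add_sum_erase Finset.univ x (Finset.mem_univ (0 : Fin (n + 1)))
      rw [Finset.sdiff_singleton_eq_erase] at this
      linarith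
  · apply interior_maximal
    · intro x hx
      exact ⟨fun i => (hx.1 i).le, hx.2.le⟩
    · have e : {x : Fin (n + 1) → ℝ | (∀ i, 0 < x i) ∧ ∑ i, x i < 1} =
          (⋂ i, {x | 0 < x i}) ∩ {x | ∑ i, x i < 1} := by
        ext x
        simp
      rw [e]
      refine IsOpen.inter (isOpen_iInter_of_finite fun i => ?_) ?_
      · exact isOpen_lt continuous_const (continuous_apply i)
      · exact isOpen_lt (by fun_prop) continuous_const

theorem Sx_closed (n : ℕ) : IsClosed (Sx n) := by
  have e : Sx n = (⋂ i, {x | 0 ≤ x i}) ∩ {x | ∑ i, x i ≤ 1} := by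
    ext x
    simp [Sx]
  rw [e]
  refine IsClosed.inter (isClosed_iInter fun i => ?_) ?_
  · exact isClosed_le continuous_const (continuous_apply i)
  · exact isClosed_le (by fun_prop) continuous_const

theorem Cx_closed (n : ℕ) : IsClosed (Cx n) := by
  rw [Cx_eq]
  exact isClosed_set_pi fun _ _ => isClosed_Icc

theorem Sx_convex (n : ℕ) : Convex ℝ (Sx n) := by
  intro x hx y hy a b ha hb hab
  refine ⟨fun i => ?_, ?_⟩
  · have := mul_nonneg ha (hx.1 i)
    have := mul_nonneg hb (hy.1 i)
    simp only [Pi.add_apply, Pi.smul_apply, smul_eq_mul]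
    linarith
  · simp only [Pi.add_apply, Pi.smul_apply, smul_eq_mul, Finset.sum_add_distrib, ← Finset.mul_sum]
    have h1 := mul_le_mul_of_nonneg_left hx.2 ha
    have h2 := mul_le_mul_of_nonneg_left hy.2 hb
    linarith

theorem Cx_convex (n : ℕ) : Convex ℝ (Cx n) := by
  rw [Cx_eq]
  exact convex_pi fun _ _ => convex_Icc _ _

theorem Cx_bdd (n : ℕ) : Bornology.IsVonNBounded ℝ (Cx n) := by
  apply NormedSpace.isVonNBounded_of_isBounded
  rw [Cx_eq]
  exact Bornology.IsBounded.pi fun _ => Metric.isBounded_Icc _ _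

theorem exists_e (n : ℕ) : ∃ e : (Fin (n + 1) → ℝ) ≃ₜ (Fin (n + 1) → ℝ),
    (∀ x, e x ∈ Cx (n + 1) ↔ x ∈ Sx (n + 1)) ∧
    ∀ x, e x ∈ interior (Cx (n + 1)) ↔ x ∈ interior (Sx (n + 1)) := by
  obtain ⟨e, h1, h2, _⟩ := exists_homeomorph_image_eq (Sx_convex (n + 1)) (by
      rw [Sx_int]
      refine ⟨fun _ => 1 / (n + 2), fun i => by positivity, ?_⟩
      rw [Finset.sum_const, Finset.card_univ, Fintype.card_fin, nsmul_eq_mul]
      push_cast
      rw [mul_one_div, div_lt_one (by positivity)]
      linarith) ((Cx_bdd (n + 1)).subset (Sx_sub _)) (Cx_convex (n + 1)) (by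
      rw [Cx_int]
      exact ⟨fun _ => 1 / 2, fun i => by norm_num⟩) (Cx_bdd (n + 1))
  rw [(Sx_closed _).closure_eq, (Cx_closed _).closure_eq] at h2
  refine ⟨e, fun x => ?_, fun x => ?_⟩
  · rw [← h2]
    exact e.injective.mem_set_image
  · rw [← h1]
    exact e.injective.mem_set_image

/-- the homeomorphism of pairs between the simplex and the cube -/
theorem exists_ab (n : ℕ) : ∃ (a : C(Dl (n + 1), Fin (n + 1) → unitInterval))
    (b : C(Fin (n + 1) → unitInterval, Dl (n + 1))), (∀ y, a (b y) = y) ∧
      ∀ x, (∃ i, x.1 i = 0) ↔ a x ∈ Cube.boundary (Fin (n + 1)) := by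
  obtain ⟨e, h1, h2⟩ := exists_e n
  have hS : ∀ x : Dl (n + 1), (fun i : Fin (n + 1) => x.1 i.succ) ∈ Sx (n + 1) := by
    intro x
    have h := x.2.2
    rw [Fin.sum_univ_succ] at h
    exact ⟨fun i => x.2.1 _, by linarith [x.2.1 0]⟩
  have hC : ∀ y : Fin (n + 1) → unitInterval, (fun i => (y i : ℝ)) ∈ Cx (n + 1) := fun y i => (y i).2
  let a : C(Dl (n + 1), Fin (n + 1) → unitInterval) := ⟨fun x i =>
    ⟨e (fun i => x.1 i.succ) i, (h1 _).2 (hS x) i⟩, by
      refine continuous_pi fun i => Continuous.subtype_mk ?_ _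
      refine (continuous_apply i).comp (e.continuous.comp (continuous_pi fun j => ?_))
      exact (continuous_apply _).comp continuous_subtype_val⟩
  have hb : ∀ y : Fin (n + 1) → unitInterval, e.symm (fun i => (y i : ℝ)) ∈ Sx (n + 1) := by
    intro y
    rw [← h1, e.apply_symm_apply]
    exact hC y
  let b : C(Fin (n + 1) → unitInterval, Dl (n + 1)) := ⟨fun y =>
    ⟨Fin.cons (1 - ∑ i, e.symm (fun i => (y i : ℝ)) i) (e.symm (fun i => (y i : ℝ))), by
      constructor
      · intro i
        refine Fin.cases ?_ (fun i => ?_) i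
        · rw [Fin.cons_zero]
          linarith [(hb y).2]
        · rw [Fin.cons_succ]
          exact (hb y).1 i
      · rw [Fin.sum_univ_succ, Fin.cons_zero]
        simp only [Fin.cons_succ]
        ring⟩, by
      refine Continuous.subtype_mk (continuous_pi fun i => ?_) _
      have hc : Continuous fun y : Fin (n + 1) → unitInterval =>
          e.symm (fun i => (y i : ℝ)) := e.symm.continuous.comp (by fun_prop)
      refine Fin.cases ?_ (fun i => ?_) i
      · simp only [Fin.cons_zero]
        refine continuous_const.sub (continuous_finsetSum _ fun i _ => ?_)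
        exact (continuous_apply i).comp hc
      · simp only [Fin.cons_succ]
        exact (continuous_apply i).comp hc⟩
  refine ⟨a, b, ?_, ?_⟩
  · intro y
    funext i
    apply Subtype.ext
    change e (fun i => (b y).1 i.succ) i = y i
    have : (fun i : Fin (n + 1) => (b y).1 i.succ) = e.symm (fun i => (y i : ℝ)) := by
      funext i
      rfl
    rw [this, e.apply_symm_apply]
  · intro x
    have h3 : (∃ i, x.1 i = 0) ↔ (fun i : Fin (n + 1) => x.1 i.succ) ∉ interior (Sx (n + 1)) := by
      have hs := x.2.2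
      rw [Fin.sum_univ_succ] at hs
      rw [Sx_int, Set.mem_ofPred_eq, not_and_or]
      constructor
      · rintro ⟨i, hi⟩
        induction i using Fin.cases with
        | zero =>
          right
          rw [not_lt]
          have h0 : x.1 0 = 0 := hi
          linarith
        | succ i =>
          left
          intro h
          exact (h i).ne' hi
      · rintro (h | h)
        · push Not at h
          obtain ⟨i, hi⟩ := h
          exact ⟨i.succ, le_antisymm hi (x.2.1 _)⟩
        · refine ⟨0, ?_⟩
          push Not at h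
          have := x.2.1 0
          linarith
    rw [h3, ← h2, Cx_int, Set.mem_ofPred_eq]
    constructor
    · intro h
      push Not at h
      obtain ⟨i, hi⟩ := h
      have hx := (h1 _).2 (hS x) i
      refine ⟨i, ?_⟩
      rcases eq_or_lt_of_le hx.1 with h4 | h4
      · left
        exact Subtype.ext h4.symm
      · right
        exact Subtype.ext (le_antisymm hx.2 (hi h4))
    · rintro ⟨i, hi⟩ h
      have h4 := h i
      rcases hi with hi | hi
      · have := congrArg Subtype.val hi
        change e _ i = 0 at this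
        linarith [h4.1]
      · have := congrArg Subtype.val hi
        change e _ i = 1 at this
        linarith [h4.2]

end Homeo

/-! ## Spherical simplices -/

section Sph

theorem exists_face' {q : ℕ} (s : Dl (q + 1)) (i : Fin (q + 2)) (h : s.1 i = 0) :
    ∃ s' : Dl q, dlF q i s' = s := by
  refine ⟨⟨fun j => s.1 (i.succAbove j), fun j => s.2.1 _, ?_⟩, ?_⟩
  · have := s.2.2
    rw [Fin.sum_univ_succAbove _ i, h, zero_add] at this
    exact this
  · apply Subtype.ext
    funext k
    change (FunOnFinite.linearMap ℝ ℝ i.succAbove (fun j => s.1 (i.succAbove j))) k = s.1 k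
    rw [FunOnFinite.linearMap_apply_apply]
    by_cases hk : k = i
    · subst hk
      rw [h]
      apply Finset.sum_eq_zero
      intro j hj
      simp only [Finset.mem_filter] at hj
      exact absurd hj.2 (Fin.succAbove_ne k j)
    · obtain ⟨j, rfl⟩ := Fin.exists_succAbove_eq hk
      rw [Finset.sum_eq_single j]
      · intro b hb hbj
        simp only [Finset.mem_filter] at hb
        exact absurd (Fin.succAbove_right_injective hb.2) hbj
      · intro hj
        simp at hj

theorem dlF_self {q : ℕ} (i : Fin (q + 2)) (s : Dl q) : (dlF q i s).1 i = 0 := by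
  change (FunOnFinite.linearMap ℝ ℝ i.succAbove s.1) i = 0
  rw [FunOnFinite.linearMap_apply_apply]
  apply Finset.sum_eq_zero
  intro j hj
  simp only [Finset.mem_filter] at hj
  exact absurd hj.2 (Fin.succAbove_ne i j)

theorem dlF_succAbove {q : ℕ} (i : Fin (q + 2)) (s : Dl q) (j : Fin (q + 1)) :
    (dlF q i s).1 (i.succAbove j) = s.1 j := by
  change (FunOnFinite.linearMap ℝ ℝ i.succAbove s.1) (i.succAbove j) = s.1 j
  rw [FunOnFinite.linearMap_apply_apply, Finset.sum_eq_single j]
  · intro b hb hbj
    simp only [Finset.mem_filter] at hb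
    exact absurd (Fin.succAbove_right_injective hb.2) hbj
  · intro hj
    simp at hj

variable {K : Type} [Group K] [TopologicalSpace K] [IsTopologicalGroup K]
  [PathConnectedSpace K]

theorem d_apply' (n : ℕ) (i : Fin (n + 2)) (x : (SingG K).Γ (n + 1)) (s : Dl n) :
    (show C(Dl n, K) from (SingG K).d n i x) s = (show C(Dl (n + 1), K) from x) (dlF n i s) := rfl

/-- the cone with vertex `1` -/
theorem null_Bd {q : ℕ} (x : (SingG K).Γ (q + 1)) (h : C(Dl (q + 1) × unitInterval, K))
    (h0 : ∀ s, h (s, 0) = (show C(Dl (q + 1), K) from x) s) (h1 : ∀ s, h (s, 1) = 1)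
    (h2 : ∀ s : Dl (q + 1), (∃ i, s.1 i = 0) → ∀ r, h (s, r) = 1) : x ∈ (SingG K).Bd q := by
  have hM : ∀ t : Dl (q + 2), (0 : ℝ) < max (1 - t.1 0) (1 / 2) := fun t =>
    lt_max_of_lt_right (by norm_num)
  have hq : (0 : ℝ) < (q : ℝ) + 2 := by positivity
  have ht1 : ∀ t : Dl (q + 2), ∑ i : Fin (q + 2), t.1 i.succ = 1 - t.1 0 := by
    intro t
    have := t.2.2
    rw [Fin.sum_univ_succ] at this
    linarith
  let sig : C(Dl (q + 2), Dl (q + 1)) := ⟨fun t => ⟨fun i => t.1 i.succ / max (1 - t.1 0) (1 / 2) +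
    (1 - (1 - t.1 0) / max (1 - t.1 0) (1 / 2)) / (q + 2), by
      constructor
      · intro i
        have h3 : 0 ≤ t.1 i.succ / max (1 - t.1 0) (1 / 2) := div_nonneg (t.2.1 _) (hM t).le
        have h4 : (1 - t.1 0) / max (1 - t.1 0) (1 / 2) ≤ 1 :=
          (div_le_one (hM t)).2 (le_max_left _ _)
        have h5 : 0 ≤ (1 - (1 - t.1 0) / max (1 - t.1 0) (1 / 2)) / ((q : ℝ) + 2) :=
          div_nonneg (by linarith) hq.le
        linarith
      · rw [Finset.sum_add_distrib, ← Finset.sum_div, ht1, Finset.sum_const, Finset.card_univ,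
          Fintype.card_fin, nsmul_eq_mul]
        push_cast
        field_simp
        ring⟩, by
      refine Continuous.subtype_mk (continuous_pi fun i => ?_) _
      have hc : ∀ i, Continuous fun t : Dl (q + 2) => t.1 i := fun i =>
        (continuous_apply i).comp continuous_subtype_val
      have hm : Continuous fun t : Dl (q + 2) => max (1 - t.1 0) (1 / 2) :=
        (continuous_const.sub (hc 0)).max continuous_const
      exact ((hc _).div hm fun t => (hM t).ne').add ((continuous_const.sub
        ((continuous_const.sub (hc 0)).div hm fun t => (hM t).ne')).div_const _)⟩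
  let ta : C(Dl (q + 2), unitInterval) := ⟨fun t => ⟨min 1 (2 * t.1 0), by
      constructor
      · exact le_min zero_le_one (mul_nonneg (by norm_num) (t.2.1 0))
      · exact min_le_left _ _⟩, by
      refine Continuous.subtype_mk ?_ _
      exact continuous_const.min (continuous_const.mul
        ((continuous_apply 0).comp continuous_subtype_val))⟩
  let y : C(Dl (q + 2), K) := ⟨fun t => h (sig t, ta t), by fun_prop⟩
  rw [SymGrp.mem_Bd]
  refine ⟨y, ?_, ?_⟩
  · intro i
    refine ContinuousMap.ext fun s => ?_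
    change h (sig (dlF (q + 1) i.succ s), ta (dlF (q + 1) i.succ s)) = 1
    rcases le_total ((dlF (q + 1) i.succ s).1 0) (1 / 2) with h3 | h3
    · apply h2
      refine ⟨i, ?_⟩
      change (dlF (q + 1) i.succ s).1 i.succ / max (1 - (dlF (q + 1) i.succ s).1 0) (1 / 2) +
        (1 - (1 - (dlF (q + 1) i.succ s).1 0) / max (1 - (dlF (q + 1) i.succ s).1 0) (1 / 2)) /
          (q + 2) = 0
      rw [dlF_self, max_eq_left (by linarith), div_self (by linarith)]
      simp
    · have : ta (dlF (q + 1) i.succ s) = 1 := by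
        apply Subtype.ext
        change min 1 (2 * (dlF (q + 1) i.succ s).1 0) = 1
        exact min_eq_left (by linarith)
      rw [this, h1]
  · refine ContinuousMap.ext fun s => ?_
    change h (sig (dlF (q + 1) 0 s), ta (dlF (q + 1) 0 s)) = (show C(Dl (q + 1), K) from x) s
    have e0 : (dlF (q + 1) 0 s).1 0 = 0 := dlF_self 0 s
    have e1 : sig (dlF (q + 1) 0 s) = s := by
      apply Subtype.ext
      funext i
      change (dlF (q + 1) 0 s).1 i.succ / max (1 - (dlF (q + 1) 0 s).1 0) (1 / 2) +
        (1 - (1 - (dlF (q + 1) 0 s).1 0) / max (1 - (dlF (q + 1) 0 s).1 0) (1 / 2)) /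
          (q + 2) = s.1 i
      have e2 : (dlF (q + 1) 0 s).1 i.succ = s.1 i := by
        have := dlF_succAbove (q := q + 1) 0 s i
        rwa [Fin.succAbove_zero] at this
      rw [e0, e2]
      norm_num
    have e3 : ta (dlF (q + 1) 0 s) = 0 := by
      apply Subtype.ext
      change min 1 (2 * (dlF (q + 1) 0 s).1 0) = 0
      rw [e0]
      simp
    rw [e1, e3, h0]

/-- null homotopies from the cone -/
theorem Bd_null {q : ℕ} (x : (SingG K).Γ (q + 1)) (hx : x ∈ (SingG K).Bd q) :
    ∃ h : C(Dl (q + 1) × unitInterval, K), (∀ s, h (s, 0) = (show C(Dl (q + 1), K) from x) s) ∧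
      (∀ s, h (s, 1) = 1) ∧ ∀ s : Dl (q + 1), (∃ i, s.1 i = 0) → ∀ r, h (s, r) = 1 := by
  rw [SymGrp.mem_Bd] at hx
  obtain ⟨y, hy, hyx⟩ := hx
  let y' : C(Dl (q + 2), K) := y
  let m : C(Dl (q + 1) × unitInterval, Dl (q + 2)) := ⟨fun p =>
    ⟨Fin.cons (p.2 : ℝ) (fun i => (1 - (p.2 : ℝ)) * p.1.1 i), by
      constructor
      · intro i
        refine Fin.cases ?_ (fun i => ?_) i
        · exact p.2.2.1
        · rw [Fin.cons_succ]
          exact mul_nonneg (by linarith [p.2.2.2]) (p.1.2.1 i)
      · rw [Fin.sum_univ_succ, Fin.cons_zero]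
        simp only [Fin.cons_succ]
        rw [← Finset.mul_sum, p.1.2.2]
        ring⟩, by
      refine Continuous.subtype_mk (continuous_pi fun i => ?_) _
      refine Fin.cases ?_ (fun i => ?_) i
      · simp only [Fin.cons_zero]
        fun_prop
      · simp only [Fin.cons_succ]
        have h1 : Continuous fun p : Dl (q + 1) × unitInterval => p.1.1 i :=
          (continuous_apply i).comp (continuous_subtype_val.comp continuous_fst)
        fun_prop⟩
  have hb : ∀ (t : Dl (q + 2)) (i : Fin (q + 2)), t.1 i.succ = 0 → y' t = 1 := by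
    intro t i ht
    obtain ⟨s, rfl⟩ := exists_face' t i.succ ht
    exact ContinuousMap.congr_fun (hy i) s
  refine ⟨y'.comp m, ?_, ?_, ?_⟩
  · intro s
    rw [← hyx]
    change y' (m (s, 0)) = y' (dlF (q + 1) 0 s)
    congr 1
    apply Subtype.ext
    funext i
    refine Fin.cases ?_ (fun i => ?_) i
    · exact (dlF_self 0 s).symm
    · have h3 := dlF_succAbove (q := q + 1) 0 s i
      rw [Fin.succAbove_zero] at h3
      rw [h3]
      change (1 - ((0 : unitInterval) : ℝ)) * s.1 i = s.1 i
      simp
  · intro s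
    refine hb _ 0 ?_
    change (1 - ((1 : unitInterval) : ℝ)) * s.1 0 = 0
    simp
  · rintro s ⟨i, hi⟩ r
    refine hb _ i ?_
    change (1 - (r : ℝ)) * s.1 i = 0
    rw [hi, mul_zero]

end Sph

/-! ## The comparison -/

section Psi

variable {K : Type} [Group K] [TopologicalSpace K] [IsTopologicalGroup K]

/-- pointwise product -/
def pm {N : Type} (f g : GenLoop N K 1) : GenLoop N K 1 := ⟨f.1 * g.1, fun t ht => by
  change f.1 t * g.1 t = 1
  rw [f.2 t ht, g.2 t ht, one_mul]⟩

/-- Eckmann–Hilton -/
theorem hcl_pm {N : Type} [DecidableEq N] (i : N) (f g : GenLoop N K 1) :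
    hcl (GenLoop.transAt i f g) = hcl (pm f g) := by
  rw [hcl_iff]
  let c1 : C(unitInterval, unitInterval) := ⟨fun x => Set.projIcc 0 1 zero_le_one (2 * (x : ℝ)), by
    exact continuous_projIcc.comp (by fun_prop)⟩
  let c2 : C(unitInterval, unitInterval) :=
    ⟨fun x => Set.projIcc 0 1 zero_le_one (2 * (x : ℝ) - 1), by
    exact continuous_projIcc.comp (by fun_prop)⟩
  have c10 : c1 0 = 0 := Set.projIcc_of_le_left zero_le_one (by simp)
  have c11 : c1 1 = 1 := Set.projIcc_of_right_le zero_le_one (by simp)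
  have c20 : c2 0 = 0 := Set.projIcc_of_le_left zero_le_one (by simp)
  have c21 : c2 1 = 1 := Set.projIcc_of_right_le zero_le_one (by norm_num)
  have hu : Continuous fun p : (N → unitInterval) × unitInterval =>
      Function.update p.1 i (cvx p.2 (c1 (p.1 i)) (p.1 i)) :=
    continuous_fst.update i (continuous_cvx (by fun_prop) (by fun_prop) (by fun_prop))
  have hu2 : Continuous fun p : (N → unitInterval) × unitInterval =>
      Function.update p.1 i (cvx p.2 (c2 (p.1 i)) (p.1 i)) :=
    continuous_fst.update i (continuous_cvx (by fun_prop) (by fun_prop) (by fun_prop))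
  have hbd : ∀ (c : C(unitInterval, unitInterval)), c 0 = 0 → c 1 = 1 →
      ∀ t ∈ Cube.boundary N, ∀ r, Function.update t i (cvx r (c (t i)) (t i)) ∈ Cube.boundary N := by
    rintro c hc0 hc1 t ⟨j, hj⟩ r
    refine ⟨j, ?_⟩
    by_cases hji : j = i
    · subst hji
      rw [Function.update_self]
      rcases hj with hj | hj
      · left
        rw [hj, hc0, cvx_self]
      · right
        rw [hj, hc1, cvx_self]
    · rw [Function.update_of_ne hji]
      exact hj
  refine ⟨⟨fun p => f (Function.update p.1 i (cvx p.2 (c1 (p.1 i)) (p.1 i))) *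
    g (Function.update p.1 i (cvx p.2 (c2 (p.1 i)) (p.1 i))),
    (f.1.continuous.comp hu).mul (g.1.continuous.comp hu2)⟩, ?_, ?_, ?_⟩
  · intro t
    change f (Function.update t i (cvx 0 (c1 (t i)) (t i))) *
      g (Function.update t i (cvx 0 (c2 (t i)) (t i))) = _
    rw [cvx_zero, cvx_zero, transAt_apply]
    split_ifs with h
    · have h2 : c2 (t i) = 0 := Set.projIcc_of_le_left zero_le_one (by linarith)
      rw [h2, GenLoop.boundary g _ ⟨i, Or.inl (Function.update_self _ _ _)⟩, mul_one]
      rfl
    · have h1 : c1 (t i) = 1 := Set.projIcc_of_right_le zero_le_one (by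
        push Not at h
        linarith)
      rw [h1, GenLoop.boundary f _ ⟨i, Or.inr (Function.update_self _ _ _)⟩, one_mul]
      rfl
  · intro t
    change f (Function.update t i (cvx 1 (c1 (t i)) (t i))) *
      g (Function.update t i (cvx 1 (c2 (t i)) (t i))) = f t * g t
    rw [cvx_one, cvx_one, Function.update_eq_self]
  · intro t ht r
    change f (Function.update t i (cvx r (c1 (t i)) (t i))) *
      g (Function.update t i (cvx r (c2 (t i)) (t i))) = 1
    rw [GenLoop.boundary f _ (hbd c1 c10 c11 t ht r), GenLoop.boundary g _ (hbd c2 c20 c21 t ht r),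
      one_mul]

variable [PathConnectedSpace K] {q : ℕ} (a : C(Dl (q + 1), Fin (q + 1) → unitInterval))
  (ha : ∀ x, (∃ i, x.1 i = 0) ↔ a x ∈ Cube.boundary (Fin (q + 1)))

/-- the spherical simplex of a generalised loop -/
def toN (f : GenLoop (Fin (q + 1)) K 1) : (SingG K).N q :=
  ⟨(f.1.comp a : C(Dl (q + 1), K)), (SymGrp.mem_N _ _ _).2 fun i => ContinuousMap.ext fun s =>
    f.2 _ ((ha _).1 ⟨i, dlF_self i s⟩)⟩

end Psi

theorem p_F3 : S_F3 := by
  intro K _ _ _ _ q
  obtain ⟨a, b, hab, ha⟩ := exists_ab q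
  have hwd : ∀ f g : GenLoop (Fin (q + 1)) K 1, hcl f = hcl g →
      (SingG K).cls q (toN a ha f) = (SingG K).cls q (toN a ha g) := by
    intro f g hfg
    obtain ⟨H, h0, h1, h2⟩ := (hcl_iff f g).1 hfg
    apply SymGrp.cls_eq_of
    refine null_Bd _ ⟨fun p => H (a p.1, p.2) * (g (a p.1))⁻¹, ?_⟩ ?_ ?_ ?_
    · have hg : Continuous fun p : Dl (q + 1) × unitInterval => g (a p.1) :=
        g.1.continuous.comp (a.continuous.comp continuous_fst)
      have hH : Continuous fun p : Dl (q + 1) × unitInterval => H (a p.1, p.2) := by fun_prop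
      exact hH.mul hg.inv
    · intro s
      change H (a s, 0) * (g (a s))⁻¹ = f (a s) * (g (a s))⁻¹
      rw [h0]
    · intro s
      change H (a s, 1) * (g (a s))⁻¹ = 1
      rw [h1, mul_inv_cancel]
    · intro s hs r
      change H (a s, r) * (g (a s))⁻¹ = 1
      rw [h2 _ ((ha s).1 hs), GenLoop.boundary g _ ((ha s).1 hs), mul_inv_cancel]
  let Ψ : HomotopyGroup (Fin (q + 1)) K 1 →* (SingG K).Pg q :=
    { toFun := Quotient.lift (fun f => (SingG K).cls q (toN a ha f)) fun f g h =>
        hwd f g (Quotient.sound h)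
      map_one' := by
        rw [HomotopyGroup.one_def]
        change (SingG K).cls q (toN a ha GenLoop.const) = 1
        rw [← map_one ((SingG K).cls q)]
        rfl
      map_mul' := by
        intro x y
        obtain ⟨f, rfl⟩ := hcl_surj x
        obtain ⟨g, rfl⟩ := hcl_surj y
        rw [hcl_mul 0, hcl_pm]
        change (SingG K).cls q (toN a ha (pm g f)) =
          (SingG K).cls q (toN a ha f) * (SingG K).cls q (toN a ha g)
        have e : toN a ha (pm g f) = toN a ha g * toN a ha f := rfl
        rw [e, map_mul, mul_comm] }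
  refine ⟨Ψ, (injective_iff_map_eq_one Ψ).2 ?_⟩
  intro x hx
  obtain ⟨f, rfl⟩ := hcl_surj x
  change (SingG K).cls q (toN a ha f) = 1 at hx
  rw [SymGrp.cls_eq_one] at hx
  obtain ⟨h, h0, h1, h2⟩ := Bd_null _ hx
  rw [← hcl_one, hcl_iff]
  refine ⟨⟨fun p => h (b p.1, p.2), by fun_prop⟩, ?_, ?_, ?_⟩
  · intro t
    change h (b t, 0) = f t
    rw [h0]
    change f (a (b t)) = f t
    rw [hab]
  · intro t
    exact h1 _
  · intro t ht r
    refine h2 _ ((ha _).2 ?_) r
    rwa [hab]

end

end Run7.h592
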