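import Pool.Agent.Run7.h592.Tasks

/-!
# Piece G3: a continuous map from the product of the projective elliptic curve and the projective
quadric to `S¹ × S²`
-/

set_option autoImplicit false

open scoped Topology LinearAlgebra.Projectivization ComplexConjugate

namespace Run7.h592

open Pool.Agent.Y209.HB

noncomputable section

namespace PG3

/-! ## Projective space -/

section proj

variable {ι : Type}

/-- the quotient map to projective space -/
def qp (v : {v : ι → ℂ // v ≠ 0}) : ℙ ℂ (ι → ℂ) := Projectivization.mk ℂ v.1 v.2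

theorem qp_quot : Topology.IsQuotientMap (qp (ι := ι)) := isQuotientMap_quotient_mk'

/-- multiplication by a scalar -/
def sm (a : ℂˣ) (v : {v : ι → ℂ // v ≠ 0}) : {v : ι → ℂ // v ≠ 0} :=
  ⟨(a : ℂ) • v.1, smul_ne_zero a.ne_zero v.2⟩

theorem continuous_sm (a : ℂˣ) : Continuous (sm (ι := ι) a) :=
  Continuous.subtype_mk (continuous_subtype_val.const_smul (a : ℂ)) _

theorem qp_sm (a : ℂˣ) (v : {v : ι → ℂ // v ≠ 0}) : qp (sm a v) = qp v :=
  (Projectivization.mk_eq_mk_iff ℂ _ _ _ _).2 ⟨a, rfl⟩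

theorem qp_open : IsOpenQuotientMap (qp (ι := ι)) := by
  refine ⟨qp_quot.surjective, qp_quot.continuous, ?_⟩
  intro O hO
  rw [← qp_quot.isOpen_preimage]
  have : qp ⁻¹' (qp '' O) = ⋃ a : ℂˣ, sm (ι := ι) a ⁻¹' O := by
    ext v
    simp only [Set.mem_preimage, Set.mem_image, Set.mem_iUnion]
    constructor
    · rintro ⟨w, hw, h⟩
      obtain ⟨a, ha⟩ := (Projectivization.mk_eq_mk_iff ℂ _ _ _ _).1 h
      refine ⟨a, ?_⟩
      have : sm a v = w := Subtype.ext ha
      rwa [this]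
    · rintro ⟨a, ha⟩
      exact ⟨_, ha, qp_sm a v⟩
  rw [this]
  exact isOpen_iUnion fun a => hO.preimage (continuous_sm a)

end proj

/-! ## Gram matrices -/

/-- The vector space of the Segre embedding. -/
abbrev V34 : Type := Fin 3 × Fin 4 → ℂ

/-- the products of the rows -/
def A (M : V34) (i i' : Fin 3) : ℂ := ∑ j, M (i, j) * conj (M (i', j))

/-- the products of the columns -/
def B (M : V34) (j j' : Fin 4) : ℂ := ∑ i, M (i, j) * conj (M (i, j'))

/-- the norm -/
def T (M : V34) : ℝ := ∑ i, ∑ j, Complex.normSq (M (i, j))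

/-- auxiliary function -/
def D (M : V34) : ℝ := (A M 1 1).re ^ 2 + (A M 2 2).re ^ 2 - 2 * (A M 1 2 ^ 2).re

/-- auxiliary function -/
def CN (M : V34) : ℝ := T M * ((A M 2 2).re - ((A M 1 1).re - (A M 1 2).re + (A M 2 2).re / 4)) +
  (D M - ((A M 0 0).re ^ 2 - (A M 0 1 ^ 2 - A M 0 2 ^ 2).re + D M / 4))

/-- auxiliary function -/
def CD (M : V34) : ℝ := T M * ((A M 1 1).re + (A M 2 2).re) + (A M 0 0).re ^ 2 + D M

/-- the map to the circle, not normalised -/
def th0 (M : V34) : ℂ := ((CN M / CD M : ℝ) : ℂ) + (((A M 0 1).re / T M : ℝ) : ℂ) * Complex.I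

/-- the map to the sphere -/
def nn (M : V34) : Fin 3 → ℝ := ![2 * ((B M 0 3).re + (B M 1 2).im) / T M,
  2 * ((B M 1 3).re + (B M 2 0).im) / T M, 2 * ((B M 2 3).re + (B M 0 1).im) / T M]

theorem A_smul (a : ℂ) (M : V34) (i i' : Fin 3) :
    A (a • M) i i' = ((Complex.normSq a : ℝ) : ℂ) * A M i i' := by
  simp only [A, Finset.mul_sum, Pi.smul_apply, smul_eq_mul, map_mul, ← Complex.mul_conj]
  exact Finset.sum_congr rfl fun j _ => by ring

theorem B_smul (a : ℂ) (M : V34) (i i' : Fin 4) :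
    B (a • M) i i' = ((Complex.normSq a : ℝ) : ℂ) * B M i i' := by
  simp only [B, Finset.mul_sum, Pi.smul_apply, smul_eq_mul, map_mul, ← Complex.mul_conj]
  exact Finset.sum_congr rfl fun j _ => by ring

theorem T_smul (a : ℂ) (M : V34) : T (a • M) = Complex.normSq a * T M := by
  simp only [T, Finset.mul_sum, Pi.smul_apply, smul_eq_mul, map_mul]

theorem D_smul (a : ℂ) (M : V34) : D (a • M) = Complex.normSq a ^ 2 * D M := by
  simp only [D, A_smul, mul_pow, ← Complex.ofReal_pow, Complex.re_ofReal_mul]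
  ring

theorem th0_smul {a : ℂ} (ha : a ≠ 0) (M : V34) : th0 (a • M) = th0 M := by
  have hn : Complex.normSq a ≠ 0 := fun h => ha (Complex.normSq_eq_zero.1 h)
  have h1 : CN (a • M) = Complex.normSq a ^ 2 * CN M := by
    simp only [CN, A_smul, T_smul, D_smul, mul_pow, ← Complex.ofReal_pow, Complex.re_ofReal_mul,
      ← mul_sub]
    ring
  have h2 : CD (a • M) = Complex.normSq a ^ 2 * CD M := by
    simp only [CD, A_smul, T_smul, D_smul, Complex.re_ofReal_mul]
    ring
  unfold th0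
  rw [h1, h2, A_smul, T_smul, Complex.re_ofReal_mul, mul_div_mul_left _ _ (pow_ne_zero 2 hn),
    mul_div_mul_left _ _ hn]

theorem nn_smul {a : ℂ} (ha : a ≠ 0) (M : V34) : nn (a • M) = nn M := by
  have hn : Complex.normSq a ≠ 0 := fun h => ha (Complex.normSq_eq_zero.1 h)
  have key : ∀ x y : ℝ, 2 * (Complex.normSq a * x + Complex.normSq a * y) /
      (Complex.normSq a * T M) = 2 * (x + y) / T M := by
    intro x y
    rw [← mul_add, mul_left_comm, mul_div_mul_left _ _ hn]
  unfold nn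
  simp only [B_smul, T_smul, Complex.re_ofReal_mul, Complex.im_ofReal_mul, key]

/-! ## Values at the points of the product -/

/-- the matrix of rank one -/
def seg (u : Fin 3 → ℂ) (v : Fin 4 → ℂ) : V34 := fun ij => u ij.1 * v ij.2

/-- the norm of a vector -/
def nq {N : ℕ} (v : Fin N → ℂ) : ℝ := ∑ i, Complex.normSq (v i)

theorem A_seg (u : Fin 3 → ℂ) (v : Fin 4 → ℂ) (i i' : Fin 3) :
    A (seg u v) i i' = ((nq v : ℝ) : ℂ) * (u i * conj (u i')) := by
  simp only [A, seg, nq, Complex.ofReal_sum, Finset.sum_mul, map_mul, ← Complex.mul_conj]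
  exact Finset.sum_congr rfl fun j _ => by ring

theorem B_seg (u : Fin 3 → ℂ) (v : Fin 4 → ℂ) (i i' : Fin 4) :
    B (seg u v) i i' = ((nq u : ℝ) : ℂ) * (v i * conj (v i')) := by
  simp only [B, seg, nq, Complex.ofReal_sum, Finset.sum_mul, map_mul, ← Complex.mul_conj]
  exact Finset.sum_congr rfl fun j _ => by ring

theorem T_seg (u : Fin 3 → ℂ) (v : Fin 4 → ℂ) : T (seg u v) = nq u * nq v := by
  simp only [T, seg, nq, Finset.sum_mul, Finset.mul_sum, map_mul]
  rw [Finset.sum_comm]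

theorem nq_pos {N : ℕ} {v : Fin N → ℂ} (h : v ≠ 0) : 0 < nq v := by
  obtain ⟨i, hi⟩ := Function.ne_iff.1 h
  exact Finset.sum_pos' (fun j _ => Complex.normSq_nonneg _)
    ⟨i, Finset.mem_univ i, Complex.normSq_pos.2 hi⟩

/-- The condition on the vector `v`. -/
theorem nn_seg {u : Fin 3 → ℂ} {v : Fin 4 → ℂ} (hu : u ≠ 0) :
    nn (seg u v) = ![2 * ((v 0 * conj (v 3)).re + (v 1 * conj (v 2)).im) / nq v,
      2 * ((v 1 * conj (v 3)).re + (v 2 * conj (v 0)).im) / nq v,
      2 * ((v 2 * conj (v 3)).re + (v 0 * conj (v 1)).im) / nq v] := by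
  have hn := (nq_pos hu).ne'
  have key : ∀ x y : ℝ, 2 * (nq u * x + nq u * y) / (nq u * nq v) = 2 * (x + y) / nq v := by
    intro x y
    rw [← mul_add, mul_left_comm, mul_div_mul_left _ _ hn]
  unfold nn
  simp only [B_seg, T_seg, Complex.re_ofReal_mul, Complex.im_ofReal_mul, key]

theorem nn_mem {u : Fin 3 → ℂ} {v : Fin 4 → ℂ} (hu : u ≠ 0) (hv0 : v ≠ 0)
    (hv : v 0 ^ 2 + v 1 ^ 2 + v 2 ^ 2 = v 3 ^ 2) :
    nn (seg u v) 0 ^ 2 + nn (seg u v) 1 ^ 2 + nn (seg u v) 2 ^ 2 = 1 := by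
  have hn := (nq_pos hv0).ne'
  rw [nn_seg hu]
  simp only [Matrix.cons_val_zero, Matrix.cons_val_one, Matrix.cons_val]
  have h1 : (v 0).re ^ 2 + (v 1).re ^ 2 + (v 2).re ^ 2 - ((v 0).im ^ 2 + (v 1).im ^ 2 +
      (v 2).im ^ 2) - (v 3).re ^ 2 + (v 3).im ^ 2 = 0 := by
    have := congrArg Complex.re hv
    simp only [pow_two, Complex.add_re, Complex.mul_re] at this
    linear_combination this
  have h2 : (v 0).re * (v 0).im + (v 1).re * (v 1).im + (v 2).re * (v 2).im -
      (v 3).re * (v 3).im = 0 := by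
    have := congrArg Complex.im hv
    simp only [pow_two, Complex.add_im, Complex.mul_im] at this
    linear_combination this / 2
  rw [div_pow, div_pow, div_pow, ← add_div, ← add_div, div_eq_one_iff_eq (pow_ne_zero 2 hn)]
  have h3 : nq v = (v 0).re ^ 2 + (v 1).re ^ 2 + (v 2).re ^ 2 + ((v 0).im ^ 2 + (v 1).im ^ 2 +
      (v 2).im ^ 2) + (v 3).re ^ 2 + (v 3).im ^ 2 := by
    rw [nq, Fin.sum_univ_four]
    simp only [Complex.normSq_apply]
    ring
  rw [h3]
  simp only [Complex.mul_re, Complex.mul_im, Complex.conj_re, Complex.conj_im]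
  linear_combination (-(v 0).re ^ 2 - (v 1).re ^ 2 - (v 2).re ^ 2 + ((v 0).im ^ 2 + (v 1).im ^ 2 +
      (v 2).im ^ 2) + (v 3).re ^ 2 - (v 3).im ^ 2) * h1 - 4 * ((v 0).re * (v 0).im +
      (v 1).re * (v 1).im + (v 2).re * (v 2).im - (v 3).re * (v 3).im) * h2

/-- the polynomial `|z₂|² - |z₁ - z₂/2|²` -/
def PP (a b : ℂ) : ℝ := Complex.normSq b - Complex.normSq (a - b / 2)

/-- numerator -/
def cn (u : Fin 3 → ℂ) : ℝ := nq u * PP (u 1) (u 2) + PP (u 0 ^ 2) (u 1 ^ 2 - u 2 ^ 2)

/-- denominator -/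
def cd (u : Fin 3 → ℂ) : ℝ := nq u * (Complex.normSq (u 1) + Complex.normSq (u 2)) +
  Complex.normSq (u 0 ^ 2) + Complex.normSq (u 1 ^ 2 - u 2 ^ 2)

theorem D_seg (u : Fin 3 → ℂ) (v : Fin 4 → ℂ) :
    D (seg u v) = nq v ^ 2 * Complex.normSq (u 1 ^ 2 - u 2 ^ 2) := by
  simp only [D, A_seg, mul_pow, ← Complex.ofReal_pow, Complex.re_ofReal_mul]
  simp only [pow_two, Complex.mul_re, Complex.mul_im, Complex.conj_re, Complex.conj_im,
    Complex.normSq_apply, Complex.sub_re, Complex.sub_im]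
  ring

theorem CN_seg (u : Fin 3 → ℂ) (v : Fin 4 → ℂ) : CN (seg u v) = nq v ^ 2 * cn u := by
  simp only [CN, D_seg, T_seg, A_seg, mul_pow, ← Complex.ofReal_pow, Complex.re_ofReal_mul,
    ← mul_sub, cn, PP]
  simp only [pow_two, Complex.mul_re, Complex.mul_im, Complex.conj_re, Complex.conj_im,
    Complex.normSq_apply, Complex.sub_re, Complex.sub_im, Complex.div_ofNat_re,
    Complex.div_ofNat_im]
  ring

theorem CD_seg (u : Fin 3 → ℂ) (v : Fin 4 → ℂ) : CD (seg u v) = nq v ^ 2 * cd u := by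
  simp only [CD, D_seg, T_seg, A_seg, Complex.re_ofReal_mul, cd]
  simp only [pow_two, Complex.mul_re, Complex.mul_im, Complex.conj_re, Complex.conj_im,
    Complex.normSq_apply, Complex.sub_re, Complex.sub_im]
  ring

theorem th0_seg {u : Fin 3 → ℂ} {v : Fin 4 → ℂ} (hv0 : v ≠ 0) : th0 (seg u v) =
    ((cn u / cd u : ℝ) : ℂ) + (((u 0 * conj (u 1)).re / nq u : ℝ) : ℂ) * Complex.I := by
  have hn := (nq_pos hv0).ne'
  unfold th0
  rw [CN_seg, CD_seg, mul_div_mul_left _ _ (pow_ne_zero 2 hn), A_seg, T_seg,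
    Complex.re_ofReal_mul, mul_comm (nq u), mul_div_mul_left _ _ hn]

theorem cd_pos {u : Fin 3 → ℂ} (hu : u ≠ 0) : 0 < cd u := by
  have hn := nq_pos hu
  have h0 := Complex.normSq_nonneg (u 1)
  have h0' := Complex.normSq_nonneg (u 2)
  have h1 := Complex.normSq_nonneg (u 0 ^ 2)
  have h2 := Complex.normSq_nonneg (u 1 ^ 2 - u 2 ^ 2)
  unfold cd
  by_cases h : u 1 = 0 ∧ u 2 = 0
  · have h3 : u 0 ≠ 0 := by
      intro h3
      apply hu
      funext i
      fin_cases i
      · exact h3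
      · exact h.1
      · exact h.2
    have := Complex.normSq_pos.2 (pow_ne_zero 2 h3)
    have h4 : 0 ≤ nq u * (Complex.normSq (u 1) + Complex.normSq (u 2)) := by positivity
    linarith
  · have : 0 < Complex.normSq (u 1) + Complex.normSq (u 2) := by
      by_cases h5 : u 1 = 0
      · have h6 : u 2 ≠ 0 := fun h6 => h ⟨h5, h6⟩
        have := Complex.normSq_pos.2 h6
        linarith
      · have := Complex.normSq_pos.2 h5
        linarith
    have h4 : 0 < nq u * (Complex.normSq (u 1) + Complex.normSq (u 2)) := by positivity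
    linarith

theorem PP_smul (m a b : ℂ) : PP (m * a) (m * b) = Complex.normSq m * PP a b := by
  unfold PP
  have : m * a - m * b / 2 = m * (a - b / 2) := by ring
  rw [this, Complex.normSq_mul, Complex.normSq_mul]
  ring

/-- The numerator on the affine part of the curve. -/
theorem cn_affine {u : Fin 3 → ℂ} (hc : u 0 ^ 2 * u 2 = u 1 ^ 3 - u 1 * u 2 ^ 2)
    (h2 : u 2 ≠ 0) : ∃ m : ℝ, 0 ≤ m ∧ cn u = (nq u + m) * PP (u 1) (u 2) := by
  set μ : ℂ := (u 1 ^ 2 - u 2 ^ 2) / u 2 with hμ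
  have e2 : u 1 ^ 2 - u 2 ^ 2 = μ * u 2 := by
    rw [hμ]
    field_simp
  have e1 : u 0 ^ 2 = μ * u 1 := by
    rw [hμ]
    field_simp
    linear_combination hc
  refine ⟨Complex.normSq μ, Complex.normSq_nonneg _, ?_⟩
  unfold cn
  rw [e1, e2, PP_smul]
  ring

/-- `u 2 = 0` -/
theorem at_inf {u : Fin 3 → ℂ} (hu : u ≠ 0) (hc : u 0 ^ 2 * u 2 = u 1 ^ 3 - u 1 * u 2 ^ 2)
    (h2 : u 2 = 0) : cn u < 0 := by
  have h1 : u 1 = 0 := by
    rw [h2] at hc
    have : u 1 ^ 3 = 0 := by linear_combination -hc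
    exact pow_eq_zero_iff (by norm_num) |>.1 this
  have h0 : u 0 ≠ 0 := by
    intro h0
    apply hu
    funext i
    fin_cases i
    · exact h0
    · exact h1
    · exact h2
  unfold cn PP
  rw [h1, h2]
  have := Complex.normSq_pos.2 (pow_ne_zero 2 h0)
  simp only [map_zero, zero_div, sub_zero, ne_eq, OfNat.ofNat_ne_zero, not_false_eq_true, zero_pow,
    mul_zero]
  linarith

/-- The two functions have no common zeros on the curve. -/
theorem no_zero {u : Fin 3 → ℂ} (hu : u ≠ 0) (hc : u 0 ^ 2 * u 2 = u 1 ^ 3 - u 1 * u 2 ^ 2)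
    (h1 : cn u = 0) (h3 : (u 0 * conj (u 1)).re = 0) : False := by
  by_cases h2 : u 2 = 0
  · exact absurd h1 (at_inf hu hc h2).ne
  obtain ⟨m, hm, h4⟩ := cn_affine hc h2
  have hn := nq_pos hu
  have h5 : PP (u 1) (u 2) = 0 := by
    rw [h4] at h1
    exact (mul_eq_zero.1 h1).resolve_left (by positivity)
  set z : ℂ := u 1 / u 2 with hz
  set w : ℂ := u 0 / u 2 with hw
  have ez : u 1 = u 2 * z := by rw [hz]; field_simp
  have ew : u 0 = u 2 * w := by rw [hw]; field_simp
  have hc' : w ^ 2 = z ^ 3 - z := by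
    rw [ez, ew] at hc
    have : u 2 ^ 3 * w ^ 2 = u 2 ^ 3 * (z ^ 3 - z) := by linear_combination hc
    exact mul_left_cancel₀ (pow_ne_zero 3 h2) this
  have h5' : Complex.normSq (z - 1 / 2) = 1 := by
    have e : PP (u 1) (u 2) = Complex.normSq (u 2) * PP z 1 := by
      rw [← PP_smul, ← ez, mul_one]
    rw [e] at h5
    have := (mul_eq_zero.1 h5).resolve_left (Complex.normSq_pos.2 h2).ne'
    unfold PP at this
    rw [map_one] at this
    linarith
  have h3' : (w * conj z).re = 0 := by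
    rw [ez, ew] at h3
    have e : u 2 * w * conj (u 2 * z) = ((Complex.normSq (u 2) : ℝ) : ℂ) * (w * conj z) := by
      rw [map_mul, ← Complex.mul_conj]
      ring
    rw [e, Complex.re_ofReal_mul] at h3
    exact (mul_eq_zero.1 h3).resolve_left (Complex.normSq_pos.2 h2).ne'
  set s : ℝ := (w * conj z).im with hs
  have e1 : (w * conj z) ^ 2 = ((-s ^ 2 : ℝ) : ℂ) := by
    have : w * conj z = ((s : ℝ) : ℂ) * Complex.I := by
      apply Complex.ext
      · simp [h3']
      · simp [hs]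
    rw [this, mul_pow, Complex.I_sq]
    push_cast
    ring
  have e2 : (z ^ 3 - z) * conj z ^ 2 = ((-s ^ 2 : ℝ) : ℂ) := by
    rw [← hc', ← e1]
    ring
  have e3 := congrArg Complex.im e2
  have e4 := congrArg Complex.re e2
  rw [Complex.ofReal_im] at e3
  rw [Complex.ofReal_re] at e4
  set a : ℝ := z.re with ha
  set b : ℝ := z.im with hb
  have e5 : (a - 1 / 2) ^ 2 + b ^ 2 = 1 := by
    have h6 := h5'
    rw [Complex.normSq_apply] at h6
    simp only [Complex.sub_re, Complex.sub_im, Complex.div_ofNat_re, Complex.div_ofNat_im,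
      Complex.one_re, Complex.one_im, ← ha, ← hb] at h6
    linear_combination h6
  have e6 : (a ^ 2 + b ^ 2) * (a ^ 2 + b ^ 2 + 1) * b = 0 := by
    rw [← e3]
    simp only [pow_succ, pow_zero, one_mul, Complex.mul_im, Complex.mul_re, Complex.sub_im,
      Complex.sub_re, Complex.conj_re, Complex.conj_im, ← ha, ← hb]
    ring
  have e7 : (a ^ 2 + b ^ 2) * ((a ^ 2 + b ^ 2) * a - a) = - s ^ 2 := by
    rw [← e4]
    simp only [pow_succ, pow_zero, one_mul, Complex.mul_im, Complex.mul_re, Complex.sub_im,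
      Complex.sub_re, Complex.conj_re, Complex.conj_im, ← ha, ← hb]
    ring
  have hN : 0 < a ^ 2 + b ^ 2 := by nlinarith [sq_nonneg a, sq_nonneg b]
  have hb0 : b = 0 := by
    rcases mul_eq_zero.1 e6 with h | h
    · exfalso
      rcases mul_eq_zero.1 h with h | h
      · linarith
      · linarith
    · exact h
  rw [hb0] at e5 e7
  have e8 : (a - 3 / 2) * (a + 1 / 2) = 0 := by linear_combination e5
  rcases mul_eq_zero.1 e8 with h | h
  · have : a = 3 / 2 := by linarith
    rw [this] at e7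
    nlinarith [sq_nonneg s]
  · have : a = -1 / 2 := by linarith
    rw [this] at e7
    nlinarith [sq_nonneg s]

theorem th0_ne {u : Fin 3 → ℂ} {v : Fin 4 → ℂ} (hu : u ≠ 0) (hv0 : v ≠ 0)
    (hc : u 0 ^ 2 * u 2 = u 1 ^ 3 - u 1 * u 2 ^ 2) : th0 (seg u v) ≠ 0 := by
  rw [th0_seg hv0]
  intro h
  have h1 := congrArg Complex.re h
  have h2 := congrArg Complex.im h
  simp only [Complex.add_re, Complex.ofReal_re, Complex.mul_re, Complex.I_re, mul_zero,
    Complex.ofReal_im, Complex.I_im, mul_one, sub_self, add_zero, Complex.zero_re, Complex.add_im,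
    Complex.mul_im, zero_add, Complex.zero_im] at h1 h2
  have h3 := (div_eq_zero_iff.1 h1).resolve_right (cd_pos hu).ne'
  have h4 := (div_eq_zero_iff.1 h2).resolve_right (nq_pos hu).ne'
  exact no_zero hu hc h3 h4

/-! ## Continuity -/

theorem cA (i i' : Fin 3) : Continuous fun M : V34 => A M i i' := by
  unfold A
  fun_prop

theorem cB (i i' : Fin 4) : Continuous fun M : V34 => B M i i' := by
  unfold B
  fun_prop

theorem cT : Continuous T := by
  unfold T
  refine continuous_finsetSum _ fun i _ => continuous_finsetSum _ fun j _ => ?_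
  exact Complex.continuous_normSq.comp (continuous_apply _)

theorem cCN : Continuous CN := by
  have h := fun i i' => cA i i'
  have hT := cT
  unfold CN D
  fun_prop

theorem cCD : Continuous CD := by
  have h := fun i i' => cA i i'
  have hT := cT
  unfold CD D
  fun_prop

theorem th0_at {M : V34} (h1 : CD M ≠ 0) (h2 : T M ≠ 0) : ContinuousAt th0 M := by
  have hA : ContinuousAt (fun M : V34 => (A M 0 1).re / T M) M :=
    (Complex.continuous_re.comp (cA 0 1)).continuousAt.div cT.continuousAt h2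
  have hB : ContinuousAt (fun M : V34 => CN M / CD M) M :=
    cCN.continuousAt.div cCD.continuousAt h1
  unfold th0
  exact (Complex.continuous_ofReal.continuousAt.comp hB).add
    ((Complex.continuous_ofReal.continuousAt.comp hA).mul continuousAt_const)

theorem nn_at {M : V34} (h2 : T M ≠ 0) : ContinuousAt nn M := by
  have key : ∀ a b c d : Fin 4,
      ContinuousAt (fun M : V34 => 2 * ((B M a b).re + (B M c d).im) / T M) M := by
    intro a b c d
    refine ContinuousAt.div ?_ cT.continuousAt h2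
    have h1 := cB a b
    have h2 := cB c d
    have : Continuous fun M : V34 => 2 * ((B M a b).re + (B M c d).im) := by fun_prop
    exact this.continuousAt
  refine continuousAt_pi.2 fun i => ?_
  fin_cases i
  · exact key 0 3 1 2
  · exact key 1 3 2 0
  · exact key 2 3 0 1

/-- the pair of the maps -/
def FF (M : V34) : ℂ × (Fin 3 → ℝ) := (th0 M / (‖th0 M‖ : ℂ), nn M)

theorem FF_smul {a : ℂ} (ha : a ≠ 0) (M : V34) : FF (a • M) = FF M := by
  unfold FF
  rw [th0_smul ha, nn_smul ha]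

/-- Conditions at the points of the cone. -/
structure Cone (M : V34) : Prop where
  cd : CD M ≠ 0
  t : T M ≠ 0
  th : th0 M ≠ 0
  n : nn M 0 ^ 2 + nn M 1 ^ 2 + nn M 2 ^ 2 = 1

theorem Cone.smul {M : V34} (h : Cone M) {a : ℂ} (ha : a ≠ 0) : Cone (a • M) := by
  have hn : Complex.normSq a ≠ 0 := fun h => ha (Complex.normSq_eq_zero.1 h)
  refine ⟨?_, ?_, ?_, ?_⟩
  · have h2 : CD (a • M) = Complex.normSq a ^ 2 * CD M := by
      simp only [CD, A_smul, T_smul, D_smul, Complex.re_ofReal_mul]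
      ring
    rw [h2]
    exact mul_ne_zero (pow_ne_zero 2 hn) h.cd
  · rw [T_smul]
    exact mul_ne_zero hn h.t
  · rw [th0_smul ha]
    exact h.th
  · rw [nn_smul ha]
    exact h.n

theorem cone_seg {u : Fin 3 → ℂ} {v : Fin 4 → ℂ} (hu : u ≠ 0) (hv0 : v ≠ 0)
    (hc : u 0 ^ 2 * u 2 = u 1 ^ 3 - u 1 * u 2 ^ 2) (hv : v 0 ^ 2 + v 1 ^ 2 + v 2 ^ 2 = v 3 ^ 2) :
    Cone (seg u v) where
  cd := by
    rw [CD_seg]
    exact mul_ne_zero (pow_ne_zero 2 (nq_pos hv0).ne') (cd_pos hu).ne'
  t := by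
    rw [T_seg]
    exact mul_ne_zero (nq_pos hu).ne' (nq_pos hv0).ne'
  th := th0_ne hu hv0 hc
  n := nn_mem hu hv0 hv

theorem FF_at {M : V34} (h : Cone M) : ContinuousAt FF M := by
  have h1 := th0_at h.cd h.t
  refine ContinuousAt.prodMk ?_ (nn_at h.t)
  refine h1.div ?_ ?_
  · exact Complex.continuous_ofReal.continuousAt.comp h1.norm
  · exact Complex.ofReal_ne_zero.2 (norm_ne_zero_iff.2 h.th)

theorem cone_mk {v : V34} {hv : v ≠ 0} (h : Projectivization.mk ℂ v hv ∈ segZ) : Cone v := by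
  obtain ⟨u, w, h0, h1, h2, h3⟩ := h
  obtain ⟨a, ha⟩ := (Projectivization.mk_eq_mk_iff ℂ _ _ _ _).1 h3
  have hu : u ≠ 0 := by
    rintro rfl
    apply h0
    funext ij
    simp
  have hw : w ≠ 0 := by
    rintro rfl
    apply h0
    funext ij
    simp
  have := (cone_seg hu hw h1 h2).smul a.ne_zero
  have e : (a : ℂ) • seg u w = v := ha
  rwa [e] at this

theorem cone_rep {p : ℙ ℂ V34} (h : p ∈ segZ) : Cone p.rep := by
  apply cone_mk (hv := p.rep_nonzero)
  rwa [Projectivization.mk_rep]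

/-- the map on projective space -/
def ff (p : ℙ ℂ V34) : ℂ × (Fin 3 → ℝ) := FF p.rep

theorem ff_mk (v : {v : V34 // v ≠ 0}) : ff (qp v) = FF v.1 := by
  obtain ⟨a, ha⟩ := Projectivization.exists_smul_eq_mk_rep ℂ v.1 v.2
  change FF (Projectivization.mk ℂ v.1 v.2).rep = FF v.1
  rw [← ha]
  exact FF_smul a.ne_zero v.1

theorem ff_at {p : ℙ ℂ V34} (h : p ∈ segZ) : ContinuousAt ff p := by
  obtain ⟨v, rfl⟩ := qp_quot.surjective p
  rw [← qp_open.continuousAt_comp_iff]
  have e : ff ∘ qp = fun v : {v : V34 // v ≠ 0} => FF v.1 := funext ff_mk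
  rw [e]
  have hc : Cone v.1 := cone_mk (hv := v.2) h
  exact (FF_at hc).comp continuous_subtype_val.continuousAt

theorem norm_nrm {z : ℂ} (h : z ≠ 0) : ‖z / (‖z‖ : ℂ)‖ = 1 := by
  rw [norm_div, Complex.norm_real, norm_norm, div_self (norm_ne_zero_iff.2 h)]

/-- the map -/
def mm : C(segZ, Circle × S2) where
  toFun p := (⟨(ff p.1).1, mem_sphere_zero_iff_norm.2 (norm_nrm (cone_rep p.2).th)⟩,
    ⟨(ff p.1).2, (cone_rep p.2).n⟩)
  continuous_toFun := by
    have h : Continuous fun p : segZ => ff p.1 := continuous_iff_continuousAt.2 fun p =>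
      (ff_at p.2).comp continuous_subtype_val.continuousAt
    exact (Continuous.subtype_mk (continuous_fst.comp h) _).prodMk
      (Continuous.subtype_mk (continuous_snd.comp h) _)

/-! ## The composition -/

/-- the two coordinates of the point of the curve -/
def uu (ζ : Circle) : Fin 3 → ℂ := ![(((ζ : ℂ).im / 2 * Real.sqrt (1 + (1 + (ζ : ℂ).re) / 2) : ℝ) : ℂ),
  ((-(1 + (ζ : ℂ).re) / 2 : ℝ) : ℂ), 1]

/-- the point of the quadric -/
def vv (n : S2) : Fin 4 → ℂ := ![((n.1 0 : ℝ) : ℂ), ((n.1 1 : ℝ) : ℂ), ((n.1 2 : ℝ) : ℂ), 1]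

theorem uu_ne (ζ : Circle) : uu ζ ≠ 0 := by
  intro h
  have := congrFun h 2
  simp [uu] at this

theorem vv_ne (n : S2) : vv n ≠ 0 := by
  intro h
  have := congrFun h 3
  simp [vv] at this

/-- the coordinates of the image -/
theorem bco_tauA (q : Circle × S2) : bco (tauA q) = seg (uu q.1) (vv q.2) := by
  funext ij
  rfl

theorem mm_fst (q : Circle × S2) : ((mm (bseg (tauA q))).1 : ℂ) =
    th0 (seg (uu q.1) (vv q.2)) / (‖th0 (seg (uu q.1) (vv q.2))‖ : ℂ) := by
  change (ff (qp ⟨bco (tauA q), bco_ne _⟩)).1 = _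
  rw [ff_mk]
  change (FF (bco (tauA q))).1 = _
  rw [bco_tauA]
  rfl

theorem mm_snd (q : Circle × S2) : (mm (bseg (tauA q))).2 = q.2 := by
  apply Subtype.ext
  change (ff (qp ⟨bco (tauA q), bco_ne _⟩)).2 = _
  rw [ff_mk]
  change (FF (bco (tauA q))).2 = _
  rw [bco_tauA]
  change nn (seg (uu q.1) (vv q.2)) = _
  rw [nn_seg (uu_ne _)]
  have h := q.2.2
  have hn : nq (vv q.2) = 2 := by
    rw [nq, Fin.sum_univ_four]
    simp only [vv, Matrix.cons_val_zero, Matrix.cons_val_one, Matrix.cons_val,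
      Complex.normSq_ofReal, map_one]
    linarith
  rw [hn]
  funext i
  fin_cases i <;> simp [vv]

/-- The image and `-ζ` are in a common open half plane. -/
theorem inner_pos (q : Circle × S2) :
    0 < (th0 (seg (uu q.1) (vv q.2)) * conj (-(q.1 : ℂ))).re := by
  rw [th0_seg (vv_ne _)]
  set x : ℝ := (q.1 : ℂ).re with hx
  set y : ℝ := (q.1 : ℂ).im with hy
  have hxy : x ^ 2 + y ^ 2 = 1 := by
    have := Circle.normSq_coe q.1
    rw [Complex.normSq_apply] at this
    rw [hx, hy]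
    linarith
  have hu := uu_ne q.1
  have hcd := cd_pos hu
  have hnq := nq_pos hu
  set r : ℝ := Real.sqrt (1 + (1 + x) / 2) with hr
  have hx1 : -1 ≤ x := by nlinarith
  have hx2 : x ≤ 1 := by nlinarith
  have hrpos : 0 < r := Real.sqrt_pos.2 (by linarith)
  have hr2 : r ^ 2 = 1 + (1 + x) / 2 := Real.sq_sqrt (by linarith)
  have e0 : uu q.1 0 = ((y / 2 * r : ℝ) : ℂ) := rfl
  have e1 : uu q.1 1 = ((-(1 + x) / 2 : ℝ) : ℂ) := rfl
  have e2 : uu q.1 2 = 1 := rfl
  have hc : uu q.1 0 ^ 2 * uu q.1 2 = uu q.1 1 ^ 3 - uu q.1 1 * uu q.1 2 ^ 2 := by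
    rw [e0, e1, e2]
    norm_cast
    rw [mul_pow, hr2]
    linear_combination (1 + (1 + x) / 2) / 4 * hxy
  obtain ⟨m, hm, hcn⟩ := cn_affine hc (by rw [e2]; exact one_ne_zero)
  have hPP : PP (uu q.1 1) (uu q.1 2) = - x * (1 + x / 4) := by
    rw [e1, e2, PP]
    have e3 : (((-(1 + x) / 2 : ℝ) : ℂ) - 1 / 2) = ((-(1 + x) / 2 - 1 / 2 : ℝ) : ℂ) := by
      push_cast
      ring
    rw [e3, Complex.normSq_ofReal, map_one]
    ring
  have hS : (uu q.1 0 * conj (uu q.1 1)).re = - (y * (r * (1 + x) / 4)) := by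
    rw [e0, e1, Complex.conj_ofReal, ← Complex.ofReal_mul, Complex.ofReal_re]
    ring
  rw [hcn, hPP, hS]
  have key : ((((((nq (uu q.1) + m) * (-x * (1 + x / 4)) / cd (uu q.1) : ℝ) : ℂ)) +
      (((-(y * (r * (1 + x) / 4)) / nq (uu q.1) : ℝ)) : ℂ) * Complex.I) *
        conj (-(q.1 : ℂ))).re = (nq (uu q.1) + m) / cd (uu q.1) * (x ^ 2 * (1 + x / 4)) +
          y ^ 2 * (1 + x) * (r / 4 / nq (uu q.1)) := by
    rw [Complex.mul_re]
    simp only [map_neg, Complex.neg_re, Complex.neg_im, Complex.conj_re, Complex.conj_im,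
      Complex.add_re, Complex.add_im, Complex.mul_re, Complex.mul_im, Complex.I_re, Complex.I_im,
      Complex.ofReal_re, Complex.ofReal_im, ← hx, ← hy]
    ring
  rw [key]
  have hpos1 : 0 < (nq (uu q.1) + m) / cd (uu q.1) := by positivity
  have hpos2 : 0 < r / 4 / nq (uu q.1) := by positivity
  have hp3 : 0 ≤ x ^ 2 * (1 + x / 4) := by nlinarith [sq_nonneg x]
  have hp4 : 0 ≤ y ^ 2 * (1 + x) := by nlinarith [sq_nonneg y]
  by_cases hx0 : x = 0
  · rw [hx0] at hxy ⊢
    have : y ^ 2 = 1 := by linarith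
    rw [this]
    simp only [ne_eq, OfNat.ofNat_ne_zero, not_false_eq_true, zero_pow, zero_mul, mul_zero,
      add_zero, zero_add, mul_one, one_mul]
    exact hpos2
  · have : 0 < x ^ 2 * (1 + x / 4) := by
      have : 0 < x ^ 2 := by positivity
      nlinarith
    have h1 := mul_pos hpos1 this
    have h2 := mul_nonneg hp4 hpos2.le
    linarith

theorem HE_of_htpy_inv {X : Type} [TopologicalSpace X] (f : C(X, X)) (e : C(X, X))
    (he : ∀ x, e (e x) = x) (L : C(X × unitInterval, X)) (h0 : ∀ x, L (x, 0) = f x)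
    (h1 : ∀ x, L (x, 1) = e x) : HE f := by
  refine HE_of_homotopyEquiv f e ⟨fun p => e (L (p.1, unitInterval.symm p.2)), by fun_prop⟩
    ⟨fun p => L (e p.1, unitInterval.symm p.2), by fun_prop⟩ ?_ ?_ ?_ ?_
  · intro x
    change e (L (x, unitInterval.symm 0)) = x
    rw [unitInterval.symm_zero, h1, he]
  · intro x
    change e (L (x, unitInterval.symm 1)) = e (f x)
    rw [unitInterval.symm_one, h0]
  · intro x
    change L (e x, unitInterval.symm 0) = x
    rw [unitInterval.symm_zero, h1, he]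
  · intro x
    change L (e x, unitInterval.symm 1) = f (e x)
    rw [unitInterval.symm_one, h0]

/-- the straight line -/
def lin (p : (Circle × S2) × unitInterval) : ℂ :=
  ((1 - (p.2 : ℝ) : ℝ) : ℂ) * ((mm (bseg (tauA p.1))).1 : ℂ) + (((p.2 : ℝ) : ℝ) : ℂ) * (-(p.1.1 : ℂ))

theorem lin_ne (p : (Circle × S2) × unitInterval) : lin p ≠ 0 := by
  intro h
  have h1 := inner_pos p.1
  have hne : th0 (seg (uu p.1.1) (vv p.1.2)) ≠ 0 := by
    intro h2
    rw [h2] at h1
    simp at h1
  have h2 : 0 < (((mm (bseg (tauA p.1))).1 : ℂ) * conj (-(p.1.1 : ℂ))).re := by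
    rw [mm_fst, div_mul_eq_mul_div, Complex.div_ofReal_re]
    exact div_pos h1 (norm_pos_iff.2 hne)
  have h3 : ((-(p.1.1 : ℂ)) * conj (-(p.1.1 : ℂ))).re = 1 := by
    rw [Complex.mul_conj, Complex.ofReal_re, Complex.normSq_neg, Circle.normSq_coe]
  have h4 : (lin p * conj (-(p.1.1 : ℂ))).re = (1 - (p.2 : ℝ)) *
      (((mm (bseg (tauA p.1))).1 : ℂ) * conj (-(p.1.1 : ℂ))).re + (p.2 : ℝ) := by
    unfold lin
    rw [add_mul, Complex.add_re, mul_assoc, mul_assoc, Complex.re_ofReal_mul,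
      Complex.re_ofReal_mul, h3, mul_one]
  rw [h, zero_mul, Complex.zero_re] at h4
  have h5 := p.2.2.1
  have h6 := p.2.2.2
  by_cases h7 : (p.2 : ℝ) = 1
  · rw [h7] at h4
    norm_num at h4
  · have : (p.2 : ℝ) < 1 := lt_of_le_of_ne h6 h7
    nlinarith

theorem continuous_lin : Continuous lin := by
  have h1 : Continuous fun p : (Circle × S2) × unitInterval =>
      ((mm (bseg (tauA p.1))).1 : ℂ) := by
    have : Continuous fun p : (Circle × S2) × unitInterval => (mm (bseg (tauA p.1))).1 :=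
      continuous_fst.comp (mm.continuous.comp (bseg.continuous.comp
        (tauA.continuous.comp continuous_fst)))
    exact continuous_subtype_val.comp this
  have h2 : Continuous fun p : (Circle × S2) × unitInterval => (p.1.1 : ℂ) :=
    continuous_subtype_val.comp (continuous_fst.comp continuous_fst)
  have h3 : Continuous fun p : (Circle × S2) × unitInterval => (p.2 : ℝ) :=
    continuous_subtype_val.comp continuous_snd
  unfold lin
  fun_prop

/-- the homotopy -/
def LL : C((Circle × S2) × unitInterval, Circle × S2) where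
  toFun p := (⟨lin p / (‖lin p‖ : ℂ), mem_sphere_zero_iff_norm.2 (norm_nrm (lin_ne p))⟩, p.1.2)
  continuous_toFun := by
    refine Continuous.prodMk (Continuous.subtype_mk ?_ _) (continuous_snd.comp continuous_fst)
    exact continuous_lin.div (Complex.continuous_ofReal.comp continuous_lin.norm) fun p =>
      Complex.ofReal_ne_zero.2 (norm_ne_zero_iff.2 (lin_ne p))

theorem HE_comp : HE (mm.comp (bseg.comp tauA)) := by
  refine HE_of_htpy_inv _ ⟨fun q => (-q.1, q.2), by fun_prop⟩ (fun q => ?_) LL ?_ ?_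
  · change (- -q.1, q.2) = q
    rw [neg_neg]
  · intro q
    refine Prod.ext ?_ ?_
    · apply Circle.ext
      change lin (q, 0) / (‖lin (q, 0)‖ : ℂ) = ((mm (bseg (tauA q))).1 : ℂ)
      have : lin (q, 0) = ((mm (bseg (tauA q))).1 : ℂ) := by
        simp [lin]
      rw [this, Circle.norm_coe]
      simp
    · exact (mm_snd q).symm
  · intro q
    refine Prod.ext ?_ rfl
    apply Circle.ext
    change lin (q, 1) / (‖lin (q, 1)‖ : ℂ) = ((-q.1 : Circle) : ℂ)
    have : lin (q, 1) = ((-q.1 : Circle) : ℂ) := by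
      simp [lin]
    rw [this, Circle.norm_coe]
    simp

end PG3

/-- G3 -/
theorem p_G3 : S_G3 := ⟨PG3.mm, PG3.HE_comp⟩

end

end Run7.h592
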