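import Pool.Agent.Run7.h592.Tasks

/-!
# Symmetric squares: open quotient map, homotopies, open subsets
-/

set_option autoImplicit false

open scoped Topology

namespace Run7.h592

open Pool.Agent.Y209.HB

noncomputable section

namespace SPx

variable {X Y : Type} [TopologicalSpace X] [TopologicalSpace Y]

theorem spRel_equiv (X : Type) : Equivalence (spRel X) where
  refl _ := Or.inl rfl
  symm := by
    rintro p q (rfl | rfl)
    · exact Or.inl rfl
    · exact Or.inr (by simp)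
  trans := by
    rintro p q r (rfl | rfl) (rfl | rfl)
    · exact Or.inl rfl
    · exact Or.inr rfl
    · exact Or.inr rfl
    · exact Or.inl (by simp)

omit [TopologicalSpace X] in
theorem quot_eq {p q : X × X} : (Quot.mk (spRel X) p : SP X) = Quot.mk (spRel X) q ↔
    q = p ∨ q = p.swap := by
  constructor
  · intro h
    have h1 := Quot.eqvGen_exact h
    rwa [(spRel_equiv X).eqvGen_iff] at h1
  · exact fun h => Quot.sound h

omit [TopologicalSpace X] in
theorem mk_eq {a b c d : X} : SP.mk a b = SP.mk c d ↔ (c = a ∧ d = b) ∨ (c = b ∧ d = a) := by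
  have h := quot_eq (p := (a, b)) (q := (c, d))
  simp only [Prod.mk.injEq, Prod.swap_prod_mk] at h
  exact h

omit [TopologicalSpace X] in
theorem exists_mk (p : SP X) : ∃ a b, p = SP.mk a b := by
  induction p using Quot.ind with | mk q =>
  exact ⟨q.1, q.2, rfl⟩

/-- the quotient map -/
def qm (p : X × X) : SP X := SP.mk p.1 p.2

omit [TopologicalSpace X] in
theorem qm_eq (p : X × X) : qm p = Quot.mk (spRel X) p := rfl

theorem qm_open : IsOpenQuotientMap (qm (X := X)) := by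
  have hq : Topology.IsQuotientMap (qm (X := X)) := isQuotientMap_quot_mk
  refine ⟨hq.surjective, hq.continuous, ?_⟩
  intro O hO
  rw [← hq.isOpen_preimage]
  have : qm ⁻¹' (qm '' O) = O ∪ Prod.swap ⁻¹' O := by
    ext p
    simp only [Set.mem_preimage, Set.mem_image, Set.mem_union]
    obtain ⟨p1, p2⟩ := p
    constructor
    · rintro ⟨⟨r1, r2⟩, hr, h⟩
      rcases mk_eq.1 h with ⟨rfl, rfl⟩ | ⟨rfl, rfl⟩
      · exact Or.inl hr
      · exact Or.inr hr
    · rintro (h | h)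
      · exact ⟨(p1, p2), h, rfl⟩
      · exact ⟨(p2, p1), h, SP.mk_comm _ _⟩
  rw [this]
  exact hO.union (hO.preimage continuous_swap)

/-- the homotopy of the symmetric squares -/
def htp (H : C(X × I, Y)) : C(SP X × I, SP Y) where
  toFun p := Quot.lift (fun q : X × X => SP.mk (H (q.1, p.2)) (H (q.2, p.2))) (by
    rintro q r (rfl | rfl)
    · rfl
    · exact SP.mk_comm _ _) p.1
  continuous_toFun := by
    refine (qm_open (X := X)).isQuotientMap.continuous_lift_prod_left ?_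
    have h1 : Continuous fun p : (X × X) × I => H (p.1.1, p.2) := by fun_prop
    have h2 : Continuous fun p : (X × X) × I => H (p.1.2, p.2) := by fun_prop
    exact SP.continuous_mk.comp (h1.prodMk h2)

theorem htp_mk (H : C(X × I, Y)) (a b : X) (t : I) :
    htp H (SP.mk a b, t) = SP.mk (H (a, t)) (H (b, t)) := rfl

theorem map_mk (f : C(X, Y)) (a b : X) : SP.map f (SP.mk a b) = SP.mk (f a) (f b) := rfl

theorem HEqv_map {f : C(X, Y)} (h : HEqv f) : HEqv (SP.map f) := by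
  obtain ⟨g, H, K, h0, h1, h2, h3⟩ := h
  refine ⟨SP.map g, htp H, htp K, ?_, ?_, ?_, ?_⟩
  · intro p
    obtain ⟨a, b, rfl⟩ := exists_mk p
    rw [htp_mk, h0, h0]
  · intro p
    obtain ⟨a, b, rfl⟩ := exists_mk p
    rw [htp_mk, h1, h1, map_mk, map_mk]
  · intro p
    obtain ⟨a, b, rfl⟩ := exists_mk p
    rw [htp_mk, h2, h2]
  · intro p
    obtain ⟨a, b, rfl⟩ := exists_mk p
    rw [htp_mk, h3, h3, map_mk, map_mk]

theorem Ctr_SP (h : Ctr X) : Ctr (SP X) := by
  obtain ⟨x, H, h0, h1⟩ := h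
  refine ⟨SP.mk x x, htp H, ?_, ?_⟩
  · intro p
    obtain ⟨a, b, rfl⟩ := exists_mk p
    rw [htp_mk, h0, h0]
  · intro p
    obtain ⟨a, b, rfl⟩ := exists_mk p
    rw [htp_mk, h1, h1]

theorem Ctr_prod (h : Ctr X) (h' : Ctr Y) : Ctr (X × Y) := by
  obtain ⟨x, H, h0, h1⟩ := h
  obtain ⟨x', H', h0', h1'⟩ := h'
  refine ⟨(x, x'), ⟨fun p => (H (p.1.1, p.2), H' (p.1.2, p.2)), by fun_prop⟩, ?_, ?_⟩
  · rintro ⟨a, b⟩
    exact Prod.ext (h0 a) (h0' b)
  · rintro ⟨a, b⟩
    exact Prod.ext (h1 a) (h1' b)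

/-- the homotopy equivalence -/
def toHE (f : C(X, Y)) (g : C(Y, X)) (H : C(X × I, X)) (K : C(Y × I, Y))
    (h0 : ∀ x, H (x, 0) = x) (h1 : ∀ x, H (x, 1) = g (f x)) (h2 : ∀ y, K (y, 0) = y)
    (h3 : ∀ y, K (y, 1) = f (g y)) : ContinuousMap.HomotopyEquiv X Y where
  toFun := f
  invFun := g
  left_inv := ⟨(⟨⟨fun p => H (p.2, p.1), by fun_prop⟩, h0, h1⟩ :
    ContinuousMap.Homotopy (ContinuousMap.id X) (g.comp f)).symm⟩
  right_inv := ⟨(⟨⟨fun p => K (p.2, p.1), by fun_prop⟩, h2, h3⟩ :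
    ContinuousMap.Homotopy (ContinuousMap.id Y) (f.comp g)).symm⟩

theorem sc_of_HEqv {f : C(X, Y)} (h : HEqv f) (hX : SimplyConnectedSpace X) :
    SimplyConnectedSpace Y := by
  obtain ⟨g, H, K, h0, h1, h2, h3⟩ := h
  exact (toHE f g H K h0 h1 h2 h3).simplyConnectedSpace_iff.1 hX

theorem contractible_of_Ctr (h : Ctr X) : ContractibleSpace X := by
  obtain ⟨x, H, h0, h1⟩ := h
  exact ⟨⟨toHE (Y := Unit) (ContinuousMap.const X ()) (ContinuousMap.const Unit x) H
    ⟨fun _ => (), by fun_prop⟩ h0 h1 (fun _ => rfl) fun _ => rfl⟩⟩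

theorem sc_of_Ctr (h : Ctr X) : SimplyConnectedSpace X := by
  have := contractible_of_Ctr h
  infer_instance

theorem Ctr_of_contractible (X : Type) [TopologicalSpace X] [ContractibleSpace X] : Ctr X := by
  obtain ⟨x, ⟨F⟩⟩ := id_nullhomotopic X
  refine ⟨x, ⟨fun p => F (p.2, p.1), by fun_prop⟩, ?_, ?_⟩
  · intro y
    exact F.apply_zero y
  · intro y
    exact F.apply_one y

theorem pc_of_surj {A : Type} [TopologicalSpace A] (f : C(A, X)) (hf : Function.Surjective f)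
    (h : PathConnectedSpace A) : PathConnectedSpace X := by
  rw [pathConnectedSpace_iff_univ] at h ⊢
  rw [← hf.range_eq, ← Set.image_univ]
  exact h.image f.continuous

/-! ## Open subsets -/

/-- pairs of points of `P` -/
def spS (P : Set X) : Set (SP X) := {p | ∃ a ∈ P, ∃ b ∈ P, p = SP.mk a b}

theorem mk_mem_spS {P : Set X} {a b : X} : SP.mk a b ∈ spS P ↔ a ∈ P ∧ b ∈ P := by
  constructor
  · rintro ⟨c, hc, d, hd, h⟩
    rcases mk_eq.1 h with ⟨rfl, rfl⟩ | ⟨rfl, rfl⟩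
    · exact ⟨hc, hd⟩
    · exact ⟨hd, hc⟩
  · rintro ⟨ha, hb⟩
    exact ⟨a, ha, b, hb, rfl⟩

theorem spS_open {P : Set X} (hP : IsOpen P) : IsOpen (spS P) := by
  rw [← (qm_open (X := X)).isQuotientMap.isOpen_preimage]
  have : qm ⁻¹' (spS P) = P ×ˢ P := by
    ext p
    exact mk_mem_spS
  rw [this]
  exact hP.prod hP

theorem spS_inter (P Q : Set X) : spS P ∩ spS Q = spS (P ∩ Q) := by
  ext p
  obtain ⟨a, b, rfl⟩ := exists_mk p
  rw [Set.mem_inter_iff, mk_mem_spS, mk_mem_spS, mk_mem_spS]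
  exact ⟨fun h => ⟨⟨h.1.1, h.2.1⟩, ⟨h.1.2, h.2.2⟩⟩, fun h => ⟨⟨h.1.1, h.2.1⟩, ⟨h.1.2, h.2.2⟩⟩⟩

theorem spS_pc {P : Set X} (hP : IsPathConnected P) : IsPathConnected (spS P) := by
  have : spS P = qm '' (P ×ˢ P) := by
    ext p
    constructor
    · rintro ⟨a, ha, b, hb, rfl⟩
      exact ⟨(a, b), ⟨ha, hb⟩, rfl⟩
    · rintro ⟨⟨a, b⟩, ⟨ha, hb⟩, rfl⟩
      exact ⟨a, ha, b, hb, rfl⟩
  rw [this]
  exact (hP.prod hP).image qm_open.continuous

/-- the symmetric square of an open subset -/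
def incS (P : Set X) : C(SP P, SP X) := SP.map (sub P)

theorem incS_open {P : Set X} (hP : IsOpen P) : Topology.IsOpenEmbedding (incS P) := by
  apply Topology.IsOpenEmbedding.of_continuous_injective_isOpenMap (incS P).continuous
  · intro p q h
    obtain ⟨a, b, rfl⟩ := exists_mk p
    obtain ⟨c, d, rfl⟩ := exists_mk q
    have h' : SP.mk a.1 b.1 = SP.mk c.1 d.1 := h
    rw [mk_eq] at h' ⊢
    rcases h' with ⟨h1, h2⟩ | ⟨h1, h2⟩
    · exact Or.inl ⟨Subtype.ext h1, Subtype.ext h2⟩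
    · exact Or.inr ⟨Subtype.ext h1, Subtype.ext h2⟩
  · intro W hW
    have hW' : IsOpen (qm ⁻¹' W) := hW.preimage qm_open.continuous
    have hι : IsOpenMap fun p : P × P => ((p.1.1, p.2.1) : X × X) :=
      (hP.isOpenMap_subtype_val).prodMap (hP.isOpenMap_subtype_val)
    have : incS P '' W = qm '' ((fun p : P × P => ((p.1.1, p.2.1) : X × X)) '' (qm ⁻¹' W)) := by
      ext p
      constructor
      · rintro ⟨w, hw, rfl⟩
        obtain ⟨a, b, rfl⟩ := exists_mk w
        exact ⟨_, ⟨(a, b), hw, rfl⟩, rfl⟩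
      · rintro ⟨_, ⟨⟨a, b⟩, hw, rfl⟩, rfl⟩
        exact ⟨SP.mk a b, hw, rfl⟩
    rw [this]
    exact qm_open.isOpenMap _ (hι _ hW')

theorem range_incS (P : Set X) : Set.range (incS P) = spS P := by
  ext p
  constructor
  · rintro ⟨w, rfl⟩
    obtain ⟨a, b, rfl⟩ := exists_mk w
    exact ⟨a.1, a.2, b.1, b.2, rfl⟩
  · rintro ⟨a, ha, b, hb, rfl⟩
    exact ⟨SP.mk ⟨a, ha⟩ ⟨b, hb⟩, rfl⟩

/-- the homeomorphism with the symmetric square of the subspace -/
def homS {P : Set X} (hP : IsOpen P) : SP P ≃ₜ spS P :=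
  (incS_open hP).isEmbedding.toHomeomorph.trans (Homeomorph.setCongr (range_incS P))

theorem homS_mk {P : Set X} (hP : IsOpen P) (a b : P) : (homS hP (SP.mk a b)).1 = SP.mk a.1 b.1 :=
  rfl

theorem sc_of_homeo (e : X ≃ₜ Y) (h : SimplyConnectedSpace X) : SimplyConnectedSpace Y :=
  e.toHomotopyEquiv.simplyConnectedSpace_iff.1 h

theorem Ctr_of_homeo (e : X ≃ₜ Y) (h : Ctr X) : Ctr Y := by
  obtain ⟨x, H, h0, h1⟩ := h
  have he : Continuous e := e.continuous
  have he' : Continuous e.symm := e.symm.continuous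
  refine ⟨e x, ⟨fun p => e (H (e.symm p.1, p.2)), by fun_prop⟩, ?_, ?_⟩
  · intro y
    change e (H (e.symm y, 0)) = y
    rw [h0, e.apply_symm_apply]
  · intro y
    change e (H (e.symm y, 1)) = e x
    rw [h1]

end SPx

end

end Run7.h592
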