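import Pool.Agent.Run7.h592.Tasks

/-! T1a: the quotient by a free involution homotopic to the identity (transfer). -/

set_option autoImplicit false

open scoped Topology

namespace Run7.h592

open Pool.Agent.Y209.HB

noncomputable section

namespace T1a

variable {X : Type} [TopologicalSpace X] (σ : C(X, X))

/-- the relation -/
abbrev R (x y : X) : Prop := y = x ∨ y = σ x

/-- the quotient map -/
def pr : C(X, Quot (fun x y : X => y = x ∨ y = σ x)) := ⟨Quot.mk _, continuous_quot_mk⟩

variable {σ}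

theorem R_equiv (h2 : ∀ x, σ (σ x) = x) : Equivalence (R σ) where
  refl _ := Or.inl rfl
  symm := by
    rintro x y (rfl | rfl)
    · exact Or.inl rfl
    · exact Or.inr (h2 _).symm
  trans := by
    rintro x y z (rfl | rfl) (rfl | rfl)
    · exact Or.inl rfl
    · exact Or.inr rfl
    · exact Or.inr rfl
    · exact Or.inl (h2 _)

theorem pr_eq (h2 : ∀ x, σ (σ x) = x) {x y : X} : pr σ x = pr σ y ↔ y = x ∨ y = σ x := by
  change Quot.mk _ x = Quot.mk _ y ↔ _
  rw [Quot.eq]
  exact (R_equiv h2).eqvGen_iff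

/-- the permutation -/
def pm (h2 : ∀ x, σ (σ x) = x) : Equiv.Perm X := ⟨σ, σ, h2, h2⟩

theorem zp_cases (h2 : ∀ x, σ (σ x) = x) (g : Subgroup.zpowers (pm h2)) :
    g = 1 ∨ g.1 = pm h2 := by
  obtain ⟨g, k, rfl⟩ := g
  have e2 : pm h2 ^ (2 : ℤ) = 1 := by
    ext x
    exact h2 x
  rcases Int.even_or_odd' k with ⟨m, rfl | rfl⟩
  · left
    apply Subtype.ext
    change pm h2 ^ (2 * m) = 1
    rw [zpow_mul, e2, one_zpow]
  · right
    change pm h2 ^ (2 * m + 1) = pm h2
    rw [zpow_add_one, zpow_mul, e2, one_zpow, one_mul]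

theorem cov [T2Space X] (h2 : ∀ x, σ (σ x) = x) (hf : ∀ x, σ x ≠ x) : IsCoveringMap (pr σ) := by
  have hq : IsQuotientCoveringMap (pr σ) (Subgroup.zpowers (pm h2)) := by
    refine
      { toIsQuotientMap := isQuotientMap_quot_mk
        continuous_const_smul := ?_
        apply_eq_iff_mem_orbit := ?_
        disjoint := ?_ }
    · intro g
      rcases zp_cases h2 g with rfl | h
      · simp only [one_smul]
        exact continuous_id
      · have : (fun x : X => g • x) = σ := by
          funext x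
          change g.1 x = σ x
          rw [h]
          rfl
        rw [this]
        exact σ.continuous
    · intro x y
      rw [pr_eq h2]
      constructor
      · rintro (rfl | rfl)
        · exact MulAction.mem_orbit_self _
        · exact ⟨⟨pm h2, Subgroup.mem_zpowers _⟩, h2 x⟩
      · rintro ⟨g, rfl⟩
        rcases zp_cases h2 g with rfl | h
        · left
          simp
        · right
          change y = σ (g.1 y)
          rw [h]
          exact (h2 y).symm
    · intro x
      obtain ⟨U, V, hU, hV, hx, hy, hUV⟩ := t2_separation (hf x).symm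
      refine ⟨U ∩ σ ⁻¹' V, (hU.inter (hV.preimage σ.continuous)).mem_nhds ⟨hx, hy⟩, ?_⟩
      rintro g ⟨_, ⟨y, ⟨-, hyV⟩, rfl⟩, hyU, -⟩
      rcases zp_cases h2 g with rfl | h
      · rfl
      · exfalso
        have e : g • y = σ y := by
          change g.1 y = σ y
          rw [h]
          rfl
        refine Set.disjoint_left.1 hUV hyU ?_
        change g • y ∈ V
        rw [e]
        exact hyV
  exact hq.isCoveringMap

/-- contraction of the simplex -/
def ctr (n : ℕ) : C(I × Dl n, Dl n) where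
  toFun q := ⟨(1 - (q.1 : ℝ)) • (stdSimplex.vertex (S := ℝ) (0 : Fin (n + 1))).1 + (q.1 : ℝ) • q.2.1,
    convex_stdSimplex ℝ _ (stdSimplex.vertex (S := ℝ) (0 : Fin (n + 1))).2 q.2.2
      (by linarith [q.1.2.2]) q.1.2.1 (by ring)⟩
  continuous_toFun := by
    refine Continuous.subtype_mk ?_ _
    fun_prop

theorem ctr_zero (n : ℕ) (t : Dl n) : ctr n (0, t) = stdSimplex.vertex (0 : Fin (n + 1)) := by
  apply Subtype.ext
  change (1 - (0 : ℝ)) • _ + (0 : ℝ) • _ = _
  simp

theorem ctr_one (n : ℕ) (t : Dl n) : ctr n (1, t) = t := by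
  apply Subtype.ext
  change (1 - (1 : ℝ)) • _ + (1 : ℝ) • _ = _
  simp

theorem exists_lft {Q : Type} [TopologicalSpace Q] {p : C(X, Q)} (hc : IsCoveringMap p)
    (hs : Function.Surjective p) (n : ℕ) (τ : Sing Q n) : ∃ e : Sing X n, p.comp e = τ := by
  obtain ⟨e0, he0⟩ := hs (τ (stdSimplex.vertex 0))
  let H : C(I × Dl n, Q) := τ.comp (ctr n)
  have H0 : ∀ a, H (0, a) = p ((ContinuousMap.const _ e0 : C(Dl n, X)) a) := by
    intro a
    change τ (ctr n (0, a)) = p e0
    rw [ctr_zero, he0]
  refine ⟨(hc.liftHomotopy H (ContinuousMap.const _ e0) H0).comp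
    ⟨fun a => ((1 : I), a), by fun_prop⟩, ?_⟩
  ext t
  have h := congrFun (hc.liftHomotopy_lifts H (ContinuousMap.const _ e0) H0) (1, t)
  change p (hc.liftHomotopy H (ContinuousMap.const _ e0) H0 (1, t)) = τ t
  change p (hc.liftHomotopy H (ContinuousMap.const _ e0) H0 (1, t)) = τ (ctr n (1, t)) at h
  rw [h, ctr_one]

instance (n : ℕ) : PreconnectedSpace (Dl n) := by
  have := (convex_stdSimplex ℝ (Fin (n + 1))).isPreconnected
  exact isPreconnected_iff_preconnectedSpace.1 this

theorem lft_unique [T2Space X] (h2 : ∀ x, σ (σ x) = x) (hf : ∀ x, σ x ≠ x) (n : ℕ)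
    (e e' : Sing X n) (h : (pr σ).comp e = (pr σ).comp e') : e' = e ∨ e' = σ.comp e := by
  have h0 := (pr_eq h2).1 (congrArg (fun f : C(Dl n, _) => f (stdSimplex.vertex 0)) h)
  have hc := cov h2 hf
  rcases h0 with h0 | h0
  · left
    exact ContinuousMap.coe_injective (hc.eq_of_comp_eq e'.continuous e.continuous
      (congrArg (fun f : C(Dl n, _) => (f : Dl n → _)) h.symm) _ h0)
  · right
    refine ContinuousMap.coe_injective (hc.eq_of_comp_eq e'.continuous
      (σ.comp e).continuous ?_ _ h0)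
    funext t
    have h1 : pr σ (e t) = pr σ (e' t) := congrArg (fun f : C(Dl n, _) => f t) h
    change pr σ (e' t) = pr σ (σ (e t))
    rw [← h1, pr_eq h2]
    exact Or.inr rfl

section Tr

variable [T2Space X] (h2 : ∀ x, σ (σ x) = x) (hf : ∀ x, σ x ≠ x)

/-- the quotient -/
abbrev Qt (σ : C(X, X)) : Type := Quot (fun x y : X => y = x ∨ y = σ x)

/-- a lift -/
def lf (n : ℕ) (τ : Sing (Qt σ) n) : Sing X n :=
  (exists_lft (p := pr σ) (cov h2 hf) Quot.mk_surjective n τ).choose

theorem lf_spec (n : ℕ) (τ : Sing (Qt σ) n) : (pr σ).comp (lf h2 hf n τ) = τ :=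
  (exists_lft (p := pr σ) (cov h2 hf) Quot.mk_surjective n τ).choose_spec

/-- the transfer -/
def tr (n : ℕ) : (Sing (Qt σ) n →₀ ℚ) →ₗ[ℚ] (Sing X n →₀ ℚ) :=
  Finsupp.linearCombination ℚ fun τ =>
    Finsupp.single (lf h2 hf n τ) 1 + Finsupp.single (σ.comp (lf h2 hf n τ)) 1

theorem tr_single (n : ℕ) (e : Sing X n) : tr h2 hf n (Finsupp.single ((pr σ).comp e) 1) =
    Finsupp.single e 1 + Finsupp.single (σ.comp e) 1 := by
  rw [tr, Finsupp.linearCombination_single, one_smul]
  have hs : σ.comp (σ.comp e) = e := by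
    ext t
    exact h2 _
  rcases lft_unique h2 hf n e (lf h2 hf n ((pr σ).comp e)) (lf_spec h2 hf n _).symm with h | h
  · rw [h]
  · rw [h, hs, add_comm]

theorem tr_push (n : ℕ) (z : Sing X n →₀ ℚ) :
    tr h2 hf n (push (pr σ) n z) = z + push σ n z := by
  induction z using Finsupp.induction_linear with
  | zero => simp
  | add f g hf hg => rw [map_add, map_add, hf, hg, map_add]; abel
  | single e a =>
    have h := tr_single h2 hf n e
    have e1 : (Finsupp.single e a : Sing X n →₀ ℚ) = a • Finsupp.single e 1 := by simp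
    rw [e1, map_smul, map_smul, map_smul, push_single, push_single, h, smul_add]

theorem push_tr (n : ℕ) (w : Sing (Qt σ) n →₀ ℚ) :
    push (pr σ) n (tr h2 hf n w) = (2 : ℚ) • w := by
  induction w using Finsupp.induction_linear with
  | zero => simp
  | add f g hf hg => rw [map_add, map_add, hf, hg, smul_add]
  | single τ a =>
    have e1 : (Finsupp.single τ a : Sing (Qt σ) n →₀ ℚ) = a • Finsupp.single τ 1 := by simp
    have hs : (pr σ).comp σ = pr σ := by
      ext x
      exact (pr_eq h2).2 (Or.inr (h2 x).symm)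
    have h3 : (pr σ).comp (σ.comp (lf h2 hf n τ)) = τ := by
      rw [← ContinuousMap.comp_assoc, hs, lf_spec]
    rw [e1, map_smul, map_smul, tr, Finsupp.linearCombination_single, one_smul, map_add,
      push_single, push_single, lf_spec, h3, smul_comm, two_smul]

theorem bdry_tr (n : ℕ) (w : Sing (Qt σ) (n + 1) →₀ ℚ) :
    bdry X n (tr h2 hf (n + 1) w) = tr h2 hf n (bdry (Qt σ) n w) := by
  induction w using Finsupp.induction_linear with
  | zero => simp
  | add f g hf hg => rw [map_add, map_add, hf, hg, map_add, map_add]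
  | single τ a =>
    have e1 : (Finsupp.single τ a : Sing (Qt σ) (n + 1) →₀ ℚ) = a • Finsupp.single τ 1 := by simp
    rw [e1, map_smul, map_smul, map_smul, map_smul]
    congr 1
    rw [tr, Finsupp.linearCombination_single, one_smul, map_add, bdry_single, bdry_single,
      bdry_single, map_sum, ← Finset.sum_add_distrib]
    refine Finset.sum_congr rfl fun i _ => ?_
    rw [map_smul, ← smul_add]
    congr 1
    have h3 : sface n i τ = (pr σ).comp (sface n i (lf h2 hf (n + 1) τ)) := by
      conv_lhs => rw [← lf_spec h2 hf (n + 1) τ]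
      rfl
    rw [h3, tr_single]
    rfl

include h2 hf in
/-- the transfer argument -/
theorem HE_pr (hσ : ∀ n, ∀ z ∈ Cyc X n, push σ n z - z ∈ Bdy X n) : HE (pr σ) := by
  have tc : ∀ (n : ℕ) (w : Sing (Qt σ) n →₀ ℚ), w ∈ Cyc (Qt σ) n → tr h2 hf n w ∈ Cyc X n := by
    intro n w hw
    cases n with
    | zero => exact Submodule.mem_top
    | succ n =>
      have hw' : bdry (Qt σ) n w = 0 := hw
      change bdry X n (tr h2 hf (n + 1) w) = 0
      rw [bdry_tr, hw', map_zero]
  have tb : ∀ (n : ℕ) (w : Sing (Qt σ) n →₀ ℚ), w ∈ Bdy (Qt σ) n → tr h2 hf n w ∈ Bdy X n := by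
    rintro n _ ⟨w, rfl⟩
    exact ⟨tr h2 hf (n + 1) w, bdry_tr h2 hf n w⟩
  intro n
  constructor
  · intro z hz h
    have h1 := tb n _ h
    rw [tr_push] at h1
    have h4 := (Bdy X n).sub_mem h1 (hσ n z hz)
    have e : z + push σ n z - (push σ n z - z) = (2 : ℚ) • z := by
      rw [two_smul]
      abel
    rw [e] at h4
    have h5 := (Bdy X n).smul_mem (1 / 2 : ℚ) h4
    rwa [smul_smul, show (1 / 2 : ℚ) * 2 = 1 by norm_num, one_smul] at h5
  · intro w hw
    refine ⟨(1 / 2 : ℚ) • tr h2 hf n w, (Cyc X n).smul_mem _ (tc n w hw), ?_⟩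
    rw [map_smul, push_tr, smul_smul, show (1 / 2 : ℚ) * 2 = 1 by norm_num, one_smul, sub_self]
    exact (Bdy _ n).zero_mem

include h2 hf in
/-- the transfer argument, for a quotient map -/
theorem HE_two {Q : Type} [TopologicalSpace Q] {p : C(X, Q)} (hp : IsOpenQuotientMap p)
    (hpe : ∀ x y, p x = p y ↔ y = x ∨ y = σ x)
    (hσ : ∀ n, ∀ z ∈ Cyc X n, push σ n z - z ∈ Bdy X n) : HE p := by
  let e : C(Qt σ, Q) := ⟨Quot.lift p fun x y h => (hpe x y).2 h,
    continuous_quot_lift _ p.continuous⟩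
  have hs : Function.Surjective p := hp.surjective
  have hg : ∀ x, pr σ (Function.surjInv hs (p x)) = pr σ x := by
    intro x
    rw [pr_eq h2, ← hpe]
    exact Function.surjInv_eq hs (p x)
  let g : C(Q, Qt σ) := ⟨fun q => pr σ (Function.surjInv hs q), by
    rw [hp.isQuotientMap.continuous_iff]
    have : (fun q => pr σ (Function.surjInv hs q)) ∘ p = pr σ := by
      funext x
      exact hg x
    rw [this]
    exact (pr σ).continuous⟩
  have he : HE e := by
    refine HE_of_homotopyEquiv e g ⟨Prod.fst, continuous_fst⟩ ⟨Prod.fst, continuous_fst⟩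
      (fun _ => rfl) (fun x => ?_) (fun _ => rfl) (fun y => ?_)
    · obtain ⟨x, rfl⟩ := Quot.exists_rep x
      exact (hg x).symm
    · exact (Function.surjInv_eq hs y).symm
  exact he.comp (HE_pr h2 hf hσ)

end Tr

end T1a

open T1a in
theorem p_T1a : S_T1a := by
  intro X _ σ h2 hf _ ⟨H, H0, H1⟩
  refine HE_pr h2 hf fun n z hz => ?_
  have h3 := push_sub_mem_of_homotopy H (ContinuousMap.id X) σ H0 H1 n z hz
  rwa [push_id] at h3

end

end Run7.h592
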