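import Pool.Agent.Run7.h592.Util

/-! Families of paths. -/

set_option autoImplicit false

open scoped Topology unitInterval

namespace Run7.h592

noncomputable section

section Single

variable {B : Type} [TopologicalSpace B]

/-- concatenation of continuous maps from the interval -/
def cat (α β : C(I, B)) (h : α 1 = β 0) : C(I, B) :=
  ((⟨α, rfl, h⟩ : Path (α 0) (β 0)).trans ⟨β, rfl, rfl⟩).toContinuousMap

/-- the reversed path -/
def rev (α : C(I, B)) : C(I, B) := ⟨fun s => α (unitInterval.symm s), by fun_prop⟩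

@[simp] theorem cat_zero (α β : C(I, B)) (h : α 1 = β 0) : cat α β h 0 = α 0 :=
  ((⟨α, rfl, h⟩ : Path (α 0) (β 0)).trans ⟨β, rfl, rfl⟩).source

@[simp] theorem cat_one (α β : C(I, B)) (h : α 1 = β 0) : cat α β h 1 = β 1 :=
  ((⟨α, rfl, h⟩ : Path (α 0) (β 0)).trans ⟨β, rfl, rfl⟩).target

@[simp] theorem rev_zero (α : C(I, B)) : rev α 0 = α 1 := by simp [rev]

@[simp] theorem rev_one (α : C(I, B)) : rev α 1 = α 0 := by simp [rev]

/-- homotopic relative to the end points -/
def hr (α β : C(I, B)) : Prop := ∃ (h0 : β 0 = α 0) (h1 : β 1 = α 1),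
  Path.Homotopic ⟨α, rfl, rfl⟩ (⟨β, h0, h1⟩ : Path (α 0) (α 1))

theorem hr_path {x y : B} (p q : Path x y) :
    hr p.toContinuousMap q.toContinuousMap ↔ p.Homotopic q := by
  obtain ⟨α, rfl, rfl⟩ := p
  constructor
  · rintro ⟨h0, h1, h⟩
    exact h
  · intro h
    exact ⟨q.source, q.target, h⟩

/-- a map from the interval as a path -/
def pth (α : C(I, B)) {x y : B} (h0 : α 0 = x) (h1 : α 1 = y) : Path x y := ⟨α, h0, h1⟩

theorem hr_iff (α β : C(I, B)) {x y : B} (h0 : α 0 = x) (h1 : α 1 = y) (h0' : β 0 = x)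
    (h1' : β 1 = y) : hr α β ↔ (pth α h0 h1).Homotopic (pth β h0' h1') :=
  hr_path (pth α h0 h1) (pth β h0' h1')

theorem hr.refl (α : C(I, B)) : hr α α := ⟨rfl, rfl, Path.Homotopic.refl _⟩

theorem hr.zero {α β : C(I, B)} (h : hr α β) : β 0 = α 0 := h.1

theorem hr.one {α β : C(I, B)} (h : hr α β) : β 1 = α 1 := h.2.1

theorem hr.symm {α β : C(I, B)} (h : hr α β) : hr β α := by
  have h1 := (hr_iff α β rfl rfl h.zero h.one).1 h
  exact (hr_iff β α h.zero h.one rfl rfl).2 h1.symm

theorem hr.trans {α β γ : C(I, B)} (h : hr α β) (h' : hr β γ) : hr α γ := by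
  have h1 := (hr_iff α β rfl rfl h.zero h.one).1 h
  have h2 := (hr_iff β γ h.zero h.one (h'.zero.trans h.zero) (h'.one.trans h.one)).1 h'
  exact (hr_iff α γ rfl rfl _ _).2 (h1.trans h2)

theorem cat_pth {x y z : B} (p : Path x y) (q : Path y z) (h : p.toContinuousMap 1 =
    q.toContinuousMap 0) : cat p.toContinuousMap q.toContinuousMap h =
      (p.trans q).toContinuousMap := by
  obtain ⟨α, rfl, h1⟩ := p
  obtain ⟨β, rfl, rfl⟩ := q
  rfl

theorem rev_pth {x y : B} (p : Path x y) : rev p.toContinuousMap = p.symm.toContinuousMap := rfl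

theorem hr_cat {α α' β β' : C(I, B)} (h : α 1 = β 0) (h' : α' 1 = β' 0) (h1 : hr α α')
    (h2 : hr β β') : hr (cat α β h) (cat α' β' h') := by
  have e1 := (hr_iff α α' rfl h h1.zero (h1.one.trans h)).1 h1
  have e2 := (hr_iff β β' rfl rfl h2.zero h2.one).1 h2
  have e3 := Path.Homotopic.hcomp e1 e2
  have e4 := (hr_path _ _).2 e3
  rw [← cat_pth (h := h), ← cat_pth (h := h')] at e4
  exact e4

theorem hr_rev {α β : C(I, B)} (h : hr α β) : hr (rev α) (rev β) := by
  have e1 := (hr_iff α β rfl rfl h.zero h.one).1 h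
  exact (hr_path _ _).2 e1.symm₂

theorem cat_congr {α α' β β' : C(I, B)} (h : α 1 = β 0) (h' : α' 1 = β' 0) (h1 : α = α')
    (h2 : β = β') : cat α β h = cat α' β' h' := by
  subst h1 h2
  rfl

theorem hr_assoc (α β γ : C(I, B)) (h : α 1 = β 0) (h' : β 1 = γ 0) :
    hr (cat (cat α β h) γ ((cat_one _ _ _).trans h'))
      (cat α (cat β γ h') (h.trans (cat_zero _ _ _).symm)) := by
  have e := Path.Homotopic.trans_assoc (pth α rfl h) (pth β rfl h') (pth γ rfl rfl)
  have e' := (hr_path _ _).2 e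
  let P := (pth α rfl h).trans (pth β rfl h')
  let Q := (pth β rfl h').trans (pth γ rfl rfl)
  have hP : P.toContinuousMap 1 = γ 0 := P.target
  have hQ : α 1 = Q.toContinuousMap 0 := h.trans Q.source.symm
  have e1 : cat (cat α β h) γ ((cat_one _ _ _).trans h') =
      (((pth α rfl h).trans (pth β rfl h')).trans (pth γ rfl rfl)).toContinuousMap :=
    (cat_congr _ hP (cat_pth (pth α rfl h) (pth β rfl h') h) rfl).trans
      (cat_pth P (pth γ rfl rfl) hP)
  have e2 : cat α (cat β γ h') (h.trans (cat_zero _ _ _).symm) =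
      ((pth α rfl h).trans ((pth β rfl h').trans (pth γ rfl rfl))).toContinuousMap :=
    (cat_congr _ hQ rfl (cat_pth (pth β rfl h') (pth γ rfl rfl) h')).trans
      (cat_pth (pth α rfl h) Q hQ)
  rw [e1, e2]
  exact e'

theorem hr_cat_rev (α : C(I, B)) :
    hr (cat α (rev α) (rev_zero α).symm) (ContinuousMap.const _ (α 0)) := by
  have e := Path.Homotopic.trans_symm (pth α rfl rfl)
  have e' := (hr_path _ _).2 e
  rw [← cat_pth (h := (rev_zero α).symm)] at e'
  exact e'

theorem hr_rev_cat (α : C(I, B)) :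
    hr (cat (rev α) α (rev_one α)) (ContinuousMap.const _ (α 1)) := by
  have e := Path.Homotopic.symm_trans (pth α rfl rfl)
  have e' := (hr_path _ _).2 e
  rw [← cat_pth (h := rev_one α)] at e'
  exact e'

theorem hr_cat_const (α : C(I, B)) (b : B) (h : α 1 = b) :
    hr (cat α (ContinuousMap.const _ b) h) α := by
  have e := Path.Homotopic.trans_refl (pth α rfl h)
  have e' := (hr_path _ _).2 e
  rw [← cat_pth (h := h)] at e'
  exact e'

theorem hr_const_cat (α : C(I, B)) (b : B) (h : b = α 0) :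
    hr (cat (ContinuousMap.const _ b) α h) α := by
  have e := Path.Homotopic.refl_trans (pth α h.symm rfl)
  have e' := (hr_path _ _).2 e
  rw [← cat_pth (h := h)] at e'
  exact e'

theorem hr_map {A : Type} [TopologicalSpace A] (g : C(A, B)) {α β : C(I, A)} (h : hr α β) :
    hr (g.comp α) (g.comp β) := by
  have e1 := (hr_iff α β rfl rfl h.zero h.one).1 h
  exact (hr_path _ _).2 (e1.map g)

/-- if `γ ≃ ζ ω` and `γ ≃ p` then `ζ (ω p⁻¹)` is null homotopic -/
theorem hr_cancel (ζ ω p : C(I, B)) (h : ζ 1 = ω 0) (hp : hr (cat ζ ω h) p)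
    (h' : ω 1 = rev p 0) :
    hr (cat ζ (cat ω (rev p) h') (h.trans (cat_zero _ _ _).symm))
      (ContinuousMap.const _ (ζ 0)) := by
  refine (hr_assoc ζ ω (rev p) h h').symm.trans ?_
  refine (hr_cat _ (rev_zero p).symm hp (hr.refl _)).trans ?_
  have := hr_cat_rev p
  have e : p 0 = ζ 0 := by rw [hp.zero, cat_zero]
  rwa [e] at this

/-- if `ζ ω` is null homotopic then `ζ (ω p) ≃ p` -/
theorem hr_null_cat (ζ ω p : C(I, B)) (h : ζ 1 = ω 0) (hn : hr (cat ζ ω h)
    (ContinuousMap.const _ (ζ 0))) (h' : ω 1 = p 0) :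
    hr (cat ζ (cat ω p h') (h.trans (cat_zero _ _ _).symm)) p := by
  refine (hr_assoc ζ ω p h h').symm.trans ?_
  have h0 : ζ 0 = p 0 := by
    have := hn.one
    rw [cat_one] at this
    exact this.trans h'
  refine (hr_cat _ h0 hn (hr.refl _)).trans ?_
  exact hr_const_cat p _ h0

end Single

/-! ## Labels -/

section Labels

variable {A B : Type} [TopologicalSpace A] [TopologicalSpace B]

theorem til_iff {b₀ x y : B} (p : Path b₀ x) (q : Path b₀ y) :
    ((⟨x, Path.Homotopic.Quotient.mk p⟩ : Til b₀) = ⟨y, Path.Homotopic.Quotient.mk q⟩) ↔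
      hr p.toContinuousMap q.toContinuousMap := by
  constructor
  · intro e
    rw [Sigma.mk.inj_iff] at e
    obtain ⟨rfl, e⟩ := e
    exact (hr_path _ _).2 (Path.Homotopic.Quotient.exact (eq_of_heq e))
  · intro h
    have h1 : y = x := by
      have := h.one
      exact (q.target.symm.trans this).trans p.target
    subst h1
    have := (hr_path _ _).1 h
    rw [Path.Homotopic.Quotient.eq.2 this]

/-- the class of a path from `b₀` -/
def tl (b₀ : B) (α : C(I, B)) (h : α 0 = b₀) : Til b₀ :=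
  ⟨α 1, Path.Homotopic.Quotient.mk (pth α h rfl)⟩

theorem tl_eq {b₀ : B} {α β : C(I, B)} (h : α 0 = b₀) (h' : β 0 = b₀) :
    tl b₀ α h = tl b₀ β h' ↔ hr α β := til_iff (pth α h rfl) (pth β h' rfl)

theorem exists_tl {b₀ : B} (x : Til b₀) : ∃ (α : C(I, B)) (h : α 0 = b₀), x = tl b₀ α h := by
  obtain ⟨b, q⟩ := x
  obtain ⟨p, rfl⟩ := Path.Homotopic.Quotient.mk_surjective q
  refine ⟨p.toContinuousMap, p.source, ?_⟩
  exact (til_iff _ _).2 (hr.refl _)

theorem til0_eq (b₀ : B) : til0 b₀ = tl b₀ (ContinuousMap.const _ b₀) rfl := rfl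

/-- the label computed with any path in `A` -/
theorem lab_eq (g : C(A, B)) (a₀ : A) [SimplyConnectedSpace A] (e : PE g) (c : C(I, A))
    (h0 : c 0 = a₀) (h1 : c 1 = e.1.1) :
    lab g a₀ e = tl (g a₀) (cat (g.comp c) e.1.2 ((congrArg g h1).trans e.2.symm))
      (by rw [cat_zero]; exact congrArg g h0) := by
  have h2 : Path.Homotopic (PathConnectedSpace.somePath a₀ e.1.1) (pth c h0 h1) :=
    SimplyConnectedSpace.paths_homotopic _ _
  unfold lab tl
  apply (til_iff _ _).2
  have h3 := Path.Homotopic.hcomp (h2.map g) (Path.Homotopic.refl e.path)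
  have h4 := (hr_path _ _).2 h3
  have h5 : (((pth c h0 h1).map g.continuous).trans e.path).toContinuousMap =
      cat (g.comp c) e.1.2 ((congrArg g h1).trans e.2.symm) := by
    rw [← cat_pth (h := ((congrArg g h1).trans e.2.symm))]
    rfl
  rw [h5] at h4
  exact h4

/-- the label is the class of `α` iff `g(c) ω ≃ α` -/
theorem lab_iff (g : C(A, B)) (a₀ : A) [SimplyConnectedSpace A] (e : PE g) (c : C(I, A))
    (h0 : c 0 = a₀) (h1 : c 1 = e.1.1) (α : C(I, B)) (h : α 0 = g a₀) :
    lab g a₀ e = tl (g a₀) α h ↔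
      hr (cat (g.comp c) e.1.2 ((congrArg g h1).trans e.2.symm)) α := by
  rw [lab_eq g a₀ e c h0 h1, tl_eq]

end Labels

end

end Run7.h592
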