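import Pool.Agent.Run7.h592.Top
import Pool.Agent.H904R2.SingG

/-!
# Rational homotopy groups: definitions

Homotopy groups are Mathlib's `HomotopyGroup (Fin k) X x`; `HB` is the library of rational
singular homology `Pool.Agent.Y209.HB`.
-/

set_option autoImplicit false

open scoped Topology

namespace Run7.h592

open Pool.Agent.Y209.HB

noncomputable section

/-! ## Homotopy groups -/

section Pi

variable {A X : Type} [TopologicalSpace A] [TopologicalSpace X]

/-- composition of a generalised loop with a map -/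
def gcomp {N : Type} (g : C(A, X)) {a : A} (p : GenLoop N A a) : GenLoop N X (g a) :=
  ⟨g.comp p.1, fun y hy => congrArg g (p.2 y hy)⟩

/-- the map on homotopy groups -/
def pimap {N : Type} (g : C(A, X)) (a : A) : HomotopyGroup N A a → HomotopyGroup N X (g a) :=
  Quotient.map (gcomp g) (fun _ _ h => ⟨h.some.compContinuousMap g⟩)

/-- every element has finite order -/
def Tor (M : Type) [Group M] : Prop := ∀ x : M, ∃ N : ℕ, 0 < N ∧ x ^ N = 1

end Pi

/-! ## Labelled spaces, transport structures -/

/-- the standard simplex -/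
abbrev Dl (q : ℕ) : Type := stdSimplex ℝ (Fin (q + 1))

/-- the inclusion of a face -/
def dlF (q : ℕ) (i : Fin (q + 2)) : C(Dl q, Dl (q + 1)) :=
  ⟨stdSimplex.map i.succAbove, stdSimplex.continuous_map _⟩

section Lab

variable {E T : Type} [TopologicalSpace E] (lab : E → T)

/-- the label functions of the singular simplices of `E` -/
def Good (q : ℕ) (l : Dl q → T) : Prop := ∃ e : Sing E q, ∀ t, lab (e t) = l t

/-- the points of `Δ × E` with the right label -/
def El (q : ℕ) (l : Dl q → T) : Set (Dl q × E) := {p | lab p.2 = l p.1}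

/-- the fibre -/
def Fib (t₀ : T) : Set E := {e | lab e = t₀}

/-- the map of chains from the singular chains of `E` to the free module on the functions
`Δ → T` -/
def pf (q : ℕ) : (Sing E q →₀ ℚ) →ₗ[ℚ] ((Dl q → T) →₀ ℚ) :=
  Finsupp.lmapDomain ℚ ℚ (fun e t => lab (e t))

/-- the kernel of `pf` is acyclic in positive degrees -/
def KerAcyclic : Prop := ∀ (n : ℕ) (z : Sing E (n + 1) →₀ ℚ), pf lab (n + 1) z = 0 →
  bdry E n z = 0 → ∃ w : Sing E (n + 2) →₀ ℚ, pf lab (n + 2) w = 0 ∧ bdry E (n + 1) w = z

/-- A transport structure: the spaces `El l` are compared with the fibre `Fib t₀`, compatibly with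
the faces up to homotopy. -/
structure TS (t₀ : T) : Type where
  ρ : ∀ (q : ℕ) (l : Dl q → T), Good lab q l → C(El lab q l, Fib lab t₀)
  ι : ∀ (q : ℕ) (l : Dl q → T), Good lab q l → C(Fib lab t₀, El lab q l)
  t1 : ∀ q l h, ∃ H : C(El lab q l × I, El lab q l), (∀ x, H (x, 0) = x) ∧
    ∀ x, H (x, 1) = ι q l h (ρ q l h x)
  t3 : ∀ (q : ℕ) (l : Dl (q + 1) → T) (h : Good lab (q + 1) l) (i : Fin (q + 2))
    (h' : Good lab q (fun t => l (dlF q i t))),
    ∃ H : C(El lab q (fun t => l (dlF q i t)) × I, Fib lab t₀),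
      (∀ x, H (x, 0) = ρ (q + 1) l h ⟨(dlF q i x.1.1, x.1.2), x.2⟩) ∧
      ∀ x, H (x, 1) = ρ q (fun t => l (dlF q i t)) h' x
  t4 : ∀ (q : ℕ) (h : Good lab q (fun _ => t₀)),
    ∃ H : C(El lab q (fun _ => t₀) × I, Fib lab t₀), (∀ x, H (x, 0) = ρ q _ h x) ∧
      ∀ x, H (x, 1) = ⟨x.1.2, x.2⟩

end Lab

/-! ## The path space of a map, its labels, the homotopy fibre -/

section PE

variable {A B : Type} [TopologicalSpace A] [TopologicalSpace B]

/-- pairs of a point `a` of `A` and of a path in `B` starting at `g a` -/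
abbrev PE (g : C(A, B)) : Type := {p : A × C(I, B) // p.2 0 = g p.1}

/-- the path of a point of the path space -/
def PE.path {g : C(A, B)} (e : PE g) : Path (g e.1.1) (e.1.2 1) := ⟨e.1.2, e.2, rfl⟩

/-- the end of the path -/
def ev1 (g : C(A, B)) : C(PE g, B) := ⟨fun e => e.1.2 1, by fun_prop⟩

/-- the projection to `A` -/
def prA (g : C(A, B)) : C(PE g, A) := ⟨fun e => e.1.1, by fun_prop⟩

/-- homotopy classes of paths from `b₀` -/
abbrev Til (b₀ : B) : Type := Σ b : B, Path.Homotopic.Quotient b₀ b

/-- The label of `(a, ω)`: the homotopy class of the path `g(c) ω`, `c` a path from `a₀` to `a`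
(independent of `c` if `A` is simply connected). -/
def lab (g : C(A, B)) (a₀ : A) [PathConnectedSpace A] (e : PE g) : Til (g a₀) :=
  ⟨e.1.2 1, Path.Homotopic.Quotient.mk
    (((PathConnectedSpace.somePath a₀ e.1.1).map g.continuous).trans e.path)⟩

/-- the class of the constant path -/
def til0 (b₀ : B) : Til b₀ := ⟨b₀, Path.Homotopic.Quotient.refl b₀⟩

/-- The homotopy fibre of `g` over `g a₀` (the component of the base point, if `A` is simply
connected): points with the label of the constant path. -/
abbrev NF (g : C(A, B)) (a₀ : A) [PathConnectedSpace A] : Type := Fib (lab g a₀) (til0 (g a₀))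

/-- the base point `(a₀, constant path)` -/
def nf0 (g : C(A, B)) (a₀ : A) : PE g := ⟨(a₀, ContinuousMap.const _ (g a₀)), rfl⟩

end PE

/-- the one-point space mapped to `b` -/
def ptm {B : Type} [TopologicalSpace B] (b : B) : C(Unit, B) := ContinuousMap.const _ b

/-- The class `W`: path connected, rationally acyclic, torsion fundamental group, and every loop is
the trace of a homotopy from the identity to the identity. -/
structure InW (B : Type) [TopologicalSpace B] : Prop where
  pc : PathConnectedSpace B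
  ac : ∀ n, Ac B (n + 1)
  tor : ∀ b : B, Tor (FundamentalGroup B b)
  got : ∀ (b : B) (γ : Path b b), ∃ H : C(B × I, B), (∀ x, H (x, 0) = x) ∧ (∀ x, H (x, 1) = x) ∧
    ∃ γ' : Path b b, (∀ s, γ' s = H (b, s)) ∧ Path.Homotopic γ' γ

end

end Run7.h592
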