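import Pool.Agent.Run7.h592.Tasks
import Pool.Agent.Y209.HB.Circ

/-! Rational homology of spheres and of products with spheres. -/

set_option autoImplicit false

open scoped Topology

namespace Run7.h592

open Pool.Agent.Y209.HB Finsupp

noncomputable section

/-! ### General facts -/

section gen

variable {X Y F S : Type} [TopologicalSpace X] [TopologicalSpace Y] [TopologicalSpace F]
  [TopologicalSpace S]

theorem ep_of_Bdy {z : Sing X 0 →₀ ℚ} (h : z ∈ Bdy X 0) : ep X 0 z = 0 := by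
  obtain ⟨w, rfl⟩ := h
  exact ep_bdry w

theorem sing0_eqS (σ : Sing X 0) : σ = cs (σ (stdSimplex.vertex 0)) 0 := by
  ext t
  change σ t = σ (stdSimplex.vertex 0)
  congr 1
  exact Subsingleton.elim (α := stdSimplex ℝ (Fin 1)) _ _

theorem Ctr.ac {X : Type} [TopologicalSpace X] (h : Ctr X) (n : ℕ) : Ac X (n + 1) := by
  obtain ⟨x, H, h0, h1⟩ := h
  exact Ac_of_contr H x h0 h1 n

theorem Ctr.cn {X : Type} [TopologicalSpace X] (h : Ctr X) : Cn X := by
  obtain ⟨x, H, h0, h1⟩ := h
  exact Cn_of_contr H x h0 h1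

theorem eq_zero_of_sp_empty {n : ℕ} {z : Sing X n →₀ ℚ} (h : z ∈ sp (∅ : Set X) n) : z = 0 := by
  rw [sp, Finsupp.mem_supported] at h
  rw [← Finsupp.support_eq_empty, Finset.eq_empty_iff_forall_notMem]
  intro σ hσ
  have h1 : Set.range σ ⊆ ∅ := h hσ
  exact h1 ⟨stdSimplex.vertex 0, rfl⟩

/-! ### Homology spheres -/

/-- rational homology sphere of dimension `k ≥ 1` -/
structure RS (X : Type) [TopologicalSpace X] (k : ℕ) : Prop where
  ac : ∀ n, n + 1 ≠ k → Ac X (n + 1)
  cn : Cn X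
  gen : ∃ γ ∈ Cyc X k, γ ∉ Bdy X k ∧ ∀ z ∈ Cyc X k, ∃ a : ℚ, z - a • γ ∈ Bdy X k

theorem RS.of_HE {f : C(X, Y)} (hf : HE f) {k : ℕ} (h : RS X k) : RS Y k := by
  refine ⟨fun n hn => Ac_of_HE' hf (h.ac n hn), Cn_of_HE' hf h.cn, ?_⟩
  obtain ⟨γ, h1, h2, h3⟩ := h.gen
  refine ⟨push f k γ, push_mem_Cyc f k γ h1, fun h4 => h2 ((hf k).1 γ h1 h4), ?_⟩
  intro b hb
  obtain ⟨z, hz, h4⟩ := (hf k).2 b hb
  obtain ⟨a, ha⟩ := h3 z hz
  refine ⟨a, ?_⟩
  have h5 := push_mem_Bdy f k _ ha
  rw [map_sub, map_smul] at h5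
  have h6 := (Bdy Y k).add_mem h4 h5
  rwa [sub_add_sub_cancel] at h6

theorem RS.of_HE' {f : C(X, Y)} (hf : HE f) {k : ℕ} (h : RS Y k) : RS X k := by
  refine ⟨fun n hn => Ac_of_HE hf (h.ac n hn), Cn_of_HE hf h.cn, ?_⟩
  obtain ⟨γ, h1, h2, h3⟩ := h.gen
  obtain ⟨z, hz, h4⟩ := (hf k).2 γ h1
  refine ⟨z, hz, fun h5 => h2 ?_, ?_⟩
  · have h6 := (Bdy Y k).add_mem h4 (push_mem_Bdy f k z h5)
    rwa [sub_add_cancel] at h6
  · intro y hy
    obtain ⟨a, ha⟩ := h3 _ (push_mem_Cyc f k y hy)
    refine ⟨a, (hf k).1 _ ((Cyc X k).sub_mem hy ((Cyc X k).smul_mem a hz)) ?_⟩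
    have h6 := (Bdy Y k).add_mem ha ((Bdy Y k).smul_mem a h4)
    have e : push f k y - a • γ + a • (γ - push f k z) = push f k (y - a • z) := by
      rw [map_sub, map_smul, smul_sub]
      abel
    rwa [e] at h6

/-- suspension -/
theorem RS.susp {U V : Set X} (oU : IsOpen U) (oV : IsOpen V) (cov : ∀ x, x ∈ U ∨ x ∈ V)
    (cU : Ctr U) (cV : Ctr V) {k : ℕ} (hk : 1 ≤ k) (h : RS ↥(U ∩ V) k) : RS X (k + 1) := by
  obtain ⟨γ, h1, h2, h3⟩ := h.gen
  -- a point
  have hp : ∃ p : X, p ∈ U ∩ V := by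
    by_contra hcon
    push Not at hcon
    apply h2
    have : γ = 0 := by
      rw [← Finsupp.support_eq_empty, Finset.eq_empty_iff_forall_notMem]
      intro σ _
      exact hcon _ (σ (stdSimplex.vertex 0)).2
    rw [this]
    exact Submodule.zero_mem _
  obtain ⟨p, hpU, hpV⟩ := hp
  have aW : ∀ n, n + 1 ≠ k → AcO (U ∩ V) (n + 1) := fun n hn => AcO_of_Ac (h.ac n hn)
  have nW : CnO (U ∩ V) := CnO_of_Cn h.cn
  refine ⟨?_, ?_, ?_⟩
  · intro n hn z hz
    have h4 : AcO (Set.univ : Set X) (n + 1) := by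
      refine AcO_of_cover oU oV (fun x _ => cov x) (Set.subset_univ _) (Set.subset_univ _)
        (AcO_of_Ac (cU.ac n)) (AcO_of_Ac (cV.ac n)) ?_
      intro d hd hdc h0
      cases n with
      | zero => exact nW d hd (h0 rfl)
      | succ m => exact aW m (by omega) d hd hdc
    have h5 := h4 z (mem_sp_univ z) hz
    rwa [Bd_univ] at h5
  · intro z hz
    obtain ⟨u, v, huv⟩ := mv_zero U V cov z
    have h4 : push (sub U) 0 u - (ep U 0 u) • single (cs p 0) 1 ∈ Bd U 0 := by
      apply CnO_of_Cn cU.cn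
      · refine Submodule.sub_mem _ (push_sub_mem_sp U u) (Submodule.smul_mem _ _ ?_)
        exact single_mem_sp (by rintro _ ⟨t, rfl⟩; exact hpU)
      · rw [map_sub, ep_push, map_smul, ep_single, smul_eq_mul, mul_one, sub_self]
    have h5 : push (sub V) 0 v - (ep V 0 v) • single (cs p 0) 1 ∈ Bd V 0 := by
      apply CnO_of_Cn cV.cn
      · refine Submodule.sub_mem _ (push_sub_mem_sp V v) (Submodule.smul_mem _ _ ?_)
        exact single_mem_sp (by rintro _ ⟨t, rfl⟩; exact hpV)
      · rw [map_sub, ep_push, map_smul, ep_single, smul_eq_mul, mul_one, sub_self]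
    have h6 : ep U 0 u + ep V 0 v = 0 := by
      rw [huv, map_add, ep_push, ep_push] at hz
      exact hz
    have h7 := Submodule.add_mem _ (Bd_le_Bdy U 0 h4) (Bd_le_Bdy V 0 h5)
    have e : push (sub U) 0 u - (ep U 0 u) • single (cs p 0) (1 : ℚ) +
        (push (sub V) 0 v - (ep V 0 v) • single (cs p 0) 1) = z := by
      rw [huv]
      have e2 : ep V 0 v = - ep U 0 u := by linarith
      rw [e2, neg_smul]
      abel
    rwa [e] at h7
  · obtain ⟨m, rfl⟩ : ∃ m, k = m + 1 := ⟨k - 1, by omega⟩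
    have hg : push (sub (U ∩ V)) (m + 1) γ ∈ Cyc X (m + 1) := push_mem_Cyc _ _ _ h1
    obtain ⟨a, ha, ha2⟩ := AcO_of_Ac (cU.ac m) _
      (sp_mono Set.inter_subset_left _ (push_sub_mem_sp (U ∩ V) γ)) hg
    obtain ⟨b, hb, hb2⟩ := AcO_of_Ac (cV.ac m) _
      (sp_mono Set.inter_subset_right _ (push_sub_mem_sp (U ∩ V) γ)) hg
    have huv : bdry X (m + 1) a + bdry X (m + 1) (-b) = 0 := by
      rw [map_neg, ha2, hb2, add_neg_cancel]
    refine ⟨a + -b, ?_, ?_, ?_⟩
    · apply mem_Cyc_of_bdry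
      rw [map_add, huv]
    · intro hB
      have h4 := conn_univ U V oU oV cov ha (Submodule.neg_mem _ hb) hB
      rw [ha2] at h4
      exact h2 (mem_Bdy_of_push_sub h4)
    · intro z hz
      obtain ⟨c, hc⟩ := span_of_cover (O := Set.univ) oU oV (fun x _ => cov x)
        (Set.subset_univ _) (Set.subset_univ _) (AcO_of_Ac (cU.ac (m + 1)))
        (AcO_of_Ac (cV.ac (m + 1))) ha (Submodule.neg_mem _ hb) huv (by
          intro d hd hdc _
          obtain ⟨d', rfl⟩ := exists_lift hd
          obtain ⟨c, hc⟩ := h3 d' (mem_Cyc_of_push _ Subtype.val_injective hdc)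
          refine ⟨c, ?_⟩
          rw [ha2]
          have := push_sub_mem_Bd hc
          rwa [map_sub, map_smul] at this) (mem_sp_univ z) hz
      refine ⟨c, ?_⟩
      rwa [Bd_univ] at hc

/-! ### Products -/

/-- finitely many generators in degree `n` -/
def Gen (X : Type) [TopologicalSpace X] (n k : ℕ) : Prop :=
  ∃ γ : Fin k → (Sing X n →₀ ℚ), (∀ i, γ i ∈ Cyc X n) ∧
    ∀ z ∈ Cyc X n, ∃ a : Fin k → ℚ, z - ∑ i, a i • γ i ∈ Bdy X n

/-- finitely many generators of the kernel of the map `H_n(X × F) → H_n(F)` -/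
def KG (X F : Type) [TopologicalSpace X] [TopologicalSpace F] (n k : ℕ) : Prop :=
  ∃ γ : Fin k → (Sing (X × F) n →₀ ℚ), (∀ i, γ i ∈ Cyc (X × F) n) ∧
    (∀ i, push ContinuousMap.snd n (γ i) ∈ Bdy F n) ∧
    ∀ z ∈ Cyc (X × F) n, push ContinuousMap.snd n z ∈ Bdy F n →
      ∃ a : Fin k → ℚ, z - ∑ i, a i • γ i ∈ Bdy (X × F) n

/-- the section of the projection `X × F → F` -/
def sec (F : Type) [TopologicalSpace F] (x : X) : C(F, X × F) := ⟨fun f => (x, f), by fun_prop⟩

theorem snd_sec (x : X) (n : ℕ) (z : Sing F n →₀ ℚ) :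
    push ContinuousMap.snd n (push (sec F x) n z) = z := by
  rw [push_push]
  exact push_id n z

theorem Cn_prod (hX : Cn X) (hF : Cn F) (x0 : X) (c : F) : Cn (X × F) := by
  have key : ∀ z : Sing (X × F) 0 →₀ ℚ,
      z - (ep (X × F) 0 z) • single (cs (x0, c) 0) 1 ∈ Bdy (X × F) 0 := by
    intro z
    induction z using Finsupp.induction_linear with
    | zero => simp
    | add y z hy hz =>
      have := (Bdy (X × F) 0).add_mem hy hz
      rw [map_add, add_smul]
      convert this using 1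
      abel
    | single σ a =>
      have e : single σ a = a • single (cs (σ (stdSimplex.vertex 0)) 0) (1 : ℚ) := by
        rw [← sing0_eqS σ, smul_single, smul_eq_mul, mul_one]
      rw [ep_single, e, ← smul_sub]
      apply Submodule.smul_mem
      set y := σ (stdSimplex.vertex 0)
      have h1 : single (cs y.2 0) (1 : ℚ) - single (cs c 0) 1 ∈ Bdy F 0 := by
        apply hF
        rw [map_sub, ep_single, ep_single, sub_self]
      have h2 : single (cs y.1 0) (1 : ℚ) - single (cs x0 0) 1 ∈ Bdy X 0 := by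
        apply hX
        rw [map_sub, ep_single, ep_single, sub_self]
      have h3 := push_mem_Bdy (⟨fun f => (y.1, f), by fun_prop⟩ : C(F, X × F)) 0 _ h1
      have h4 := push_mem_Bdy (⟨fun x => (x, c), by fun_prop⟩ : C(X, X × F)) 0 _ h2
      rw [map_sub, push_single, push_single] at h3 h4
      have h5 := (Bdy (X × F) 0).add_mem h3 h4
      have e1 : (⟨fun f => (y.1, f), by fun_prop⟩ : C(F, X × F)).comp (cs y.2 0) = cs y 0 := rfl
      have e2 : (⟨fun f => (y.1, f), by fun_prop⟩ : C(F, X × F)).comp (cs c 0) =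
        cs (y.1, c) 0 := rfl
      have e3 : (⟨fun x => (x, c), by fun_prop⟩ : C(X, X × F)).comp (cs y.1 0) =
        cs (y.1, c) 0 := rfl
      have e4 : (⟨fun x => (x, c), by fun_prop⟩ : C(X, X × F)).comp (cs x0 0) =
        cs (x0, c) 0 := rfl
      rw [e1, e2, e3, e4, sub_add_sub_cancel] at h5
      exact h5
  intro z hz
  have := key z
  rwa [hz, zero_smul, sub_zero] at this

theorem KG.conn (hX : Cn X) (hF : Cn F) (x0 : X) (c : F) : KG X F 0 0 := by
  refine ⟨Fin.elim0, fun i => i.elim0, fun i => i.elim0, ?_⟩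
  intro z _ h
  refine ⟨Fin.elim0, ?_⟩
  rw [Finset.univ_eq_empty, Finset.sum_empty, sub_zero]
  apply Cn_prod hX hF x0 c
  rw [← ep_push (ContinuousMap.snd : C(X × F, F))]
  exact ep_of_Bdy h

/-- homotopy invariance -/
theorem KG.htpy {n k : ℕ} (f : C(S, X)) (g : C(X, S)) (H : C(X × I, X)) (h0 : ∀ x, H (x, 0) = x)
    (h1 : ∀ x, H (x, 1) = f (g x)) (h : KG S F n k) : KG X F n k := by
  obtain ⟨γ, k1, k2, k3⟩ := h
  let f' : C(S × F, X × F) := ⟨fun p => (f p.1, p.2), by fun_prop⟩
  let g' : C(X × F, S × F) := ⟨fun p => (g p.1, p.2), by fun_prop⟩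
  let H' : C((X × F) × I, X × F) := ⟨fun p => (H (p.1.1, p.2), p.1.2), by fun_prop⟩
  refine ⟨fun i => push f' n (γ i), fun i => push_mem_Cyc _ _ _ (k1 i), ?_, ?_⟩
  · intro i
    rw [push_push]
    exact k2 i
  · intro z hz hs
    obtain ⟨a, ha⟩ := k3 (push g' n z) (push_mem_Cyc _ _ _ hz) (by
      rw [push_push]
      exact hs)
    refine ⟨a, ?_⟩
    have h2 := push_sub_mem_of_homotopy H' (ContinuousMap.id _) (f'.comp g')
      (fun x => Prod.ext (h0 _) rfl) (fun x => Prod.ext (h1 _) rfl) n z hz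
    rw [push_id, ← push_push] at h2
    have h3 := push_mem_Bdy f' n _ ha
    rw [map_sub, map_sum] at h3
    have h4 := Submodule.sub_mem _ h3 h2
    have e : push f' n (push g' n z) - ∑ i, push f' n (a i • γ i) -
        (push f' n (push g' n z) - z) = z - ∑ i, a i • push f' n (γ i) := by
      simp only [map_smul]
      abel
    rwa [e] at h4

/-- the part of the product over a subset -/
abbrev ov (F : Type) (U : Set X) : Set (X × F) := {p | p.1 ∈ U}

/-- over a contractible subset, the projection is injective in homology -/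
theorem Ctr.inj {U : Set X} (h : Ctr U) {n : ℕ} {z : Sing (X × F) n →₀ ℚ} (hz : z ∈ sp (ov F U) n)
    (hc : z ∈ Cyc (X × F) n) (hs : push ContinuousMap.snd n z ∈ Bdy F n) : z ∈ Bd (ov F U) n := by
  obtain ⟨x, H, h0, h1⟩ := h
  obtain ⟨y, rfl⟩ := exists_lift hz
  have hy : y ∈ Cyc (ov F U) n := mem_Cyc_of_push _ Subtype.val_injective hc
  let K : C(ov F U × I, ov F U) := ⟨fun p => ⟨((H (⟨p.1.1.1, p.1.2⟩, p.2)).1, p.1.1.2),
    (H (⟨p.1.1.1, p.1.2⟩, p.2)).2⟩, by
      refine Continuous.subtype_mk (Continuous.prodMk ?_ (by fun_prop)) _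
      exact continuous_subtype_val.comp (H.continuous.comp (by fun_prop))⟩
  let s : C(F, ov F U) := ⟨fun f => ⟨(x.1, f), x.2⟩, by fun_prop⟩
  let q : C(ov F U, F) := ⟨fun p => p.1.2, by fun_prop⟩
  have h2 := push_sub_mem_of_homotopy K (ContinuousMap.id _) (s.comp q)
    (fun p => Subtype.ext (Prod.ext (by
      change (H (⟨p.1.1, p.2⟩, 0)).1 = p.1.1
      rw [h0]) rfl))
    (fun p => Subtype.ext (Prod.ext (by
      change (H (⟨p.1.1, p.2⟩, 1)).1 = x.1
      rw [h1]) rfl)) n y hy
  rw [push_id, ← push_push] at h2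
  rw [push_push] at hs
  have h3 := push_mem_Bdy s n _ hs
  have h4 := Submodule.sub_mem _ h3 h2
  have e : push s n (push ((ContinuousMap.snd : C(X × F, F)).comp (sub (ov F U))) n y) -
      (push s n (push q n y) - y) = y := by
    have : (ContinuousMap.snd : C(X × F, F)).comp (sub (ov F U)) = q := rfl
    rw [this]
    abel
  rw [e] at h4
  exact push_sub_mem_Bd h4

theorem KG.step {U V : Set X} (oU : IsOpen U) (oV : IsOpen V) (cov : ∀ x, x ∈ U ∨ x ∈ V)
    (cU : Ctr U) (cV : Ctr V) (c : ↥(U ∩ V)) {n k : ℕ} (h : KG ↥(U ∩ V) F n k) :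
    KG X F (n + 1) k := by
  obtain ⟨γ, k1, k2, k3⟩ := h
  have oU' : IsOpen (ov F U) := oU.preimage continuous_fst
  have oV' : IsOpen (ov F V) := oV.preimage continuous_fst
  have cov' : ∀ p : X × F, p ∈ ov F U ∨ p ∈ ov F V := fun p => cov p.1
  -- the generators, in `X × F`
  let j : C(↥(U ∩ V) × F, X × F) := ⟨fun p => (p.1.1, p.2), by fun_prop⟩
  have hj : ∀ (m : ℕ) (y : Sing (↥(U ∩ V) × F) m →₀ ℚ), push j m y ∈ sp (ov F U ∩ ov F V) m :=
    fun m y => push_mem_sp (O := Set.univ) (O' := ov F U ∩ ov F V) j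
      (fun p _ => ⟨p.1.2.1, p.1.2.2⟩) (mem_sp_univ y)
  have hjC : ∀ i, push j n (γ i) ∈ Cyc (X × F) n := fun i => push_mem_Cyc _ _ _ (k1 i)
  have hjs : ∀ i, push ContinuousMap.snd n (push j n (γ i)) ∈ Bdy F n := by
    intro i
    rw [push_push]
    exact k2 i
  have hU : ∀ i, ∃ u ∈ sp (ov F U) (n + 1), bdry (X × F) n u = push j n (γ i) := fun i =>
    cU.inj (sp_mono Set.inter_subset_left _ (hj n _)) (hjC i) (hjs i)
  have hV : ∀ i, ∃ v ∈ sp (ov F V) (n + 1), bdry (X × F) n v = push j n (γ i) := fun i =>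
    cV.inj (sp_mono Set.inter_subset_right _ (hj n _)) (hjC i) (hjs i)
  choose u hu hu2 using hU
  choose v hv hv2 using hV
  have hcyc : ∀ i, u i - v i ∈ Cyc (X × F) (n + 1) := by
    intro i
    apply mem_Cyc_of_bdry
    rw [map_sub, hu2, hv2, sub_self]
  let pr : C(X × F, F) := ContinuousMap.snd
  refine ⟨fun i => (u i - v i) - push (sec F c.1) (n + 1) (push pr (n + 1) (u i - v i)),
    ?_, ?_, ?_⟩
  · intro i
    exact Submodule.sub_mem _ (hcyc i) (push_mem_Cyc _ _ _ (push_mem_Cyc _ _ _ (hcyc i)))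
  · intro i
    have : push ContinuousMap.snd (n + 1) ((u i - v i) -
        push (sec F c.1) (n + 1) (push pr (n + 1) (u i - v i))) = 0 := by
      rw [map_sub (push ContinuousMap.snd (n + 1)), snd_sec]
      exact sub_self _
    rw [this]
    exact Submodule.zero_mem _
  · intro z hz hs
    obtain ⟨a, ha, b, hb, h1, h2, h3⟩ := split_univ (ov F U) (ov F V) oU' oV' cov' hz
    -- the overlap
    have hd : ∃ e : Fin k → ℚ, bdry (X × F) n a - ∑ i, e i • push j n (γ i) ∈
        Bd (ov F U ∩ ov F V) n := by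
      obtain ⟨d, hd⟩ := exists_lift h2
      let l : C(↥(ov F U ∩ ov F V), ↥(U ∩ V) × F) :=
        ⟨fun p => (⟨p.1.1, p.2.1, p.2.2⟩, p.1.2), by fun_prop⟩
      have hl : ∀ y : Sing ↥(ov F U ∩ ov F V) n →₀ ℚ, push j n (push l n y) =
          push (sub (ov F U ∩ ov F V)) n y := by
        intro y
        rw [push_push]
        rfl
      have hdC : d ∈ Cyc ↥(ov F U ∩ ov F V) n := by
        apply mem_Cyc_of_push (sub (ov F U ∩ ov F V)) Subtype.val_injective
        rw [hd]
        exact bdry_mem_Cyc a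
      obtain ⟨e, he⟩ := k3 (push l n d) (push_mem_Cyc _ _ _ hdC) (by
        have e1 : push ContinuousMap.snd n (push l n d) =
            bdry F n (push pr (n + 1) a) := by
          rw [bdry_push, ← hd, push_push, push_push]
          rfl
        rw [e1]
        exact ⟨_, rfl⟩)
      refine ⟨e, ?_⟩
      obtain ⟨w, hw⟩ := he
      refine ⟨push j (n + 1) w, hj _ _, ?_⟩
      rw [bdry_push, hw, map_sub, map_sum, hl, hd]
      simp only [map_smul]
    obtain ⟨e, w, hw, hw2⟩ := hd
    refine ⟨e, ?_⟩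
    set a' := a - ∑ i, e i • u i - w with ha'
    set b' := b + ∑ i, e i • v i + w with hb'
    have hwU := sp_mono Set.inter_subset_left _ hw
    have hwV := sp_mono Set.inter_subset_right _ hw
    have haU : a' ∈ sp (ov F U) (n + 1) := Submodule.sub_mem _ (Submodule.sub_mem _ ha
      (Submodule.sum_mem _ fun i _ => Submodule.smul_mem _ _ (hu i))) hwU
    have hbV : b' ∈ sp (ov F V) (n + 1) := Submodule.add_mem _ (Submodule.add_mem _ hb
      (Submodule.sum_mem _ fun i _ => Submodule.smul_mem _ _ (hv i))) hwV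
    have haC : a' ∈ Cyc (X × F) (n + 1) := by
      apply mem_Cyc_of_bdry
      rw [ha', map_sub, map_sub, map_sum, hw2]
      simp only [map_smul, hu2]
      abel
    have hbC : b' ∈ Cyc (X × F) (n + 1) := by
      apply mem_Cyc_of_bdry
      rw [hb', map_add, map_add, map_sum, hw2]
      simp only [map_smul, hv2]
      have : bdry (X × F) n b = - bdry (X × F) n a := by
        rw [eq_neg_iff_add_eq_zero, add_comm]
        exact h3
      rw [this]
      abel
    -- retract to the section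
    have rU : a' - push (sec F c.1) (n + 1) (push pr (n + 1) a') ∈ Bdy (X × F) (n + 1) := by
      apply Bd_le_Bdy (ov F U)
      apply cU.inj
      · refine Submodule.sub_mem _ haU ?_
        exact push_mem_sp _ (O := Set.univ) (fun f _ => c.2.1) (mem_sp_univ _)
      · exact Submodule.sub_mem _ haC (push_mem_Cyc _ _ _ (push_mem_Cyc _ _ _ haC))
      · rw [map_sub, snd_sec]
        have : push ContinuousMap.snd (n + 1) a' - push pr (n + 1) a' = 0 := sub_self _
        rw [this]
        exact Submodule.zero_mem _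
    have rV : b' - push (sec F c.1) (n + 1) (push pr (n + 1) b') ∈ Bdy (X × F) (n + 1) := by
      apply Bd_le_Bdy (ov F V)
      apply cV.inj
      · refine Submodule.sub_mem _ hbV ?_
        exact push_mem_sp _ (O := Set.univ) (fun f _ => c.2.2) (mem_sp_univ _)
      · exact Submodule.sub_mem _ hbC (push_mem_Cyc _ _ _ (push_mem_Cyc _ _ _ hbC))
      · rw [map_sub, snd_sec]
        have : push ContinuousMap.snd (n + 1) b' - push pr (n + 1) b' = 0 := sub_self _
        rw [this]
        exact Submodule.zero_mem _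
    have hsum : a' + b' = a + b - ∑ i, e i • (u i - v i) := by
      rw [ha', hb']
      simp only [smul_sub, Finset.sum_sub_distrib]
      abel
    -- the projection of `a + b` bounds
    have hab : push (sec F c.1) (n + 1) (push pr (n + 1) (a + b)) ∈ Bdy (X × F) (n + 1) := by
      apply push_mem_Bdy
      have h5 := push_mem_Bdy pr (n + 1) _ h1
      rw [map_sub] at h5
      have h6 := Submodule.sub_mem _ hs h5
      have : push ContinuousMap.snd (n + 1) z - (push pr (n + 1) z - push pr (n + 1) (a + b)) =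
          push pr (n + 1) (a + b) := sub_sub_cancel _ _
      rwa [this] at h6
    have h7 := Submodule.add_mem _ h1 (Submodule.add_mem _ (Submodule.add_mem _ rU rV) hab)
    convert h7 using 1
    have e1 : push pr (n + 1) a' + push pr (n + 1) b' =
        push pr (n + 1) (a + b) - ∑ i, e i • push pr (n + 1) (u i - v i) := by
      rw [← map_add, hsum, map_sub, map_sum]
      simp only [map_smul]
    have e2 : push (sec F c.1) (n + 1) (push pr (n + 1) a') +
        push (sec F c.1) (n + 1) (push pr (n + 1) b') =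
        push (sec F c.1) (n + 1) (push pr (n + 1) (a + b)) -
          ∑ i, e i • push (sec F c.1) (n + 1) (push pr (n + 1) (u i - v i)) := by
      rw [← map_add, e1, map_sub, map_sum]
      simp only [map_smul]
    have e3 : a' - push (sec F c.1) (n + 1) (push pr (n + 1) a') +
        (b' - push (sec F c.1) (n + 1) (push pr (n + 1) b')) = (a' + b') -
        (push (sec F c.1) (n + 1) (push pr (n + 1) a') +
        push (sec F c.1) (n + 1) (push pr (n + 1) b')) := by abel
    rw [e3, e2, hsum]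
    simp only [smul_sub, Finset.sum_sub_distrib]
    abel

end gen

end

end Run7.h592
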