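import Pool.Agent.Run7.h592.Sph

/-! Punctured spaces. -/

set_option autoImplicit false

open scoped Topology

namespace Run7.h592

open Pool.Agent.Y209.HB Finsupp

noncomputable section

/-- punctured space -/
abbrev Pn (E : Type) [NormedAddCommGroup E] : Type := {x : E // x ≠ 0}

section pe

variable {E : Type} [NormedAddCommGroup E]

/-- without the lower half line -/
def UP (E : Type) [NormedAddCommGroup E] : Set (Pn (E × ℝ)) := {p | p.1.1 ≠ 0 ∨ 0 < p.1.2}

/-- without the upper half line -/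
def UM (E : Type) [NormedAddCommGroup E] : Set (Pn (E × ℝ)) := {p | p.1.1 ≠ 0 ∨ p.1.2 < 0}

theorem UP_open : IsOpen (UP E) := by
  have h1 : IsOpen {p : Pn (E × ℝ) | p.1.1 ≠ 0} := isOpen_ne_fun (by fun_prop) continuous_const
  have h2 : IsOpen {p : Pn (E × ℝ) | 0 < p.1.2} := isOpen_lt continuous_const (by fun_prop)
  exact h1.union h2

theorem UM_open : IsOpen (UM E) := by
  have h1 : IsOpen {p : Pn (E × ℝ) | p.1.1 ≠ 0} := isOpen_ne_fun (by fun_prop) continuous_const
  have h2 : IsOpen {p : Pn (E × ℝ) | p.1.2 < 0} := isOpen_lt (by fun_prop) continuous_const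
  exact h1.union h2

theorem UPM_cover (p : Pn (E × ℝ)) : p ∈ UP E ∨ p ∈ UM E := by
  by_cases h : p.1.1 = 0
  · have h2 : p.1.2 ≠ 0 := fun h2 => p.2 (Prod.ext h h2)
    rcases lt_or_gt_of_ne h2 with h3 | h3
    · exact Or.inr (Or.inr h3)
    · exact Or.inl (Or.inr h3)
  · exact Or.inl (Or.inl h)

theorem PW_ne (p : ↥(UP E ∩ UM E)) : p.1.1.1 ≠ 0 := by
  rcases p.2.1 with h | h
  · exact h
  · rcases p.2.2 with h' | h'
    · exact h'
    · exact absurd h (not_lt.2 h'.le)

/-- the equator -/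
def eqt (E : Type) [NormedAddCommGroup E] : C(Pn E, ↥(UP E ∩ UM E)) :=
  ⟨fun x => ⟨⟨(x.1, 0), fun h => x.2 (congrArg Prod.fst h)⟩, Or.inl x.2, Or.inl x.2⟩, by
    refine Continuous.subtype_mk (Continuous.subtype_mk ?_ _) _
    fun_prop⟩

/-- the projection to the equator -/
def eqp (E : Type) [NormedAddCommGroup E] : C(↥(UP E ∩ UM E), Pn E) :=
  ⟨fun p => ⟨p.1.1.1, PW_ne p⟩, by fun_prop⟩

/-- the homotopy -/
def eqh (E : Type) [NormedAddCommGroup E] : C(↥(UP E ∩ UM E) × I, ↥(UP E ∩ UM E)) :=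
  ⟨fun q => ⟨⟨(q.1.1.1.1, (1 - (q.2 : ℝ)) * q.1.1.1.2), fun h => PW_ne q.1 (congrArg Prod.fst h)⟩,
    Or.inl (PW_ne q.1), Or.inl (PW_ne q.1)⟩, by
    refine Continuous.subtype_mk (Continuous.subtype_mk ?_ _) _
    fun_prop⟩

theorem eqh_zero (x : ↥(UP E ∩ UM E)) : eqh E (x, 0) = x := by
  apply Subtype.ext
  apply Subtype.ext
  change (x.1.1.1, (1 - (0 : ℝ)) * x.1.1.2) = x.1.1
  simp

theorem eqh_one (x : ↥(UP E ∩ UM E)) : eqh E (x, 1) = eqt E (eqp E x) := by
  apply Subtype.ext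
  apply Subtype.ext
  change (x.1.1.1, (1 - (1 : ℝ)) * x.1.1.2) = (x.1.1.1, 0)
  simp

variable [NormedSpace ℝ E]

/-- convexity of the half lines -/
theorem seg_mem {x : E} {s : ℝ} (h : x ≠ 0 ∨ 0 < s) {t : ℝ} (h0 : 0 ≤ t) (h1 : t ≤ 1) :
    (1 - t) • x ≠ 0 ∨ 0 < (1 - t) * s + t := by
  rcases eq_or_lt_of_le h1 with h2 | h2
  · right
    rw [h2]
    norm_num
  · rcases h with h | h
    · left
      exact smul_ne_zero (by linarith) h
    · right
      have : 0 < (1 - t) * s := mul_pos (by linarith) h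
      linarith

theorem Ctr_UP : Ctr (UP E) := by
  let H : C(UP E × I, UP E) := ⟨fun q => ⟨⟨((1 - (q.2 : ℝ)) • q.1.1.1.1,
      (1 - (q.2 : ℝ)) * q.1.1.1.2 + q.2), by
        intro h
        rcases seg_mem q.1.2 q.2.2.1 q.2.2.2 with h2 | h2
        · exact h2 (congrArg Prod.fst h)
        · have h3 := congrArg Prod.snd h
          change (1 - (q.2 : ℝ)) * q.1.1.1.2 + q.2 = 0 at h3
          linarith⟩, seg_mem q.1.2 q.2.2.1 q.2.2.2⟩, by
    refine Continuous.subtype_mk (Continuous.subtype_mk ?_ _) _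
    fun_prop⟩
  refine ⟨⟨⟨(0, 1), fun h => one_ne_zero (congrArg Prod.snd h)⟩, Or.inr one_pos⟩, H, ?_, ?_⟩
  · intro y
    apply Subtype.ext
    apply Subtype.ext
    change ((1 - (0 : ℝ)) • y.1.1.1, (1 - (0 : ℝ)) * y.1.1.2 + 0) = y.1.1
    simp
  · intro y
    apply Subtype.ext
    apply Subtype.ext
    change ((1 - (1 : ℝ)) • y.1.1.1, (1 - (1 : ℝ)) * y.1.1.2 + 1) = (0, 1)
    simp

theorem Ctr_UM : Ctr (UM E) := by
  have key : ∀ (x : E) (s : ℝ), (x ≠ 0 ∨ s < 0) → ∀ t : ℝ, 0 ≤ t → t ≤ 1 →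
      (1 - t) • x ≠ 0 ∨ (1 - t) * s - t < 0 := by
    intro x s h t h0 h1
    rcases seg_mem (x := x) (s := -s) (h.imp id (fun h => by linarith)) h0 h1 with h2 | h2
    · exact Or.inl h2
    · right
      linarith
  let H : C(UM E × I, UM E) := ⟨fun q => ⟨⟨((1 - (q.2 : ℝ)) • q.1.1.1.1,
      (1 - (q.2 : ℝ)) * q.1.1.1.2 - q.2), by
        intro h
        rcases key _ _ q.1.2 _ q.2.2.1 q.2.2.2 with h2 | h2
        · exact h2 (congrArg Prod.fst h)
        · have h3 := congrArg Prod.snd h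
          change (1 - (q.2 : ℝ)) * q.1.1.1.2 - q.2 = 0 at h3
          linarith⟩, key _ _ q.1.2 _ q.2.2.1 q.2.2.2⟩, by
    refine Continuous.subtype_mk (Continuous.subtype_mk ?_ _) _
    fun_prop⟩
  refine ⟨⟨⟨(0, -1), fun h => by
    have := congrArg Prod.snd h
    norm_num at this⟩, Or.inr (by norm_num)⟩, H, ?_, ?_⟩
  · intro y
    apply Subtype.ext
    apply Subtype.ext
    change ((1 - (0 : ℝ)) • y.1.1.1, (1 - (0 : ℝ)) * y.1.1.2 - 0) = y.1.1
    simp
  · intro y
    apply Subtype.ext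
    apply Subtype.ext
    change ((1 - (1 : ℝ)) • y.1.1.1, (1 - (1 : ℝ)) * y.1.1.2 - 1) = (0, -1)
    simp

theorem HE_eqp : HE (eqp E) :=
  HE_of_homotopyEquiv (eqp E) (eqt E) (eqh E) ⟨Prod.fst, continuous_fst⟩ eqh_zero eqh_one
    (fun _ => rfl) (fun _ => rfl)

theorem RS.pe {k : ℕ} (hk : 1 ≤ k) (h : RS (Pn E) k) : RS (Pn (E × ℝ)) (k + 1) :=
  RS.susp UP_open UM_open UPM_cover Ctr_UP Ctr_UM hk (RS.of_HE' HE_eqp h)

theorem KG.pe {F : Type} [TopologicalSpace F] {n k : ℕ} (x : Pn E) (h : KG (Pn E) F n k) :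
    KG (Pn (E × ℝ)) F (n + 1) k :=
  KG.step UP_open UM_open UPM_cover Ctr_UP Ctr_UM (eqt E x)
    (KG.htpy (eqt E) (eqp E) (eqh E) eqh_zero eqh_one h)

end pe

/-! ### The base: the punctured line -/

/-- the positive half line -/
def PP : Set (Pn ℝ) := {s | 0 < s.1}

/-- the negative half line -/
def PM : Set (Pn ℝ) := {s | s.1 < 0}

theorem PP_open : IsOpen PP := isOpen_lt continuous_const (by fun_prop)

theorem PM_open : IsOpen PM := isOpen_lt (by fun_prop) continuous_const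

theorem PPM_cover (s : Pn ℝ) : s ∈ PP ∨ s ∈ PM := (lt_or_gt_of_ne s.2).symm

theorem PPM_inter : PP ∩ PM = ∅ := by
  ext s
  simp only [Set.mem_inter_iff, Set.mem_empty_iff_false, iff_false, not_and]
  intro h h'
  have h1 : 0 < s.1 := h
  have h2 : s.1 < 0 := h'
  linarith

/-- the point `1` -/
def pp1 : Pn ℝ := ⟨1, one_ne_zero⟩

/-- the point `-1` -/
def pm1 : Pn ℝ := ⟨-1, by norm_num⟩

theorem pos_seg {s t : ℝ} (h : 0 < s) (h0 : 0 ≤ t) (h1 : t ≤ 1) : 0 < (1 - t) * s + t := by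
  rcases eq_or_lt_of_le h1 with h2 | h2
  · rw [h2]
    norm_num
  · have : 0 < (1 - t) * s := mul_pos (by linarith) h
    linarith

theorem neg_seg {s t : ℝ} (h : s < 0) (h0 : 0 ≤ t) (h1 : t ≤ 1) : (1 - t) * s - t < 0 := by
  have := pos_seg (s := -s) (t := t) (by linarith) h0 h1
  linarith

theorem Ctr_PP : Ctr PP := by
  let H : C(PP × I, PP) := ⟨fun q => ⟨⟨(1 - (q.2 : ℝ)) * q.1.1.1 + q.2,
    (pos_seg q.1.2 q.2.2.1 q.2.2.2).ne'⟩, pos_seg q.1.2 q.2.2.1 q.2.2.2⟩, by
    refine Continuous.subtype_mk (Continuous.subtype_mk ?_ _) _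
    fun_prop⟩
  refine ⟨⟨pp1, show (0 : ℝ) < 1 from one_pos⟩, H, ?_, ?_⟩
  · intro y
    apply Subtype.ext
    apply Subtype.ext
    change (1 - (0 : ℝ)) * y.1.1 + 0 = y.1.1
    simp
  · intro y
    apply Subtype.ext
    apply Subtype.ext
    change (1 - (1 : ℝ)) * y.1.1 + 1 = 1
    simp

theorem Ctr_PM : Ctr PM := by
  let H : C(PM × I, PM) := ⟨fun q => ⟨⟨(1 - (q.2 : ℝ)) * q.1.1.1 - q.2,
    (neg_seg q.1.2 q.2.2.1 q.2.2.2).ne⟩, neg_seg q.1.2 q.2.2.1 q.2.2.2⟩, by
    refine Continuous.subtype_mk (Continuous.subtype_mk ?_ _) _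
    fun_prop⟩
  refine ⟨⟨pm1, by change (-1 : ℝ) < 0; norm_num⟩, H, ?_, ?_⟩
  · intro y
    apply Subtype.ext
    apply Subtype.ext
    change (1 - (0 : ℝ)) * y.1.1 - 0 = y.1.1
    simp
  · intro y
    apply Subtype.ext
    apply Subtype.ext
    change (1 - (1 : ℝ)) * y.1.1 - 1 = -1
    simp

section base

variable {F : Type} [TopologicalSpace F]

theorem KG.base0 (hF : Cn F) (c : F) : KG (Pn ℝ) F 0 1 := by
  have key : ∀ z : Sing (Pn ℝ × F) 0 →₀ ℚ, ∃ a b : ℚ, a + b = ep (Pn ℝ × F) 0 z ∧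
      z - (a • single (cs (pp1, c) 0) 1 + b • single (cs (pm1, c) 0) 1) ∈
        Bdy (Pn ℝ × F) 0 := by
    intro z
    induction z using Finsupp.induction_linear with
    | zero => exact ⟨0, 0, by simp, by simp⟩
    | add y z hy hz =>
      obtain ⟨a, b, h1, h2⟩ := hy
      obtain ⟨a', b', h3, h4⟩ := hz
      refine ⟨a + a', b + b', ?_, ?_⟩
      · rw [map_add, ← h1, ← h3]
        ring
      · have := (Bdy (Pn ℝ × F) 0).add_mem h2 h4
        rw [add_smul, add_smul]
        convert this using 1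
        abel
    | single σ r =>
      have e : single σ r = r • single (cs (σ (stdSimplex.vertex 0)) 0) (1 : ℚ) := by
        rw [← sing0_eqS σ, smul_single, smul_eq_mul, mul_one]
      set y := σ (stdSimplex.vertex 0) with hy
      have h1 : single (cs y.2 0) (1 : ℚ) - single (cs c 0) 1 ∈ Bdy F 0 := by
        apply hF
        rw [map_sub, ep_single, ep_single, sub_self]
      have h3 := push_mem_Bdy (⟨fun f => (y.1, f), by fun_prop⟩ : C(F, Pn ℝ × F)) 0 _ h1
      rw [map_sub, push_single, push_single] at h3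
      have e1 : (⟨fun f => (y.1, f), by fun_prop⟩ : C(F, Pn ℝ × F)).comp (cs y.2 0) =
        cs y 0 := rfl
      have e2 : (⟨fun f => (y.1, f), by fun_prop⟩ : C(F, Pn ℝ × F)).comp (cs c 0) =
        cs (y.1, c) 0 := rfl
      rw [e1, e2] at h3
      rcases PPM_cover y.1 with hp | hm
      · refine ⟨r, 0, by rw [ep_single, add_zero], ?_⟩
        rw [e, zero_smul, add_zero, ← smul_sub]
        apply Submodule.smul_mem
        have h2 : single (cs y.1 0) (1 : ℚ) - single (cs pp1 0) 1 ∈ Bdy (Pn ℝ) 0 := by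
          apply Bd_le_Bdy PP
          apply CnO_of_Cn Ctr_PP.cn
          · refine Submodule.sub_mem _ (single_mem_sp ?_) (single_mem_sp ?_)
            · rintro _ ⟨t, rfl⟩
              exact hp
            · rintro _ ⟨t, rfl⟩
              exact (one_pos : (0 : ℝ) < 1)
          · rw [map_sub, ep_single, ep_single, sub_self]
        have h4 := push_mem_Bdy (⟨fun x => (x, c), by fun_prop⟩ : C(Pn ℝ, Pn ℝ × F)) 0 _ h2
        rw [map_sub, push_single, push_single] at h4
        have h5 := (Bdy (Pn ℝ × F) 0).add_mem h3 h4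
        have e3 : (⟨fun x => (x, c), by fun_prop⟩ : C(Pn ℝ, Pn ℝ × F)).comp (cs y.1 0) =
          cs (y.1, c) 0 := rfl
        have e4 : (⟨fun x => (x, c), by fun_prop⟩ : C(Pn ℝ, Pn ℝ × F)).comp (cs pp1 0) =
          cs (pp1, c) 0 := rfl
        rw [e3, e4, sub_add_sub_cancel] at h5
        exact h5
      · refine ⟨0, r, by rw [ep_single, zero_add], ?_⟩
        rw [e, zero_smul, zero_add, ← smul_sub]
        apply Submodule.smul_mem
        have h2 : single (cs y.1 0) (1 : ℚ) - single (cs pm1 0) 1 ∈ Bdy (Pn ℝ) 0 := by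
          apply Bd_le_Bdy PM
          apply CnO_of_Cn Ctr_PM.cn
          · refine Submodule.sub_mem _ (single_mem_sp ?_) (single_mem_sp ?_)
            · rintro _ ⟨t, rfl⟩
              exact hm
            · rintro _ ⟨t, rfl⟩
              change (-1 : ℝ) < 0
              norm_num
          · rw [map_sub, ep_single, ep_single, sub_self]
        have h4 := push_mem_Bdy (⟨fun x => (x, c), by fun_prop⟩ : C(Pn ℝ, Pn ℝ × F)) 0 _ h2
        rw [map_sub, push_single, push_single] at h4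
        have h5 := (Bdy (Pn ℝ × F) 0).add_mem h3 h4
        have e3 : (⟨fun x => (x, c), by fun_prop⟩ : C(Pn ℝ, Pn ℝ × F)).comp (cs y.1 0) =
          cs (y.1, c) 0 := rfl
        have e4 : (⟨fun x => (x, c), by fun_prop⟩ : C(Pn ℝ, Pn ℝ × F)).comp (cs pm1 0) =
          cs (pm1, c) 0 := rfl
        rw [e3, e4, sub_add_sub_cancel] at h5
        exact h5
  refine ⟨fun _ => single (cs (pp1, c) 0) 1 - single (cs (pm1, c) 0) 1, fun _ => trivial, ?_, ?_⟩
  · intro _
    rw [map_sub, push_single, push_single]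
    have : (ContinuousMap.snd : C(Pn ℝ × F, F)).comp (cs (pp1, c) 0) =
      (ContinuousMap.snd : C(Pn ℝ × F, F)).comp (cs (pm1, c) 0) := rfl
    rw [this, sub_self]
    exact Submodule.zero_mem _
  · intro z _ hs
    obtain ⟨a, b, h1, h2⟩ := key z
    have h0 : ep (Pn ℝ × F) 0 z = 0 := by
      rw [← ep_push (ContinuousMap.snd : C(Pn ℝ × F, F))]
      exact ep_of_Bdy hs
    refine ⟨fun _ => a, ?_⟩
    rw [Fin.sum_univ_one, smul_sub]
    have hb : b = -a := by linarith
    rw [hb, neg_smul] at h2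
    convert h2 using 2
    abel

theorem KG.baseS {n k : ℕ} (h : Gen F (n + 1) k) : KG (Pn ℝ) F (n + 1) k := by
  obtain ⟨γ, k1, k2⟩ := h
  let pr : C(Pn ℝ × F, F) := ContinuousMap.snd
  refine ⟨fun i => push (sec F pp1) (n + 1) (γ i) - push (sec F pm1) (n + 1) (γ i), ?_, ?_, ?_⟩
  · intro i
    exact Submodule.sub_mem _ (push_mem_Cyc _ _ _ (k1 i)) (push_mem_Cyc _ _ _ (k1 i))
  · intro i
    rw [map_sub, snd_sec, snd_sec, sub_self]
    exact Submodule.zero_mem _
  · intro z hz hs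
    obtain ⟨a, ha, b, hb, h1, h2, h3⟩ := split_univ (ov F PP) (ov F PM)
      (PP_open.preimage continuous_fst) (PM_open.preimage continuous_fst)
      (fun p => PPM_cover p.1) hz
    have hemp : ov F PP ∩ ov F PM = ∅ := by
      ext p
      simp only [Set.mem_inter_iff, Set.mem_empty_iff_false, iff_false]
      intro hp
      have : p.1 ∈ PP ∩ PM := hp
      rw [PPM_inter] at this
      exact this
    rw [hemp] at h2
    have ha0 := eq_zero_of_sp_empty h2
    have hb0 : bdry (Pn ℝ × F) n b = 0 := by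
      rw [ha0, zero_add] at h3
      exact h3
    have haC : a ∈ Cyc (Pn ℝ × F) (n + 1) := ha0
    have hbC : b ∈ Cyc (Pn ℝ × F) (n + 1) := hb0
    have rU : a - push (sec F pp1) (n + 1) (push pr (n + 1) a) ∈ Bdy (Pn ℝ × F) (n + 1) := by
      apply Bd_le_Bdy (ov F PP)
      apply Ctr_PP.inj
      · refine Submodule.sub_mem _ ha ?_
        exact push_mem_sp (O := Set.univ) (O' := ov F PP) _
          (fun f _ => (one_pos : (0 : ℝ) < 1)) (mem_sp_univ _)
      · exact Submodule.sub_mem _ haC (push_mem_Cyc _ _ _ (push_mem_Cyc _ _ _ haC))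
      · rw [map_sub, snd_sec]
        have : push ContinuousMap.snd (n + 1) a - push pr (n + 1) a = 0 := sub_self _
        rw [this]
        exact Submodule.zero_mem _
    have rV : b - push (sec F pm1) (n + 1) (push pr (n + 1) b) ∈ Bdy (Pn ℝ × F) (n + 1) := by
      apply Bd_le_Bdy (ov F PM)
      apply Ctr_PM.inj
      · refine Submodule.sub_mem _ hb ?_
        exact push_mem_sp (O := Set.univ) (O' := ov F PM) _
          (fun f _ => by change (-1 : ℝ) < 0; norm_num) (mem_sp_univ _)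
      · exact Submodule.sub_mem _ hbC (push_mem_Cyc _ _ _ (push_mem_Cyc _ _ _ hbC))
      · rw [map_sub, snd_sec]
        have : push ContinuousMap.snd (n + 1) b - push pr (n + 1) b = 0 := sub_self _
        rw [this]
        exact Submodule.zero_mem _
    obtain ⟨e, he⟩ := k2 (push pr (n + 1) a) (push_mem_Cyc _ _ _ haC)
    have hab : push pr (n + 1) a + push pr (n + 1) b ∈ Bdy F (n + 1) := by
      have h5 := push_mem_Bdy pr (n + 1) _ h1
      rw [map_sub, map_add] at h5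
      have h6 := Submodule.sub_mem _ hs h5
      have : push ContinuousMap.snd (n + 1) z - (push pr (n + 1) z - (push pr (n + 1) a +
        push pr (n + 1) b)) = push pr (n + 1) a + push pr (n + 1) b := sub_sub_cancel _ _
      rwa [this] at h6
    have he' : push pr (n + 1) b + ∑ i, e i • γ i ∈ Bdy F (n + 1) := by
      have := Submodule.sub_mem _ hab he
      convert this using 1
      abel
    refine ⟨e, ?_⟩
    have g1 := push_mem_Bdy (sec F pp1) (n + 1) _ he
    have g2 := push_mem_Bdy (sec F pm1) (n + 1) _ he'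
    have h7 := Submodule.add_mem _ (Submodule.add_mem _ h1 (Submodule.add_mem _ rU rV))
      (Submodule.add_mem _ g1 g2)
    convert h7 using 1
    rw [map_sub, map_add (push (sec F pm1) (n + 1)), map_sum, map_sum]
    simp only [smul_sub, Finset.sum_sub_distrib, map_smul]
    abel

end base

/-! ### The punctured plane, space and 4-space -/

/-- the plane -/
abbrev R2 : Type := ℝ × ℝ

/-- space -/
abbrev R3 : Type := R2 × ℝ

/-- 4-space -/
abbrev R4 : Type := R3 × ℝ

/-- a point -/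
def p2 : Pn R2 := eqt ℝ pp1 |>.1

/-- a point -/
def p3 : Pn R3 := eqt R2 p2 |>.1

/-- a point -/
def p4 : Pn R4 := eqt R3 p3 |>.1

theorem RS_P0 : RS P0 1 := by
  refine ⟨?_, P0_Cn, gP, gP_Cyc, P0_ne, P0_span⟩
  intro n hn
  obtain ⟨m, rfl⟩ : ∃ m, n = m + 1 := ⟨n - 1, by omega⟩
  exact P0_Ac m

theorem RS_R2 : RS (Pn R2) 1 := by
  let e : P0 ≃ₜ Pn R2 :=
    { toFun := fun z => ⟨(z.1.re, z.1.im), fun h => z.2 (Complex.ext (congrArg Prod.fst h)
        (congrArg Prod.snd h))⟩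
      invFun := fun p => ⟨⟨p.1.1, p.1.2⟩, fun h => p.2 (Prod.ext (congrArg Complex.re h)
        (congrArg Complex.im h))⟩
      left_inv := fun z => rfl
      right_inv := fun p => rfl
      continuous_toFun := by
        refine Continuous.subtype_mk ?_ _
        exact (Complex.continuous_re.comp continuous_subtype_val).prodMk
          (Complex.continuous_im.comp continuous_subtype_val)
      continuous_invFun := by
        refine Continuous.subtype_mk ?_ _
        have : Continuous fun p : Pn R2 => Complex.equivRealProdCLM.symm p.1 :=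
          Complex.equivRealProdCLM.symm.continuous.comp continuous_subtype_val
        exact this }
  exact RS.of_HE (HE_of_homeo e ⟨e, e.continuous⟩ (fun _ => rfl)) RS_P0

theorem RS_R3 : RS (Pn R3) 2 := RS.pe le_rfl RS_R2

theorem RS_R4 : RS (Pn R4) 3 := RS.pe (by norm_num) RS_R3

/-! ### The unit spheres -/

/-- the Euclidean norm of 3-space -/
def nr3 (x : R3) : ℝ := Real.sqrt (x.1.1 ^ 2 + x.1.2 ^ 2 + x.2 ^ 2)

/-- the Euclidean norm of 4-space -/
def nr4 (x : R4) : ℝ := Real.sqrt (x.1.1.1 ^ 2 + x.1.1.2 ^ 2 + x.1.2 ^ 2 + x.2 ^ 2)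

theorem nr3_pos (x : Pn R3) : 0 < nr3 x.1 := by
  apply Real.sqrt_pos.2
  by_contra h
  push Not at h
  apply x.2
  have h1 := sq_nonneg x.1.1.1
  have h2 := sq_nonneg x.1.1.2
  have h3 := sq_nonneg x.1.2
  refine Prod.ext (Prod.ext ?_ ?_) ?_
  · exact pow_eq_zero_iff two_ne_zero |>.1 (by linarith)
  · exact pow_eq_zero_iff two_ne_zero |>.1 (by linarith)
  · exact pow_eq_zero_iff two_ne_zero |>.1 (by linarith)

theorem nr4_pos (x : Pn R4) : 0 < nr4 x.1 := by
  apply Real.sqrt_pos.2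
  by_contra h
  push Not at h
  apply x.2
  have h1 := sq_nonneg x.1.1.1.1
  have h2 := sq_nonneg x.1.1.1.2
  have h3 := sq_nonneg x.1.1.2
  have h4 := sq_nonneg x.1.2
  refine Prod.ext (Prod.ext (Prod.ext ?_ ?_) ?_) ?_
  · exact pow_eq_zero_iff two_ne_zero |>.1 (by linarith)
  · exact pow_eq_zero_iff two_ne_zero |>.1 (by linarith)
  · exact pow_eq_zero_iff two_ne_zero |>.1 (by linarith)
  · exact pow_eq_zero_iff two_ne_zero |>.1 (by linarith)

theorem nr3_sq (x : R3) : nr3 x ^ 2 = x.1.1 ^ 2 + x.1.2 ^ 2 + x.2 ^ 2 :=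
  Real.sq_sqrt (by positivity)

theorem nr4_sq (x : R4) : nr4 x ^ 2 = x.1.1.1 ^ 2 + x.1.1.2 ^ 2 + x.1.2 ^ 2 + x.2 ^ 2 :=
  Real.sq_sqrt (by positivity)

theorem nr3_cont : Continuous nr3 := by
  unfold nr3
  fun_prop

theorem nr4_cont : Continuous nr4 := by
  unfold nr4
  fun_prop

/-- the radial homotopy -/
theorem rad_ne {E : Type} [NormedAddCommGroup E] [NormedSpace ℝ E] (x : Pn E) {r t : ℝ}
    (hr : 0 < r) (h0 : 0 ≤ t) (h1 : t ≤ 1) : ((1 - t) + t / r) • x.1 ≠ 0 := by
  apply smul_ne_zero _ x.2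
  rcases eq_or_lt_of_le h0 with h2 | h2
  · rw [← h2]
    norm_num
  · have : 0 < t / r := div_pos h2 hr
    linarith

/-- `G → R⁴ - 0` -/
def gi : C(G, Pn R4) where
  toFun a := ⟨(((a.1.re, a.1.imI), a.1.imJ), a.1.imK), by
    intro h
    have h1 := G.eq a
    have e1 : a.1.re = 0 := congrArg (fun x : R4 => x.1.1.1) h
    have e2 : a.1.imI = 0 := congrArg (fun x : R4 => x.1.1.2) h
    have e3 : a.1.imJ = 0 := congrArg (fun x : R4 => x.1.2) h
    have e4 : a.1.imK = 0 := congrArg (fun x : R4 => x.2) h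
    rw [e1, e2, e3, e4] at h1
    norm_num at h1⟩
  continuous_toFun := by
    refine Continuous.subtype_mk ?_ _
    exact (((Quaternion.continuous_re.comp continuous_subtype_val).prodMk
      (Quaternion.continuous_imI.comp continuous_subtype_val)).prodMk
      (Quaternion.continuous_imJ.comp continuous_subtype_val)).prodMk
      (Quaternion.continuous_imK.comp continuous_subtype_val)

/-- `R⁴ - 0 → G` -/
def gr : C(Pn R4, G) where
  toFun x := ⟨qmk (x.1.1.1.1 / nr4 x.1) (x.1.1.1.2 / nr4 x.1) (x.1.1.2 / nr4 x.1)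
      (x.1.2 / nr4 x.1), by
    apply qmk_mem
    have h := nr4_sq x.1
    have h0 := (nr4_pos x).ne'
    field_simp
    linarith⟩
  continuous_toFun := by
    refine Continuous.subtype_mk ?_ _
    have hn : Continuous fun x : Pn R4 => nr4 x.1 := nr4_cont.comp continuous_subtype_val
    have hd : ∀ f : Pn R4 → ℝ, Continuous f → Continuous fun x => f x / nr4 x.1 := fun f hf =>
      hf.div hn fun x => (nr4_pos x).ne'
    exact continuous_qmk.comp ((hd _ (by fun_prop)).prodMk ((hd _ (by fun_prop)).prodMk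
      ((hd _ (by fun_prop)).prodMk (hd _ (by fun_prop)))))

theorem gr_gi (a : G) : gr (gi a) = a := by
  have h : nr4 (gi a).1 = 1 := by
    change Real.sqrt (a.1.re ^ 2 + a.1.imI ^ 2 + a.1.imJ ^ 2 + a.1.imK ^ 2) = 1
    rw [G.eq a, Real.sqrt_one]
  apply Subtype.ext
  change qmk (a.1.re / nr4 (gi a).1) (a.1.imI / nr4 (gi a).1) (a.1.imJ / nr4 (gi a).1)
    (a.1.imK / nr4 (gi a).1) = a.1
  rw [h, div_one, div_one, div_one, div_one]
  rfl

/-- the homotopy -/
def gh : C(Pn R4 × I, Pn R4) where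
  toFun q := ⟨((1 - (q.2 : ℝ)) + q.2 / nr4 q.1.1) • q.1.1,
    rad_ne q.1 (nr4_pos q.1) q.2.2.1 q.2.2.2⟩
  continuous_toFun := by
    refine Continuous.subtype_mk ?_ _
    have hn : Continuous fun q : Pn R4 × I => nr4 q.1.1 := nr4_cont.comp (by fun_prop)
    have h2 : Continuous fun q : Pn R4 × I => (q.2 : ℝ) / nr4 q.1.1 :=
      Continuous.div (by fun_prop) hn fun q => (nr4_pos q.1).ne'
    have h3 : Continuous fun q : Pn R4 × I => (1 - (q.2 : ℝ)) := by fun_prop
    have h4 : Continuous fun q : Pn R4 × I => q.1.1 := by fun_prop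
    exact (h3.add h2).smul h4

theorem gh_zero (x : Pn R4) : gh (x, 0) = x := by
  apply Subtype.ext
  change ((1 - (0 : ℝ)) + 0 / nr4 x.1) • x.1 = x.1
  simp

theorem gh_one (x : Pn R4) : gh (x, 1) = gi (gr x) := by
  apply Subtype.ext
  change ((1 - (1 : ℝ)) + 1 / nr4 x.1) • x.1 = (((x.1.1.1.1 / nr4 x.1, x.1.1.1.2 / nr4 x.1),
    x.1.1.2 / nr4 x.1), x.1.2 / nr4 x.1)
  rw [sub_self, zero_add]
  refine Prod.ext (Prod.ext (Prod.ext ?_ ?_) ?_) ?_
  · change 1 / nr4 x.1 * x.1.1.1.1 = _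
    ring
  · change 1 / nr4 x.1 * x.1.1.1.2 = _
    ring
  · change 1 / nr4 x.1 * x.1.1.2 = _
    ring
  · change 1 / nr4 x.1 * x.1.2 = _
    ring

theorem HE_gi : HE gi :=
  HE_of_homotopyEquiv gi gr ⟨Prod.fst, continuous_fst⟩ gh (fun _ => rfl) (fun a => (gr_gi a).symm)
    gh_zero gh_one

theorem RS_G : RS G 3 := RS.of_HE' HE_gi RS_R4

/-- `S² → R³ - 0` -/
def si : C(S2, Pn R3) where
  toFun a := ⟨((a.1 0, a.1 1), a.1 2), by
    intro h
    have h1 := a.2
    have e1 : a.1 0 = 0 := congrArg (fun x : R3 => x.1.1) h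
    have e2 : a.1 1 = 0 := congrArg (fun x : R3 => x.1.2) h
    have e3 : a.1 2 = 0 := congrArg (fun x : R3 => x.2) h
    rw [e1, e2, e3] at h1
    norm_num at h1⟩
  continuous_toFun := by
    refine Continuous.subtype_mk ?_ _
    have hv : ∀ i : Fin 3, Continuous fun p : S2 => p.1 i := fun i =>
      (continuous_apply i).comp continuous_subtype_val
    exact ((hv 0).prodMk (hv 1)).prodMk (hv 2)

/-- `R³ - 0 → S²` -/
def sr : C(Pn R3, S2) where
  toFun x := ⟨![x.1.1.1 / nr3 x.1, x.1.1.2 / nr3 x.1, x.1.2 / nr3 x.1], by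
    have h := nr3_sq x.1
    have h0 := (nr3_pos x).ne'
    simp only [Matrix.cons_val_zero, Matrix.cons_val_one, Matrix.cons_val]
    field_simp
    linarith⟩
  continuous_toFun := by
    refine Continuous.subtype_mk ?_ _
    have hn : Continuous fun x : Pn R3 => nr3 x.1 := nr3_cont.comp continuous_subtype_val
    have hd : ∀ f : Pn R3 → ℝ, Continuous f → Continuous fun x => f x / nr3 x.1 := fun f hf =>
      hf.div hn fun x => (nr3_pos x).ne'
    refine continuous_pi fun i => ?_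
    fin_cases i
    · exact hd _ (by fun_prop)
    · exact hd _ (by fun_prop)
    · exact hd _ (by fun_prop)

theorem sr_si (a : S2) : sr (si a) = a := by
  have h : nr3 (si a).1 = 1 := by
    change Real.sqrt (a.1 0 ^ 2 + a.1 1 ^ 2 + a.1 2 ^ 2) = 1
    rw [a.2, Real.sqrt_one]
  apply Subtype.ext
  change ![a.1 0 / nr3 (si a).1, a.1 1 / nr3 (si a).1, a.1 2 / nr3 (si a).1] = a.1
  rw [h, div_one, div_one, div_one]
  funext i
  fin_cases i <;> rfl

/-- the homotopy -/
def sh : C(Pn R3 × I, Pn R3) where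
  toFun q := ⟨((1 - (q.2 : ℝ)) + q.2 / nr3 q.1.1) • q.1.1,
    rad_ne q.1 (nr3_pos q.1) q.2.2.1 q.2.2.2⟩
  continuous_toFun := by
    refine Continuous.subtype_mk ?_ _
    have hn : Continuous fun q : Pn R3 × I => nr3 q.1.1 := nr3_cont.comp (by fun_prop)
    have h2 : Continuous fun q : Pn R3 × I => (q.2 : ℝ) / nr3 q.1.1 :=
      Continuous.div (by fun_prop) hn fun q => (nr3_pos q.1).ne'
    have h3 : Continuous fun q : Pn R3 × I => (1 - (q.2 : ℝ)) := by fun_prop
    have h4 : Continuous fun q : Pn R3 × I => q.1.1 := by fun_prop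
    exact (h3.add h2).smul h4

theorem sh_zero (x : Pn R3) : sh (x, 0) = x := by
  apply Subtype.ext
  change ((1 - (0 : ℝ)) + 0 / nr3 x.1) • x.1 = x.1
  simp

theorem sh_one (x : Pn R3) : sh (x, 1) = si (sr x) := by
  apply Subtype.ext
  change ((1 - (1 : ℝ)) + 1 / nr3 x.1) • x.1 = ((x.1.1.1 / nr3 x.1, x.1.1.2 / nr3 x.1),
    x.1.2 / nr3 x.1)
  rw [sub_self, zero_add]
  refine Prod.ext (Prod.ext ?_ ?_) ?_
  · change 1 / nr3 x.1 * x.1.1.1 = _
    ring
  · change 1 / nr3 x.1 * x.1.1.2 = _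
    ring
  · change 1 / nr3 x.1 * x.1.2 = _
    ring

theorem HE_si : HE si :=
  HE_of_homotopyEquiv si sr ⟨Prod.fst, continuous_fst⟩ sh (fun _ => rfl) (fun a => (sr_si a).symm)
    sh_zero sh_one

theorem RS_S2 : RS S2 2 := RS.of_HE' HE_si RS_R3

end

end Run7.h592
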