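import Pool.Agent.Run7.h592.Defs
import Pool.Agent.Y209.HB.HE
import Pool.Agent.Y209.HB.Base

/-!
# Topological objects used in the proof

`HB` is the library `Pool.Agent.Y209.HB` of rational singular homology (chains `Sing X n →₀ ℚ`,
`bdry`, `Cyc`, `Bdy`, `push`, `HE f` = `f` is a rational homology equivalence, `Ac X n` = every
`n`-cycle bounds, Mayer-Vietoris in `HB.MV`).
-/

set_option autoImplicit false

open scoped Topology Quaternion

namespace Run7.h592

open Pool.Agent.Y209.HB

noncomputable section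

/-- The unit interval. -/
abbrev I : Type := unitInterval

/-- The 3-sphere, as the group of the unit quaternions. -/
abbrev G : Type := Metric.sphere (0 : Quaternion ℝ) 1

/-- The 2-sphere. -/
abbrev S2 : Type := {v : Fin 3 → ℝ // v 0 ^ 2 + v 1 ^ 2 + v 2 ^ 2 = 1}

/-! ## The symmetric square -/

/-- exchange of the two points -/
def spRel (X : Type) (p q : X × X) : Prop := q = p ∨ q = p.swap

/-- The symmetric square of `X`: unordered pairs. -/
def SP (X : Type) : Type := Quot (spRel X)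

instance (X : Type) [TopologicalSpace X] : TopologicalSpace (SP X) :=
  inferInstanceAs (TopologicalSpace (Quot (spRel X)))

/-- the unordered pair of two points -/
def SP.mk {X : Type} (x y : X) : SP X := Quot.mk _ (x, y)

theorem SP.mk_comm {X : Type} (x y : X) : SP.mk x y = SP.mk y x :=
  Quot.sound (Or.inr rfl)

theorem SP.continuous_mk {X : Type} [TopologicalSpace X] :
    Continuous fun p : X × X => SP.mk p.1 p.2 := continuous_quot_mk

/-- the axis `x ↦ {x, x₀}` -/
def ax {X : Type} [TopologicalSpace X] (x₀ : X) : C(X, SP X) :=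
  ⟨fun x => SP.mk x x₀, SP.continuous_mk.comp (continuous_id.prodMk continuous_const)⟩

/-- the map induced on symmetric squares -/
def SP.map {X Y : Type} [TopologicalSpace X] [TopologicalSpace Y] (f : C(X, Y)) :
    C(SP X, SP Y) where
  toFun := Quot.map (fun p => (f p.1, f p.2)) (by
    rintro p q (h | h)
    · exact Or.inl (by rw [h])
    · exact Or.inr (by rw [h]; rfl))
  continuous_toFun := by
    refine continuous_quot_lift _ ?_
    exact continuous_quot_mk.comp (by fun_prop)

/-! ## The affine threefold -/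

/-- The affine threefold `x₁² + x₂² + x₃² = z³ - z` (its points; analytic topology). -/
abbrev Y : Type := {p : (Fin 3 → ℂ) × ℂ // p.1 0 ^ 2 + p.1 1 ^ 2 + p.1 2 ^ 2 = p.2 ^ 3 - p.2}

/-- the imaginary part of a quaternion, as a vector -/
def imv (a : Quaternion ℝ) : Fin 3 → ℝ := ![a.imI, a.imJ, a.imK]

theorem G.eq (a : G) : a.1.re ^ 2 + a.1.imI ^ 2 + a.1.imJ ^ 2 + a.1.imK ^ 2 = 1 := by
  have h := a.2
  rw [mem_sphere_zero_iff_norm] at h
  have h2 : ‖a.1‖ * ‖a.1‖ = 1 := by rw [h]; norm_num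
  rw [← Quaternion.normSq_eq_norm_mul_self, Quaternion.normSq_def'] at h2
  exact h2

/-- a quaternion from its coordinates -/
def qmk (r x y z : ℝ) : Quaternion ℝ := ⟨r, x, y, z⟩

theorem continuous_qmk : Continuous fun p : ℝ × ℝ × ℝ × ℝ => qmk p.1 p.2.1 p.2.2.1 p.2.2.2 := by
  have e : (fun p : ℝ × ℝ × ℝ × ℝ => qmk p.1 p.2.1 p.2.2.1 p.2.2.2) = fun p =>
      p.1 • qmk 1 0 0 0 + p.2.1 • qmk 0 1 0 0 + p.2.2.1 • qmk 0 0 1 0 + p.2.2.2 • qmk 0 0 0 1 := by
    funext p
    ext <;> simp [qmk]
  rw [e]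
  fun_prop

theorem qmk_mem {r x y z : ℝ} (h : r ^ 2 + x ^ 2 + y ^ 2 + z ^ 2 = 1) :
    qmk r x y z ∈ Metric.sphere (0 : Quaternion ℝ) 1 := by
  rw [mem_sphere_zero_iff_norm]
  have h3 : ‖qmk r x y z‖ * ‖qmk r x y z‖ = 1 := by
    rw [← Quaternion.normSq_eq_norm_mul_self, Quaternion.normSq_def']
    exact h
  have h4 := norm_nonneg (qmk r x y z)
  nlinarith

/-- the coordinate `z ∈ [-1, 0]` of `s1` -/
def zc (a : G) : ℝ := (a.1.re - 1) / 2

theorem zc_le (a : G) : 0 ≤ 1 - zc a := by
  have h := G.eq a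
  unfold zc
  nlinarith [sq_nonneg a.1.imI, sq_nonneg a.1.imJ, sq_nonneg a.1.imK, sq_nonneg (a.1.re - 1)]

theorem continuous_zc : Continuous zc := by
  unfold zc
  exact ((Quaternion.continuous_re.comp continuous_subtype_val).sub continuous_const).div_const _

/-- The first vanishing sphere, over `z ∈ [-1, 0]`. -/
def s1 : C(G, Y) where
  toFun a := ⟨(fun i => ((Real.sqrt (1 - zc a) * imv a.1 i / 2 : ℝ) : ℂ), (zc a : ℂ)), by
    have h := G.eq a
    have hs := Real.sq_sqrt (zc_le a)
    simp only [imv, Matrix.cons_val_zero, Matrix.cons_val_one, Matrix.cons_val]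
    norm_cast
    rw [div_pow, div_pow, div_pow, mul_pow, mul_pow, mul_pow, hs]
    have e : a.1.imI ^ 2 + a.1.imJ ^ 2 + a.1.imK ^ 2 = 1 - a.1.re ^ 2 := by linarith
    have : (1 - zc a) * a.1.imI ^ 2 / 2 ^ 2 + (1 - zc a) * a.1.imJ ^ 2 / 2 ^ 2 +
        (1 - zc a) * a.1.imK ^ 2 / 2 ^ 2 = (1 - zc a) * (a.1.imI ^ 2 + a.1.imJ ^ 2 + a.1.imK ^ 2) / 4 := by
      ring
    rw [this, e]
    unfold zc
    ring⟩
  continuous_toFun := by
    refine Continuous.subtype_mk (Continuous.prodMk ?_ ?_) _
    · refine continuous_pi fun i => Complex.continuous_ofReal.comp ?_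
      refine Continuous.div_const (Continuous.mul ?_ ?_) _
      · exact Real.continuous_sqrt.comp (continuous_const.sub continuous_zc)
      · fin_cases i
        · exact Quaternion.continuous_imI.comp continuous_subtype_val
        · exact Quaternion.continuous_imJ.comp continuous_subtype_val
        · exact Quaternion.continuous_imK.comp continuous_subtype_val
    · exact Complex.continuous_ofReal.comp continuous_zc

/-- The automorphism `(x, z) ↦ (i x, -z)` of the threefold. -/
def iotaY : C(Y, Y) where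
  toFun p := ⟨(fun i => Complex.I * p.1.1 i, - p.1.2), by
    have h := p.2
    simp only [mul_pow, Complex.I_sq]
    linear_combination -h⟩
  continuous_toFun := by fun_prop

/-- The second vanishing sphere, over `z ∈ [0, 1]`. -/
def s2 : C(G, Y) := iotaY.comp s1

/-- the base point `(0, 0)` -/
def y0 : Y := ⟨(0, 0), by simp⟩

theorem s1_one : s1 1 = y0 := by
  apply Subtype.ext
  refine Prod.ext ?_ ?_
  · funext i
    fin_cases i <;> simp [s1, y0, imv]
  · simp [s1, y0, zc]

theorem s2_one : s2 1 = y0 := by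
  change iotaY (s1 1) = y0
  rw [s1_one]
  apply Subtype.ext
  refine Prod.ext ?_ ?_
  · funext i
    simp [iotaY, y0]
  · simp [iotaY, y0]

/-- `S³ × S³ → Sym² Y`, `(a, b) ↦ {s1 a, s2 b}`. -/
def gmap : C(G × G, SP Y) :=
  ⟨fun p => SP.mk (s1 p.1) (s2 p.2), SP.continuous_mk.comp
    ((s1.continuous.comp continuous_fst).prodMk (s2.continuous.comp continuous_snd))⟩

/-! ## The zigzag -/

/-- `E⁰ × J₁`: the product of the affine elliptic curve `w² = z³ - z` and of the affine quadric
`x₁² + x₂² + x₃² = 1`. -/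
abbrev AA : Type := {p : (ℂ × ℂ) × (Fin 3 → ℂ) // p.1.1 ^ 2 = p.1.2 ^ 3 - p.1.2 ∧
  p.2 0 ^ 2 + p.2 1 ^ 2 + p.2 2 ^ 2 = 1}

/-- `((w, z), x) ↦ (w x, z)` -/
def aY : C(AA, Y) where
  toFun p := ⟨(fun i => p.1.1.1 * p.1.2 i, p.1.1.2), by
    have h1 := p.2.1
    have h2 := p.2.2
    simp only [mul_pow]
    linear_combination p.1.1.1 ^ 2 * h2 + h1⟩
  continuous_toFun := by fun_prop

/-- `S¹ × S² → S³` of degree two, `(ζ, n) ↦ (- Re ζ, Im ζ • n)`. -/
def phi : C(Circle × S2, G) where
  toFun p := ⟨qmk (- (p.1 : ℂ).re) ((p.1 : ℂ).im * p.2.1 0) ((p.1 : ℂ).im * p.2.1 1)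
      ((p.1 : ℂ).im * p.2.1 2), by
    apply qmk_mem
    have h1 : (p.1 : ℂ).re ^ 2 + (p.1 : ℂ).im ^ 2 = 1 := by
      have := Circle.normSq_coe p.1
      rw [Complex.normSq_apply] at this
      linarith
    have h2 := p.2.2
    linear_combination h1 + (p.1 : ℂ).im ^ 2 * h2⟩
  continuous_toFun := by
    refine Continuous.subtype_mk ?_ _
    have h : Continuous fun p : Circle × S2 => ((- (p.1 : ℂ).re, (p.1 : ℂ).im * p.2.1 0,
      (p.1 : ℂ).im * p.2.1 1, (p.1 : ℂ).im * p.2.1 2) : ℝ × ℝ × ℝ × ℝ) := by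
      have hc : Continuous fun p : Circle × S2 => (p.1 : ℂ) := by fun_prop
      have hv : ∀ i : Fin 3, Continuous fun p : Circle × S2 => p.2.1 i := fun i =>
        (continuous_apply i).comp (continuous_subtype_val.comp continuous_snd)
      exact (Complex.continuous_re.comp hc).neg.prodMk (((Complex.continuous_im.comp hc).mul
        (hv 0)).prodMk (((Complex.continuous_im.comp hc).mul (hv 1)).prodMk
        ((Complex.continuous_im.comp hc).mul (hv 2))))
    exact continuous_qmk.comp h

/-- the oval of the elliptic curve over `[-1, 0]`, times the real 2-sphere -/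
def tauA : C(Circle × S2, AA) where
  toFun p := ⟨((((p.1 : ℂ).im / 2 * Real.sqrt (1 + (1 + (p.1 : ℂ).re) / 2) : ℝ),
      (-(1 + (p.1 : ℂ).re) / 2 : ℝ)), fun i => (p.2.1 i : ℝ)), by
    have h1 : (p.1 : ℂ).re ^ 2 + (p.1 : ℂ).im ^ 2 = 1 := by
      have := Circle.normSq_coe p.1
      rw [Complex.normSq_apply] at this
      linarith
    have h0 : 0 ≤ 1 + (1 + (p.1 : ℂ).re) / 2 := by nlinarith [sq_nonneg (p.1 : ℂ).im]
    have hs := Real.sq_sqrt h0
    have h2 := p.2.2
    constructor
    · simp only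
      norm_cast
      rw [mul_pow, hs]
      linear_combination (1 + (1 + (p.1 : ℂ).re) / 2) / 4 * h1
    · simp only
      norm_cast⟩
  continuous_toFun := by
    have hc : Continuous fun p : Circle × S2 => (p.1 : ℂ) := by fun_prop
    have hr := Complex.continuous_re.comp hc
    have hi := Complex.continuous_im.comp hc
    have hv : ∀ i : Fin 3, Continuous fun p : Circle × S2 => p.2.1 i := fun i =>
      (continuous_apply i).comp (continuous_subtype_val.comp continuous_snd)
    refine Continuous.subtype_mk (Continuous.prodMk (Continuous.prodMk ?_ ?_) ?_) _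
    · refine Complex.continuous_ofReal.comp ((hi.div_const 2).mul (Real.continuous_sqrt.comp ?_))
      exact continuous_const.add ((continuous_const.add hr).div_const 2)
    · exact Complex.continuous_ofReal.comp ((continuous_const.add hr).neg.div_const 2)
    · exact continuous_pi fun i => Complex.continuous_ofReal.comp (hv i)

theorem aY_tauA (p : Circle × S2) : aY (tauA p) = s1 (phi p) := by
  have e : 1 - zc (phi p) = 1 + (1 + (p.1 : ℂ).re) / 2 := by
    change 1 - (- (p.1 : ℂ).re - 1) / 2 = _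
    ring
  apply Subtype.ext
  refine Prod.ext ?_ ?_
  · funext i
    change (((p.1 : ℂ).im / 2 * Real.sqrt (1 + (1 + (p.1 : ℂ).re) / 2) : ℝ) : ℂ) *
      ((p.2.1 i : ℝ) : ℂ) = ((Real.sqrt (1 - zc (phi p)) * imv (phi p).1 i / 2 : ℝ) : ℂ)
    rw [e]
    norm_cast
    fin_cases i
    · change _ = √(1 + (1 + (p.1 : ℂ).re) / 2) * ((p.1 : ℂ).im * p.2.1 0) / 2
      simp only [Fin.zero_eta]
      ring
    · change _ = √(1 + (1 + (p.1 : ℂ).re) / 2) * ((p.1 : ℂ).im * p.2.1 1) / 2
      simp only [Fin.mk_one]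
      ring
    · change _ = √(1 + (1 + (p.1 : ℂ).re) / 2) * ((p.1 : ℂ).im * p.2.1 2) / 2
      simp only [Fin.reduceFinMk]
      ring
  · change ((-(1 + (p.1 : ℂ).re) / 2 : ℝ) : ℂ) = ((((- (p.1 : ℂ).re) - 1) / 2 : ℝ) : ℂ)
    norm_cast
    ring

end

end Run7.h592
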