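import Pool.Agent.Run7.h592.Tasks
import Pool.Agent.Y209.HB.Tools

/-! Utilities for explicit rational chains. -/

set_option autoImplicit false

open scoped Topology

namespace Run7.h592

open Pool.Agent.Y209.HB

noncomputable section

/-- cancellation of double alternating sums of chains -/
theorem alt_cancelM {α : Type} (n : ℕ) (F : Fin (n + 2) → Fin (n + 3) → (α →₀ ℚ))
    (h : ∀ i j : Fin (n + 2), i ≤ j → F i j.succ = F j i.castSucc) :
    ∑ j : Fin (n + 3), ∑ i : Fin (n + 2), (-1 : ℚ) ^ (j : ℕ) • ((-1 : ℚ) ^ (i : ℕ) • F i j) = 0 := by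
  ext τ
  simp only [Finsupp.coe_finsetSum, Finset.sum_apply, Finsupp.smul_apply, smul_eq_mul,
    Finsupp.coe_zero, Pi.zero_apply]
  apply Sc.alt_cancel n (fun i j => F i j τ)
  intro i j hij
  simp only [h i j hij]

/-- the point of the 0-simplex -/
def v0 : Dl 0 := stdSimplex.vertex 0

theorem dl0_eq (t : Dl 0) : t = v0 := Subsingleton.elim (α := stdSimplex ℝ (Fin 1)) _ _

/-- the second coordinate of the 1-simplex -/
def dl1 : C(Dl 1, I) :=
  ⟨fun t => ⟨t.1 1, t.2.1 1, by
    have h := t.2.2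
    have h0 := t.2.1 0
    rw [Fin.sum_univ_two] at h
    linarith⟩, by
    apply Continuous.subtype_mk
    exact (continuous_apply 1).comp continuous_subtype_val⟩

theorem dl1_zero (t : Dl 0) : dl1 (dlF 0 0 t) = 1 := by
  apply Subtype.ext
  change (FunOnFinite.linearMap ℝ ℝ ((0 : Fin 2).succAbove) t.1) 1 = 1
  rw [FunOnFinite.linearMap_apply_apply]
  have h := t.2.2
  have e : ∀ i : Fin 1, (0 : Fin 2).succAbove i = 1 := by decide
  simp only [e]
  simpa using h

theorem dl1_one (t : Dl 0) : dl1 (dlF 0 1 t) = 0 := by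
  apply Subtype.ext
  change (FunOnFinite.linearMap ℝ ℝ ((1 : Fin 2).succAbove) t.1) 1 = 0
  rw [FunOnFinite.linearMap_apply_apply]
  have e : ∀ i : Fin 1, (1 : Fin 2).succAbove i = 0 := by decide
  simp only [e]
  simp

section Cn

variable {X : Type} [TopologicalSpace X]

theorem path_bdry {x y : X} (γ : Path x y) : bdry X 0 (Finsupp.single
    ((γ.toContinuousMap.comp dl1 : C(Dl 1, X)) : Sing X 1) 1) =
      Finsupp.single (cs y 0) 1 - Finsupp.single (cs x 0) 1 := by
  rw [bdry_single, Fin.sum_univ_two]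
  have e0 : sface 0 0 (γ.toContinuousMap.comp dl1) = cs y 0 := by
    ext t
    change γ (dl1 (dlF 0 0 t)) = y
    rw [dl1_zero, γ.target]
  have e1 : sface 0 1 (γ.toContinuousMap.comp dl1) = cs x 0 := by
    ext t
    change γ (dl1 (dlF 0 1 t)) = x
    rw [dl1_one, γ.source]
  rw [e0, e1]
  simp [sub_eq_add_neg]

theorem sing0_eq (σ : Sing X 0) : σ = cs (σ v0) 0 := by
  ext t
  rw [dl0_eq t]
  rfl

/-- path connected spaces are homologically connected -/
theorem Cn_of_pc (h : PathConnectedSpace X) : Cn X := by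
  intro z hz
  obtain ⟨x₀⟩ := h.nonempty
  have key : ∀ z : Sing X 0 →₀ ℚ, z - ep X 0 z • Finsupp.single (cs x₀ 0) (1 : ℚ) ∈ Bdy X 0 := by
    intro z
    induction z using Finsupp.induction_linear with
    | zero => simp
    | add a b ha hb =>
      have := (Bdy X 0).add_mem ha hb
      rw [map_add, add_smul]
      convert this using 1
      abel
    | single σ c =>
      rw [ep_single]
      have h1 : Finsupp.single σ (1 : ℚ) - Finsupp.single (cs x₀ 0) 1 ∈ Bdy X 0 := by
        rw [sing0_eq σ, ← path_bdry (h.somePath x₀ (σ v0))]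
        exact ⟨_, rfl⟩
      have h2 := (Bdy X 0).smul_mem c h1
      rw [smul_sub, Finsupp.smul_single, smul_eq_mul, mul_one] at h2
      exact h2
  have h1 := key z
  rw [hz, zero_smul, sub_zero] at h1
  exact h1

end Cn

section Lft

variable {X : Type} [TopologicalSpace X]

/-- a linear left inverse of the inclusion of chains -/
def lft (O : Set X) (m : ℕ) : (Sing X m →₀ ℚ) →ₗ[ℚ] (Sing O m →₀ ℚ) :=
  (LinearMap.exists_leftInverse_of_injective (push (sub O) m)
    (LinearMap.ker_eq_bot.2 (mvx_inj_sub O m))).choose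

theorem lft_push (O : Set X) (m : ℕ) (z : Sing O m →₀ ℚ) : lft O m (push (sub O) m z) = z :=
  LinearMap.congr_fun (LinearMap.exists_leftInverse_of_injective (push (sub O) m)
    (LinearMap.ker_eq_bot.2 (mvx_inj_sub O m))).choose_spec z

theorem push_lft {O : Set X} {m : ℕ} {z : Sing X m →₀ ℚ} (hz : z ∈ sp O m) :
    push (sub O) m (lft O m z) = z := by
  obtain ⟨z', rfl⟩ := exists_lift hz
  rw [lft_push]

theorem lft_bdry {O : Set X} {m : ℕ} {z : Sing X (m + 1) →₀ ℚ} (hz : z ∈ sp O (m + 1)) :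
    lft O m (bdry X m z) = bdry O m (lft O (m + 1) z) := by
  apply mvx_inj_sub O m
  rw [push_lft (bdry_mem_sp hz), ← bdry_push, push_lft hz]

theorem lft_Cyc {O : Set X} {m : ℕ} {z : Sing X m →₀ ℚ} (hz : z ∈ sp O m) (hc : z ∈ Cyc X m) :
    lft O m z ∈ Cyc O m := by
  apply mem_Cyc_of_push (sub O) Subtype.val_injective
  rw [push_lft hz]
  exact hc

end Lft

end

end Run7.h592
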